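import Mathlib

section

set_option autoImplicit false

/-!
Completions of a number field at finitely many places, archimedean or not: density of the field
in the product, and the finite completions are local fields (helper43).
-/

namespace Pool.Agent.Lib.MP_12adaf_nt

open NumberField IsDedekindDomain IsDedekindDomain.HeightOneSpectrum

universe u

section FiniteCompletion

variable {k : Type u} [Field k] [NumberField k] (w : HeightOneSpectrum (𝓞 k))

/-- The norm of the embedding. -/
lemma norm_algebraMap_fin (q : k) :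
    ‖algebraMap k (w.adicCompletion k) q‖ = NumberField.HeightOneSpectrum.adicAbv k w q :=
  FinitePlace.norm_embedding w q

instance charZero_fin : CharZero (w.adicCompletion k) :=
  charZero_of_injective_algebraMap (algebraMap k (w.adicCompletion k)).injective

open Valued in
/-- The completion at a finite place as a nontrivially normed field; the norm is the one of
`instNormedFieldValuedAdicCompletion`. -/
noncomputable instance nnf_fin : NontriviallyNormedField (w.adicCompletion k) :=
  Valued.toNontriviallyNormedField (w.adicCompletion k) (WithZero (Multiplicative ℤ))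

lemma nnf_fin_toNormedField : (nnf_fin w).toNormedField =
    NumberField.HeightOneSpectrum.instNormedFieldValuedAdicCompletion k w := rfl

instance ultra_fin : IsUltrametricDist (w.adicCompletion k) := inferInstance

lemma residue_eq_zero_fin (x : w.adicCompletionIntegers k) :
    IsLocalRing.residue (w.adicCompletionIntegers k) x = 0 ↔
      Valued.v (x : w.adicCompletion k) < 1 := by
  rw [IsLocalRing.residue_eq_zero_iff, IsLocalRing.mem_maximalIdeal, mem_nonunits_iff,
    adicCompletionIntegers.isUnit_iff_valued_eq_one]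
  exact ⟨fun h => lt_of_le_of_ne x.2 h, fun h => h.ne⟩

lemma finite_residue_fin : Finite (IsLocalRing.ResidueField (w.adicCompletionIntegers k)) := by
  let f : 𝓞 k →+* IsLocalRing.ResidueField (w.adicCompletionIntegers k) :=
    (IsLocalRing.residue (w.adicCompletionIntegers k)).comp
      (algebraMap (𝓞 k) (w.adicCompletionIntegers k))
  have hker : ∀ r ∈ w.asIdeal, f r = 0 := by
    intro r hr
    change IsLocalRing.residue _ (algebraMap (𝓞 k) (w.adicCompletionIntegers k) r) = 0
    rw [residue_eq_zero_fin, algebraMap_adicCompletionIntegers_apply,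
      valuedAdicCompletion_eq_valuation']
    exact (w.valuation_lt_one_iff_mem r).2 hr
  have hsurj : Function.Surjective f := by
    intro y
    obtain ⟨x, rfl⟩ := IsLocalRing.residue_surjective y
    obtain ⟨q, hq⟩ : ∃ q : k, ‖(x : w.adicCompletion k) - algebraMap k (w.adicCompletion k) q‖ < 1 := by
      obtain ⟨q, hq⟩ := (w.denseRange_algebraMap k).exists_dist_lt (x : w.adicCompletion k)
        one_pos
      rw [dist_eq_norm] at hq
      exact ⟨q, hq⟩
    have hq1 : Valued.v ((x : w.adicCompletion k) - algebraMap k (w.adicCompletion k) q) < 1 :=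
      Valued.toNormedField.norm_lt_one_iff.1 hq
    have hq2 : w.valuation k q ≤ 1 := by
      rw [← valuedAdicCompletion_eq_valuation']
      have e : (algebraMap k (w.adicCompletion k) q) =
          (x : w.adicCompletion k) - ((x : w.adicCompletion k) - algebraMap k _ q) := by ring
      change Valued.v (algebraMap k (w.adicCompletion k) q) ≤ 1
      rw [e]
      exact (Valuation.map_sub _ _ _).trans (max_le x.2 hq1.le)
    obtain ⟨r, hr⟩ := w.exists_valuation_sub_lt_of_integer hq2 1
    refine ⟨r, ?_⟩
    change IsLocalRing.residue _ (algebraMap (𝓞 k) (w.adicCompletionIntegers k) r) = _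
    rw [← sub_eq_zero, ← map_sub, residue_eq_zero_fin]
    have e : ((algebraMap (𝓞 k) (w.adicCompletionIntegers k) r - x : w.adicCompletionIntegers k) :
        w.adicCompletion k) = algebraMap k (w.adicCompletion k) (algebraMap (𝓞 k) k r - q) -
        ((x : w.adicCompletion k) - algebraMap k (w.adicCompletion k) q) := by
      rw [map_sub]
      push_cast
      rw [algebraMap_adicCompletionIntegers_apply]
      change algebraMap k (w.adicCompletion k) (algebraMap (𝓞 k) k r) - _ = _
      ring
    rw [e]
    refine lt_of_le_of_lt (Valuation.map_sub _ _ _) (max_lt ?_ hq1)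
    have := valuedAdicCompletion_eq_valuation' (v := w) (algebraMap (𝓞 k) k r - q)
    change Valued.v (algebraMap k (w.adicCompletion k) (algebraMap (𝓞 k) k r - q)) = _ at this
    rw [this]
    simpa using hr
  have hfin : Finite (𝓞 k ⧸ w.asIdeal) := w.asIdeal.finiteQuotientOfFreeOfNeBot w.ne_bot
  exact Finite.of_surjective (Ideal.Quotient.lift w.asIdeal f hker)
    (Ideal.Quotient.lift_surjective_of_surjective _ hker hsurj)

instance proper_fin : ProperSpace (w.adicCompletion k) := by
  refine Valued.integer.properSpace_iff_completeSpace_and_isDiscreteValuationRing_integer_and_finite_residueField.2 ⟨inferInstance, ?_, ?_⟩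
  · exact (inferInstance : IsDiscreteValuationRing (w.adicCompletionIntegers k))
  · exact finite_residue_fin w

end FiniteCompletion

section Places

variable (k : Type u) [Field k] [NumberField k]

/-- The places of a number field, archimedean or not. -/
abbrev Pl : Type u := InfinitePlace k ⊕ HeightOneSpectrum (𝓞 k)

/-- The absolute value of a place. -/
noncomputable def plAbv : Pl k → AbsoluteValue k ℝ
  | .inl v => v.1
  | .inr w => NumberField.HeightOneSpectrum.adicAbv k w

/-- The completion at a place. -/
def PlC : Pl k → Type u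
  | .inl v => v.Completion
  | .inr w => w.adicCompletion k

noncomputable instance plNormedField : ∀ i : Pl k, NormedField (PlC k i)
  | .inl v => inferInstanceAs (NormedField v.Completion)
  | .inr w => inferInstanceAs (NormedField (w.adicCompletion k))

/-- The embedding of the number field in the completion at a place. -/
noncomputable def plEmb : ∀ i : Pl k, k →+* PlC k i
  | .inl v => algebraMap k v.Completion
  | .inr w => algebraMap k (w.adicCompletion k)

instance plCharZero (i : Pl k) : CharZero (PlC k i) := charZero_of_injective_ringHom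
  (plEmb k i).injective

lemma norm_plEmb (i : Pl k) (q : k) : ‖plEmb k i q‖ = plAbv k i q := by
  rcases i with v | w
  · change ‖algebraMap k v.Completion q‖ = v.1 q
    rw [InfinitePlace.Completion.algebraMap_apply]
    exact InfinitePlace.Completion.norm_coe v (WithAbs.toAbs v.1 q)
  · exact norm_algebraMap_fin w q

lemma denseRange_plEmb (i : Pl k) : DenseRange (plEmb k i) := by
  rcases i with v | w
  · exact (InfinitePlace.Completion.denseRange_coe v).comp
      (WithAbs.toAbs_surjective v.1).denseRange (InfinitePlace.Completion.continuous_coe v)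
  · exact w.denseRange_algebraMap k

lemma plAbv_isNontrivial (i : Pl k) : (plAbv k i).IsNontrivial := by
  rcases i with v | w
  · exact v.isNontrivial
  · obtain ⟨r, hr, hr0⟩ := Submodule.exists_mem_ne_zero_of_ne_bot w.ne_bot
    refine ⟨algebraMap (𝓞 k) k r, ?_, ?_⟩
    · simpa using hr0
    · have := (FinitePlace.norm_lt_one_iff_mem k w r).2 hr
      rw [FinitePlace.norm_embedding] at this
      exact this.ne

lemma plAbv_not_isEquiv {i j : Pl k} (h : i ≠ j) : ¬ (plAbv k i).IsEquiv (plAbv k j) := by
  have mixed : ∀ (v : InfinitePlace k) (w : HeightOneSpectrum (𝓞 k)),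
      ¬ (v.1).IsEquiv (NumberField.HeightOneSpectrum.adicAbv k w) := by
    intro v w he
    have h1 := he.lt_one_iff (x := (2 : k)⁻¹)
    have h2 : v.1 (2 : k)⁻¹ < 1 := by
      rw [map_inv₀]
      have : v.1 (2 : k) = 2 := by
        have := v.map_natCast 2
        change v (2 : k) = 2
        simpa using this
      rw [this]
      norm_num
    have h3 := h1.1 h2
    rw [map_inv₀] at h3
    have h4 := NumberField.HeightOneSpectrum.adicAbv_natCast_le_one k w 2
    have h5 : 0 < NumberField.HeightOneSpectrum.adicAbv k w 2 :=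
      AbsoluteValue.pos _ two_ne_zero
    push_cast at h4
    rw [inv_lt_one₀ h5] at h3
    linarith
  rcases i with v | w <;> rcases j with v' | w'
  · intro he
    exact h (by rw [InfinitePlace.eq_iff_isEquiv.2 he])
  · exact mixed v w'
  · intro he
    exact mixed v' w he.symm
  · intro he
    have hne : w ≠ w' := fun h' => h (by rw [h'])
    obtain ⟨x, hx1, hx2⟩ : ∃ x : 𝓞 k, x ∈ w.asIdeal ∧ x ∉ w'.asIdeal := by
      by_contra! H
      exact hne <| HeightOneSpectrum.ext_iff.mpr <|
        Ideal.IsMaximal.eq_of_le (isMaximal w) Ideal.IsPrime.ne_top' H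
    have h1 := (FinitePlace.norm_lt_one_iff_mem k w x).2 hx1
    have h2 := (FinitePlace.norm_eq_one_iff_notMem k w' x).2 hx2
    rw [FinitePlace.norm_embedding] at h1 h2
    have h3 := he.lt_one_iff.1 h1
    change NumberField.HeightOneSpectrum.adicAbv k w' _ < 1 at h3
    linarith

/-- **Weak approximation** at a finite family of distinct places. -/
theorem denseRange_places {ι : Type*} [Finite ι] (f : ι → Pl k) (hf : Function.Injective f) :
    DenseRange (fun (q : k) (i : ι) => plEmb k (f i) q) := by
  have := Fintype.ofFinite ι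
  rw [Metric.denseRange_iff]
  intro z r hr
  have h1 : ∀ i, ∃ a : k, dist (z i) (plEmb k (f i) a) < r / 2 := fun i =>
    (denseRange_plEmb k (f i)).exists_dist_lt (z i) (by positivity)
  choose a ha using h1
  have h2 := AbsoluteValue.denseRange_algebraMap_pi (v := fun i => plAbv k (f i))
    (fun i => plAbv_isNontrivial k (f i))
    (fun i j hij => plAbv_not_isEquiv k (fun h => hij (hf h)))
  obtain ⟨q, hq⟩ := h2.exists_dist_lt (fun i => WithAbs.toAbs (plAbv k (f i)) (a i))
    (show (0 : ℝ) < r / 2 by positivity)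
  refine ⟨q, ?_⟩
  rw [dist_pi_lt_iff hr]
  rw [dist_pi_lt_iff (by positivity)] at hq
  intro i
  have h3 := hq i
  rw [dist_eq_norm] at h3
  have h4 : ‖WithAbs.toAbs (plAbv k (f i)) (a i) - algebraMap k (∀ i, WithAbs (plAbv k (f i))) q i‖
      = plAbv k (f i) (a i - q) := WithAbs.norm_toAbs_eq (plAbv k (f i)) (a i - q)
  rw [h4, ← norm_plEmb, map_sub, ← dist_eq_norm] at h3
  calc dist (z i) (plEmb k (f i) q)
      ≤ dist (z i) (plEmb k (f i) (a i)) + dist (plEmb k (f i) (a i)) (plEmb k (f i) q) :=
        dist_triangle _ _ _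
    _ < r / 2 + r / 2 := add_lt_add (ha i) h3
    _ = r := add_halves r

/-- Weak approximation, in explicit form. -/
theorem exists_close_places (S : Finset (InfinitePlace k)) (T : Finset (HeightOneSpectrum (𝓞 k)))
    (a : ∀ v : S, v.1.Completion) (b : ∀ w : T, w.1.adicCompletion k) {ε : ℝ} (hε : 0 < ε) :
    ∃ q : k, (∀ v : S, ‖algebraMap k v.1.Completion q - a v‖ < ε) ∧
      (∀ w : T, ‖algebraMap k (w.1.adicCompletion k) q - b w‖ < ε) := by
  let f : S ⊕ T → Pl k := Sum.map Subtype.val Subtype.val
  have hf : Function.Injective f := Sum.map_injective.2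
    ⟨Subtype.val_injective, Subtype.val_injective⟩
  let z : ∀ i : S ⊕ T, PlC k (f i) := fun i => match i with
    | .inl v => a v
    | .inr w => b w
  obtain ⟨q, hq⟩ := (denseRange_places k f hf).exists_dist_lt z hε
  rw [dist_pi_lt_iff hε] at hq
  refine ⟨q, fun v => ?_, fun w => ?_⟩
  · have := hq (Sum.inl v)
    rw [dist_comm, dist_eq_norm] at this
    exact this
  · have := hq (Sum.inr w)
    rw [dist_comm, dist_eq_norm] at this
    exact this

omit [NumberField k] in
variable {k} in
/-- The completion at an infinite place is isometrically isomorphic to `ℝ` or `ℂ`. -/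
theorem exists_equiv_real_or_complex (v : InfinitePlace k) :
    (∃ e : v.Completion ≃+* ℝ, ∀ x, ‖e x‖ = ‖x‖) ∨ (∃ e : v.Completion ≃+* ℂ, ∀ x, ‖e x‖ = ‖x‖) := by
  rcases v.isReal_or_isComplex with h | h
  · refine Or.inl ⟨InfinitePlace.Completion.ringEquivRealOfIsReal h, fun x => ?_⟩
    have := (InfinitePlace.Completion.isometry_extensionEmbeddingOfIsReal h).dist_eq x 0
    rw [map_zero, dist_zero_right, dist_zero_right] at this
    exact this
  · refine Or.inr ⟨InfinitePlace.Completion.ringEquivComplexOfIsComplex h, fun x => ?_⟩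
    have := (InfinitePlace.Completion.isometry_extensionEmbedding v).dist_eq x 0
    rw [map_zero, dist_zero_right, dist_zero_right] at this
    exact this

end Places

end Pool.Agent.Lib.MP_12adaf_nt
end

section

section

/-!
# Partial fraction identities

For points `x : ι → C` and weights `c : ι → C` we write `cauchySum x c z = ∑ j, c j / (z - x j)`.
With the convention `a / 0 = 0` the value at `z = x i` is the sum over `j ≠ i`.
-/

namespace Pool.Agent.Lib.MP_12adaf_nt

open Finset Polynomial

variable {C : Type*} [Field C] {ι : Type*} [Fintype ι] [DecidableEq ι]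

/-- `∑ j, c j / (z - x j)`; terms with `z = x j` are dropped. -/
def cauchySum (x c : ι → C) (z : C) : C := ∑ j, c j / (z - x j)

/-- The matrix `1 / (x i - x j)` (zero diagonal). -/
def cauchyMat (x : ι → C) : Matrix ι ι C := Matrix.of fun i j => (x i - x j)⁻¹

lemma cauchyMat_mulVec (x c : ι → C) (i : ι) :
    (cauchyMat x).mulVec c i = cauchySum x c (x i) := by
  simp [cauchyMat, cauchySum, Matrix.mulVec, dotProduct, div_eq_inv_mul]

lemma cauchyMat_transpose (x : ι → C) : (cauchyMat x).transpose = - cauchyMat x := by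
  ext i j
  simp only [cauchyMat, Matrix.transpose_apply, Matrix.of_apply, Matrix.neg_apply]
  rw [← inv_neg, neg_sub]

/-- The basic partial fraction identity. -/
lemma sq_cauchySum (x c : ι → C) (hx : Function.Injective x) (e z : C)
    (hz : ∀ j, c j ≠ 0 → z ≠ x j) :
    (e + cauchySum x c z) ^ 2 = e ^ 2 +
      ∑ j, (c j ^ 2 / (z - x j) ^ 2 + 2 * c j * (e + cauchySum x c (x j)) / (z - x j)) := by
  have key : (cauchySum x c z) ^ 2 =
      ∑ j, (c j ^ 2 / (z - x j) ^ 2 + 2 * c j * (cauchySum x c (x j)) / (z - x j)) := by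
    have h1 : (cauchySum x c z) ^ 2 = ∑ j, ∑ l, (c j / (z - x j)) * (c l / (z - x l)) := by
      rw [sq, cauchySum, Finset.sum_mul_sum]
    have h2 : ∀ j l, (c j / (z - x j)) * (c l / (z - x l)) =
        (if j = l then c j ^ 2 / (z - x j) ^ 2 else 0) +
        (c j * (c l / (x j - x l)) / (z - x j) + c l * (c j / (x l - x j)) / (z - x l)) := by
      intro j l
      by_cases hjl : j = l
      · subst hjl
        simp only [if_true, sub_self, div_zero, mul_zero, zero_div, add_zero]
        rw [div_mul_div_comm, sq, sq]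
      · rw [if_neg hjl]
        by_cases hj : c j = 0
        · simp [hj]
        by_cases hl : c l = 0
        · simp [hl]
        have h3 : z - x j ≠ 0 := sub_ne_zero.mpr (hz j hj)
        have h4 : z - x l ≠ 0 := sub_ne_zero.mpr (hz l hl)
        have h5 : x j - x l ≠ 0 := sub_ne_zero.mpr (fun h => hjl (hx h))
        have h6 : x l - x j ≠ 0 := sub_ne_zero.mpr (fun h => hjl (hx h.symm))
        field_simp
        ring
    rw [h1]
    simp_rw [h2]
    simp_rw [Finset.sum_add_distrib]
    have h7 : ∑ j, ∑ l, c j * (c l / (x j - x l)) / (z - x j) =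
        ∑ j, c j * cauchySum x c (x j) / (z - x j) := by
      refine Finset.sum_congr rfl fun j _ => ?_
      rw [cauchySum, Finset.mul_sum, Finset.sum_div]
    have h8 : ∑ j, ∑ l, c l * (c j / (x l - x j)) / (z - x l) =
        ∑ j, c j * cauchySum x c (x j) / (z - x j) := by
      rw [Finset.sum_comm, h7]
    rw [h7, h8]
    simp only [Finset.sum_ite_eq, Finset.mem_univ, if_true]
    congr 1
    rw [← Finset.sum_add_distrib]
    refine Finset.sum_congr rfl fun j _ => ?_
    ring
  have h9 : ∑ j, (c j ^ 2 / (z - x j) ^ 2 + 2 * c j * (e + cauchySum x c (x j)) / (z - x j)) =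
      ∑ j, (c j ^ 2 / (z - x j) ^ 2 + 2 * c j * (cauchySum x c (x j)) / (z - x j)) +
      2 * e * cauchySum x c z := by
    rw [cauchySum, Finset.mul_sum, ← Finset.sum_add_distrib]
    refine Finset.sum_congr rfl fun j _ => ?_
    ring
  rw [h9, ← key]
  ring

/-- `∑_{i} c i * ∑_{j ≠ i} c j / (x i - x j) = 0` by antisymmetry. -/
lemma sum_mul_cauchySum (x c : ι → C) :
    2 * ∑ i, c i * cauchySum x c (x i) = 0 := by
  have h : ∑ i, c i * cauchySum x c (x i) = - ∑ i, c i * cauchySum x c (x i) := by
    conv_rhs => rw [← Finset.sum_neg_distrib]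
    simp only [cauchySum, Finset.mul_sum, ← Finset.sum_neg_distrib]
    rw [Finset.sum_comm]
    refine Finset.sum_congr rfl fun i _ => Finset.sum_congr rfl fun j _ => ?_
    rw [← neg_sub (x i) (x j), div_neg]
    ring
  linear_combination h

/-- The partial fraction identity multiplied by `z`. -/
lemma mul_sq_cauchySum (x c : ι → C) (hx : Function.Injective x) (e z : C)
    (hz : ∀ j, c j ≠ 0 → z ≠ x j) :
    z * (e + cauchySum x c z) ^ 2 = e ^ 2 * z + 2 * e * ∑ j, c j +
      ∑ j, ((c j ^ 2 + 2 * c j * (e + cauchySum x c (x j)) * x j) / (z - x j) +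
        c j ^ 2 * x j / (z - x j) ^ 2) := by
  rw [sq_cauchySum x c hx e z hz, mul_add, Finset.mul_sum]
  have h1 : ∀ j, z * (c j ^ 2 / (z - x j) ^ 2 +
      2 * c j * (e + cauchySum x c (x j)) / (z - x j)) =
      2 * c j * (e + cauchySum x c (x j)) +
      ((c j ^ 2 + 2 * c j * (e + cauchySum x c (x j)) * x j) / (z - x j) +
        c j ^ 2 * x j / (z - x j) ^ 2) := by
    intro j
    by_cases hj : c j = 0
    · simp [hj]
    have h3 : z - x j ≠ 0 := sub_ne_zero.mpr (hz j hj)
    field_simp
    ring
  simp_rw [h1]
  rw [Finset.sum_add_distrib]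
  have h2 : ∑ j, 2 * c j * (e + cauchySum x c (x j)) = 2 * e * ∑ j, c j := by
    have := sum_mul_cauchySum x c
    have h4 : ∑ j, 2 * c j * (e + cauchySum x c (x j)) =
        2 * e * ∑ j, c j + 2 * ∑ i, c i * cauchySum x c (x i) := by
      rw [Finset.mul_sum, Finset.mul_sum, ← Finset.sum_add_distrib]
      refine Finset.sum_congr rfl fun j _ => ?_
      ring
    rw [h4, this, add_zero]
  rw [h2]
  ring

end Pool.Agent.Lib.MP_12adaf_nt
end

section

/-!
# The parametrisation in terms of roots
-/

namespace Pool.Agent.Lib.MP_12adaf_nt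

set_option linter.unusedSectionVars false
set_option linter.unusedVariables false

open Finset Polynomial

variable {L : Type*} [Field L] {ι : Type*} [Fintype ι] [DecidableEq ι]

/-- `∏ (X - x i)`. -/
noncomputable def nod (x : ι → L) : L[X] := ∏ i, (X - C (x i))

/-- `∏_{i ≠ j} (X - x i)`. -/
noncomputable def nodE (x : ι → L) (j : ι) : L[X] := ∏ i ∈ univ.erase j, (X - C (x i))

lemma nod_eq_mul (x : ι → L) (j : ι) : nod x = (X - C (x j)) * nodE x j := by
  rw [nod, nodE, ← Finset.mul_prod_erase univ _ (Finset.mem_univ j)]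

lemma nod_monic (x : ι → L) : (nod x).Monic :=
  monic_prod_of_monic _ _ fun i _ => monic_X_sub_C _

lemma nodE_monic (x : ι → L) (j : ι) : (nodE x j).Monic :=
  monic_prod_of_monic _ _ fun i _ => monic_X_sub_C _

lemma natDegree_nod (x : ι → L) : (nod x).natDegree = Fintype.card ι := by
  rw [nod, natDegree_prod_of_monic _ _ fun i _ => monic_X_sub_C _]
  simp

lemma natDegree_nodE (x : ι → L) (j : ι) : (nodE x j).natDegree = Fintype.card ι - 1 := by
  rw [nodE, natDegree_prod_of_monic _ _ fun i _ => monic_X_sub_C _]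
  simp [Finset.card_erase_of_mem]

lemma eval_nod (x : ι → L) (z : L) : (nod x).eval z = ∏ i, (z - x i) := by
  rw [nod, eval_prod]; simp

lemma eval_nodE (x : ι → L) (j : ι) (z : L) :
    (nodE x j).eval z = ∏ i ∈ univ.erase j, (z - x i) := by
  rw [nodE, eval_prod]; simp

lemma eval_nod_self (x : ι → L) (j : ι) : (nod x).eval (x j) = 0 := by
  rw [nod_eq_mul x j]; simp

lemma eval_nod_eq_zero_iff (x : ι → L) (z : L) : (nod x).eval z = 0 ↔ ∃ j, z = x j := by
  rw [eval_nod, Finset.prod_eq_zero_iff]
  simp [sub_eq_zero]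

lemma eval_nodE_of_ne (x : ι → L) {j l : ι} (h : l ≠ j) : (nodE x j).eval (x l) = 0 := by
  rw [eval_nodE]
  exact Finset.prod_eq_zero (Finset.mem_erase.mpr ⟨h, Finset.mem_univ l⟩) (sub_self _)

lemma eval_nodE_self_ne_zero (x : ι → L) (hx : Function.Injective x) (j : ι) :
    (nodE x j).eval (x j) ≠ 0 := by
  rw [eval_nodE, Finset.prod_ne_zero_iff]
  intro i hi
  exact sub_ne_zero.mpr fun h => (Finset.mem_erase.mp hi).1 (hx h.symm)

lemma derivative_nod (x : ι → L) : derivative (nod x) = ∑ j, nodE x j := by
  rw [nod, derivative_prod_finset]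
  refine Finset.sum_congr rfl fun j _ => ?_
  simp [nodE]

lemma eval_derivative_nod (x : ι → L) (j : ι) :
    (derivative (nod x)).eval (x j) = (nodE x j).eval (x j) := by
  rw [nod_eq_mul x j]
  simp

lemma eval_derivative_nod_ne_zero (x : ι → L) (hx : Function.Injective x) (j : ι) :
    (derivative (nod x)).eval (x j) ≠ 0 := by
  rw [eval_derivative_nod]; exact eval_nodE_self_ne_zero x hx j

lemma eval_nodE_eq_div (x : ι → L) (j : ι) (z : L) (hz : z ≠ x j) :
    (nodE x j).eval z = (nod x).eval z / (z - x j) := by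
  rw [nod_eq_mul x j, eval_mul]
  simp only [eval_sub, eval_X, eval_C]
  rw [mul_div_cancel_left₀ _ (sub_ne_zero.mpr hz)]

lemma eval_derivative_nodE_of_ne (x : ι → L) {j l : ι} (hlj : x l ≠ x j) :
    (derivative (nodE x j)).eval (x l) = (derivative (nod x)).eval (x l) / (x l - x j) := by
  have h1 : l ≠ j := fun h => hlj (by rw [h])
  have h2 := eval_nodE_of_ne x h1
  have h3 : derivative (nod x) = nodE x j + (X - C (x j)) * derivative (nodE x j) := by
    rw [nod_eq_mul x j]; simp
  rw [h3]
  simp only [eval_add, eval_mul, eval_sub, eval_X, eval_C, h2, zero_add]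
  rw [mul_div_cancel_left₀ _ (sub_ne_zero.mpr hlj)]

lemma eval_derivative_nodE_self [CharZero L] (x : ι → L) (j : ι) :
    (derivative (nodE x j)).eval (x j) = (derivative (derivative (nod x))).eval (x j) / 2 := by
  have h3 : derivative (derivative (nod x)) =
      2 * derivative (nodE x j) + (X - C (x j)) * derivative (derivative (nodE x j)) := by
    rw [nod_eq_mul x j]; simp; ring
  rw [h3]
  simp

/-- The polynomial `h = g (1 + ∑ c j / (X - x j))`. -/
noncomputable def hR (x c : ι → L) : L[X] := nod x + ∑ j, C (c j) * nodE x j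

/-- The polynomial `f_t`. -/
noncomputable def fR (x c : ι → L) (t : L) : L[X] :=
  nod x * (X ^ 2 + C (4 * ∑ j, c j) * X - C t) - ∑ j, C (2 * c j ^ 2 * x j) * nodE x j

/-- The condition `𝐀 c = -1`. -/
def WCond (x c : ι → L) : Prop := ∀ j, c j / (2 * x j) + cauchySum x c (x j) = -1

lemma eval_hR (x c : ι → L) (z : L) (hz : ∀ j, z ≠ x j) :
    (hR x c).eval z = (nod x).eval z * (1 + cauchySum x c z) := by
  rw [hR, eval_add, eval_finsetSum, cauchySum, mul_add, Finset.mul_sum, mul_one]
  congr 1
  refine Finset.sum_congr rfl fun j _ => ?_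
  rw [eval_mul, eval_C, eval_nodE_eq_div x j z (hz j)]
  ring

lemma eval_hR_self (x c : ι → L) (j : ι) :
    (hR x c).eval (x j) = c j * (derivative (nod x)).eval (x j) := by
  rw [hR, eval_add, eval_nod_self, zero_add, eval_finsetSum, Finset.sum_eq_single j]
  · rw [eval_mul, eval_C, eval_derivative_nod]
  · intro l _ hl
    rw [eval_mul, eval_nodE_of_ne x (Ne.symm hl), mul_zero]
  · simp

lemma WCond.key [CharZero L] {x c : ι → L} (hc : WCond x c) (h0 : ∀ j, x j ≠ 0) (j : ι) :
    c j ^ 2 + 2 * c j * (1 + cauchySum x c (x j)) * x j = 0 := by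
  have h1 := hc j
  have h2 : cauchySum x c (x j) = -1 - c j / (2 * x j) := by linear_combination h1
  rw [h2]
  have := h0 j
  field_simp
  ring

/-- `f' g - f g' = 2 X h ^ 2`. -/
theorem wronskian_fR [CharZero L] {x c : ι → L} (hx : Function.Injective x)
    (h0 : ∀ j, x j ≠ 0) (hc : WCond x c) (t : L) :
    derivative (fR x c t) * nod x - fR x c t * derivative (nod x) = 2 * X * hR x c ^ 2 := by
  have hG : ∀ j, derivative (nodE x j) * nod x - nodE x j * derivative (nod x) =
      - nodE x j ^ 2 := by
    intro j
    have h3 : derivative (nod x) = nodE x j + (X - C (x j)) * derivative (nodE x j) := by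
      rw [nod_eq_mul x j]; simp
    rw [h3, nod_eq_mul x j]
    ring
  have h1 : derivative (fR x c t) * nod x - fR x c t * derivative (nod x) =
      nod x ^ 2 * (2 * X + C (4 * ∑ j, c j)) + ∑ j, C (2 * c j ^ 2 * x j) * nodE x j ^ 2 := by
    have h4 : derivative (fR x c t) * nod x - fR x c t * derivative (nod x) =
        nod x ^ 2 * (2 * X + C (4 * ∑ j, c j)) -
        ∑ j, C (2 * c j ^ 2 * x j) *
          (derivative (nodE x j) * nod x - nodE x j * derivative (nod x)) := by
      have h5 : ∑ j, C (2 * c j ^ 2 * x j) *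
          (derivative (nodE x j) * nod x - nodE x j * derivative (nod x)) =
          derivative (∑ j, C (2 * c j ^ 2 * x j) * nodE x j) * nod x -
          (∑ j, C (2 * c j ^ 2 * x j) * nodE x j) * derivative (nod x) := by
        rw [derivative_sum, Finset.sum_mul, Finset.sum_mul, ← Finset.sum_sub_distrib]
        refine Finset.sum_congr rfl fun j _ => ?_
        rw [derivative_mul, derivative_C]
        ring
      rw [h5, fR, derivative_sub, derivative_mul, derivative_sub, derivative_add,
        derivative_X_pow, derivative_mul, derivative_C, derivative_C, derivative_X]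
      simp only [Nat.cast_ofNat, Nat.add_one_sub_one, pow_one, zero_mul, zero_add, mul_one,
        sub_zero]
      have : (C (2:L) : L[X]) = 2 := rfl
      rw [this]
      ring
    rw [h4, sub_eq_add_neg, ← Finset.sum_neg_distrib]
    congr 1
    refine Finset.sum_congr rfl fun j _ => ?_
    rw [hG]; ring
  rw [h1]
  have hne : nod x ≠ 0 := (nod_monic x).ne_zero
  apply mul_left_cancel₀ hne
  apply Polynomial.funext
  intro z
  by_cases hz : (nod x).eval z = 0
  · rw [eval_mul, eval_mul, hz, zero_mul, zero_mul]
  rw [eval_mul, eval_mul]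
  congr 1
  have hz' : ∀ j, z ≠ x j := fun j h => hz ((eval_nod_eq_zero_iff x z).mpr ⟨j, h⟩)
  have h5 := mul_sq_cauchySum x c hx 1 z (fun j _ => hz' j)
  have h6 : ∑ j, ((c j ^ 2 + 2 * c j * (1 + cauchySum x c (x j)) * x j) / (z - x j) +
        c j ^ 2 * x j / (z - x j) ^ 2) = ∑ j, c j ^ 2 * x j / (z - x j) ^ 2 := by
    refine Finset.sum_congr rfl fun j _ => ?_
    rw [hc.key h0 j]; simp
  rw [h6] at h5
  simp only [eval_add, eval_mul, eval_pow, eval_X, eval_C, eval_finsetSum, eval_ofNat]
  rw [eval_hR x c z hz']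
  have h7 : ∑ j, 2 * c j ^ 2 * x j * (nodE x j).eval z ^ 2 =
      (nod x).eval z ^ 2 * (2 * ∑ j, c j ^ 2 * x j / (z - x j) ^ 2) := by
    rw [Finset.mul_sum, Finset.mul_sum]
    refine Finset.sum_congr rfl fun j _ => ?_
    rw [eval_nodE_eq_div x j z (hz' j), div_pow]
    ring
  rw [h7]
  linear_combination (-2) * (nod x).eval z ^ 2 * h5

end Pool.Agent.Lib.MP_12adaf_nt
end

section

/-!
# The parametrisation in terms of coefficients
-/

namespace Pool.Agent.Lib.MP_12adaf_nt

set_option linter.unusedSectionVars false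
set_option linter.unusedVariables false

open Finset Polynomial

section Defs

variable {R : Type*} [CommRing R]

/-- The linear operator whose matrix is `Lmat`. -/
noncomputable def Lop (g a : R[X]) : R[X] :=
  (2 * X * derivative ((a * derivative g) %ₘ g) - X * a * derivative (derivative g) +
    a * derivative g) %ₘ g

/-- The matrix of `Lop g` on polynomials of degree `< N`. -/
noncomputable def Lmat (N : ℕ) (g : R[X]) : Matrix (Fin N) (Fin N) R :=
  Matrix.of fun i j => (Lop g (X ^ (j : ℕ))).coeff i

/-- The right hand side of the linear system. -/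
noncomputable def rhsv (N : ℕ) (g : R[X]) : Fin N → R :=
  fun i => ((-(2 * X * derivative g)) %ₘ g).coeff i

/-- The polynomial with coefficient vector `c`. -/
noncomputable def toPoly {N : ℕ} (c : Fin N → R) : R[X] := ∑ i, C (c i) * X ^ (i : ℕ)

/-- The numerator of the solution of the linear system. -/
noncomputable def numv (N : ℕ) (g : R[X]) : Fin N → R :=
  (Lmat N g).adjugate.mulVec (rhsv N g)

end Defs

section ToPoly

variable {R : Type*} [CommRing R]

lemma coeff_toPoly {N : ℕ} (c : Fin N → R) (i : Fin N) : (toPoly c).coeff i = c i := by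
  rw [toPoly, finsetSum_coeff, Finset.sum_eq_single i]
  · simp
  · intro j _ hj
    rw [coeff_C_mul, coeff_X_pow, if_neg, mul_zero]
    exact fun h => hj (Fin.ext h.symm)
  · simp

lemma degree_toPoly_lt {N : ℕ} (c : Fin N → R) : (toPoly c).degree < N := by
  rw [toPoly]
  refine (degree_sum_le _ _).trans_lt ?_
  rw [Finset.sup_lt_iff (by exact_mod_cast WithBot.bot_lt_coe N)]
  intro i _
  refine (degree_C_mul_X_pow_le _ _).trans_lt ?_
  exact_mod_cast i.2

lemma toPoly_coeff {N : ℕ} {p : R[X]} (hp : p.degree < N) :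
    toPoly (fun i : Fin N => p.coeff i) = p := by
  ext m
  by_cases hm : m < N
  · exact coeff_toPoly (fun i : Fin N => p.coeff i) ⟨m, hm⟩
  · rw [coeff_eq_zero_of_degree_lt, coeff_eq_zero_of_degree_lt]
    · exact hp.trans_le (by exact_mod_cast not_lt.mp hm)
    · exact (degree_toPoly_lt _).trans_le (by exact_mod_cast not_lt.mp hm)

lemma toPoly_eq_zero {N : ℕ} {c : Fin N → R} (h : toPoly c = 0) : c = 0 := by
  ext i
  rw [← coeff_toPoly c i, h]; simp

lemma map_toPoly {S : Type*} [CommRing S] (φ : R →+* S) {N : ℕ} (c : Fin N → R) :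
    (toPoly c).map φ = toPoly (fun i => φ (c i)) := by
  simp [toPoly, Polynomial.map_sum]

end ToPoly

section Ring

variable {R : Type*} [CommRing R]

lemma Lop_add (g a b : R[X]) : Lop g (a + b) = Lop g a + Lop g b := by
  simp only [Lop]
  rw [← add_modByMonic]
  congr 1
  rw [add_mul, add_modByMonic, derivative_add]
  ring

lemma Lop_C_mul (g a : R[X]) (r : R) : Lop g (C r * a) = C r * Lop g a := by
  have h : ∀ p : R[X], (C r * p) %ₘ g = C r * (p %ₘ g) := by
    intro p
    rw [← smul_eq_C_mul, ← smul_eq_C_mul, smul_modByMonic]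
  simp only [Lop]
  rw [← h]
  congr 1
  rw [mul_assoc (C r) a, h, derivative_C_mul]
  ring

lemma Lop_zero (g : R[X]) : Lop g 0 = 0 := by
  simp [Lop]

lemma Lop_sum {ι : Type*} (s : Finset ι) (g : R[X]) (a : ι → R[X]) :
    Lop g (∑ i ∈ s, a i) = ∑ i ∈ s, Lop g (a i) := by
  classical
  induction s using Finset.induction_on with
  | empty => simp [Lop_zero]
  | insert i s hi ih => rw [Finset.sum_insert hi, Finset.sum_insert hi, Lop_add, ih]

lemma Lmat_mulVec (N : ℕ) (g : R[X]) (c : Fin N → R) (i : Fin N) :
    ((Lmat N g).mulVec c) i = (Lop g (toPoly c)).coeff i := by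
  rw [toPoly, Lop_sum, finsetSum_coeff]
  simp only [Lop_C_mul, coeff_C_mul, Matrix.mulVec, dotProduct, Lmat, Matrix.of_apply]
  exact Finset.sum_congr rfl fun j _ => mul_comm _ _

lemma map_Lop {S : Type*} [CommRing S] (φ : R →+* S) {g : R[X]} (hg : g.Monic) (a : R[X]) :
    (Lop g a).map φ = Lop (g.map φ) (a.map φ) := by
  simp only [Lop]
  rw [map_modByMonic _ hg]
  simp only [Polynomial.map_add, Polynomial.map_sub, Polynomial.map_mul, ← derivative_map,
    map_modByMonic _ hg, Polynomial.map_X, Polynomial.map_ofNat]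

lemma map_Lmat {S : Type*} [CommRing S] (φ : R →+* S) {g : R[X]} (hg : g.Monic) (N : ℕ) :
    Lmat N (g.map φ) = (Lmat N g).map φ := by
  ext i j
  simp only [Lmat, Matrix.map_apply, Matrix.of_apply]
  rw [← coeff_map, map_Lop φ hg, Polynomial.map_pow, Polynomial.map_X]

lemma map_rhsv {S : Type*} [CommRing S] (φ : R →+* S) {g : R[X]} (hg : g.Monic) (N : ℕ) :
    rhsv N (g.map φ) = φ ∘ (rhsv N g) := by
  ext i
  simp only [rhsv, Function.comp_apply]
  rw [← coeff_map, map_modByMonic _ hg]
  simp only [Polynomial.map_neg, Polynomial.map_mul, derivative_map, Polynomial.map_X,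
    Polynomial.map_ofNat]

lemma map_numv {S : Type*} [CommRing S] (φ : R →+* S) {g : R[X]} (hg : g.Monic) (N : ℕ) :
    numv N (g.map φ) = φ ∘ (numv N g) := by
  rw [numv, numv, map_Lmat φ hg, map_rhsv φ hg]
  have h : ((Lmat N g).map φ).adjugate = (Lmat N g).adjugate.map φ := by
    have := RingHom.map_adjugate φ (Lmat N g)
    simpa [RingHom.mapMatrix_apply] using this.symm
  rw [h]
  ext i
  rw [Function.comp_apply, RingHom.map_mulVec]

end Ring

section Field

variable {K : Type*} [Field K]

/-- The solution of the linear system. -/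
noncomputable def cvec (N : ℕ) (g : K[X]) : Fin N → K :=
  fun i => (Lmat N g).det⁻¹ * numv N g i

/-- The residues, as a polynomial modulo `g`. -/
noncomputable def cpoly (N : ℕ) (g : K[X]) : K[X] := toPoly (cvec N g)

/-- The polynomial `h` attached to `g`. -/
noncomputable def hpoly (N : ℕ) (g : K[X]) : K[X] :=
  g + (cpoly N g * derivative g) %ₘ g

/-- The sum of residues. -/
noncomputable def csum (N : ℕ) (g : K[X]) : K :=
  ((cpoly N g * derivative g) %ₘ g).coeff (N - 1)

/-- The remainder part of `f`. -/
noncomputable def f1poly (N : ℕ) (g : K[X]) : K[X] :=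
  (-(2 * X * cpoly N g ^ 2 * derivative g)) %ₘ g

/-- The polynomial `f_t` attached to `g` and `t`. -/
noncomputable def fpoly (N : ℕ) (g : K[X]) (t : K) : K[X] :=
  g * (X ^ 2 + C (4 * csum N g) * X - C t) + f1poly N g

lemma Lmat_mulVec_cvec (N : ℕ) (g : K[X]) (h : (Lmat N g).det ≠ 0) :
    (Lmat N g).mulVec (cvec N g) = rhsv N g := by
  have h1 : cvec N g = (Lmat N g).det⁻¹ • numv N g := by
    ext i; simp [cvec]
  rw [h1, Matrix.mulVec_smul, numv, Matrix.mulVec_mulVec, Matrix.mul_adjugate,
    Matrix.smul_mulVec, Matrix.one_mulVec, smul_smul, inv_mul_cancel₀ h, one_smul]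

lemma Lop_cpoly (N : ℕ) (g : K[X]) (hg : g.Monic) (hN : g.natDegree = N)
    (h : (Lmat N g).det ≠ 0) :
    Lop g (cpoly N g) = (-(2 * X * derivative g)) %ₘ g := by
  have hlt : ∀ p : K[X], (p %ₘ g).degree < N := by
    intro p
    have := degree_modByMonic_lt p hg
    rwa [degree_eq_natDegree hg.ne_zero, hN] at this
  have h1 : (Lop g (cpoly N g)).degree < N := hlt _
  have h2 : ((-(2 * X * derivative g)) %ₘ g).degree < N := hlt _
  rw [← toPoly_coeff h1, ← toPoly_coeff h2]
  congr 1
  ext i
  rw [cpoly, ← Lmat_mulVec, Lmat_mulVec_cvec N g h, rhsv]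

section Map

variable {L : Type*} [Field L] (φ : K →+* L)

lemma map_cvec {g : K[X]} (hg : g.Monic) (N : ℕ) :
    cvec N (g.map φ) = fun i => φ (cvec N g i) := by
  ext i
  rw [cvec, cvec, map_numv φ hg, map_Lmat φ hg, map_mul, map_inv₀]
  rw [show ((Lmat N g).map φ).det = φ (Lmat N g).det from by
    rw [RingHom.map_det]; rfl]
  rfl

lemma map_cpoly {g : K[X]} (hg : g.Monic) (N : ℕ) :
    (cpoly N g).map φ = cpoly N (g.map φ) := by
  rw [cpoly, cpoly, map_toPoly, map_cvec φ hg]

lemma map_hpoly {g : K[X]} (hg : g.Monic) (N : ℕ) :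
    (hpoly N g).map φ = hpoly N (g.map φ) := by
  rw [hpoly, hpoly, Polynomial.map_add, map_modByMonic _ hg, Polynomial.map_mul,
    map_cpoly φ hg, derivative_map]

lemma map_csum {g : K[X]} (hg : g.Monic) (N : ℕ) :
    φ (csum N g) = csum N (g.map φ) := by
  rw [csum, csum, ← coeff_map, map_modByMonic _ hg, Polynomial.map_mul, map_cpoly φ hg,
    derivative_map]

lemma map_f1poly {g : K[X]} (hg : g.Monic) (N : ℕ) :
    (f1poly N g).map φ = f1poly N (g.map φ) := by
  rw [f1poly, f1poly, map_modByMonic _ hg]
  simp only [Polynomial.map_neg, Polynomial.map_mul, Polynomial.map_pow, map_cpoly φ hg,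
    derivative_map, Polynomial.map_X, Polynomial.map_ofNat]

lemma map_fpoly {g : K[X]} (hg : g.Monic) (N : ℕ) (t : K) :
    (fpoly N g t).map φ = fpoly N (g.map φ) (φ t) := by
  rw [fpoly, fpoly, Polynomial.map_add, map_f1poly φ hg, ← map_csum φ hg]
  simp [map_ofNat]

end Map

end Field

section Roots

variable {L : Type*} [Field L] {ι : Type*} [Fintype ι] [DecidableEq ι]

lemma eval_modByMonic_root {R : Type*} [CommRing R] {g : R[X]} (p : R[X]) {z : R}
    (hz : g.eval z = 0) : (p %ₘ g).eval z = p.eval z := by
  have := eval₂_modByMonic_eq_self_of_root (f := RingHom.id R) (p := p) (q := g) (x := z)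
    (by simpa [eval₂_id] using hz)
  simpa [eval₂_id] using this

lemma eq_of_eval_nod {x : ι → L} (hx : Function.Injective x) {p q : L[X]}
    (hp : p.degree < Fintype.card ι) (hq : q.degree < Fintype.card ι)
    (h : ∀ j, p.eval (x j) = q.eval (x j)) : p = q :=
  eq_of_degrees_lt_of_eval_index_eq (s := Finset.univ) (v := x) (hx.injOn)
    (by simpa using hp) (by simpa using hq) fun i _ => h i

lemma degree_sum_nodE_lt (x : ι → L) (w : ι → L) :
    (∑ l, C (w l) * nodE x l).degree < Fintype.card ι := by
  refine (degree_sum_le _ _).trans_lt ?_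
  rw [Finset.sup_lt_iff (by exact_mod_cast WithBot.bot_lt_coe (Fintype.card ι))]
  intro j _
  refine ((degree_mul_le _ _).trans (add_le_add_left degree_C_le _)).trans_lt ?_
  rw [zero_add]
  rw [degree_eq_natDegree (nodE_monic x j).ne_zero, natDegree_nodE]
  have : 0 < Fintype.card ι := Fintype.card_pos_iff.mpr ⟨j⟩
  exact_mod_cast Nat.sub_lt this one_pos

lemma eval_sum_nodE (x w : ι → L) (j : ι) :
    (∑ l, C (w l) * nodE x l).eval (x j) = w j * (derivative (nod x)).eval (x j) := by
  rw [eval_finsetSum, Finset.sum_eq_single j]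
  · rw [eval_mul, eval_C, eval_derivative_nod]
  · intro l _ hl
    rw [eval_mul, eval_nodE_of_ne x (Ne.symm hl), mul_zero]
  · simp

lemma mul_derivative_modByMonic_nod {x : ι → L} (hx : Function.Injective x) (a : L[X]) :
    (a * derivative (nod x)) %ₘ nod x = ∑ l, C (a.eval (x l)) * nodE x l := by
  have hlt : ((a * derivative (nod x)) %ₘ nod x).degree < Fintype.card ι := by
    have := degree_modByMonic_lt (a * derivative (nod x)) (nod_monic x)
    rwa [degree_eq_natDegree (nod_monic x).ne_zero, natDegree_nod] at this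
  refine eq_of_eval_nod hx hlt (degree_sum_nodE_lt x _) fun j => ?_
  rw [eval_modByMonic_root _ (eval_nod_self x j), eval_sum_nodE, eval_mul]

lemma eval_Lop_nod [CharZero L] {x : ι → L} (hx : Function.Injective x) (a : L[X]) (j : ι) :
    (Lop (nod x) a).eval (x j) = (derivative (nod x)).eval (x j) *
      (2 * x j * cauchySum x (fun l => a.eval (x l)) (x j) + a.eval (x j)) := by
  rw [Lop, eval_modByMonic_root _ (eval_nod_self x j), mul_derivative_modByMonic_nod hx]
  have h1 : (derivative (∑ l, C (a.eval (x l)) * nodE x l)).eval (x j) =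
      (derivative (nod x)).eval (x j) * cauchySum x (fun l => a.eval (x l)) (x j) +
      a.eval (x j) * ((derivative (derivative (nod x))).eval (x j) / 2) := by
    rw [derivative_sum, eval_finsetSum, ← Finset.add_sum_erase univ _ (Finset.mem_univ j),
      cauchySum, ← Finset.add_sum_erase univ (fun l => a.eval (x l) / (x j - x l))
      (Finset.mem_univ j)]
    simp only [derivative_mul, derivative_C, zero_mul, zero_add, eval_mul, eval_C,
      eval_derivative_nodE_self, sub_self, div_zero]
    rw [add_comm, Finset.mul_sum]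
    congr 1
    refine Finset.sum_congr rfl fun l hl => ?_
    have hne : x j ≠ x l := fun h => (Finset.mem_erase.mp hl).1 (hx h.symm)
    rw [eval_derivative_nodE_of_ne x hne]
    ring
  simp only [eval_add, eval_sub, eval_mul, eval_X, eval_ofNat]
  rw [h1]
  ring

/-- Nondegeneracy of a pole configuration. -/
def WNondeg (x : ι → L) : Prop :=
  ∀ w : ι → L, (∀ j, w j / (2 * x j) + cauchySum x w (x j) = 0) → w = 0

lemma Lmat_det_ne_zero [CharZero L] {x : ι → L} (hx : Function.Injective x)
    (h0 : ∀ j, x j ≠ 0) (hnd : WNondeg x) {N : ℕ} (hN : Fintype.card ι = N) :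
    (Lmat N (nod x)).det ≠ 0 := by
  intro hdet
  obtain ⟨v, hv, hv0⟩ := Matrix.exists_mulVec_eq_zero_iff.mpr hdet
  apply hv
  have h1 : Lop (nod x) (toPoly v) = 0 := by
    have hlt : (Lop (nod x) (toPoly v)).degree < N := by
      have := degree_modByMonic_lt (2 * X * derivative ((toPoly v * derivative (nod x)) %ₘ nod x)
        - X * toPoly v * derivative (derivative (nod x)) +
        toPoly v * derivative (nod x)) (nod_monic x)
      rwa [degree_eq_natDegree (nod_monic x).ne_zero, natDegree_nod, hN] at this
    rw [← toPoly_coeff hlt]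
    have : (fun i : Fin N => (Lop (nod x) (toPoly v)).coeff i) = 0 := by
      ext i
      rw [← Lmat_mulVec, hv0]
    rw [this]
    simp [toPoly]
  have h2 : (fun l => (toPoly v).eval (x l)) = 0 := by
    apply hnd
    intro j
    have h3 := eval_Lop_nod hx (toPoly v) j
    rw [h1, eval_zero, eq_comm, mul_eq_zero] at h3
    have h4 := h3.resolve_left (eval_derivative_nod_ne_zero x hx j)
    have h5 := h0 j
    field_simp
    linear_combination h4
  have h6 : toPoly v = 0 := by
    refine eq_of_eval_nod hx ?_ (by simp) fun j => ?_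
    · rw [hN]; exact degree_toPoly_lt v
    · rw [eval_zero]; exact congrFun h2 j
  exact toPoly_eq_zero h6

lemma WCond_cpoly [CharZero L] {x : ι → L} (hx : Function.Injective x)
    (h0 : ∀ j, x j ≠ 0) {N : ℕ} (hN : Fintype.card ι = N) (h : (Lmat N (nod x)).det ≠ 0) :
    WCond x (fun j => (cpoly N (nod x)).eval (x j)) := by
  intro j
  have h1 := Lop_cpoly N (nod x) (nod_monic x) (by rw [natDegree_nod, hN]) h
  have h2 := eval_Lop_nod hx (cpoly N (nod x)) j
  rw [h1, eval_modByMonic_root _ (eval_nod_self x j)] at h2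
  simp only [eval_neg, eval_mul, eval_X, eval_ofNat] at h2
  have h3 := eval_derivative_nod_ne_zero x hx j
  have h4 := h0 j
  have h5 : 2 * x j * cauchySum x (fun l => (cpoly N (nod x)).eval (x l)) (x j) +
      (cpoly N (nod x)).eval (x j) = - (2 * x j) := by
    apply mul_left_cancel₀ h3
    rw [← h2]; ring
  field_simp
  linear_combination h5

lemma WCond.unique {x : ι → L} (hnd : WNondeg x) {c c' : ι → L} (hc : WCond x c)
    (hc' : WCond x c') : c = c' := by
  have : c - c' = 0 := by
    apply hnd
    intro j
    have h1 := hc j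
    have h2 := hc' j
    have h3 : cauchySum x (c - c') (x j) = cauchySum x c (x j) - cauchySum x c' (x j) := by
      simp [cauchySum, sub_div, Finset.sum_sub_distrib]
    rw [h3, Pi.sub_apply, sub_div]
    linear_combination h1 - h2
  exact sub_eq_zero.mp this

lemma hpoly_nod {x : ι → L} (hx : Function.Injective x) (N : ℕ) :
    hpoly N (nod x) = hR x (fun j => (cpoly N (nod x)).eval (x j)) := by
  rw [hpoly, hR, mul_derivative_modByMonic_nod hx]

lemma csum_nod {x : ι → L} (hx : Function.Injective x) {N : ℕ} (hN : Fintype.card ι = N) :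
    csum N (nod x) = ∑ j, (cpoly N (nod x)).eval (x j) := by
  rw [csum, mul_derivative_modByMonic_nod hx, finsetSum_coeff]
  refine Finset.sum_congr rfl fun j _ => ?_
  rw [coeff_C_mul]
  have h1 := (nodE_monic x j).coeff_natDegree
  rw [natDegree_nodE, hN] at h1
  rw [h1, mul_one]

lemma f1poly_nod {x : ι → L} (hx : Function.Injective x) (N : ℕ) :
    f1poly N (nod x) =
      - ∑ j, C (2 * (cpoly N (nod x)).eval (x j) ^ 2 * x j) * nodE x j := by
  rw [f1poly, show -(2 * X * cpoly N (nod x) ^ 2 * derivative (nod x)) =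
    (-(2 * X * cpoly N (nod x) ^ 2)) * derivative (nod x) by ring,
    mul_derivative_modByMonic_nod hx, ← Finset.sum_neg_distrib]
  refine Finset.sum_congr rfl fun j _ => ?_
  simp only [eval_neg, eval_mul, eval_pow, eval_X, eval_ofNat, C_neg, neg_mul]
  congr 3
  ring

lemma fpoly_nod {x : ι → L} (hx : Function.Injective x) {N : ℕ} (hN : Fintype.card ι = N)
    (t : L) :
    fpoly N (nod x) t = fR x (fun j => (cpoly N (nod x)).eval (x j)) t := by
  rw [fpoly, fR, f1poly_nod hx, csum_nod hx hN]
  ring

end Roots

/-- The basic identity `f' g - f g' = 2 X h ^ 2` over a field of characteristic zero. -/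
theorem wronskian_fpoly {K : Type*} [Field K] [CharZero K] {N : ℕ} {g : K[X]} (hg : g.Monic)
    (hN : g.natDegree = N) (hsep : g.Separable) (h0 : g.eval 0 ≠ 0)
    (hL : (Lmat N g).det ≠ 0) (t : K) :
    derivative (fpoly N g t) * g - fpoly N g t * derivative g = 2 * X * hpoly N g ^ 2 := by
  classical
  let L := AlgebraicClosure K
  let φ : K →+* L := algebraMap K L
  have hφ : Function.Injective φ := φ.injective
  apply Polynomial.map_injective φ hφ
  let s := (g.map φ).roots.toFinset
  let x : s → L := fun i => i.1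
  have hx : Function.Injective x := Subtype.val_injective
  have hsplit : (g.map φ).Splits := IsAlgClosed.splits (g.map φ)
  have hsep' : (g.map φ).Separable := hsep.map
  have hnodup : (g.map φ).roots.Nodup := nodup_roots hsep'
  have hgx : g.map φ = nod x := by
    have h1 : g.map φ = ((g.map φ).roots.map (fun a => X - C a)).prod :=
      hsplit.eq_prod_roots_of_monic (hg.map φ)
    rw [h1, nod]
    have h2 : ((g.map φ).roots.map (fun a => X - C a)).prod =
        ∏ a ∈ (g.map φ).roots.toFinset, (X - C a) := by
      rw [Finset.prod, Multiset.toFinset_val, Multiset.dedup_eq_self.mpr hnodup]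
    rw [h2, ← Finset.prod_coe_sort]
  have hcard : Fintype.card s = N := by
    have := natDegree_nod x
    rw [← hgx, natDegree_map, hN] at this
    exact this.symm
  have hx0 : ∀ j, x j ≠ 0 := by
    intro j hj
    have h1 := eval_nod_self x j
    rw [hj, ← hgx, ← φ.map_zero, eval_map_apply] at h1
    exact h0 (hφ (by rw [h1, map_zero]))
  have hL' : (Lmat N (nod x)).det ≠ 0 := by
    rw [← hgx, map_Lmat φ hg]
    rw [show ((Lmat N g).map φ).det = φ (Lmat N g).det from by rw [RingHom.map_det]; rfl]
    rw [Ne, map_eq_zero]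
    exact hL
  have hW := WCond_cpoly hx hx0 hcard hL'
  have key := wronskian_fR hx hx0 hW (φ t)
  rw [← fpoly_nod hx hcard, ← hpoly_nod hx, ← hgx, ← map_fpoly φ hg, ← map_hpoly φ hg] at key
  simpa only [Polynomial.map_sub, Polynomial.map_mul, Polynomial.map_pow, derivative_map,
    Polynomial.map_X, Polynomial.map_ofNat] using key

end Pool.Agent.Lib.MP_12adaf_nt
end

section

/-!
# Discriminant identities
-/

namespace Pool.Agent.Lib.MP_12adaf_nt

set_option linter.unusedSectionVars false
set_option linter.unusedVariables false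

open Finset Polynomial

section

variable {L : Type*} [Field L]

lemma resultant_of_splits {f q : L[X]} (hf : f.Monic) (hs : f.Splits) {n m : ℕ}
    (hn : f.natDegree = n) (hm : q.natDegree ≤ m) :
    resultant f q n m = (f.roots.map q.eval).prod := by
  subst hn
  rw [resultant_eq_prod_eval f q m hm hs, hf.leadingCoeff, one_pow, one_mul]

lemma prod_roots_of_splits {f : L[X]} (hf : f.Monic) (hs : f.Splits) :
    f.roots.prod = (-1) ^ f.natDegree * f.eval 0 := by
  have h1 : f = (f.roots.map (fun a => X - C a)).prod := hs.eq_prod_roots_of_monic hf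
  have h2 : f.natDegree = Multiset.card f.roots := hs.natDegree_eq_card_roots
  have h3 : f.eval 0 = (f.roots.map (fun a => -a)).prod := by
    conv_lhs => rw [h1]
    rw [eval_multiset_prod, Multiset.map_map]
    congr 1
    refine Multiset.map_congr rfl fun a _ => ?_
    simp
  rw [h3, h2, Multiset.prod_map_neg, ← mul_assoc, ← pow_add, ← two_mul, pow_mul]
  simp

lemma resultant_identity_aux {N : ℕ} (hN : Even N) {f g h : L[X]}
    (hf : f.Monic) (hg : g.Monic) (hfs : f.Splits) (hgs : g.Splits)
    (hfn : f.natDegree = N + 2) (hgn : g.natDegree = N)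
    (hhn : h.natDegree ≤ N)
    (hw : derivative f * g - f * derivative g = 2 * X * h ^ 2) :
    resultant f (derivative f) (N + 2) (N + 1) * g.eval 0 * resultant g h N N ^ 2 * 2 ^ N =
      4 * f.eval 0 * resultant g (derivative g) N (N - 1) * resultant f h (N + 2) N ^ 2 *
        2 ^ N := by
  have hdf : (derivative f).natDegree ≤ N + 1 := by
    have := natDegree_derivative_le f; omega
  have hdg : (derivative g).natDegree ≤ N - 1 := by
    have := natDegree_derivative_le g; omega
  have hN1 : ((-1 : L)) ^ N = 1 := hN.neg_one_pow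
  have hn1 : ((-1 : L)) ^ (N + 2) = 1 := by rw [pow_add, hN1]; simp
  have hcf : Multiset.card f.roots = N + 2 := by rw [← hfs.natDegree_eq_card_roots, hfn]
  have hcg : Multiset.card g.roots = N := by rw [← hgs.natDegree_eq_card_roots, hgn]
  -- first relation
  have h1 : resultant f (derivative f) (N + 2) (N + 1) * resultant f g (N + 2) N =
      2 ^ (N + 2) * f.eval 0 * resultant f h (N + 2) N ^ 2 := by
    rw [resultant_of_splits hf hfs hfn hdf, resultant_of_splits hf hfs hfn hgn.le,
      resultant_of_splits hf hfs hfn hhn, ← Multiset.prod_map_mul]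
    have h2 : (f.roots.map fun i => (derivative f).eval i * g.eval i) =
        f.roots.map fun i => 2 * (i * h.eval i ^ 2) := by
      refine Multiset.map_congr rfl fun a ha => ?_
      have ha0 : f.eval a = 0 := (mem_roots'.mp ha).2
      have := congrArg (eval a) hw
      simp only [eval_sub, eval_mul, eval_pow, eval_X, eval_ofNat, ha0, zero_mul,
        sub_zero] at this
      rw [this]; ring
    rw [h2, Multiset.prod_map_mul, Multiset.prod_map_mul, Multiset.map_const',
      Multiset.prod_replicate, hcf, Multiset.prod_map_pow, Multiset.map_id',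
      prod_roots_of_splits hf hfs, hfn, hn1]
    ring
  have h3 : resultant f g (N + 2) N * resultant g (derivative g) N (N - 1) =
      2 ^ N * g.eval 0 * resultant g h N N ^ 2 := by
    rw [resultant_comm f g (N + 2) N, resultant_of_splits hg hgs hgn hdg,
      resultant_of_splits hg hgs hgn hfn.le, resultant_of_splits hg hgs hgn hhn]
    have hs : ((-1 : L)) ^ ((N + 2) * N) = 1 := by
      rw [pow_mul, hn1, one_pow]
    rw [hs, one_mul, ← Multiset.prod_map_mul]
    have h2 : (g.roots.map fun i => f.eval i * (derivative g).eval i) =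
        g.roots.map fun i => (-2) * (i * h.eval i ^ 2) := by
      refine Multiset.map_congr rfl fun a ha => ?_
      have ha0 : g.eval a = 0 := (mem_roots'.mp ha).2
      have := congrArg (eval a) hw
      simp only [eval_sub, eval_mul, eval_pow, eval_X, eval_ofNat, ha0, mul_zero,
        zero_sub] at this
      linear_combination -this
    rw [h2, Multiset.prod_map_mul, Multiset.prod_map_mul, Multiset.map_const',
      Multiset.prod_replicate, hcg, Multiset.prod_map_pow, Multiset.map_id',
      prod_roots_of_splits hg hgs, hgn, hN1, hN.neg_pow]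
    ring
  have h4 : (2 : L) ^ (N + 2) = 4 * 2 ^ N := by rw [pow_add]; ring
  rw [h4] at h1
  linear_combination (-resultant f (derivative f) (N + 2) (N + 1)) * h3 +
    resultant g (derivative g) N (N - 1) * h1

lemma resultant_deriv_monic {f : L[X]} (hf : f.Monic) {n : ℕ} (hn : f.natDegree = n) :
    resultant f (derivative f) n (n - 1) = (-1) ^ (n * (n - 1) / 2) * f.discr := by
  subst hn
  by_cases h0 : 0 < f.degree
  · rw [resultant_deriv h0, hf.leadingCoeff, mul_one]
  · have h1 : f.natDegree = 0 := by
      by_contra h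
      exact h0 (natDegree_pos_iff_degree_pos.mp (Nat.pos_of_ne_zero h))
    have h2 : f = 1 := hf.natDegree_eq_zero.mp h1
    subst h2
    have h3 : discr (1 : L[X]) = 1 := by
      have := discr_C (1 : L)
      simpa using this
    simp [h3]

lemma natDegree_map_le' {K : Type*} [Field K] (φ : K →+* L) (h : K[X]) {N : ℕ}
    (hh : h.natDegree ≤ N) : (h.map φ).natDegree ≤ N := natDegree_map_le.trans hh

end

theorem discr_W {K : Type*} [Field K] [CharZero K] {N : ℕ} (hN : Even N) {f g h : K[X]}
    (hf : f.Monic) (hg : g.Monic)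
    (hfn : f.natDegree = N + 2) (hgn : g.natDegree = N) (hhn : h.natDegree ≤ N)
    (hw : derivative f * g - f * derivative g = 2 * X * h ^ 2) :
    f.discr * g.eval 0 * resultant g h N N ^ 2 =
      - 4 * f.eval 0 * g.discr * resultant f h (N + 2) N ^ 2 := by
  let L := AlgebraicClosure K
  let φ : K →+* L := algebraMap K L
  have hφ : Function.Injective φ := φ.injective
  have h2N : (2 : K) ^ N ≠ 0 := pow_ne_zero _ two_ne_zero
  have hw' : derivative (f.map φ) * g.map φ - f.map φ * derivative (g.map φ) =
      2 * X * (h.map φ) ^ 2 := by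
    have := congrArg (Polynomial.map φ) hw
    simpa only [Polynomial.map_sub, Polynomial.map_mul, Polynomial.map_pow, derivative_map,
      Polynomial.map_X, Polynomial.map_ofNat] using this
  have key := resultant_identity_aux hN (hf.map φ) (hg.map φ) (IsAlgClosed.splits _)
    (IsAlgClosed.splits _) (by rw [natDegree_map, hfn]) (by rw [natDegree_map, hgn])
    (natDegree_map_le' φ h hhn) hw'
  have e0 : ∀ q : K[X], (q.map φ).eval 0 = φ (q.eval 0) := by
    intro q
    rw [← φ.map_zero, eval_map_apply]
  rw [derivative_map, derivative_map, resultant_map_map, resultant_map_map, resultant_map_map,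
    resultant_map_map, e0, e0] at key
  have key2 : resultant f (derivative f) (N + 2) (N + 1) * g.eval 0 * resultant g h N N ^ 2 *
      2 ^ N = 4 * f.eval 0 * resultant g (derivative g) N (N - 1) *
        resultant f h (N + 2) N ^ 2 * 2 ^ N := by
    apply hφ
    simpa only [map_mul, map_pow, map_ofNat] using key
  have key3 := mul_right_cancel₀ h2N key2
  have e1 := resultant_deriv_monic hf hfn
  have e2 := resultant_deriv_monic hg hgn
  rw [show N + 2 - 1 = N + 1 by omega] at e1
  rw [e1, e2] at key3
  obtain ⟨M, hM⟩ := hN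
  have s1 : ((-1 : K)) ^ ((N + 2) * (N + 1) / 2) = (-1) ^ (M + 1) := by
    have : (N + 2) * (N + 1) / 2 = (M + 1) * (2 * M + 1) := by
      subst hM
      rw [show (M + M + 2) * (M + M + 1) = 2 * ((M + 1) * (2 * M + 1)) by ring]
      exact Nat.mul_div_cancel_left _ (by norm_num)
    rw [this, pow_mul', Odd.neg_one_pow ⟨M, rfl⟩]
  have s2 : ((-1 : K)) ^ (N * (N - 1) / 2) = (-1) ^ M := by
    rcases M with _ | M
    · subst hM; simp
    · have : N * (N - 1) / 2 = (M + 1) * (2 * M + 1) := by
        subst hM
        rw [show (M + 1 + (M + 1)) * (M + 1 + (M + 1) - 1) = 2 * ((M + 1) * (2 * M + 1)) by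
          rw [show M + 1 + (M + 1) - 1 = 2 * M + 1 by omega]; ring]
        exact Nat.mul_div_cancel_left _ (by norm_num)
      rw [this, pow_mul', Odd.neg_one_pow ⟨M, rfl⟩]
  rw [s1, s2] at key3
  have s3 : ((-1 : K)) ^ M * (-1) ^ M = 1 := by
    rw [← pow_add, ← two_mul, pow_mul]; simp
  rw [pow_succ] at key3
  linear_combination (-((-1 : K)) ^ M) * key3 + (-(f.discr * g.eval 0 *
    resultant g h N N ^ 2) - 4 * f.eval 0 * g.discr * resultant f h (N + 2) N ^ 2) * s3

/-- The choice of `t` for which `disc f = d y ^ 2`. -/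
noncomputable def tpar {K : Type*} [Field K] (N : ℕ) (d : K) (g : K[X]) (s : K) : K :=
  (f1poly N g).eval 0 / g.eval 0 + d * g.discr * s ^ 2

/-- The polynomial `f` with `disc f = d y ^ 2`. -/
noncomputable def fds {K : Type*} [Field K] (N : ℕ) (d : K) (g : K[X]) (s : K) : K[X] :=
  fpoly N g (tpar N d g s)

/-- The square root `y`. -/
noncomputable def yds {K : Type*} [Field K] (N : ℕ) (d : K) (g : K[X]) (s : K) : K :=
  2 * g.discr * s * resultant (fds N d g s) (hpoly N g) (N + 2) N /
    resultant g (hpoly N g) N N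

section

variable {K : Type*} [Field K]

lemma degree_modByMonic_lt_natDegree {g : K[X]} (hg : g.Monic) (p : K[X]) :
    (p %ₘ g).degree < g.degree := degree_modByMonic_lt p hg

lemma natDegree_hpoly_le {N : ℕ} {g : K[X]} (hg : g.Monic) (hN : g.natDegree = N) :
    (hpoly N g).natDegree ≤ N := by
  rw [hpoly]
  refine (natDegree_add_le _ _).trans (max_le hN.le ?_)
  exact (natDegree_modByMonic_le _ hg).trans hN.le

lemma fpoly_monic {N : ℕ} {g : K[X]} (hg : g.Monic) (hN : g.natDegree = N) (t : K) :
    (fpoly N g t).Monic ∧ (fpoly N g t).natDegree = N + 2 := by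
  have hq : (X ^ 2 + C (4 * csum N g) * X - C t).Monic ∧
      (X ^ 2 + C (4 * csum N g) * X - C t).natDegree = 2 := by
    have e : X ^ 2 + C (4 * csum N g) * X - C t = X ^ 2 + (C (4 * csum N g) * X + C (-t)) := by
      rw [C_neg]; ring
    have hd : (C (4 * csum N g) * X + C (-t)).degree < ((2 : ℕ) : WithBot ℕ) := by
      refine (degree_linear_le).trans_lt ?_
      norm_num
    rw [e]
    refine ⟨monic_X_pow_add hd, ?_⟩
    rw [natDegree_add_eq_left_of_degree_lt]
    · simp
    · rw [degree_X_pow]; exact hd
  have hm := hg.mul hq.1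
  have hmd : (g * (X ^ 2 + C (4 * csum N g) * X - C t)).natDegree = N + 2 := by
    rw [hg.natDegree_mul hq.1, hN, hq.2]
  have hlt : (f1poly N g).degree < (g * (X ^ 2 + C (4 * csum N g) * X - C t)).degree := by
    rw [f1poly]
    refine (degree_modByMonic_lt _ hg).trans_le ?_
    rw [degree_eq_natDegree hg.ne_zero, degree_eq_natDegree hm.ne_zero, hmd, hN]
    exact_mod_cast (by omega : N ≤ N + 2)
  refine ⟨hm.add_of_left hlt, ?_⟩
  rw [fpoly, natDegree_add_eq_left_of_degree_lt hlt, hmd]

theorem discr_fds [CharZero K] {N : ℕ} (hNe : Even N) {g : K[X]} (hg : g.Monic)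
    (hN : g.natDegree = N) (hsep : g.Separable) (h0 : g.eval 0 ≠ 0)
    (hL : (Lmat N g).det ≠ 0) (hR : resultant g (hpoly N g) N N ≠ 0) (d s : K) :
    (fds N d g s).discr = d * yds N d g s ^ 2 := by
  have hm := fpoly_monic hg hN (tpar N d g s)
  have key := discr_W hNe hm.1 hg hm.2 hN (natDegree_hpoly_le hg hN)
    (wronskian_fpoly hg hN hsep h0 hL (tpar N d g s))
  have h1 : (fpoly N g (tpar N d g s)).eval 0 = - (d * g.discr * s ^ 2) * g.eval 0 := by
    rw [fpoly]
    simp only [eval_add, eval_mul, eval_sub, eval_pow, eval_X, eval_C, mul_zero]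
    rw [tpar]
    field_simp
    ring
  rw [h1] at key
  rw [yds, fds, div_pow, mul_div_assoc', eq_div_iff (pow_ne_zero 2 hR)]
  apply mul_right_cancel₀ h0
  linear_combination key

end

end Pool.Agent.Lib.MP_12adaf_nt
end
end
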