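import Mathlib
import Pool.Agent.Lib.MP_12adaf_nt.Disc

/-!
# Change of generator
-/

namespace Pool.Agent.Lib.MP_12adaf_nt

set_option linter.unusedSectionVars false
set_option linter.unusedVariables false

open Finset Polynomial

section Defs

variable {R : Type*} [CommRing R]

/-- Multiplication by `T` on `R[X]/f`. -/
noncomputable def Mmat (n : ℕ) (f T : R[X]) : Matrix (Fin n) (Fin n) R :=
  Matrix.of fun i j => ((X ^ (j : ℕ) * T) %ₘ f).coeff i

/-- The characteristic polynomial of `T` on `R[X]/f`. -/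
noncomputable def charT (n : ℕ) (f T : R[X]) : R[X] := (Mmat n f T).charpoly

/-- The powers of `T` in the basis of powers of `X`. -/
noncomputable def Bmat (n : ℕ) (f T : R[X]) : Matrix (Fin n) (Fin n) R :=
  Matrix.of fun i j => ((T ^ (j : ℕ)) %ₘ f).coeff i

lemma map_Mmat {S : Type*} [CommRing S] (φ : R →+* S) {f : R[X]} (hf : f.Monic) (n : ℕ)
    (T : R[X]) : Mmat n (f.map φ) (T.map φ) = (Mmat n f T).map φ := by
  ext i j
  simp only [Mmat, Matrix.map_apply, Matrix.of_apply]
  rw [← coeff_map, map_modByMonic _ hf]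
  simp only [Polynomial.map_mul, Polynomial.map_pow, Polynomial.map_X]

lemma map_charT {S : Type*} [CommRing S] (φ : R →+* S) {f : R[X]} (hf : f.Monic) (n : ℕ)
    (T : R[X]) : (charT n f T).map φ = charT n (f.map φ) (T.map φ) := by
  rw [charT, charT, map_Mmat φ hf, Matrix.charpoly_map]

lemma map_Bmat {S : Type*} [CommRing S] (φ : R →+* S) {f : R[X]} (hf : f.Monic) (n : ℕ)
    (T : R[X]) : Bmat n (f.map φ) (T.map φ) = (Bmat n f T).map φ := by
  ext i j
  simp only [Bmat, Matrix.map_apply, Matrix.of_apply]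
  rw [← coeff_map, map_modByMonic _ hf]
  simp only [Polynomial.map_pow]

lemma map_det_Bmat {S : Type*} [CommRing S] (φ : R →+* S) {f : R[X]} (hf : f.Monic) (n : ℕ)
    (T : R[X]) : φ (Bmat n f T).det = (Bmat n (f.map φ) (T.map φ)).det := by
  rw [map_Bmat φ hf, RingHom.map_det]; rfl

lemma charT_monic (n : ℕ) (f T : R[X]) : (charT n f T).Monic := Matrix.charpoly_monic _

lemma natDegree_charT [Nontrivial R] (n : ℕ) (f T : R[X]) : (charT n f T).natDegree = n := by
  rw [charT, Matrix.charpoly_natDegree_eq_dim, Fintype.card_fin]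

end Defs

section Roots

variable {L : Type*} [Field L] {n : ℕ}

lemma eval_of_degree_lt {p : L[X]} (hp : p.degree < n) (z : L) :
    p.eval z = ∑ k : Fin n, z ^ (k : ℕ) * p.coeff k := by
  conv_lhs => rw [← toPoly_coeff hp]
  rw [toPoly, eval_finsetSum]
  refine Finset.sum_congr rfl fun k _ => ?_
  rw [eval_mul, eval_C, eval_pow, eval_X, mul_comm]

lemma degree_modByMonic_nod_lt (θ : Fin n → L) (p : L[X]) : (p %ₘ nod θ).degree < n := by
  have := degree_modByMonic_lt p (nod_monic θ)
  rwa [degree_eq_natDegree (nod_monic θ).ne_zero, natDegree_nod, Fintype.card_fin] at this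

lemma vandermonde_mul_Mmat (θ : Fin n → L) (T : L[X]) :
    Matrix.vandermonde θ * Mmat n (nod θ) T =
      Matrix.diagonal (fun i => T.eval (θ i)) * Matrix.vandermonde θ := by
  ext i j
  rw [Matrix.diagonal_mul, Matrix.mul_apply, Matrix.vandermonde_apply]
  simp only [Matrix.vandermonde_apply, Mmat, Matrix.of_apply]
  rw [← eval_of_degree_lt (degree_modByMonic_nod_lt θ _) (θ i),
    eval_modByMonic_root _ (eval_nod_self θ i)]
  simp [mul_comm]

lemma vandermonde_mul_Bmat (θ : Fin n → L) (T : L[X]) :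
    Matrix.vandermonde θ * Bmat n (nod θ) T =
      Matrix.vandermonde (fun i => T.eval (θ i)) := by
  ext i j
  rw [Matrix.mul_apply, Matrix.vandermonde_apply]
  simp only [Matrix.vandermonde_apply, Bmat, Matrix.of_apply]
  rw [← eval_of_degree_lt (degree_modByMonic_nod_lt θ _) (θ i),
    eval_modByMonic_root _ (eval_nod_self θ i)]
  simp

lemma charT_nod {θ : Fin n → L} (hθ : Function.Injective θ) (T : L[X]) :
    charT n (nod θ) T = nod (fun i => T.eval (θ i)) := by
  have hV : IsUnit (Matrix.vandermonde θ) := by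
    rw [Matrix.isUnit_iff_isUnit_det, isUnit_iff_ne_zero]
    exact Matrix.det_vandermonde_ne_zero_iff.mpr hθ
  obtain ⟨V, hV'⟩ := hV
  have h1 := vandermonde_mul_Mmat θ T
  rw [← hV'] at h1
  have h2 : Matrix.diagonal (fun i => T.eval (θ i)) =
      V.val * Mmat n (nod θ) T * V⁻¹.val := by
    rw [h1, Matrix.mul_assoc, Units.mul_inv, Matrix.mul_one]
  have h3 := Matrix.charpoly_units_conj V (Mmat n (nod θ) T)
  rw [← Matrix.coe_units_inv, ← h2, Matrix.charpoly_diagonal] at h3
  rw [charT, ← h3, nod]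

lemma det_Bmat_nod (θ : Fin n → L) (T : L[X]) :
    (Matrix.vandermonde θ).det * (Bmat n (nod θ) T).det =
      (Matrix.vandermonde (fun i => T.eval (θ i))).det := by
  rw [← Matrix.det_mul, vandermonde_mul_Bmat]

lemma sum_card_Ioi (n : ℕ) : ∑ i : Fin n, (Finset.Ioi i).card = n * (n - 1) / 2 := by
  have h1 : ∀ i : Fin n, (Finset.Ioi i).card = n - 1 - i := fun i => Fin.card_Ioi i
  simp_rw [h1]
  rw [Fin.sum_univ_eq_sum_range (fun i => n - 1 - i) n, Finset.sum_range_reflect (fun i => i) n,
    Finset.sum_range_id]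

lemma prod_prod_erase (θ : Fin n → L) :
    ∏ i, ∏ j ∈ univ.erase i, (θ i - θ j) =
      (-1) ^ (n * (n - 1) / 2) * (Matrix.vandermonde θ).det ^ 2 := by
  have h1 : ∀ i : Fin n, ∏ j ∈ univ.erase i, (θ i - θ j) =
      (∏ j ∈ Finset.Iio i, (θ i - θ j)) * ∏ j ∈ Finset.Ioi i, (θ i - θ j) := by
    intro i
    rw [← Finset.prod_union]
    · refine Finset.prod_congr ?_ fun _ _ => rfl
      ext j
      simp only [Finset.mem_erase, Finset.mem_univ, and_true, Finset.mem_union,
        Finset.mem_Iio, Finset.mem_Ioi]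
      exact ne_iff_lt_or_gt
    · rw [Finset.disjoint_left]
      intro j hj hj'
      exact absurd (Finset.mem_Iio.mp hj) (not_lt.mpr (Finset.mem_Ioi.mp hj').le)
  simp_rw [h1]
  rw [Finset.prod_mul_distrib]
  have h2 : ∏ i, ∏ j ∈ Finset.Iio i, (θ i - θ j) = (Matrix.vandermonde θ).det := by
    rw [Matrix.det_vandermonde]
    rw [Finset.prod_sigma', Finset.prod_sigma']
    refine Finset.prod_bij' (fun p _ => ⟨p.2, p.1⟩) (fun p _ => ⟨p.2, p.1⟩) ?_ ?_ ?_ ?_ ?_
    · rintro ⟨i, j⟩ h
      simpa using h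
    · rintro ⟨i, j⟩ h
      simpa using h
    · rintro ⟨i, j⟩ _; rfl
    · rintro ⟨i, j⟩ _; rfl
    · rintro ⟨i, j⟩ _; rfl
  have h3 : ∏ i, ∏ j ∈ Finset.Ioi i, (θ i - θ j) =
      (-1) ^ (n * (n - 1) / 2) * (Matrix.vandermonde θ).det := by
    rw [Matrix.det_vandermonde, ← sum_card_Ioi, ← Finset.prod_pow_eq_pow_sum,
      ← Finset.prod_mul_distrib]
    refine Finset.prod_congr rfl fun i _ => ?_
    rw [← Finset.prod_const, ← Finset.prod_mul_distrib]
    refine Finset.prod_congr rfl fun j _ => ?_
    ring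
  rw [h2, h3]
  ring

lemma discr_nod (θ : Fin n → L) : (nod θ).discr = (Matrix.vandermonde θ).det ^ 2 := by
  have h1 := resultant_deriv_monic (nod_monic θ) (n := n)
    (by rw [natDegree_nod, Fintype.card_fin])
  have hsp : (nod θ).Splits := by
    rw [nod]
    exact Splits.prod fun i _ => Splits.X_sub_C _
  have hroots : (nod θ).roots = Finset.univ.val.map θ := by
    have : nod θ = ((Finset.univ.val.map θ).map fun a => X - C a).prod := by
      rw [nod, Multiset.map_map]; rfl
    rw [this, roots_multiset_prod_X_sub_C]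
  rw [resultant_of_splits (nod_monic θ) hsp (by rw [natDegree_nod, Fintype.card_fin])
    (by have := natDegree_derivative_le (nod θ)
        rw [natDegree_nod, Fintype.card_fin] at this; exact this), hroots,
    Multiset.map_map] at h1
  have h2 : (Multiset.map ((fun z => (derivative (nod θ)).eval z) ∘ θ) Finset.univ.val).prod =
      ∏ i, ∏ j ∈ univ.erase i, (θ i - θ j) := by
    change ∏ i, (derivative (nod θ)).eval (θ i) = _
    refine Finset.prod_congr rfl fun i _ => ?_
    rw [eval_derivative_nod, eval_nodE]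
  rw [h2, prod_prod_erase] at h1
  have h3 : ((-1 : L)) ^ (n * (n - 1) / 2) ≠ 0 := pow_ne_zero _ (neg_ne_zero.mpr one_ne_zero)
  exact (mul_left_cancel₀ h3 h1).symm

/-- `disc F~ = disc f * (det B)^2`. -/
theorem discr_charT_nod {θ : Fin n → L} (hθ : Function.Injective θ) (T : L[X]) :
    (charT n (nod θ) T).discr = (nod θ).discr * (Bmat n (nod θ) T).det ^ 2 := by
  rw [charT_nod hθ, discr_nod, discr_nod, ← det_Bmat_nod, mul_pow]

end Roots

/-- A separable monic polynomial over a field is a product over distinct roots. -/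
lemma exists_nod {K L : Type*} [Field K] [Field L] [IsAlgClosed L] (φ : K →+* L) {n : ℕ}
    {f : K[X]} (hf : f.Monic) (hn : f.natDegree = n) (hsep : f.Separable) :
    ∃ θ : Fin n → L, Function.Injective θ ∧ f.map φ = nod θ := by
  classical
  have hsplit : (f.map φ).Splits := IsAlgClosed.splits (f.map φ)
  have hnodup : (f.map φ).roots.Nodup := nodup_roots hsep.map
  have hcard : Fintype.card (f.map φ).roots.toFinset = n := by
    rw [Fintype.card_coe, Multiset.toFinset_card_of_nodup hnodup,
      ← hsplit.natDegree_eq_card_roots, natDegree_map, hn]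
  let e : Fin n ≃ (f.map φ).roots.toFinset := (Fintype.equivFinOfCardEq hcard).symm
  refine ⟨fun i => (e i : L), fun i j h => e.injective (Subtype.ext h), ?_⟩
  have h1 : f.map φ = ((f.map φ).roots.map (fun a => X - C a)).prod :=
    hsplit.eq_prod_roots_of_monic (hf.map φ)
  have h2 : ((f.map φ).roots.map (fun a => X - C a)).prod =
      ∏ a ∈ (f.map φ).roots.toFinset, (X - C a) := by
    rw [Finset.prod, Multiset.toFinset_val, Multiset.dedup_eq_self.mpr hnodup]
  refine (h1.trans h2).trans ?_
  rw [← Finset.prod_coe_sort, nod]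
  exact (Equiv.prod_comp e fun a => (X - C (a : L))).symm

lemma discr_map_monic {K L : Type*} [Field K] [Field L] (φ : K →+* L)
    {f : K[X]} (hf : f.Monic) : (f.map φ).discr = φ f.discr := by
  have h1 := resultant_deriv_monic hf rfl
  have h2 := resultant_deriv_monic (hf.map φ) rfl
  rw [natDegree_map, derivative_map, resultant_map_map, h1, map_mul, map_pow, map_neg,
    map_one] at h2
  exact (mul_left_cancel₀ (pow_ne_zero _ (neg_ne_zero.mpr one_ne_zero)) h2).symm

theorem discr_charT {K : Type*} [Field K] {n : ℕ} {f : K[X]} (hf : f.Monic)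
    (hn : f.natDegree = n) (hsep : f.Separable) (T : K[X]) :
    (charT n f T).discr = f.discr * (Bmat n f T).det ^ 2 := by
  let L := AlgebraicClosure K
  let φ : K →+* L := algebraMap K L
  obtain ⟨θ, hθ, h1⟩ := exists_nod φ hf hn hsep
  apply φ.injective
  rw [map_mul, map_pow, ← discr_map_monic φ hf, ← discr_map_monic φ (charT_monic _ _ _),
    map_charT φ hf, map_det_Bmat φ hf, h1]
  exact discr_charT_nod hθ _

end Pool.Agent.Lib.MP_12adaf_nt
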