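import Mathlib
import Pool.Agent.Lib.MP_12adaf_nt.TStep

section

/-!
# Coefficientwise convergence of polynomials and continuity of the parametrisation
-/

namespace Pool.Agent.Lib.MP_12adaf_nt

set_option linter.unusedSectionVars false
set_option linter.unusedVariables false

open Finset Polynomial Filter Topology

variable {α : Type*} {l : Filter α} {K : Type*} [NormedField K]

/-- Coefficientwise convergence. -/
def CT (l : Filter α) (F : α → K[X]) (P : K[X]) : Prop :=
  ∀ i, Tendsto (fun a => (F a).coeff i) l (𝓝 (P.coeff i))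

lemma CT.const (P : K[X]) : CT l (fun _ => P) P := fun _ => tendsto_const_nhds

lemma CT.add {F G : α → K[X]} {P Q : K[X]} (hF : CT l F P) (hG : CT l G Q) :
    CT l (fun a => F a + G a) (P + Q) := fun i => by
  simpa only [coeff_add] using (hF i).add (hG i)

lemma CT.sub {F G : α → K[X]} {P Q : K[X]} (hF : CT l F P) (hG : CT l G Q) :
    CT l (fun a => F a - G a) (P - Q) := fun i => by
  simpa only [coeff_sub] using (hF i).sub (hG i)

lemma CT.neg {F : α → K[X]} {P : K[X]} (hF : CT l F P) :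
    CT l (fun a => - F a) (-P) := fun i => by
  simpa only [coeff_neg] using (hF i).neg

lemma CT.mul {F G : α → K[X]} {P Q : K[X]} (hF : CT l F P) (hG : CT l G Q) :
    CT l (fun a => F a * G a) (P * Q) := fun i => by
  simp only [coeff_mul]
  exact tendsto_finsetSum _ fun p _ => (hF p.1).mul (hG p.2)

lemma CT.pow {F : α → K[X]} {P : K[X]} (hF : CT l F P) (n : ℕ) :
    CT l (fun a => F a ^ n) (P ^ n) := by
  induction n with
  | zero => simpa using CT.const (l := l) (1 : K[X])
  | succ n ih => simpa only [pow_succ] using ih.mul hF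

lemma CT.C {c : α → K} {c0 : K} (hc : Tendsto c l (𝓝 c0)) :
    CT l (fun a => Polynomial.C (c a)) (Polynomial.C c0) := fun i => by
  simp only [coeff_C]
  by_cases h : i = 0
  · simpa [h] using hc
  · simpa [h] using tendsto_const_nhds

lemma CT.derivative {F : α → K[X]} {P : K[X]} (hF : CT l F P) :
    CT l (fun a => Polynomial.derivative (F a)) (Polynomial.derivative P) := fun i => by
  simp only [coeff_derivative]
  exact (hF (i + 1)).mul tendsto_const_nhds

lemma CT.sum {ι : Type*} (s : Finset ι) {F : ι → α → K[X]} {P : ι → K[X]}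
    (hF : ∀ i ∈ s, CT l (F i) (P i)) :
    CT l (fun a => ∑ i ∈ s, F i a) (∑ i ∈ s, P i) := fun k => by
  simp only [finsetSum_coeff]
  exact tendsto_finsetSum _ fun i hi => hF i hi k

lemma CT.modByMonic {N : ℕ} {g : α → K[X]} {g0 : K[X]} (hg : CT l g g0)
    (hm : ∀ a, (g a).Monic) (hd : ∀ a, (g a).natDegree = N)
    (hm0 : g0.Monic) (hd0 : g0.natDegree = N) (M : ℕ) :
    ∀ {F : α → K[X]} {P : K[X]}, CT l F P → (∀ a, (F a).degree < (M : ℕ)) →
    P.degree < (M : ℕ) → CT l (fun a => F a %ₘ g a) (P %ₘ g0) := by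
  induction M with
  | zero =>
    intro F P hF hFd hPd
    have h1 : ∀ a, F a = 0 := fun a => by
      by_contra h
      have := zero_le_degree_iff.mpr h
      exact absurd (hFd a) (not_lt.mpr (by exact_mod_cast this))
    have h2 : P = 0 := by
      by_contra h
      have := zero_le_degree_iff.mpr h
      exact absurd hPd (not_lt.mpr (by exact_mod_cast this))
    simp only [h1, h2, zero_modByMonic]
    exact CT.const 0
  | succ M ih =>
    intro F P hF hFd hPd
    by_cases hMN : M < N
    · have h1 : ∀ a, F a %ₘ g a = F a := fun a => by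
        rw [modByMonic_eq_self_iff (hm a)]
        refine (hFd a).trans_le ?_
        rw [degree_eq_natDegree (hm a).ne_zero, hd a]
        exact_mod_cast hMN
      have h2 : P %ₘ g0 = P := by
        rw [modByMonic_eq_self_iff hm0]
        refine hPd.trans_le ?_
        rw [degree_eq_natDegree hm0.ne_zero, hd0]
        exact_mod_cast hMN
      simp only [h1, h2]
      exact hF
    · push Not at hMN
      have key : ∀ (p q : K[X]), q.Monic → q.natDegree = N → p.degree < ((M + 1 : ℕ) : WithBot ℕ) →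
          (p - Polynomial.C (p.coeff M) * (X ^ (M - N) * q)).degree < ((M : ℕ) : WithBot ℕ) ∧
          p %ₘ q = (p - Polynomial.C (p.coeff M) * (X ^ (M - N) * q)) %ₘ q := by
        intro p q hq hqN hp
        constructor
        · rw [degree_lt_iff_coeff_zero]
          intro k hk
          rcases hk.eq_or_lt with rfl | hk
          · have h3 : (X ^ (M - N) * q).coeff M = 1 := by
              have h4 : (X ^ (M - N) * q).Monic := (monic_X_pow _).mul hq
              have h5 : (X ^ (M - N) * q).natDegree = M := by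
                rw [(monic_X_pow _).natDegree_mul hq, natDegree_X_pow, hqN]; omega
              have := h4.coeff_natDegree
              rwa [h5] at this
            rw [coeff_sub, coeff_C_mul, h3, mul_one, sub_self]
          · have h3 : p.coeff k = 0 := by
              apply coeff_eq_zero_of_degree_lt
              exact hp.trans_le (by exact_mod_cast hk)
            have h4 : (X ^ (M - N) * q).coeff k = 0 := by
              apply coeff_eq_zero_of_natDegree_lt
              rw [(monic_X_pow _).natDegree_mul hq, natDegree_X_pow, hqN]; omega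
            rw [coeff_sub, coeff_C_mul, h3, h4, mul_zero, sub_zero]
        · rw [sub_modByMonic, ← mul_assoc, mul_self_modByMonic hq, sub_zero]
      have h1 : ∀ a, F a %ₘ g a =
          (F a - Polynomial.C ((F a).coeff M) * (X ^ (M - N) * g a)) %ₘ g a :=
        fun a => (key _ _ (hm a) (hd a) (hFd a)).2
      rw [(key _ _ hm0 hd0 hPd).2]
      simp only [h1]
      apply ih
      · exact hF.sub ((CT.C (hF M)).mul ((CT.const _).mul hg))
      · exact fun a => (key _ _ (hm a) (hd a) (hFd a)).1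
      · exact (key _ _ hm0 hd0 hPd).1

lemma CT.eval {M : ℕ} {F : α → K[X]} {P : K[X]} (hF : CT l F P)
    (hFd : ∀ a, (F a).natDegree ≤ M) (hPd : P.natDegree ≤ M) {z : α → K} {z0 : K}
    (hz : Tendsto z l (𝓝 z0)) : Tendsto (fun a => (F a).eval (z a)) l (𝓝 (P.eval z0)) := by
  have h1 : ∀ a, (F a).eval (z a) = ∑ i ∈ range (M + 1), (F a).coeff i * z a ^ i := fun a =>
    eval_eq_sum_range' (Nat.lt_succ_of_le (hFd a)) _
  rw [eval_eq_sum_range' (Nat.lt_succ_of_le hPd)]
  simp only [h1]
  exact tendsto_finsetSum _ fun i _ => (hF i).mul (hz.pow i)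

lemma tendsto_det {n : Type*} [Fintype n] [DecidableEq n] {A : α → Matrix n n K}
    {B : Matrix n n K} (h : ∀ i j, Tendsto (fun a => A a i j) l (𝓝 (B i j))) :
    Tendsto (fun a => (A a).det) l (𝓝 B.det) := by
  have hc : Continuous fun M : Matrix n n K => M.det := Continuous.matrix_det continuous_id
  exact (hc.tendsto B).comp (tendsto_pi_nhds.mpr fun i => tendsto_pi_nhds.mpr fun j => h i j)

lemma tendsto_adjugate {n : Type*} [Fintype n] [DecidableEq n] {A : α → Matrix n n K}
    {B : Matrix n n K} (h : ∀ i j, Tendsto (fun a => A a i j) l (𝓝 (B i j))) (i j : n) :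
    Tendsto (fun a => (A a).adjugate i j) l (𝓝 (B.adjugate i j)) := by
  have hc : Continuous fun M : Matrix n n K => M.adjugate :=
    Continuous.matrix_adjugate continuous_id
  have h1 := (hc.tendsto B).comp
    (tendsto_pi_nhds.mpr fun i => tendsto_pi_nhds.mpr fun j => h i j)
  exact (tendsto_pi_nhds.mp ((tendsto_pi_nhds.mp h1) i)) j

lemma CT.resultant {F G : α → K[X]} {P Q : K[X]} (hF : CT l F P) (hG : CT l G Q) (m n : ℕ) :
    Tendsto (fun a => Polynomial.resultant (F a) (G a) m n) l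
      (𝓝 (Polynomial.resultant P Q m n)) := by
  unfold Polynomial.resultant
  apply tendsto_det
  intro i j
  simp only [sylvester, Matrix.of_apply]
  refine Fin.addCases (fun j => ?_) (fun j => ?_) j
  · simp only [Fin.addCases_left]
    split_ifs
    · exact hG _
    · exact tendsto_const_nhds
  · simp only [Fin.addCases_right]
    split_ifs
    · exact hF _
    · exact tendsto_const_nhds

lemma discr_eq_of_monic {L : Type*} [Field L] {f : L[X]} (hf : f.Monic) {n : ℕ}
    (hn : f.natDegree = n) :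
    f.discr = (-1) ^ (n * (n - 1) / 2) * Polynomial.resultant f (Polynomial.derivative f) n (n - 1) := by
  rw [resultant_deriv_monic hf hn, ← mul_assoc, ← pow_add, ← two_mul, pow_mul]
  simp

lemma CT.discr {n : ℕ} {F : α → K[X]} {P : K[X]} (hF : CT l F P)
    (hm : ∀ a, (F a).Monic) (hd : ∀ a, (F a).natDegree = n)
    (hm0 : P.Monic) (hd0 : P.natDegree = n) :
    Tendsto (fun a => (F a).discr) l (𝓝 P.discr) := by
  have h1 : ∀ a, (F a).discr = (-1) ^ (n * (n - 1) / 2) *
      Polynomial.resultant (F a) (Polynomial.derivative (F a)) n (n - 1) :=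
    fun a => discr_eq_of_monic (hm a) (hd a)
  rw [discr_eq_of_monic hm0 hd0]
  simp only [h1]
  exact (hF.resultant hF.derivative n (n - 1)).const_mul _

/-- Coefficientwise convergence with bounded degrees. -/
def CTB (l : Filter α) (F : α → K[X]) (P : K[X]) : Prop :=
  CT l F P ∧ ∃ M : ℕ, (∀ a, (F a).natDegree ≤ M) ∧ P.natDegree ≤ M

namespace CTB

lemma const (P : K[X]) : CTB l (fun _ => P) P := ⟨CT.const P, P.natDegree, fun _ => le_rfl, le_rfl⟩

lemma C {c : α → K} {c0 : K} (hc : Tendsto c l (𝓝 c0)) :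
    CTB l (fun a => Polynomial.C (c a)) (Polynomial.C c0) :=
  ⟨CT.C hc, 0, fun _ => by simp, by simp⟩

lemma add {F G : α → K[X]} {P Q : K[X]} (hF : CTB l F P) (hG : CTB l G Q) :
    CTB l (fun a => F a + G a) (P + Q) := by
  obtain ⟨h1, M, h2, h3⟩ := hF
  obtain ⟨k1, M', k2, k3⟩ := hG
  refine ⟨h1.add k1, max M M', fun a => ?_, ?_⟩
  · exact (natDegree_add_le _ _).trans (max_le_max (h2 a) (k2 a))
  · exact (natDegree_add_le _ _).trans (max_le_max h3 k3)

lemma neg {F : α → K[X]} {P : K[X]} (hF : CTB l F P) : CTB l (fun a => - F a) (-P) := by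
  obtain ⟨h1, M, h2, h3⟩ := hF
  exact ⟨h1.neg, M, fun a => by rw [natDegree_neg]; exact h2 a, by rw [natDegree_neg]; exact h3⟩

lemma sub {F G : α → K[X]} {P Q : K[X]} (hF : CTB l F P) (hG : CTB l G Q) :
    CTB l (fun a => F a - G a) (P - Q) := by
  simpa only [sub_eq_add_neg] using hF.add hG.neg

lemma mul {F G : α → K[X]} {P Q : K[X]} (hF : CTB l F P) (hG : CTB l G Q) :
    CTB l (fun a => F a * G a) (P * Q) := by
  obtain ⟨h1, M, h2, h3⟩ := hF
  obtain ⟨k1, M', k2, k3⟩ := hG
  refine ⟨h1.mul k1, M + M', fun a => ?_, ?_⟩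
  · exact natDegree_mul_le.trans (add_le_add (h2 a) (k2 a))
  · exact natDegree_mul_le.trans (add_le_add h3 k3)

lemma pow {F : α → K[X]} {P : K[X]} (hF : CTB l F P) (n : ℕ) :
    CTB l (fun a => F a ^ n) (P ^ n) := by
  induction n with
  | zero => simpa using const (l := l) (1 : K[X])
  | succ n ih => simpa only [pow_succ] using ih.mul hF

lemma derivative {F : α → K[X]} {P : K[X]} (hF : CTB l F P) :
    CTB l (fun a => Polynomial.derivative (F a)) (Polynomial.derivative P) := by
  obtain ⟨h1, M, h2, h3⟩ := hF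
  refine ⟨h1.derivative, M, fun a => ?_, ?_⟩
  · exact (natDegree_derivative_le _).trans ((Nat.sub_le _ _).trans (h2 a))
  · exact (natDegree_derivative_le _).trans ((Nat.sub_le _ _).trans h3)

lemma sum {ι : Type*} (s : Finset ι) {F : ι → α → K[X]} {P : ι → K[X]}
    (hF : ∀ i ∈ s, CTB l (F i) (P i)) :
    CTB l (fun a => ∑ i ∈ s, F i a) (∑ i ∈ s, P i) := by
  classical
  induction s using Finset.induction_on with
  | empty => simpa using const (l := l) (0 : K[X])
  | insert i s hi ih =>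
    simp only [Finset.sum_insert hi]
    exact (hF i (Finset.mem_insert_self i s)).add
      (ih fun j hj => hF j (Finset.mem_insert_of_mem hj))

lemma modByMonic {N : ℕ} {g : α → K[X]} {g0 : K[X]} (hg : CT l g g0)
    (hm : ∀ a, (g a).Monic) (hd : ∀ a, (g a).natDegree = N)
    (hm0 : g0.Monic) (hd0 : g0.natDegree = N)
    {F : α → K[X]} {P : K[X]} (hF : CTB l F P) :
    CTB l (fun a => F a %ₘ g a) (P %ₘ g0) := by
  obtain ⟨h1, M, h2, h3⟩ := hF
  refine ⟨CT.modByMonic hg hm hd hm0 hd0 (M + 1) h1 (fun a => ?_) ?_, N, fun a => ?_, ?_⟩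
  · exact degree_le_natDegree.trans_lt (by exact_mod_cast Nat.lt_succ_of_le (h2 a))
  · exact degree_le_natDegree.trans_lt (by exact_mod_cast Nat.lt_succ_of_le h3)
  · exact (natDegree_modByMonic_le _ (hm a)).trans (hd a).le
  · exact (natDegree_modByMonic_le _ hm0).trans hd0.le

lemma eval {F : α → K[X]} {P : K[X]} (hF : CTB l F P) {z : α → K} {z0 : K}
    (hz : Tendsto z l (𝓝 z0)) : Tendsto (fun a => (F a).eval (z a)) l (𝓝 (P.eval z0)) := by
  obtain ⟨h1, M, h2, h3⟩ := hF
  exact h1.eval h2 h3 hz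

lemma coeff {F : α → K[X]} {P : K[X]} (hF : CTB l F P) (i : ℕ) :
    Tendsto (fun a => (F a).coeff i) l (𝓝 (P.coeff i)) := hF.1 i

end CTB

lemma tendsto_mulVec {n : Type*} [Fintype n] {A : α → Matrix n n K} {B : Matrix n n K}
    {v : α → n → K} {w : n → K}
    (h : ∀ i j, Tendsto (fun a => A a i j) l (𝓝 (B i j)))
    (hv : ∀ i, Tendsto (fun a => v a i) l (𝓝 (w i))) (i : n) :
    Tendsto (fun a => (A a).mulVec (v a) i) l (𝓝 (B.mulVec w i)) := by
  simp only [Matrix.mulVec, dotProduct]
  exact tendsto_finsetSum _ fun j _ => (h i j).mul (hv j)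

section Param

variable {N : ℕ} {g : α → K[X]} {g0 : K[X]} (hg : CTB l g g0)
    (hm : ∀ a, (g a).Monic) (hd : ∀ a, (g a).natDegree = N)
    (hm0 : g0.Monic) (hd0 : g0.natDegree = N)

include hg hm hd hm0 hd0

lemma ctb_Lop (p : K[X]) : CTB l (fun a => Lop (g a) p) (Lop g0 p) := by
  unfold Lop
  apply CTB.modByMonic hg.1 hm hd hm0 hd0
  refine CTB.add (CTB.sub (CTB.mul (CTB.const _) (CTB.derivative ?_))
    (CTB.mul (CTB.const _) hg.derivative.derivative)) ((CTB.const _).mul hg.derivative)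
  exact CTB.modByMonic hg.1 hm hd hm0 hd0 ((CTB.const _).mul hg.derivative)

lemma tendsto_Lmat (i j : Fin N) :
    Tendsto (fun a => Lmat N (g a) i j) l (𝓝 (Lmat N g0 i j)) := by
  simp only [Lmat, Matrix.of_apply]
  exact (ctb_Lop hg hm hd hm0 hd0 _).coeff _

lemma tendsto_rhsv (i : Fin N) :
    Tendsto (fun a => rhsv N (g a) i) l (𝓝 (rhsv N g0 i)) := by
  simp only [rhsv]
  exact (CTB.modByMonic hg.1 hm hd hm0 hd0
    ((CTB.const (2 * X)).mul hg.derivative).neg).coeff _

lemma tendsto_cvec (hL : (Lmat N g0).det ≠ 0) (i : Fin N) :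
    Tendsto (fun a => cvec N (g a) i) l (𝓝 (cvec N g0 i)) := by
  simp only [cvec]
  refine ((tendsto_det (tendsto_Lmat hg hm hd hm0 hd0)).inv₀ hL).mul ?_
  exact tendsto_mulVec (tendsto_adjugate (tendsto_Lmat hg hm hd hm0 hd0))
    (tendsto_rhsv hg hm hd hm0 hd0) i

lemma ctb_cpoly (hL : (Lmat N g0).det ≠ 0) :
    CTB l (fun a => cpoly N (g a)) (cpoly N g0) := by
  unfold cpoly toPoly
  exact CTB.sum _ fun i _ => (CTB.C (tendsto_cvec hg hm hd hm0 hd0 hL i)).mul (CTB.const _)

lemma ctb_hpoly (hL : (Lmat N g0).det ≠ 0) :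
    CTB l (fun a => hpoly N (g a)) (hpoly N g0) := by
  unfold hpoly
  exact hg.add (CTB.modByMonic hg.1 hm hd hm0 hd0
    ((ctb_cpoly hg hm hd hm0 hd0 hL).mul hg.derivative))

lemma tendsto_csum (hL : (Lmat N g0).det ≠ 0) :
    Tendsto (fun a => csum N (g a)) l (𝓝 (csum N g0)) := by
  unfold csum
  exact (CTB.modByMonic hg.1 hm hd hm0 hd0
    ((ctb_cpoly hg hm hd hm0 hd0 hL).mul hg.derivative)).coeff _

lemma ctb_f1poly (hL : (Lmat N g0).det ≠ 0) :
    CTB l (fun a => f1poly N (g a)) (f1poly N g0) := by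
  unfold f1poly
  exact CTB.modByMonic hg.1 hm hd hm0 hd0
    ((((CTB.const (2 * X)).mul ((ctb_cpoly hg hm hd hm0 hd0 hL).pow 2)).mul hg.derivative).neg)

lemma ctb_fpoly (hL : (Lmat N g0).det ≠ 0) {t : α → K} {t0 : K} (ht : Tendsto t l (𝓝 t0)) :
    CTB l (fun a => fpoly N (g a) (t a)) (fpoly N g0 t0) := by
  unfold fpoly
  refine (hg.mul (((CTB.const _).add ((CTB.C ?_).mul (CTB.const _))).sub (CTB.C ht))).add
    (ctb_f1poly hg hm hd hm0 hd0 hL)
  exact (tendsto_csum hg hm hd hm0 hd0 hL).const_mul _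

lemma tendsto_tpar (hL : (Lmat N g0).det ≠ 0) (h0 : g0.eval 0 ≠ 0) (d : K)
    {s : α → K} {s0 : K} (hs : Tendsto s l (𝓝 s0)) :
    Tendsto (fun a => tpar N d (g a) (s a)) l (𝓝 (tpar N d g0 s0)) := by
  unfold tpar
  refine Tendsto.add (Tendsto.div ((ctb_f1poly hg hm hd hm0 hd0 hL).eval tendsto_const_nhds)
    (hg.eval tendsto_const_nhds) h0) ?_
  exact ((hg.1.discr hm hd hm0 hd0).const_mul d).mul (hs.pow 2)

lemma ctb_fds (hL : (Lmat N g0).det ≠ 0) (h0 : g0.eval 0 ≠ 0) (d : K)
    {s : α → K} {s0 : K} (hs : Tendsto s l (𝓝 s0)) :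
    CTB l (fun a => fds N d (g a) (s a)) (fds N d g0 s0) := by
  unfold fds
  exact ctb_fpoly hg hm hd hm0 hd0 hL (tendsto_tpar hg hm hd hm0 hd0 hL h0 d hs)

lemma tendsto_resultant_hpoly (hL : (Lmat N g0).det ≠ 0) :
    Tendsto (fun a => Polynomial.resultant (g a) (hpoly N (g a)) N N) l
      (𝓝 (Polynomial.resultant g0 (hpoly N g0) N N)) :=
  CT.resultant hg.1 (ctb_hpoly hg hm hd hm0 hd0 hL).1 N N

lemma tendsto_yds (hL : (Lmat N g0).det ≠ 0) (h0 : g0.eval 0 ≠ 0)
    (hR : Polynomial.resultant g0 (hpoly N g0) N N ≠ 0) (d : K)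
    {s : α → K} {s0 : K} (hs : Tendsto s l (𝓝 s0)) :
    Tendsto (fun a => yds N d (g a) (s a)) l (𝓝 (yds N d g0 s0)) := by
  unfold yds
  refine Tendsto.div ?_ (tendsto_resultant_hpoly hg hm hd hm0 hd0 hL) hR
  refine Tendsto.mul ?_ (CT.resultant (ctb_fds hg hm hd hm0 hd0 hL h0 d hs).1
    (ctb_hpoly hg hm hd hm0 hd0 hL).1 _ _)
  exact ((hg.1.discr hm hd hm0 hd0).const_mul 2).mul hs

end Param

lemma CT.prod {ι : Type*} (s : Finset ι) {F : ι → α → K[X]} {P : ι → K[X]}
    (hF : ∀ i ∈ s, CT l (F i) (P i)) :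
    CT l (fun a => ∏ i ∈ s, F i a) (∏ i ∈ s, P i) := by
  classical
  induction s using Finset.induction_on with
  | empty => simpa using CT.const (l := l) (1 : K[X])
  | insert i s hi ih =>
    simp only [Finset.prod_insert hi]
    exact (hF i (Finset.mem_insert_self i s)).mul
      (ih fun j hj => hF j (Finset.mem_insert_of_mem hj))

lemma CT.det {n : Type*} [Fintype n] [DecidableEq n] {A : α → Matrix n n K[X]}
    {B : Matrix n n K[X]} (h : ∀ i j, CT l (fun a => A a i j) (B i j)) :
    CT l (fun a => (A a).det) B.det := by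
  simp only [Matrix.det_apply]
  refine CT.sum _ fun σ _ => ?_
  have h1 : CT l (fun a => ∏ i, A a (σ i) i) (∏ i, B (σ i) i) :=
    CT.prod _ fun i _ => h (σ i) i
  rcases Int.units_eq_one_or (Equiv.Perm.sign σ) with hs | hs
  · simpa only [hs, one_smul] using h1
  · simpa only [hs, Units.neg_smul, one_smul] using h1.neg

section TS

variable {n : ℕ} {f : α → K[X]} {f0 : K[X]} (hf : CTB l f f0)
    (hm : ∀ a, (f a).Monic) (hd : ∀ a, (f a).natDegree = n)
    (hm0 : f0.Monic) (hd0 : f0.natDegree = n) {T : α → K[X]} {T0 : K[X]} (hT : CTB l T T0)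

include hf hm hd hm0 hd0 hT

lemma ctb_charT : CT l (fun a => charT n (f a) (T a)) (charT n f0 T0) := by
  intro i
  have h1 : ∀ i j, Tendsto (fun a => Mmat n (f a) (T a) i j) l (𝓝 (Mmat n f0 T0 i j)) := by
    intro i j
    simp only [Mmat, Matrix.of_apply]
    exact (CTB.modByMonic hf.1 hm hd hm0 hd0 ((CTB.const _).mul hT)).coeff _
  refine (CT.det (A := fun a => Matrix.charmatrix (Mmat n (f a) (T a)))
    (B := Matrix.charmatrix (Mmat n f0 T0)) (l := l) fun i j => ?_) i
  simp only [Matrix.charmatrix_apply]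
  exact (CT.const _).sub (CT.C (h1 i j))

lemma tendsto_det_Bmat :
    Tendsto (fun a => (Bmat n (f a) (T a)).det) l (𝓝 (Bmat n f0 T0).det) := by
  apply tendsto_det
  intro i j
  simp only [Bmat, Matrix.of_apply]
  exact (CTB.modByMonic hf.1 hm hd hm0 hd0 (hT.pow _)).coeff _

end TS

end Pool.Agent.Lib.MP_12adaf_nt
end

section

section

/-!
# From local data to global polynomials
-/

namespace Pool.Agent.Lib.MP_12adaf_nt

set_option linter.unusedSectionVars false
set_option linter.unusedVariables false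

open Finset Polynomial Filter Topology

/-- The local statement: `F` is obtained from the parametrisation by a change of generator. -/
def LocW {K : Type*} [Field K] (N : ℕ) (F : K[X]) : Prop :=
  ∃ (g : K[X]) (t : K) (T : K[X]), g.Monic ∧ g.natDegree = N ∧ g.Separable ∧ g.eval 0 ≠ 0 ∧
    (Lmat N g).det ≠ 0 ∧ resultant g (hpoly N g) N N ≠ 0 ∧ (fpoly N g t).Separable ∧
    T.degree < ((N + 2 : ℕ) : WithBot ℕ) ∧ charT (N + 2) (fpoly N g t) T = F

section Map

variable {K L : Type*} [Field K] [Field L] (φ : K →+* L)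

lemma eval_zero_map (q : K[X]) : (q.map φ).eval 0 = φ (q.eval 0) := by
  rw [← φ.map_zero, eval_map_apply]

lemma map_tpar {g : K[X]} (hg : g.Monic) (N : ℕ) (d s : K) :
    φ (tpar N d g s) = tpar N (φ d) (g.map φ) (φ s) := by
  rw [tpar, tpar, map_add, map_div₀, map_mul, map_mul, map_pow, ← map_f1poly φ hg,
    eval_zero_map, eval_zero_map, discr_map_monic φ hg]

lemma map_fds {g : K[X]} (hg : g.Monic) (N : ℕ) (d s : K) :
    (fds N d g s).map φ = fds N (φ d) (g.map φ) (φ s) := by
  rw [fds, fds, map_fpoly φ hg, map_tpar φ hg]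

lemma map_yds {g : K[X]} (hg : g.Monic) (N : ℕ) (d s : K) :
    φ (yds N d g s) = yds N (φ d) (g.map φ) (φ s) := by
  rw [yds, yds, map_div₀, map_mul, map_mul, map_mul, ← map_fds φ hg, ← map_hpoly φ hg,
    resultant_map_map, resultant_map_map, discr_map_monic φ hg, map_ofNat]

end Map

lemma separable_of_discr_ne_zero {K : Type*} [Field K] {f : K[X]} (hf : f.Monic)
    (h : f.discr ≠ 0) : f.Separable := by
  have h1 := resultant_deriv_monic hf rfl
  have h2 : resultant f (derivative f) f.natDegree (f.natDegree - 1) ≠ 0 := by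
    rw [h1]
    exact mul_ne_zero (pow_ne_zero _ (neg_ne_zero.mpr one_ne_zero)) h
  have h3 : resultant f (derivative f) ≠ 0 := by
    intro h4
    apply h2
    obtain ⟨k, hk⟩ := Nat.exists_eq_add_of_le (natDegree_derivative_le f)
    rw [hk, resultant_add_right_deg _ _ _ _ _ le_rfl, h4, mul_zero]
  rw [separable_def]
  exact (isUnit_resultant_iff_isCoprime hf).mp (isUnit_iff_ne_zero.mpr h3)

lemma discr_ne_zero_of_separable {K : Type*} [Field K] {f : K[X]} (hf : f.Monic)
    (h : f.Separable) : f.discr ≠ 0 := by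
  rw [separable_def] at h
  have h3 := (isUnit_resultant_iff_isCoprime hf).mpr h
  intro h0
  have h1 := resultant_deriv_monic hf rfl
  rw [h0, mul_zero] at h1
  obtain ⟨k, hk⟩ := Nat.exists_eq_add_of_le (natDegree_derivative_le f)
  rw [hk, resultant_add_right_deg _ _ _ _ _ le_rfl, hf.coeff_natDegree, one_pow, one_mul] at h1
  exact h3.ne_zero h1

/-- The parameter `s` realising a given square root of the discriminant. -/
lemma LocW.exists_s {K : Type*} [Field K] [CharZero K] {N : ℕ} (hN : Even N) {g T : K[X]} {t : K}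
    (hg : g.Monic) (hgN : g.natDegree = N) (hsep : g.Separable) (h0 : g.eval 0 ≠ 0)
    (hL : (Lmat N g).det ≠ 0) (hR : resultant g (hpoly N g) N N ≠ 0)
    (hfs : (fpoly N g t).Separable) {d Y : K} (hY : Y ≠ 0) (hd : d ≠ 0)
    (hdisc : (charT (N + 2) (fpoly N g t) T).discr = d * Y ^ 2) :
    ∃ s : K, tpar N d g s = t ∧ yds N d g s * (Bmat (N + 2) (fds N d g s) T).det = Y := by
  have hm := fpoly_monic hg hgN t
  have key := discr_W hN hm.1 hg hm.2 hgN (natDegree_hpoly_le hg hgN)
    (wronskian_fpoly hg hgN hsep h0 hL t)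
  have h1 : (fpoly N g t).eval 0 = (f1poly N g).eval 0 - t * g.eval 0 := by
    rw [fpoly]
    simp only [eval_add, eval_mul, eval_sub, eval_pow, eval_X, eval_C, mul_zero]
    ring
  rw [discr_charT hm.1 hm.2 hfs] at hdisc
  set f := fpoly N g t with hf
  set B := (Bmat (N + 2) f T).det with hB
  set R := resultant g (hpoly N g) N N with hRdef
  set H := resultant f (hpoly N g) (N + 2) N with hH
  have hdY : d * Y ^ 2 ≠ 0 := mul_ne_zero hd (pow_ne_zero 2 hY)
  have hB0 : B ≠ 0 := by
    intro h; rw [h] at hdisc; apply hdY; rw [← hdisc]; ring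
  have hfd : f.discr ≠ 0 := by
    intro h; rw [h, zero_mul] at hdisc; exact hdY hdisc.symm
  have hgd : g.discr ≠ 0 := discr_ne_zero_of_separable hg hsep
  have hH0 : H ≠ 0 := by
    intro h
    rw [h] at key
    have : f.discr * g.eval 0 * R ^ 2 ≠ 0 :=
      mul_ne_zero (mul_ne_zero hfd h0) (pow_ne_zero 2 hR)
    apply this; rw [key]; ring
  have e1 : tpar N d g (Y * R / (2 * B * g.discr * H)) = t := by
    rw [tpar]
    have h2 : (f.discr * B ^ 2) * g.eval 0 * R ^ 2 =
        - 4 * f.eval 0 * g.discr * H ^ 2 * B ^ 2 := by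
      linear_combination B ^ 2 * key
    rw [hdisc, h1] at h2
    field_simp
    linear_combination h2
  refine ⟨Y * R / (2 * B * g.discr * H), e1, ?_⟩
  have e2 : fds N d g (Y * R / (2 * B * g.discr * H)) = f := by rw [fds, e1]
  rw [yds, e2, ← hB, ← hH, ← hRdef]
  field_simp

theorem global_of_local {k : Type*} [Field k] [CharZero k] {ι : Type*} [Fintype ι] [Nonempty ι]
    (K : ι → Type*) [∀ i, NormedField (K i)] [∀ i, CharZero (K i)] (φ : ∀ i, k →+* K i)
    (hdense : DenseRange (fun (q : k) (i : ι) => φ i q)) {N : ℕ} (hN : Even N)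
    {d : k} (hd : d ≠ 0) (F : ∀ i, (K i)[X]) (Y : ∀ i, K i) (hF : ∀ i, LocW N (F i))
    (hdisc : ∀ i, (F i).discr = φ i d * Y i ^ 2) (hY : ∀ i, Y i ≠ 0) {ε : ℝ} (hε : 0 < ε) :
    ∃ (P : k[X]) (y : k), P.Monic ∧ P.natDegree = N + 2 ∧ P.discr = d * y ^ 2 ∧ y ≠ 0 ∧
      ∀ i, (∀ m, ‖φ i (P.coeff m) - (F i).coeff m‖ < ε) ∧ ‖φ i y - Y i‖ < ε := by
  -- sequences
  have hseq : ∀ x : ∀ i, K i, ∃ u : ℕ → k, ∀ i, Tendsto (fun j => φ i (u j)) atTop (𝓝 (x i)) := by
    intro x
    have hx : x ∈ closure (Set.range fun (q : k) (i : ι) => φ i q) := hdense x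
    obtain ⟨w, hw, hlim⟩ := mem_closure_iff_seq_limit.mp hx
    choose u hu using hw
    refine ⟨u, fun i => ?_⟩
    have := (tendsto_pi_nhds.mp hlim) i
    refine this.congr fun j => ?_
    rw [← hu j]
  choose g t T hg hgN hsep h0 hL hR hfs hT hch using hF
  have hφd : ∀ i, φ i d ≠ 0 := fun i => (map_ne_zero (φ i)).mpr hd
  have hs : ∀ i, ∃ s : K i, tpar N (φ i d) (g i) s = t i ∧
      yds N (φ i d) (g i) s * (Bmat (N + 2) (fds N (φ i d) (g i) s) (T i)).det = Y i := by
    intro i
    refine LocW.exists_s hN (hg i) (hgN i) (hsep i) (h0 i) (hL i) (hR i) (hfs i) (hY i) (hφd i) ?_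
    rw [hch i, hdisc i]
  choose s hs1 hs2 using hs
  choose ug hug using fun m : Fin N => hseq fun i => (g i).coeff m
  choose uT huT using fun m : Fin (N + 2) => hseq fun i => (T i).coeff m
  obtain ⟨us, hus⟩ := hseq s
  let gq : ℕ → k[X] := fun j => X ^ N + toPoly fun m => ug m j
  let Tq : ℕ → k[X] := fun j => toPoly fun m => uT m j
  have hlt : ∀ {R : Type _} [CommRing R] (c : Fin N → R), (toPoly c).degree < ((N : ℕ) : WithBot ℕ) :=
    fun c => degree_toPoly_lt c
  have hgqm : ∀ j, (gq j).Monic := fun j => monic_X_pow_add (hlt _)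
  have hgqd : ∀ j, (gq j).natDegree = N := by
    intro j
    have h1 : (toPoly fun m => ug m j).degree < (X ^ N : k[X]).degree := by
      rw [degree_X_pow]; exact hlt _
    rw [show gq j = X ^ N + toPoly fun m => ug m j from rfl,
      natDegree_add_eq_left_of_degree_lt h1, natDegree_X_pow]
  have hgdec : ∀ i, g i = X ^ N + toPoly fun m : Fin N => (g i).coeff m := by
    intro i
    have h1 : (g i - X ^ N).degree < ((N : ℕ) : WithBot ℕ) := by
      have h2 : (g i).degree = N := by rw [degree_eq_natDegree (hg i).ne_zero, hgN i]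
      have := degree_sub_lt_left (p := g i) (q := X ^ N) (by rw [h2, degree_X_pow])
        (hg i).ne_zero (by rw [(hg i).leadingCoeff, leadingCoeff_X_pow])
      rwa [h2] at this
    have h3 := toPoly_coeff h1
    have h4 : (fun m : Fin N => (g i - X ^ N).coeff m) = fun m : Fin N => (g i).coeff m := by
      ext m
      rw [coeff_sub, coeff_X_pow, if_neg (by have := m.2; omega), sub_zero]
    rw [h4] at h3
    rw [h3]; ring
  -- convergence at each place
  have hCTg : ∀ i, CTB atTop (fun j => (gq j).map (φ i)) (g i) := by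
    intro i
    have h1 : ∀ j, (gq j).map (φ i) = X ^ N + ∑ m : Fin N, C (φ i (ug m j)) * X ^ (m : ℕ) := by
      intro j
      rw [show gq j = X ^ N + toPoly fun m => ug m j from rfl, Polynomial.map_add,
        Polynomial.map_pow, Polynomial.map_X, map_toPoly]
      rfl
    rw [hgdec i]
    simp only [h1]
    exact (CTB.const _).add (CTB.sum _ fun m _ => (CTB.C (hug m i)).mul (CTB.const _))
  have hCTT : ∀ i, CTB atTop (fun j => (Tq j).map (φ i)) (T i) := by
    intro i
    have h1 : ∀ j, (Tq j).map (φ i) = ∑ m : Fin (N + 2), C (φ i (uT m j)) * X ^ (m : ℕ) := by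
      intro j
      rw [show Tq j = toPoly fun m => uT m j from rfl, map_toPoly]
      rfl
    rw [← toPoly_coeff (hT i)]
    simp only [h1]
    exact CTB.sum _ fun m _ => (CTB.C (huT m i)).mul (CTB.const _)
  have hm' : ∀ i j, ((gq j).map (φ i)).Monic := fun i j => (hgqm j).map _
  have hd' : ∀ i j, ((gq j).map (φ i)).natDegree = N := fun i j => by
    rw [natDegree_map, hgqd]
  have hCTf : ∀ i, CTB atTop (fun j => (fds N d (gq j) (us j)).map (φ i))
      (fds N (φ i d) (g i) (s i)) := by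
    intro i
    simp only [map_fds (φ i) (hgqm _)]
    exact ctb_fds (hCTg i) (hm' i) (hd' i) (hg i) (hgN i) (hL i) (h0 i) (φ i d) (hus i)
  have hfm : ∀ j, (fds N d (gq j) (us j)).Monic ∧ (fds N d (gq j) (us j)).natDegree = N + 2 :=
    fun j => fpoly_monic (hgqm j) (hgqd j) _
  have hfm0 : ∀ i, (fds N (φ i d) (g i) (s i)).Monic ∧
      (fds N (φ i d) (g i) (s i)).natDegree = N + 2 :=
    fun i => fpoly_monic (hg i) (hgN i) _
  have hCTP : ∀ i, CT atTop (fun j => (charT (N + 2) (fds N d (gq j) (us j)) (Tq j)).map (φ i))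
      (F i) := by
    intro i
    have h1 := ctb_charT (n := N + 2) (hCTf i) (fun j => (hfm j).1.map _)
      (fun j => by rw [natDegree_map]; exact (hfm j).2) (hfm0 i).1 (hfm0 i).2 (hCTT i)
    have h2 : charT (N + 2) (fds N (φ i d) (g i) (s i)) (T i) = F i := by
      rw [fds, hs1 i, hch i]
    rw [h2] at h1
    intro m
    refine (h1 m).congr fun j => ?_
    dsimp only
    rw [map_charT (φ i) (hfm j).1]
  let yq : ℕ → k := fun j => yds N d (gq j) (us j) *
    (Bmat (N + 2) (fds N d (gq j) (us j)) (Tq j)).det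
  have hyq : ∀ i, Tendsto (fun j => φ i (yq j)) atTop (𝓝 (Y i)) := by
    intro i
    have h1 := tendsto_yds (hCTg i) (hm' i) (hd' i) (hg i) (hgN i) (hL i) (h0 i) (hR i) (φ i d)
      (hus i)
    have h2 := tendsto_det_Bmat (n := N + 2) (hCTf i) (fun j => (hfm j).1.map _)
      (fun j => by rw [natDegree_map]; exact (hfm j).2) (hfm0 i).1 (hfm0 i).2 (hCTT i)
    have h3 := h1.mul h2
    rw [hs2 i] at h3
    refine h3.congr fun j => ?_
    rw [map_mul, map_yds (φ i) (hgqm j), map_det_Bmat (φ i) (hfm j).1]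
  -- choose a good index
  obtain ⟨i₀⟩ := ‹Nonempty ι›
  have ev1 : ∀ᶠ j in atTop, yq j ≠ 0 := by
    have := (hyq i₀).eventually_ne (hY i₀)
    filter_upwards [this] with j hj h
    exact hj (by rw [h, map_zero])
  have ev2 : ∀ᶠ j in atTop, (Lmat N (gq j)).det ≠ 0 := by
    have h1 := (tendsto_det (tendsto_Lmat (hCTg i₀) (hm' i₀) (hd' i₀) (hg i₀)
      (hgN i₀))).eventually_ne (hL i₀)
    filter_upwards [h1] with j hj h
    apply hj
    rw [map_Lmat (φ i₀) (hgqm j)]
    rw [show ((Lmat N (gq j)).map (φ i₀)).det = φ i₀ (Lmat N (gq j)).det from by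
      rw [RingHom.map_det]; rfl, h, map_zero]
  have ev3 : ∀ᶠ j in atTop, (gq j).eval 0 ≠ 0 := by
    have h1 := ((hCTg i₀).eval (z := fun _ => 0) tendsto_const_nhds).eventually_ne (h0 i₀)
    filter_upwards [h1] with j hj h
    apply hj
    rw [eval_zero_map, h, map_zero]
  have ev4 : ∀ᶠ j in atTop, resultant (gq j) (hpoly N (gq j)) N N ≠ 0 := by
    have h1 := (tendsto_resultant_hpoly (hCTg i₀) (hm' i₀) (hd' i₀) (hg i₀) (hgN i₀)
      (hL i₀)).eventually_ne (hR i₀)
    filter_upwards [h1] with j hj h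
    apply hj
    rw [← map_hpoly (φ i₀) (hgqm j), resultant_map_map, h, map_zero]
  have ev5 : ∀ᶠ j in atTop, (gq j).discr ≠ 0 := by
    have h1 := ((hCTg i₀).1.discr (hm' i₀) (hd' i₀) (hg i₀) (hgN i₀)).eventually_ne
      (discr_ne_zero_of_separable (hg i₀) (hsep i₀))
    filter_upwards [h1] with j hj h
    apply hj
    rw [discr_map_monic (φ i₀) (hgqm j), h, map_zero]
  have ev6 : ∀ᶠ j in atTop, ∀ i, ‖φ i (yq j) - Y i‖ < ε := by
    rw [eventually_all]
    intro i
    have := (Metric.tendsto_nhds.mp (hyq i)) ε hε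
    simpa only [dist_eq_norm] using this
  have ev7 : ∀ᶠ j in atTop, ∀ i, ∀ m : Fin (N + 3),
      ‖φ i ((charT (N + 2) (fds N d (gq j) (us j)) (Tq j)).coeff m) - (F i).coeff m‖ < ε := by
    rw [eventually_all]
    intro i
    rw [eventually_all]
    intro m
    have := (Metric.tendsto_nhds.mp (hCTP i m)) ε hε
    simpa only [dist_eq_norm, coeff_map] using this
  obtain ⟨j, hj1, hj2, hj3, hj4, hj5, hj6, hj7⟩ :=
    (ev1.and (ev2.and (ev3.and (ev4.and (ev5.and (ev6.and ev7)))))).exists
  have hgsep : (gq j).Separable := separable_of_discr_ne_zero (hgqm j) hj5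
  have hfd := discr_fds hN (hgqm j) (hgqd j) hgsep hj3 hj2 hj4 d (us j)
  have hy1 : yds N d (gq j) (us j) ≠ 0 := left_ne_zero_of_mul hj1
  have hfsep : (fds N d (gq j) (us j)).Separable := by
    apply separable_of_discr_ne_zero (hfm j).1
    rw [hfd]
    exact mul_ne_zero hd (pow_ne_zero 2 hy1)
  refine ⟨charT (N + 2) (fds N d (gq j) (us j)) (Tq j), yq j, charT_monic _ _ _,
    natDegree_charT _ _ _, ?_, hj1, fun i => ⟨fun m => ?_, hj6 i⟩⟩
  · rw [discr_charT (hfm j).1 (hfm j).2 hfsep, hfd]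
    ring
  · by_cases hm : m < N + 3
    · exact hj7 i ⟨m, hm⟩
    · have h1 : (charT (N + 2) (fds N d (gq j) (us j)) (Tq j)).coeff m = 0 := by
        apply coeff_eq_zero_of_natDegree_lt
        rw [natDegree_charT]; omega
      have h2 : (F i).coeff m = 0 := by
        apply coeff_eq_zero_of_natDegree_lt
        rw [← hch i, natDegree_charT]; omega
      rw [h1, h2, map_zero, sub_zero, norm_zero]
      exact hε

end Pool.Agent.Lib.MP_12adaf_nt
end

section

/-!
# Existence of roots near a point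
-/

namespace Pool.Agent.Lib.MP_12adaf_nt

set_option linter.unusedSectionVars false
set_option linter.unusedVariables false

open Finset Polynomial Filter Topology

/-- A polynomial has a root within `n |f(a)/f'(a)|` of `a`. -/
lemma exists_root_near {Cl : Type*} [NormedField Cl] [IsAlgClosed Cl] {f : Cl[X]} {a : Cl} {n : ℕ}
    (hn : f.natDegree ≤ n) (hd : (derivative f).eval a ≠ 0) :
    ∃ θ, f.eval θ = 0 ∧ ‖θ - a‖ ≤ n * ‖f.eval a / (derivative f).eval a‖ := by
  by_cases h0 : f.eval a = 0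
  · exact ⟨a, h0, by simp [h0]⟩
  have hs : f.Splits := IsAlgClosed.splits f
  have hf0 : f ≠ 0 := by rintro rfl; simp at h0
  have key := hs.eval_derivative_div_eval_of_ne_zero h0
  by_contra hcon
  push Not at hcon
  have hpos : 0 < ‖f.eval a / (derivative f).eval a‖ := norm_pos_iff.mpr (div_ne_zero h0 hd)
  have hcard : Multiset.card f.roots ≤ n := by
    rw [← hs.natDegree_eq_card_roots]; exact hn
  have hroots : f.roots ≠ 0 := by
    intro hr
    rw [hr] at key
    simp only [Multiset.map_zero, Multiset.sum_zero] at key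
    exact (div_ne_zero hd h0) key
  have hnpos : 0 < n := lt_of_lt_of_le (Multiset.card_pos.mpr hroots) hcard
  have hnr : (0 : ℝ) < n := by exact_mod_cast hnpos
  have h1 : ‖(derivative f).eval a / f.eval a‖ <
      n * (n * ‖f.eval a / (derivative f).eval a‖)⁻¹ := by
    rw [key]
    have h2 : ‖(f.roots.map fun z => 1 / (a - z)).sum‖ ≤
        ((f.roots.map fun z => 1 / (a - z)).map fun y => ‖y‖).sum :=
      norm_multiset_sum_le _
    have h3 : ((f.roots.map fun z => 1 / (a - z)).map fun y => ‖y‖).sum <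
        (f.roots.map fun _ => (n * ‖f.eval a / (derivative f).eval a‖)⁻¹).sum := by
      rw [Multiset.map_map]
      apply Multiset.sum_lt_sum_of_nonempty hroots
      intro z hz
      have hz0 : f.eval z = 0 := (mem_roots'.mp hz).2
      have := hcon z hz0
      simp only [Function.comp_apply, one_div, norm_inv]
      apply inv_strictAnti₀ (by positivity)
      rwa [norm_sub_rev]
    refine h2.trans_lt (h3.trans_le ?_)
    rw [Multiset.map_const', Multiset.sum_replicate, nsmul_eq_mul]
    apply mul_le_mul_of_nonneg_right _ (by positivity)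
    exact_mod_cast hcard
  rw [mul_inv, ← mul_assoc, mul_inv_cancel₀ hnr.ne', one_mul, ← norm_inv, inv_div] at h1
  exact lt_irrefl _ h1

/-- Roots near a moving point, from a weighted Newton ratio. -/
lemma eventually_exists_root {Cl : Type*} [NormedField Cl] [IsAlgClosed Cl] {α : Type*}
    {l : Filter α} {f : α → Cl[X]} {n : ℕ} (hn : ∀ a, (f a).natDegree ≤ n)
    {X : α → Cl} {G φ φ' E w : α → Cl} {L : Cl} (hL : L ≠ 0)
    (hE : ∀ᶠ a in l, E a ≠ 0)
    (hf : ∀ᶠ a in l, (f a).eval (X a) = E a * φ a)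
    (hf' : ∀ᶠ a in l, (derivative (f a)).eval (X a) = E a * (G a * φ a + φ' a))
    (h1 : Tendsto (fun a => w a * φ a) l (𝓝 0))
    (h2 : Tendsto (fun a => w a * (G a * φ a)) l (𝓝 0))
    (h3 : Tendsto (fun a => w a * φ' a) l (𝓝 L)) {δ : ℝ} (hδ : 0 < δ) :
    ∀ᶠ a in l, ∃ θ, (f a).eval θ = 0 ∧ ‖θ - X a‖ < δ := by
  have h4 : Tendsto (fun a => w a * (G a * φ a + φ' a)) l (𝓝 L) := by
    have := h2.add h3
    simp only [zero_add] at this
    exact this.congr fun a => by ring
  have h5 : Tendsto (fun a => (w a * φ a) / (w a * (G a * φ a + φ' a))) l (𝓝 0) := by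
    have := h1.div h4 hL
    rw [zero_div] at this
    exact this
  have h6 : Tendsto (fun a => (n : ℝ) * ‖(w a * φ a) / (w a * (G a * φ a + φ' a))‖) l (𝓝 0) := by
    have := (h5.norm).const_mul (n : ℝ)
    simpa using this
  filter_upwards [hE, hf, hf', h4.eventually_ne hL, (tendsto_order.mp h6).2 δ hδ] with a a1 a2 a3 a4 a5
  have hw : w a ≠ 0 := left_ne_zero_of_mul a4
  have ha : G a * φ a + φ' a ≠ 0 := right_ne_zero_of_mul a4
  have hd : (derivative (f a)).eval (X a) ≠ 0 := by rw [a3]; exact mul_ne_zero a1 ha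
  obtain ⟨θ, hθ, hθ'⟩ := exists_root_near (hn a) hd
  refine ⟨θ, hθ, hθ'.trans_lt ?_⟩
  rw [a2, a3, mul_div_mul_left _ _ a1, ← mul_div_mul_left (φ a) _ hw]
  exact a5

end Pool.Agent.Lib.MP_12adaf_nt
end

section

/-!
# Behaviour of the parametrisation when the poles fall into clusters
-/

namespace Pool.Agent.Lib.MP_12adaf_nt

set_option linter.unusedSectionVars false
set_option linter.unusedVariables false

open Finset Polynomial Filter Topology

section Alg

variable {Cl : Type*} [Field Cl] {J : Type*} [Fintype J] [DecidableEq J]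

/-- The matrix `𝐀`. -/
noncomputable def WMat (x : J → Cl) : Matrix J J Cl :=
  Matrix.of fun i j => (x i - x j)⁻¹ + if i = j then (2 * x i)⁻¹ else 0

lemma WMat_mulVec (x w : J → Cl) (j : J) :
    (WMat x).mulVec w j = w j / (2 * x j) + cauchySum x w (x j) := by
  simp only [WMat, Matrix.mulVec, dotProduct, Matrix.of_apply, add_mul, Finset.sum_add_distrib,
    ite_mul, zero_mul, Finset.sum_ite_eq, Finset.mem_univ, if_true, cauchySum]
  rw [add_comm]
  congr 1
  · rw [div_eq_inv_mul]
  · exact Finset.sum_congr rfl fun k _ => by rw [div_eq_inv_mul]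

lemma WNondeg_of_det {x : J → Cl} (h : (WMat x).det ≠ 0) : WNondeg x := by
  intro w hw
  by_contra hne
  apply h
  refine Matrix.exists_mulVec_eq_zero_iff.mp ⟨w, hne, ?_⟩
  ext j
  rw [WMat_mulVec, hw j]; rfl

/-- The solution of `𝐀 c = -1`. -/
noncomputable def cW (x : J → Cl) : J → Cl :=
  fun j => -((WMat x).det⁻¹ * (WMat x).adjugate.mulVec 1 j)

lemma WCond_cW {x : J → Cl} (h : (WMat x).det ≠ 0) : WCond x (cW x) := by
  intro j
  rw [← WMat_mulVec]
  have h1 : cW x = (-(WMat x).det⁻¹) • ((WMat x).adjugate.mulVec 1) := by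
    ext i; simp [cW]
  rw [h1, Matrix.mulVec_smul, Matrix.mulVec_mulVec, Matrix.mul_adjugate, Matrix.smul_mulVec,
    Matrix.one_mulVec, smul_smul, neg_mul, inv_mul_cancel₀ h]
  simp

/-- `φ` with `f = g φ`. -/
noncomputable def phiR (x c : J → Cl) (t X : Cl) : Cl :=
  X ^ 2 + 4 * (∑ j, c j) * X - t - ∑ j, 2 * c j ^ 2 * x j / (X - x j)

lemma eval_fR (x c : J → Cl) (t X : Cl) (hX : ∀ j, X ≠ x j) :
    (fR x c t).eval X = (nod x).eval X * phiR x c t X := by
  rw [fR, phiR]
  simp only [eval_sub, eval_mul, eval_add, eval_pow, Polynomial.eval_X, eval_C, eval_finsetSum]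
  have h1 : ∑ j, 2 * c j ^ 2 * x j * (nodE x j).eval X =
      (nod x).eval X * ∑ j, 2 * c j ^ 2 * x j / (X - x j) := by
    rw [Finset.mul_sum]
    refine Finset.sum_congr rfl fun j _ => ?_
    rw [eval_nodE_eq_div x j X (hX j)]
    ring
  rw [h1]
  ring

lemma eval_derivative_nod_eq (x : J → Cl) (X : Cl) (hX : ∀ j, X ≠ x j) :
    (derivative (nod x)).eval X = (nod x).eval X * ∑ j, 1 / (X - x j) := by
  rw [derivative_nod, eval_finsetSum, Finset.mul_sum]
  refine Finset.sum_congr rfl fun j _ => ?_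
  rw [eval_nodE_eq_div x j X (hX j)]
  ring

lemma eval_derivative_fR [CharZero Cl] {x c : J → Cl} (hx : Function.Injective x)
    (h0 : ∀ j, x j ≠ 0) (hc : WCond x c) (t X : Cl) (hX : ∀ j, X ≠ x j) :
    (derivative (fR x c t)).eval X = (nod x).eval X *
      ((∑ j, 1 / (X - x j)) * phiR x c t X + 2 * X * (1 + cauchySum x c X) ^ 2) := by
  have h1 := congrArg (eval X) (wronskian_fR hx h0 hc t)
  simp only [eval_sub, eval_mul, eval_pow, Polynomial.eval_X, eval_ofNat] at h1
  rw [eval_hR x c X hX, eval_fR x c t X hX, eval_derivative_nod_eq x X hX] at h1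
  have hne : (nod x).eval X ≠ 0 := fun h => by
    obtain ⟨j, hj⟩ := (eval_nod_eq_zero_iff x X).mp h
    exact hX j hj
  apply mul_right_cancel₀ hne
  linear_combination h1

lemma natDegree_fR_le (x c : J → Cl) (t : Cl) :
    (fR x c t).natDegree ≤ Fintype.card J + 2 := by
  rw [fR]
  refine (natDegree_sub_le _ _).trans (max_le ?_ ?_)
  · refine natDegree_mul_le.trans ?_
    rw [natDegree_nod]
    refine add_le_add le_rfl ?_
    refine (natDegree_sub_le _ _).trans (max_le ?_ ?_)
    · refine (natDegree_add_le _ _).trans (max_le ?_ ?_)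
      · simp
      · refine natDegree_mul_le.trans ?_
        rw [natDegree_C, zero_add]
        exact natDegree_X_le.trans (by norm_num)
    · rw [natDegree_C]; exact Nat.zero_le _
  · apply natDegree_le_of_degree_le
    refine (degree_sum_nodE_lt x _).le.trans ?_
    exact_mod_cast Nat.le_add_right _ _

end Alg

section Limit

variable {Cl : Type*} [NormedField Cl] [DecidableEq Cl] {J : Type*} [Fintype J] [DecidableEq J]

/-- Poles in clusters centred at `z j / u`. -/
noncomputable def xu (z b : J → Cl) (u : Cl) : J → Cl := fun j => z j / u + b j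

/-- The limit matrix. -/
noncomputable def Ainf (z b : J → Cl) : Matrix J J Cl :=
  Matrix.of fun i j => (if z i = z j then (b i - b j)⁻¹ else 0) +
    if i = j then (if z i = 0 then (2 * b i)⁻¹ else 0) else 0

lemma tendsto_id_punctured : Tendsto (fun u : Cl => u) (𝓝[≠] 0) (𝓝 0) :=
  tendsto_id.mono_left nhdsWithin_le_nhds

lemma ev_ne : ∀ᶠ u : Cl in 𝓝[≠] 0, u ≠ 0 := eventually_mem_nhdsWithin

/-- Inverse of a difference which blows up. -/
lemma tendsto_inv_blow {a c : Cl} (ha : a ≠ 0) :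
    Tendsto (fun u : Cl => (a / u + c)⁻¹) (𝓝[≠] 0) (𝓝 0) := by
  have h1 : Tendsto (fun u : Cl => u * (a + u * c)⁻¹) (𝓝[≠] 0) (𝓝 (0 * (a + 0 * c)⁻¹)) := by
    refine tendsto_id_punctured.mul (Tendsto.inv₀ ?_ (by simpa using ha))
    exact tendsto_const_nhds.add (tendsto_id_punctured.mul tendsto_const_nhds)
  rw [zero_mul] at h1
  refine h1.congr' ?_
  filter_upwards [ev_ne] with u hu
  rw [show a / u + c = (a + u * c) / u by field_simp, inv_div, div_eq_mul_inv]

lemma ev_blow_ne {a c : Cl} (ha : a ≠ 0) : ∀ᶠ u : Cl in 𝓝[≠] 0, a / u + c ≠ 0 := by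
  have h1 : Tendsto (fun u : Cl => a + u * c) (𝓝[≠] 0) (𝓝 (a + 0 * c)) :=
    tendsto_const_nhds.add (tendsto_id_punctured.mul tendsto_const_nhds)
  rw [zero_mul, add_zero] at h1
  filter_upwards [h1.eventually_ne ha, ev_ne] with u h2 hu h3
  apply h2
  have : a + u * c = u * (a / u + c) := by field_simp
  rw [this, h3, mul_zero]

lemma xu_sub (z b : J → Cl) (u : Cl) (i j : J) :
    xu z b u i - xu z b u j = (z i - z j) / u + (b i - b j) := by
  simp only [xu]; ring

variable {z b : J → Cl}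

lemma ev_xu_injective (hzb : ∀ i j, z i = z j → b i = b j → i = j) :
    ∀ᶠ u : Cl in 𝓝[≠] 0, Function.Injective (xu z b u) := by
  have h1 : ∀ i j, ∀ᶠ u : Cl in 𝓝[≠] 0, xu z b u i = xu z b u j → i = j := by
    intro i j
    by_cases hz : z i = z j
    · refine Eventually.of_forall fun u h => hzb i j hz ?_
      have := sub_eq_zero.mpr h
      rw [xu_sub, hz, sub_self, zero_div, zero_add] at this
      exact sub_eq_zero.mp this
    · filter_upwards [ev_blow_ne (c := b i - b j) (sub_ne_zero.mpr hz)] with u hu h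
      exact absurd (by rw [← xu_sub, h, sub_self]) hu
  have h2 : ∀ᶠ u : Cl in 𝓝[≠] 0, ∀ i j, xu z b u i = xu z b u j → i = j := by
    rw [eventually_all]; intro i
    rw [eventually_all]; intro j
    exact h1 i j
  filter_upwards [h2] with u hu
  exact fun i j => hu i j

lemma ev_xu_ne_zero (hb : ∀ j, z j = 0 → b j ≠ 0) :
    ∀ᶠ u : Cl in 𝓝[≠] 0, ∀ j, xu z b u j ≠ 0 := by
  rw [eventually_all]
  intro j
  by_cases hz : z j = 0
  · refine Eventually.of_forall fun u => ?_
    simp only [xu, hz, zero_div, zero_add]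
    exact hb j hz
  · exact ev_blow_ne hz

lemma tendsto_WMat (i j : J) :
    Tendsto (fun u : Cl => WMat (xu z b u) i j) (𝓝[≠] 0) (𝓝 (Ainf z b i j)) := by
  simp only [WMat, Ainf, Matrix.of_apply]
  refine Tendsto.add ?_ ?_
  · simp only [xu_sub]
    by_cases hz : z i = z j
    · simp only [hz, sub_self, zero_div, zero_add, if_true]
      exact tendsto_const_nhds
    · simp only [hz, if_false]
      exact tendsto_inv_blow (sub_ne_zero.mpr hz)
  · by_cases hij : i = j
    · simp only [hij, if_true]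
      by_cases hz : z j = 0
      · simp only [xu, hz, zero_div, zero_add, if_true]
        exact tendsto_const_nhds
      · simp only [xu, hz, if_false, mul_inv]
        have := (tendsto_inv_blow (c := b j) hz).const_mul (2 : Cl)⁻¹
        rwa [mul_zero] at this
    · simp only [hij, if_false]
      exact tendsto_const_nhds

lemma Ainf_mulVec (w : J → Cl) (j : J) :
    (Ainf z b).mulVec w j = (∑ k, if z j = z k then w k / (b j - b k) else 0) +
      (if z j = 0 then w j / (2 * b j) else 0) := by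
  simp only [Ainf, Matrix.mulVec, dotProduct, Matrix.of_apply, add_mul, Finset.sum_add_distrib,
    ite_mul, zero_mul, Finset.sum_ite_eq, Finset.mem_univ, if_true, div_eq_inv_mul]

/-- The limiting linear system. -/
def InfCond (z b c : J → Cl) : Prop :=
  ∀ j, (∑ k, if z j = z k then c k / (b j - b k) else 0) +
      (if z j = 0 then c j / (2 * b j) else 0) = -1

lemma ev_det_ne_zero (hdet : (Ainf z b).det ≠ 0) :
    ∀ᶠ u : Cl in 𝓝[≠] 0, (WMat (xu z b u)).det ≠ 0 :=
  (tendsto_det tendsto_WMat).eventually_ne hdet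

lemma tendsto_cW (hdet : (Ainf z b).det ≠ 0) {c : J → Cl} (hc : InfCond z b c) (j : J) :
    Tendsto (fun u : Cl => cW (xu z b u) j) (𝓝[≠] 0) (𝓝 (c j)) := by
  have h1 : Tendsto (fun u : Cl => cW (xu z b u) j) (𝓝[≠] 0)
      (𝓝 (-((Ainf z b).det⁻¹ * (Ainf z b).adjugate.mulVec 1 j))) := by
    simp only [cW]
    refine (((tendsto_det tendsto_WMat).inv₀ hdet).mul ?_).neg
    exact tendsto_mulVec (tendsto_adjugate tendsto_WMat) (fun _ => tendsto_const_nhds) j
  have h2 : (Ainf z b).mulVec c = -1 := by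
    ext k
    rw [Ainf_mulVec, hc k]; rfl
  have h3 : -((Ainf z b).det⁻¹ * (Ainf z b).adjugate.mulVec 1 j) = c j := by
    have h4 : (Ainf z b).adjugate.mulVec ((Ainf z b).mulVec c) = (Ainf z b).det • c := by
      rw [Matrix.mulVec_mulVec, Matrix.adjugate_mul, Matrix.smul_mulVec, Matrix.one_mulVec]
    rw [h2, Matrix.mulVec_neg] at h4
    have h5 := congrFun h4 j
    simp only [Pi.neg_apply, Pi.smul_apply, smul_eq_mul] at h5
    field_simp
    linear_combination h5
  rwa [h3] at h1

end Limit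

end Pool.Agent.Lib.MP_12adaf_nt
end

section

/-!
# Roots of `f_t` in the cluster limit
-/

namespace Pool.Agent.Lib.MP_12adaf_nt

set_option linter.unusedSectionVars false
set_option linter.unusedVariables false

open Finset Polynomial Filter Topology

variable {Cl : Type*} [NormedField Cl] [DecidableEq Cl] {J : Type*} [Fintype J] [DecidableEq J]

lemma X_sub_xu (z b : J → Cl) (z' η w u : Cl) (j : J) :
    z' / u + η + w - xu z b u j = (z' - z j) / u + (η - b j) + w := by
  simp only [xu]; ring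

lemma ev_sub_ne {a c : Cl} {v : Cl → Cl} (hv : Tendsto v (𝓝[≠] 0) (𝓝 0))
    (h : a = 0 → c ≠ 0) : ∀ᶠ u : Cl in 𝓝[≠] 0, a / u + c + v u ≠ 0 := by
  by_cases ha : a = 0
  · have h1 : Tendsto (fun u => c + v u) (𝓝[≠] 0) (𝓝 (c + 0)) := tendsto_const_nhds.add hv
    rw [add_zero] at h1
    filter_upwards [h1.eventually_ne (h ha)] with u hu
    rwa [ha, zero_div, zero_add]
  · have h1 : Tendsto (fun u : Cl => a + u * (c + v u)) (𝓝[≠] 0) (𝓝 (a + 0 * (c + 0))) :=
      tendsto_const_nhds.add (tendsto_id_punctured.mul (tendsto_const_nhds.add hv))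
    rw [zero_mul, add_zero] at h1
    filter_upwards [h1.eventually_ne ha, ev_ne] with u h2 hu h3
    apply h2
    have : a + u * (c + v u) = u * (a / u + c + v u) := by field_simp; ring
    rw [this, h3, mul_zero]

lemma tendsto_inv_gen {a c : Cl} {v : Cl → Cl} (hv : Tendsto v (𝓝[≠] 0) (𝓝 0))
    (h : a = 0 → c ≠ 0) :
    Tendsto (fun u : Cl => (a / u + c + v u)⁻¹) (𝓝[≠] 0) (𝓝 (if a = 0 then c⁻¹ else 0)) := by
  by_cases ha : a = 0
  · simp only [ha, zero_div, zero_add, if_true]
    have h1 : Tendsto (fun u => c + v u) (𝓝[≠] 0) (𝓝 (c + 0)) := tendsto_const_nhds.add hv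
    rw [add_zero] at h1
    exact h1.inv₀ (h ha)
  · simp only [ha, if_false]
    have h1 : Tendsto (fun u : Cl => a + u * (c + v u)) (𝓝[≠] 0) (𝓝 (a + 0 * (c + 0))) :=
      tendsto_const_nhds.add (tendsto_id_punctured.mul (tendsto_const_nhds.add hv))
    rw [zero_mul, add_zero] at h1
    have h2 := tendsto_id_punctured.mul (h1.inv₀ ha)
    rw [zero_mul] at h2
    refine h2.congr' ?_
    filter_upwards [ev_ne] with u hu
    rw [show a / u + c + v u = (a + u * (c + v u)) / u by field_simp; ring, inv_div,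
      div_eq_mul_inv]

variable {z b : J → Cl}

lemma ev_ne_pole {z' η : Cl} {v : Cl → Cl} (hv : Tendsto v (𝓝[≠] 0) (𝓝 0)) {j : J}
    (hj : z j = z' → η ≠ b j) :
    ∀ᶠ u : Cl in 𝓝[≠] 0, z' / u + η + v u ≠ xu z b u j := by
  have h1 := ev_sub_ne (a := z' - z j) (c := η - b j) hv
    (fun h => sub_ne_zero.mpr (hj (sub_eq_zero.mp h).symm))
  filter_upwards [h1] with u hu h
  apply hu
  rw [← X_sub_xu, h, sub_self]

lemma tendsto_one_div_pole {z' η : Cl} {v : Cl → Cl} (hv : Tendsto v (𝓝[≠] 0) (𝓝 0)) {j : J}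
    (hj : z j = z' → η ≠ b j) :
    Tendsto (fun u : Cl => 1 / (z' / u + η + v u - xu z b u j)) (𝓝[≠] 0)
      (𝓝 (if z j = z' then 1 / (η - b j) else 0)) := by
  have h1 := tendsto_inv_gen (a := z' - z j) (c := η - b j) hv
    (fun h => sub_ne_zero.mpr (hj (sub_eq_zero.mp h).symm))
  have h2 : (if z' - z j = 0 then (η - b j)⁻¹ else 0) = if z j = z' then 1 / (η - b j) else 0 := by
    by_cases h : z j = z'
    · rw [if_pos h, if_pos (by rw [h, sub_self]), one_div]
    · rw [if_neg h, if_neg fun h' => h (sub_eq_zero.mp h').symm]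
  rw [h2] at h1
  refine h1.congr fun u => ?_
  rw [X_sub_xu, one_div]

/-- `u * x_j → z_j`. -/
lemma tendsto_u_xu (j : J) : Tendsto (fun u : Cl => u * xu z b u j) (𝓝[≠] 0) (𝓝 (z j)) := by
  have h1 : Tendsto (fun u : Cl => z j + u * b j) (𝓝[≠] 0) (𝓝 (z j + 0 * b j)) :=
    tendsto_const_nhds.add (tendsto_id_punctured.mul tendsto_const_nhds)
  rw [zero_mul, add_zero] at h1
  refine h1.congr' ?_
  filter_upwards [ev_ne] with u hu
  simp only [xu]
  field_simp

lemma tendsto_u_X (z' η : Cl) {v : Cl → Cl} (hv : Tendsto v (𝓝[≠] 0) (𝓝 0)) :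
    Tendsto (fun u : Cl => u * (z' / u + η + v u)) (𝓝[≠] 0) (𝓝 z') := by
  have h1 : Tendsto (fun u : Cl => z' + u * (η + v u)) (𝓝[≠] 0) (𝓝 (z' + 0 * (η + 0))) :=
    tendsto_const_nhds.add (tendsto_id_punctured.mul (tendsto_const_nhds.add hv))
  rw [zero_mul, add_zero] at h1
  refine h1.congr' ?_
  filter_upwards [ev_ne] with u hu
  field_simp
  ring

section

variable [IsAlgClosed Cl] [CharZero Cl]
  (hzb : ∀ i j, z i = z j → b i = b j → i = j) (hb : ∀ j, z j = 0 → b j ≠ 0)
  (hdet : (Ainf z b).det ≠ 0) {c : J → Cl} (hc : InfCond z b c) {d t0 : Cl}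

include hzb hb hdet hc

/-- The data available for all small `u`. -/
lemma ev_good : ∀ᶠ u : Cl in 𝓝[≠] 0, u ≠ 0 ∧ Function.Injective (xu z b u) ∧
    (∀ j, xu z b u j ≠ 0) ∧ (WMat (xu z b u)).det ≠ 0 ∧ WCond (xu z b u) (cW (xu z b u)) := by
  filter_upwards [ev_ne, ev_xu_injective hzb, ev_xu_ne_zero hb, ev_det_ne_zero hdet]
    with u h1 h2 h3 h4
  exact ⟨h1, h2, h3, h4, WCond_cW h4⟩

/-- Type T1 targets. -/
lemma near_root_T1 {z' η : Cl} (hz' : z' ≠ 0) (hd : z' ^ 2 = d)
    (hη : ∀ j, z j = z' → η ≠ b j)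
    (heq : η + 2 * (∑ j, c j) - ∑ j, (if z j = z' then c j ^ 2 / (η - b j) else 0) = 0)
    (hr : 1 + ∑ j, (if z j = z' then c j / (η - b j) else 0) ≠ 0) {δ : ℝ} (hδ : 0 < δ) :
    ∀ᶠ u : Cl in 𝓝[≠] 0, ∃ θ, (fR (xu z b u) (cW (xu z b u)) (d / u ^ 2 + t0)).eval θ = 0 ∧
      ‖θ - (z' / u + η)‖ < δ := by
  have hv : Tendsto (fun _ : Cl => (0 : Cl)) (𝓝[≠] 0) (𝓝 0) := tendsto_const_nhds
  have hcu := tendsto_cW hdet hc
  have hX : ∀ᶠ u : Cl in 𝓝[≠] 0, ∀ j, z' / u + η ≠ xu z b u j := by
    rw [eventually_all]; intro j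
    filter_upwards [ev_ne_pole hv (hη j)] with u hu
    rwa [add_zero] at hu
  have hinv : ∀ j, Tendsto (fun u : Cl => 1 / (z' / u + η - xu z b u j)) (𝓝[≠] 0)
      (𝓝 (if z j = z' then 1 / (η - b j) else 0)) := fun j => by
    simpa only [add_zero] using tendsto_one_div_pole hv (hη j)
  have hG := tendsto_finsetSum (Finset.univ : Finset J) fun j _ => hinv j
  have hC : Tendsto (fun u : Cl => ∑ j, cW (xu z b u) j) (𝓝[≠] 0) (𝓝 (∑ j, c j)) :=
    tendsto_finsetSum _ fun j _ => hcu j
  have hrl : Tendsto (fun u : Cl => 1 + cauchySum (xu z b u) (cW (xu z b u)) (z' / u + η))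
      (𝓝[≠] 0) (𝓝 (1 + ∑ j, (if z j = z' then c j / (η - b j) else 0))) := by
    refine tendsto_const_nhds.add ?_
    simp only [cauchySum]
    refine tendsto_finsetSum _ fun j _ => ?_
    have h1 := (hcu j).mul (hinv j)
    rw [mul_ite, mul_one_div, mul_zero] at h1
    exact h1.congr fun u => by rw [mul_one_div]
  have hux : ∀ j, Tendsto (fun u : Cl => u * xu z b u j) (𝓝[≠] 0) (𝓝 (z j)) := tendsto_u_xu
  have huX : Tendsto (fun u : Cl => u * (z' / u + η)) (𝓝[≠] 0) (𝓝 z') := by
    simpa only [add_zero] using tendsto_u_X z' η hv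
  have hphi : Tendsto (fun u : Cl => u * phiR (xu z b u) (cW (xu z b u)) (d / u ^ 2 + t0)
      (z' / u + η)) (𝓝[≠] 0) (𝓝 0) := by
    have h1 : Tendsto (fun u : Cl => 2 * z' * η + u * (η ^ 2 - t0) +
        4 * (∑ j, cW (xu z b u) j) * (u * (z' / u + η)) -
        ∑ j, 2 * cW (xu z b u) j ^ 2 * (u * xu z b u j) * (1 / (z' / u + η - xu z b u j)))
        (𝓝[≠] 0) (𝓝 (2 * z' * η + 0 * (η ^ 2 - t0) + 4 * (∑ j, c j) * z' -
          ∑ j, 2 * c j ^ 2 * z j * (if z j = z' then 1 / (η - b j) else 0))) := by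
      refine Tendsto.sub (Tendsto.add (Tendsto.add tendsto_const_nhds
        (tendsto_id_punctured.mul tendsto_const_nhds)) ((hC.const_mul 4).mul huX)) ?_
      exact tendsto_finsetSum _ fun j _ => ((((hcu j).pow 2).const_mul 2).mul (hux j)).mul (hinv j)
    have h2 : 2 * z' * η + 0 * (η ^ 2 - t0) + 4 * (∑ j, c j) * z' -
          ∑ j, 2 * c j ^ 2 * z j * (if z j = z' then 1 / (η - b j) else 0) = 0 := by
      have h3 : ∑ j, 2 * c j ^ 2 * z j * (if z j = z' then 1 / (η - b j) else 0) =
          2 * z' * ∑ j, (if z j = z' then c j ^ 2 / (η - b j) else 0) := by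
        rw [Finset.mul_sum]
        refine Finset.sum_congr rfl fun j _ => ?_
        by_cases h : z j = z'
        · simp only [h, if_true]; ring
        · simp only [h, if_false, mul_zero]
      rw [h3]
      linear_combination 2 * z' * heq
    rw [h2] at h1
    refine h1.congr' ?_
    filter_upwards [ev_ne] with u hu
    have e1 : ∑ j, 2 * cW (xu z b u) j ^ 2 * (u * xu z b u j) *
        (1 / (z' / u + η - xu z b u j)) =
        u * ∑ j, 2 * cW (xu z b u) j ^ 2 * xu z b u j / (z' / u + η - xu z b u j) := by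
      rw [Finset.mul_sum]
      refine Finset.sum_congr rfl fun j _ => ?_
      ring
    rw [e1, phiR, ← hd]
    generalize (∑ j, 2 * cW (xu z b u) j ^ 2 * xu z b u j / (z' / u + η - xu z b u j)) = S1
    generalize (∑ j, cW (xu z b u) j) = S2
    field_simp
    ring
  refine eventually_exists_root (l := 𝓝[≠] (0 : Cl)) (n := Fintype.card J + 2)
    (f := fun u => fR (xu z b u) (cW (xu z b u)) (d / u ^ 2 + t0))
    (X := fun u => z' / u + η)
    (G := fun u => ∑ j, 1 / (z' / u + η - xu z b u j))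
    (φ := fun u => phiR (xu z b u) (cW (xu z b u)) (d / u ^ 2 + t0) (z' / u + η))
    (φ' := fun u => 2 * (z' / u + η) *
      (1 + cauchySum (xu z b u) (cW (xu z b u)) (z' / u + η)) ^ 2)
    (E := fun u => (nod (xu z b u)).eval (z' / u + η))
    (w := fun u => u)
    (L := 2 * z' * (1 + ∑ j, (if z j = z' then c j / (η - b j) else 0)) ^ 2)
    (fun u => natDegree_fR_le _ _ _)
    (mul_ne_zero (mul_ne_zero two_ne_zero hz') (pow_ne_zero 2 hr)) ?_ ?_ ?_ hphi ?_ ?_ hδ
  · filter_upwards [hX] with u hu h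
    obtain ⟨j, hj⟩ := (eval_nod_eq_zero_iff _ _).mp h
    exact hu j hj
  · filter_upwards [hX] with u hu
    exact eval_fR _ _ _ _ hu
  · filter_upwards [hX, ev_good hzb hb hdet hc] with u hu hg
    exact eval_derivative_fR hg.2.1 hg.2.2.1 hg.2.2.2.2 _ _ hu
  · have h1 := hG.mul hphi
    rw [mul_zero] at h1
    exact h1.congr fun u => by ring
  · have h1 := (huX.const_mul 2).mul (hrl.pow 2)
    exact h1.congr fun u => by ring

/-- Type T0 targets. -/
lemma near_root_T0 {η : Cl} (hη0 : η ≠ 0)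
    (hη : ∀ j, z j = 0 → η ≠ b j)
    (heq : η ^ 2 + 4 * (∑ j, c j) * η - t0 -
      ∑ j, (if z j = 0 then 2 * c j ^ 2 * b j / (η - b j) else - (2 * c j ^ 2)) = 0)
    (hr : 1 + ∑ j, (if z j = 0 then c j / (η - b j) else 0) ≠ 0) {δ : ℝ} (hδ : 0 < δ) :
    ∀ᶠ u : Cl in 𝓝[≠] 0, ∃ θ, (fR (xu z b u) (cW (xu z b u)) t0).eval θ = 0 ∧
      ‖θ - η‖ < δ := by
  have hv : Tendsto (fun _ : Cl => (0 : Cl)) (𝓝[≠] 0) (𝓝 0) := tendsto_const_nhds
  have hcu := tendsto_cW hdet hc
  have hX : ∀ᶠ u : Cl in 𝓝[≠] 0, ∀ j, η ≠ xu z b u j := by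
    rw [eventually_all]; intro j
    filter_upwards [ev_ne_pole (z' := 0) hv (hη j)] with u hu
    rwa [add_zero, zero_div, zero_add] at hu
  have hinv : ∀ j, Tendsto (fun u : Cl => 1 / (η - xu z b u j)) (𝓝[≠] 0)
      (𝓝 (if z j = 0 then 1 / (η - b j) else 0)) := fun j => by
    simpa only [add_zero, zero_div, zero_add] using tendsto_one_div_pole (z' := 0) hv (hη j)
  have hG := tendsto_finsetSum (Finset.univ : Finset J) fun j _ => hinv j
  have hC : Tendsto (fun u : Cl => ∑ j, cW (xu z b u) j) (𝓝[≠] 0) (𝓝 (∑ j, c j)) :=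
    tendsto_finsetSum _ fun j _ => hcu j
  have hrl : Tendsto (fun u : Cl => 1 + cauchySum (xu z b u) (cW (xu z b u)) η)
      (𝓝[≠] 0) (𝓝 (1 + ∑ j, (if z j = 0 then c j / (η - b j) else 0))) := by
    refine tendsto_const_nhds.add ?_
    simp only [cauchySum]
    refine tendsto_finsetSum _ fun j _ => ?_
    have h1 := (hcu j).mul (hinv j)
    rw [mul_ite, mul_one_div, mul_zero] at h1
    exact h1.congr fun u => by rw [mul_one_div]
  have hxdiv : ∀ j, Tendsto (fun u : Cl => xu z b u j / (η - xu z b u j)) (𝓝[≠] 0)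
      (𝓝 (if z j = 0 then b j / (η - b j) else -1)) := by
    intro j
    have h1 : Tendsto (fun u : Cl => η * (1 / (η - xu z b u j)) - 1) (𝓝[≠] 0)
        (𝓝 (η * (if z j = 0 then 1 / (η - b j) else 0) - 1)) :=
      ((hinv j).const_mul η).sub tendsto_const_nhds
    have h2 : η * (if z j = 0 then 1 / (η - b j) else 0) - 1 =
        if z j = 0 then b j / (η - b j) else -1 := by
      by_cases h : z j = 0
      · have h3 := sub_ne_zero.mpr (hη j h)
        simp only [h, if_true]
        field_simp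
        ring
      · simp [h]
    rw [h2] at h1
    refine h1.congr' ?_
    filter_upwards [hX] with u hu
    have h3 := sub_ne_zero.mpr (hu j)
    field_simp
    ring
  have hphi : Tendsto (fun u : Cl => phiR (xu z b u) (cW (xu z b u)) t0 η) (𝓝[≠] 0) (𝓝 0) := by
    have h1 : Tendsto (fun u : Cl => η ^ 2 + 4 * (∑ j, cW (xu z b u) j) * η - t0 -
        ∑ j, 2 * cW (xu z b u) j ^ 2 * (xu z b u j / (η - xu z b u j))) (𝓝[≠] 0)
        (𝓝 (η ^ 2 + 4 * (∑ j, c j) * η - t0 -
          ∑ j, 2 * c j ^ 2 * (if z j = 0 then b j / (η - b j) else -1))) := by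
      refine Tendsto.sub (Tendsto.sub (Tendsto.add tendsto_const_nhds
        ((hC.const_mul 4).mul tendsto_const_nhds)) tendsto_const_nhds) ?_
      exact tendsto_finsetSum _ fun j _ => (((hcu j).pow 2).const_mul 2).mul (hxdiv j)
    have h2 : η ^ 2 + 4 * (∑ j, c j) * η - t0 -
          ∑ j, 2 * c j ^ 2 * (if z j = 0 then b j / (η - b j) else -1) = 0 := by
      refine Eq.trans ?_ heq
      congr 1
      refine Finset.sum_congr rfl fun j _ => ?_
      by_cases h : z j = 0
      · rw [if_pos h, if_pos h]; ring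
      · rw [if_neg h, if_neg h]; ring
    rw [h2] at h1
    refine h1.congr fun u => ?_
    rw [phiR]
    congr 1
    refine Finset.sum_congr rfl fun j _ => ?_
    ring
  refine eventually_exists_root (l := 𝓝[≠] (0 : Cl)) (n := Fintype.card J + 2)
    (f := fun u => fR (xu z b u) (cW (xu z b u)) t0)
    (X := fun u => η)
    (G := fun u => ∑ j, 1 / (η - xu z b u j))
    (φ := fun u => phiR (xu z b u) (cW (xu z b u)) t0 η)
    (φ' := fun u => 2 * η * (1 + cauchySum (xu z b u) (cW (xu z b u)) η) ^ 2)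
    (E := fun u => (nod (xu z b u)).eval η)
    (w := fun u => 1)
    (L := 2 * η * (1 + ∑ j, (if z j = 0 then c j / (η - b j) else 0)) ^ 2)
    (fun u => natDegree_fR_le _ _ _)
    (mul_ne_zero (mul_ne_zero two_ne_zero hη0) (pow_ne_zero 2 hr)) ?_ ?_ ?_ ?_ ?_ ?_ hδ
  · filter_upwards [hX] with u hu h
    obtain ⟨j, hj⟩ := (eval_nod_eq_zero_iff _ _).mp h
    exact hu j hj
  · filter_upwards [hX] with u hu
    exact eval_fR _ _ _ _ hu
  · filter_upwards [hX, ev_good hzb hb hdet hc] with u hu hg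
    exact eval_derivative_fR hg.2.1 hg.2.2.1 hg.2.2.2.2 _ _ hu
  · simpa only [one_mul] using hphi
  · have h1 := hG.mul hphi
    rw [mul_zero] at h1
    exact h1.congr fun u => by ring
  · have h1 := (hrl.pow 2).const_mul (2 * η)
    exact h1.congr fun u => by ring

/-- Type T2 targets. -/
lemma near_root_T2 {k : J} (hk : z k ≠ 0) (hkd : z k ^ 2 ≠ d) (hck : c k ≠ 0)
    {δ : ℝ} (hδ : 0 < δ) :
    ∀ᶠ u : Cl in 𝓝[≠] 0, ∃ θ, (fR (xu z b u) (cW (xu z b u)) (d / u ^ 2 + t0)).eval θ = 0 ∧
      ‖θ - (z k / u + b k)‖ < δ := by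
  set η1 : Cl := 2 * c k ^ 2 * z k / (z k ^ 2 - d) with hη1
  have hzd : z k ^ 2 - d ≠ 0 := sub_ne_zero.mpr hkd
  have hη10 : η1 ≠ 0 := div_ne_zero (mul_ne_zero (mul_ne_zero two_ne_zero (pow_ne_zero 2 hck)) hk) hzd
  have hv : Tendsto (fun u : Cl => u * η1) (𝓝[≠] 0) (𝓝 0) := by
    have := (tendsto_id_punctured (Cl := Cl)).mul_const η1
    rwa [zero_mul] at this
  have hcu := tendsto_cW hdet hc
  have hjk : ∀ j, j ≠ k → (z j = z k → b k ≠ b j) := fun j hj h1 h2 => hj (hzb j k h1 h2.symm)
  have hX : ∀ᶠ u : Cl in 𝓝[≠] 0, ∀ j, z k / u + b k + u * η1 ≠ xu z b u j := by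
    rw [eventually_all]; intro j
    by_cases hj : j = k
    · subst hj
      filter_upwards [ev_ne] with u hu h
      have : u * η1 = 0 := by
        have h2 := sub_eq_zero.mpr h
        rw [X_sub_xu] at h2
        simpa using h2
      exact mul_ne_zero hu hη10 this
    · exact ev_ne_pole hv (hjk j hj)
  have hinv : ∀ j, j ≠ k → Tendsto (fun u : Cl => 1 / (z k / u + b k + u * η1 - xu z b u j))
      (𝓝[≠] 0) (𝓝 (if z j = z k then 1 / (b k - b j) else 0)) := fun j hj =>
    tendsto_one_div_pole hv (hjk j hj)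
  -- `u / (X - x_j)`
  have hinvu : ∀ j, Tendsto (fun u : Cl => u * (1 / (z k / u + b k + u * η1 - xu z b u j)))
      (𝓝[≠] 0) (𝓝 (if j = k then 1 / η1 else 0)) := by
    intro j
    by_cases hj : j = k
    · subst hj
      simp only [if_true]
      refine tendsto_const_nhds.congr' ?_
      filter_upwards [ev_ne] with u hu
      rw [X_sub_xu, sub_self, zero_div, sub_self, zero_add, zero_add]
      field_simp
    · simp only [hj, if_false]
      have := (tendsto_id_punctured (Cl := Cl)).mul (hinv j hj)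
      rwa [zero_mul] at this
  have hG : Tendsto (fun u : Cl => ∑ j, u * (1 / (z k / u + b k + u * η1 - xu z b u j)))
      (𝓝[≠] 0) (𝓝 (∑ j, if j = k then 1 / η1 else 0)) :=
    tendsto_finsetSum _ fun j _ => hinvu j
  have hC : Tendsto (fun u : Cl => ∑ j, cW (xu z b u) j) (𝓝[≠] 0) (𝓝 (∑ j, c j)) :=
    tendsto_finsetSum _ fun j _ => hcu j
  have hux : ∀ j, Tendsto (fun u : Cl => u * xu z b u j) (𝓝[≠] 0) (𝓝 (z j)) := tendsto_u_xu
  have huX : Tendsto (fun u : Cl => u * (z k / u + b k + u * η1)) (𝓝[≠] 0) (𝓝 (z k)) :=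
    tendsto_u_X (z k) (b k) hv
  have hrl : Tendsto (fun u : Cl => u * (1 + cauchySum (xu z b u) (cW (xu z b u))
      (z k / u + b k + u * η1))) (𝓝[≠] 0) (𝓝 (c k / η1)) := by
    have h1 : Tendsto (fun u : Cl => u + ∑ j, cW (xu z b u) j *
        (u * (1 / (z k / u + b k + u * η1 - xu z b u j)))) (𝓝[≠] 0)
        (𝓝 (0 + ∑ j, c j * (if j = k then 1 / η1 else 0))) :=
      tendsto_id_punctured.add (tendsto_finsetSum _ fun j _ => (hcu j).mul (hinvu j))
    have h2 : 0 + ∑ j, c j * (if j = k then 1 / η1 else 0) = c k / η1 := by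
      simp [div_eq_mul_inv]
    rw [h2] at h1
    refine h1.congr fun u => ?_
    rw [mul_add, mul_one, cauchySum, Finset.mul_sum]
    congr 1
    refine Finset.sum_congr rfl fun j _ => ?_
    ring
  have hphi : Tendsto (fun u : Cl => u ^ 2 * phiR (xu z b u) (cW (xu z b u)) (d / u ^ 2 + t0)
      (z k / u + b k + u * η1)) (𝓝[≠] 0) (𝓝 0) := by
    have h1 : Tendsto (fun u : Cl => (u * (z k / u + b k + u * η1)) ^ 2 +
        4 * (∑ j, cW (xu z b u) j) * (u * (u * (z k / u + b k + u * η1))) - (d + u ^ 2 * t0) -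
        ∑ j, 2 * cW (xu z b u) j ^ 2 * (u * xu z b u j) *
          (u * (1 / (z k / u + b k + u * η1 - xu z b u j))))
        (𝓝[≠] 0) (𝓝 (z k ^ 2 + 4 * (∑ j, c j) * (0 * z k) - (d + 0 ^ 2 * t0) -
          ∑ j, 2 * c j ^ 2 * z j * (if j = k then 1 / η1 else 0))) := by
      refine Tendsto.sub (Tendsto.sub (Tendsto.add (huX.pow 2)
        ((hC.const_mul 4).mul (tendsto_id_punctured.mul huX)))
        (tendsto_const_nhds.add ((tendsto_id_punctured.pow 2).mul tendsto_const_nhds))) ?_
      exact tendsto_finsetSum _ fun j _ => ((((hcu j).pow 2).const_mul 2).mul (hux j)).mul (hinvu j)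
    have h2 : z k ^ 2 + 4 * (∑ j, c j) * (0 * z k) - (d + 0 ^ 2 * t0) -
          ∑ j, 2 * c j ^ 2 * z j * (if j = k then 1 / η1 else 0) = 0 := by
      simp only [mul_ite, mul_zero, Finset.sum_ite_eq', Finset.mem_univ, if_true]
      rw [hη1]
      field_simp
      ring
    rw [h2] at h1
    refine h1.congr' ?_
    filter_upwards [ev_ne] with u hu
    have e1 : ∑ j, 2 * cW (xu z b u) j ^ 2 * (u * xu z b u j) *
        (u * (1 / (z k / u + b k + u * η1 - xu z b u j))) =
        u ^ 2 * ∑ j, 2 * cW (xu z b u) j ^ 2 * xu z b u j /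
          (z k / u + b k + u * η1 - xu z b u j) := by
      rw [Finset.mul_sum]
      refine Finset.sum_congr rfl fun j _ => ?_
      ring
    rw [e1, phiR]
    generalize (∑ j, 2 * cW (xu z b u) j ^ 2 * xu z b u j /
      (z k / u + b k + u * η1 - xu z b u j)) = S1
    generalize (∑ j, cW (xu z b u) j) = S2
    field_simp
  have hroot : ∀ᶠ u : Cl in 𝓝[≠] 0,
      ∃ θ, (fR (xu z b u) (cW (xu z b u)) (d / u ^ 2 + t0)).eval θ = 0 ∧
      ‖θ - (z k / u + b k + u * η1)‖ < δ / 2 := by
    refine eventually_exists_root (l := 𝓝[≠] (0 : Cl)) (n := Fintype.card J + 2)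
      (f := fun u => fR (xu z b u) (cW (xu z b u)) (d / u ^ 2 + t0))
      (X := fun u => z k / u + b k + u * η1)
      (G := fun u => ∑ j, 1 / (z k / u + b k + u * η1 - xu z b u j))
      (φ := fun u => phiR (xu z b u) (cW (xu z b u)) (d / u ^ 2 + t0) (z k / u + b k + u * η1))
      (φ' := fun u => 2 * (z k / u + b k + u * η1) *
        (1 + cauchySum (xu z b u) (cW (xu z b u)) (z k / u + b k + u * η1)) ^ 2)
      (E := fun u => (nod (xu z b u)).eval (z k / u + b k + u * η1))
      (w := fun u => u ^ 3)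
      (L := 2 * z k * (c k / η1) ^ 2)
      (fun u => natDegree_fR_le _ _ _)
      (mul_ne_zero (mul_ne_zero two_ne_zero hk) (pow_ne_zero 2 (div_ne_zero hck hη10)))
      ?_ ?_ ?_ ?_ ?_ ?_ (half_pos hδ)
    · filter_upwards [hX] with u hu h
      obtain ⟨j, hj⟩ := (eval_nod_eq_zero_iff _ _).mp h
      exact hu j hj
    · filter_upwards [hX] with u hu
      exact eval_fR _ _ _ _ hu
    · filter_upwards [hX, ev_good hzb hb hdet hc] with u hu hg
      exact eval_derivative_fR hg.2.1 hg.2.2.1 hg.2.2.2.2 _ _ hu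
    · have h1 := (tendsto_id_punctured (Cl := Cl)).mul hphi
      rw [mul_zero] at h1
      exact h1.congr fun u => by ring
    · have h1 := hG.mul hphi
      rw [mul_zero] at h1
      refine h1.congr fun u => ?_
      rw [← Finset.mul_sum]
      ring
    · have h1 := (huX.const_mul 2).mul (hrl.pow 2)
      exact h1.congr fun u => by ring
  have hsmall : ∀ᶠ u : Cl in 𝓝[≠] 0, ‖u * η1‖ < δ / 2 := by
    have := (Metric.tendsto_nhds.mp hv) (δ / 2) (half_pos hδ)
    simpa only [dist_zero_right] using this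
  filter_upwards [hroot, hsmall] with u ⟨θ, h1, h2⟩ h3
  refine ⟨θ, h1, ?_⟩
  calc ‖θ - (z k / u + b k)‖ = ‖(θ - (z k / u + b k + u * η1)) + u * η1‖ := by congr 1; ring
    _ ≤ ‖θ - (z k / u + b k + u * η1)‖ + ‖u * η1‖ := norm_add_le _ _
    _ < δ / 2 + δ / 2 := add_lt_add h2 h3
    _ = δ := add_halves δ

end

end Pool.Agent.Lib.MP_12adaf_nt
end

section

/-!
# Descent: from roots in the algebraic closure to local data
-/

namespace Pool.Agent.Lib.MP_12adaf_nt

set_option linter.unusedSectionVars false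
set_option linter.unusedVariables false

open Finset Polynomial Filter Topology

section Basic

variable {L : Type*} [Field L] {I J : Type*} [Fintype I] [DecidableEq I] [Fintype J]
  [DecidableEq J]

lemma nod_comp_equiv (e : J ≃ I) (x : I → L) : nod (fun j => x (e j)) = nod x := by
  rw [nod, nod]
  exact Equiv.prod_comp e fun i => (X - C (x i))

lemma roots_nod (x : I → L) : (nod x).roots = Finset.univ.val.map x := by
  have : nod x = ((Finset.univ.val.map x).map fun a => X - C a).prod := by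
    rw [nod, Multiset.map_map]; rfl
  rw [this, roots_multiset_prod_X_sub_C]

lemma splits_nod (x : I → L) : (nod x).Splits := by
  rw [nod]
  exact Splits.prod fun i _ => Splits.X_sub_C _

lemma resultant_nod (x : I → L) {q : L[X]} {n m : ℕ} (hn : Fintype.card I = n)
    (hm : q.natDegree ≤ m) : resultant (nod x) q n m = ∏ i, q.eval (x i) := by
  rw [resultant_of_splits (nod_monic x) (splits_nod x) (by rw [natDegree_nod, hn]) hm, roots_nod,
    Multiset.map_map]
  rfl

lemma eq_nod_of_roots {P : L[X]} (hP : P.Monic) (hd : P.natDegree = Fintype.card I)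
    {θ : I → L} (hθ : Function.Injective θ) (h : ∀ i, P.eval (θ i) = 0) : P = nod θ := by
  refine eq_of_degree_sub_lt_of_eval_index_eq (s := Finset.univ) (v := θ) hθ.injOn ?_
    fun i _ => ?_
  · have h1 : P.degree = Fintype.card I := by rw [degree_eq_natDegree hP.ne_zero, hd]
    have h2 : (nod θ).degree = Fintype.card I := by
      rw [degree_eq_natDegree (nod_monic θ).ne_zero, natDegree_nod]
    have := degree_sub_lt_left (p := P) (q := nod θ) (by rw [h1, h2]) hP.ne_zero
      (by rw [hP.leadingCoeff, (nod_monic θ).leadingCoeff])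
    rw [h1] at this
    simpa using this
  · rw [h i, eval_nod_self]

lemma nod_separable {x : I → L} (hx : Function.Injective x) : (nod x).Separable := by
  rw [nod]; exact separable_prod_X_sub_C_iff.mpr hx

lemma nod_map {M : Type*} [Field M] (φ : L →+* M) (x : I → L) :
    (nod x).map φ = nod fun i => φ (x i) := by
  simp [nod, Polynomial.map_prod]

end Basic

section Descent

variable {K Cl : Type*} [Field K] [Field Cl] [Algebra K Cl] [IsGalois K Cl]

lemma exists_map_of_fixed {P : Cl[X]}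
    (h : ∀ σ : Cl ≃ₐ[K] Cl, P.map (σ : Cl →+* Cl) = P) :
    ∃ p : K[X], p.map (algebraMap K Cl) = P := by
  have h1 : P ∈ lifts (algebraMap K Cl) := by
    rw [lifts_iff_coeff_lifts]
    intro n
    rw [InfiniteGalois.mem_range_algebraMap_iff_fixed]
    intro σ
    have := congrArg (fun q => q.coeff n) (h σ)
    simpa [coeff_map] using this
  exact h1

variable {I J : Type*} [Fintype I] [DecidableEq I] [Fintype J] [DecidableEq J]

/-- A Galois stable family has its nodal polynomial over the ground field. -/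
lemma exists_map_nod {x : J → Cl} (hx : Function.Injective x)
    (h : ∀ (σ : Cl ≃ₐ[K] Cl) (j : J), ∃ k, σ (x j) = x k) :
    ∃ g : K[X], g.map (algebraMap K Cl) = nod x := by
  apply exists_map_of_fixed
  intro σ
  choose π hπ using h σ
  have hinj : Function.Injective π := by
    intro a b hab
    apply hx
    apply σ.injective
    rw [hπ a, hπ b, hab]
  have hbij : Function.Bijective π := (Finite.injective_iff_bijective).mp hinj
  rw [nod_map]
  have h1 : (fun i => (σ : Cl →+* Cl) (x i)) = fun i => x ((Equiv.ofBijective π hbij) i) := by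
    ext i
    exact hπ i
  rw [h1, nod_comp_equiv]

end Descent

theorem locW_of_roots {K Cl : Type*} [Field K] [Field Cl] [Algebra K Cl] [IsGalois K Cl]
    [IsAlgClosed Cl] [CharZero K] [CharZero Cl] {I J : Type*} [Fintype I] [DecidableEq I]
    [Fintype J] [DecidableEq J] {N : ℕ}
    (hJ : Fintype.card J = N) (hI : Fintype.card I = N + 2) {x c : J → Cl} {g : K[X]}
    (hgx : g.map (algebraMap K Cl) = nod x) (hx : Function.Injective x) (hx0 : ∀ j, x j ≠ 0)
    (hnd : WNondeg x) (hc : WCond x c) (hc0 : ∀ j, c j ≠ 0) {t : K} {θ ρ : I → Cl}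
    (hθ : Function.Injective θ)
    (hroot : ∀ i, (fR x c (algebraMap K Cl t)).eval (θ i) = 0) {F : K[X]}
    (hF : F.map (algebraMap K Cl) = nod ρ)
    (heq : ∀ (σ : Cl ≃ₐ[K] Cl) (i : I), ∃ k, σ (θ i) = θ k ∧ σ (ρ i) = ρ k) :
    LocW N F := by
  set φ : K →+* Cl := algebraMap K Cl with hφ
  have hφi : Function.Injective φ := φ.injective
  have hgm : g.Monic := by
    have := nod_monic x
    rw [← hgx] at this
    exact (hφi.monic_map_iff).mpr this
  have hgN : g.natDegree = N := by
    have := natDegree_nod x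
    rw [← hgx, natDegree_map, hJ] at this
    exact this
  have hsep : g.Separable := by
    have := nod_separable hx
    rw [← hgx, separable_map] at this
    exact this
  have h0 : g.eval 0 ≠ 0 := by
    intro h
    have h1 : (nod x).eval 0 = 0 := by rw [← hgx, eval_zero_map, h, map_zero]
    obtain ⟨j, hj⟩ := (eval_nod_eq_zero_iff x 0).mp h1
    exact hx0 j hj.symm
  have hL' : (Lmat N (nod x)).det ≠ 0 := Lmat_det_ne_zero hx hx0 hnd hJ
  have hL : (Lmat N g).det ≠ 0 := by
    intro h
    apply hL'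
    rw [← hgx, map_Lmat φ hgm]
    rw [show ((Lmat N g).map φ).det = φ (Lmat N g).det from by rw [RingHom.map_det]; rfl, h,
      map_zero]
  have hcc : (fun j => (cpoly N (nod x)).eval (x j)) = c :=
    WCond.unique hnd (WCond_cpoly hx hx0 hJ hL') hc
  have hh : (hpoly N g).map φ = hR x c := by
    rw [map_hpoly φ hgm, hgx, hpoly_nod hx, hcc]
  have hf : (fpoly N g t).map φ = fR x c (φ t) := by
    rw [map_fpoly φ hgm, hgx, fpoly_nod hx hJ, hcc]
  have hfm := fpoly_monic hgm hgN t
  have hfθ : (fpoly N g t).map φ = nod θ := by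
    apply eq_nod_of_roots (hfm.1.map φ) (by rw [natDegree_map, hfm.2, hI]) hθ
    intro i
    rw [hf]; exact hroot i
  have hR : resultant g (hpoly N g) N N ≠ 0 := by
    intro h
    have h1 : resultant (nod x) (hR x c) N N = 0 := by
      rw [← hgx, ← hh, resultant_map_map, h, map_zero]
    rw [resultant_nod x hJ (by rw [← hh]; exact natDegree_map_le' φ _ (natDegree_hpoly_le hgm hgN)),
      Finset.prod_eq_zero_iff] at h1
    obtain ⟨j, _, hj⟩ := h1
    rw [eval_hR_self] at hj
    exact (mul_ne_zero (hc0 j) (eval_derivative_nod_ne_zero x hx j)) hj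
  have hfsep : (fpoly N g t).Separable := by
    have := nod_separable hθ
    rw [← hfθ, separable_map] at this
    exact this
  -- the interpolating polynomial
  obtain ⟨T, hT⟩ : ∃ T : K[X], T.map φ = Lagrange.interpolate Finset.univ θ ρ := by
    apply exists_map_of_fixed
    intro σ
    have hdeg : (Lagrange.interpolate Finset.univ θ ρ).degree < (Finset.univ : Finset I).card :=
      Lagrange.degree_interpolate_lt _ hθ.injOn
    have hdeg' : ((Lagrange.interpolate Finset.univ θ ρ).map (σ : Cl →+* Cl)).degree <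
        (Finset.univ : Finset I).card := by
      rw [degree_map]; exact hdeg
    refine eq_of_degrees_lt_of_eval_index_eq (s := Finset.univ) (v := θ) hθ.injOn hdeg' hdeg
      fun k _ => ?_
    obtain ⟨i, hi1, hi2⟩ := heq σ.symm k
    have h1 : σ (θ i) = θ k := by rw [← hi1, AlgEquiv.apply_symm_apply]
    have h2 : σ (ρ i) = ρ k := by rw [← hi2, AlgEquiv.apply_symm_apply]
    rw [Lagrange.eval_interpolate_at_node _ hθ.injOn (Finset.mem_univ k), ← h1]
    have h3 : (σ (θ i)) = (σ : Cl →+* Cl) (θ i) := rfl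
    rw [h3, eval_map_apply, Lagrange.eval_interpolate_at_node _ hθ.injOn (Finset.mem_univ i)]
    exact h2
  have hTdeg : T.degree < ((N + 2 : ℕ) : WithBot ℕ) := by
    have hdeg : (Lagrange.interpolate Finset.univ θ ρ).degree < (Finset.univ : Finset I).card :=
      Lagrange.degree_interpolate_lt _ hθ.injOn
    rw [← hT, degree_map, Finset.card_univ, hI] at hdeg
    exact hdeg
  refine ⟨g, t, T, hgm, hgN, hsep, h0, hL, hR, hfsep, hTdeg, ?_⟩
  apply Polynomial.map_injective φ hφi
  rw [map_charT φ hfm.1, hfθ, hT, hF]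
  let e : Fin (N + 2) ≃ I := (Fintype.equivFinOfCardEq hI).symm
  have hθe : Function.Injective fun k => θ (e k) := hθ.comp e.injective
  have h1 : charT (N + 2) (nod fun k => θ (e k)) (Lagrange.interpolate Finset.univ θ ρ) =
      nod (fun k => (Lagrange.interpolate Finset.univ θ ρ).eval (θ (e k))) := charT_nod hθe _
  rw [nod_comp_equiv e θ] at h1
  rw [h1]
  have h2 : (fun k => (Lagrange.interpolate Finset.univ θ ρ).eval (θ (e k))) =
      fun k => ρ (e k) := by
    ext k
    exact Lagrange.eval_interpolate_at_node _ hθ.injOn (Finset.mem_univ _)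
  rw [h2, nod_comp_equiv e ρ]

end Pool.Agent.Lib.MP_12adaf_nt
end
end
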