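import Mathlib
import Pool.Agent.Lib.MP_12adaf_nt.LocalRoots

/-!
# The odd construction (all ramification of order three)
-/

namespace Pool.Agent.Lib.MP_12adaf_nt

set_option linter.unusedSectionVars false
set_option linter.unusedVariables false

open Finset Polynomial

section Kernel

variable {L : Type*} [Field L] {ι : Type*} [Fintype ι] [DecidableEq ι]

/-- `v` is in the kernel of the matrix `1 / (u i - u j)`. -/
def CKer (u v : ι → L) : Prop := ∀ i, cauchySum u v (u i) = 0

/-- `2 ∑ v_i u_i (A v)_i = (∑ v)^2 - ∑ v^2`. -/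
lemma sum_mul_mul_cauchySum (u v : ι → L) (hu : Function.Injective u) :
    2 * ∑ i, v i * u i * cauchySum u v (u i) = (∑ i, v i) ^ 2 - ∑ i, v i ^ 2 := by
  have h1 : ∑ i, v i * u i * cauchySum u v (u i) =
      ∑ i, ∑ j, v i * v j * (u i / (u i - u j)) := by
    refine Finset.sum_congr rfl fun i _ => ?_
    rw [cauchySum, Finset.mul_sum]
    refine Finset.sum_congr rfl fun j _ => ?_
    ring
  have h2 : ∑ i, ∑ j, v i * v j * (u i / (u i - u j)) =
      ∑ i, ∑ j, v i * v j * (u j / (u j - u i)) := by
    rw [Finset.sum_comm]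
    refine Finset.sum_congr rfl fun i _ => Finset.sum_congr rfl fun j _ => ?_
    ring
  have h3 : 2 * ∑ i, v i * u i * cauchySum u v (u i) =
      ∑ i, ∑ j, (v i * v j - if i = j then v i ^ 2 else 0) := by
    rw [two_mul, h1]
    nth_rewrite 2 [h2]
    rw [← Finset.sum_add_distrib]
    refine Finset.sum_congr rfl fun i _ => ?_
    rw [← Finset.sum_add_distrib]
    refine Finset.sum_congr rfl fun j _ => ?_
    by_cases hij : i = j
    · subst hij; simp; ring
    · have h4 : u i - u j ≠ 0 := sub_ne_zero.mpr fun h => hij (hu h)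
      have h5 : u j - u i ≠ 0 := sub_ne_zero.mpr fun h => hij (hu h.symm)
      rw [if_neg hij]
      field_simp
      ring
  rw [h3]
  simp only [Finset.sum_sub_distrib, Finset.sum_ite_eq, Finset.mem_univ, if_true]
  rw [sq, Finset.sum_mul_sum]

lemma CKer.sum_sq {u v : ι → L} (hu : Function.Injective u) (hv : CKer u v) :
    (∑ i, v i) ^ 2 = ∑ i, v i ^ 2 := by
  have h := sum_mul_mul_cauchySum u v hu
  have h1 : ∑ i, v i * u i * cauchySum u v (u i) = 0 :=
    Finset.sum_eq_zero fun i _ => by rw [hv i, mul_zero]
  rw [h1, mul_zero] at h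
  exact (sub_eq_zero.mp h.symm)

/-- `H = ∑ v_i F_i`. -/
noncomputable def Hm (u v : ι → L) : L[X] := ∑ i, C (v i) * nodE u i

/-- `Γ = ∑ v_i^2 F_i`. -/
noncomputable def Gm (u v : ι → L) : L[X] := ∑ i, C (v i ^ 2) * nodE u i

lemma derivative_nodE_mul (x : ι → L) (j : ι) :
    derivative (nod x) * nodE x j - nod x * derivative (nodE x j) = nodE x j ^ 2 := by
  have h3 : derivative (nod x) = nodE x j + (X - C (x j)) * derivative (nodE x j) := by
    rw [nod_eq_mul x j]; simp
  rw [h3, nod_eq_mul x j]
  ring

theorem wronskian_Gm [CharZero L] {u v : ι → L} (hu : Function.Injective u) (hv : CKer u v) :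
    derivative (nod u) * Gm u v - nod u * derivative (Gm u v) = Hm u v ^ 2 := by
  have h1 : derivative (nod u) * Gm u v - nod u * derivative (Gm u v) =
      ∑ i, C (v i ^ 2) * nodE u i ^ 2 := by
    rw [Gm, derivative_sum, Finset.mul_sum, Finset.mul_sum, ← Finset.sum_sub_distrib]
    refine Finset.sum_congr rfl fun i _ => ?_
    rw [← derivative_nodE_mul, derivative_mul, derivative_C]
    ring
  rw [h1]
  have hne : nod u ≠ 0 := (nod_monic u).ne_zero
  apply mul_left_cancel₀ hne
  apply Polynomial.funext
  intro z
  by_cases hz : (nod u).eval z = 0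
  · rw [eval_mul, eval_mul, hz, zero_mul, zero_mul]
  rw [eval_mul, eval_mul]
  congr 1
  have hz' : ∀ j, z ≠ u j := fun j h => hz ((eval_nod_eq_zero_iff u z).mpr ⟨j, h⟩)
  have h5 := sq_cauchySum u v hu 0 z (fun j _ => hz' j)
  simp only [zero_add, hv _, mul_zero, zero_div, add_zero, ne_eq, OfNat.ofNat_ne_zero,
    not_false_eq_true, zero_pow] at h5
  rw [Hm, eval_pow, eval_finsetSum, eval_finsetSum]
  have h6 : ∑ i, (C (v i) * nodE u i).eval z = (nod u).eval z * cauchySum u v z := by
    rw [cauchySum, Finset.mul_sum]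
    refine Finset.sum_congr rfl fun j _ => ?_
    rw [eval_mul, eval_C, eval_nodE_eq_div u j z (hz' j)]
    ring
  rw [h6, mul_pow, h5, Finset.mul_sum]
  refine Finset.sum_congr rfl fun j _ => ?_
  rw [eval_mul, eval_pow, eval_C, eval_nodE_eq_div u j z (hz' j), div_pow]
  ring

/-- Kernel vectors in terms of polynomials. -/
lemma eval_Hm (u v : ι → L) (i : ι) :
    (Hm u v).eval (u i) = v i * (derivative (nod u)).eval (u i) := eval_sum_nodE u v i

lemma eval_Gm (u v : ι → L) (i : ι) :
    (Gm u v).eval (u i) = v i ^ 2 * (derivative (nod u)).eval (u i) :=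
  eval_sum_nodE u (fun i => v i ^ 2) i

lemma degree_Hm_lt (u v : ι → L) : (Hm u v).degree < Fintype.card ι := degree_sum_nodE_lt u v

lemma degree_Gm_lt (u v : ι → L) : (Gm u v).degree < Fintype.card ι :=
  degree_sum_nodE_lt u fun i => v i ^ 2

lemma eval_derivative_sum_nodE [CharZero L] {u : ι → L} (hu : Function.Injective u) (w : ι → L)
    (j : ι) : (derivative (∑ l, C (w l) * nodE u l)).eval (u j) =
      (derivative (nod u)).eval (u j) * cauchySum u w (u j) +
      w j * ((derivative (derivative (nod u))).eval (u j) / 2) := by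
  rw [derivative_sum, eval_finsetSum, ← Finset.add_sum_erase univ _ (Finset.mem_univ j),
    cauchySum, ← Finset.add_sum_erase univ (fun l => w l / (u j - u l)) (Finset.mem_univ j)]
  simp only [derivative_mul, derivative_C, zero_mul, zero_add, eval_mul, eval_C,
    eval_derivative_nodE_self, sub_self, div_zero]
  rw [add_comm, Finset.mul_sum]
  congr 1
  refine Finset.sum_congr rfl fun l hl => ?_
  have hne : u j ≠ u l := fun h => (Finset.mem_erase.mp hl).1 (hu h.symm)
  rw [eval_derivative_nodE_of_ne u hne]
  ring

/-- Every polynomial of degree `< card ι` is a combination of the `nodE`. -/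
lemma eq_sum_nodE {u : ι → L} (hu : Function.Injective u) {P : L[X]}
    (hP : P.degree < Fintype.card ι) :
    P = ∑ l, C (P.eval (u l) / (derivative (nod u)).eval (u l)) * nodE u l := by
  refine eq_of_eval_nod hu hP (degree_sum_nodE_lt u _) fun j => ?_
  rw [eval_sum_nodE, div_mul_cancel₀ _ (eval_derivative_nod_ne_zero u hu j)]

/-- The kernel condition in terms of the polynomial. -/
lemma CKer_iff [CharZero L] {u : ι → L} (hu : Function.Injective u) {P : L[X]}
    (hP : P.degree < Fintype.card ι) :
    CKer u (fun l => P.eval (u l) / (derivative (nod u)).eval (u l)) ↔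
      ∀ i, 2 * (derivative P).eval (u i) * (derivative (nod u)).eval (u i) =
        P.eval (u i) * (derivative (derivative (nod u))).eval (u i) := by
  have key : ∀ i, (derivative P).eval (u i) = (derivative (nod u)).eval (u i) *
      cauchySum u (fun l => P.eval (u l) / (derivative (nod u)).eval (u l)) (u i) +
      (P.eval (u i) / (derivative (nod u)).eval (u i)) *
      ((derivative (derivative (nod u))).eval (u i) / 2) := by
    intro i
    conv_lhs => rw [eq_sum_nodE hu hP]
    exact eval_derivative_sum_nodE hu _ i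
  constructor
  · intro h i
    have h1 := key i
    rw [h i, mul_zero, zero_add] at h1
    rw [h1]
    have := eval_derivative_nod_ne_zero u hu i
    field_simp
  · intro h i
    have h1 := key i
    have h2 := h i
    have h3 := eval_derivative_nod_ne_zero u hu i
    rw [h1] at h2
    have h4 : 2 * (derivative (nod u)).eval (u i) ^ 2 * cauchySum u (fun l => P.eval (u l) /
      (derivative (nod u)).eval (u l)) (u i) = 0 := by
      field_simp at h2
      linear_combination h2
    have h5 : 2 * (derivative (nod u)).eval (u i) ^ 2 ≠ 0 :=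
      mul_ne_zero two_ne_zero (pow_ne_zero 2 h3)
    exact (mul_eq_zero.mp h4).resolve_left h5

end Kernel

end Pool.Agent.Lib.MP_12adaf_nt
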