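import Mathlib
import Pool.Agent.Lib.MP_12adaf_nt.Mestre

section

/-!
# Mestre pairs
-/

namespace Pool.Agent.Lib.MP_12adaf_nt

set_option linter.unusedSectionVars false
set_option linter.unusedVariables false

open Finset Polynomial

/-- A nondegenerate Mestre pair. -/
structure MP {L : Type*} [Field L] (f G H : L[X]) : Prop where
  fm : f.Monic
  Gm : G.Monic
  Hm : H.Monic
  fsep : f.Separable
  Gsep : G.Separable
  deg : f.natDegree = G.natDegree + 1
  degH : H.natDegree = G.natDegree
  wr : derivative f * G - f * derivative G = H ^ 2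
  cop : IsCoprime H f
  cork : ∀ P : L[X], P.degree < f.degree → f ∣ derivative P * H - P * derivative H →
    ∃ r : L, P = C r * H

namespace MP

variable {L : Type*} [Field L] {f G H : L[X]}

lemma wr' (h : MP f G H) :
    derivative (derivative f) * G - f * derivative (derivative G) = 2 * H * derivative H := by
  have := congrArg derivative h.wr
  simp only [derivative_sub, derivative_mul, derivative_pow, Nat.cast_ofNat,
    Nat.add_one_sub_one, pow_one] at this
  have e : (C (2:L) : L[X]) = 2 := rfl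
  rw [e] at this
  linear_combination this

lemma key_f (h : MP f G H) :
    f ∣ H * derivative (derivative f) - 2 * derivative f * derivative H := by
  have h1 : H * (H * derivative (derivative f) - 2 * derivative f * derivative H) =
      f * (derivative f * derivative (derivative G) - derivative (derivative f) * derivative G) := by
    linear_combination (-derivative (derivative f)) * h.wr + derivative f * h.wr'
  have h2 : f ∣ H * (H * derivative (derivative f) - 2 * derivative f * derivative H) :=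
    ⟨_, h1⟩
  exact h.cop.symm.dvd_of_dvd_mul_left h2

lemma unique [CharZero L] {G₂ H₂ : L[X]} (h : MP f G H) (h₂ : MP f G₂ H₂) : G₂ = G ∧ H₂ = H := by
  have hcop : IsCoprime f (derivative f) := h.fsep
  have h1 : f ∣ 2 * derivative f * (derivative H₂ * H - H₂ * derivative H) := by
    have e : 2 * derivative f * (derivative H₂ * H - H₂ * derivative H) =
        H₂ * (H * derivative (derivative f) - 2 * derivative f * derivative H) -
        H * (H₂ * derivative (derivative f) - 2 * derivative f * derivative H₂) := by ring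
    rw [e]
    exact dvd_sub (h.key_f.mul_left _) (h₂.key_f.mul_left _)
  have h2 : f ∣ derivative H₂ * H - H₂ * derivative H := by
    have h3 : IsCoprime f (2 * derivative f) := by
      have h4 : IsUnit (2 : L[X]) := by
        rw [show (2 : L[X]) = C 2 from rfl, isUnit_C]
        exact isUnit_iff_ne_zero.mpr two_ne_zero
      exact (isCoprime_mul_unit_left_right h4 f (derivative f)).mpr hcop
    exact h3.dvd_of_dvd_mul_left h1
  have hdeg : H₂.degree < f.degree := by
    rw [degree_eq_natDegree h₂.Hm.ne_zero, degree_eq_natDegree h.fm.ne_zero]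
    have a1 := h₂.deg
    have a2 := h₂.degH
    exact_mod_cast (by omega : H₂.natDegree < f.natDegree)
  obtain ⟨r, hr⟩ := h.cork H₂ hdeg h2
  have hr1 : r = 1 := by
    have h3 := congrArg leadingCoeff hr
    rw [h₂.Hm.leadingCoeff, leadingCoeff_mul, leadingCoeff_C, h.Hm.leadingCoeff, mul_one] at h3
    exact h3.symm
  have hH : H₂ = H := by rw [hr, hr1, C_1, one_mul]
  refine ⟨?_, hH⟩
  have h3 : derivative f * (G₂ - G) = f * (derivative G₂ - derivative G) := by
    have a1 := h.wr
    have a2 := h₂.wr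
    rw [hH] at a2
    linear_combination a2 - a1
  have h4 : f ∣ G₂ - G := hcop.dvd_of_dvd_mul_left ⟨_, h3⟩
  have h5 : (G₂ - G).degree < f.degree := by
    refine (degree_sub_le _ _).trans_lt (max_lt ?_ ?_)
    · rw [degree_eq_natDegree h₂.Gm.ne_zero, degree_eq_natDegree h.fm.ne_zero]
      have a1 := h₂.deg
      exact_mod_cast (by omega : G₂.natDegree < f.natDegree)
    · rw [degree_eq_natDegree h.Gm.ne_zero, degree_eq_natDegree h.fm.ne_zero]
      have a1 := h.deg
      exact_mod_cast (by omega : G.natDegree < f.natDegree)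
  exact sub_eq_zero.mp (eq_zero_of_dvd_of_degree_lt h4 h5)

lemma map (h : MP f G H) (σ : L ≃+* L) :
    MP (f.map (σ : L →+* L)) (G.map (σ : L →+* L)) (H.map (σ : L →+* L)) where
  fm := h.fm.map _
  Gm := h.Gm.map _
  Hm := h.Hm.map _
  fsep := h.fsep.map
  Gsep := h.Gsep.map
  deg := by rw [natDegree_map, natDegree_map, h.deg]
  degH := by rw [natDegree_map, natDegree_map, h.degH]
  wr := by
    have := congrArg (Polynomial.map (σ : L →+* L)) h.wr
    simpa only [Polynomial.map_sub, Polynomial.map_mul, Polynomial.map_pow, derivative_map]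
      using this
  cop := by
    have := h.cop.map (mapRingHom (σ : L →+* L))
    simpa using this
  cork := by
    intro P hP hdvd
    have hinv : ∀ Q : L[X], (Q.map (σ : L →+* L)).map (σ.symm : L →+* L) = Q := by
      intro Q
      rw [Polynomial.map_map]
      convert Polynomial.map_id
      ext a
      simp
    have hinv' : ∀ Q : L[X], (Q.map (σ.symm : L →+* L)).map (σ : L →+* L) = Q := by
      intro Q
      rw [Polynomial.map_map]
      convert Polynomial.map_id
      ext a
      simp
    obtain ⟨r, hr⟩ := h.cork (P.map (σ.symm : L →+* L)) (by rwa [degree_map, ← degree_map (f := (σ : L →+* L)) f]) (by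
      obtain ⟨Q, hQ⟩ := hdvd
      refine ⟨Q.map (σ.symm : L →+* L), ?_⟩
      have h1 := congrArg (Polynomial.map (σ.symm : L →+* L)) hQ
      simp only [Polynomial.map_sub, Polynomial.map_mul, ← derivative_map, hinv] at h1
      rw [← h1])
    refine ⟨σ r, ?_⟩
    have h1 := congrArg (Polynomial.map (σ : L →+* L)) hr
    rw [hinv', Polynomial.map_mul, map_C] at h1
    exact h1

end MP

section Roots

variable {L : Type*} [Field L] [CharZero L] {β : Type*} [Fintype β] [DecidableEq β]
  {f H : L[X]} {b : β → L}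

namespace MP

lemma b_inj (h : MP f (nod b) H) : Function.Injective b := by
  have := h.Gsep
  rw [nod] at this
  exact separable_prod_X_sub_C_iff.mp this

lemma eval_f_ne (h : MP f (nod b) H) (j : β) : f.eval (b j) ≠ 0 := by
  intro h0
  have h1 := congrArg (eval (b j)) h.wr
  simp only [eval_sub, eval_mul, eval_pow, eval_nod_self, h0, zero_mul, mul_zero,
    sub_self] at h1
  have h2 : H.eval (b j) = 0 := by
    by_contra h3
    exact pow_ne_zero 2 h3 h1.symm
  obtain ⟨p, q, hpq⟩ := h.cop
  have := congrArg (eval (b j)) hpq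
  simp [h0, h2] at this

lemma eval_sq (h : MP f (nod b) H) (j : β) :
    H.eval (b j) ^ 2 = - (f.eval (b j) * (derivative (nod b)).eval (b j)) := by
  have h1 := congrArg (eval (b j)) h.wr
  simp only [eval_sub, eval_mul, eval_pow, eval_nod_self, mul_zero, zero_sub] at h1
  exact h1.symm

lemma eval_H_ne (h : MP f (nod b) H) (j : β) : H.eval (b j) ≠ 0 := by
  intro h0
  have h1 := h.eval_sq j
  rw [h0] at h1
  have h2 : f.eval (b j) * (derivative (nod b)).eval (b j) = 0 := by linear_combination h1
  exact (mul_ne_zero (h.eval_f_ne j) (eval_derivative_nod_ne_zero b h.b_inj j)) h2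

/-- The residues. -/
noncomputable def res (H : L[X]) (b : β → L) : β → L :=
  fun j => H.eval (b j) / (derivative (nod b)).eval (b j)

lemma res_ne (h : MP f (nod b) H) (j : β) : res H b j ≠ 0 :=
  div_ne_zero (h.eval_H_ne j) (eval_derivative_nod_ne_zero b h.b_inj j)

lemma res_mul (h : MP f (nod b) H) (j : β) :
    res H b j * (derivative (nod b)).eval (b j) = H.eval (b j) :=
  div_mul_cancel₀ _ (eval_derivative_nod_ne_zero b h.b_inj j)

lemma key_b (h : MP f (nod b) H) (j : β) :
    H.eval (b j) * (derivative (derivative (nod b))).eval (b j) =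
      2 * (derivative H).eval (b j) * (derivative (nod b)).eval (b j) := by
  have h1 := congrArg (eval (b j)) h.wr'
  simp only [eval_sub, eval_mul, eval_nod_self, mul_zero, zero_sub, eval_ofNat] at h1
  have h2 := h.eval_sq j
  apply mul_left_cancel₀ (h.eval_H_ne j)
  linear_combination (derivative (derivative (nod b))).eval (b j) * h2 +
    (derivative (nod b)).eval (b j) * h1

lemma card_eq (h : MP f (nod b) H) : H.natDegree = Fintype.card β := by
  rw [h.degH, natDegree_nod]

/-- `H = Γ + ∑ c_j G_j`. -/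
lemma H_eq (h : MP f (nod b) H) : H = nod b + ∑ j, C (res H b j) * nodE b j := by
  have hdeg : (H - nod b).degree < Fintype.card β := by
    have h1 : H.degree = Fintype.card β := by
      rw [degree_eq_natDegree h.Hm.ne_zero, h.card_eq]
    have h2 : (nod b).degree = Fintype.card β := by
      rw [degree_eq_natDegree (nod_monic b).ne_zero, natDegree_nod]
    have := degree_sub_lt_left (p := H) (q := nod b) (by rw [h1, h2]) h.Hm.ne_zero
      (by rw [h.Hm.leadingCoeff, (nod_monic b).leadingCoeff])
    rwa [h1] at this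
  have h3 := eq_sum_nodE h.b_inj hdeg
  have h4 : ∀ l, (H - nod b).eval (b l) / (derivative (nod b)).eval (b l) = res H b l := by
    intro l
    rw [eval_sub, eval_nod_self, sub_zero, res]
  simp only [h4] at h3
  rw [← h3]; ring

lemma cauchy_res (h : MP f (nod b) H) (j : β) : cauchySum b (res H b) (b j) = -1 := by
  have h1 : (derivative H).eval (b j) = (derivative (nod b)).eval (b j) +
      ((derivative (nod b)).eval (b j) * cauchySum b (res H b) (b j) +
      res H b j * ((derivative (derivative (nod b))).eval (b j) / 2)) := by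
    conv_lhs => rw [h.H_eq]
    rw [derivative_add, eval_add, eval_derivative_sum_nodE h.b_inj]
  have h2 := h.key_b j
  have h3 := h.res_mul j
  have h4 := eval_derivative_nod_ne_zero b h.b_inj j
  have h5 : 2 * (derivative (nod b)).eval (b j) ^ 2 * (cauchySum b (res H b) (b j) + 1) = 0 := by
    rw [h1, ← h3] at h2
    linear_combination -h2
  have h6 := (mul_eq_zero.mp h5).resolve_left (mul_ne_zero two_ne_zero (pow_ne_zero 2 h4))
  linear_combination h6

/-- The translation parameter. -/
noncomputable def shift (f G : L[X]) : L := - (f /ₘ G).coeff 0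

lemma div_eq (h : MP f (nod b) H) : f /ₘ nod b = X - C (shift f (nod b)) := by
  have h1 : (f /ₘ nod b).natDegree = 1 := by
    rw [natDegree_divByMonic _ (nod_monic b), h.deg]
    omega
  have h2 : (f /ₘ nod b).Monic := by
    rw [Monic, leadingCoeff_divByMonic_of_monic (nod_monic b)]
    · exact h.fm.leadingCoeff
    · rw [degree_eq_natDegree (nod_monic b).ne_zero, degree_eq_natDegree h.fm.ne_zero, h.deg]
      exact_mod_cast Nat.le_succ _
  have h3 := h2.eq_X_add_C h1
  rw [h3, shift]
  simp [sub_eq_add_neg]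

/-- `f = Γ (X - e) - ∑ c_j^2 G_j`. -/
lemma f_eq (h : MP f (nod b) H) :
    f = nod b * (X - C (shift f (nod b))) - ∑ j, C (res H b j ^ 2) * nodE b j := by
  have h1 := modByMonic_add_div f (nod b)
  rw [h.div_eq] at h1
  have h2 : f %ₘ nod b = - ∑ j, C (res H b j ^ 2) * nodE b j := by
    have hlt : (f %ₘ nod b).degree < Fintype.card β := by
      have := degree_modByMonic_lt f (nod_monic b)
      rwa [degree_eq_natDegree (nod_monic b).ne_zero, natDegree_nod] at this
    rw [eq_sum_nodE h.b_inj hlt, ← Finset.sum_neg_distrib]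
    refine Finset.sum_congr rfl fun j _ => ?_
    rw [eval_modByMonic_root _ (eval_nod_self b j), ← neg_mul, ← C_neg]
    congr 2
    have h3 := eval_derivative_nod_ne_zero b h.b_inj j
    rw [res, div_pow, h.eval_sq j]
    field_simp
  rw [h2] at h1
  linear_combination -h1

/-- The equation satisfied by the roots of `f`. -/
lemma root_eq (h : MP f (nod b) H) {x : L} (hx : f.eval x = 0) :
    (∀ j, x ≠ b j) ∧ x - shift f (nod b) - ∑ j, res H b j ^ 2 / (x - b j) = 0 ∧
      1 + ∑ j, res H b j / (x - b j) ≠ 0 := by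
  have hne : ∀ j, x ≠ b j := fun j hj => h.eval_f_ne j (hj ▸ hx)
  have hG : (nod b).eval x ≠ 0 := fun h0 => by
    obtain ⟨j, hj⟩ := (eval_nod_eq_zero_iff b x).mp h0
    exact hne j hj
  refine ⟨hne, ?_, ?_⟩
  · have h1 := congrArg (eval x) h.f_eq
    rw [hx, eval_sub, eval_mul, eval_finsetSum] at h1
    have h2 : ∑ j, (C (res H b j ^ 2) * nodE b j).eval x =
        (nod b).eval x * ∑ j, res H b j ^ 2 / (x - b j) := by
      rw [Finset.mul_sum]
      refine Finset.sum_congr rfl fun j _ => ?_
      rw [eval_mul, eval_C, eval_nodE_eq_div b j x (hne j)]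
      ring
    rw [h2, eval_sub, eval_X, eval_C] at h1
    apply mul_left_cancel₀ hG
    rw [mul_zero]
    linear_combination -h1
  · intro h0
    have h1 : H.eval x = 0 := by
      rw [h.H_eq, eval_add, eval_finsetSum]
      have h2 : ∑ j, (C (res H b j) * nodE b j).eval x =
          (nod b).eval x * ∑ j, res H b j / (x - b j) := by
        rw [Finset.mul_sum]
        refine Finset.sum_congr rfl fun j _ => ?_
        rw [eval_mul, eval_C, eval_nodE_eq_div b j x (hne j)]
        ring
      rw [h2]
      linear_combination (nod b).eval x * h0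
    obtain ⟨p, q, hpq⟩ := h.cop
    have := congrArg (eval x) hpq
    simp [hx, h1] at this

end MP

end Roots

end Pool.Agent.Lib.MP_12adaf_nt
end

section

/-!
# Nondegeneracy of the poles of a Mestre pair
-/

namespace Pool.Agent.Lib.MP_12adaf_nt

set_option linter.unusedSectionVars false
set_option linter.unusedVariables false

open Finset Polynomial

variable {L : Type*} [Field L] [CharZero L] {β : Type*} [Fintype β] [DecidableEq β]

lemma nod_dvd_of_eval {b : β → L} (hb : Function.Injective b) {P : L[X]}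
    (h : ∀ j, P.eval (b j) = 0) : nod b ∣ P := by
  rw [← modByMonic_eq_zero_iff_dvd (nod_monic b)]
  refine eq_of_eval_nod hb ?_ (by simp) fun j => ?_
  · have := degree_modByMonic_lt P (nod_monic b)
    rwa [degree_eq_natDegree (nod_monic b).ne_zero, natDegree_nod] at this
  · rw [eval_modByMonic_root _ (eval_nod_self b j), h j, eval_zero]

/-- Polarised partial fraction identity. -/
lemma polar_cauchySum {b c w : β → L} (hb : Function.Injective b)
    (hc : ∀ j, cauchySum b c (b j) = -1) (hw : CKer b w) {z : L} (hz : ∀ j, z ≠ b j) :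
    (1 + cauchySum b c z) * cauchySum b w z = ∑ j, w j * c j / (z - b j) ^ 2 := by
  have h1 := sq_cauchySum b c hb 1 z (fun j _ => hz j)
  have h2 := sq_cauchySum b w hb 0 z (fun j _ => hz j)
  have h3 := sq_cauchySum b (fun j => c j + w j) hb 1 z (fun j _ => hz j)
  have hadd : ∀ y, cauchySum b (fun j => c j + w j) y = cauchySum b c y + cauchySum b w y := by
    intro y; simp [cauchySum, add_div, Finset.sum_add_distrib]
  simp only [hadd, hc, hw _] at h1 h2 h3
  simp only [add_neg_cancel, mul_zero, zero_div, add_zero, zero_add, ne_eq,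
    OfNat.ofNat_ne_zero, not_false_eq_true, zero_pow, one_pow] at h1 h2 h3
  have h4 : ∑ j, (c j + w j) ^ 2 / (z - b j) ^ 2 = ∑ j, c j ^ 2 / (z - b j) ^ 2 +
      ∑ j, w j ^ 2 / (z - b j) ^ 2 + 2 * ∑ j, w j * c j / (z - b j) ^ 2 := by
    rw [Finset.mul_sum, ← Finset.sum_add_distrib, ← Finset.sum_add_distrib]
    refine Finset.sum_congr rfl fun j _ => ?_
    ring
  rw [h4] at h3
  have h5 : 2 * ((1 + cauchySum b c z) * cauchySum b w z) =
      2 * ∑ j, w j * c j / (z - b j) ^ 2 := by
    linear_combination h3 - h1 - h2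
  exact mul_left_cancel₀ two_ne_zero h5

lemma H_mul_W {f H : L[X]} {b w : β → L} (h : MP f (nod b) H) (hw : CKer b w) :
    H * (∑ j, C (w j) * nodE b j) = ∑ j, C (w j * MP.res H b j) * nodE b j ^ 2 := by
  have hne : nod b ≠ 0 := (nod_monic b).ne_zero
  apply mul_left_cancel₀ hne
  apply Polynomial.funext
  intro z
  rw [eval_mul, eval_mul (p := nod b) (q := ∑ j, C (w j * MP.res H b j) * nodE b j ^ 2)]
  by_cases hz : (nod b).eval z = 0
  · rw [hz, zero_mul, zero_mul]
  congr 1
  have hz' : ∀ j, z ≠ b j := fun j h' => hz ((eval_nod_eq_zero_iff b z).mpr ⟨j, h'⟩)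
  have h1 := polar_cauchySum h.b_inj h.cauchy_res hw hz'
  have hH : H.eval z = (nod b).eval z * (1 + cauchySum b (MP.res H b) z) := by
    conv_lhs => rw [h.H_eq]
    rw [eval_add, eval_finsetSum, cauchySum, mul_add, mul_one, Finset.mul_sum]
    congr 1
    refine Finset.sum_congr rfl fun j _ => ?_
    rw [eval_mul, eval_C, eval_nodE_eq_div b j z (hz' j)]
    ring
  have hW : (∑ j, C (w j) * nodE b j).eval z = (nod b).eval z * cauchySum b w z := by
    rw [eval_finsetSum, cauchySum, Finset.mul_sum]
    refine Finset.sum_congr rfl fun j _ => ?_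
    rw [eval_mul, eval_C, eval_nodE_eq_div b j z (hz' j)]
    ring
  rw [eval_mul, hH, hW, eval_finsetSum]
  have h2 : ∑ j, (C (w j * MP.res H b j) * nodE b j ^ 2).eval z =
      (nod b).eval z ^ 2 * ∑ j, w j * MP.res H b j / (z - b j) ^ 2 := by
    rw [Finset.mul_sum]
    refine Finset.sum_congr rfl fun j _ => ?_
    rw [eval_mul, eval_pow, eval_C, eval_nodE_eq_div b j z (hz' j), div_pow]
    ring
  rw [h2, ← h1]
  ring

theorem MP.nondeg {f H : L[X]} {b : β → L} (h : MP f (nod b) H) {w : β → L}
    (hw : CKer b w) : w = 0 := by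
  set W : L[X] := ∑ j, C (w j) * nodE b j with hW
  set Psi : L[X] := ∑ j, C (w j * MP.res H b j) * nodE b j with hPsi
  have hWb : ∀ j, W.eval (b j) = w j * (derivative (nod b)).eval (b j) := eval_sum_nodE b w
  have hPb : ∀ j, Psi.eval (b j) = w j * MP.res H b j * (derivative (nod b)).eval (b j) :=
    eval_sum_nodE b fun j => w j * MP.res H b j
  have hI1 : derivative Psi * nod b - Psi * derivative (nod b) = - (H * W) := by
    rw [hW, H_mul_W h hw, hPsi, derivative_sum, Finset.sum_mul, Finset.sum_mul,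
      ← Finset.sum_sub_distrib, ← Finset.sum_neg_distrib]
    refine Finset.sum_congr rfl fun j _ => ?_
    rw [derivative_mul, derivative_C, ← derivative_nodE_mul b j]
    ring
  -- the quotient `Q`
  obtain ⟨Q, hQ⟩ : nod b ∣ derivative W * H - W * derivative H := by
    apply nod_dvd_of_eval h.b_inj
    intro j
    have h1 : (derivative W).eval (b j) =
        w j * ((derivative (derivative (nod b))).eval (b j) / 2) := by
      rw [hW, eval_derivative_sum_nodE h.b_inj, hw j, mul_zero, zero_add]
    rw [eval_sub, eval_mul, eval_mul, h1, hWb]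
    have h2 := h.key_b j
    linear_combination (w j / 2) * h2
  obtain ⟨V, hV⟩ : nod b ∣ f * W + H * Psi := by
    apply nod_dvd_of_eval h.b_inj
    intro j
    rw [eval_add, eval_mul, eval_mul, hWb, hPb]
    have h1 := h.eval_sq j
    have h2 := h.res_mul j
    linear_combination (w j) * h1 + H.eval (b j) * w j * h2
  have hbne : nod b ≠ 0 := (nod_monic b).ne_zero
  have hVeq : derivative V * H - V * derivative H = f * Q := by
    apply mul_left_cancel₀ (pow_ne_zero 2 hbne)
    have hV' := congrArg derivative hV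
    simp only [derivative_add, derivative_mul] at hV'
    linear_combination (-(nod b) * H) * hV' + (derivative (nod b) * H + nod b * derivative H) * hV
      + (H * W) * h.wr + (nod b * f) * hQ + H ^ 2 * hI1
  have hWdeg : W.degree < (nod b).degree := by
    rw [degree_eq_natDegree hbne, natDegree_nod]
    exact degree_sum_nodE_lt b w
  have hPdeg : Psi.degree < (nod b).degree := by
    rw [degree_eq_natDegree hbne, natDegree_nod]
    exact degree_sum_nodE_lt b _
  have hfdeg : f.degree = ((Fintype.card β + 1 : ℕ) : WithBot ℕ) := by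
    rw [degree_eq_natDegree h.fm.ne_zero, h.deg, natDegree_nod]
  have hbdeg : (nod b).degree = ((Fintype.card β : ℕ) : WithBot ℕ) := by
    rw [degree_eq_natDegree hbne, natDegree_nod]
  have hHdeg : H.degree = ((Fintype.card β : ℕ) : WithBot ℕ) := by
    rw [degree_eq_natDegree h.Hm.ne_zero, h.card_eq]
  have hVdeg : V.degree < f.degree := by
    by_cases hV0 : V = 0
    · rw [hV0, degree_zero, hfdeg]; exact WithBot.bot_lt_coe _
    have h1 : (nod b * V).natDegree = Fintype.card β + V.natDegree := by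
      rw [natDegree_mul hbne hV0, natDegree_nod]
    have hW1 : W.natDegree < Fintype.card β ∨ W = 0 := by
      by_cases hW0 : W = 0
      · exact Or.inr hW0
      · left
        rw [hbdeg, degree_eq_natDegree hW0] at hWdeg
        exact_mod_cast hWdeg
    have hP1 : Psi.natDegree < Fintype.card β ∨ Psi = 0 := by
      by_cases hP0 : Psi = 0
      · exact Or.inr hP0
      · left
        rw [hbdeg, degree_eq_natDegree hP0] at hPdeg
        exact_mod_cast hPdeg
    have h2 : (f * W + H * Psi).natDegree < 2 * Fintype.card β + 1 := by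
      refine lt_of_le_of_lt (natDegree_add_le _ _) (max_lt ?_ ?_)
      · rcases hW1 with hW1 | hW1
        · refine lt_of_le_of_lt natDegree_mul_le ?_
          rw [h.deg, natDegree_nod]; omega
        · rw [hW1]; simp
      · rcases hP1 with hP1 | hP1
        · refine lt_of_le_of_lt natDegree_mul_le ?_
          rw [h.card_eq]; omega
        · rw [hP1]; simp
    rw [hV, h1] at h2
    rw [hfdeg, degree_eq_natDegree hV0]
    exact_mod_cast (by omega : V.natDegree < Fintype.card β + 1)
  obtain ⟨r, hr⟩ := h.cork V hVdeg ⟨Q, hVeq⟩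
  have hdvd : H ∣ f * W := by
    refine ⟨nod b * C r - Psi, ?_⟩
    rw [hr] at hV
    linear_combination hV
  have hdvd2 : H ∣ W := h.cop.dvd_of_dvd_mul_left hdvd
  have hW0 : W = 0 := by
    apply eq_zero_of_dvd_of_degree_lt hdvd2
    rw [hHdeg, ← hbdeg]; exact hWdeg
  ext j
  have h1 := hWb j
  rw [hW0, eval_zero] at h1
  exact (mul_eq_zero.mp h1.symm).resolve_right (eval_derivative_nod_ne_zero b h.b_inj j)

end Pool.Agent.Lib.MP_12adaf_nt
end

section

/-!
# Positivity facts over the real numbers
-/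

namespace Pool.Agent.Lib.MP_12adaf_nt

set_option linter.unusedSectionVars false
set_option linter.unusedVariables false

open Finset Polynomial Filter

variable {ι : Type*} [Fintype ι] [DecidableEq ι]

/-- A kernel vector with a zero coordinate vanishes. -/
lemma real_kernel {u v : ι → ℝ} (hu : Function.Injective u) {k : ι}
    (hk : cauchySum u v (u k) = 0) (hv : ∀ i, i ≠ k → cauchySum u v (u i) = 0)
    (h0 : v k = 0) : v = 0 := by
  have h1 := sq_cauchySum u v hu 0 (u k) (fun j hj h => hj (by rw [← hu h]; exact h0))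
  rw [hk] at h1
  simp only [zero_add] at h1
  have h2 : ∀ j, 2 * v j * cauchySum u v (u j) / (u k - u j) = 0 := by
    intro j
    by_cases hj : j = k
    · subst hj; rw [h0]; simp
    · rw [hv j hj]; simp
  simp only [h2, add_zero, ne_eq, OfNat.ofNat_ne_zero, not_false_eq_true, zero_pow, zero_add] at h1
  have h3 : ∀ j ∈ (univ : Finset ι), 0 ≤ v j ^ 2 / (u k - u j) ^ 2 := fun j _ => by positivity
  have h4 := (Finset.sum_eq_zero_iff_of_nonneg h3).mp h1.symm
  ext j
  by_cases hj : j = k
  · rw [hj, h0]; rfl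
  · have h5 := h4 j (Finset.mem_univ j)
    have h6 : (u k - u j) ^ 2 ≠ 0 := pow_ne_zero 2 (sub_ne_zero.mpr fun h => hj (hu h.symm))
    have h7 := (div_eq_zero_iff.mp h5).resolve_right h6
    simpa using h7

lemma real_kernel' {u v : ι → ℝ} (hu : Function.Injective u) (hv : CKer u v) {k : ι}
    (h0 : v k = 0) : v = 0 := real_kernel hu (hv k) (fun i _ => hv i) h0

/-- A real polynomial of odd degree has a root. -/
lemma exists_real_root {P : ℝ[X]} (hP : Odd P.natDegree) : ∃ x, P.eval x = 0 := by
  have hpos : 0 < P.natDegree := hP.pos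
  have hdeg : 0 < P.degree := natDegree_pos_iff_degree_pos.mp hpos
  wlog hlc : 0 ≤ P.leadingCoeff generalizing P with H
  · have h1 : Odd (-P).natDegree := by rwa [natDegree_neg]
    obtain ⟨x, hx⟩ := H h1 (by rwa [natDegree_neg]) (by rwa [degree_neg])
      (by rw [leadingCoeff_neg]; linarith)
    exact ⟨x, by simpa using hx⟩
  have t1 := tendsto_atTop_of_leadingCoeff_nonneg P hdeg hlc
  have hQd : (P.comp (-X)).natDegree = P.natDegree := by
    rw [natDegree_comp]; simp
  have hQdeg : 0 < (P.comp (-X)).degree := natDegree_pos_iff_degree_pos.mp (by rw [hQd]; exact hpos)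
  have hQlc : (P.comp (-X)).leadingCoeff ≤ 0 := by
    rw [leadingCoeff_comp (by simp)]
    simp only [leadingCoeff_neg, leadingCoeff_X]
    rw [hP.neg_one_pow]
    linarith
  have t2 := tendsto_atBot_of_leadingCoeff_nonpos (P.comp (-X)) hQdeg hQlc
  obtain ⟨a, ha⟩ := (t1.eventually_ge_atTop 0).exists
  obtain ⟨b, hb⟩ := (t2.eventually_le_atBot 0).exists
  have hb' : P.eval (-b) ≤ 0 := by simpa [eval_comp] using hb
  obtain ⟨x, hx⟩ := mem_range_of_exists_le_of_exists_ge (P.continuous) ⟨-b, hb'⟩ ⟨a, ha⟩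
  exact ⟨x, hx⟩

lemma real_sum_sq_pos {v : ι → ℝ} (hv : v ≠ 0) : 0 < ∑ i, v i ^ 2 := by
  obtain ⟨i, hi⟩ := Function.ne_iff.mp hv
  exact Finset.sum_pos' (fun j _ => sq_nonneg _) ⟨i, Finset.mem_univ i, by
    have : v i ≠ 0 := hi
    positivity⟩

/-- `V` has no real zero. -/
lemma real_V_ne_zero {u v : ι → ℝ} (hu : Function.Injective u) (hv : CKer u v) (hv0 : v ≠ 0)
    {z : ℝ} (hz : ∀ j, z ≠ u j) : cauchySum u v z ≠ 0 := by
  intro h
  have h1 := sq_cauchySum u v hu 0 z (fun j _ => hz j)
  rw [h] at h1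
  simp only [hv _, add_zero, mul_zero, zero_div, ne_eq, OfNat.ofNat_ne_zero, not_false_eq_true,
    zero_pow, zero_add] at h1
  obtain ⟨i, hi⟩ := Function.ne_iff.mp hv0
  have h2 : 0 < ∑ j, v j ^ 2 / (z - u j) ^ 2 := by
    refine Finset.sum_pos' (fun j _ => by positivity) ⟨i, Finset.mem_univ i, ?_⟩
    have h3 : v i ≠ 0 := hi
    have h4 : z - u i ≠ 0 := sub_ne_zero.mpr (hz i)
    positivity
  rw [← h1] at h2
  exact lt_irrefl _ h2

lemma coeff_nodE_top {L : Type*} [Field L] (x : ι → L) (j : ι) :
    (nodE x j).coeff (Fintype.card ι - 1) = 1 := by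
  have h1 := (nodE_monic x j).coeff_natDegree
  rwa [natDegree_nodE] at h1

lemma coeff_sum_nodE_top {L : Type*} [Field L] (x w : ι → L) :
    (∑ l, C (w l) * nodE x l).coeff (Fintype.card ι - 1) = ∑ l, w l := by
  rw [finsetSum_coeff]
  refine Finset.sum_congr rfl fun j _ => ?_
  rw [coeff_C_mul, coeff_nodE_top, mul_one]

lemma natDegree_sum_nodE {L : Type*} [Field L] (x w : ι → L) (hw : ∑ l, w l ≠ 0) :
    (∑ l, C (w l) * nodE x l).natDegree = Fintype.card ι - 1 := by
  have hne : Nonempty ι := by
    by_contra h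
    rw [not_nonempty_iff] at h
    exact hw (by simp)
  have hpos : 0 < Fintype.card ι := Fintype.card_pos
  apply natDegree_eq_of_le_of_coeff_ne_zero
  · rw [natDegree_le_iff_coeff_eq_zero]
    intro N hN
    exact coeff_eq_zero_of_degree_lt ((degree_sum_nodE_lt x w).trans_le
      (by exact_mod_cast (by omega : Fintype.card ι ≤ N)))
  · rwa [coeff_sum_nodE_top]

/-- For an even number of real points the Cauchy matrix is nonsingular. -/
lemma real_even {u v : ι → ℝ} (hu : Function.Injective u) (he : Even (Fintype.card ι))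
    (hv : CKer u v) : v = 0 := by
  by_contra hv0
  have hκ : (∑ i, v i) ^ 2 = ∑ i, v i ^ 2 := hv.sum_sq hu
  have hκ0 : ∑ i, v i ≠ 0 := by
    intro h
    rw [h] at hκ
    have := real_sum_sq_pos hv0
    rw [← hκ] at this
    simp at this
  have hvi : ∀ i, v i ≠ 0 := fun i h => hv0 (real_kernel' hu hv h)
  have hpos : 0 < Fintype.card ι := by
    obtain ⟨i, _⟩ := Function.ne_iff.mp hv0
    exact Fintype.card_pos_iff.mpr ⟨i⟩
  have hodd : Odd (Hm u v).natDegree := by
    rw [Hm, natDegree_sum_nodE u v hκ0]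
    obtain ⟨k, hk⟩ := he
    exact ⟨k - 1, by omega⟩
  obtain ⟨x, hx⟩ := exists_real_root hodd
  have hxu : ∀ j, x ≠ u j := by
    intro j hj
    rw [hj, eval_Hm] at hx
    exact (mul_ne_zero (hvi j) (eval_derivative_nod_ne_zero u hu j)) hx
  apply real_V_ne_zero hu hv hv0 hxu
  have h1 : (Hm u v).eval x = (nod u).eval x * cauchySum u v x := by
    rw [Hm, eval_finsetSum, cauchySum, Finset.mul_sum]
    refine Finset.sum_congr rfl fun j _ => ?_
    rw [eval_mul, eval_C, eval_nodE_eq_div u j x (hxu j)]
    ring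
  rw [h1] at hx
  refine (mul_eq_zero.mp hx).resolve_left fun h0 => ?_
  obtain ⟨j, hj⟩ := (eval_nod_eq_zero_iff u x).mp h0
  exact hxu j hj

/-- The solution of `A c = -1` at real points has no zero coordinate. -/
lemma real_sol_ne_zero {u c : ι → ℝ} (hu : Function.Injective u)
    (hc : ∀ j, cauchySum u c (u j) = -1) (k : ι) : c k ≠ 0 := by
  intro h0
  have h1 := sq_cauchySum u c hu 1 (u k) (fun j hj h => hj (by rw [← hu h]; exact h0))
  rw [hc k] at h1
  simp only [hc _, add_neg_cancel, mul_zero, zero_div, add_zero, ne_eq, OfNat.ofNat_ne_zero,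
    not_false_eq_true, zero_pow, one_pow] at h1
  have h2 : 0 ≤ ∑ j, c j ^ 2 / (u k - u j) ^ 2 := Finset.sum_nonneg fun j _ => by positivity
  linarith

/-- The matrix `𝐀` at positive points is nonsingular. -/
lemma real_pos_nondeg {u w : ι → ℝ} (hu : Function.Injective u) (hpos : ∀ j, 0 < u j)
    (hw : ∀ j, w j / (2 * u j) + cauchySum u w (u j) = 0) : w = 0 := by
  have h1 := mul_sq_cauchySum u w hu 0 (-1) (fun j _ h => by have := hpos j; linarith)
  simp only [zero_add] at h1
  have h2 : ∀ j, (w j ^ 2 + 2 * w j * cauchySum u w (u j) * u j) = 0 := by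
    intro j
    have h3 := hw j
    have h4 := (hpos j).ne'
    have h5 : cauchySum u w (u j) = - (w j / (2 * u j)) := by linear_combination h3
    rw [h5]
    field_simp
    ring
  simp only [h2, zero_div, zero_add, mul_zero, zero_mul, ne_eq, OfNat.ofNat_ne_zero,
    not_false_eq_true, zero_pow] at h1
  have h3 : 0 ≤ ∑ j, w j ^ 2 * u j / (-1 - u j) ^ 2 := Finset.sum_nonneg fun j _ => by
    have := hpos j
    positivity
  have h4 : ∑ j, w j ^ 2 * u j / (-1 - u j) ^ 2 = 0 := by
    have h5 : (-1 : ℝ) * cauchySum u w (-1) ^ 2 ≤ 0 := by nlinarith [sq_nonneg (cauchySum u w (-1))]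
    linarith
  have h5 := (Finset.sum_eq_zero_iff_of_nonneg (fun j _ => by
    have := hpos j
    positivity)).mp h4
  ext j
  have h6 := h5 j (Finset.mem_univ j)
  have h7 : ((-1 : ℝ) - u j) ^ 2 ≠ 0 := pow_ne_zero 2 (by have := hpos j; linarith)
  have h8 := (div_eq_zero_iff.mp h6).resolve_right h7
  have h9 := (mul_eq_zero.mp h8).resolve_right (hpos j).ne'
  simpa using h9

/-- `Γ` is coprime to its derivative for real points. -/
lemma real_Gm_coprime {u v : ι → ℝ} (hu : Function.Injective u) (hv : CKer u v) (hv0 : v ≠ 0) :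
    IsCoprime (Gm u v) (derivative (Gm u v)) := by
  rw [isCoprime_iff_aeval_ne_zero_of_isAlgClosed ℝ ℂ]
  intro z
  by_contra hcon
  push Not at hcon
  obtain ⟨h1, h2⟩ := hcon
  have hvi : ∀ i, v i ≠ 0 := fun i h => hv0 (real_kernel' hu hv h)
  have hwr := wronskian_Gm hu hv
  have hwz := congrArg (aeval z) hwr
  rw [map_sub, map_mul, map_mul, h1, h2, mul_zero, mul_zero, sub_zero, map_pow] at hwz
  have hH : aeval z (Hm u v) = 0 := by
    by_contra h; exact pow_ne_zero 2 h hwz.symm
  -- `z` is not one of the points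
  have hzu : ∀ j, z ≠ (u j : ℂ) := by
    intro j hj
    have h3 : aeval (u j : ℂ) (Hm u v) = (((Hm u v).eval (u j) : ℝ) : ℂ) := by
      have := aeval_algebraMap_apply ℂ (u j) (Hm u v)
      simpa using this
    rw [hj, h3, eval_Hm] at hH
    have h4 : v j * (derivative (nod u)).eval (u j) = 0 := by exact_mod_cast hH
    exact (mul_ne_zero (hvi j) (eval_derivative_nod_ne_zero u hu j)) h4
  have hprod : (∏ i, (z - (u i : ℂ))) ≠ 0 := by
    rw [Finset.prod_ne_zero_iff]
    intro i _
    exact sub_ne_zero.mpr (hzu i)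
  have hnodE : ∀ j, aeval z (nodE u j) = (∏ i, (z - (u i : ℂ))) / (z - u j) := by
    intro j
    rw [nodE, map_prod, eq_div_iff (sub_ne_zero.mpr (hzu j)), mul_comm,
      ← Finset.mul_prod_erase univ _ (Finset.mem_univ j)]
    simp
  have hS : ∑ j, ((v j ^ 2 : ℝ) : ℂ) / (z - u j) = 0 := by
    rw [Gm, map_sum] at h1
    have h3 : ∀ j, aeval z (C (v j ^ 2) * nodE u j) =
        (∏ i, (z - (u i : ℂ))) * (((v j ^ 2 : ℝ) : ℂ) / (z - u j)) := by
      intro j
      rw [map_mul, hnodE, aeval_C]
      simp only [Complex.coe_algebraMap]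
      ring
    simp only [h3] at h1
    rw [← Finset.mul_sum] at h1
    exact (mul_eq_zero.mp h1).resolve_left hprod
  have him : z.im = 0 := by
    have h3 := congrArg Complex.im hS
    rw [Complex.im_sum] at h3
    have h4 : ∀ j, (((v j ^ 2 : ℝ) : ℂ) / (z - u j)).im =
        - z.im * (v j ^ 2 / Complex.normSq (z - u j)) := by
      intro j
      generalize v j ^ 2 = r
      rw [Complex.div_im]
      simp
      ring
    simp only [h4] at h3
    rw [← Finset.mul_sum] at h3
    have h5 : 0 < ∑ j, v j ^ 2 / Complex.normSq (z - u j) := by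
      obtain ⟨i, hi⟩ := Function.ne_iff.mp hv0
      refine Finset.sum_pos' (fun j _ => div_nonneg (sq_nonneg _) (Complex.normSq_nonneg _))
        ⟨i, Finset.mem_univ i, ?_⟩
      have h6 : 0 < Complex.normSq (z - u i) :=
        Complex.normSq_pos.mpr (sub_ne_zero.mpr (hzu i))
      have h7 : v i ≠ 0 := hi
      positivity
    have h8 : z.im = 0 ∨ (∑ j, v j ^ 2 / Complex.normSq (z - u j)) = 0 := by
      rcases mul_eq_zero.mp h3 with h | h
      · simp only [neg_eq_zero] at h
        exact Or.inl h
      · exact Or.inr h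
    exact h8.resolve_right h5.ne'
  obtain ⟨t, rfl⟩ : ∃ t : ℝ, z = t := ⟨z.re, by rw [← Complex.re_add_im z, him]; simp⟩
  have htu : ∀ j, t ≠ u j := fun j h => hzu j (by rw [h])
  have hHt : (Hm u v).eval t = 0 := by
    have h3 : aeval (t : ℂ) (Hm u v) = (((Hm u v).eval t : ℝ) : ℂ) := by
      have := aeval_algebraMap_apply ℂ t (Hm u v)
      simpa using this
    rw [h3] at hH
    exact_mod_cast hH
  apply real_V_ne_zero hu hv hv0 htu
  have h1 : (Hm u v).eval t = (nod u).eval t * cauchySum u v t := by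
    rw [Hm, eval_finsetSum, cauchySum, Finset.mul_sum]
    refine Finset.sum_congr rfl fun j _ => ?_
    rw [eval_mul, eval_C, eval_nodE_eq_div u j t (htu j)]
    ring
  rw [h1] at hHt
  refine (mul_eq_zero.mp hHt).resolve_left fun h0 => ?_
  obtain ⟨j, hj⟩ := (eval_nod_eq_zero_iff u t).mp h0
  exact htu j hj

end Pool.Agent.Lib.MP_12adaf_nt
end

section

/-!
# Polynomial certificates for genericity
-/

namespace Pool.Agent.Lib.MP_12adaf_nt

set_option linter.unusedSectionVars false
set_option linter.unusedVariables false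

open Finset Polynomial

section Defs

variable {A : Type*} [CommRing A] {ι : Type*} [Fintype ι] [DecidableEq ι]

/-- Product of all differences. -/
def Del (u : ι → A) : A := ∏ p ∈ (univ : Finset ι).offDiag, (u p.1 - u p.2)

/-- The matrix `Del * (1/(u i - u j))`, with polynomial entries. -/
def AT (u : ι → A) : Matrix ι ι A :=
  Matrix.of fun i j => if i = j then 0 else
    ∏ p ∈ (univ : Finset ι).offDiag.erase (i, j), (u p.1 - u p.2)

/-- The polynomial kernel vector. -/
def vT (i0 : ι) (u : ι → A) : ι → A := fun i => (AT u).adjugate i i0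

/-- `Γ` over a commutative ring. -/
noncomputable def GR (u v : ι → A) : A[X] :=
  ∑ i, C (v i ^ 2) * ∏ j ∈ univ.erase i, (X - C (u j))

/-- The certificate for the odd construction. -/
noncomputable def cert1 (i0 : ι) (u : ι → A) : A :=
  Del u * (∏ i, vT i0 u i) * (∑ i, vT i0 u i) *
    resultant (GR u (vT i0 u)) (derivative (GR u (vT i0 u))) (Fintype.card ι - 1)
      (Fintype.card ι - 2)

/-- The certificate for an even cluster. -/
def cert2 (u : ι → A) : A :=
  Del u * (AT u).det * ∏ i, (AT u).adjugate.mulVec 1 i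

/-- The certificate for `Γ(0) ≠ 0`. -/
noncomputable def cert4 (i0 : ι) (u : ι → A) : A := (GR u (vT i0 u)).eval 0

/-- The matrix `Del * ∏ (2 u) * 𝐀`. -/
def WT (u : ι → A) : Matrix ι ι A :=
  Matrix.of fun i j => if i = j then Del u * ∏ k ∈ univ.erase i, (2 * u k) else
    (∏ p ∈ (univ : Finset ι).offDiag.erase (i, j), (u p.1 - u p.2)) * ∏ k, (2 * u k)

/-- The certificate for nondegeneracy of `𝐀`. -/
def cert3 (u : ι → A) : A := Del u * (∏ i, u i) * (WT u).det

variable {B : Type*} [CommRing B] (φ : A →+* B)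

lemma map_Del (u : ι → A) : φ (Del u) = Del (φ ∘ u) := by
  simp [Del, map_prod]

lemma map_AT (u : ι → A) : (AT u).map φ = AT (φ ∘ u) := by
  ext i j
  simp only [AT, Matrix.map_apply, Matrix.of_apply]
  split_ifs
  · simp
  · simp [map_prod]

lemma map_WT (u : ι → A) : (WT u).map φ = WT (φ ∘ u) := by
  ext i j
  simp only [WT, Matrix.map_apply, Matrix.of_apply]
  split_ifs
  · simp [map_prod, map_Del, map_ofNat]
  · simp [map_prod, map_ofNat]

lemma map_adj (M : Matrix ι ι A) : (M.map φ).adjugate = M.adjugate.map φ := by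
  have := RingHom.map_adjugate φ M
  simpa [RingHom.mapMatrix_apply] using this.symm

lemma map_vT (i0 : ι) (u : ι → A) : (fun i => φ (vT i0 u i)) = vT i0 (φ ∘ u) := by
  ext i
  rw [vT, vT, ← map_AT, map_adj, Matrix.map_apply]

lemma map_GR (u v : ι → A) : (GR u v).map φ = GR (φ ∘ u) (fun i => φ (v i)) := by
  simp [GR, Polynomial.map_sum, Polynomial.map_prod]

lemma map_cert1 (i0 : ι) (u : ι → A) : φ (cert1 i0 u) = cert1 i0 (φ ∘ u) := by
  rw [cert1, cert1, map_mul, map_mul, map_mul, map_Del, map_prod, map_sum,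
    ← resultant_map_map, ← derivative_map, map_GR, map_vT]

lemma map_cert4 (i0 : ι) (u : ι → A) : φ (cert4 i0 u) = cert4 i0 (φ ∘ u) := by
  rw [cert4, cert4, ← map_vT, ← map_GR]
  rw [← coeff_zero_eq_eval_zero, ← coeff_zero_eq_eval_zero, coeff_map]

lemma map_cert2 (u : ι → A) : φ (cert2 u) = cert2 (φ ∘ u) := by
  rw [cert2, cert2, map_mul, map_mul, map_Del, map_prod, ← map_AT]
  congr 1
  · congr 1
    rw [RingHom.map_det]; rfl
  · refine Finset.prod_congr rfl fun i _ => ?_
    rw [map_adj]
    simp [Matrix.mulVec, dotProduct]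

lemma map_cert3 (u : ι → A) : φ (cert3 u) = cert3 (φ ∘ u) := by
  rw [cert3, cert3, map_mul, map_mul, map_Del, map_prod, ← map_WT]
  congr 1
  rw [RingHom.map_det]; rfl

end Defs

section FieldFacts

variable {L : Type*} [Field L] {ι : Type*} [Fintype ι] [DecidableEq ι]

lemma Del_ne_zero_iff {u : ι → L} : Del u ≠ 0 ↔ Function.Injective u := by
  rw [Del, Finset.prod_ne_zero_iff]
  constructor
  · intro h i j hij
    by_contra hne
    exact h (i, j) (by simp [hne]) (by simp [hij])
  · rintro h ⟨i, j⟩ hp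
    simp only [mem_offDiag, mem_univ, true_and] at hp
    exact sub_ne_zero.mpr fun h' => hp (h h')

lemma AT_eq {u : ι → L} (hu : Function.Injective u) : AT u = Del u • cauchyMat u := by
  ext i j
  simp only [AT, cauchyMat, Matrix.smul_apply, Matrix.of_apply, smul_eq_mul]
  by_cases hij : i = j
  · subst hij; simp
  · rw [if_neg hij, Del, ← Finset.mul_prod_erase _ _ (show (i, j) ∈ (univ : Finset ι).offDiag by
      simp [hij])]
    have : u i - u j ≠ 0 := sub_ne_zero.mpr fun h => hij (hu h)
    field_simp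

lemma WT_eq {u : ι → L} (hu : Function.Injective u) (h2 : ∀ k, 2 * u k ≠ 0) :
    WT u = (Del u * ∏ k, (2 * u k)) • WMat u := by
  ext i j
  simp only [WT, WMat, Matrix.smul_apply, Matrix.of_apply, smul_eq_mul]
  by_cases hij : i = j
  · subst hij
    have h3 := Finset.mul_prod_erase univ (fun k => 2 * u k) (Finset.mem_univ i)
    have h4 := h2 i
    simp only [if_true, sub_self, inv_zero, zero_add]
    rw [← h3]
    have h5 : Del u * (2 * u i * ∏ x ∈ univ.erase i, 2 * u x) * (2 * u i)⁻¹ =
      Del u * (∏ x ∈ univ.erase i, 2 * u x) * ((2 * u i) * (2 * u i)⁻¹) := by ring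
    rw [h5, mul_inv_cancel₀ h4, mul_one]
  · rw [if_neg hij, if_neg hij, Del, ← Finset.mul_prod_erase _ _
      (show (i, j) ∈ (univ : Finset ι).offDiag by simp [hij])]
    have : u i - u j ≠ 0 := sub_ne_zero.mpr fun h => hij (hu h)
    field_simp
    ring

lemma det_cauchyMat_odd [CharZero L] (u : ι → L) (hodd : Odd (Fintype.card ι)) :
    (cauchyMat u).det = 0 := by
  have h1 : (cauchyMat u).det = (-1) ^ Fintype.card ι * (cauchyMat u).det := by
    conv_lhs => rw [← Matrix.det_transpose, cauchyMat_transpose, Matrix.det_neg]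
  rw [hodd.neg_one_pow] at h1
  have h2 : 2 * (cauchyMat u).det = 0 := by linear_combination h1
  exact (mul_eq_zero.mp h2).resolve_left two_ne_zero

lemma det_AT_odd [CharZero L] {u : ι → L} (hu : Function.Injective u)
    (hodd : Odd (Fintype.card ι)) : (AT u).det = 0 := by
  rw [AT_eq hu, Matrix.det_smul, det_cauchyMat_odd u hodd, mul_zero]

lemma AT_mulVec_vT [CharZero L] (i0 : ι) {u : ι → L} (hu : Function.Injective u)
    (hodd : Odd (Fintype.card ι)) : (AT u).mulVec (vT i0 u) = 0 := by
  have h1 := Matrix.mul_adjugate (AT u)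
  rw [det_AT_odd hu hodd, zero_smul] at h1
  ext i
  have := congrFun (congrFun h1 i) i0
  simpa [Matrix.mul_apply, Matrix.mulVec, dotProduct, vT] using this

lemma CKer_iff_AT {u v : ι → L} (hu : Function.Injective u) :
    CKer u v ↔ (AT u).mulVec v = 0 := by
  have hD : Del u ≠ 0 := Del_ne_zero_iff.mpr hu
  rw [AT_eq hu, Matrix.smul_mulVec]
  constructor
  · intro h
    ext i
    rw [Pi.smul_apply, cauchyMat_mulVec, h i]; simp
  · intro h i
    have := congrFun h i
    rw [Pi.smul_apply, cauchyMat_mulVec] at this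
    simpa [hD] using this

lemma CKer_vT [CharZero L] (i0 : ι) {u : ι → L} (hu : Function.Injective u)
    (hodd : Odd (Fintype.card ι)) : CKer u (vT i0 u) :=
  (CKer_iff_AT hu).mpr (AT_mulVec_vT i0 hu hodd)

/-- Corank one. -/
lemma corank_one {M : Matrix ι ι L} {i0 : ι} {v w : ι → L}
    (hv : ∀ i, v i = M.adjugate i i0) (hMv : M.mulVec v = 0) {k : ι} (hk : v k ≠ 0)
    (hw : M.mulVec w = 0) : ∃ r : L, w = r • v := by
  refine ⟨w k / v k, ?_⟩
  set w' : ι → L := w - (w k / v k) • v with hw'
  have h1 : M.mulVec w' = 0 := by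
    rw [hw', Matrix.mulVec_sub, Matrix.mulVec_smul, hw, hMv]; simp
  have h2 : w' k = 0 := by
    simp only [hw', Pi.sub_apply, Pi.smul_apply, smul_eq_mul]
    field_simp
    ring
  have h3 : (M.updateRow i0 (Pi.single k 1)).mulVec w' = 0 := by
    ext i
    by_cases hi : i = i0
    · subst hi
      simp only [Matrix.mulVec, Matrix.updateRow_self]
      rw [single_one_dotProduct, h2]; rfl
    · have := congrFun h1 i
      simp only [Matrix.mulVec, Matrix.updateRow_ne hi]
      simpa [Matrix.mulVec] using this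
  have h4 : (M.updateRow i0 (Pi.single k 1)).det ≠ 0 := by
    rw [← Matrix.adjugate_apply, ← hv]; exact hk
  have h5 : w' = 0 := by
    by_contra hne
    exact h4 (Matrix.exists_mulVec_eq_zero_iff.mp ⟨w', hne, h3⟩)
  rw [hw', sub_eq_zero] at h5
  exact h5

/-- The certificate produces a Mestre pair. -/
theorem MP_of_cert' [CharZero L] {i0 : ι} {u : ι → L} (hodd : Odd (Fintype.card ι))
    (h : cert1 i0 u ≠ 0) :
    ∃ (r : L) (H : L[X]), r ≠ 0 ∧ MP (nod u) (C r * GR u (vT i0 u)) H := by
  have hR := right_ne_zero_of_mul h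
  have h' := left_ne_zero_of_mul h
  have hκ := right_ne_zero_of_mul h'
  have h'' := left_ne_zero_of_mul h'
  have hvi0 := right_ne_zero_of_mul h''
  have hD := left_ne_zero_of_mul h''
  have hu : Function.Injective u := Del_ne_zero_iff.mp hD
  set v : ι → L := vT i0 u with hv
  have hvi : ∀ i, v i ≠ 0 := fun i => Finset.prod_ne_zero_iff.mp hvi0 i (Finset.mem_univ i)
  have hker : CKer u v := CKer_vT i0 hu hodd
  set κ : L := ∑ i, v i with hκdef
  have hκ2 : κ ^ 2 = ∑ i, v i ^ 2 := hker.sum_sq hu
  have hκ2' : ∑ i, v i ^ 2 ≠ 0 := by rw [← hκ2]; exact pow_ne_zero 2 hκ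
  have hpos : 0 < Fintype.card ι := hodd.pos
  have hGd : (Gm u v).natDegree = Fintype.card ι - 1 :=
    natDegree_sum_nodE u (fun i => v i ^ 2) hκ2'
  have hHd : (Hm u v).natDegree = Fintype.card ι - 1 := natDegree_sum_nodE u v hκ
  have hGlc : (Gm u v).leadingCoeff = κ ^ 2 := by
    rw [leadingCoeff, hGd, hκ2]; exact coeff_sum_nodE_top u fun i => v i ^ 2
  have hHlc : (Hm u v).leadingCoeff = κ := by
    rw [leadingCoeff, hHd]; exact coeff_sum_nodE_top u v
  have hκ20 : κ ^ 2 ≠ 0 := pow_ne_zero 2 hκ
  have hfu : ∀ i, (derivative (nod u)).eval (u i) ≠ 0 := eval_derivative_nod_ne_zero u hu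
  have hunit : IsUnit (C (κ ^ 2)⁻¹ : L[X]) := isUnit_C.mpr (isUnit_iff_ne_zero.mpr (inv_ne_zero hκ20))
  have hunit' : IsUnit (C κ⁻¹ : L[X]) := isUnit_C.mpr (isUnit_iff_ne_zero.mpr (inv_ne_zero hκ))
  have hcopG : IsCoprime (Gm u v) (derivative (Gm u v)) := by
    have e : GR u v = Gm u v := rfl
    rw [e] at hR
    have hG0 : Gm u v ≠ 0 := by
      intro h0; rw [h0, leadingCoeff_zero] at hGlc; exact hκ20 hGlc.symm
    by_contra hnc
    apply hR
    have h1 : resultant (Gm u v) (derivative (Gm u v)) = 0 := by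
      rw [resultant_eq_zero_iff]
      exact ⟨Or.inl hG0, hnc⟩
    have h2 : (derivative (Gm u v)).natDegree ≤ Fintype.card ι - 2 := by
      have := natDegree_derivative_le (Gm u v)
      omega
    obtain ⟨k, hk⟩ := Nat.exists_eq_add_of_le h2
    have h3 := resultant_add_right_deg (Gm u v) (derivative (Gm u v)) (Gm u v).natDegree
      (derivative (Gm u v)).natDegree k le_rfl
    rw [h1, mul_zero] at h3
    rw [hk, ← hGd]
    exact h3
  refine ⟨(κ ^ 2)⁻¹, C κ⁻¹ * Hm u v, inv_ne_zero hκ20, ?_⟩
  change MP (nod u) (C (κ ^ 2)⁻¹ * Gm u v) (C κ⁻¹ * Hm u v)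
  refine ⟨nod_monic u, ?_, ?_, nod_separable hu, ?_, ?_, ?_, ?_, ?_, ?_⟩
  · rw [Monic, leadingCoeff_mul, leadingCoeff_C, hGlc, inv_mul_cancel₀ hκ20]
  · rw [Monic, leadingCoeff_mul, leadingCoeff_C, hHlc, inv_mul_cancel₀ hκ]
  · rw [separable_def, derivative_C_mul]
    exact (isCoprime_mul_unit_left hunit _ _).mpr hcopG
  · rw [natDegree_nod, natDegree_C_mul (inv_ne_zero hκ20), hGd]; omega
  · rw [natDegree_C_mul (inv_ne_zero hκ), natDegree_C_mul (inv_ne_zero hκ20), hGd, hHd]
  · rw [derivative_C_mul, mul_pow, ← wronskian_Gm hu hker]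
    have e : (C κ⁻¹ : L[X]) ^ 2 = C (κ ^ 2)⁻¹ := by rw [← C_pow, inv_pow]
    rw [e]; ring
  · rw [isCoprime_mul_unit_left_left hunit']
    rw [nod]
    apply IsCoprime.prod_right
    intro i _
    rw [isCoprime_comm, (irreducible_X_sub_C (u i)).coprime_iff_not_dvd, dvd_iff_isRoot, IsRoot,
      eval_Hm]
    exact mul_ne_zero (hvi i) (hfu i)
  · intro P hP hdvd
    have hPdeg : P.degree < Fintype.card ι := by
      rwa [degree_eq_natDegree (nod_monic u).ne_zero, natDegree_nod] at hP
    have hHdeg : (Hm u v).degree < Fintype.card ι := degree_Hm_lt u v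
    have hHk : ∀ i, 2 * (derivative (Hm u v)).eval (u i) * (derivative (nod u)).eval (u i) =
        (Hm u v).eval (u i) * (derivative (derivative (nod u))).eval (u i) := by
      apply (CKer_iff hu hHdeg).mp
      have e : (fun l => (Hm u v).eval (u l) / (derivative (nod u)).eval (u l)) = v := by
        ext l
        rw [eval_Hm, mul_div_cancel_right₀ _ (hfu l)]
      rw [e]; exact hker
    have hPk : CKer u (fun l => P.eval (u l) / (derivative (nod u)).eval (u l)) := by
      rw [CKer_iff hu hPdeg]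
      intro i
      have h1 : (derivative P).eval (u i) * (Hm u v).eval (u i) =
          P.eval (u i) * (derivative (Hm u v)).eval (u i) := by
        obtain ⟨Q, hQ⟩ := hdvd
        have h2 := congrArg (eval (u i)) hQ
        simp only [eval_sub, eval_mul, eval_nod_self, zero_mul, derivative_C_mul, eval_C] at h2
        have h3 : κ⁻¹ * ((derivative P).eval (u i) * (Hm u v).eval (u i) -
          P.eval (u i) * (derivative (Hm u v)).eval (u i)) = 0 := by linear_combination h2
        exact sub_eq_zero.mp ((mul_eq_zero.mp h3).resolve_left (inv_ne_zero hκ))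
      have h4 : (Hm u v).eval (u i) ≠ 0 := by rw [eval_Hm]; exact mul_ne_zero (hvi i) (hfu i)
      apply mul_left_cancel₀ h4
      linear_combination 2 * (derivative (nod u)).eval (u i) * h1 + P.eval (u i) * hHk i
    have hPk' := (CKer_iff_AT hu).mp hPk
    obtain ⟨r, hr⟩ := corank_one (M := AT u) (i0 := i0) (v := v) (fun i => rfl)
      ((CKer_iff_AT hu).mp hker) (hvi i0) hPk'
    refine ⟨r * κ, ?_⟩
    have h5 := eq_sum_nodE hu hPdeg
    have h6 : ∀ l, P.eval (u l) / (derivative (nod u)).eval (u l) = r * v l := fun l => by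
      have := congrFun hr l
      simpa using this
    simp only [h6] at h5
    rw [h5, Hm, ← mul_assoc, ← C_mul, mul_assoc r, mul_inv_cancel₀ hκ, mul_one, Finset.mul_sum]
    refine Finset.sum_congr rfl fun l _ => ?_
    rw [C_mul, mul_assoc]

theorem MP_of_cert [CharZero L] {i0 : ι} {u : ι → L} (hodd : Odd (Fintype.card ι))
    (h : cert1 i0 u ≠ 0) : ∃ G H : L[X], MP (nod u) G H := by
  obtain ⟨r, H, _, hM⟩ := MP_of_cert' hodd h
  exact ⟨_, H, hM⟩

/-- The certificate for even clusters. -/
theorem even_of_cert [CharZero L] {u : ι → L} (h : cert2 u ≠ 0) :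
    Function.Injective u ∧ (∀ w, CKer u w → w = 0) ∧
      ∃ c : ι → L, (∀ j, cauchySum u c (u j) = -1) ∧ ∀ j, c j ≠ 0 := by
  have hP := right_ne_zero_of_mul h
  have h' := left_ne_zero_of_mul h
  have hdet := right_ne_zero_of_mul h'
  have hD := left_ne_zero_of_mul h'
  have hu : Function.Injective u := Del_ne_zero_iff.mp hD
  refine ⟨hu, ?_, ?_⟩
  · intro w hw
    by_contra hne
    exact hdet (Matrix.exists_mulVec_eq_zero_iff.mp ⟨w, hne, (CKer_iff_AT hu).mp hw⟩)
  · refine ⟨(-(Del u * (AT u).det⁻¹)) • (AT u).adjugate.mulVec 1, ?_, ?_⟩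
    · intro j
      have h1 : (AT u).mulVec ((-(Del u * (AT u).det⁻¹)) • (AT u).adjugate.mulVec 1) =
          fun _ => -(Del u) := by
        rw [Matrix.mulVec_smul, Matrix.mulVec_mulVec, Matrix.mul_adjugate, Matrix.smul_mulVec,
          Matrix.one_mulVec, smul_smul]
        ext i
        simp only [Pi.smul_apply, Pi.one_apply, smul_eq_mul, mul_one]
        field_simp
      rw [AT_eq hu, Matrix.smul_mulVec] at h1
      have h2 := congrFun h1 j
      rw [Pi.smul_apply, cauchyMat_mulVec, smul_eq_mul, ← AT_eq hu] at h2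
      apply mul_left_cancel₀ hD
      linear_combination h2
    · intro j
      have h1 := Finset.prod_ne_zero_iff.mp hP j (Finset.mem_univ j)
      simp only [Pi.smul_apply, smul_eq_mul]
      exact mul_ne_zero (neg_ne_zero.mpr (mul_ne_zero hD (inv_ne_zero hdet))) h1

/-- The certificate for `𝐀`. -/
theorem WNondeg_of_cert [CharZero L] {u : ι → L} (h : cert3 u ≠ 0) :
    (∀ j, u j ≠ 0) ∧ WNondeg u := by
  have hdet := right_ne_zero_of_mul h
  have h' := left_ne_zero_of_mul h
  have h0 := right_ne_zero_of_mul h'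
  have hD := left_ne_zero_of_mul h'
  have hu : Function.Injective u := Del_ne_zero_iff.mp hD
  have hne : ∀ j, u j ≠ 0 := fun j => Finset.prod_ne_zero_iff.mp h0 j (Finset.mem_univ j)
  refine ⟨hne, ?_⟩
  apply WNondeg_of_det
  rw [WT_eq hu (fun k => mul_ne_zero two_ne_zero (hne k)), Matrix.det_smul] at hdet
  exact right_ne_zero_of_mul hdet

end FieldFacts

end Pool.Agent.Lib.MP_12adaf_nt
end

section

/-!
# Nonvanishing of the certificates and existence of generic polynomials
-/

namespace Pool.Agent.Lib.MP_12adaf_nt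

set_option linter.unusedSectionVars false
set_option linter.unusedVariables false

open Finset Polynomial

section Real

variable {ι : Type*} [Fintype ι] [DecidableEq ι]

lemma real_vT_ne_zero {u : ι → ℝ} (hu : Function.Injective u) (hodd : Odd (Fintype.card ι))
    (i0 : ι) : vT i0 u i0 ≠ 0 := by
  rw [vT, Matrix.adjugate_apply]
  intro hdet
  obtain ⟨w, hw0, hw⟩ := Matrix.exists_mulVec_eq_zero_iff.mpr hdet
  apply hw0
  have hD : Del u ≠ 0 := Del_ne_zero_iff.mpr hu
  have h1 : w i0 = 0 := by
    have := congrFun hw i0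
    simp only [Matrix.mulVec, Matrix.updateRow_self] at this
    rwa [single_one_dotProduct] at this
  have h2 : ∀ i, i ≠ i0 → cauchySum u w (u i) = 0 := by
    intro i hi
    have h3 := congrFun hw i
    simp only [Matrix.mulVec, Matrix.updateRow_ne hi] at h3
    have h4 : ((AT u).mulVec w) i = 0 := h3
    rw [AT_eq hu, Matrix.smul_mulVec, Pi.smul_apply, cauchyMat_mulVec, smul_eq_mul] at h4
    exact (mul_eq_zero.mp h4).resolve_left hD
  have hcard : Even (Fintype.card {i // i ≠ i0}) := by
    have h3 : Fintype.card {i // i ≠ i0} = Fintype.card ι - 1 := by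
      simp [Fintype.card_subtype_compl]
    rw [h3]
    obtain ⟨k, hk⟩ := hodd
    exact ⟨k, by omega⟩
  have hker : CKer (fun i : {i // i ≠ i0} => u i.1) (fun i => w i.1) := by
    intro i
    have h3 := h2 i.1 i.2
    rw [cauchySum, Fintype.sum_eq_add_sum_subtype_ne _ i0, h1, zero_div, zero_add] at h3
    exact h3
  have h5 := real_even (u := fun i : {i // i ≠ i0} => u i.1)
    (fun i j h => Subtype.ext (hu h)) hcard hker
  ext i
  by_cases hi : i = i0
  · rw [hi, h1]; rfl
  · exact congrFun h5 ⟨i, hi⟩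

theorem real_cert1_ne_zero {u : ι → ℝ} (hu : Function.Injective u)
    (hodd : Odd (Fintype.card ι)) (i0 : ι) : cert1 i0 u ≠ 0 := by
  have hD : Del u ≠ 0 := Del_ne_zero_iff.mpr hu
  have hv := real_vT_ne_zero hu hodd i0
  have hker : CKer u (vT i0 u) := CKer_vT i0 hu hodd
  have hv0 : vT i0 u ≠ 0 := fun h => hv (congrFun h i0)
  have hvi : ∀ i, vT i0 u i ≠ 0 := fun i h => hv0 (real_kernel' hu hker h)
  have hκ2 : (∑ i, vT i0 u i) ^ 2 = ∑ i, vT i0 u i ^ 2 := hker.sum_sq hu
  have hκ : ∑ i, vT i0 u i ≠ 0 := by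
    intro h
    rw [h] at hκ2
    have := real_sum_sq_pos hv0
    rw [← hκ2] at this
    simp at this
  have hs2 : ∑ i, vT i0 u i ^ 2 ≠ 0 := by rw [← hκ2]; exact pow_ne_zero 2 hκ
  rw [cert1]
  refine mul_ne_zero (mul_ne_zero (mul_ne_zero hD (Finset.prod_ne_zero_iff.mpr fun i _ => hvi i))
    hκ) ?_
  have e : GR u (vT i0 u) = Gm u (vT i0 u) := rfl
  have hGd : (Gm u (vT i0 u)).natDegree = Fintype.card ι - 1 :=
    natDegree_sum_nodE u (fun i => vT i0 u i ^ 2) hs2
  have hcop := real_Gm_coprime hu hker hv0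
  rw [e]
  have hlc : (Gm u (vT i0 u)).coeff (Fintype.card ι - 1) ≠ 0 := by
    rw [show (Gm u (vT i0 u)).coeff (Fintype.card ι - 1) = ∑ i, vT i0 u i ^ 2 from
      coeff_sum_nodE_top u fun i => vT i0 u i ^ 2]
    exact hs2
  have h1 : resultant (Gm u (vT i0 u)) (derivative (Gm u (vT i0 u))) ≠ 0 := by
    intro h0
    rw [resultant_eq_zero_iff] at h0
    exact h0.2 hcop
  have h2 : (derivative (Gm u (vT i0 u))).natDegree ≤ Fintype.card ι - 2 := by
    have := natDegree_derivative_le (Gm u (vT i0 u))
    omega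
  obtain ⟨k, hk⟩ := Nat.exists_eq_add_of_le h2
  rw [hk, ← hGd, resultant_add_right_deg _ _ _ _ _ le_rfl]
  refine mul_ne_zero (pow_ne_zero _ ?_) h1
  rwa [hGd]

theorem real_cert4_ne_zero {u : ι → ℝ} (hu : Function.Injective u)
    (hodd : Odd (Fintype.card ι)) (hpos : ∀ j, 0 < u j) (i0 : ι) : cert4 i0 u ≠ 0 := by
  have hv := real_vT_ne_zero hu hodd i0
  have h1 : cert4 i0 u = ∑ i, vT i0 u i ^ 2 * ∏ j ∈ univ.erase i, u j := by
    rw [cert4, GR, eval_finsetSum]
    refine Finset.sum_congr rfl fun i _ => ?_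
    rw [eval_mul, eval_C, eval_prod]
    congr 1
    simp only [eval_sub, eval_X, eval_C, zero_sub]
    rw [Finset.prod_neg, Finset.card_erase_of_mem (Finset.mem_univ i), Finset.card_univ]
    obtain ⟨k, hk⟩ := hodd
    have : Even (Fintype.card ι - 1) := ⟨k, by omega⟩
    rw [this.neg_one_pow, one_mul]
  rw [h1]
  apply ne_of_gt
  apply Finset.sum_pos'
  · intro i _
    exact mul_nonneg (sq_nonneg _) (Finset.prod_nonneg fun j _ => (hpos j).le)
  · exact ⟨i0, Finset.mem_univ _, mul_pos (by positivity) (Finset.prod_pos fun j _ => hpos j)⟩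

theorem real_cert2_ne_zero {u : ι → ℝ} (hu : Function.Injective u)
    (he : Even (Fintype.card ι)) : cert2 u ≠ 0 := by
  have hD : Del u ≠ 0 := Del_ne_zero_iff.mpr hu
  have hdet : (AT u).det ≠ 0 := by
    intro h0
    obtain ⟨w, hw0, hw⟩ := Matrix.exists_mulVec_eq_zero_iff.mpr h0
    exact hw0 (real_even hu he ((CKer_iff_AT hu).mpr hw))
  rw [cert2]
  refine mul_ne_zero (mul_ne_zero hD hdet) (Finset.prod_ne_zero_iff.mpr fun k _ => ?_)
  have hsol : ∀ j, cauchySum u ((-(Del u * (AT u).det⁻¹)) • (AT u).adjugate.mulVec 1) (u j) =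
      -1 := by
    intro j
    have h1 : (AT u).mulVec ((-(Del u * (AT u).det⁻¹)) • (AT u).adjugate.mulVec 1) =
        fun _ => -(Del u) := by
      rw [Matrix.mulVec_smul, Matrix.mulVec_mulVec, Matrix.mul_adjugate, Matrix.smul_mulVec,
        Matrix.one_mulVec, smul_smul]
      ext i
      simp only [Pi.smul_apply, Pi.one_apply, smul_eq_mul, mul_one]
      field_simp
    rw [AT_eq hu, Matrix.smul_mulVec] at h1
    have h2 := congrFun h1 j
    rw [Pi.smul_apply, cauchyMat_mulVec, smul_eq_mul, ← AT_eq hu] at h2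
    apply mul_left_cancel₀ hD
    linear_combination h2
  have h3 := real_sol_ne_zero hu hsol k
  simp only [Pi.smul_apply, smul_eq_mul] at h3
  exact right_ne_zero_of_mul h3

theorem real_cert3_ne_zero {u : ι → ℝ} (hu : Function.Injective u) (hpos : ∀ j, 0 < u j) :
    cert3 u ≠ 0 := by
  have hD : Del u ≠ 0 := Del_ne_zero_iff.mpr hu
  have h2 : ∀ k, 2 * u k ≠ 0 := fun k => by have := hpos k; positivity
  rw [cert3]
  refine mul_ne_zero (mul_ne_zero hD (Finset.prod_ne_zero_iff.mpr fun k _ => (hpos k).ne')) ?_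
  rw [WT_eq hu h2, Matrix.det_smul]
  refine mul_ne_zero (pow_ne_zero _ (mul_ne_zero hD
    (Finset.prod_ne_zero_iff.mpr fun k _ => h2 k))) ?_
  intro h0
  obtain ⟨w, hw0, hw⟩ := Matrix.exists_mulVec_eq_zero_iff.mpr h0
  apply hw0
  apply real_pos_nondeg hu hpos
  intro j
  rw [← WMat_mulVec, hw]; rfl

end Real

section Transfer

variable {ι : Type*} [Fintype ι] [DecidableEq ι] {L : Type*} [Field L] [CharZero L]

lemma cert1_nat_ne_zero {k : ι → ℕ} (hk : Function.Injective k) (hodd : Odd (Fintype.card ι))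
    (i0 : ι) : cert1 i0 (fun i => (k i : L)) ≠ 0 := by
  have h1 : cert1 i0 (fun i => ((k i : ℤ) : ℝ)) ≠ 0 :=
    real_cert1_ne_zero (fun i j h => hk (by exact_mod_cast h)) hodd i0
  have h2 : cert1 i0 (fun i => (k i : ℤ)) ≠ 0 := by
    intro h
    apply h1
    have := map_cert1 (Int.castRingHom ℝ) i0 (fun i => (k i : ℤ))
    rw [h, map_zero] at this
    exact this.symm
  have h3 := map_cert1 (Int.castRingHom L) i0 (fun i => (k i : ℤ))
  have h4 : (Int.castRingHom L) ∘ (fun i => (k i : ℤ)) = fun i => (k i : L) := by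
    ext i; simp
  rw [h4] at h3
  rw [← h3]
  simpa using h2

lemma cert4_nat_ne_zero {k : ι → ℕ} (hk : Function.Injective k) (hodd : Odd (Fintype.card ι))
    (hpos : ∀ i, 0 < k i) (i0 : ι) : cert4 i0 (fun i => (k i : L)) ≠ 0 := by
  have h1 : cert4 i0 (fun i => ((k i : ℤ) : ℝ)) ≠ 0 :=
    real_cert4_ne_zero (fun i j h => hk (by exact_mod_cast h)) hodd (fun i => by
      exact_mod_cast hpos i) i0
  have h2 : cert4 i0 (fun i => (k i : ℤ)) ≠ 0 := by
    intro h
    apply h1
    have := map_cert4 (Int.castRingHom ℝ) i0 (fun i => (k i : ℤ))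
    rw [h, map_zero] at this
    exact this.symm
  have h3 := map_cert4 (Int.castRingHom L) i0 (fun i => (k i : ℤ))
  have h4 : (Int.castRingHom L) ∘ (fun i => (k i : ℤ)) = fun i => (k i : L) := by
    ext i; simp
  rw [h4] at h3
  rw [← h3]
  simpa using h2

lemma cert2_nat_ne_zero {k : ι → ℕ} (hk : Function.Injective k) (he : Even (Fintype.card ι)) :
    cert2 (fun i => (k i : L)) ≠ 0 := by
  have h1 : cert2 (fun i => ((k i : ℤ) : ℝ)) ≠ 0 :=
    real_cert2_ne_zero (fun i j h => hk (by exact_mod_cast h)) he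
  have h2 : cert2 (fun i => (k i : ℤ)) ≠ 0 := by
    intro h
    apply h1
    have := map_cert2 (Int.castRingHom ℝ) (fun i => (k i : ℤ))
    rw [h, map_zero] at this
    exact this.symm
  have h3 := map_cert2 (Int.castRingHom L) (fun i => (k i : ℤ))
  have h4 : (Int.castRingHom L) ∘ (fun i => (k i : ℤ)) = fun i => (k i : L) := by
    ext i; simp
  rw [h4] at h3
  rw [← h3]
  simpa using h2

lemma cert3_nat_ne_zero {k : ι → ℕ} (hk : Function.Injective k) (hpos : ∀ i, 0 < k i) :
    cert3 (fun i => (k i : L)) ≠ 0 := by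
  have h1 : cert3 (fun i => ((k i : ℤ) : ℝ)) ≠ 0 :=
    real_cert3_ne_zero (fun i j h => hk (by exact_mod_cast h)) (fun i => by
      exact_mod_cast hpos i)
  have h2 : cert3 (fun i => (k i : ℤ)) ≠ 0 := by
    intro h
    apply h1
    have := map_cert3 (Int.castRingHom ℝ) (fun i => (k i : ℤ))
    rw [h, map_zero] at this
    exact this.symm
  have h3 := map_cert3 (Int.castRingHom L) (fun i => (k i : ℤ))
  have h4 : (Int.castRingHom L) ∘ (fun i => (k i : ℤ)) = fun i => (k i : L) := by
    ext i; simp
  rw [h4] at h3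
  rw [← h3]
  simpa using h2

end Transfer

/-- A nonzero polynomial does not vanish at `(P (x i))` for a suitable `P` over the base. -/
theorem exists_generic {K Cl : Type*} [Field K] [Infinite K] [Field Cl] [Algebra K Cl]
    {I : Type*} [Fintype I] [DecidableEq I] {x : I → Cl} (hx : Function.Injective x)
    {F : MvPolynomial I Cl} (hF : F ≠ 0) :
    ∃ P : K[X], MvPolynomial.eval (fun i => aeval (x i) P) F ≠ 0 := by
  by_contra hcon
  push Not at hcon
  apply hF
  have : Infinite Cl := Infinite.of_injective (algebraMap K Cl) (algebraMap K Cl).injective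
  set n := Fintype.card I with hn
  let G : MvPolynomial (Fin n) Cl := MvPolynomial.bind₁
    (fun i => ∑ k : Fin n, MvPolynomial.C (x i ^ (k : ℕ)) * MvPolynomial.X k) F
  have hGeval : ∀ a : Fin n → Cl, MvPolynomial.eval a G =
      MvPolynomial.eval (fun i => ∑ k : Fin n, x i ^ (k : ℕ) * a k) F := by
    intro a
    change MvPolynomial.eval₂Hom (RingHom.id Cl) a (MvPolynomial.bind₁ _ F) =
      MvPolynomial.eval₂Hom (RingHom.id Cl) _ F
    rw [MvPolynomial.eval₂Hom_bind₁]
    congr 2
    ext i
    simp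
  have hG0 : G = 0 := by
    apply MvPolynomial.funext_set (fun _ => Set.range (algebraMap K Cl))
    · intro _
      exact Set.infinite_range_of_injective (algebraMap K Cl).injective
    · intro a ha
      have ha' : ∀ k, ∃ c : K, algebraMap K Cl c = a k := fun k => ha k (Set.mem_univ k)
      choose c hc using ha'
      rw [hGeval, map_zero]
      have h1 := hcon (∑ k : Fin n, C (c k) * X ^ (k : ℕ))
      have h2 : (fun i => aeval (x i) (∑ k : Fin n, C (c k) * X ^ (k : ℕ))) =
          fun i => ∑ k : Fin n, x i ^ (k : ℕ) * a k := by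
        ext i
        rw [map_sum]
        refine Finset.sum_congr rfl fun k _ => ?_
        rw [map_mul, aeval_C, map_pow, aeval_X, hc k, mul_comm]
      rwa [h2] at h1
  apply MvPolynomial.funext
  intro y
  rw [map_zero]
  -- interpolate `y`
  set Q : Cl[X] := Lagrange.interpolate Finset.univ x y with hQ
  have hQdeg : Q.degree < n := by
    have := Lagrange.degree_interpolate_lt y (s := Finset.univ) hx.injOn
    rwa [Finset.card_univ] at this
  have h1 := hGeval (fun k => Q.coeff k)
  rw [hG0, map_zero] at h1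
  rw [h1]
  congr 2
  ext i
  rw [← eval_of_degree_lt hQdeg, hQ,
    Lagrange.eval_interpolate_at_node _ hx.injOn (Finset.mem_univ i)]

end Pool.Agent.Lib.MP_12adaf_nt
end
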