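import Mathlib
import Pool.Agent.Lib.MP_12adaf_nt.LocalRoots
import Pool.Agent.Lib.MP_12adaf_nt.Generic

section

/-!
# The cluster theorem
-/

namespace Pool.Agent.Lib.MP_12adaf_nt

set_option linter.unusedSectionVars false
set_option linter.unusedVariables false

open Finset Polynomial Filter Topology

section Target

variable {Cl : Type*} [NormedField Cl] [DecidableEq Cl] {J : Type*} [Fintype J] [DecidableEq J]

/-- The three types of limiting roots. -/
def Target (z b c : J → Cl) (d t0 z' η : Cl) : Prop :=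
  (z' ≠ 0 ∧ z' ^ 2 = d ∧ (∀ j, z j = z' → η ≠ b j) ∧
    η + 2 * (∑ j, c j) - ∑ j, (if z j = z' then c j ^ 2 / (η - b j) else 0) = 0 ∧
    1 + ∑ j, (if z j = z' then c j / (η - b j) else 0) ≠ 0) ∨
  (∃ k, z' = z k ∧ η = b k ∧ z k ≠ 0 ∧ z k ^ 2 ≠ d) ∨
  (z' = 0 ∧ d = 0 ∧ η ≠ 0 ∧ (∀ j, z j = 0 → η ≠ b j) ∧
    η ^ 2 + 4 * (∑ j, c j) * η - t0 -
      ∑ j, (if z j = 0 then 2 * c j ^ 2 * b j / (η - b j) else - (2 * c j ^ 2)) = 0 ∧
    1 + ∑ j, (if z j = 0 then c j / (η - b j) else 0) ≠ 0)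

variable {z b : J → Cl}

lemma near_root [IsAlgClosed Cl] [CharZero Cl]
    (hzb : ∀ i j, z i = z j → b i = b j → i = j) (hb : ∀ j, z j = 0 → b j ≠ 0)
    (hdet : (Ainf z b).det ≠ 0) {c : J → Cl} (hc : InfCond z b c) (hc0 : ∀ j, c j ≠ 0)
    {d t0 z' η : Cl} (ht : Target z b c d t0 z' η) {δ : ℝ} (hδ : 0 < δ) :
    ∀ᶠ u : Cl in 𝓝[≠] 0, ∃ θ, (fR (xu z b u) (cW (xu z b u)) (d / u ^ 2 + t0)).eval θ = 0 ∧
      ‖θ - (z' / u + η)‖ < δ := by
  rcases ht with ⟨h1, h2, h3, h4, h5⟩ | ⟨k, h1, h2, h3, h4⟩ | ⟨h1, h2, h3, h4, h5, h6⟩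
  · exact near_root_T1 hzb hb hdet hc h1 h2 h3 h4 h5 hδ
  · subst h1; subst h2
    exact near_root_T2 hzb hb hdet hc h3 h4 (hc0 k) hδ
  · have := near_root_T0 hzb hb hdet hc h3 h4 h5 h6 hδ
    filter_upwards [this] with u hu
    simpa only [h1, h2, zero_div, zero_add] using hu

lemma exists_separation {I : Type*} [Finite I] [Nonempty I] {z' η : I → Cl}
    (h : ∀ i k, z' i = z' k → η i = η k → i = k) :
    ∃ δ : ℝ, 0 < δ ∧ ∀ᶠ u : Cl in 𝓝[≠] 0, ∀ i k, i ≠ k →
      2 * δ < ‖(z' i / u + η i) - (z' k / u + η k)‖ := by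
  have h1 : ∀ p : I × I, ∃ δ : ℝ, 0 < δ ∧ ∀ᶠ u : Cl in 𝓝[≠] 0, p.1 ≠ p.2 →
      2 * δ < ‖(z' p.1 / u + η p.1) - (z' p.2 / u + η p.2)‖ := by
    rintro ⟨i, k⟩
    by_cases hik : i = k
    · exact ⟨1, one_pos, Eventually.of_forall fun u hne => absurd hik hne⟩
    by_cases hz : z' i = z' k
    · have h2 : η i - η k ≠ 0 := fun h3 => hik (h i k hz (sub_eq_zero.mp h3))
      refine ⟨‖η i - η k‖ / 3, by positivity, Eventually.of_forall fun u _ => ?_⟩
      have h4 : (z' i / u + η i) - (z' k / u + η k) = η i - η k := by rw [hz]; ring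
      simp only [h4]
      have : 0 < ‖η i - η k‖ := norm_pos_iff.mpr h2
      linarith
    · refine ⟨1, one_pos, ?_⟩
      have h2 := (tendsto_inv_blow (c := η i - η k) (sub_ne_zero.mpr hz)).norm
      rw [norm_zero] at h2
      have h3 := (tendsto_order.mp h2).2 (1 / 3) (by norm_num)
      filter_upwards [h3, ev_blow_ne (c := η i - η k) (sub_ne_zero.mpr hz)] with u h4 h5 _
      have h6 : (z' i / u + η i) - (z' k / u + η k) = (z' i - z' k) / u + (η i - η k) := by ring
      simp only [h6]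
      rw [norm_inv] at h4
      have h7 : 0 < ‖(z' i - z' k) / u + (η i - η k)‖ := norm_pos_iff.mpr h5
      have h8 := (inv_lt_comm₀ h7 (by norm_num)).mp h4
      norm_num at h8 ⊢
      linarith
  choose δ hδ1 hδ2 using h1
  obtain ⟨p, hp⟩ := Finite.exists_min δ
  refine ⟨δ p, hδ1 p, ?_⟩
  rw [eventually_all]; intro i
  rw [eventually_all]; intro k
  filter_upwards [hδ2 (i, k)] with u hu hik
  have := hu hik
  have h2 := hp (i, k)
  linarith

end Target

theorem locW_of_clusters {K Cl : Type*} [NontriviallyNormedField K] [NormedField Cl]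
    [NormedAlgebra K Cl] [IsAlgClosed Cl] [IsGalois K Cl] [CharZero K] [CharZero Cl]
    [DecidableEq Cl] (hiso : ∀ (σ : Cl ≃ₐ[K] Cl) (x : Cl), ‖σ x‖ = ‖x‖)
    {I J : Type*} [Fintype I] [DecidableEq I] [Fintype J] [DecidableEq J] {N : ℕ}
    (hJ : Fintype.card J = N) (hI : Fintype.card I = N + 2)
    {z b c : J → Cl} (hzb : ∀ i j, z i = z j → b i = b j → i = j)
    (hb : ∀ j, z j = 0 → b j ≠ 0) (hdet : (Ainf z b).det ≠ 0) (hc : InfCond z b c)
    (hc0 : ∀ j, c j ≠ 0) {d t0 : K} {z' η ρ : I → Cl}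
    (hzη : ∀ i k, z' i = z' k → η i = η k → i = k)
    (htar : ∀ i, Target z b c (algebraMap K Cl d) (algebraMap K Cl t0) (z' i) (η i))
    {F : K[X]} (hF : F.map (algebraMap K Cl) = nod ρ)
    (hGJ : ∀ (σ : Cl ≃ₐ[K] Cl) (j : J), ∃ k, σ (z j) = z k ∧ σ (b j) = b k)
    (hGI : ∀ (σ : Cl ≃ₐ[K] Cl) (i : I), ∃ k, σ (z' i) = z' k ∧ σ (η i) = η k ∧ σ (ρ i) = ρ k) :
    LocW N F := by
  set φ : K →+* Cl := algebraMap K Cl with hφ
  have hne : Nonempty I := Fintype.card_pos_iff.mp (by omega)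
  obtain ⟨δ, hδ, hsepa⟩ := exists_separation hzη
  have hroots : ∀ᶠ u : Cl in 𝓝[≠] 0, ∀ i, ∃ θ,
      (fR (xu z b u) (cW (xu z b u)) (φ d / u ^ 2 + φ t0)).eval θ = 0 ∧
      ‖θ - (z' i / u + η i)‖ < δ := by
    rw [eventually_all]; intro i
    exact near_root hzb hb hdet hc hc0 (htar i) hδ
  have hcne : ∀ᶠ u : Cl in 𝓝[≠] 0, ∀ j, cW (xu z b u) j ≠ 0 := by
    rw [eventually_all]; intro j
    exact (tendsto_cW hdet hc j).eventually_ne (hc0 j)
  have hall := (ev_good hzb hb hdet hc).and (hsepa.and (hroots.and hcne))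
  have hmap : Tendsto (fun e : K => φ e) (𝓝[≠] 0) (𝓝[≠] 0) := by
    rw [tendsto_nhdsWithin_iff]
    constructor
    · have h1 : Continuous (algebraMap K Cl) := continuous_algebraMap K Cl
      have h2 := h1.tendsto 0
      rw [map_zero] at h2
      exact h2.mono_left nhdsWithin_le_nhds
    · filter_upwards [self_mem_nhdsWithin] with e he
      exact (map_ne_zero φ).mpr he
  obtain ⟨e, he⟩ := (hmap.eventually hall).exists
  obtain ⟨⟨hu0, hxinj, hx0, hWdet, hWc⟩, hsp, hrt, hcn⟩ := he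
  choose θ hθ1 hθ2 using hrt
  set u : Cl := φ e with hu
  have hσu : ∀ σ : Cl ≃ₐ[K] Cl, σ u = u := fun σ => σ.commutes e
  obtain ⟨g, hg⟩ : ∃ g : K[X], g.map φ = nod (xu z b u) := by
    apply exists_map_nod hxinj
    intro σ j
    obtain ⟨k, h1, h2⟩ := hGJ σ j
    refine ⟨k, ?_⟩
    simp only [xu, map_add, map_div₀, h1, h2, hσu]
  have hnd : WNondeg (xu z b u) := WNondeg_of_det hWdet
  have ht : φ (d / e ^ 2 + t0) = φ d / u ^ 2 + φ t0 := by
    rw [map_add, map_div₀, map_pow]
  have hθinj : Function.Injective θ := by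
    intro i k hik
    by_contra hne
    have h1 := hsp i k hne
    have h2 : ‖(z' i / u + η i) - (z' k / u + η k)‖ < 2 * δ := by
      calc ‖(z' i / u + η i) - (z' k / u + η k)‖
          = ‖(θ k - (z' k / u + η k)) - (θ i - (z' i / u + η i))‖ := by
            rw [hik]; congr 1; ring
        _ ≤ ‖θ k - (z' k / u + η k)‖ + ‖θ i - (z' i / u + η i)‖ := norm_sub_le _ _
        _ < δ + δ := add_lt_add (hθ2 k) (hθ2 i)
        _ = 2 * δ := by ring
    linarith
  -- `f` over the ground field and all its roots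
  have hgm : g.Monic := by
    have := nod_monic (xu z b u)
    rw [← hg] at this
    exact (φ.injective.monic_map_iff).mpr this
  have hgN : g.natDegree = N := by
    have := natDegree_nod (xu z b u)
    rw [← hg, natDegree_map, hJ] at this
    exact this
  have hL' : (Lmat N (nod (xu z b u))).det ≠ 0 := Lmat_det_ne_zero hxinj hx0 hnd hJ
  have hcc : (fun j => (cpoly N (nod (xu z b u))).eval (xu z b u j)) = cW (xu z b u) :=
    WCond.unique hnd (WCond_cpoly hxinj hx0 hJ hL') hWc
  have hf : (fpoly N g (d / e ^ 2 + t0)).map φ =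
      fR (xu z b u) (cW (xu z b u)) (φ d / u ^ 2 + φ t0) := by
    rw [map_fpoly φ hgm, hg, fpoly_nod hxinj hJ, hcc, ht]
  have hfm := fpoly_monic hgm hgN (d / e ^ 2 + t0)
  have hfθ : (fpoly N g (d / e ^ 2 + t0)).map φ = nod θ := by
    apply eq_nod_of_roots (hfm.1.map φ) (by rw [natDegree_map, hfm.2, hI]) hθinj
    intro i
    rw [hf]; exact hθ1 i
  refine locW_of_roots (K := K) (Cl := Cl) hJ hI hg hxinj hx0 hnd hWc hcn (t := d / e ^ 2 + t0)
    hθinj (fun i => by rw [← hφ, ht]; exact hθ1 i) hF ?_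
  intro σ i
  obtain ⟨k, h1, h2, h3⟩ := hGI σ i
  refine ⟨k, ?_, h3⟩
  -- `σ (θ i)` is a root
  have hroot : (nod θ).eval (σ (θ i)) = 0 := by
    have h4 : (nod θ).map (σ : Cl →+* Cl) = nod θ := by
      rw [← hfθ, Polynomial.map_map]
      congr 1
      ext a
      exact σ.commutes a
    rw [← h4]
    have h5 : σ (θ i) = (σ : Cl →+* Cl) (θ i) := rfl
    rw [h5, eval_map_apply, eval_nod_self, map_zero]
  obtain ⟨m, hm⟩ := (eval_nod_eq_zero_iff θ _).mp hroot
  have hmk : m = k := by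
    by_contra hne
    have h6 := hsp m k hne
    have h7 : ‖σ (θ i) - (z' k / u + η k)‖ < δ := by
      have h8 : σ (θ i) - (z' k / u + η k) = σ (θ i - (z' i / u + η i)) := by
        rw [map_sub, map_add, map_div₀, h1, h2, hσu]
      rw [h8, hiso]
      exact hθ2 i
    have h9 : ‖(z' m / u + η m) - (z' k / u + η k)‖ < 2 * δ := by
      calc ‖(z' m / u + η m) - (z' k / u + η k)‖
          = ‖(σ (θ i) - (z' k / u + η k)) - (θ m - (z' m / u + η m))‖ := by
            rw [hm]; congr 1; ring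
        _ ≤ ‖σ (θ i) - (z' k / u + η k)‖ + ‖θ m - (z' m / u + η m)‖ := norm_sub_le _ _
        _ < δ + δ := add_lt_add h7 (hθ2 m)
        _ = 2 * δ := by ring
    linarith
  rw [hm, hmk]

end Pool.Agent.Lib.MP_12adaf_nt
end

section

section

/-!
# Quadratic extensions of a subfield
-/

namespace Pool.Agent.Lib.MP_12adaf_nt

open Polynomial

theorem quad_gen {K L : Type*} [Field K] [Field L] [Algebra K L] [FiniteDimensional K L]
    [CharZero K] {m : ℕ} (hm : 0 < m) (hL : Module.finrank K L = 2 * m)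
    (T : IntermediateField K L) (hT : Module.finrank K T = m) :
    ∃ (θ E : L), (minpoly K θ).natDegree = m ∧ (∃ D : K[X], E ^ 2 = aeval θ D) ∧ E ≠ 0 ∧
      ∀ l : L, ∃ A B : K[X], l = aeval θ A + aeval θ B * E := by
  have h2 : Module.finrank T L = 2 := by
    have := Module.finrank_mul_finrank K T L
    rw [hT, hL, mul_comm 2 m] at this
    exact Nat.eq_of_mul_eq_mul_left hm this
  obtain ⟨t, ht⟩ := Field.exists_primitive_element K T
  have htint : IsIntegral K t := Algebra.IsIntegral.isIntegral t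
  have hpoly : ∀ y : T, ∃ P : K[X], (y : L) = aeval (t : L) P := by
    intro y
    have h1 : y ∈ IntermediateField.adjoin K {t} := by rw [ht]; trivial
    have h3 : y ∈ (IntermediateField.adjoin K {t}).toSubalgebra := h1
    rw [IntermediateField.adjoin_simple_toSubalgebra_of_isAlgebraic htint.isAlgebraic,
      Algebra.adjoin_singleton_eq_range_aeval] at h3
    obtain ⟨P, hP⟩ := h3
    refine ⟨P, ?_⟩
    rw [← hP]
    exact (aeval_algHom_apply T.val t P).symm
  have hdeg : (minpoly K (t : L)).natDegree = m := by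
    have h1 := IntermediateField.adjoin.finrank htint
    rw [ht, IntermediateField.finrank_top', hT] at h1
    rw [h1]
    congr 1
    exact minpoly.algHom_eq T.val T.val.injective t
  obtain ⟨e, he⟩ : ∃ e : L, e ∉ T := by
    by_contra hcon
    push Not at hcon
    have h3 : (⊤ : IntermediateField K L) = T := by
      apply le_antisymm
      · intro x _; exact hcon x
      · exact le_top
    rw [← h3, IntermediateField.finrank_top', hL] at hT
    omega
  have hli : LinearIndependent T ![(1 : L), e] := by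
    rw [LinearIndependent.pair_iff]
    intro a b hab
    by_cases hb : b = 0
    · subst hb
      rw [zero_smul, add_zero] at hab
      refine ⟨?_, rfl⟩
      have : (a : L) * 1 = 0 := hab
      rw [mul_one] at this
      exact_mod_cast this
    · exfalso
      apply he
      have h3 : (a : L) * 1 + (b : L) * e = 0 := hab
      have h4 : e = ((-a / b : T) : L) := by
        have hb' : (b : L) ≠ 0 := fun h => hb (by exact_mod_cast h)
        push_cast
        field_simp
        linear_combination h3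
      rw [h4]
      exact SetLike.coe_mem _
  have hspan := hli.span_eq_top_of_card_eq_finrank (by rw [h2]; rfl)
  have hex : ∀ l : L, ∃ a b : T, l = a + b * e := by
    intro l
    have h3 : l ∈ Submodule.span T (Set.range ![(1 : L), e]) := by rw [hspan]; trivial
    rw [Matrix.range_cons, Matrix.range_cons, Matrix.range_empty, Set.union_empty,
      Set.singleton_union, Submodule.mem_span_pair] at h3
    obtain ⟨a, b, hab⟩ := h3
    refine ⟨a, b, ?_⟩
    rw [← hab]
    change (a : L) * 1 + (b : L) * e = _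
    rw [mul_one]
  obtain ⟨a, b, hab⟩ := hex (e ^ 2)
  have : CharZero L := charZero_of_injective_algebraMap (algebraMap K L).injective
  have : CharZero T := charZero_of_injective_algebraMap (algebraMap K T).injective
  have c2 : ((2 : T) : L) = 2 := rfl
  have c4 : ((4 : T) : L) = 4 := rfl
  refine ⟨t, e - b / 2, hdeg, ?_, ?_, ?_⟩
  · obtain ⟨D, hD⟩ := hpoly (a + b ^ 2 / 4)
    refine ⟨D, ?_⟩
    rw [← hD]
    push_cast [c4]
    linear_combination hab
  · intro h
    apply he
    have h3 : e = ((b / 2 : T) : L) := by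
      push_cast [c2]
      linear_combination h
    rw [h3]
    exact SetLike.coe_mem _
  · intro l
    obtain ⟨a', b', hl⟩ := hex l
    obtain ⟨A, hA⟩ := hpoly (a' + b' * b / 2)
    obtain ⟨B, hB⟩ := hpoly b'
    refine ⟨A, B, ?_⟩
    rw [← hA, ← hB]
    push_cast [c2]
    rw [hl]
    ring

end Pool.Agent.Lib.MP_12adaf_nt
end

section

/-!
# The cluster theorem for block data
-/

namespace Pool.Agent.Lib.MP_12adaf_nt

set_option linter.unusedSectionVars false
set_option linter.unusedVariables false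

open Finset Polynomial Filter Topology

section Sums

variable {Cl : Type*} [Field Cl] [DecidableEq Cl] {Λ : Type*} [Fintype Λ] [DecidableEq Λ]
  {β : Λ → Type*} [∀ l, Fintype (β l)] [∀ l, DecidableEq (β l)]

lemma sum_block {ζ : Λ → Cl} (hζ : Function.Injective ζ) (l : Λ)
    (g : (Σ l, β l) → Cl) :
    ∑ k : (Σ l, β l), (if ζ k.1 = ζ l then g k else 0) = ∑ j : β l, g ⟨l, j⟩ := by
  rw [Fintype.sum_sigma, Finset.sum_eq_single l]
  · simp
  · intro m _ hm
    refine Finset.sum_eq_zero fun j _ => ?_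
    rw [if_neg]
    exact fun h => hm (hζ h)
  · simp

lemma sum_block' {ζ : Λ → Cl} (hζ : Function.Injective ζ) (l : Λ)
    (g : (Σ l, β l) → Cl) :
    ∑ k : (Σ l, β l), (if ζ l = ζ k.1 then g k else 0) = ∑ j : β l, g ⟨l, j⟩ := by
  rw [← sum_block hζ l g]
  refine Finset.sum_congr rfl fun k _ => ?_
  by_cases h : ζ l = ζ k.1
  · rw [if_pos h, if_pos h.symm]
  · rw [if_neg h, if_neg fun h' => h h'.symm]

end Sums

/-- Limiting roots for block data. -/
def TargetB {Cl : Type*} [NormedField Cl] {Λ : Type*} [Fintype Λ]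
    [DecidableEq Λ] {β : Λ → Type*} [∀ l, Fintype (β l)] (ζ : Λ → Cl)
    (b c : ∀ l, β l → Cl) (d t0 : Cl) (l : Λ) (η : Cl) : Prop :=
  (ζ l ≠ 0 ∧ ζ l ^ 2 = d ∧ (∀ j, η ≠ b l j) ∧
    η + 2 * (∑ m, ∑ j, c m j) - ∑ j, c l j ^ 2 / (η - b l j) = 0 ∧
    1 + ∑ j, c l j / (η - b l j) ≠ 0) ∨
  (ζ l ≠ 0 ∧ ζ l ^ 2 ≠ d ∧ ∃ j, η = b l j) ∨
  (ζ l = 0 ∧ d = 0 ∧ η ≠ 0 ∧ (∀ j, η ≠ b l j) ∧
    η ^ 2 + 4 * (∑ m, ∑ j, c m j) * η - t0 - ∑ j, 2 * c l j ^ 2 * b l j / (η - b l j) +
      ∑ m ∈ univ.erase l, ∑ j, 2 * c m j ^ 2 = 0 ∧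
    1 + ∑ j, c l j / (η - b l j) ≠ 0)

theorem locW_of_blocks {K Cl : Type*} [NontriviallyNormedField K] [NormedField Cl]
    [NormedAlgebra K Cl] [IsAlgClosed Cl] [IsGalois K Cl] [CharZero K] [CharZero Cl]
    [DecidableEq Cl] (hiso : ∀ (σ : Cl ≃ₐ[K] Cl) (x : Cl), ‖σ x‖ = ‖x‖)
    {Λ : Type*} [Fintype Λ] [DecidableEq Λ] {β : Λ → Type*} [∀ l, Fintype (β l)]
    [∀ l, DecidableEq (β l)] {I : Type*} [Fintype I] [DecidableEq I] {N : ℕ}
    (hJ : ∑ l, Fintype.card (β l) = N) (hI : Fintype.card I = N + 2)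
    {ζ : Λ → Cl} (hζ : Function.Injective ζ) {b c : ∀ l, β l → Cl}
    (hbinj : ∀ l, Function.Injective (b l)) (h0 : ∀ l, ζ l = 0 → ∀ j, b l j ≠ 0)
    (hnd : ∀ l (w : β l → Cl), (∀ j, cauchySum (b l) w (b l j) +
      (if ζ l = 0 then w j / (2 * b l j) else 0) = 0) → w = 0)
    (hsol : ∀ l j, cauchySum (b l) (c l) (b l j) +
      (if ζ l = 0 then c l j / (2 * b l j) else 0) = -1)
    (hc0 : ∀ l j, c l j ≠ 0) {d t0 : K} {l' : I → Λ} {η ρ : I → Cl}
    (hzη : ∀ i k, l' i = l' k → η i = η k → i = k)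
    (htar : ∀ i, TargetB ζ b c (algebraMap K Cl d) (algebraMap K Cl t0) (l' i) (η i))
    {F : K[X]} (hF : F.map (algebraMap K Cl) = nod ρ)
    (hGJ : ∀ (σ : Cl ≃ₐ[K] Cl) l (j : β l), ∃ m k, σ (ζ l) = ζ m ∧ σ (b l j) = b m k)
    (hGI : ∀ (σ : Cl ≃ₐ[K] Cl) (i : I), ∃ k, σ (ζ (l' i)) = ζ (l' k) ∧ σ (η i) = η k ∧
      σ (ρ i) = ρ k) :
    LocW N F := by
  let J := Σ l, β l
  let z : J → Cl := fun j => ζ j.1
  let bb : J → Cl := fun j => b j.1 j.2
  let cc : J → Cl := fun j => c j.1 j.2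
  have hcardJ : Fintype.card J = N := by rw [Fintype.card_sigma, hJ]
  have hrow : ∀ (w : J → Cl) (j : J),
      (∑ k, if z j = z k then w k / (bb j - bb k) else 0) =
        cauchySum (b j.1) (fun i => w ⟨j.1, i⟩) (b j.1 j.2) := by
    intro w j
    have := sum_block' hζ j.1 (fun k : J => w k / (bb j - bb k))
    rw [cauchySum]
    exact this
  have hdet : (Ainf z bb).det ≠ 0 := by
    intro hdet
    obtain ⟨w, hw0, hw⟩ := Matrix.exists_mulVec_eq_zero_iff.mpr hdet
    apply hw0
    have h1 : ∀ l, (fun i => w ⟨l, i⟩) = 0 := by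
      intro l
      apply hnd l
      intro j
      have h2 := congrFun hw ⟨l, j⟩
      rw [Ainf_mulVec, hrow] at h2
      exact h2
    ext ⟨l, j⟩
    exact congrFun (h1 l) j
  have hc : InfCond z bb cc := by
    intro j
    rw [hrow]
    exact hsol j.1 j.2
  have hsumc : ∑ j : J, cc j = ∑ m, ∑ j, c m j := by
    rw [Fintype.sum_sigma]
  refine locW_of_clusters (K := K) (Cl := Cl) hiso hcardJ hI (z := z) (b := bb) (c := cc)
    (d := d) (t0 := t0) (z' := fun i => ζ (l' i)) (η := η) (ρ := ρ) ?_ ?_ hdet hc ?_ ?_ ?_ hF ?_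
    hGI
  · rintro ⟨l, i⟩ ⟨m, k⟩ h1 h2
    have h3 : l = m := hζ h1
    subst h3
    have h4 : i = k := hbinj l h2
    rw [h4]
  · rintro ⟨l, i⟩ h1
    exact h0 l h1 i
  · rintro ⟨l, i⟩
    exact hc0 l i
  · intro i k h1 h2
    exact hzη i k (hζ h1) h2
  · intro i
    have hs : ∀ g : J → Cl, ∑ j : J, (if z j = ζ (l' i) then g j else 0) =
        ∑ j : β (l' i), g ⟨l' i, j⟩ := fun g => sum_block hζ (l' i) g
    rcases htar i with ⟨h1, h2, h3, h4, h5⟩ | ⟨h1, h2, j, h3⟩ | ⟨h1, h2, h3, h4, h5, h6⟩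
    · left
      refine ⟨h1, h2, ?_, ?_, ?_⟩
      · rintro ⟨m, j⟩ hm
        have h6 : m = l' i := hζ hm
        subst h6
        exact h3 j
      · rw [hsumc, hs]; exact h4
      · rw [hs]; exact h5
    · right; left
      exact ⟨⟨l' i, j⟩, rfl, h3, h1, h2⟩
    · right; right
      refine ⟨h1, h2, h3, ?_, ?_, ?_⟩
      · rintro ⟨m, j⟩ hm
        have h7 : m = l' i := hζ (hm.trans h1.symm)
        subst h7
        exact h4 j
      · rw [hsumc]
        have h7 : ∑ j : J, (if z j = 0 then 2 * cc j ^ 2 * bb j / (η i - bb j) else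
            -(2 * cc j ^ 2)) = ∑ j, 2 * c (l' i) j ^ 2 * b (l' i) j / (η i - b (l' i) j) -
            ∑ m ∈ univ.erase (l' i), ∑ j, 2 * c m j ^ 2 := by
          rw [Fintype.sum_sigma, ← Finset.add_sum_erase univ _ (Finset.mem_univ (l' i)),
            sub_eq_add_neg, ← Finset.sum_neg_distrib]
          congr 1
          · refine Finset.sum_congr rfl fun j _ => ?_
            rw [if_pos (show z ⟨l' i, j⟩ = 0 from h1)]
          · refine Finset.sum_congr rfl fun m hm => ?_
            rw [← Finset.sum_neg_distrib]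
            refine Finset.sum_congr rfl fun j _ => ?_
            rw [if_neg]
            intro h8
            exact (Finset.mem_erase.mp hm).1 (hζ (h8.trans h1.symm))
        rw [h7]
        linear_combination h5
      · have h7 : ∑ j : J, (if z j = 0 then cc j / (η i - bb j) else 0) =
            ∑ j, c (l' i) j / (η i - b (l' i) j) := by
          refine Eq.trans (Finset.sum_congr rfl fun j _ => ?_)
            (hs fun j => cc j / (η i - bb j))
          simp only [h1]
        rw [h7]; exact h6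
  · rintro σ ⟨l, j⟩
    obtain ⟨m, k, h1, h2⟩ := hGJ σ l j
    exact ⟨⟨m, k⟩, h1, h2⟩

end Pool.Agent.Lib.MP_12adaf_nt
end

section

/-!
# Two odd clusters and one even cluster
-/

namespace Pool.Agent.Lib.MP_12adaf_nt

set_option linter.unusedSectionVars false
set_option linter.unusedVariables false

open Finset Polynomial Filter Topology

section Block

variable {L : Type*} [Field L] [CharZero L]

lemma cauchySum_shift {β : Type*} [Fintype β] [DecidableEq β] (b c : β → L) (e z : L) :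
    cauchySum (fun j => b j + e) c (z + e) = cauchySum b c z := by
  simp [cauchySum]

lemma blockOdd [IsAlgClosed L] {U : Type*} [Fintype U] [DecidableEq U] {u : U → L} {i0 : U}
    (hodd : Odd (Fintype.card U)) (h : cert1 i0 u ≠ 0) {n : ℕ}
    (hn : n + 1 = Fintype.card U) :
    ∃ (b c : Fin n → L) (e : L), Function.Injective b ∧ (∀ w, CKer b w → w = 0) ∧
      (∀ j, cauchySum b c (b j) = -1) ∧ (∀ j, c j ≠ 0) ∧
      (∃ H, MP (nod u) (nod fun j => b j + e) H ∧
        e = MP.shift (nod u) (nod fun j => b j + e)) ∧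
      ∀ i, (∀ j, u i - e ≠ b j) ∧ (u i - e) - ∑ j, c j ^ 2 / (u i - e - b j) = 0 ∧
        1 + ∑ j, c j / (u i - e - b j) ≠ 0 := by
  obtain ⟨G, H, hM⟩ := MP_of_cert hodd h
  have hGn : G.natDegree = n := by
    have := hM.deg
    rw [natDegree_nod] at this
    omega
  obtain ⟨b0, hb0i, hb0⟩ := exists_nod (RingHom.id L) hM.Gm hGn hM.Gsep
  rw [Polynomial.map_id] at hb0
  subst hb0
  set e : L := MP.shift (nod u) (nod b0) with he
  have hb : (fun j => (b0 j - e) + e) = b0 := by ext j; ring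
  refine ⟨fun j => b0 j - e, MP.res H b0, e, ?_, ?_, ?_, hM.res_ne, ?_, ?_⟩
  · intro i j hij
    exact hb0i (sub_left_injective hij)
  · intro w hw
    apply hM.nondeg
    intro j
    rw [← hw j, ← cauchySum_shift (fun j => b0 j - e) w e (b0 j - e), hb]
    congr 1; ring
  · intro j
    rw [← hM.cauchy_res j, ← cauchySum_shift (fun j => b0 j - e) _ e (b0 j - e), hb]
    congr 1; ring
  · refine ⟨H, ?_, ?_⟩
    · rw [hb]; exact hM
    · rw [hb]
  · intro i
    obtain ⟨h1, h2, h3⟩ := hM.root_eq (eval_nod_self u i)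
    refine ⟨fun j hj => h1 j (sub_left_injective hj), ?_, ?_⟩
    · rw [← h2]
      congr 1
      refine Finset.sum_congr rfl fun j _ => ?_
      congr 1; ring
    · intro h4
      apply h3
      rw [← h4]
      congr 1
      refine Finset.sum_congr rfl fun j _ => ?_
      congr 1; ring

lemma shift_map {f G : L[X]} (hG : G.Monic) (σ : L ≃+* L) :
    MP.shift (f.map (σ : L →+* L)) (G.map (σ : L →+* L)) = σ (MP.shift f G) := by
  rw [MP.shift, MP.shift, ← map_divByMonic _ hG, coeff_map, map_neg]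
  rfl

lemma blockOdd_equiv {U U' : Type*} [Fintype U] [DecidableEq U] [Fintype U'] [DecidableEq U']
    {u : U → L} {u' : U' → L} {n n' : ℕ} {b : Fin n → L} {b' : Fin n' → L} {e e' : L}
    (h : ∃ H, MP (nod u) (nod fun j => b j + e) H ∧
        e = MP.shift (nod u) (nod fun j => b j + e))
    (h' : ∃ H, MP (nod u') (nod fun j => b' j + e') H ∧
        e' = MP.shift (nod u') (nod fun j => b' j + e'))
    (σ : L ≃+* L) (hσ : (nod u).map (σ : L →+* L) = nod u') :
    σ e = e' ∧ ∀ j, ∃ k, σ (b j) = b' k := by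
  obtain ⟨H, hM, he⟩ := h
  obtain ⟨H', hM', he'⟩ := h'
  have h1 := hM.map σ
  rw [hσ] at h1
  obtain ⟨h2, h3⟩ := hM'.unique h1
  have h4 : σ e = e' := by
    have h5 := shift_map (f := nod u) (nod_monic fun j => b j + e) σ
    rw [hσ, h2, ← he', ← he] at h5
    exact h5.symm
  refine ⟨h4, fun j => ?_⟩
  have h5 : (nod fun j => b' j + e').eval (σ (b j + e)) = 0 := by
    rw [← h2]
    have h6 : σ (b j + e) = (σ : L →+* L) (b j + e) := rfl
    rw [h6, eval_map_apply, eval_nod_self (fun j => b j + e) j, map_zero]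
  obtain ⟨k, hk⟩ := (eval_nod_eq_zero_iff _ _).mp h5
  refine ⟨k, ?_⟩
  rw [map_add, h4] at hk
  exact add_right_cancel hk

lemma blockEven {U : Type*} [Fintype U] [DecidableEq U] {u : U → L}
    (h : cert2 u ≠ 0) {n : ℕ} (hn : Fintype.card U = n) :
    ∃ (b c : Fin n → L) (ε : Fin n ≃ U), Function.Injective b ∧ (∀ w, CKer b w → w = 0) ∧
      (∀ j, cauchySum b c (b j) = -1) ∧ (∀ j, c j ≠ 0) ∧ ∀ j, b j = u (ε j) := by
  obtain ⟨hu, hnd, c, hc, hc0⟩ := even_of_cert h
  let ε : Fin n ≃ U := (Fintype.equivFinOfCardEq hn).symm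
  have hsum : ∀ (w : Fin n → L) (z : L), cauchySum (fun j => u (ε j)) w z =
      cauchySum u (fun i => w (ε.symm i)) z := by
    intro w z
    rw [cauchySum, cauchySum, ← Equiv.sum_comp ε]
    refine Finset.sum_congr rfl fun j _ => ?_
    rw [Equiv.symm_apply_apply]
  refine ⟨fun j => u (ε j), fun j => c (ε j), ε, hu.comp ε.injective, ?_, ?_,
    fun j => hc0 _, fun j => rfl⟩
  · intro w hw
    have h1 : CKer u (fun i => w (ε.symm i)) := by
      intro i
      have := hw (ε.symm i)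
      rw [hsum] at this
      simpa using this
    have h2 := hnd _ h1
    ext j
    have := congrFun h2 (ε j)
    simpa using this
  · intro j
    rw [hsum]
    simpa using hc (ε j)

end Block

/-- The roots are permuted by automorphisms. -/
lemma exists_perm {K Cl : Type*} [Field K] [Field Cl] [Algebra K Cl] {I : Type*} [Fintype I]
    [DecidableEq I] {F : K[X]} {x : I → Cl} (hF : F.map (algebraMap K Cl) = nod x)
    (hx : Function.Injective x) (σ : Cl ≃ₐ[K] Cl) :
    ∃ π : I ≃ I, ∀ i, σ (x i) = x (π i) := by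
  have h1 : ∀ i, ∃ k, σ (x i) = x k := by
    intro i
    have h2 : (nod x).eval (σ (x i)) = 0 := by
      have h3 : (nod x).map (σ : Cl →+* Cl) = nod x := by
        rw [← hF, Polynomial.map_map]
        congr 1
        ext a
        exact σ.commutes a
      rw [← h3]
      have h4 : σ (x i) = (σ : Cl →+* Cl) (x i) := rfl
      rw [h4, eval_map_apply, eval_nod_self, map_zero]
    exact (eval_nod_eq_zero_iff x _).mp h2
  choose π hπ using h1
  have hinj : Function.Injective π := by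
    intro a b hab
    apply hx
    apply σ.injective
    rw [hπ a, hπ b, hab]
  exact ⟨Equiv.ofBijective π (Finite.injective_iff_bijective.mp hinj), hπ⟩

theorem locW_caseA {K Cl : Type*} [NontriviallyNormedField K] [NormedField Cl]
    [NormedAlgebra K Cl] [IsAlgClosed Cl] [IsGalois K Cl] [CharZero K] [CharZero Cl]
    (hiso : ∀ (σ : Cl ≃ₐ[K] Cl) (x : Cl), ‖σ x‖ = ‖x‖)
    {N : ℕ} {I : Type*} [Fintype I] [DecidableEq I] (hI : Fintype.card I = N + 2)
    {F : K[X]} {x : I → Cl} (hF : F.map (algebraMap K Cl) = nod x) (hx : Function.Injective x)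
    {d z0 : K} (hd : d ≠ 0) (hz0 : z0 ≠ 0) (hzd : z0 ^ 2 ≠ d) {s : Cl}
    (hs : s ^ 2 = algebraMap K Cl d) {Y : K[X]}
    (hY : ∀ i, aeval (x i) Y = s ∨ aeval (x i) Y = -s ∨ aeval (x i) Y = algebraMap K Cl z0)
    (h1 : Odd (Nat.card {i // aeval (x i) Y = s}))
    (h2 : Odd (Nat.card {i // aeval (x i) Y = -s}))
    (h3 : Even (Nat.card {i // aeval (x i) Y = algebraMap K Cl z0})) : LocW N F := by
  classical
  set φ : K →+* Cl := algebraMap K Cl with hφ
  have hs0 : s ≠ 0 := by
    intro h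
    rw [h] at hs
    apply hd
    apply φ.injective
    rw [map_zero, ← hs]; ring
  have hz0' : φ z0 ≠ 0 := (map_ne_zero φ).mpr hz0
  have hzd' : (φ z0) ^ 2 ≠ φ d := by
    rw [← map_pow]
    exact fun h => hzd (φ.injective h)
  have hss : s ≠ -s := by
    intro h
    have : 2 * s = 0 := by linear_combination h
    exact hs0 ((mul_eq_zero.mp this).resolve_left two_ne_zero)
  have hsz : s ≠ φ z0 := fun h => hzd' (by rw [← h, hs])
  have hsz' : -s ≠ φ z0 := fun h => hzd' (by rw [← h, neg_sq, hs])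
  let ζ : Fin 3 → Cl := ![s, -s, φ z0]
  have hζ0 : ζ 0 = s := rfl
  have hζ1 : ζ 1 = -s := rfl
  have hζ2 : ζ 2 = φ z0 := rfl
  have hζ : Function.Injective ζ := by
    intro a b hab
    fin_cases a <;> fin_cases b <;> first | rfl | (exfalso; revert hab; simp only [Fin.mk_zero, Fin.mk_one, Fin.reduceFinMk, hζ0, hζ1, hζ2, Fin.isValue, imp_false]; first | exact hss | exact hss.symm | exact hsz | exact hsz.symm | exact hsz' | exact hsz'.symm)
  have hζne : ∀ l, ζ l ≠ 0 := by
    intro l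
    fin_cases l
    · exact hs0
    · exact neg_ne_zero.mpr hs0
    · exact hz0'
  have hy : ∀ i, ∃ l, aeval (x i) Y = ζ l := by
    intro i
    rcases hY i with h | h | h
    · exact ⟨0, h⟩
    · exact ⟨1, h⟩
    · exact ⟨2, h⟩
  choose l' hl' using hy
  let U : Fin 3 → Type _ := fun l => {i : I // l' i = l}
  have hcardU : ∀ l, Nat.card {i // aeval (x i) Y = ζ l} = Fintype.card (U l) := by
    intro l
    rw [← Nat.card_eq_fintype_card]
    apply Nat.card_congr
    apply Equiv.subtypeEquivRight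
    intro i
    rw [hl' i]
    exact ⟨fun h => hζ h, fun h => by rw [h]⟩
  have ho0 : Odd (Fintype.card (U 0)) := by rw [← hcardU 0]; exact h1
  have ho1 : Odd (Fintype.card (U 1)) := by rw [← hcardU 1]; exact h2
  have he2 : Even (Fintype.card (U 2)) := by rw [← hcardU 2]; exact h3
  obtain ⟨i0⟩ : Nonempty (U 0) := Fintype.card_pos_iff.mp ho0.pos
  obtain ⟨i1⟩ : Nonempty (U 1) := Fintype.card_pos_iff.mp ho1.pos
  -- genericity
  have hgen : ∃ P : K[X], cert1 i0 (fun i : U 0 => aeval (x i.1) P) ≠ 0 ∧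
      cert1 i1 (fun i : U 1 => aeval (x i.1) P) ≠ 0 ∧
      cert2 (fun i : U 2 => aeval (x i.1) P) ≠ 0 := by
    let C0 : MvPolynomial I Cl := cert1 i0 (fun i : U 0 => MvPolynomial.X i.1)
    let C1 : MvPolynomial I Cl := cert1 i1 (fun i : U 1 => MvPolynomial.X i.1)
    let C2 : MvPolynomial I Cl := cert2 (fun i : U 2 => MvPolynomial.X i.1)
    have e0 : ∀ v : I → Cl, MvPolynomial.eval v C0 = cert1 i0 (fun i : U 0 => v i.1) := by
      intro v
      rw [map_cert1]
      congr 1
      ext i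
      simp
    have e1 : ∀ v : I → Cl, MvPolynomial.eval v C1 = cert1 i1 (fun i : U 1 => v i.1) := by
      intro v
      rw [map_cert1]
      congr 1
      ext i
      simp
    have e2 : ∀ v : I → Cl, MvPolynomial.eval v C2 = cert2 (fun i : U 2 => v i.1) := by
      intro v
      rw [map_cert2]
      congr 1
      ext i
      simp
    let k : I → ℕ := fun i => (Fintype.equivFin I i : ℕ)
    have hk : Function.Injective k := fun a b h =>
      (Fintype.equivFin I).injective (Fin.ext h)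
    have n0 : C0 ≠ 0 := by
      intro h
      have h4 := e0 fun i => (k i : Cl)
      rw [h, map_zero] at h4
      exact cert1_nat_ne_zero (L := Cl) (k := fun i : U 0 => k i.1)
        (fun a b hab => Subtype.ext (hk hab)) ho0 i0 h4.symm
    have n1 : C1 ≠ 0 := by
      intro h
      have h4 := e1 fun i => (k i : Cl)
      rw [h, map_zero] at h4
      exact cert1_nat_ne_zero (L := Cl) (k := fun i : U 1 => k i.1)
        (fun a b hab => Subtype.ext (hk hab)) ho1 i1 h4.symm
    have n2 : C2 ≠ 0 := by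
      intro h
      have h4 := e2 fun i => (k i : Cl)
      rw [h, map_zero] at h4
      exact cert2_nat_ne_zero (L := Cl) (k := fun i : U 2 => k i.1)
        (fun a b hab => Subtype.ext (hk hab)) he2 h4.symm
    obtain ⟨P, hP⟩ := exists_generic (K := K) hx (mul_ne_zero (mul_ne_zero n0 n1) n2)
    rw [map_mul, map_mul, e0, e1, e2] at hP
    exact ⟨P, left_ne_zero_of_mul (left_ne_zero_of_mul hP),
      right_ne_zero_of_mul (left_ne_zero_of_mul hP), right_ne_zero_of_mul hP⟩
  obtain ⟨P, hP0, hP1, hP2⟩ := hgen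
  set u : I → Cl := fun i => aeval (x i) P with hu
  have blk : ∀ l : Fin 3, ∃ (n : ℕ) (b c : Fin n → Cl) (e : Cl),
      n + (if l = 2 then 0 else 1) = Fintype.card (U l) ∧ Function.Injective b ∧
      (∀ w, CKer b w → w = 0) ∧ (∀ j, cauchySum b c (b j) = -1) ∧ (∀ j, c j ≠ 0) ∧
      Function.Injective (fun i : U l => u i.1) ∧
      (l ≠ 2 → (∃ H, MP (nod fun i : U l => u i.1) (nod fun j => b j + e) H ∧
        e = MP.shift (nod fun i : U l => u i.1) (nod fun j => b j + e)) ∧
        ∀ i : U l, (∀ j, u i.1 - e ≠ b j) ∧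
          (u i.1 - e) - ∑ j, c j ^ 2 / (u i.1 - e - b j) = 0 ∧
          1 + ∑ j, c j / (u i.1 - e - b j) ≠ 0) ∧
      (l = 2 → e = 0 ∧ ∃ ε : Fin n ≃ U l, ∀ j, b j = u (ε j).1) := by
    intro l
    have hinj : ∀ {ι : Type _} [Fintype ι] [DecidableEq ι] {i : ι} {v : ι → Cl},
        cert1 i v ≠ 0 → Function.Injective v := by
      intro ι _ _ i v h
      exact Del_ne_zero_iff.mp (left_ne_zero_of_mul (left_ne_zero_of_mul (left_ne_zero_of_mul h)))
    fin_cases l
    · obtain ⟨b, c, e, a1, a2, a3, a4, a5, a6⟩ := blockOdd ho0 hP0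
        (n := Fintype.card (U 0) - 1) (by have := ho0.pos; omega)
      refine ⟨_, b, c, e, ?_, a1, a2, a3, a4, hinj hP0, fun _ => ⟨a5, a6⟩, fun h => ?_⟩
      · have := ho0.pos
        simp only [Fin.zero_eta, Fin.isValue, Fin.reduceEq, if_false]
        omega
      · exact absurd h (by decide)
    · obtain ⟨b, c, e, a1, a2, a3, a4, a5, a6⟩ := blockOdd ho1 hP1
        (n := Fintype.card (U 1) - 1) (by have := ho1.pos; omega)
      refine ⟨_, b, c, e, ?_, a1, a2, a3, a4, hinj hP1, fun _ => ⟨a5, a6⟩, fun h => ?_⟩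
      · have := ho1.pos
        simp only [Fin.mk_one, Fin.isValue, Fin.reduceEq, if_false]
        omega
      · exact absurd h (by decide)
    · obtain ⟨b, c, ε, a1, a2, a3, a4, a5⟩ := blockEven hP2 rfl
      refine ⟨_, b, c, 0, ?_, a1, a2, a3, a4, (even_of_cert hP2).1, fun h => ?_,
        fun _ => ⟨rfl, ε, a5⟩⟩
      · simp
      · exact absurd rfl h
  choose n b c e hn hbi hnd hsol hc0 hui hodd heven using blk
  -- Galois action
  have hGal : ∀ (σ : Cl ≃ₐ[K] Cl) (l : Fin 3), ∃ m, σ (ζ l) = ζ m ∧ (l = 2 ↔ m = 2) := by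
    intro σ l
    have hσs : σ s = s ∨ σ s = -s := by
      have h4 : (σ s) ^ 2 = s ^ 2 := by
        rw [← map_pow, hs]
        exact σ.commutes d
      exact sq_eq_sq_iff_eq_or_eq_neg.mp h4
    fin_cases l
    · rcases hσs with h | h
      · exact ⟨0, h, by decide⟩
      · exact ⟨1, h, by decide⟩
    · rcases hσs with h | h
      · refine ⟨1, ?_, by decide⟩
        change σ (-s) = -s
        rw [map_neg, h]
      · refine ⟨0, ?_, by decide⟩
        change σ (-s) = s
        rw [map_neg, h, neg_neg]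
    · exact ⟨2, σ.commutes z0, by decide⟩
  have hkey : ∀ (σ : Cl ≃ₐ[K] Cl) (l m : Fin 3), σ (ζ l) = ζ m →
      σ (e l) = e m ∧ ∀ j, ∃ k, σ (b l j) = b m k := by
    intro σ l m hlm
    obtain ⟨π, hπ⟩ := exists_perm hF hx σ
    have hσa : ∀ (Q : K[X]) (i : I), σ (aeval (x i) Q) = aeval (x (π i)) Q := by
      intro Q i
      rw [← hπ i]
      exact (aeval_algHom_apply (σ : Cl →ₐ[K] Cl) (x i) Q).symm
    have hpq : ∀ i, l' i = l ↔ l' (π i) = m := by
      intro i
      constructor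
      · intro h
        apply hζ
        rw [← hl', ← hσa, hl' i, h, hlm]
      · intro h
        apply hζ
        apply σ.injective
        rw [← hl', hσa, hl', h, hlm]
    let E : U l ≃ U m := Equiv.subtypeEquiv π hpq
    by_cases hl2 : l = 2
    · have hm2 : m = 2 := by
        obtain ⟨m', hm', hiff⟩ := hGal σ l
        rw [hlm] at hm'
        rw [hζ hm']
        exact hiff.mp hl2
      subst hl2
      subst hm2
      obtain ⟨he0, ε, hε⟩ := heven 2 rfl
      refine ⟨by rw [he0, map_zero], fun j => ⟨ε.symm (E (ε j)), ?_⟩⟩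
      rw [hε, hε, Equiv.apply_symm_apply]
      exact hσa P _
    · have hm2 : m ≠ 2 := by
        obtain ⟨m', hm', hiff⟩ := hGal σ l
        rw [hlm] at hm'
        rw [hζ hm']
        exact fun h => hl2 (hiff.mpr h)
      refine blockOdd_equiv (hodd l hl2).1 (hodd m hm2).1 (σ : Cl ≃+* Cl) ?_
      rw [nod_map, ← nod_comp_equiv E (fun i : U m => u i.1)]
      congr 1
      ext i
      exact hσa P _
  have hsumc : ∑ m, ∑ j, c m j = 0 := by
    refine Finset.sum_eq_zero fun m _ => ?_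
    have h4 := sum_mul_cauchySum (b m) (c m)
    simp only [hsol m, mul_neg, mul_one, Finset.sum_neg_distrib] at h4
    have h5 : 2 * ∑ j, c m j = 0 := by linear_combination -h4
    exact (mul_eq_zero.mp h5).resolve_left two_ne_zero
  refine locW_of_blocks (K := K) (Cl := Cl) hiso (Λ := Fin 3) (β := fun l => Fin (n l))
    (N := N) ?_ hI (ζ := ζ) hζ (b := b) (c := c) hbi ?_ ?_ ?_ hc0 (d := d) (t0 := 0)
    (l' := l') (η := fun i => u i - e (l' i)) (ρ := x) ?_ ?_ hF ?_ ?_
  · have h4 : ∑ l, Fintype.card (U l) = N + 2 := by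
      rw [← Fintype.card_sigma, Fintype.card_congr (Equiv.sigmaFiberEquiv l'), hI]
    simp only [← hn, Fin.sum_univ_three, Fin.isValue, Fin.reduceEq, if_false, if_true] at h4
    simp only [Fintype.card_fin, Fin.sum_univ_three]
    omega
  · intro l h
    exact absurd h (hζne l)
  · intro l w hw
    apply hnd l
    intro j
    have := hw j
    rwa [if_neg (hζne l), add_zero] at this
  · intro l j
    rw [if_neg (hζne l), add_zero]
    exact hsol l j
  · intro i k hik hη
    have h4 : u i = u k := by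
      rw [hik] at hη
      exact sub_left_injective hη
    have h5 := @hui (l' k) ⟨i, hik⟩ ⟨k, rfl⟩ h4
    exact congrArg Subtype.val h5
  · intro i
    by_cases hl2 : l' i = 2
    · right; left
      refine ⟨hζne _, ?_, ?_⟩
      · rw [hl2]; exact hzd'
      · obtain ⟨he0, ε, hε⟩ := heven (l' i) hl2
        refine ⟨ε.symm ⟨i, rfl⟩, ?_⟩
        rw [hε, Equiv.apply_symm_apply, he0, sub_zero]
    · left
      obtain ⟨a1, a2, a3⟩ := (hodd (l' i) hl2).2 ⟨i, rfl⟩
      refine ⟨hζne _, ?_, a1, ?_, a3⟩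
      · have : l' i = 0 ∨ l' i = 1 := by
          revert hl2
          generalize l' i = a
          fin_cases a <;> simp
        rcases this with h | h
        · rw [h]; exact hs
        · rw [h]
          change (-s) ^ 2 = _
          rw [neg_sq, hs]
      · rw [hsumc, mul_zero, add_zero]
        exact a2
  · intro σ l j
    obtain ⟨m, hm, _⟩ := hGal σ l
    obtain ⟨k, hk⟩ := (hkey σ l m hm).2 j
    exact ⟨m, k, hm, hk⟩
  · intro σ i
    obtain ⟨π, hπ⟩ := exists_perm hF hx σ
    have hσa : ∀ (Q : K[X]) (i : I), σ (aeval (x i) Q) = aeval (x (π i)) Q := by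
      intro Q i
      rw [← hπ i]
      exact (aeval_algHom_apply (σ : Cl →ₐ[K] Cl) (x i) Q).symm
    have h4 : σ (ζ (l' i)) = ζ (l' (π i)) := by
      rw [← hl', ← hl', hσa]
    refine ⟨π i, h4, ?_, hπ i⟩
    rw [map_sub, (hkey σ _ _ h4).1, hσa]

end Pool.Agent.Lib.MP_12adaf_nt
end
end
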