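import Mathlib
import Pool.Agent.Lib.MP_12adaf_nt.CaseA

section

/-!
# Pairs `f' g - f g' = 2 X h^2`
-/

namespace Pool.Agent.Lib.MP_12adaf_nt

set_option linter.unusedSectionVars false
set_option linter.unusedVariables false

open Finset Polynomial

/-- A nondegenerate pair with `f' g - f g' = 2 X h^2`. -/
structure WP {L : Type*} [Field L] (f g h : L[X]) : Prop where
  fm : f.Monic
  gm : g.Monic
  hm : h.Monic
  gsep : g.Separable
  g0 : g.eval 0 ≠ 0
  deg : f.natDegree = g.natDegree + 2
  degh : h.natDegree = g.natDegree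
  wr : derivative f * g - f * derivative g = 2 * X * h ^ 2
  cop : IsCoprime h f
  cork : ∀ P : L[X], P.degree < f.degree → f ∣ derivative P * h - P * derivative h →
    ∃ r : L, P = C r * h

namespace WP

variable {L : Type*} [Field L] [CharZero L] {β : Type*} [Fintype β] [DecidableEq β]
  {f h : L[X]} {v : β → L}

lemma v_inj (H : WP f (nod v) h) : Function.Injective v := by
  have := H.gsep
  rw [nod] at this
  exact separable_prod_X_sub_C_iff.mp this

lemma v_ne (H : WP f (nod v) h) (j : β) : v j ≠ 0 := by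
  intro h0
  have h1 := eval_nod_self v j
  rw [h0] at h1
  exact H.g0 h1

lemma not_both (H : WP f (nod v) h) {x : L} (h1 : f.eval x = 0) (h2 : h.eval x = 0) : False := by
  obtain ⟨p, q, hpq⟩ := H.cop
  have := congrArg (eval x) hpq
  simp [h1, h2] at this

lemma eval_sq (H : WP f (nod v) h) (j : β) :
    2 * v j * h.eval (v j) ^ 2 = - (f.eval (v j) * (derivative (nod v)).eval (v j)) := by
  have h1 := congrArg (eval (v j)) H.wr
  simp only [eval_sub, eval_mul, eval_pow, eval_nod_self, mul_zero, zero_sub, eval_X,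
    eval_ofNat] at h1
  exact h1.symm

lemma eval_f_ne (H : WP f (nod v) h) (j : β) : f.eval (v j) ≠ 0 := by
  intro h0
  have h1 := H.eval_sq j
  rw [h0, zero_mul, neg_zero] at h1
  have h2 : h.eval (v j) = 0 := by
    by_contra h3
    exact mul_ne_zero (mul_ne_zero two_ne_zero (H.v_ne j)) (pow_ne_zero 2 h3) h1
  exact H.not_both h0 h2

lemma dg_ne (H : WP f (nod v) h) (j : β) : (derivative (nod v)).eval (v j) ≠ 0 :=
  eval_derivative_nod_ne_zero v H.v_inj j

lemma eval_h_ne (H : WP f (nod v) h) (j : β) : h.eval (v j) ≠ 0 := by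
  intro h0
  have h1 := H.eval_sq j
  rw [h0] at h1
  have h2 : f.eval (v j) * (derivative (nod v)).eval (v j) = 0 := by linear_combination h1
  exact (mul_ne_zero (H.eval_f_ne j) (H.dg_ne j)) h2

lemma res_ne (H : WP f (nod v) h) (j : β) : MP.res h v j ≠ 0 :=
  div_ne_zero (H.eval_h_ne j) (H.dg_ne j)

lemma res_mul (H : WP f (nod v) h) (j : β) :
    MP.res h v j * (derivative (nod v)).eval (v j) = h.eval (v j) :=
  div_mul_cancel₀ _ (H.dg_ne j)

lemma wr' (H : WP f (nod v) h) :
    derivative (derivative f) * nod v - f * derivative (derivative (nod v)) =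
      2 * h ^ 2 + 4 * X * h * derivative h := by
  have := congrArg derivative H.wr
  simp only [derivative_sub, derivative_mul, derivative_pow, Nat.cast_ofNat, derivative_X,
    Nat.add_one_sub_one, pow_one, derivative_ofNat, zero_mul, zero_add, mul_one] at this
  have e : (C (2:L) : L[X]) = 2 := rfl
  rw [e] at this
  linear_combination this

lemma key_v (H : WP f (nod v) h) (j : β) :
    v j * h.eval (v j) * (derivative (derivative (nod v))).eval (v j) =
      h.eval (v j) * (derivative (nod v)).eval (v j) +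
      2 * v j * (derivative h).eval (v j) * (derivative (nod v)).eval (v j) := by
  have h1 := congrArg (eval (v j)) H.wr'
  simp only [eval_sub, eval_add, eval_mul, eval_pow, eval_X, eval_nod_self, mul_zero, zero_sub,
    eval_ofNat] at h1
  have h2 := H.eval_sq j
  apply mul_left_cancel₀ (mul_ne_zero (two_ne_zero (α := L)) (H.eval_h_ne j))
  linear_combination (derivative (derivative (nod v))).eval (v j) * h2 +
    (derivative (nod v)).eval (v j) * h1

lemma card_eq (H : WP f (nod v) h) : h.natDegree = Fintype.card β := by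
  rw [H.degh, natDegree_nod]

lemma h_eq (H : WP f (nod v) h) : h = hR v (MP.res h v) := by
  have hdeg : (h - nod v).degree < Fintype.card β := by
    have h1 : h.degree = Fintype.card β := by
      rw [degree_eq_natDegree H.hm.ne_zero, H.card_eq]
    have h2 : (nod v).degree = Fintype.card β := by
      rw [degree_eq_natDegree (nod_monic v).ne_zero, natDegree_nod]
    have := degree_sub_lt_left (p := h) (q := nod v) (by rw [h1, h2]) H.hm.ne_zero
      (by rw [H.hm.leadingCoeff, (nod_monic v).leadingCoeff])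
    rwa [h1] at this
  have h3 := eq_sum_nodE H.v_inj hdeg
  have h4 : ∀ l, (h - nod v).eval (v l) / (derivative (nod v)).eval (v l) = MP.res h v l := by
    intro l
    rw [eval_sub, eval_nod_self, sub_zero, MP.res]
  simp only [h4] at h3
  rw [hR, ← h3]; ring

lemma eval_dh (H : WP f (nod v) h) (j : β) :
    (derivative h).eval (v j) = (derivative (nod v)).eval (v j) +
      ((derivative (nod v)).eval (v j) * cauchySum v (MP.res h v) (v j) +
      MP.res h v j * ((derivative (derivative (nod v))).eval (v j) / 2)) := by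
  conv_lhs => rw [H.h_eq]
  rw [hR, derivative_add, eval_add, eval_derivative_sum_nodE H.v_inj]

lemma wcond (H : WP f (nod v) h) : WCond v (MP.res h v) := by
  intro j
  have h1 := H.eval_dh j
  have h2 := H.key_v j
  have h3 := H.res_mul j
  have h4 := H.dg_ne j
  have h5 := H.v_ne j
  have h6 : (derivative (nod v)).eval (v j) ^ 2 *
      (MP.res h v j + 2 * v j * (cauchySum v (MP.res h v) (v j) + 1)) = 0 := by
    rw [h1, ← h3] at h2
    linear_combination -h2
  have h7 := (mul_eq_zero.mp h6).resolve_left (pow_ne_zero 2 h4)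
  field_simp
  linear_combination h7

lemma cauchy_res (H : WP f (nod v) h) (j : β) :
    cauchySum v (MP.res h v) (v j) + MP.res h v j / (2 * v j) = -1 := by
  have := H.wcond j
  linear_combination this

lemma fR_eq (v c : β → L) (t : L) : fR v c t = fR v c 0 - nod v * C t := by
  rw [fR, fR, C_0]; ring

lemma f_eq (H : WP f (nod v) h) : f = fR v (MP.res h v) (MP.shift f (nod v)) := by
  set c := MP.res h v with hc
  have hv := H.v_inj
  have hne : nod v ≠ 0 := (nod_monic v).ne_zero
  have h1 := wronskian_fR hv H.v_ne H.wcond 0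
  rw [← hc, hc, ← H.h_eq, ← hc] at h1
  have h2 : derivative (f - fR v c 0) * nod v = (f - fR v c 0) * derivative (nod v) := by
    rw [derivative_sub]
    linear_combination H.wr - h1
  have hcop : IsCoprime (nod v) (derivative (nod v)) := H.gsep
  obtain ⟨s, hs⟩ : nod v ∣ f - fR v c 0 :=
    hcop.dvd_of_dvd_mul_right ⟨_, by rw [← h2]; ring⟩
  have h3 : derivative s = 0 := by
    rw [hs, derivative_mul] at h2
    have h4 : nod v ^ 2 * derivative s = 0 := by linear_combination h2
    exact (mul_eq_zero.mp h4).resolve_left (pow_ne_zero 2 hne)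
  have h4 : s = C (s.coeff 0) := eq_C_of_natDegree_eq_zero
    (derivative_eq_zero.mp h3)
  set a := s.coeff 0 with ha
  have h5 : f = fR v c (-a) := by
    rw [fR_eq, C_neg]
    rw [h4] at hs
    linear_combination hs
  have h6 : f /ₘ nod v = X ^ 2 + C (4 * ∑ j, c j) * X - C (-a) := by
    have hlt : (-∑ j, C (2 * c j ^ 2 * v j) * nodE v j).degree < (nod v).degree := by
      rw [degree_neg, degree_eq_natDegree hne, natDegree_nod]
      exact degree_sum_nodE_lt v _
    exact (div_modByMonic_unique _ _ (nod_monic v) ⟨by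
      conv_rhs => rw [h5, fR]
      ring, hlt⟩).1
  have h7 : MP.shift f (nod v) = -a := by
    rw [MP.shift, h6]
    simp
  rw [h7]
  exact h5

lemma root_eq (H : WP f (nod v) h) {x : L} (hx : f.eval x = 0) :
    (∀ j, x ≠ v j) ∧ x ^ 2 + 4 * (∑ j, MP.res h v j) * x - MP.shift f (nod v) -
      ∑ j, 2 * MP.res h v j ^ 2 * v j / (x - v j) = 0 ∧
      1 + ∑ j, MP.res h v j / (x - v j) ≠ 0 := by
  have hne : ∀ j, x ≠ v j := fun j hj => H.eval_f_ne j (hj ▸ hx)
  have hG : (nod v).eval x ≠ 0 := fun h0 => by
    obtain ⟨j, hj⟩ := (eval_nod_eq_zero_iff v x).mp h0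
    exact hne j hj
  refine ⟨hne, ?_, ?_⟩
  · have h1 := hx
    rw [H.f_eq, eval_fR _ _ _ _ hne] at h1
    exact (mul_eq_zero.mp h1).resolve_left hG
  · intro h0
    have h1 : h.eval x = 0 := by
      rw [H.h_eq, eval_hR _ _ _ hne, cauchySum, h0, mul_zero]
    exact H.not_both hx h1

/-- Polarised partial fraction identity. -/
lemma polar {c w : β → L} (hv : Function.Injective v) (hv0 : ∀ j, v j ≠ 0)
    (hc : WCond v c) (hw : ∀ j, w j / (2 * v j) + cauchySum v w (v j) = 0) {z : L}
    (hz : ∀ j, z ≠ v j) :
    z * (1 + cauchySum v c z) * cauchySum v w z =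
      ∑ j, w j + ∑ j, c j * w j * v j / (z - v j) ^ 2 := by
  have h1 := mul_sq_cauchySum v c hv 1 z (fun j _ => hz j)
  have h2 := mul_sq_cauchySum v w hv 0 z (fun j _ => hz j)
  have h3 := mul_sq_cauchySum v (fun j => c j + w j) hv 1 z (fun j _ => hz j)
  have hadd : ∀ y, cauchySum v (fun j => c j + w j) y = cauchySum v c y + cauchySum v w y := by
    intro y; simp [cauchySum, add_div, Finset.sum_add_distrib]
  have k1 : ∀ j, c j ^ 2 + 2 * c j * (1 + cauchySum v c (v j)) * v j = 0 := fun j =>
    hc.key hv0 j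
  have k2 : ∀ j, w j ^ 2 + 2 * w j * cauchySum v w (v j) * v j = 0 := by
    intro j
    have h4 : cauchySum v w (v j) = -(w j / (2 * v j)) := by linear_combination hw j
    rw [h4]
    have := hv0 j
    field_simp
    ring
  have k3 : ∀ j, (c j + w j) ^ 2 + 2 * (c j + w j) *
      (1 + (cauchySum v c (v j) + cauchySum v w (v j))) * v j = 0 := by
    intro j
    have h4 : cauchySum v w (v j) = -(w j / (2 * v j)) := by linear_combination hw j
    have h5 : cauchySum v c (v j) = -1 - c j / (2 * v j) := by linear_combination hc j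
    rw [h4, h5]
    have := hv0 j
    field_simp
    ring
  simp only [hadd, zero_add] at h1 h2 h3
  simp only [k1, k2, k3, zero_div, zero_add] at h1 h2 h3
  have h4 : ∑ j, (c j + w j) ^ 2 * v j / (z - v j) ^ 2 = ∑ j, c j ^ 2 * v j / (z - v j) ^ 2 +
      ∑ j, w j ^ 2 * v j / (z - v j) ^ 2 + 2 * ∑ j, c j * w j * v j / (z - v j) ^ 2 := by
    rw [Finset.mul_sum, ← Finset.sum_add_distrib, ← Finset.sum_add_distrib]
    refine Finset.sum_congr rfl fun j _ => ?_
    ring
  rw [h4, Finset.sum_add_distrib] at h3
  have h5 : 2 * (z * (1 + cauchySum v c z) * cauchySum v w z) =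
      2 * (∑ j, w j + ∑ j, c j * w j * v j / (z - v j) ^ 2) := by
    linear_combination h3 - h1 - h2
  exact mul_left_cancel₀ two_ne_zero h5

lemma X_h_W (H : WP f (nod v) h) {w : β → L}
    (hw : ∀ j, w j / (2 * v j) + cauchySum v w (v j) = 0) :
    X * h * (∑ j, C (w j) * nodE v j) = C (∑ j, w j) * nod v ^ 2 +
      ∑ j, C (MP.res h v j * w j * v j) * nodE v j ^ 2 := by
  have hne : nod v ≠ 0 := (nod_monic v).ne_zero
  apply mul_left_cancel₀ hne
  apply Polynomial.funext
  intro z
  rw [eval_mul, eval_mul (p := nod v) (q := C (∑ j, w j) * nod v ^ 2 +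
      ∑ j, C (MP.res h v j * w j * v j) * nodE v j ^ 2)]
  by_cases hz : (nod v).eval z = 0
  · rw [hz, zero_mul, zero_mul]
  congr 1
  have hz' : ∀ j, z ≠ v j := fun j h' => hz ((eval_nod_eq_zero_iff v z).mpr ⟨j, h'⟩)
  have h1 := polar H.v_inj H.v_ne H.wcond hw hz'
  have hH : h.eval z = (nod v).eval z * (1 + cauchySum v (MP.res h v) z) := by
    conv_lhs => rw [H.h_eq]
    exact eval_hR _ _ _ hz'
  have hW : (∑ j, C (w j) * nodE v j).eval z = (nod v).eval z * cauchySum v w z := by
    rw [eval_finsetSum, cauchySum, Finset.mul_sum]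
    refine Finset.sum_congr rfl fun j _ => ?_
    rw [eval_mul, eval_C, eval_nodE_eq_div v j z (hz' j)]
    ring
  have h2 : (∑ j, C (MP.res h v j * w j * v j) * nodE v j ^ 2).eval z =
      (nod v).eval z ^ 2 * ∑ j, MP.res h v j * w j * v j / (z - v j) ^ 2 := by
    rw [eval_finsetSum, Finset.mul_sum]
    refine Finset.sum_congr rfl fun j _ => ?_
    rw [eval_mul, eval_pow, eval_C, eval_nodE_eq_div v j z (hz' j), div_pow]
    ring
  rw [eval_mul, eval_mul, eval_X, hH, hW, eval_add, eval_mul, eval_pow, eval_C, h2]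
  linear_combination (nod v).eval z ^ 2 * h1

theorem nondeg (H : WP f (nod v) h) : WNondeg v := by
  intro w hw
  set W : L[X] := ∑ j, C (w j) * nodE v j with hW
  set Psi : L[X] := ∑ j, C (MP.res h v j * w j * v j) * nodE v j -
    C (∑ j, w j) * X * nod v with hPsi
  have hWb : ∀ j, W.eval (v j) = w j * (derivative (nod v)).eval (v j) := eval_sum_nodE v w
  have hPb : ∀ j, Psi.eval (v j) =
      MP.res h v j * w j * v j * (derivative (nod v)).eval (v j) := by
    intro j
    rw [hPsi, eval_sub, eval_mul, eval_nod_self, mul_zero, sub_zero]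
    exact eval_sum_nodE v (fun j => MP.res h v j * w j * v j) j
  have hI1 : derivative Psi * nod v - Psi * derivative (nod v) = - (X * h * W) := by
    rw [hW, H.X_h_W hw, hPsi]
    have h1 : derivative (∑ j, C (MP.res h v j * w j * v j) * nodE v j) * nod v -
        (∑ j, C (MP.res h v j * w j * v j) * nodE v j) * derivative (nod v) =
        - ∑ j, C (MP.res h v j * w j * v j) * nodE v j ^ 2 := by
      rw [derivative_sum, Finset.sum_mul, Finset.sum_mul,
        ← Finset.sum_sub_distrib, ← Finset.sum_neg_distrib]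
      refine Finset.sum_congr rfl fun j _ => ?_
      rw [derivative_mul, derivative_C, ← derivative_nodE_mul v j]
      ring
    rw [derivative_sub, derivative_mul, derivative_mul, derivative_C, derivative_X]
    linear_combination h1
  -- the quotient `Q`
  obtain ⟨Q, hQ⟩ : nod v ∣ derivative W * h - W * derivative h := by
    apply nod_dvd_of_eval H.v_inj
    intro j
    have h1 : (derivative W).eval (v j) = (derivative (nod v)).eval (v j) *
        cauchySum v w (v j) +
        w j * ((derivative (derivative (nod v))).eval (v j) / 2) := by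
      rw [hW, eval_derivative_sum_nodE H.v_inj]
    have h2 := H.eval_dh j
    have h3 := H.res_mul j
    have h4 : cauchySum v w (v j) = -(w j / (2 * v j)) := by linear_combination hw j
    have h5 : cauchySum v (MP.res h v) (v j) = -1 - MP.res h v j / (2 * v j) := by
      linear_combination H.wcond j
    rw [eval_sub, eval_mul, eval_mul, h1, h2, hWb, ← h3, h4, h5]
    ring
  obtain ⟨V, hV⟩ : nod v ∣ f * W + 2 * h * Psi := by
    apply nod_dvd_of_eval H.v_inj
    intro j
    rw [eval_add, eval_mul, eval_mul, eval_mul, hWb, hPb, eval_ofNat]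
    have h1 := H.eval_sq j
    have h2 := H.res_mul j
    linear_combination (w j) * h1 + 2 * h.eval (v j) * w j * v j * h2
  have hbne : nod v ≠ 0 := (nod_monic v).ne_zero
  have hVeq : derivative V * h - V * derivative h = f * Q := by
    apply mul_left_cancel₀ (pow_ne_zero 2 hbne)
    have hV' := congrArg derivative hV
    simp only [derivative_add, derivative_mul, derivative_ofNat, zero_mul, zero_add] at hV'
    linear_combination (-(nod v) * h) * hV' + (derivative (nod v) * h + nod v * derivative h) * hV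
      + (h * W) * H.wr + (nod v * f) * hQ + 2 * h ^ 2 * hI1
  have hWdeg : W.degree < (nod v).degree := by
    rw [degree_eq_natDegree hbne, natDegree_nod]
    exact degree_sum_nodE_lt v w
  have hfdeg : f.degree = ((Fintype.card β + 2 : ℕ) : WithBot ℕ) := by
    rw [degree_eq_natDegree H.fm.ne_zero, H.deg, natDegree_nod]
  have hbdeg : (nod v).degree = ((Fintype.card β : ℕ) : WithBot ℕ) := by
    rw [degree_eq_natDegree hbne, natDegree_nod]
  have hHdeg : h.degree = ((Fintype.card β : ℕ) : WithBot ℕ) := by
    rw [degree_eq_natDegree H.hm.ne_zero, H.card_eq]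
  have hVdeg : V.degree < f.degree := by
    by_cases hV0 : V = 0
    · rw [hV0, degree_zero, hfdeg]; exact WithBot.bot_lt_coe _
    have h1 : (nod v * V).natDegree = Fintype.card β + V.natDegree := by
      rw [natDegree_mul hbne hV0, natDegree_nod]
    have hW1 : W.natDegree < Fintype.card β ∨ W = 0 := by
      by_cases hW0 : W = 0
      · exact Or.inr hW0
      · left
        rw [hbdeg, degree_eq_natDegree hW0] at hWdeg
        exact_mod_cast hWdeg
    have hP1 : Psi.natDegree ≤ Fintype.card β + 1 := by
      rw [hPsi]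
      refine (natDegree_sub_le _ _).trans (max_le ?_ ?_)
      · apply natDegree_le_of_degree_le
        refine (degree_sum_nodE_lt v _).le.trans ?_
        exact_mod_cast Nat.le_succ _
      · refine natDegree_mul_le.trans ?_
        rw [natDegree_nod]
        have : (C (∑ j, w j) * X).natDegree ≤ 1 := by
          refine natDegree_mul_le.trans ?_
          rw [natDegree_C, zero_add]
          exact natDegree_X_le
        omega
    have h2 : (f * W + 2 * h * Psi).natDegree < 2 * Fintype.card β + 2 := by
      refine lt_of_le_of_lt (natDegree_add_le _ _) (max_lt ?_ ?_)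
      · rcases hW1 with hW1 | hW1
        · refine lt_of_le_of_lt natDegree_mul_le ?_
          rw [H.deg, natDegree_nod]; omega
        · rw [hW1]; simp
      · have h3 : (2 * h).natDegree ≤ Fintype.card β := by
          refine natDegree_mul_le.trans ?_
          rw [H.card_eq, show (2 : L[X]) = C 2 from rfl, natDegree_C, zero_add]
        refine lt_of_le_of_lt natDegree_mul_le ?_
        omega
    rw [hV, h1] at h2
    rw [hfdeg, degree_eq_natDegree hV0]
    exact_mod_cast (by omega : V.natDegree < Fintype.card β + 2)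
  obtain ⟨r, hr⟩ := H.cork V hVdeg ⟨Q, hVeq⟩
  have hdvd : h ∣ f * W := by
    refine ⟨nod v * C r - 2 * Psi, ?_⟩
    rw [hr] at hV
    linear_combination hV
  have hdvd2 : h ∣ W := H.cop.dvd_of_dvd_mul_left hdvd
  have hW0 : W = 0 := by
    apply eq_zero_of_dvd_of_degree_lt hdvd2
    rw [hHdeg, ← hbdeg]; exact hWdeg
  ext j
  have h1 := hWb j
  rw [hW0, eval_zero] at h1
  exact (mul_eq_zero.mp h1.symm).resolve_right (H.dg_ne j)

end WP

end Pool.Agent.Lib.MP_12adaf_nt
end

section

/-!
# Substituting `X^2` in a Mestre pair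
-/

namespace Pool.Agent.Lib.MP_12adaf_nt

set_option linter.unusedSectionVars false
set_option linter.unusedVariables false

open Finset Polynomial

section Parity

variable {L : Type*} [Field L]

lemma parity_decomp (P : L[X]) :
    P = expand L 2 (contract 2 P) + X * expand L 2 (contract 2 P.divX) := by
  ext n
  rw [coeff_add]
  rcases Nat.even_or_odd' n with ⟨k, rfl | rfl⟩
  · rw [coeff_expand_mul' two_pos, coeff_contract two_ne_zero]
    have h1 : (X * expand L 2 (contract 2 P.divX)).coeff (2 * k) = 0 := by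
      rcases k with _ | k
      · simp
      · rw [show 2 * (k + 1) = (2 * k + 1) + 1 by ring, coeff_X_mul, coeff_expand two_pos,
          if_neg (by omega)]
    rw [h1, add_zero, mul_comm]
  · rw [coeff_X_mul, coeff_expand_mul' two_pos, coeff_contract two_ne_zero, coeff_divX,
      coeff_expand two_pos, if_neg (by omega), zero_add, mul_comm]

lemma parity_unique {a b c e : L[X]}
    (h : expand L 2 a + X * expand L 2 b = expand L 2 c + X * expand L 2 e) :
    a = c ∧ b = e := by
  constructor
  · ext k
    have h1 := congrArg (fun q => q.coeff (2 * k)) h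
    simp only [coeff_add] at h1
    rw [coeff_expand_mul' two_pos, coeff_expand_mul' two_pos] at h1
    have h2 : ∀ q : L[X], (X * expand L 2 q).coeff (2 * k) = 0 := by
      intro q
      rcases k with _ | k
      · simp
      · rw [show 2 * (k + 1) = (2 * k + 1) + 1 by ring, coeff_X_mul, coeff_expand two_pos,
          if_neg (by omega)]
    rwa [h2, h2, add_zero, add_zero] at h1
  · ext k
    have h1 := congrArg (fun q => q.coeff (2 * k + 1)) h
    simp only [coeff_add] at h1
    rw [coeff_X_mul, coeff_X_mul, coeff_expand_mul' two_pos, coeff_expand_mul' two_pos,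
      coeff_expand two_pos, coeff_expand two_pos, if_neg (by omega), if_neg (by omega),
      zero_add, zero_add] at h1
    exact h1

lemma expand_dvd {a c e : L[X]} (h : expand L 2 a ∣ expand L 2 c + X * expand L 2 e) :
    a ∣ c ∧ a ∣ e := by
  obtain ⟨Q, hQ⟩ := h
  rw [parity_decomp Q] at hQ
  have h1 : expand L 2 c + X * expand L 2 e = expand L 2 (a * contract 2 Q) +
      X * expand L 2 (a * contract 2 Q.divX) := by
    rw [hQ, map_mul, map_mul]; ring
  obtain ⟨h2, h3⟩ := parity_unique h1
  exact ⟨⟨_, h2⟩, ⟨_, h3⟩⟩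

end Parity

theorem WP_of_MP {L : Type*} [Field L] [CharZero L] {β : Type*} [Fintype β] [DecidableEq β]
    {u : β → L} {G H : L[X]} (h : MP (nod u) G H) (hu : WNondeg u) (hu0 : ∀ j, u j ≠ 0)
    (hG0 : G.eval 0 ≠ 0) : WP (expand L 2 (nod u)) (expand L 2 G) (expand L 2 H) := by
  have hfinj : Function.Injective u := by
    have := h.fsep
    rw [nod] at this
    exact separable_prod_X_sub_C_iff.mp this
  have hd : ∀ P : L[X], derivative (expand L 2 P) = 2 * X * expand L 2 (derivative P) := by
    intro P
    rw [derivative_expand]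
    norm_num
    ring
  refine ⟨h.fm.expand two_pos, h.Gm.expand two_pos, h.Hm.expand two_pos, ?_, ?_, ?_, ?_, ?_,
    ?_, ?_⟩
  · -- separability
    rw [separable_def, hd]
    have h1 : IsCoprime (expand L 2 G) (expand L 2 (derivative G)) :=
      (isCoprime_expand two_ne_zero).mpr h.Gsep
    have h2 : IsCoprime (expand L 2 G) X := by
      rw [isCoprime_comm, irreducible_X.coprime_iff_not_dvd, X_dvd_iff, coeff_zero_eq_eval_zero,
        expand_eval]
      simpa using hG0
    have h3 : IsCoprime (expand L 2 G) (2 : L[X]) := by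
      have : IsUnit (2 : L[X]) := by
        rw [show (2 : L[X]) = C 2 from rfl, isUnit_C]
        exact isUnit_iff_ne_zero.mpr two_ne_zero
      obtain ⟨t, ht⟩ := this
      exact ⟨0, ↑t⁻¹, by rw [← ht]; simp⟩
    exact IsCoprime.mul_right (IsCoprime.mul_right h3 h2) h1
  · rw [expand_eval]
    simpa using hG0
  · rw [natDegree_expand, natDegree_expand, h.deg]; ring
  · rw [natDegree_expand, natDegree_expand, h.degH]
  · rw [hd, hd]
    have h1 := congrArg (expand L 2) h.wr
    simp only [map_sub, map_mul, map_pow] at h1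
    linear_combination 2 * X * h1
  · exact (isCoprime_expand two_ne_zero).mpr h.cop
  · intro P hP hdvd
    set A := contract 2 P with hA
    set B := contract 2 P.divX with hB
    have hPAB : P = expand L 2 A + X * expand L 2 B := parity_decomp P
    have hm : (expand L 2 (nod u)).degree = ((2 * Fintype.card β : ℕ) : WithBot ℕ) := by
      rw [degree_eq_natDegree (h.fm.expand two_pos).ne_zero, natDegree_expand, natDegree_nod,
        mul_comm]
    have hcoef : ∀ k, 2 * Fintype.card β ≤ k → P.coeff k = 0 := by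
      rw [hm] at hP
      intro k hk
      exact coeff_eq_zero_of_degree_lt (hP.trans_le (by exact_mod_cast hk))
    have hAdeg : A.degree < (nod u).degree := by
      rw [degree_eq_natDegree (nod_monic u).ne_zero, natDegree_nod, degree_lt_iff_coeff_zero]
      intro k hk
      rw [hA, coeff_contract two_ne_zero]
      apply hcoef
      omega
    have hBdeg : B.degree < Fintype.card β := by
      rw [degree_lt_iff_coeff_zero]
      intro k hk
      rw [hB, coeff_contract two_ne_zero, coeff_divX]
      apply hcoef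
      omega
    have hkey : derivative P * expand L 2 H - P * derivative (expand L 2 H) =
        expand L 2 (B * H + 2 * X * (derivative B * H - B * derivative H)) +
        X * expand L 2 (2 * (derivative A * H - A * derivative H)) := by
      rw [hPAB, derivative_add, derivative_mul, derivative_X, hd, hd, hd]
      simp only [map_add, map_mul, map_sub, expand_X, map_ofNat]
      ring
    rw [hkey] at hdvd
    obtain ⟨hB1, hA1⟩ := expand_dvd hdvd
    have h2u : IsUnit (2 : L[X]) := by
      rw [show (2 : L[X]) = C 2 from rfl, isUnit_C]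
      exact isUnit_iff_ne_zero.mpr two_ne_zero
    have hA2 : nod u ∣ derivative A * H - A * derivative H := h2u.dvd_mul_left.mp hA1
    obtain ⟨r, hr⟩ := h.cork A hAdeg hA2
    have hB0 : B = 0 := by
      have hfu : ∀ i, (derivative (nod u)).eval (u i) ≠ 0 :=
        eval_derivative_nod_ne_zero u hfinj
      have hHu : ∀ i, H.eval (u i) ≠ 0 := by
        intro i h0
        obtain ⟨p, q, hpq⟩ := h.cop
        have := congrArg (eval (u i)) hpq
        simp [h0, eval_nod_self] at this
      have hBsum := eq_sum_nodE hfinj hBdeg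
      set w : β → L := fun l => B.eval (u l) / (derivative (nod u)).eval (u l) with hw
      have hBu : ∀ i, B.eval (u i) = w i * (derivative (nod u)).eval (u i) := by
        intro i
        rw [hw]
        exact (div_mul_cancel₀ _ (hfu i)).symm
      have hB' : ∀ i, (derivative B).eval (u i) = (derivative (nod u)).eval (u i) *
          cauchySum u w (u i) + w i * ((derivative (derivative (nod u))).eval (u i) / 2) := by
        intro i
        conv_lhs => rw [hBsum]
        exact eval_derivative_sum_nodE hfinj w i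
      have hw0 : w = 0 := by
        apply hu
        intro i
        obtain ⟨Q, hQ⟩ := hB1
        have h1 := congrArg (eval (u i)) hQ
        simp only [eval_add, eval_sub, eval_mul, eval_X, eval_ofNat, eval_nod_self, zero_mul]
          at h1
        obtain ⟨Q', hQ'⟩ := h.key_f
        have h2 := congrArg (eval (u i)) hQ'
        simp only [eval_sub, eval_mul, eval_ofNat, eval_nod_self, zero_mul] at h2
        rw [hBu, hB'] at h1
        have h3 : (derivative (nod u)).eval (u i) * H.eval (u i) *
            (w i + 2 * u i * cauchySum u w (u i)) = 0 := by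
          linear_combination h1 - u i * w i * h2
        have h4 := (mul_eq_zero.mp h3).resolve_left (mul_ne_zero (hfu i) (hHu i))
        have h5 := hu0 i
        field_simp
        linear_combination h4
      have h6 : ∀ l, B.eval (u l) / (derivative (nod u)).eval (u l) = 0 := fun l =>
        congrFun hw0 l
      rw [hBsum]
      simp only [h6]
      simp
    refine ⟨r, ?_⟩
    rw [hPAB, hB0, hr, map_zero, mul_zero, add_zero, map_mul, expand_C]

end Pool.Agent.Lib.MP_12adaf_nt
end

section

/-!
# A quadratic extension of an odd degree algebra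
-/

namespace Pool.Agent.Lib.MP_12adaf_nt

set_option linter.unusedSectionVars false
set_option linter.unusedVariables false

open Finset Polynomial Filter Topology

lemma blockMain {L : Type*} [Field L] [CharZero L] [IsAlgClosed L] {A : Type*} [Fintype A]
    [DecidableEq A] {u : A → L} {i0 : A} (hodd : Odd (Fintype.card A)) (h1 : cert1 i0 u ≠ 0)
    (h3 : cert3 u ≠ 0) (h4 : cert4 i0 u ≠ 0) {n : ℕ} (hn : n + 2 = 2 * Fintype.card A) :
    ∃ (v : Fin n → L) (G H : L[X]), MP (nod u) G H ∧ nod v = expand L 2 G ∧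
      WP (expand L 2 (nod u)) (nod v) (expand L 2 H) := by
  obtain ⟨r, H, hr, hM⟩ := MP_of_cert' hodd h1
  obtain ⟨hu0, hW⟩ := WNondeg_of_cert h3
  have hG0 : (C r * GR u (vT i0 u)).eval 0 ≠ 0 := by
    rw [eval_mul, eval_C]
    exact mul_ne_zero hr h4
  have W := WP_of_MP hM hW hu0 hG0
  have hdeg : (expand L 2 (C r * GR u (vT i0 u))).natDegree = n := by
    have h5 := hM.deg
    rw [natDegree_nod] at h5
    rw [natDegree_expand]
    omega
  obtain ⟨v, hv, hv'⟩ := exists_nod (RingHom.id L) W.gm hdeg W.gsep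
  rw [Polynomial.map_id] at hv'
  refine ⟨v, _, H, hM, hv'.symm, ?_⟩
  rw [← hv']
  exact W

lemma sum_sq_fixed {L : Type*} [Field L] {β : Type*} [Fintype β] [DecidableEq β]
    {b c : β → L} (hnd : ∀ w, CKer b w → w = 0) (hsol : ∀ j, cauchySum b c (b j) = -1)
    (σ : L ≃+* L) (π : β ≃ β) (hπ : ∀ j, σ (b j) = b (π j)) :
    σ (∑ j, c j ^ 2) = ∑ j, c j ^ 2 := by
  have h1 : (fun j => σ (c (π.symm j)) - c j) = 0 := by
    apply hnd
    intro j
    have h2 : cauchySum b (fun j => σ (c (π.symm j)) - c j) (b j) =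
        cauchySum b (fun j => σ (c (π.symm j))) (b j) - cauchySum b c (b j) := by
      simp only [cauchySum, sub_div, Finset.sum_sub_distrib]
    have h3 : cauchySum b (fun j => σ (c (π.symm j))) (b j) =
        σ (cauchySum b c (b (π.symm j))) := by
      rw [cauchySum, cauchySum, map_sum, ← Equiv.sum_comp π]
      refine Finset.sum_congr rfl fun i _ => ?_
      rw [Equiv.symm_apply_apply, map_div₀, map_sub, hπ, hπ, Equiv.apply_symm_apply]
    rw [h2, h3, hsol, hsol, map_neg, map_one, sub_self]
  rw [map_sum, ← Equiv.sum_comp π (fun j => c j ^ 2)]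
  refine Finset.sum_congr rfl fun j _ => ?_
  have h2 := congrFun h1 (π j)
  simp only [Equiv.symm_apply_apply, Pi.zero_apply] at h2
  rw [map_pow, sub_eq_zero.mp h2]

theorem locW_caseB {K Cl : Type*} [NontriviallyNormedField K] [NormedField Cl]
    [NormedAlgebra K Cl] [IsAlgClosed Cl] [IsGalois K Cl] [CharZero K] [CharZero Cl]
    (hiso : ∀ (σ : Cl ≃ₐ[K] Cl) (x : Cl), ‖σ x‖ = ‖x‖)
    {N : ℕ} {I : Type*} [Fintype I] [DecidableEq I] (hI : Fintype.card I = N + 2)
    {F : K[X]} {x : I → Cl} (hF : F.map (algebraMap K Cl) = nod x) (hx : Function.Injective x)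
    {A : Type*} [Fintype A] [DecidableEq A] {τ : A → Cl} (hτ : Function.Injective τ)
    (hA : Odd (Fintype.card A)) {z1 : K} (hz1 : z1 ≠ 0) {Z T E D : K[X]}
    (hZ : ∀ i, aeval (x i) Z = 0 ∨ aeval (x i) Z = algebraMap K Cl z1)
    (hcard : Nat.card {i // aeval (x i) Z = 0} = 2 * Fintype.card A)
    (heven : Even (Nat.card {i // aeval (x i) Z = algebraMap K Cl z1}))
    (hT : ∀ i, aeval (x i) Z = 0 → ∃ a, aeval (x i) T = τ a)
    (hsurj : ∀ a, ∃ i, aeval (x i) Z = 0 ∧ aeval (x i) T = τ a)
    (hE : ∀ i, aeval (x i) Z = 0 → aeval (x i) E ^ 2 = aeval (aeval (x i) T) D)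
    (hE0 : ∀ i, aeval (x i) Z = 0 → aeval (x i) E ≠ 0)
    (hinj : ∀ i k, aeval (x i) Z = 0 → aeval (x k) Z = 0 →
      aeval (x i) T = aeval (x k) T → aeval (x i) E = aeval (x k) E → i = k) :
    LocW N F := by
  classical
  set φ : K →+* Cl := algebraMap K Cl with hφ
  have hz1' : φ z1 ≠ 0 := (map_ne_zero φ).mpr hz1
  let ζ : Fin 2 → Cl := ![0, φ z1]
  have hζ0 : ζ 0 = 0 := rfl
  have hζ1 : ζ 1 = φ z1 := rfl
  have hζ : Function.Injective ζ := by
    intro a b hab
    fin_cases a <;> fin_cases b
    · rfl
    · exact absurd hab (Ne.symm hz1')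
    · exact absurd hab hz1'
    · rfl
  have hy : ∀ i, ∃ l, aeval (x i) Z = ζ l := by
    intro i
    rcases hZ i with h | h
    · exact ⟨0, h⟩
    · exact ⟨1, h⟩
  choose l' hl' using hy
  let U : Fin 2 → Type _ := fun l => {i : I // l' i = l}
  have hcardU : ∀ l, Nat.card {i // aeval (x i) Z = ζ l} = Fintype.card (U l) := by
    intro l
    rw [← Nat.card_eq_fintype_card]
    apply Nat.card_congr
    apply Equiv.subtypeEquivRight
    intro i
    rw [hl' i]
    exact ⟨fun h => hζ h, fun h => by rw [h]⟩
  have hc0 : Fintype.card (U 0) = 2 * Fintype.card A := by rw [← hcardU 0]; exact hcard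
  have he1 : Even (Fintype.card (U 1)) := by rw [← hcardU 1]; exact heven
  obtain ⟨i0⟩ : Nonempty A := Fintype.card_pos_iff.mp hA.pos
  have hD0 : ∀ a, aeval (τ a) D ≠ 0 := by
    intro a
    obtain ⟨i, h1, h2⟩ := hsurj a
    rw [← h2, ← hE i h1]
    exact pow_ne_zero 2 (hE0 i h1)
  -- first generic polynomial
  have hgen1 : ∃ P : K[X], cert1 i0 (fun a => aeval (τ a) (D * P ^ 2)) ≠ 0 ∧
      cert3 (fun a => aeval (τ a) (D * P ^ 2)) ≠ 0 ∧
      cert4 i0 (fun a => aeval (τ a) (D * P ^ 2)) ≠ 0 := by
    let V : A → MvPolynomial A Cl := fun a =>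
      MvPolynomial.C (aeval (τ a) D) * MvPolynomial.X a ^ 2
    have e1 : ∀ v : A → Cl, MvPolynomial.eval v (cert1 i0 V) =
        cert1 i0 (fun a => aeval (τ a) D * v a ^ 2) := by
      intro v
      rw [map_cert1]
      congr 1
      ext i
      simp [V]
    have e3 : ∀ v : A → Cl, MvPolynomial.eval v (cert3 V) =
        cert3 (fun a => aeval (τ a) D * v a ^ 2) := by
      intro v
      rw [map_cert3]
      congr 1
      ext i
      simp [V]
    have e4 : ∀ v : A → Cl, MvPolynomial.eval v (cert4 i0 V) =
        cert4 i0 (fun a => aeval (τ a) D * v a ^ 2) := by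
      intro v
      rw [map_cert4]
      congr 1
      ext i
      simp [V]
    let k : A → ℕ := fun i => (Fintype.equivFin A i : ℕ) + 1
    have hk : Function.Injective k := fun a b h =>
      (Fintype.equivFin A).injective (Fin.ext (Nat.succ_injective h))
    have hkp : ∀ a, 0 < k a := fun a => Nat.succ_pos _
    have hv : ∀ a, ∃ y : Cl, y ^ 2 = (k a : Cl) / aeval (τ a) D := fun a =>
      IsAlgClosed.exists_pow_nat_eq _ two_pos
    choose v hv using hv
    have hv' : (fun a => aeval (τ a) D * v a ^ 2) = fun a => (k a : Cl) := by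
      ext a
      rw [hv, mul_div_cancel₀ _ (hD0 a)]
    have n1 : cert1 i0 V ≠ 0 := by
      intro h
      have h4 := e1 v
      rw [h, map_zero, hv'] at h4
      exact cert1_nat_ne_zero (L := Cl) hk hA i0 h4.symm
    have n3 : cert3 V ≠ 0 := by
      intro h
      have h4 := e3 v
      rw [h, map_zero, hv'] at h4
      exact cert3_nat_ne_zero (L := Cl) hk hkp h4.symm
    have n4 : cert4 i0 V ≠ 0 := by
      intro h
      have h4 := e4 v
      rw [h, map_zero, hv'] at h4
      exact cert4_nat_ne_zero (L := Cl) hk hA hkp i0 h4.symm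
    obtain ⟨P, hP⟩ := exists_generic (K := K) hτ (mul_ne_zero (mul_ne_zero n1 n3) n4)
    rw [map_mul, map_mul, e1, e3, e4] at hP
    have e5 : (fun a => aeval (τ a) (D * P ^ 2)) =
        fun a => aeval (τ a) D * aeval (τ a) P ^ 2 := by
      ext a
      rw [map_mul, map_pow]
    refine ⟨P, ?_⟩
    rw [e5]
    exact ⟨left_ne_zero_of_mul (left_ne_zero_of_mul hP),
      right_ne_zero_of_mul (left_ne_zero_of_mul hP), right_ne_zero_of_mul hP⟩
  obtain ⟨P1, hP1, hP3, hP4⟩ := hgen1
  set u : A → Cl := fun a => aeval (τ a) (D * P1 ^ 2) with hu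
  have hu0 : ∀ a, u a ≠ 0 := (WNondeg_of_cert hP3).1
  have huinj : Function.Injective u := Del_ne_zero_iff.mp
    (left_ne_zero_of_mul (left_ne_zero_of_mul (left_ne_zero_of_mul hP1)))
  -- second generic polynomial
  have hgen2 : ∃ P : K[X], cert2 (fun i : U 1 => aeval (x i.1) P) ≠ 0 := by
    let C2 : MvPolynomial I Cl := cert2 (fun i : U 1 => MvPolynomial.X i.1)
    have e2 : ∀ v : I → Cl, MvPolynomial.eval v C2 = cert2 (fun i : U 1 => v i.1) := by
      intro v
      rw [map_cert2]
      congr 1
      ext i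
      simp
    let k : I → ℕ := fun i => (Fintype.equivFin I i : ℕ)
    have hk : Function.Injective k := fun a b h =>
      (Fintype.equivFin I).injective (Fin.ext h)
    have n2 : C2 ≠ 0 := by
      intro h
      have h4 := e2 fun i => (k i : Cl)
      rw [h, map_zero] at h4
      exact cert2_nat_ne_zero (L := Cl) (k := fun i : U 1 => k i.1)
        (fun a b hab => Subtype.ext (hk hab)) he1 h4.symm
    obtain ⟨P, hP⟩ := exists_generic (K := K) hx n2
    rw [e2] at hP
    exact ⟨P, hP⟩
  obtain ⟨P2, hP2⟩ := hgen2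
  set u1 : I → Cl := fun i => aeval (x i) P2 with hu1
  have hAcard : 1 ≤ Fintype.card A := hA.pos
  have blk : ∀ l : Fin 2, ∃ (n : ℕ) (b c : Fin n → Cl), Function.Injective b ∧
      (∀ j, c j ≠ 0) ∧
      (l = 0 → n + 2 = 2 * Fintype.card A ∧ ∃ G H : Cl[X], MP (nod u) G H ∧
        nod b = expand Cl 2 G ∧ WP (expand Cl 2 (nod u)) (nod b) (expand Cl 2 H) ∧
        c = MP.res (expand Cl 2 H) b) ∧
      (l = 1 → n = Fintype.card (U 1) ∧ (∀ w, CKer b w → w = 0) ∧
        (∀ j, cauchySum b c (b j) = -1) ∧ ∃ ε : Fin n ≃ U 1, ∀ j, b j = u1 (ε j).1) := by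
    intro l
    fin_cases l
    · obtain ⟨v, G, H, hM, hv, W⟩ := blockMain hA hP1 hP3 hP4
        (n := 2 * Fintype.card A - 2) (by omega)
      exact ⟨_, v, _, W.v_inj, W.res_ne, fun _ => ⟨by omega, G, H, hM, hv, W, rfl⟩,
        fun h => absurd h (by decide)⟩
    · obtain ⟨b, c, ε, a1, a2, a3, a4, a5⟩ := blockEven hP2 rfl
      exact ⟨_, b, c, a1, a4, fun h => absurd h (by decide), fun _ => ⟨rfl, a2, a3, ε, a5⟩⟩
  choose n b c hbi hcne hmain hfar using blk
  obtain ⟨hn0, G, H, hM, hbG, W, hc0'⟩ := hmain 0 rfl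
  obtain ⟨hn1, hnd1, hsol1, ε, hε⟩ := hfar 1 rfl
  -- Galois action
  have hσpoly : ∀ (σ : Cl ≃ₐ[K] Cl) (Q : K[X]) (y : Cl), σ (aeval y Q) = aeval (σ y) Q := by
    intro σ Q y
    exact (aeval_algHom_apply (σ : Cl →ₐ[K] Cl) y Q).symm
  have hl'σ : ∀ (σ : Cl ≃ₐ[K] Cl) (π : I ≃ I), (∀ i, σ (x i) = x (π i)) → ∀ i,
      l' (π i) = l' i := by
    intro σ π hπ i
    apply hζ
    rw [← hl', ← hπ i, ← hσpoly, hl' i]
    generalize l' i = l
    fin_cases l
    · exact map_zero σ
    · exact σ.commutes z1
  have hnodu : ∀ σ : Cl ≃ₐ[K] Cl, (nod u).map ((σ : Cl ≃+* Cl) : Cl →+* Cl) = nod u := by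
    intro σ
    obtain ⟨π, hπ⟩ := exists_perm hF hx σ
    have h1 : ∀ a, ∃ a', σ (τ a) = τ a' := by
      intro a
      obtain ⟨i, hi1, hi2⟩ := hsurj a
      have h2 : aeval (x (π i)) Z = 0 := by
        rw [← hπ i, ← hσpoly, hi1, map_zero]
      obtain ⟨a', ha'⟩ := hT (π i) h2
      refine ⟨a', ?_⟩
      rw [← ha', ← hi2, hσpoly, hπ i]
    choose ρ hρ using h1
    have hρi : Function.Injective ρ := by
      intro a a' h
      apply hτ
      apply σ.injective
      rw [hρ a, hρ a', h]
    rw [nod_map, ← nod_comp_equiv (Equiv.ofBijective ρ (Finite.injective_iff_bijective.mp hρi)) u]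
    congr 1
    ext a
    change σ (aeval (τ a) (D * P1 ^ 2)) = aeval (τ (ρ a)) (D * P1 ^ 2)
    rw [hσpoly, hρ a]
  have hnodu2 : ∀ σ : Cl ≃ₐ[K] Cl,
      (expand Cl 2 (nod u)).map ((σ : Cl ≃+* Cl) : Cl →+* Cl) = expand Cl 2 (nod u) := by
    intro σ
    rw [map_expand, hnodu σ]
  have hnodb : ∀ σ : Cl ≃ₐ[K] Cl,
      (nod (b 0)).map ((σ : Cl ≃+* Cl) : Cl →+* Cl) = nod (b 0) := by
    intro σ
    have h1 := hM.map (σ : Cl ≃+* Cl)
    rw [hnodu σ] at h1
    rw [hbG, map_expand, (hM.unique h1).1]
  have hGb0 : ∀ (σ : Cl ≃ₐ[K] Cl) (j : Fin (n 0)), ∃ k, σ (b 0 j) = b 0 k := by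
    intro σ j
    have h1 : (nod (b 0)).eval (σ (b 0 j)) = 0 := by
      rw [← hnodb σ]
      have h2 : σ (b 0 j) = ((σ : Cl ≃+* Cl) : Cl →+* Cl) (b 0 j) := rfl
      rw [h2, eval_map_apply, eval_nod_self, map_zero]
    exact (eval_nod_eq_zero_iff _ _).mp h1
  have hGb1 : ∀ (σ : Cl ≃ₐ[K] Cl), ∃ π' : Fin (n 1) ≃ Fin (n 1), ∀ j,
      σ (b 1 j) = b 1 (π' j) := by
    intro σ
    obtain ⟨π, hπ⟩ := exists_perm hF hx σ
    have h1 : ∀ i, l' i = 1 ↔ l' (π i) = 1 := by
      intro i
      rw [hl'σ σ π hπ i]
    let Eq1 : U 1 ≃ U 1 := Equiv.subtypeEquiv π h1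
    refine ⟨(ε.trans Eq1).trans ε.symm, fun j => ?_⟩
    rw [hε, hε]
    simp only [Equiv.trans_apply, Equiv.apply_symm_apply]
    change σ (aeval (x (ε j).1) P2) = aeval (x (π (ε j).1)) P2
    rw [hσpoly, hπ]
  -- the constant
  obtain ⟨t0, ht0⟩ : ∃ t0 : K, φ t0 = MP.shift (expand Cl 2 (nod u)) (nod (b 0)) +
      2 * ∑ j, c 1 j ^ 2 := by
    have h1 : MP.shift (expand Cl 2 (nod u)) (nod (b 0)) + 2 * ∑ j, c 1 j ^ 2 ∈
        Set.range (algebraMap K Cl) := by
      rw [InfiniteGalois.mem_range_algebraMap_iff_fixed]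
      intro σ
      have h2 := shift_map (f := expand Cl 2 (nod u)) (nod_monic (b 0)) (σ : Cl ≃+* Cl)
      rw [hnodu2 σ, hnodb σ] at h2
      obtain ⟨π', hπ'⟩ := hGb1 σ
      have h3 := sum_sq_fixed hnd1 hsol1 (σ : Cl ≃+* Cl) π' hπ'
      have h4 : σ (MP.shift (expand Cl 2 (nod u)) (nod (b 0))) =
        MP.shift (expand Cl 2 (nod u)) (nod (b 0)) := h2.symm
      have h5 : σ (∑ j, c 1 j ^ 2) = ∑ j, c 1 j ^ 2 := h3
      rw [map_add, map_mul, h4, h5]
      congr 2
      exact map_ofNat σ 2
    exact h1
  have hsum1 : ∑ j, c 1 j = 0 := by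
    have h4 := sum_mul_cauchySum (b 1) (c 1)
    simp only [hsol1, mul_neg, mul_one, Finset.sum_neg_distrib] at h4
    have h5 : 2 * ∑ j, c 1 j = 0 := by linear_combination -h4
    exact (mul_eq_zero.mp h5).resolve_left two_ne_zero
  let ηp : Fin 2 → K[X] := ![E * P1.comp T, P2]
  have hη0 : ∀ i, l' i = 0 → aeval (x i) (ηp (l' i)) = aeval (x i) E * aeval (aeval (x i) T) P1 := by
    intro i hi
    rw [hi]
    change aeval (x i) (E * P1.comp T) = _
    rw [map_mul, aeval_comp]
  have hη1 : ∀ i, l' i = 1 → aeval (x i) (ηp (l' i)) = u1 i := by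
    intro i hi
    rw [hi]
    rfl
  have hηsq : ∀ i, l' i = 0 → ∀ a, aeval (x i) T = τ a → aeval (x i) (ηp (l' i)) ^ 2 = u a := by
    intro i hi a ha
    have hZ0 : aeval (x i) Z = 0 := by rw [hl' i, hi, hζ0]
    rw [hη0 i hi, mul_pow, hE i hZ0, ha]
    change _ = aeval (τ a) (D * P1 ^ 2)
    rw [map_mul, map_pow]
  have hfin2 : ∀ l : Fin 2, l = 0 ∨ l = 1 := by decide
  have hcase : ∀ i, l' i = 0 ∨ l' i = 1 := fun i => hfin2 _
  have hT0 : ∀ η : Cl, (expand Cl 2 (nod u)).eval η = 0 → η ≠ 0 →
      TargetB ζ b c (φ 0) (φ t0) 0 η := by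
    intro η hroot hη
    obtain ⟨r1, r2, r3⟩ := W.root_eq hroot
    rw [← hc0'] at r2 r3
    refine Or.inr (Or.inr ⟨rfl, map_zero φ, hη, r1, ?_, r3⟩)
    have h1 : ∑ m ∈ univ.erase (0 : Fin 2), ∑ j, 2 * c m j ^ 2 = 2 * ∑ j, c 1 j ^ 2 := by
      rw [show (univ.erase (0 : Fin 2)) = {1} by decide, Finset.sum_singleton, Finset.mul_sum]
    rw [Fin.sum_univ_two, hsum1, add_zero, h1, ht0]
    linear_combination r2
  have hT2 : ∀ η : Cl, (∃ j, η = b 1 j) → TargetB ζ b c (φ 0) (φ t0) 1 η := by
    intro η hη
    refine Or.inr (Or.inl ⟨hz1', ?_, hη⟩)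
    rw [map_zero]
    exact pow_ne_zero 2 hz1'
  refine locW_of_blocks (K := K) (Cl := Cl) hiso (Λ := Fin 2) (β := fun l => Fin (n l))
    (N := N) ?_ hI (ζ := ζ) hζ (b := b) (c := c) hbi ?_ ?_ ?_ hcne (d := 0) (t0 := t0)
    (l' := l') (η := fun i => aeval (x i) (ηp (l' i))) (ρ := x) ?_ ?_ hF ?_ ?_
  · have h4 : ∑ l, Fintype.card (U l) = N + 2 := by
      rw [← Fintype.card_sigma, Fintype.card_congr (Equiv.sigmaFiberEquiv l'), hI]
    rw [Fin.sum_univ_two, hc0] at h4
    simp only [Fintype.card_fin, Fin.sum_univ_two]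
    omega
  · intro l h j
    have hl : l = 0 := hζ (h.trans hζ0.symm)
    subst hl
    exact W.v_ne j
  · intro l w hw
    rcases hfin2 l with rfl | rfl
    · apply W.nondeg w
      intro j
      have := hw j
      rw [if_pos hζ0] at this
      rw [add_comm]
      exact this
    · apply hnd1
      intro j
      have := hw j
      rw [if_neg (show ζ 1 ≠ 0 from hz1'), add_zero] at this
      exact this
  · intro l j
    rcases hfin2 l with rfl | rfl
    · have h1 := W.cauchy_res j
      rw [if_pos hζ0, hc0']
      exact h1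
    · rw [if_neg (show ζ 1 ≠ 0 from hz1'), add_zero]
      exact hsol1 j
  · intro i k hik hη
    rcases hcase i with hi | hi
    · have hk : l' k = 0 := by rw [← hik, hi]
      have hZi : aeval (x i) Z = 0 := by rw [hl' i, hi, hζ0]
      have hZk : aeval (x k) Z = 0 := by rw [hl' k, hk, hζ0]
      obtain ⟨a, ha⟩ := hT i hZi
      obtain ⟨a', ha'⟩ := hT k hZk
      have h1 := hηsq i hi a ha
      have h2 := hηsq k hk a' ha'
      rw [hη, h2] at h1
      have h3 : a' = a := huinj h1
      subst h3
      apply hinj i k hZi hZk (ha.trans ha'.symm)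
      rw [hη0 i hi, hη0 k hk, ha, ha'] at hη
      have hP0 : aeval (τ a') P1 ≠ 0 := by
        intro h
        apply hu0 a'
        change aeval (τ a') (D * P1 ^ 2) = 0
        rw [map_mul, map_pow, h]
        ring
      exact mul_right_cancel₀ hP0 hη
    · have hk : l' k = 1 := by rw [← hik, hi]
      rw [hη1 i hi, hη1 k hk] at hη
      have := @(even_of_cert hP2).1 ⟨i, hi⟩ ⟨k, hk⟩ hη
      exact congrArg Subtype.val this
  · intro i
    rcases hcase i with hi | hi
    · have hZi : aeval (x i) Z = 0 := by rw [hl' i, hi, hζ0]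
      obtain ⟨a, ha⟩ := hT i hZi
      have hsq := hηsq i hi a ha
      have hroot : (expand Cl 2 (nod u)).eval (aeval (x i) (ηp (l' i))) = 0 := by
        rw [expand_eval, hsq, eval_nod_self]
      have hη0' : aeval (x i) (ηp (l' i)) ≠ 0 := by
        intro h
        rw [h] at hsq
        exact hu0 a (by rw [← hsq]; ring)
      have := hT0 _ hroot hη0'
      convert this using 1
    · have h1 := hη1 i hi
      have := hT2 (aeval (x i) (ηp (l' i))) ⟨ε.symm ⟨i, hi⟩, by
        rw [hε, Equiv.apply_symm_apply, h1]⟩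
      convert this using 1
  · intro σ l j
    rcases hfin2 l with rfl | rfl
    · obtain ⟨k, hk⟩ := hGb0 σ j
      exact ⟨0, k, map_zero σ, hk⟩
    · obtain ⟨π', hπ'⟩ := hGb1 σ
      exact ⟨1, π' j, σ.commutes z1, hπ' j⟩
  · intro σ i
    obtain ⟨π, hπ⟩ := exists_perm hF hx σ
    have h1 := hl'σ σ π hπ i
    refine ⟨π i, ?_, ?_, hπ i⟩
    · rw [h1]
      rcases hcase i with hi | hi
      · rw [hi]; exact map_zero σ
      · rw [hi]; exact σ.commutes z1
    · rw [h1, hσpoly, hπ i]

end Pool.Agent.Lib.MP_12adaf_nt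
end

section

/-!
# The local lemma
-/

namespace Pool.Agent.Lib.MP_12adaf_nt

set_option linter.unusedSectionVars false
set_option linter.unusedVariables false

open Finset Polynomial Filter Topology

/-- Every extension of degree `2 m`, `m` odd, of the field either contains the square root of a
nonsquare of the base or has a subfield of degree `m`. -/
def LPProp (K : Type*) [Field K] : Prop :=
  ∀ (p : K[X]) [Fact (Irreducible p)] (m : ℕ), Odd m → p.natDegree = 2 * m →
    (∃ d : K, ¬ IsSquare d ∧ IsSquare (algebraMap K (AdjoinRoot p) d)) ∨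
      ∃ T : IntermediateField K (AdjoinRoot p), Module.finrank K T = m

lemma nod_sum {L : Type*} [Field L] {α β : Type*} [Fintype α] [DecidableEq α] [Fintype β]
    [DecidableEq β] (x : α → L) (y : β → L) : nod (Sum.elim x y) = nod x * nod y := by
  rw [nod, Fintype.prod_sum_type]
  rfl

lemma natcard_sum {α β : Type*} [Finite α] [Finite β] (P : α ⊕ β → Prop) :
    Nat.card {i // P i} = Nat.card {i // P (Sum.inl i)} + Nat.card {i // P (Sum.inr i)} := by
  rw [Nat.card_congr Equiv.subtypeSum, Nat.card_sum]

lemma natcard_true {α : Type*} {P : α → Prop} (h : ∀ i, P i) : Nat.card {i // P i} = Nat.card α :=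
  Nat.card_congr (Equiv.subtypeUnivEquiv h)

lemma natcard_false {α : Type*} {P : α → Prop} (h : ∀ i, ¬ P i) : Nat.card {i // P i} = 0 := by
  have : IsEmpty {i // P i} := ⟨fun i => h i.1 i.2⟩
  exact Nat.card_of_isEmpty

theorem locW_of_mul {K Cl : Type*} [NontriviallyNormedField K] [NormedField Cl]
    [NormedAlgebra K Cl] [IsAlgClosed Cl] [IsGalois K Cl] [CharZero K] [CharZero Cl]
    (hiso : ∀ (σ : Cl ≃ₐ[K] Cl) (x : Cl), ‖σ x‖ = ‖x‖) (hLP : LPProp K)
    {N : ℕ} (hN : Even N) {p q : K[X]} (hp : p.Monic) (hq : q.Monic) (hpi : Irreducible p)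
    (hsep : (p * q).Separable) (hdeg : p.natDegree + q.natDegree = N + 2)
    (h4 : ¬ 4 ∣ p.natDegree) : LocW N (p * q) := by
  classical
  set φ : K →+* Cl := algebraMap K Cl with hφ
  obtain ⟨u, v, huv⟩ := hsep.isCoprime
  have hsp : p.Separable := hsep.of_mul_left
  have hsq : q.Separable := hsep.of_mul_right
  obtain ⟨a, ha⟩ : ∃ a, a = p.natDegree := ⟨_, rfl⟩
  obtain ⟨b, hb⟩ : ∃ b, b = q.natDegree := ⟨_, rfl⟩
  rw [← ha, ← hb] at hdeg
  rw [← ha] at h4
  obtain ⟨xp, hxp, hxp'⟩ := exists_nod φ hp ha.symm hsp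
  obtain ⟨xq, hxq, hxq'⟩ := exists_nod φ hq hb.symm hsq
  let x : Fin a ⊕ Fin b → Cl := Sum.elim xp xq
  have hF : (p * q).map φ = nod x := by
    rw [Polynomial.map_mul, hxp', hxq', nod_sum]
  have hx : Function.Injective x := by
    have h1 : (nod x).Separable := by rw [← hF]; exact hsep.map
    rw [nod] at h1
    exact separable_prod_X_sub_C_iff.mp h1
  have hI : Fintype.card (Fin a ⊕ Fin b) = N + 2 := by simp [hdeg]
  have hrp : ∀ i, aeval (xp i) p = 0 := by
    intro i
    rw [aeval_def, ← eval_map]
    change (p.map φ).eval _ = 0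
    rw [hxp', eval_nod_self]
  have hrq : ∀ i, aeval (xq i) q = 0 := by
    intro i
    rw [aeval_def, ← eval_map]
    change (q.map φ).eval _ = 0
    rw [hxq', eval_nod_self]
  let crt : K[X] → K[X] → K[X] := fun P Q => P * (v * q) + Q * (u * p)
  have hcp : ∀ P Q i, aeval (x (Sum.inl i)) (crt P Q) = aeval (xp i) P := by
    intro P Q i
    have h1 := congrArg (aeval (xp i)) huv
    have h2 := hrp i
    simp only [map_add, map_mul, h2, mul_zero, zero_add, map_one] at h1
    change aeval (xp i) (crt P Q) = _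
    simp only [crt, map_add, map_mul, h2, mul_zero, add_zero]
    rw [h1, mul_one]
  have hcq : ∀ P Q i, aeval (x (Sum.inr i)) (crt P Q) = aeval (xq i) Q := by
    intro P Q i
    have h1 := congrArg (aeval (xq i)) huv
    have h2 := hrq i
    simp only [map_add, map_mul, h2, mul_zero, add_zero, map_one] at h1
    change aeval (xq i) (crt P Q) = _
    simp only [crt, map_add, map_mul, h2, mul_zero, zero_add]
    rw [h1, mul_one]
  have h2K : (2 : Cl) ≠ 0 := two_ne_zero
  rcases Nat.even_or_odd a with hae | hao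
  · -- `a = 2 m`
    obtain ⟨m, hm⟩ := hae
    have hmo : Odd m := by
      rw [← Nat.not_even_iff_odd]
      rintro ⟨k, hk⟩
      exact h4 ⟨k, by omega⟩
    have hbe : Even b := by
      obtain ⟨k, hk⟩ := hN
      exact ⟨k + 1 - m, by have := hmo.pos; omega⟩
    have hfact : Fact (Irreducible p) := ⟨hpi⟩
    have hψ : ∀ i, (p : K[X]).eval₂ (Algebra.ofId K Cl : K →ₐ[K] Cl) (xp i) = 0 := fun i => hrp i
    rcases hLP p m hmo (by omega) with ⟨d, hd1, hd2⟩ | ⟨T, hT⟩
    · -- case A
      obtain ⟨l, hl⟩ := hd2
      obtain ⟨Y0, rfl⟩ := AdjoinRoot.mk_surjective l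
      have hdvd : p ∣ Y0 * Y0 - C d := by
        rw [← AdjoinRoot.mk_eq_zero, map_sub, map_mul, ← hl, AdjoinRoot.mk_C, sub_eq_zero]
        rfl
      have hY0 : ∀ i, aeval (xp i) Y0 ^ 2 = φ d := by
        intro i
        obtain ⟨Q, hQ⟩ := hdvd
        have h1 := congrArg (aeval (xp i)) hQ
        rw [map_mul, hrp, zero_mul, map_sub, map_mul, aeval_C, sub_eq_zero] at h1
        rw [sq]; exact h1
      obtain ⟨s, hs⟩ : ∃ s : Cl, s ^ 2 = φ d := IsAlgClosed.exists_pow_nat_eq _ two_pos
      have hd0 : d ≠ 0 := fun h => hd1 (h ▸ ⟨0, by simp⟩)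
      have hd1' : (1 : K) ^ 2 ≠ d := fun h => hd1 ⟨1, by rw [← h]; ring⟩
      have hs1 : s ≠ 1 := by
        intro h
        apply hd1'
        apply φ.injective
        rw [← hs, h]; simp
      have hs1' : -s ≠ 1 := by
        intro h
        apply hd1'
        apply φ.injective
        rw [← hs, ← neg_sq s, h]; simp
      have hs0 : s ≠ 0 := by
        intro h
        apply hd0
        apply φ.injective
        rw [← hs, h]; simp
      have hpm : ∀ i, aeval (xp i) Y0 = s ∨ aeval (xp i) Y0 = -s := by
        intro i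
        have h1 := hY0 i
        rw [← hs] at h1
        exact sq_eq_sq_iff_eq_or_eq_neg.mp h1
      -- an automorphism changing the sign of `s`
      obtain ⟨σ, hσ⟩ : ∃ σ : Cl ≃ₐ[K] Cl, σ s = -s := by
        have h1 : ¬ ∀ σ : Cl ≃ₐ[K] Cl, σ s = s := by
          intro h
          rw [← InfiniteGalois.mem_range_algebraMap_iff_fixed] at h
          obtain ⟨s', hs'⟩ := h
          apply hd1
          refine ⟨s', ?_⟩
          apply φ.injective
          rw [← hs, ← hs', map_mul, sq]
        push Not at h1
        obtain ⟨σ, hσ⟩ := h1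
        refine ⟨σ, ?_⟩
        have h2 : (σ s) ^ 2 = s ^ 2 := by
          rw [← map_pow, hs]; exact σ.commutes d
        exact (sq_eq_sq_iff_eq_or_eq_neg.mp h2).resolve_left hσ
      obtain ⟨π, hπ⟩ := exists_perm hxp' hxp σ
      have hσp : ∀ i, σ (aeval (xp i) Y0) = aeval (xp (π i)) Y0 := by
        intro i
        rw [← hπ i]
        exact (aeval_algHom_apply (σ : Cl →ₐ[K] Cl) (xp i) Y0).symm
      have hcards : Nat.card {i // aeval (xp i) Y0 = s} = Nat.card {i // aeval (xp i) Y0 = -s} := by
        apply Nat.card_congr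
        apply Equiv.subtypeEquiv π
        intro i
        rw [← hσp i, ← hσ]
        exact ⟨fun h => by rw [h], fun h => σ.injective h⟩
      have hss : s ≠ -s := by
        intro h
        have : 2 * s = 0 := by linear_combination h
        exact hs0 ((mul_eq_zero.mp this).resolve_left h2K)
      have hsum : Nat.card {i // aeval (xp i) Y0 = s} + Nat.card {i // aeval (xp i) Y0 = -s} =
          2 * m := by
        have h1 : Nat.card {i // aeval (xp i) Y0 = -s} = Nat.card {i // ¬ aeval (xp i) Y0 = s} := by
          apply Nat.card_congr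
          apply Equiv.subtypeEquivRight
          intro i
          constructor
          · intro h h'; rw [h] at h'; exact hss h'.symm
          · intro h; exact (hpm i).resolve_left h
        rw [h1, ← Nat.card_sum, Nat.card_congr (Equiv.sumCompl _), Nat.card_eq_fintype_card,
          Fintype.card_fin]
        omega
      have hnm : Nat.card {i // aeval (xp i) Y0 = s} = m := by omega
      have hnm' : Nat.card {i // aeval (xp i) Y0 = -s} = m := by omega
      refine locW_caseA hiso hI hF hx (d := d) (z0 := 1) hd0 one_ne_zero hd1' hs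
        (Y := crt Y0 1) ?_ ?_ ?_ ?_
      · rintro (i | i)
        · rw [hcp]
          rcases hpm i with h | h
          · exact Or.inl h
          · exact Or.inr (Or.inl h)
        · rw [hcq]
          right; right
          simp
      · rw [natcard_sum, natcard_false (P := fun i => aeval (x (Sum.inr i)) (crt Y0 1) = s)]
        · simp only [hcp]
          rw [hnm, add_zero]
          exact hmo
        · intro i h
          rw [hcq, map_one] at h
          exact hs1 h.symm
      · rw [natcard_sum, natcard_false (P := fun i => aeval (x (Sum.inr i)) (crt Y0 1) = -s)]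
        · simp only [hcp]
          rw [hnm', add_zero]
          exact hmo
        · intro i h
          rw [hcq, map_one] at h
          exact hs1' h.symm
      · rw [natcard_sum, natcard_false
            (P := fun i => aeval (x (Sum.inl i)) (crt Y0 1) = algebraMap K Cl 1),
          natcard_true (P := fun i => aeval (x (Sum.inr i)) (crt Y0 1) = algebraMap K Cl 1)]
        · rw [zero_add, Nat.card_eq_fintype_card, Fintype.card_fin]
          exact hbe
        · intro i
          rw [hcq]; simp
        · intro i h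
          rw [hcp, map_one] at h
          rcases hpm i with h' | h'
          · exact hs1 (h'.symm.trans h)
          · exact hs1' (h'.symm.trans h)
    · -- case B
      have hfin : Module.Finite K (AdjoinRoot p) := (AdjoinRoot.powerBasis hp.ne_zero).finite
      have hfr : Module.finrank K (AdjoinRoot p) = 2 * m := by
        rw [(AdjoinRoot.powerBasis hp.ne_zero).finrank, AdjoinRoot.powerBasis_dim]
        omega
      obtain ⟨θ, E, hθ, ⟨D, hD⟩, hE0, hgen⟩ := quad_gen hmo.pos hfr T hT
      obtain ⟨T0, hT0⟩ := AdjoinRoot.mk_surjective θ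
      obtain ⟨E0, hE0'⟩ := AdjoinRoot.mk_surjective E
      obtain ⟨A, B, hAB⟩ := hgen (AdjoinRoot.root p)
      let ψ : Fin a → (AdjoinRoot p →ₐ[K] Cl) := fun i =>
        AdjoinRoot.liftAlgHom p (Algebra.ofId K Cl) (xp i) (hψ i)
      have hψmk : ∀ i (Q : K[X]), ψ i (AdjoinRoot.mk p Q) = aeval (xp i) Q := by
        intro i Q
        exact AdjoinRoot.liftAlgHom_mk _ _ _ _ _
      have hψr : ∀ i, ψ i (AdjoinRoot.root p) = xp i := by
        intro i
        exact AdjoinRoot.liftAlgHom_root _ _ _ _
      have hψT : ∀ i, ψ i θ = aeval (xp i) T0 := by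
        intro i; rw [← hT0, hψmk]
      have hψE : ∀ i, ψ i E = aeval (xp i) E0 := by
        intro i; rw [← hE0', hψmk]
      have hθint : IsIntegral K θ := Algebra.IsIntegral.isIntegral θ
      obtain ⟨τ, hτ, hτ'⟩ := exists_nod φ (minpoly.monic hθint) hθ
        (minpoly.irreducible hθint).separable
      refine locW_caseB hiso hI hF hx hτ (by rw [Fintype.card_fin]; exact hmo) (z1 := 1)
        one_ne_zero (Z := crt 0 1) (T := crt T0 0) (E := crt E0 0) (D := D) ?_ ?_ ?_ ?_ ?_ ?_ ?_ ?_
      · rintro (i | i)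
        · left; rw [hcp, map_zero]
        · right; rw [hcq, map_one, map_one]
      · rw [natcard_sum, natcard_true (P := fun i => aeval (x (Sum.inl i)) (crt 0 1) = 0),
          natcard_false (P := fun i => aeval (x (Sum.inr i)) (crt 0 1) = 0)]
        · rw [Nat.card_eq_fintype_card, Fintype.card_fin, Fintype.card_fin]
          omega
        · intro i h
          rw [hcq, map_one] at h
          exact one_ne_zero h
        · intro i
          rw [hcp, map_zero]
      · rw [natcard_sum,
          natcard_false (P := fun i => aeval (x (Sum.inl i)) (crt 0 1) = algebraMap K Cl 1),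
          natcard_true (P := fun i => aeval (x (Sum.inr i)) (crt 0 1) = algebraMap K Cl 1)]
        · rw [zero_add, Nat.card_eq_fintype_card, Fintype.card_fin]
          exact hbe
        · intro i
          rw [hcq, map_one, map_one]
        · intro i h
          rw [hcp, map_zero, map_one] at h
          exact zero_ne_one h
      · rintro (i | i) h
        · rw [hcp]
          have h1 : (nod τ).eval (aeval (xp i) T0) = 0 := by
            rw [← hτ', eval_map, ← hψT]
            change aeval (ψ i θ) (minpoly K θ) = 0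
            rw [aeval_algHom_apply, minpoly.aeval, map_zero]
          exact (eval_nod_eq_zero_iff τ _).mp h1
        · exfalso
          rw [hcq, map_one] at h
          exact one_ne_zero h
      · intro j
        have hane : 0 < a := by have := hmo.pos; omega
        let i0 : Fin a := ⟨0, hane⟩
        have h1 : aeval (τ j) (minpoly K (ψ i0 θ)) = 0 := by
          rw [minpoly.algHom_eq (ψ i0) (ψ i0).injective θ, aeval_def, ← eval_map]
          change ((minpoly K θ).map φ).eval _ = 0
          rw [hτ', eval_nod_self]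
        have h1' : IsAlgebraic K (τ j) := Algebra.IsAlgebraic.isAlgebraic _
        obtain ⟨σ, hσ⟩ := minpoly.exists_algEquiv_of_root'
          (K := K) (L := Cl) (x := τ j) (y := ψ i0 θ) (Algebra.IsAlgebraic.isAlgebraic _) h1
        obtain ⟨π, hπ⟩ := exists_perm hxp' hxp σ
        refine ⟨Sum.inl (π i0), ?_, ?_⟩
        · rw [hcp, map_zero]
        · rw [hcp, ← hσ, hψT, ← hπ]
          exact aeval_algHom_apply (σ : Cl →ₐ[K] Cl) (xp i0) T0
      · rintro (i | i) h
        · rw [hcp, hcp, ← hψE, ← hψT, ← map_pow, hD]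
          exact (aeval_algHom_apply (ψ i) θ D).symm
        · exfalso
          rw [hcq, map_one] at h
          exact one_ne_zero h
      · rintro (i | i) h
        · rw [hcp, ← hψE]
          exact (map_ne_zero (ψ i)).mpr hE0
        · exfalso
          rw [hcq, map_one] at h
          exact one_ne_zero h
      · rintro (i | i) (k | k) h h' hTT hEE
        · rw [hcp, hcp, ← hψT, ← hψT] at hTT
          rw [hcp, hcp, ← hψE, ← hψE] at hEE
          congr 1
          apply hxp
          rw [← hψr i, ← hψr k, hAB]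
          simp only [map_add, map_mul, ← aeval_algHom_apply, hTT, hEE]
        · exfalso
          rw [hcq, map_one] at h'
          exact one_ne_zero h'
        · exfalso
          rw [hcq, map_one] at h
          exact one_ne_zero h
        · exfalso
          rw [hcq, map_one] at h
          exact one_ne_zero h
  · -- two odd factors
    have hbo : Odd b := by
      rw [← Nat.not_even_iff_odd]
      rintro ⟨k, hk⟩
      obtain ⟨j, hj⟩ := hao
      obtain ⟨l, hl⟩ := hN
      omega
    have h13 : (1 : Cl) ≠ 2 := by norm_num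
    have h14 : (-1 : Cl) ≠ 2 := by
      intro h
      have : (3 : Cl) = 0 := by linear_combination -h
      exact three_ne_zero this
    have h15 : (1 : Cl) ≠ -1 := by
      intro h
      have : (2 : Cl) = 0 := by linear_combination h
      exact two_ne_zero this
    have hφ2 : algebraMap K Cl 2 = 2 := map_ofNat _ 2
    refine locW_caseA hiso hI hF hx (d := 1) (z0 := 2) one_ne_zero two_ne_zero ?_
      (s := 1) (by simp) (Y := crt 1 (-1)) ?_ ?_ ?_ ?_
    · norm_num
    · rintro (i | i)
      · left; rw [hcp, map_one]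
      · right; left; rw [hcq, map_neg, map_one]
    · rw [natcard_sum, natcard_true (P := fun i => aeval (x (Sum.inl i)) (crt 1 (-1)) = 1),
        natcard_false (P := fun i => aeval (x (Sum.inr i)) (crt 1 (-1)) = 1)]
      · rw [Nat.card_eq_fintype_card, Fintype.card_fin]; exact hao
      · intro i h
        rw [hcq, map_neg, map_one] at h
        exact h15 h.symm
      · intro i
        rw [hcp, map_one]
    · rw [natcard_sum, natcard_false (P := fun i => aeval (x (Sum.inl i)) (crt 1 (-1)) = -1),
        natcard_true (P := fun i => aeval (x (Sum.inr i)) (crt 1 (-1)) = -1)]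
      · rw [zero_add, Nat.card_eq_fintype_card, Fintype.card_fin]; exact hbo
      · intro i
        rw [hcq, map_neg, map_one]
      · intro i h
        rw [hcp, map_one] at h
        exact h15 h
    · rw [natcard_false]
      · exact ⟨0, rfl⟩
      · rw [hφ2]
        rintro (i | i)
        · rw [hcp, map_one]; exact h13
        · rw [hcq, map_neg, map_one]; exact h14

end Pool.Agent.Lib.MP_12adaf_nt
end
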