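import Mathlib
import Pool.Agent.Lib.MP_12adaf_nt.Mestre
import Pool.Agent.Lib.MP_12adaf_nt.LocalRoots

section

/-!
# The odd parametrisation in terms of roots
-/

namespace Pool.Agent.Lib.MP_12adaf_nt

set_option linter.unusedSectionVars false
set_option linter.unusedVariables false

open Finset Polynomial

variable {L : Type*} [Field L] {ι : Type*} [Fintype ι] [DecidableEq ι]

/-- The polynomial `f_t` of the odd parametrisation. -/
noncomputable def fO (x c : ι → L) (t : L) : L[X] :=
  nod x * (X - C t) - ∑ j, C (c j ^ 2) * nodE x j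

/-- The condition on `c` in the odd parametrisation. -/
def OCond (x c : ι → L) : Prop := ∀ j, cauchySum x c (x j) = -1

/-- Nondegeneracy of the points `x` in the odd parametrisation. -/
def ONondeg (x : ι → L) : Prop := ∀ w : ι → L, CKer x w → w = 0

/-- `φ` with `f = g φ`. -/
noncomputable def phiO (x c : ι → L) (t X : L) : L := X - t - ∑ j, c j ^ 2 / (X - x j)

lemma eval_fO (x c : ι → L) (t X : L) (hX : ∀ j, X ≠ x j) :
    (fO x c t).eval X = (nod x).eval X * phiO x c t X := by
  rw [fO, phiO]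
  simp only [eval_sub, eval_mul, Polynomial.eval_X, eval_C, eval_finsetSum]
  have h1 : ∑ j, c j ^ 2 * (nodE x j).eval X =
      (nod x).eval X * ∑ j, c j ^ 2 / (X - x j) := by
    rw [Finset.mul_sum]
    refine Finset.sum_congr rfl fun j _ => ?_
    rw [eval_nodE_eq_div x j X (hX j)]
    ring
  rw [h1]
  ring

/-- `f' g - f g' = h ^ 2`. -/
theorem wronskian_fO [CharZero L] {x c : ι → L} (hx : Function.Injective x) (hc : OCond x c) (t : L) :
    derivative (fO x c t) * nod x - fO x c t * derivative (nod x) = hR x c ^ 2 := by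
  have hG : ∀ j, derivative (nodE x j) * nod x - nodE x j * derivative (nod x) =
      - nodE x j ^ 2 := by
    intro j
    have := derivative_nodE_mul x j
    linear_combination -this
  have h1 : derivative (fO x c t) * nod x - fO x c t * derivative (nod x) =
      nod x ^ 2 + ∑ j, C (c j ^ 2) * nodE x j ^ 2 := by
    have h5 : ∑ j, C (c j ^ 2) *
        (derivative (nodE x j) * nod x - nodE x j * derivative (nod x)) =
        derivative (∑ j, C (c j ^ 2) * nodE x j) * nod x -
        (∑ j, C (c j ^ 2) * nodE x j) * derivative (nod x) := by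
      rw [derivative_sum, Finset.sum_mul, Finset.sum_mul, ← Finset.sum_sub_distrib]
      refine Finset.sum_congr rfl fun j _ => ?_
      rw [derivative_mul, derivative_C]
      ring
    have h6 : ∑ j, C (c j ^ 2) *
        (derivative (nodE x j) * nod x - nodE x j * derivative (nod x)) =
        - ∑ j, C (c j ^ 2) * nodE x j ^ 2 := by
      rw [← Finset.sum_neg_distrib]
      refine Finset.sum_congr rfl fun j _ => ?_
      rw [hG]; ring
    rw [fO, derivative_sub, derivative_mul, derivative_sub, derivative_X, derivative_C]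
    linear_combination h5 - h6
  rw [h1]
  have hne : nod x ≠ 0 := (nod_monic x).ne_zero
  apply mul_left_cancel₀ hne
  apply Polynomial.funext
  intro z
  by_cases hz : (nod x).eval z = 0
  · rw [eval_mul, eval_mul, hz, zero_mul, zero_mul]
  rw [eval_mul, eval_mul]
  congr 1
  have hz' : ∀ j, z ≠ x j := fun j h => hz ((eval_nod_eq_zero_iff x z).mpr ⟨j, h⟩)
  have h5 := sq_cauchySum x c hx 1 z (fun j _ => hz' j)
  have h6 : ∑ j, (c j ^ 2 / (z - x j) ^ 2 + 2 * c j * (1 + cauchySum x c (x j)) / (z - x j)) =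
      ∑ j, c j ^ 2 / (z - x j) ^ 2 := by
    refine Finset.sum_congr rfl fun j _ => ?_
    rw [hc j]; simp
  rw [h6] at h5
  simp only [eval_add, eval_mul, eval_pow, eval_C, eval_finsetSum]
  rw [eval_hR x c z hz']
  have h7 : ∑ j, c j ^ 2 * (nodE x j).eval z ^ 2 =
      (nod x).eval z ^ 2 * ∑ j, c j ^ 2 / (z - x j) ^ 2 := by
    rw [Finset.mul_sum]
    refine Finset.sum_congr rfl fun j _ => ?_
    rw [eval_nodE_eq_div x j z (hz' j), div_pow]
    ring
  rw [h7]
  linear_combination (-1) * (nod x).eval z ^ 2 * h5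

lemma eval_derivative_fO [CharZero L] {x c : ι → L} (hx : Function.Injective x)
    (hc : OCond x c) (t X : L) (hX : ∀ j, X ≠ x j) :
    (derivative (fO x c t)).eval X = (nod x).eval X *
      ((∑ j, 1 / (X - x j)) * phiO x c t X + (1 + cauchySum x c X) ^ 2) := by
  have h1 := congrArg (eval X) (wronskian_fO hx hc t)
  simp only [eval_sub, eval_mul, eval_pow] at h1
  have h2 : (derivative (nod x)).eval X = (nod x).eval X * ∑ j, 1 / (X - x j) := by
    rw [derivative_nod, eval_finsetSum, Finset.mul_sum]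
    refine Finset.sum_congr rfl fun j _ => ?_
    rw [eval_nodE_eq_div x j X (hX j)]
    ring
  rw [eval_hR x c X hX, eval_fO x c t X hX, h2] at h1
  have hne : (nod x).eval X ≠ 0 := fun h => by
    obtain ⟨j, hj⟩ := (eval_nod_eq_zero_iff x X).mp h
    exact hX j hj
  apply mul_right_cancel₀ hne
  linear_combination h1

lemma natDegree_fO_le (x c : ι → L) (t : L) : (fO x c t).natDegree ≤ Fintype.card ι + 1 := by
  rw [fO]
  refine (natDegree_sub_le _ _).trans (max_le ?_ ?_)
  · refine natDegree_mul_le.trans ?_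
    rw [natDegree_nod, natDegree_X_sub_C]
  · apply natDegree_le_of_degree_le
    refine (degree_sum_nodE_lt x _).le.trans ?_
    exact_mod_cast Nat.le_succ _

end Pool.Agent.Lib.MP_12adaf_nt
end

section

section

/-!
# The odd parametrisation in terms of coefficients
-/

namespace Pool.Agent.Lib.MP_12adaf_nt

set_option linter.unusedSectionVars false
set_option linter.unusedVariables false

open Finset Polynomial

section Defs

variable {R : Type*} [CommRing R]

/-- The linear operator whose matrix is `LmatO`. -/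
noncomputable def LopO (g a : R[X]) : R[X] :=
  (2 * derivative ((a * derivative g) %ₘ g) - a * derivative (derivative g)) %ₘ g

/-- The matrix of `LopO g` on polynomials of degree `< N`. -/
noncomputable def LmatO (N : ℕ) (g : R[X]) : Matrix (Fin N) (Fin N) R :=
  Matrix.of fun i j => (LopO g (X ^ (j : ℕ))).coeff i

/-- The right hand side of the linear system. -/
noncomputable def rhsvO (N : ℕ) (g : R[X]) : Fin N → R :=
  fun i => ((-(2 * derivative g)) %ₘ g).coeff i

/-- The numerator of the solution of the linear system. -/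
noncomputable def numvO (N : ℕ) (g : R[X]) : Fin N → R :=
  (LmatO N g).adjugate.mulVec (rhsvO N g)

end Defs

section Ring

variable {R : Type*} [CommRing R]

lemma LopO_add (g a b : R[X]) : LopO g (a + b) = LopO g a + LopO g b := by
  simp only [LopO]
  rw [← add_modByMonic]
  congr 1
  rw [add_mul, add_modByMonic, derivative_add]
  ring

lemma LopO_C_mul (g a : R[X]) (r : R) : LopO g (C r * a) = C r * LopO g a := by
  have h : ∀ p : R[X], (C r * p) %ₘ g = C r * (p %ₘ g) := by
    intro p
    rw [← smul_eq_C_mul, ← smul_eq_C_mul, smul_modByMonic]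
  simp only [LopO]
  rw [← h]
  congr 1
  rw [mul_assoc (C r) a, h, derivative_C_mul]
  ring

lemma LopO_zero (g : R[X]) : LopO g 0 = 0 := by
  simp [LopO]

lemma LopO_sum {ι : Type*} (s : Finset ι) (g : R[X]) (a : ι → R[X]) :
    LopO g (∑ i ∈ s, a i) = ∑ i ∈ s, LopO g (a i) := by
  classical
  induction s using Finset.induction_on with
  | empty => simp [LopO_zero]
  | insert i s hi ih => rw [Finset.sum_insert hi, Finset.sum_insert hi, LopO_add, ih]

lemma LmatO_mulVec (N : ℕ) (g : R[X]) (c : Fin N → R) (i : Fin N) :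
    ((LmatO N g).mulVec c) i = (LopO g (toPoly c)).coeff i := by
  rw [toPoly, LopO_sum, finsetSum_coeff]
  simp only [LopO_C_mul, coeff_C_mul, Matrix.mulVec, dotProduct, LmatO, Matrix.of_apply]
  exact Finset.sum_congr rfl fun j _ => mul_comm _ _

lemma map_LopO {S : Type*} [CommRing S] (φ : R →+* S) {g : R[X]} (hg : g.Monic) (a : R[X]) :
    (LopO g a).map φ = LopO (g.map φ) (a.map φ) := by
  simp only [LopO]
  rw [map_modByMonic _ hg]
  simp only [Polynomial.map_sub, Polynomial.map_mul, ← derivative_map,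
    map_modByMonic _ hg, Polynomial.map_ofNat]

lemma map_LmatO {S : Type*} [CommRing S] (φ : R →+* S) {g : R[X]} (hg : g.Monic) (N : ℕ) :
    LmatO N (g.map φ) = (LmatO N g).map φ := by
  ext i j
  simp only [LmatO, Matrix.map_apply, Matrix.of_apply]
  rw [← coeff_map, map_LopO φ hg, Polynomial.map_pow, Polynomial.map_X]

lemma map_rhsvO {S : Type*} [CommRing S] (φ : R →+* S) {g : R[X]} (hg : g.Monic) (N : ℕ) :
    rhsvO N (g.map φ) = φ ∘ (rhsvO N g) := by
  ext i
  simp only [rhsvO, Function.comp_apply]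
  rw [← coeff_map, map_modByMonic _ hg]
  simp only [Polynomial.map_neg, Polynomial.map_mul, derivative_map, Polynomial.map_ofNat]

lemma map_numvO {S : Type*} [CommRing S] (φ : R →+* S) {g : R[X]} (hg : g.Monic) (N : ℕ) :
    numvO N (g.map φ) = φ ∘ (numvO N g) := by
  rw [numvO, numvO, map_LmatO φ hg, map_rhsvO φ hg]
  have h : ((LmatO N g).map φ).adjugate = (LmatO N g).adjugate.map φ := by
    have := RingHom.map_adjugate φ (LmatO N g)
    simpa [RingHom.mapMatrix_apply] using this.symm
  rw [h]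
  ext i
  rw [Function.comp_apply, RingHom.map_mulVec]

end Ring

section Field

variable {K : Type*} [Field K]

/-- The solution of the linear system. -/
noncomputable def cvecO (N : ℕ) (g : K[X]) : Fin N → K :=
  fun i => (LmatO N g).det⁻¹ * numvO N g i

/-- The residues, as a polynomial modulo `g`. -/
noncomputable def cpolyO (N : ℕ) (g : K[X]) : K[X] := toPoly (cvecO N g)

/-- The polynomial `h` attached to `g`. -/
noncomputable def hpolyO (N : ℕ) (g : K[X]) : K[X] :=
  g + (cpolyO N g * derivative g) %ₘ g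

/-- The remainder part of `f`. -/
noncomputable def f1polyO (N : ℕ) (g : K[X]) : K[X] :=
  (-(cpolyO N g ^ 2 * derivative g)) %ₘ g

/-- The polynomial `f_t` attached to `g` and `t`. -/
noncomputable def fpolyO (N : ℕ) (g : K[X]) (t : K) : K[X] :=
  g * (X - C t) + f1polyO N g

lemma LmatO_mulVec_cvecO (N : ℕ) (g : K[X]) (h : (LmatO N g).det ≠ 0) :
    (LmatO N g).mulVec (cvecO N g) = rhsvO N g := by
  have h1 : cvecO N g = (LmatO N g).det⁻¹ • numvO N g := by
    ext i; simp [cvecO]
  rw [h1, Matrix.mulVec_smul, numvO, Matrix.mulVec_mulVec, Matrix.mul_adjugate,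
    Matrix.smul_mulVec, Matrix.one_mulVec, smul_smul, inv_mul_cancel₀ h, one_smul]

lemma LopO_cpolyO (N : ℕ) (g : K[X]) (hg : g.Monic) (hN : g.natDegree = N)
    (h : (LmatO N g).det ≠ 0) :
    LopO g (cpolyO N g) = (-(2 * derivative g)) %ₘ g := by
  have hlt : ∀ p : K[X], (p %ₘ g).degree < N := by
    intro p
    have := degree_modByMonic_lt p hg
    rwa [degree_eq_natDegree hg.ne_zero, hN] at this
  have h1 : (LopO g (cpolyO N g)).degree < N := hlt _
  have h2 : ((-(2 * derivative g)) %ₘ g).degree < N := hlt _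
  rw [← toPoly_coeff h1, ← toPoly_coeff h2]
  congr 1
  ext i
  rw [cpolyO, ← LmatO_mulVec, LmatO_mulVec_cvecO N g h, rhsvO]

section Map

variable {L : Type*} [Field L] (φ : K →+* L)

lemma map_cvecO {g : K[X]} (hg : g.Monic) (N : ℕ) :
    cvecO N (g.map φ) = fun i => φ (cvecO N g i) := by
  ext i
  rw [cvecO, cvecO, map_numvO φ hg, map_LmatO φ hg, map_mul, map_inv₀]
  rw [show ((LmatO N g).map φ).det = φ (LmatO N g).det from by
    rw [RingHom.map_det]; rfl]
  rfl

lemma map_cpolyO {g : K[X]} (hg : g.Monic) (N : ℕ) :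
    (cpolyO N g).map φ = cpolyO N (g.map φ) := by
  rw [cpolyO, cpolyO, map_toPoly, map_cvecO φ hg]

lemma map_hpolyO {g : K[X]} (hg : g.Monic) (N : ℕ) :
    (hpolyO N g).map φ = hpolyO N (g.map φ) := by
  rw [hpolyO, hpolyO, Polynomial.map_add, map_modByMonic _ hg, Polynomial.map_mul,
    map_cpolyO φ hg, derivative_map]

lemma map_f1polyO {g : K[X]} (hg : g.Monic) (N : ℕ) :
    (f1polyO N g).map φ = f1polyO N (g.map φ) := by
  rw [f1polyO, f1polyO, map_modByMonic _ hg]
  simp only [Polynomial.map_neg, Polynomial.map_mul, Polynomial.map_pow, map_cpolyO φ hg,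
    derivative_map]

lemma map_fpolyO {g : K[X]} (hg : g.Monic) (N : ℕ) (t : K) :
    (fpolyO N g t).map φ = fpolyO N (g.map φ) (φ t) := by
  rw [fpolyO, fpolyO, Polynomial.map_add, map_f1polyO φ hg]
  simp

end Map

lemma natDegree_hpolyO_le {N : ℕ} {g : K[X]} (hg : g.Monic) (hN : g.natDegree = N) :
    (hpolyO N g).natDegree ≤ N := by
  rw [hpolyO]
  refine (natDegree_add_le _ _).trans (max_le hN.le ?_)
  exact (natDegree_modByMonic_le _ hg).trans hN.le

lemma fpolyO_monic {N : ℕ} {g : K[X]} (hg : g.Monic) (hN : g.natDegree = N) (t : K) :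
    (fpolyO N g t).Monic ∧ (fpolyO N g t).natDegree = N + 1 := by
  have hm := hg.mul (monic_X_sub_C t)
  have hmd : (g * (X - C t)).natDegree = N + 1 := by
    rw [hg.natDegree_mul (monic_X_sub_C t), hN, natDegree_X_sub_C]
  have hlt : (f1polyO N g).degree < (g * (X - C t)).degree := by
    rw [f1polyO]
    refine (degree_modByMonic_lt _ hg).trans_le ?_
    rw [degree_eq_natDegree hg.ne_zero, degree_eq_natDegree hm.ne_zero, hmd, hN]
    exact_mod_cast (by omega : N ≤ N + 1)
  refine ⟨hm.add_of_left hlt, ?_⟩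
  rw [fpolyO, natDegree_add_eq_left_of_degree_lt hlt, hmd]

end Field

section Roots

variable {L : Type*} [Field L] {ι : Type*} [Fintype ι] [DecidableEq ι]

lemma eval_LopO_nod [CharZero L] {x : ι → L} (hx : Function.Injective x) (a : L[X]) (j : ι) :
    (LopO (nod x) a).eval (x j) = 2 * (derivative (nod x)).eval (x j) *
      cauchySum x (fun l => a.eval (x l)) (x j) := by
  rw [LopO, eval_modByMonic_root _ (eval_nod_self x j), mul_derivative_modByMonic_nod hx]
  have h1 := eval_derivative_sum_nodE hx (fun l => a.eval (x l)) j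
  simp only [eval_sub, eval_mul, eval_ofNat]
  rw [h1]
  ring

lemma LmatO_det_ne_zero [CharZero L] {x : ι → L} (hx : Function.Injective x)
    (hnd : ONondeg x) {N : ℕ} (hN : Fintype.card ι = N) :
    (LmatO N (nod x)).det ≠ 0 := by
  intro hdet
  obtain ⟨v, hv, hv0⟩ := Matrix.exists_mulVec_eq_zero_iff.mpr hdet
  apply hv
  have h1 : LopO (nod x) (toPoly v) = 0 := by
    have hlt : (LopO (nod x) (toPoly v)).degree < N := by
      have := degree_modByMonic_lt (2 * derivative ((toPoly v * derivative (nod x)) %ₘ nod x)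
        - toPoly v * derivative (derivative (nod x))) (nod_monic x)
      rwa [degree_eq_natDegree (nod_monic x).ne_zero, natDegree_nod, hN] at this
    rw [← toPoly_coeff hlt]
    have : (fun i : Fin N => (LopO (nod x) (toPoly v)).coeff i) = 0 := by
      ext i
      rw [← LmatO_mulVec, hv0]
    rw [this]
    simp [toPoly]
  have h2 : (fun l => (toPoly v).eval (x l)) = 0 := by
    apply hnd
    intro j
    have h3 := eval_LopO_nod hx (toPoly v) j
    rw [h1, eval_zero, eq_comm, mul_eq_zero] at h3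
    exact h3.resolve_left (mul_ne_zero two_ne_zero (eval_derivative_nod_ne_zero x hx j))
  have h6 : toPoly v = 0 := by
    refine eq_of_eval_nod hx ?_ (by simp) fun j => ?_
    · rw [hN]; exact degree_toPoly_lt v
    · rw [eval_zero]; exact congrFun h2 j
  exact toPoly_eq_zero h6

lemma OCond_cpolyO [CharZero L] {x : ι → L} (hx : Function.Injective x)
    {N : ℕ} (hN : Fintype.card ι = N) (h : (LmatO N (nod x)).det ≠ 0) :
    OCond x (fun j => (cpolyO N (nod x)).eval (x j)) := by
  intro j
  have h1 := LopO_cpolyO N (nod x) (nod_monic x) (by rw [natDegree_nod, hN]) h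
  have h2 := eval_LopO_nod hx (cpolyO N (nod x)) j
  rw [h1, eval_modByMonic_root _ (eval_nod_self x j)] at h2
  simp only [eval_neg, eval_mul, eval_ofNat] at h2
  have h3 := eval_derivative_nod_ne_zero x hx j
  apply mul_left_cancel₀ (mul_ne_zero two_ne_zero h3)
  linear_combination -h2

lemma OCond.unique {x : ι → L} (hnd : ONondeg x) {c c' : ι → L} (hc : OCond x c)
    (hc' : OCond x c') : c = c' := by
  have : c - c' = 0 := by
    apply hnd
    intro j
    have h1 := hc j
    have h2 := hc' j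
    have h3 : cauchySum x (c - c') (x j) = cauchySum x c (x j) - cauchySum x c' (x j) := by
      simp [cauchySum, sub_div, Finset.sum_sub_distrib]
    rw [h3, h1, h2, sub_self]
  exact sub_eq_zero.mp this

lemma hpolyO_nod {x : ι → L} (hx : Function.Injective x) (N : ℕ) :
    hpolyO N (nod x) = hR x (fun j => (cpolyO N (nod x)).eval (x j)) := by
  rw [hpolyO, hR, mul_derivative_modByMonic_nod hx]

lemma f1polyO_nod {x : ι → L} (hx : Function.Injective x) (N : ℕ) :
    f1polyO N (nod x) =
      - ∑ j, C ((cpolyO N (nod x)).eval (x j) ^ 2) * nodE x j := by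
  rw [f1polyO, show -(cpolyO N (nod x) ^ 2 * derivative (nod x)) =
    (-(cpolyO N (nod x) ^ 2)) * derivative (nod x) by ring,
    mul_derivative_modByMonic_nod hx, ← Finset.sum_neg_distrib]
  refine Finset.sum_congr rfl fun j _ => ?_
  simp only [eval_neg, eval_pow, C_neg, neg_mul]

lemma fpolyO_nod {x : ι → L} (hx : Function.Injective x) {N : ℕ} (t : L) :
    fpolyO N (nod x) t = fO x (fun j => (cpolyO N (nod x)).eval (x j)) t := by
  rw [fpolyO, fO, f1polyO_nod hx]
  ring

end Roots

/-- The basic identity `f' g - f g' = h ^ 2` over a field of characteristic zero. -/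
theorem wronskian_fpolyO {K : Type*} [Field K] [CharZero K] {N : ℕ} {g : K[X]} (hg : g.Monic)
    (hN : g.natDegree = N) (hsep : g.Separable)
    (hL : (LmatO N g).det ≠ 0) (t : K) :
    derivative (fpolyO N g t) * g - fpolyO N g t * derivative g = hpolyO N g ^ 2 := by
  classical
  let L := AlgebraicClosure K
  let φ : K →+* L := algebraMap K L
  have hφ : Function.Injective φ := φ.injective
  apply Polynomial.map_injective φ hφ
  let s := (g.map φ).roots.toFinset
  let x : s → L := fun i => i.1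
  have hx : Function.Injective x := Subtype.val_injective
  have hsplit : (g.map φ).Splits := IsAlgClosed.splits (g.map φ)
  have hsep' : (g.map φ).Separable := hsep.map
  have hnodup : (g.map φ).roots.Nodup := nodup_roots hsep'
  have hgx : g.map φ = nod x := by
    have h1 : g.map φ = ((g.map φ).roots.map (fun a => X - C a)).prod :=
      hsplit.eq_prod_roots_of_monic (hg.map φ)
    rw [h1, nod]
    have h2 : ((g.map φ).roots.map (fun a => X - C a)).prod =
        ∏ a ∈ (g.map φ).roots.toFinset, (X - C a) := by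
      rw [Finset.prod, Multiset.toFinset_val, Multiset.dedup_eq_self.mpr hnodup]
    rw [h2, ← Finset.prod_coe_sort]
  have hcard : Fintype.card s = N := by
    have := natDegree_nod x
    rw [← hgx, natDegree_map, hN] at this
    exact this.symm
  have hL' : (LmatO N (nod x)).det ≠ 0 := by
    rw [← hgx, map_LmatO φ hg]
    rw [show ((LmatO N g).map φ).det = φ (LmatO N g).det from by rw [RingHom.map_det]; rfl]
    rw [Ne, map_eq_zero]
    exact hL
  have hW := OCond_cpolyO hx hcard hL'
  have key := wronskian_fO hx hW (φ t)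
  rw [← fpolyO_nod hx, ← hpolyO_nod hx, ← hgx, ← map_fpolyO φ hg, ← map_hpolyO φ hg] at key
  simpa only [Polynomial.map_sub, Polynomial.map_mul, Polynomial.map_pow, derivative_map]
    using key

end Pool.Agent.Lib.MP_12adaf_nt
end

section

/-!
# Discriminant identities in odd degree
-/

namespace Pool.Agent.Lib.MP_12adaf_nt

set_option linter.unusedSectionVars false
set_option linter.unusedVariables false

open Finset Polynomial

lemma resultant_identity_O {L : Type*} [Field L] {N : ℕ} (hN : Even N) {f g h : L[X]}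
    (hf : f.Monic) (hg : g.Monic) (hfs : f.Splits) (hgs : g.Splits)
    (hfn : f.natDegree = N + 1) (hgn : g.natDegree = N)
    (hhn : h.natDegree ≤ N)
    (hw : derivative f * g - f * derivative g = h ^ 2) :
    resultant f (derivative f) (N + 1) N * resultant f g (N + 1) N =
      resultant f h (N + 1) N ^ 2 ∧
    resultant f g (N + 1) N * resultant g (derivative g) N (N - 1) =
      resultant g h N N ^ 2 := by
  have hdf : (derivative f).natDegree ≤ N := by
    have := natDegree_derivative_le f; omega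
  have hdg : (derivative g).natDegree ≤ N - 1 := by
    have := natDegree_derivative_le g; omega
  have hN1 : ((-1 : L)) ^ N = 1 := hN.neg_one_pow
  have hcg : Multiset.card g.roots = N := by rw [← hgs.natDegree_eq_card_roots, hgn]
  refine ⟨?_, ?_⟩
  · rw [resultant_of_splits hf hfs hfn hdf, resultant_of_splits hf hfs hfn hgn.le,
      resultant_of_splits hf hfs hfn hhn, ← Multiset.prod_map_mul, ← Multiset.prod_map_pow]
    congr 1
    refine Multiset.map_congr rfl fun a ha => ?_
    have ha0 : f.eval a = 0 := (mem_roots'.mp ha).2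
    have := congrArg (eval a) hw
    simp only [eval_sub, eval_mul, eval_pow, ha0, zero_mul, sub_zero] at this
    exact this
  · rw [resultant_comm f g (N + 1) N, resultant_of_splits hg hgs hgn hdg,
      resultant_of_splits hg hgs hgn hfn.le, resultant_of_splits hg hgs hgn hhn]
    have hs : ((-1 : L)) ^ ((N + 1) * N) = 1 := by
      rw [mul_comm, pow_mul, hN1, one_pow]
    rw [hs, one_mul, ← Multiset.prod_map_mul]
    have h2 : (g.roots.map fun i => f.eval i * (derivative g).eval i) =
        g.roots.map fun i => (-1) * (h.eval i ^ 2) := by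
      refine Multiset.map_congr rfl fun a ha => ?_
      have ha0 : g.eval a = 0 := (mem_roots'.mp ha).2
      have := congrArg (eval a) hw
      simp only [eval_sub, eval_mul, eval_pow, ha0, mul_zero, zero_sub] at this
      linear_combination -this
    rw [h2, Multiset.prod_map_mul, Multiset.map_const', Multiset.prod_replicate, hcg,
      Multiset.prod_map_pow, hN1, one_mul]

theorem discr_O {K : Type*} [Field K] {N : ℕ} (hN : Even N) {f g h : K[X]}
    (hf : f.Monic) (hg : g.Monic)
    (hfn : f.natDegree = N + 1) (hgn : g.natDegree = N) (hhn : h.natDegree ≤ N)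
    (hw : derivative f * g - f * derivative g = h ^ 2) :
    (-1) ^ (N / 2) * f.discr * resultant f g (N + 1) N = resultant f h (N + 1) N ^ 2 ∧
    (-1) ^ (N / 2) * g.discr * resultant f g (N + 1) N = resultant g h N N ^ 2 := by
  let L := AlgebraicClosure K
  let φ : K →+* L := algebraMap K L
  have hφ : Function.Injective φ := φ.injective
  have hw' : derivative (f.map φ) * g.map φ - f.map φ * derivative (g.map φ) =
      (h.map φ) ^ 2 := by
    have := congrArg (Polynomial.map φ) hw
    simpa only [Polynomial.map_sub, Polynomial.map_mul, Polynomial.map_pow, derivative_map]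
      using this
  obtain ⟨k1, k2⟩ := resultant_identity_O hN (hf.map φ) (hg.map φ) (IsAlgClosed.splits _)
    (IsAlgClosed.splits _) (by rw [natDegree_map, hfn]) (by rw [natDegree_map, hgn])
    (natDegree_map_le' φ h hhn) hw'
  rw [derivative_map, resultant_map_map, resultant_map_map, resultant_map_map] at k1
  rw [derivative_map, resultant_map_map, resultant_map_map, resultant_map_map] at k2
  have l1 : resultant f (derivative f) (N + 1) N * resultant f g (N + 1) N =
      resultant f h (N + 1) N ^ 2 := by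
    apply hφ
    simpa only [map_mul, map_pow] using k1
  have l2 : resultant f g (N + 1) N * resultant g (derivative g) N (N - 1) =
      resultant g h N N ^ 2 := by
    apply hφ
    simpa only [map_mul, map_pow] using k2
  have e1 := resultant_deriv_monic hf hfn
  have e2 := resultant_deriv_monic hg hgn
  rw [show N + 1 - 1 = N by omega] at e1
  obtain ⟨M, hM⟩ := hN
  have hM2 : N / 2 = M := by omega
  have s1 : ((-1 : K)) ^ ((N + 1) * N / 2) = (-1) ^ M := by
    have : (N + 1) * N / 2 = M * (2 * M + 1) := by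
      subst hM
      rw [show (M + M + 1) * (M + M) = 2 * (M * (2 * M + 1)) by ring]
      exact Nat.mul_div_cancel_left _ (by norm_num)
    rw [this, pow_mul', Odd.neg_one_pow ⟨M, rfl⟩]
  have s2 : ((-1 : K)) ^ (N * (N - 1) / 2) = (-1) ^ M := by
    rcases M with _ | M
    · subst hM; simp
    · have : N * (N - 1) / 2 = (M + 1) * (2 * M + 1) := by
        subst hM
        rw [show (M + 1 + (M + 1)) * (M + 1 + (M + 1) - 1) = 2 * ((M + 1) * (2 * M + 1)) by
          rw [show M + 1 + (M + 1) - 1 = 2 * M + 1 by omega]; ring]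
        exact Nat.mul_div_cancel_left _ (by norm_num)
      rw [this, pow_mul', Odd.neg_one_pow ⟨M, rfl⟩]
  rw [e1, s1] at l1
  rw [e2, s2] at l2
  rw [hM2]
  exact ⟨l1, by linear_combination l2⟩

/-- The square root of the discriminant of `f` in terms of that of `g`. -/
noncomputable def yO {K : Type*} [Field K] (N : ℕ) (d : K) (g : K[X]) (t z : K) : K :=
  resultant (fpolyO N g t) (hpolyO N g) (N + 1) N * resultant g (hpolyO N g) N N /
    (resultant (fpolyO N g t) g (N + 1) N * (d * z))

section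

variable {K : Type*} [Field K] [CharZero K] {N : ℕ} (hNe : Even N) {g : K[X]} (hg : g.Monic)
    (hN : g.natDegree = N) (hsep : g.Separable) (hL : (LmatO N g).det ≠ 0)
    (hR : resultant g (hpolyO N g) N N ≠ 0) (t : K)

include hNe hg hN hsep hL hR

lemma resultant_fg_ne_zero : resultant (fpolyO N g t) g (N + 1) N ≠ 0 := by
  have hm := fpolyO_monic hg hN t
  obtain ⟨k1, k2⟩ := discr_O hNe hm.1 hg hm.2 hN (natDegree_hpolyO_le hg hN)
    (wronskian_fpolyO hg hN hsep hL t)
  intro h
  rw [h, mul_zero] at k2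
  exact pow_ne_zero 2 hR k2.symm

lemma discr_fpolyO {d z : K} (hd : d ≠ 0) (hz : z ≠ 0) (hgd : g.discr = d * z ^ 2) :
    (fpolyO N g t).discr = d * yO N d g t z ^ 2 := by
  have hm := fpolyO_monic hg hN t
  obtain ⟨k1, k2⟩ := discr_O hNe hm.1 hg hm.2 hN (natDegree_hpolyO_le hg hN)
    (wronskian_fpolyO hg hN hsep hL t)
  have h0 := resultant_fg_ne_zero hNe hg hN hsep hL hR t
  set f := fpolyO N g t with hf
  set R := resultant f g (N + 1) N with hRdef
  set A := resultant f (hpolyO N g) (N + 1) N with hA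
  set B := resultant g (hpolyO N g) N N with hB
  have hs : ((-1 : K) ^ (N / 2)) ^ 2 = 1 := by
    rw [← pow_mul, mul_comm, pow_mul]; simp
  have key : f.discr * (d * z ^ 2) * R ^ 2 = A ^ 2 * B ^ 2 := by
    rw [← hgd, ← k1, ← k2]
    linear_combination (-(f.discr * g.discr * R ^ 2)) * hs
  have hy : yO N d g t z = A * B / (R * (d * z)) := rfl
  rw [hy]
  field_simp
  linear_combination key

lemma yO_ne_zero (hfs : (fpolyO N g t).Separable) {d z : K} (hd : d ≠ 0) (hz : z ≠ 0) :
    yO N d g t z ≠ 0 := by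
  have hm := fpolyO_monic hg hN t
  obtain ⟨k1, k2⟩ := discr_O hNe hm.1 hg hm.2 hN (natDegree_hpolyO_le hg hN)
    (wronskian_fpolyO hg hN hsep hL t)
  have h0 := resultant_fg_ne_zero hNe hg hN hsep hL hR t
  have h1 := discr_ne_zero_of_separable hm.1 hfs
  have h2 : resultant (fpolyO N g t) (hpolyO N g) (N + 1) N ≠ 0 := by
    intro h
    rw [h, zero_pow two_ne_zero] at k1
    exact (mul_ne_zero (mul_ne_zero (pow_ne_zero _ (neg_ne_zero.mpr one_ne_zero)) h1) h0) k1
  rw [yO]
  exact div_ne_zero (mul_ne_zero h2 hR) (mul_ne_zero h0 (mul_ne_zero hd hz))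

end

end Pool.Agent.Lib.MP_12adaf_nt
end

section

/-!
# Continuity of the odd parametrisation and passage from local to global
-/

namespace Pool.Agent.Lib.MP_12adaf_nt

set_option linter.unusedSectionVars false
set_option linter.unusedVariables false

open Finset Polynomial Filter Topology

section Param

variable {α : Type*} {l : Filter α} {K : Type*} [NormedField K]
variable {N : ℕ} {g : α → K[X]} {g0 : K[X]} (hg : CTB l g g0)
    (hm : ∀ a, (g a).Monic) (hd : ∀ a, (g a).natDegree = N)
    (hm0 : g0.Monic) (hd0 : g0.natDegree = N)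

include hg hm hd hm0 hd0

lemma ctb_LopO (p : K[X]) : CTB l (fun a => LopO (g a) p) (LopO g0 p) := by
  unfold LopO
  apply CTB.modByMonic hg.1 hm hd hm0 hd0
  refine CTB.sub (CTB.mul (CTB.const _) (CTB.derivative ?_))
    (CTB.mul (CTB.const _) hg.derivative.derivative)
  exact CTB.modByMonic hg.1 hm hd hm0 hd0 ((CTB.const _).mul hg.derivative)

lemma tendsto_LmatO (i j : Fin N) :
    Tendsto (fun a => LmatO N (g a) i j) l (𝓝 (LmatO N g0 i j)) := by
  simp only [LmatO, Matrix.of_apply]
  exact (ctb_LopO hg hm hd hm0 hd0 _).coeff _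

lemma tendsto_rhsvO (i : Fin N) :
    Tendsto (fun a => rhsvO N (g a) i) l (𝓝 (rhsvO N g0 i)) := by
  simp only [rhsvO]
  exact (CTB.modByMonic hg.1 hm hd hm0 hd0
    ((CTB.const 2).mul hg.derivative).neg).coeff _

lemma tendsto_cvecO (hL : (LmatO N g0).det ≠ 0) (i : Fin N) :
    Tendsto (fun a => cvecO N (g a) i) l (𝓝 (cvecO N g0 i)) := by
  simp only [cvecO]
  refine ((tendsto_det (tendsto_LmatO hg hm hd hm0 hd0)).inv₀ hL).mul ?_
  exact tendsto_mulVec (tendsto_adjugate (tendsto_LmatO hg hm hd hm0 hd0))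
    (tendsto_rhsvO hg hm hd hm0 hd0) i

lemma ctb_cpolyO (hL : (LmatO N g0).det ≠ 0) :
    CTB l (fun a => cpolyO N (g a)) (cpolyO N g0) := by
  unfold cpolyO toPoly
  exact CTB.sum _ fun i _ => (CTB.C (tendsto_cvecO hg hm hd hm0 hd0 hL i)).mul (CTB.const _)

lemma ctb_hpolyO (hL : (LmatO N g0).det ≠ 0) :
    CTB l (fun a => hpolyO N (g a)) (hpolyO N g0) := by
  unfold hpolyO
  exact hg.add (CTB.modByMonic hg.1 hm hd hm0 hd0
    ((ctb_cpolyO hg hm hd hm0 hd0 hL).mul hg.derivative))

lemma ctb_f1polyO (hL : (LmatO N g0).det ≠ 0) :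
    CTB l (fun a => f1polyO N (g a)) (f1polyO N g0) := by
  unfold f1polyO
  exact CTB.modByMonic hg.1 hm hd hm0 hd0
    ((((ctb_cpolyO hg hm hd hm0 hd0 hL).pow 2).mul hg.derivative).neg)

lemma ctb_fpolyO (hL : (LmatO N g0).det ≠ 0) {t : α → K} {t0 : K} (ht : Tendsto t l (𝓝 t0)) :
    CTB l (fun a => fpolyO N (g a) (t a)) (fpolyO N g0 t0) := by
  unfold fpolyO
  exact (hg.mul ((CTB.const _).sub (CTB.C ht))).add (ctb_f1polyO hg hm hd hm0 hd0 hL)

lemma tendsto_resultant_hpolyO (hL : (LmatO N g0).det ≠ 0) :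
    Tendsto (fun a => Polynomial.resultant (g a) (hpolyO N (g a)) N N) l
      (𝓝 (Polynomial.resultant g0 (hpolyO N g0) N N)) :=
  CT.resultant hg.1 (ctb_hpolyO hg hm hd hm0 hd0 hL).1 N N

lemma tendsto_yO (hL : (LmatO N g0).det ≠ 0) (d : K) (hd' : d ≠ 0)
    {t z : α → K} {t0 z0 : K} (ht : Tendsto t l (𝓝 t0)) (hz : Tendsto z l (𝓝 z0))
    (hz0 : z0 ≠ 0) (hR : Polynomial.resultant (fpolyO N g0 t0) g0 (N + 1) N ≠ 0) :
    Tendsto (fun a => yO N d (g a) (t a) (z a)) l (𝓝 (yO N d g0 t0 z0)) := by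
  unfold yO
  refine Tendsto.div ?_ ?_ (mul_ne_zero hR (mul_ne_zero hd' hz0))
  · exact Tendsto.mul (CT.resultant (ctb_fpolyO hg hm hd hm0 hd0 hL ht).1
      (ctb_hpolyO hg hm hd hm0 hd0 hL).1 _ _) (tendsto_resultant_hpolyO hg hm hd hm0 hd0 hL)
  · exact Tendsto.mul (CT.resultant (ctb_fpolyO hg hm hd hm0 hd0 hL ht).1 hg.1 _ _)
      (hz.const_mul d)

end Param

/-- The local data of the odd construction. -/
def OData {K : Type*} [Field K] (N : ℕ) (F g : K[X]) (t : K) (T : K[X]) : Prop :=
  g.Monic ∧ g.natDegree = N ∧ g.Separable ∧ (LmatO N g).det ≠ 0 ∧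
    resultant g (hpolyO N g) N N ≠ 0 ∧ (fpolyO N g t).Separable ∧
    T.degree < ((N + 1 : ℕ) : WithBot ℕ) ∧ charT (N + 1) (fpolyO N g t) T = F

theorem OData.map {K L : Type*} [Field K] [Field L] (φ : K →+* L) {N : ℕ} {F g T : K[X]} {t : K}
    (h : OData N F g t T) : OData N (F.map φ) (g.map φ) (φ t) (T.map φ) := by
  obtain ⟨hg, hgN, hsep, hL, hR, hfs, hT, hch⟩ := h
  have hfm := fpolyO_monic hg hgN t
  refine ⟨hg.map φ, by rw [natDegree_map, hgN], hsep.map, ?_, ?_, ?_, ?_, ?_⟩
  · rw [map_LmatO φ hg]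
    have : ((LmatO N g).map φ).det = φ (LmatO N g).det := by rw [RingHom.map_det]; rfl
    rw [this]
    exact (_root_.map_ne_zero φ).mpr hL
  · rw [← map_hpolyO φ hg, resultant_map_map]
    exact (_root_.map_ne_zero φ).mpr hR
  · rw [← map_fpolyO φ hg]
    exact hfs.map
  · rw [degree_map]; exact hT
  · rw [← map_fpolyO φ hg, ← map_charT φ hfm.1, hch]

lemma map_yO {K L : Type*} [Field K] [Field L] (φ : K →+* L) {g : K[X]} (hg : g.Monic) (N : ℕ)
    (d t z : K) : φ (yO N d g t z) = yO N (φ d) (g.map φ) (φ t) (φ z) := by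
  rw [yO, yO, map_div₀, map_mul, map_mul, map_mul, ← map_fpolyO φ hg, ← map_hpolyO φ hg,
    resultant_map_map, resultant_map_map, resultant_map_map]

theorem global_of_local_odd {k : Type*} [Field k] [CharZero k] {ι : Type*} [Fintype ι]
    [Nonempty ι]
    (K : ι → Type*) [∀ i, NormedField (K i)] [∀ i, CharZero (K i)] (φ : ∀ i, k →+* K i)
    (hdense : DenseRange (fun (q : k) (i : ι) => φ i q)) {N : ℕ} (hN : Even N)
    {d : k} (hd : d ≠ 0) (F : ∀ i, (K i)[X]) (Y : ∀ i, K i)
    (hdisc : ∀ i, (F i).discr = φ i d * Y i ^ 2) (hY : ∀ i, Y i ≠ 0)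
    (g : ∀ i, (K i)[X]) (t : ∀ i, K i) (T : ∀ i, (K i)[X])
    (hloc : ∀ i, OData N (F i) (g i) (t i) (T i))
    (happ : ∀ z : ∀ i, K i, (∀ i, (g i).discr = φ i d * z i ^ 2) → (∀ i, z i ≠ 0) →
      ∀ ε : ℝ, 0 < ε → ∃ (P : k[X]) (y : k), P.Monic ∧ P.natDegree = N ∧ P.discr = d * y ^ 2 ∧
        y ≠ 0 ∧ ∀ i, (∀ m, ‖φ i (P.coeff m) - (g i).coeff m‖ < ε) ∧ ‖φ i y - z i‖ < ε)
    {ε : ℝ} (hε : 0 < ε) :
    ∃ (P : k[X]) (y : k), P.Monic ∧ P.natDegree = N + 1 ∧ P.discr = d * y ^ 2 ∧ y ≠ 0 ∧
      ∀ i, (∀ m, ‖φ i (P.coeff m) - (F i).coeff m‖ < ε) ∧ ‖φ i y - Y i‖ < ε := by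
  -- sequences
  have hseq : ∀ x : ∀ i, K i, ∃ u : ℕ → k, ∀ i, Tendsto (fun j => φ i (u j)) atTop (𝓝 (x i)) := by
    intro x
    have hx : x ∈ closure (Set.range fun (q : k) (i : ι) => φ i q) := hdense x
    obtain ⟨w, hw, hlim⟩ := mem_closure_iff_seq_limit.mp hx
    choose u hu using hw
    refine ⟨u, fun i => ?_⟩
    have := (tendsto_pi_nhds.mp hlim) i
    refine this.congr fun j => ?_
    rw [← hu j]
  choose hg hgN hsep hL hR hfs hT hch using hloc
  have hφd : ∀ i, φ i d ≠ 0 := fun i => (_root_.map_ne_zero (φ i)).mpr hd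
  have hfm0 : ∀ i, (fpolyO N (g i) (t i)).Monic ∧ (fpolyO N (g i) (t i)).natDegree = N + 1 :=
    fun i => fpolyO_monic (hg i) (hgN i) _
  -- the determinant
  have hB : ∀ i, (fpolyO N (g i) (t i)).discr *
      (Bmat (N + 1) (fpolyO N (g i) (t i)) (T i)).det ^ 2 = φ i d * Y i ^ 2 := by
    intro i
    rw [← discr_charT (hfm0 i).1 (hfm0 i).2 (hfs i), hch i, hdisc i]
  have hB0 : ∀ i, (Bmat (N + 1) (fpolyO N (g i) (t i)) (T i)).det ≠ 0 := by
    intro i h
    have h1 := hB i
    rw [h, zero_pow two_ne_zero, mul_zero] at h1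
    exact mul_ne_zero (hφd i) (pow_ne_zero 2 (hY i)) h1.symm
  -- the target for the companions
  have hz : ∀ i, ∃ z : K i, z ≠ 0 ∧ (g i).discr = φ i d * z ^ 2 ∧
      yO N (φ i d) (g i) (t i) z * (Bmat (N + 1) (fpolyO N (g i) (t i)) (T i)).det = Y i := by
    intro i
    obtain ⟨k1, k2⟩ := discr_O hN (hfm0 i).1 (hg i) (hfm0 i).2 (hgN i)
      (natDegree_hpolyO_le (hg i) (hgN i)) (wronskian_fpolyO (hg i) (hgN i) (hsep i) (hL i) (t i))
    have h0 := resultant_fg_ne_zero hN (hg i) (hgN i) (hsep i) (hL i) (hR i) (t i)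
    have h1 := discr_ne_zero_of_separable (hfm0 i).1 (hfs i)
    have hBi := hB i
    have hB0i := hB0 i
    set f := fpolyO N (g i) (t i) with hf
    set R := resultant f (g i) (N + 1) N with hRdef
    set A := resultant f (hpolyO N (g i)) (N + 1) N with hA
    set B := resultant (g i) (hpolyO N (g i)) N N with hBdef
    set D := (Bmat (N + 1) f (T i)).det with hD
    have hA0 : A ≠ 0 := by
      intro h
      rw [h, zero_pow two_ne_zero] at k1
      exact (mul_ne_zero (mul_ne_zero (pow_ne_zero _ (neg_ne_zero.mpr one_ne_zero)) h1) h0) k1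
    have hs : ((-1 : K i) ^ (N / 2)) ^ 2 = 1 := by
      rw [← pow_mul, mul_comm, pow_mul]; simp
    have key : f.discr * (g i).discr * R ^ 2 = A ^ 2 * B ^ 2 := by
      rw [← k1, ← k2]
      linear_combination (-(f.discr * (g i).discr * R ^ 2)) * hs
    refine ⟨A * B * D / (R * φ i d * Y i), ?_, ?_, ?_⟩
    · exact div_ne_zero (mul_ne_zero (mul_ne_zero hA0 (hR i)) hB0i)
        (mul_ne_zero (mul_ne_zero h0 (hφd i)) (hY i))
    · have hne : f.discr * R ^ 2 ≠ 0 := mul_ne_zero h1 (pow_ne_zero 2 h0)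
      apply mul_left_cancel₀ hne
      have hφdi := hφd i
      have hYi := hY i
      have e1 : f.discr * R ^ 2 * (φ i d * (A * B * D / (R * φ i d * Y i)) ^ 2) =
          (f.discr * D ^ 2) * (A ^ 2 * B ^ 2) / (φ i d * Y i ^ 2) := by
        field_simp
      rw [e1, hBi, mul_div_cancel_left₀ _ (mul_ne_zero hφdi (pow_ne_zero 2 hYi)), ← key]
      ring
    · have hy : yO N (φ i d) (g i) (t i) (A * B * D / (R * φ i d * Y i)) =
          A * B / (R * (φ i d * (A * B * D / (R * φ i d * Y i)))) := rfl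
      rw [hy]
      have hφdi := hφd i
      have hYi := hY i
      have hRi : B ≠ 0 := hR i
      field_simp
  choose z hz0 hz1 hz2 using hz
  -- approximating sequences
  have happ' : ∀ j : ℕ, ∃ (P : k[X]) (y : k), P.Monic ∧ P.natDegree = N ∧ P.discr = d * y ^ 2 ∧
        y ≠ 0 ∧ ∀ i, (∀ m, ‖φ i (P.coeff m) - (g i).coeff m‖ < 1 / ((j : ℝ) + 1)) ∧
          ‖φ i y - z i‖ < 1 / ((j : ℝ) + 1) :=
    fun j => happ z hz1 hz0 _ (by positivity)
  choose gq zq hgqm hgqd hgqdisc hzq0 hgz using happ'
  have hsmall : Tendsto (fun j : ℕ => 1 / ((j : ℝ) + 1)) atTop (𝓝 0) :=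
    tendsto_one_div_add_atTop_nhds_zero_nat
  have hconv : ∀ (i : ι) (u : ℕ → K i) (u0 : K i), (∀ j : ℕ, ‖u j - u0‖ < 1 / ((j : ℝ) + 1)) →
      Tendsto u atTop (𝓝 u0) := by
    intro i u u0 h
    rw [tendsto_iff_norm_sub_tendsto_zero]
    exact squeeze_zero (fun _ => norm_nonneg _) (fun j => (h j).le) hsmall
  have hzqc : ∀ i, Tendsto (fun j => φ i (zq j)) atTop (𝓝 (z i)) :=
    fun i => hconv i _ _ fun j => (hgz j i).2
  have hCTg : ∀ i, CTB atTop (fun j => (gq j).map (φ i)) (g i) := by
    intro i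
    refine ⟨fun m => ?_, N, fun j => ?_, (hgN i).le⟩
    · simp only [coeff_map]
      exact hconv i _ _ fun j => (hgz j i).1 m
    · rw [natDegree_map, hgqd]
  choose uT huT using fun m : Fin (N + 1) => hseq fun i => (T i).coeff m
  obtain ⟨us, hus⟩ := hseq t
  let Tq : ℕ → k[X] := fun j => toPoly fun m => uT m j
  have hCTT : ∀ i, CTB atTop (fun j => (Tq j).map (φ i)) (T i) := by
    intro i
    have h1 : ∀ j, (Tq j).map (φ i) = ∑ m : Fin (N + 1), C (φ i (uT m j)) * X ^ (m : ℕ) := by
      intro j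
      rw [show Tq j = toPoly fun m => uT m j from rfl, map_toPoly]
      rfl
    rw [← toPoly_coeff (hT i)]
    simp only [h1]
    exact CTB.sum _ fun m _ => (CTB.C (huT m i)).mul (CTB.const _)
  have hm' : ∀ i j, ((gq j).map (φ i)).Monic := fun i j => (hgqm j).map _
  have hd' : ∀ i j, ((gq j).map (φ i)).natDegree = N := fun i j => by
    rw [natDegree_map, hgqd]
  have hCTf : ∀ i, CTB atTop (fun j => (fpolyO N (gq j) (us j)).map (φ i))
      (fpolyO N (g i) (t i)) := by
    intro i
    simp only [map_fpolyO (φ i) (hgqm _)]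
    exact ctb_fpolyO (hCTg i) (hm' i) (hd' i) (hg i) (hgN i) (hL i) (hus i)
  have hfm : ∀ j, (fpolyO N (gq j) (us j)).Monic ∧ (fpolyO N (gq j) (us j)).natDegree = N + 1 :=
    fun j => fpolyO_monic (hgqm j) (hgqd j) _
  have hCTP : ∀ i, CT atTop (fun j => (charT (N + 1) (fpolyO N (gq j) (us j)) (Tq j)).map (φ i))
      (F i) := by
    intro i
    have h1 := ctb_charT (n := N + 1) (hCTf i) (fun j => (hfm j).1.map _)
      (fun j => by rw [natDegree_map]; exact (hfm j).2) (hfm0 i).1 (hfm0 i).2 (hCTT i)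
    rw [hch i] at h1
    intro m
    refine (h1 m).congr fun j => ?_
    dsimp only
    rw [map_charT (φ i) (hfm j).1]
  let yq : ℕ → k := fun j => yO N d (gq j) (us j) (zq j) *
    (Bmat (N + 1) (fpolyO N (gq j) (us j)) (Tq j)).det
  have hyq : ∀ i, Tendsto (fun j => φ i (yq j)) atTop (𝓝 (Y i)) := by
    intro i
    have h1 := tendsto_yO (hCTg i) (hm' i) (hd' i) (hg i) (hgN i) (hL i) (φ i d) (hφd i)
      (hus i) (hzqc i) (hz0 i)
      (resultant_fg_ne_zero hN (hg i) (hgN i) (hsep i) (hL i) (hR i) (t i))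
    have h2 := tendsto_det_Bmat (n := N + 1) (hCTf i) (fun j => (hfm j).1.map _)
      (fun j => by rw [natDegree_map]; exact (hfm j).2) (hfm0 i).1 (hfm0 i).2 (hCTT i)
    have h3 := h1.mul h2
    rw [hz2 i] at h3
    refine h3.congr fun j => ?_
    rw [map_mul, map_yO (φ i) (hgqm j), map_det_Bmat (φ i) (hfm j).1]
  -- choose a good index
  obtain ⟨i₀⟩ := ‹Nonempty ι›
  have ev1 : ∀ᶠ j in atTop, yq j ≠ 0 := by
    have := (hyq i₀).eventually_ne (hY i₀)
    filter_upwards [this] with j hj h
    exact hj (by rw [h, map_zero])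
  have ev2 : ∀ᶠ j in atTop, (LmatO N (gq j)).det ≠ 0 := by
    have h1 := (tendsto_det (tendsto_LmatO (hCTg i₀) (hm' i₀) (hd' i₀) (hg i₀)
      (hgN i₀))).eventually_ne (hL i₀)
    filter_upwards [h1] with j hj h
    apply hj
    rw [map_LmatO (φ i₀) (hgqm j)]
    rw [show ((LmatO N (gq j)).map (φ i₀)).det = φ i₀ (LmatO N (gq j)).det from by
      rw [RingHom.map_det]; rfl, h, map_zero]
  have ev4 : ∀ᶠ j in atTop, resultant (gq j) (hpolyO N (gq j)) N N ≠ 0 := by
    have h1 := (tendsto_resultant_hpolyO (hCTg i₀) (hm' i₀) (hd' i₀) (hg i₀) (hgN i₀)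
      (hL i₀)).eventually_ne (hR i₀)
    filter_upwards [h1] with j hj h
    apply hj
    rw [← map_hpolyO (φ i₀) (hgqm j), resultant_map_map, h, map_zero]
  have ev6 : ∀ᶠ j in atTop, ∀ i, ‖φ i (yq j) - Y i‖ < ε := by
    rw [eventually_all]
    intro i
    have := (Metric.tendsto_nhds.mp (hyq i)) ε hε
    simpa only [dist_eq_norm] using this
  have ev7 : ∀ᶠ j in atTop, ∀ i, ∀ m : Fin (N + 2),
      ‖φ i ((charT (N + 1) (fpolyO N (gq j) (us j)) (Tq j)).coeff m) - (F i).coeff m‖ < ε := by
    rw [eventually_all]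
    intro i
    rw [eventually_all]
    intro m
    have := (Metric.tendsto_nhds.mp (hCTP i m)) ε hε
    simpa only [dist_eq_norm, coeff_map] using this
  obtain ⟨j, hj1, hj2, hj4, hj6, hj7⟩ :=
    (ev1.and (ev2.and (ev4.and (ev6.and ev7)))).exists
  have hgsep : (gq j).Separable := by
    apply separable_of_discr_ne_zero (hgqm j)
    rw [hgqdisc j]
    exact mul_ne_zero hd (pow_ne_zero 2 (hzq0 j))
  have hfd := discr_fpolyO hN (hgqm j) (hgqd j) hgsep hj2 hj4 (us j) hd (hzq0 j) (hgqdisc j)
  have hy1 : yO N d (gq j) (us j) (zq j) ≠ 0 := left_ne_zero_of_mul hj1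
  have hfsep : (fpolyO N (gq j) (us j)).Separable := by
    apply separable_of_discr_ne_zero (hfm j).1
    rw [hfd]
    exact mul_ne_zero hd (pow_ne_zero 2 hy1)
  refine ⟨charT (N + 1) (fpolyO N (gq j) (us j)) (Tq j), yq j, charT_monic _ _ _,
    natDegree_charT _ _ _, ?_, hj1, fun i => ⟨fun m => ?_, hj6 i⟩⟩
  · rw [discr_charT (hfm j).1 (hfm j).2 hfsep, hfd]
    ring
  · by_cases hm : m < N + 2
    · exact hj7 i ⟨m, hm⟩
    · have h1 : (charT (N + 1) (fpolyO N (gq j) (us j)) (Tq j)).coeff m = 0 := by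
        apply coeff_eq_zero_of_natDegree_lt
        rw [natDegree_charT]; omega
      have h2 : (F i).coeff m = 0 := by
        apply coeff_eq_zero_of_natDegree_lt
        rw [← hch i, natDegree_charT]; omega
      rw [h1, h2, map_zero, sub_zero, norm_zero]
      exact hε

end Pool.Agent.Lib.MP_12adaf_nt
end
end
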