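import Mathlib
import Pool.Agent.Lib.MP_12adaf_nt.Local
import Pool.Agent.Lib.MP_12adaf_nt.Disc

section

set_option autoImplicit false

/-!
A normed algebraic closure of a complete nonarchimedean field of characteristic zero
(helper43).
-/

namespace Pool.Agent.Lib.MP_12adaf_nt

universe u

/-- The algebraic closure with its spectral norm. -/
theorem exists_normedAlgClosure (K : Type u) [NontriviallyNormedField K] [IsUltrametricDist K]
    [CompleteSpace K] [CharZero K] :
    ∃ (Cl : Type u) (_ : NormedField Cl) (_ : NormedAlgebra K Cl), IsAlgClosed Cl ∧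
      IsGalois K Cl ∧ CharZero Cl ∧ ∀ (σ : Cl ≃ₐ[K] Cl) (x : Cl), ‖σ x‖ = ‖x‖ := by
  let i1 : NormedField (AlgebraicClosure K) := spectralNorm.normedField K (AlgebraicClosure K)
  let i2 : NormedAlgebra K (AlgebraicClosure K) := spectralNorm.normedAlgebra K _
  refine ⟨AlgebraicClosure K, i1, i2, ?_, ?_, ?_, ?_⟩
  · exact AlgebraicClosure.isAlgClosed K
  · exact IsAlgClosure.isGalois K (AlgebraicClosure K)
  · exact AlgebraicClosure.instCharZero K
  · intro σ x
    exact (spectralNorm_eq_of_equiv σ x).symm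

end Pool.Agent.Lib.MP_12adaf_nt
end

section

/-!
Elementary structure theory of locally compact ultrametric fields: unit ball, residue field,
uniformizer, root lifting, and the formula `[L : K] = e f`.
-/

set_option autoImplicit false

namespace Pool.Agent.Lib.MP_12adaf_nt

open Polynomial

section single

variable (F : Type*) [NormedField F] [IsUltrametricDist F]

/-- The closed unit ball. -/
def OO : Subring F where
  carrier := {x | ‖x‖ ≤ 1}
  mul_mem' := by
    intro a b ha hb
    have ha' : ‖a‖ ≤ 1 := ha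
    have hb' : ‖b‖ ≤ 1 := hb
    change ‖a * b‖ ≤ 1
    rw [norm_mul]
    exact mul_le_one₀ ha' (norm_nonneg _) hb'
  one_mem' := norm_one.le
  add_mem' := by
    intro a b ha hb
    exact (IsUltrametricDist.norm_add_le_max a b).trans (max_le ha hb)
  zero_mem' := by
    change ‖(0 : F)‖ ≤ 1
    rw [norm_zero]; exact zero_le_one
  neg_mem' := by
    intro a ha
    change ‖-a‖ ≤ 1
    rw [norm_neg]; exact ha

variable {F}

theorem mem_OO {x : F} : x ∈ OO F ↔ ‖x‖ ≤ 1 := Iff.rfl

theorem norm_le_one (x : OO F) : ‖(x : F)‖ ≤ 1 := x.2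

theorem isUnit_iff_norm (x : OO F) : IsUnit x ↔ ‖(x : F)‖ = 1 := by
  constructor
  · rintro ⟨u, rfl⟩
    have h1 : (u : OO F) * ((u⁻¹ : (OO F)ˣ) : OO F) = 1 := u.mul_inv
    have h2 : ‖((u : OO F) : F)‖ * ‖(((u⁻¹ : (OO F)ˣ) : OO F) : F)‖ = 1 := by
      rw [← norm_mul]
      have h2 := congrArg (fun z : OO F => ‖(z : F)‖) h1
      rw [← norm_one (α := F)]
      exact h2
    have h3 := norm_le_one (u : OO F)
    have h4 := norm_le_one ((u⁻¹ : (OO F)ˣ) : OO F)
    have h5 : 0 ≤ ‖((u : OO F) : F)‖ := norm_nonneg _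
    nlinarith
  · intro h
    have hx : (x : F) ≠ 0 := by
      intro h0
      rw [h0, norm_zero] at h
      exact zero_ne_one h
    refine IsUnit.of_mul_eq_one (⟨(x : F)⁻¹, ?_⟩ : OO F) ?_
    · rw [mem_OO, norm_inv, h, inv_one]
    · apply Subtype.ext
      change (x : F) * (x : F)⁻¹ = 1
      exact mul_inv_cancel₀ hx

theorem not_isUnit_iff_norm (x : OO F) : ¬ IsUnit x ↔ ‖(x : F)‖ < 1 := by
  rw [isUnit_iff_norm]
  exact ⟨fun h => lt_of_le_of_ne (norm_le_one x) h, fun h => h.ne⟩

instance : IsLocalRing (OO F) := by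
  apply IsLocalRing.of_nonunits_add
  intro a b ha hb
  rw [mem_nonunits_iff, not_isUnit_iff_norm] at *
  exact lt_of_le_of_lt (IsUltrametricDist.norm_add_le_max _ _) (max_lt ha hb)

variable (F) in
/-- The residue field. -/
abbrev kk := IsLocalRing.ResidueField (OO F)

/-- The residue map. -/
noncomputable def res : OO F →+* kk F := IsLocalRing.residue (OO F)

theorem res_surjective : Function.Surjective (res (F := F)) := IsLocalRing.residue_surjective

theorem res_eq_zero_iff (x : OO F) : res x = 0 ↔ ‖(x : F)‖ < 1 := by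
  unfold res
  rw [IsLocalRing.residue_eq_zero_iff, IsLocalRing.mem_maximalIdeal, mem_nonunits_iff,
    not_isUnit_iff_norm]

theorem res_eq_iff (x y : OO F) : res x = res y ↔ ‖(x : F) - y‖ < 1 := by
  rw [← sub_eq_zero, ← map_sub, res_eq_zero_iff]
  rfl

theorem res_ne_zero_iff (x : OO F) : res x ≠ 0 ↔ ‖(x : F)‖ = 1 := by
  rw [Ne, res_eq_zero_iff]
  exact ⟨fun h => le_antisymm (norm_le_one x) (not_lt.1 h), fun h => h.not_lt⟩

instance [ProperSpace F] : CompactSpace (OO F) := by
  have : (OO F : Set F) = Metric.closedBall 0 1 := by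
    ext x
    simp only [SetLike.mem_coe, mem_OO, Metric.mem_closedBall, dist_zero_right]
  have h2 : IsCompact (OO F : Set F) := by
    rw [this]; exact isCompact_closedBall 0 1
  exact isCompact_iff_compactSpace.1 h2

instance finite_kk [ProperSpace F] : Finite (kk F) := by
  have hc : IsCompact (Set.univ : Set (OO F)) := isCompact_univ
  obtain ⟨t, _, htf, ht⟩ := hc.finite_cover_balls (e := 1) one_pos
  have hfin : (res '' t).Finite := htf.image _
  have huniv : res '' t = (Set.univ : Set (kk F)) := by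
    rw [Set.eq_univ_iff_forall]
    intro y
    obtain ⟨x, rfl⟩ := res_surjective y
    have hx := ht (Set.mem_univ x)
    simp only [Set.mem_iUnion] at hx
    obtain ⟨z, hz, hxz⟩ := hx
    refine ⟨z, hz, ?_⟩
    rw [res_eq_iff]
    rw [Metric.mem_ball, dist_comm] at hxz
    have : dist z x = ‖(z : F) - x‖ := by rw [Subtype.dist_eq, dist_eq_norm]
    rwa [this] at hxz
  rw [huniv] at hfin
  exact Set.finite_univ_iff.1 hfin

/-- Root lifting (Hensel's lemma for simple roots), by compactness. -/
theorem hensel [ProperSpace F] (f : (OO F)[X]) (a : OO F) (h0 : ‖((f.eval a : OO F) : F)‖ < 1)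
    (h1 : ‖((f.derivative.eval a : OO F) : F)‖ = 1) : ∃ b : OO F, f.eval b = 0 ∧ ‖(b : F) - a‖ < 1 := by
  set S : Set (OO F) := {b | ‖(b : F) - a‖ < 1} with hS
  have hSc : IsClosed S := by
    have h2 : S = (fun b : OO F => (b : F)) ⁻¹' Metric.ball (a : F) 1 := by
      ext b
      simp only [hS, Set.mem_preimage, Metric.mem_ball, dist_eq_norm]
      rfl
    rw [h2]
    exact (IsUltrametricDist.isClosed_ball (a : F) 1).preimage continuous_subtype_val
  have hcont : Continuous (fun b : OO F => ‖((f.eval b : OO F) : F)‖) :=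
    continuous_norm.comp (continuous_subtype_val.comp f.continuous)
  have haS : a ∈ S := by
    change ‖(a : F) - a‖ < 1
    rw [sub_self, norm_zero]; exact one_pos
  obtain ⟨b, hbS, hb⟩ := hSc.isCompact.exists_isMinOn ⟨a, haS⟩ hcont.continuousOn
  refine ⟨b, ?_, hbS⟩
  by_contra hne
  -- transfer of divisibility to norms
  have hdvd : ∀ (g : (OO F)[X]) (c : OO F), c ∈ S → ‖((g.eval c : OO F) : F) - ((g.eval a : OO F) : F)‖ < 1 := by
    intro g c hc
    obtain ⟨q, hq⟩ := sub_dvd_eval_sub c a g
    have h3 : ((g.eval c : OO F) : F) - ((g.eval a : OO F) : F) = ((c : F) - a) * q := by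
      have := congrArg (fun z : OO F => (z : F)) hq
      simpa using this
    rw [h3, norm_mul]
    calc ‖(c : F) - a‖ * ‖(q : F)‖ ≤ ‖(c : F) - a‖ * 1 :=
          mul_le_mul_of_nonneg_left (norm_le_one q) (norm_nonneg _)
      _ < 1 := by rw [mul_one]; exact hc
  have hfb : ‖((f.eval b : OO F) : F)‖ < 1 := by
    have h3 : ((f.eval b : OO F) : F) = (((f.eval b : OO F) : F) - ((f.eval a : OO F) : F)) + ((f.eval a : OO F) : F) := by ring
    rw [h3]
    exact lt_of_le_of_lt (IsUltrametricDist.norm_add_le_max _ _) (max_lt (hdvd f b hbS) h0)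
  have hf'b : ‖((f.derivative.eval b : OO F) : F)‖ = 1 := by
    have h3 : res (f.derivative.eval b) = res (f.derivative.eval a) := by
      rw [res_eq_iff]; exact hdvd _ b hbS
    rw [← res_ne_zero_iff, h3, res_ne_zero_iff]
    exact h1
  obtain ⟨u, hu⟩ := (isUnit_iff_norm _).2 hf'b
  set h : OO F := -(f.eval b * ((u⁻¹ : (OO F)ˣ) : OO F)) with hh
  obtain ⟨c, hc⟩ := f.binomExpansion b h
  have hu2 : f.derivative.eval b * h = - f.eval b := by
    rw [hh, ← hu]
    have : (u : OO F) * ((u⁻¹ : (OO F)ˣ) : OO F) = 1 := u.mul_inv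
    linear_combination (-(f.eval b)) * this
  have hval : f.eval (b + h) = c * h ^ 2 := by
    rw [hc, hu2]; ring
  have hhn : ‖(h : F)‖ ≤ ‖((f.eval b : OO F) : F)‖ := by
    rw [hh]
    have : ((-(f.eval b * ((u⁻¹ : (OO F)ˣ) : OO F)) : OO F) : F) =
        -(((f.eval b : OO F) : F) * (((u⁻¹ : (OO F)ˣ) : OO F) : F)) := by push_cast; rfl
    rw [this, norm_neg, norm_mul]
    calc ‖((f.eval b : OO F) : F)‖ * ‖(((u⁻¹ : (OO F)ˣ) : OO F) : F)‖ ≤ ‖((f.eval b : OO F) : F)‖ * 1 :=
          mul_le_mul_of_nonneg_left (norm_le_one _) (norm_nonneg _)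
      _ = _ := mul_one _
  have hfpos : 0 < ‖((f.eval b : OO F) : F)‖ := by
    rw [norm_pos_iff]
    intro h3
    exact hne (Subtype.ext h3)
  have hbh : b + h ∈ S := by
    change ‖((b + h : OO F) : F) - a‖ < 1
    have : ((b + h : OO F) : F) - a = ((b : F) - a) + h := by push_cast; ring
    rw [this]
    exact lt_of_le_of_lt (IsUltrametricDist.norm_add_le_max _ _)
      (max_lt hbS (lt_of_le_of_lt hhn hfb))
  have hmin := hb hbh
  simp only [Set.mem_ofPred_eq] at hmin
  rw [hval] at hmin
  have h4 : ‖((c * h ^ 2 : OO F) : F)‖ ≤ ‖((f.eval b : OO F) : F)‖ * ‖((f.eval b : OO F) : F)‖ := by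
    have : ((c * h ^ 2 : OO F) : F) = (c : F) * ((h : F) * (h : F)) := by push_cast; ring
    rw [this, norm_mul, norm_mul]
    calc ‖(c : F)‖ * (‖(h : F)‖ * ‖(h : F)‖) ≤ 1 * (‖(h : F)‖ * ‖(h : F)‖) :=
          mul_le_mul_of_nonneg_right (norm_le_one c) (by positivity)
      _ ≤ ‖((f.eval b : OO F) : F)‖ * ‖((f.eval b : OO F) : F)‖ := by
          rw [one_mul]
          exact mul_le_mul hhn hhn (norm_nonneg _) (norm_nonneg _)
  have h5 : ‖((f.eval b : OO F) : F)‖ * ‖((f.eval b : OO F) : F)‖ < ‖((f.eval b : OO F) : F)‖ := by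
    calc ‖((f.eval b : OO F) : F)‖ * ‖((f.eval b : OO F) : F)‖ < ‖((f.eval b : OO F) : F)‖ * 1 :=
          mul_lt_mul_of_pos_left hfb hfpos
      _ = _ := mul_one _
  linarith

end single

/-- Existence of a uniformizer. -/
theorem exists_unif (F : Type*) [NontriviallyNormedField F] [IsUltrametricDist F]
    [ProperSpace F] : ∃ π : F, 0 < ‖π‖ ∧ ‖π‖ < 1 ∧ ∀ x : F, x ≠ 0 → ∃ n : ℤ, ‖x‖ = ‖π‖ ^ n := by
  have hcl : IsClosed (Metric.ball (0 : F) 1) := IsUltrametricDist.isClosed_ball 0 1
  have hcomp : IsCompact (Metric.ball (0 : F) 1) :=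
    Metric.isCompact_of_isClosed_isBounded hcl Metric.isBounded_ball
  obtain ⟨π, hπ, hmax⟩ := hcomp.exists_isMaxOn ⟨0, Metric.mem_ball_self one_pos⟩
    continuous_norm.continuousOn
  obtain ⟨x₀, hx₀, hx₀'⟩ := NormedField.exists_norm_lt_one F
  have hmem : ∀ y : F, ‖y‖ < 1 → ‖y‖ ≤ ‖π‖ := by
    intro y hy
    exact hmax (by rwa [mem_ball_zero_iff])
  have hπpos : 0 < ‖π‖ := lt_of_lt_of_le hx₀ (hmem x₀ hx₀')
  have hπ1 : ‖π‖ < 1 := by rwa [mem_ball_zero_iff] at hπ
  refine ⟨π, hπpos, hπ1, ?_⟩
  intro x hx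
  have hxpos : 0 < ‖x‖ := norm_pos_iff.2 hx
  obtain ⟨n, hn⟩ := exists_mem_Ioc_zpow hxpos (one_lt_inv_iff₀.2 ⟨hπpos, hπ1⟩)
  refine ⟨-(n + 1), ?_⟩
  have hz : ‖x * π ^ (n + 1)‖ = ‖x‖ * ‖π‖ ^ (n + 1) := by rw [norm_mul, norm_zpow]
  have hpp : 0 < ‖π‖ ^ (n + 1) := zpow_pos hπpos _
  have h1 : ‖x * π ^ (n + 1)‖ ≤ 1 := by
    rw [hz]
    have := hn.2
    rw [inv_zpow, ← one_div, le_div_iff₀ hpp] at this
    exact this
  have h2 : ‖π‖ < ‖x * π ^ (n + 1)‖ := by
    rw [hz]
    have := hn.1
    rw [inv_zpow, ← one_div, div_lt_iff₀ (zpow_pos hπpos _)] at this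
    rw [zpow_add_one₀ hπpos.ne', ← mul_assoc]
    calc ‖π‖ = 1 * ‖π‖ := (one_mul _).symm
      _ < (‖x‖ * ‖π‖ ^ n) * ‖π‖ := mul_lt_mul_of_pos_right this hπpos
  have h3 : ‖x * π ^ (n + 1)‖ = 1 := by
    rcases lt_or_eq_of_le h1 with h | h
    · exact absurd (hmem _ h) (not_le.2 h2)
    · exact h
  rw [hz] at h3
  rw [zpow_neg]
  exact eq_inv_of_mul_eq_one_left h3

end Pool.Agent.Lib.MP_12adaf_nt
end

section

/-!
Finite field lemmas.
-/

set_option autoImplicit false

namespace Pool.Agent.Lib.MP_12adaf_nt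

open Polynomial

/-- Over a finite field with an extension of even degree, some `x ^ 2 + x + c` has no root in the
small field and a simple root in the large one. -/
theorem exists_quad (k l : Type*) [Field k] [Field l] [Finite k] [Finite l] [Algebra k l]
    (h : Even (Module.finrank k l)) : ∃ c : k, (∀ x : k, x ^ 2 + x + c ≠ 0) ∧
      ∃ y : l, y ^ 2 + y + algebraMap k l c = 0 ∧ 2 * y + 1 ≠ 0 := by
  have hninj : ¬ Function.Injective (fun x : k => -(x ^ 2 + x)) := by
    intro hinj
    have h1 : (0 : k) = -1 := hinj (by ring)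
    have h2 : (1 : k) = 0 := by linear_combination h1
    exact one_ne_zero h2
  rw [Finite.injective_iff_surjective] at hninj
  unfold Function.Surjective at hninj
  push Not at hninj
  obtain ⟨c, hc⟩ := hninj
  have hroot : ∀ x : k, x ^ 2 + x + c ≠ 0 := by
    intro x hx
    apply hc x
    linear_combination -hx
  refine ⟨c, hroot, ?_⟩
  set g : k[X] := X ^ 2 + X + C c with hg
  have hdeg : g.natDegree = 2 := by rw [hg]; compute_degree!
  have hmonic : g.Monic := by
    rw [hg]
    have : (X ^ 2 + X + C c : k[X]) = X ^ 2 + (X + C c) := by ring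
    rw [this]
    apply monic_X_pow_add
    rw [degree_X_add_C]
    norm_num
  have hirr : Irreducible g := by
    apply irreducible_of_degree_le_three_of_not_isRoot
    · rw [hdeg]; simp
    · intro x hx
      apply hroot x
      simpa [hg, IsRoot] using hx
  have hfact : Fact (Irreducible g) := ⟨hirr⟩
  have hfr : Module.finrank k (AdjoinRoot g) = 2 := by
    rw [(AdjoinRoot.powerBasis hirr.ne_zero).finrank, AdjoinRoot.powerBasis_dim, hdeg]
  obtain ⟨φ⟩ := FiniteField.nonempty_algHom_of_finrank_dvd (F := k) (K := AdjoinRoot g) (L := l)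
    (by rw [hfr]; exact h.two_dvd)
  have hy : (φ (AdjoinRoot.root g)) ^ 2 + φ (AdjoinRoot.root g) + algebraMap k l c = 0 := by
    have h1 : (AdjoinRoot.root g) ^ 2 + AdjoinRoot.root g + algebraMap k (AdjoinRoot g) c = 0 := by
      have h2 := AdjoinRoot.eval₂_root g
      rw [hg] at h2
      simpa [eval₂_add, eval₂_pow, hg] using h2
    have h3 := congrArg φ h1
    rw [map_add, map_add, map_pow, AlgHom.commutes, map_zero] at h3
    exact h3
  refine ⟨φ (AdjoinRoot.root g), hy, ?_⟩
  intro h2y
  set y := φ (AdjoinRoot.root g) with hyd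
  by_cases h2 : (2 : k) = 0
  · have h3 : (2 : l) = 0 := by
      have := congrArg (algebraMap k l) h2
      rwa [map_ofNat, map_zero] at this
    rw [h3, zero_mul, zero_add] at h2y
    exact one_ne_zero h2y
  · have h3 : (2 : l) ≠ 0 := by
      intro h4
      apply h2
      apply (algebraMap k l).injective
      rwa [map_ofNat, map_zero]
    have h4 : y = algebraMap k l (-(1 / 2)) := by
      rw [map_neg, map_div₀, map_one, map_ofNat]
      field_simp
      linear_combination h2y
    apply hroot (-(1 / 2))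
    apply (algebraMap k l).injective
    rw [map_add, map_add, map_pow, ← h4, hy, map_zero]

/-- In an odd degree extension a nonsquare stays a nonsquare. -/
theorem nonsquare_lift {k l : Type*} [Field k] [Field l] [Algebra k l] [FiniteDimensional k l]
    (h : Odd (Module.finrank k l)) {u : k} (hu : ¬ IsSquare u) : ¬ IsSquare (algebraMap k l u) := by
  rintro ⟨s, hs⟩
  have hdeg : (X ^ 2 - C u : k[X]).natDegree = 2 := natDegree_X_pow_sub_C
  have hirr : Irreducible (X ^ 2 - C u : k[X]) := by
    apply irreducible_of_degree_le_three_of_not_isRoot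
    · rw [hdeg]; simp
    · intro x hx
      apply hu
      refine ⟨x, ?_⟩
      have : x ^ 2 - u = 0 := by simpa [IsRoot] using hx
      linear_combination -this
  have hmin : (X ^ 2 - C u : k[X]) = minpoly k s := by
    apply minpoly.eq_of_irreducible_of_monic hirr
    · simp only [map_sub, map_pow, aeval_X, aeval_C]
      rw [hs]; ring
    · exact monic_X_pow_sub_C u two_ne_zero
  have hd := minpoly.degree_dvd (Algebra.IsIntegral.isIntegral (R := k) s)
  rw [← hmin, hdeg] at hd
  rw [← Nat.not_even_iff_odd] at h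
  exact h (even_iff_two_dvd.2 hd)

/-- In an odd degree extension of finite fields of odd characteristic, every element is a square
up to a factor from the small field. -/
theorem exists_sq_factor (k l : Type*) [Field k] [Field l] [Finite k] [Finite l] [Algebra k l]
    (h : Odd (Module.finrank k l)) (h2 : (2 : k) ≠ 0) (x : l) (hx : x ≠ 0) :
    ∃ u : k, u ≠ 0 ∧ ∃ D : l, x = algebraMap k l u * D ^ 2 := by
  by_cases hsq : IsSquare x
  · obtain ⟨D, hD⟩ := hsq
    exact ⟨1, one_ne_zero, D, by rw [map_one, hD]; ring⟩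
  · have := Fintype.ofFinite k
    have := Fintype.ofFinite l
    classical
    have hchark : ringChar k ≠ 2 := by
      intro hch
      apply h2
      have := ringChar.Nat.cast_ringChar (R := k)
      rw [hch] at this
      exact_mod_cast this
    have hcharl : ringChar l ≠ 2 := by
      intro hch
      have h3 := ringChar.Nat.cast_ringChar (R := l)
      rw [hch] at h3
      apply h2
      apply (algebraMap k l).injective
      rw [map_ofNat, map_zero]
      exact_mod_cast h3
    obtain ⟨u, hu⟩ := FiniteField.exists_nonsquare hchark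
    have hu0 : u ≠ 0 := by
      rintro rfl
      exact hu (IsSquare.zero)
    have hfd : FiniteDimensional k l := Module.Finite.of_finite
    have hul := nonsquare_lift h hu
    have hul0 : algebraMap k l u ≠ 0 := by
      rw [Ne, map_eq_zero]; exact hu0
    have hq : IsSquare (x * algebraMap k l u) := by
      have h4 := (quadraticChar_neg_one_iff_not_isSquare (F := l)).2 hsq
      have h5 := (quadraticChar_neg_one_iff_not_isSquare (F := l)).2 hul
      rw [← quadraticChar_one_iff_isSquare (mul_ne_zero hx hul0), map_mul, h4, h5]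
      norm_num
    obtain ⟨D, hD⟩ := hq
    refine ⟨u, hu0, D / algebraMap k l u, ?_⟩
    field_simp
    linear_combination hD

end Pool.Agent.Lib.MP_12adaf_nt
end

section

/-!
Extensions of locally compact ultrametric fields: `[L : K] = e f`.
-/

set_option autoImplicit false

namespace Pool.Agent.Lib.MP_12adaf_nt

open Polynomial

section rel

variable (K L : Type*) [NormedField K] [IsUltrametricDist K] [NormedField L]
  [IsUltrametricDist L] [NormedAlgebra K L]

/-- The inclusion of the unit balls. -/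
def incl : OO K →+* OO L :=
  (algebraMap K L).restrict (OO K) (OO L) (by
    intro x hx
    rw [mem_OO, norm_algebraMap']
    exact hx)

theorem coe_incl (x : OO K) : (incl K L x : L) = algebraMap K L (x : K) := rfl

theorem norm_incl (x : OO K) : ‖(incl K L x : L)‖ = ‖(x : K)‖ := by
  rw [coe_incl, norm_algebraMap']

instance isLocalHom_incl : IsLocalHom (incl K L) := by
  constructor
  intro x hx
  rw [isUnit_iff_norm, norm_incl] at hx
  rwa [isUnit_iff_norm]

/-- The map of residue fields. -/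
noncomputable def resMap : kk K →+* kk L := IsLocalRing.ResidueField.map (incl K L)

theorem resMap_res (x : OO K) : resMap K L (res x) = res (incl K L x) := rfl

/-- The residue field extension. -/
@[reducible] noncomputable def resAlg : Algebra (kk K) (kk L) := (resMap K L).toAlgebra

attribute [local instance] resAlg

theorem algebraMap_res (x : OO K) : algebraMap (kk K) (kk L) (res x) = res (incl K L x) := rfl

variable {K L}

theorem norm_comb {ι : Type*} [Fintype ι] {u : ι → OO L}
    (hu : LinearIndependent (kk K) (fun i => res (u i))) (a : ι → K) (i₀ : ι)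
    (h : ∀ i, ‖a i‖ ≤ ‖a i₀‖) (h0 : a i₀ ≠ 0) :
    ‖∑ i, algebraMap K L (a i) * (u i : L)‖ = ‖a i₀‖ := by
  have hpos : 0 < ‖a i₀‖ := norm_pos_iff.2 h0
  let b : ι → OO K := fun i => ⟨a i / a i₀, by
    rw [mem_OO, norm_div, div_le_one hpos]; exact h i⟩
  set y : OO L := ∑ i, incl K L (b i) * u i with hy
  have hres : res y ≠ 0 := by
    intro hzero
    rw [hy, map_sum] at hzero
    have h1 : ∑ i, res (b i) • res (u i) = 0 := by
      rw [← hzero]
      apply Finset.sum_congr rfl
      intro i _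
      rw [map_mul, Algebra.smul_def, algebraMap_res]
    rw [Fintype.linearIndependent_iff] at hu
    have h2 := hu (fun i => res (b i)) h1 i₀
    rw [res_eq_zero_iff] at h2
    have h3 : (b i₀ : K) = 1 := div_self h0
    rw [h3, norm_one] at h2
    exact lt_irrefl _ h2
  rw [res_ne_zero_iff] at hres
  have hsum : ∑ i, algebraMap K L (a i) * (u i : L) = algebraMap K L (a i₀) * (y : L) := by
    rw [hy]
    push_cast
    rw [Finset.mul_sum]
    apply Finset.sum_congr rfl
    intro i _
    rw [coe_incl, ← mul_assoc, ← map_mul]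
    congr 2
    change a i = a i₀ * (a i / a i₀)
    field_simp
  rw [hsum, norm_mul, hres, mul_one, norm_algebraMap']

theorem norm_comb' {ι : Type*} [Fintype ι] {u : ι → OO L}
    (hu : LinearIndependent (kk K) (fun i => res (u i))) (a : ι → K) :
    (∀ i, a i = 0) ∨ ∃ c : K, c ≠ 0 ∧ ‖∑ i, algebraMap K L (a i) * (u i : L)‖ = ‖c‖ := by
  by_cases hall : ∀ i, a i = 0
  · exact Or.inl hall
  · right
    push Not at hall
    obtain ⟨i₁, hi₁⟩ := hall
    obtain ⟨i₀, _, hmax⟩ := Finset.exists_max_image Finset.univ (fun i => ‖a i‖)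
      ⟨i₁, Finset.mem_univ _⟩
    have h0 : a i₀ ≠ 0 := by
      intro h
      have := hmax i₁ (Finset.mem_univ _)
      rw [h, norm_zero] at this
      exact hi₁ (norm_le_zero_iff.1 this)
    exact ⟨a i₀, h0, norm_comb hu a i₀ (fun i => hmax i (Finset.mem_univ _)) h0⟩

omit [NormedAlgebra K L] in
theorem norm_sum_lt {κ : Type*} (s : Finset κ) (f : κ → L) {C : ℝ} (hC : 0 < C)
    (h : ∀ j ∈ s, ‖f j‖ < C) : ‖∑ j ∈ s, f j‖ < C := by
  classical
  induction s using Finset.induction_on with
  | empty => simpa using hC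
  | insert a s ha ih =>
    rw [Finset.sum_insert ha]
    exact lt_of_le_of_lt (IsUltrametricDist.norm_add_le_max _ _)
      (max_lt (h a (Finset.mem_insert_self _ _))
        (ih (fun j hj => h j (Finset.mem_insert_of_mem hj))))

/-- Linear independence of products. -/
theorem linInd_prod {ι κ : Type*} [Fintype ι] [Fintype κ] {u : ι → OO L}
    (hu : LinearIndependent (kk K) (fun i => res (u i))) {t : κ → L} (ht0 : ∀ j, t j ≠ 0)
    (ht : ∀ (j j' : κ) (c : K), c ≠ 0 → ‖t j‖ = ‖c‖ * ‖t j'‖ → j = j') :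
    LinearIndependent K (fun p : ι × κ => (u p.1 : L) * t p.2) := by
  classical
  rw [Fintype.linearIndependent_iff]
  intro a ha
  by_contra hcon
  push Not at hcon
  obtain ⟨⟨i₀, j₀⟩, hij⟩ := hcon
  set s : κ → L := fun j => ∑ i, algebraMap K L (a (i, j)) * (u i : L) with hs
  have hsum : ∑ j, s j * t j = 0 := by
    rw [← ha, Fintype.sum_prod_type_right]
    apply Finset.sum_congr rfl
    intro j _
    rw [hs, Finset.sum_mul]
    apply Finset.sum_congr rfl
    intro i _
    rw [Algebra.smul_def, mul_assoc]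
  have hsn : ∀ j, s j ≠ 0 → ∃ c : K, c ≠ 0 ∧ ‖s j‖ = ‖c‖ := by
    intro j hj
    rcases norm_comb' hu (fun i => a (i, j)) with h | h
    · exfalso
      apply hj
      simp only [hs]
      apply Finset.sum_eq_zero
      intro i _
      rw [h i, map_zero, zero_mul]
    · exact h
  have hsj₀ : s j₀ ≠ 0 := by
    rcases norm_comb' hu (fun i => a (i, j₀)) with h | ⟨c, hc, h⟩
    · exact absurd (h i₀) hij
    · intro h0
      have h1 : ‖s j₀‖ = ‖c‖ := h
      rw [h0, norm_zero] at h1
      exact hc (norm_eq_zero.1 h1.symm)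
  obtain ⟨j₁, _, hmax⟩ := Finset.exists_max_image Finset.univ (fun j => ‖s j * t j‖)
    ⟨j₀, Finset.mem_univ _⟩
  have hpos : 0 < ‖s j₁ * t j₁‖ := by
    have h1 := hmax j₀ (Finset.mem_univ _)
    have h2 : 0 < ‖s j₀ * t j₀‖ := norm_pos_iff.2 (mul_ne_zero hsj₀ (ht0 j₀))
    exact lt_of_lt_of_le h2 h1
  have hs₁ : s j₁ ≠ 0 := by
    intro h0
    rw [h0, zero_mul, norm_zero] at hpos
    exact lt_irrefl _ hpos
  have hlt : ∀ j ∈ Finset.univ.erase j₁, ‖s j * t j‖ < ‖s j₁ * t j₁‖ := by
    intro j hj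
    have hne : j ≠ j₁ := (Finset.mem_erase.1 hj).1
    apply lt_of_le_of_ne (hmax j (Finset.mem_univ _))
    intro heq
    have hsj : s j ≠ 0 := by
      intro h0
      rw [h0, zero_mul, norm_zero] at heq
      rw [← heq] at hpos
      exact lt_irrefl _ hpos
    obtain ⟨c, hc, hcn⟩ := hsn j hsj
    obtain ⟨c₁, hc₁, hcn₁⟩ := hsn j₁ hs₁
    rw [norm_mul, norm_mul, hcn, hcn₁] at heq
    apply hne
    apply ht j j₁ (c₁ / c) (div_ne_zero hc₁ hc)
    have hcpos : ‖c‖ ≠ 0 := norm_ne_zero_iff.2 hc
    rw [norm_div]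
    field_simp
    linarith
  have h1 : s j₁ * t j₁ = - ∑ j ∈ Finset.univ.erase j₁, s j * t j := by
    rw [← Finset.add_sum_erase _ _ (Finset.mem_univ j₁)] at hsum
    exact eq_neg_of_add_eq_zero_left hsum
  have h2 := norm_sum_lt (Finset.univ.erase j₁) (fun j => s j * t j) hpos hlt
  rw [h1, norm_neg] at h2
  exact lt_irrefl _ h2

end rel

section span

variable {K L : Type*} [NontriviallyNormedField K] [IsUltrametricDist K] [ProperSpace K]
  [NormedField L] [IsUltrametricDist L] [NormedAlgebra K L] [FiniteDimensional K L]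
  [ProperSpace L]

attribute [local instance] resAlg

/-- Products span. -/
theorem span_prod {ι κ : Type*} [Fintype ι] {u : ι → OO L}
    (hu : ∀ y : kk L, ∃ g : ι → kk K, ∑ i, g i • res (u i) = y) {t : κ → L}
    (ht : ∀ x : L, x ≠ 0 → ∃ (j : κ) (c : K), c ≠ 0 ∧ t j ≠ 0 ∧ ‖x‖ = ‖c‖ * ‖t j‖) :
    Submodule.span K (Set.range fun p : ι × κ => (u p.1 : L) * t p.2) = ⊤ := by
  classical
  set V := Submodule.span K (Set.range fun p : ι × κ => (u p.1 : L) * t p.2) with hV
  have hclosed : IsClosed (V : Set L) := V.closed_of_finiteDimensional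
  have approx : ∀ y : L, y ≠ 0 → ∃ v ∈ V, ‖y - v‖ < ‖y‖ := by
    intro y hy
    obtain ⟨j, c, hc, htj, hyn⟩ := ht y hy
    have hct : algebraMap K L c * t j ≠ 0 :=
      mul_ne_zero (by rwa [Ne, map_eq_zero]) htj
    have hctn : ‖algebraMap K L c * t j‖ = ‖y‖ := by
      rw [norm_mul, norm_algebraMap', hyn]
    let z : OO L := ⟨y / (algebraMap K L c * t j), by
      rw [mem_OO, norm_div, hctn, div_self (norm_ne_zero_iff.2 hy)]⟩
    obtain ⟨g, hg⟩ := hu (res z)
    have hlift : ∀ i, ∃ b : OO K, res b = g i := fun i => res_surjective (g i)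
    choose b hb using hlift
    let w : OO L := ∑ i, incl K L (b i) * u i
    have hw : res z = res w := by
      rw [← hg]
      simp only [w, map_sum]
      apply Finset.sum_congr rfl
      intro i _
      rw [map_mul, Algebra.smul_def, ← hb, algebraMap_res]
    rw [res_eq_iff] at hw
    refine ⟨algebraMap K L c * t j * w, ?_, ?_⟩
    · have h1 : algebraMap K L c * t j * (w : L) =
          ∑ i, (c * (b i : K)) • ((u i : L) * t j) := by
        simp only [w]
        push_cast
        rw [Finset.mul_sum]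
        apply Finset.sum_congr rfl
        intro i _
        rw [coe_incl, Algebra.smul_def, map_mul]
        ring
      rw [h1]
      apply Submodule.sum_mem
      intro i _
      apply Submodule.smul_mem
      exact Submodule.subset_span ⟨(i, j), rfl⟩
    · have h1 : y - algebraMap K L c * t j * (w : L) =
          (algebraMap K L c * t j) * ((z : L) - w) := by
        have : y = (algebraMap K L c * t j) * (z : L) := by
          change y = (algebraMap K L c * t j) * (y / (algebraMap K L c * t j))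
          rw [mul_div_left_comm, div_self hct, mul_one]
        rw [mul_sub, ← this]
      rw [h1, norm_mul, hctn]
      have hypos : 0 < ‖y‖ := norm_pos_iff.2 hy
      calc ‖y‖ * ‖(z : L) - w‖ < ‖y‖ * 1 := mul_lt_mul_of_pos_left hw hypos
        _ = ‖y‖ := mul_one _
  rw [eq_top_iff]
  intro x _
  obtain ⟨v, hv, hvd⟩ := hclosed.exists_infDist_eq_dist ⟨0, V.zero_mem⟩ x
  by_cases hxv : x - v = 0
  · rw [sub_eq_zero] at hxv
    rw [hxv]; exact hv
  · exfalso
    obtain ⟨v', hv', hlt⟩ := approx _ hxv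
    have h1 : Metric.infDist x (V : Set L) ≤ dist x (v + v') :=
      Metric.infDist_le_dist_of_mem (V.add_mem hv hv')
    rw [hvd, dist_eq_norm, dist_eq_norm] at h1
    have h2 : x - (v + v') = x - v - v' := by ring
    rw [h2] at h1
    exact absurd hlt (not_lt.2 h1)

end span

section struct

variable (K L : Type*) [NontriviallyNormedField K] [IsUltrametricDist K] [ProperSpace K]
  [NontriviallyNormedField L] [IsUltrametricDist L] [NormedAlgebra K L] [FiniteDimensional K L]

attribute [local instance] resAlg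

omit [IsUltrametricDist K] [ProperSpace K] [IsUltrametricDist L] [NormedAlgebra K L]
  [FiniteDimensional K L] [NontriviallyNormedField K] [NontriviallyNormedField L] in
theorem zpow_inj' {r : ℝ} (h0 : 0 < r) (h1 : r < 1) {a b : ℤ} (h : r ^ a = r ^ b) : a = b :=
  zpow_right_injective₀ h0 h1.ne h

/-- The fundamental equality. -/
theorem struct : ∃ (w : K) (W : L) (e : ℕ), 0 < ‖w‖ ∧ ‖w‖ < 1 ∧
    (∀ x : K, x ≠ 0 → ∃ n : ℤ, ‖x‖ = ‖w‖ ^ n) ∧ 0 < ‖W‖ ∧ ‖W‖ < 1 ∧
    (∀ x : L, x ≠ 0 → ∃ n : ℤ, ‖x‖ = ‖W‖ ^ n) ∧ 0 < e ∧ ‖w‖ = ‖W‖ ^ e ∧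
    Module.finrank K L = Module.finrank (kk K) (kk L) * e := by
  classical
  have hPL : ProperSpace L := FiniteDimensional.proper K L
  obtain ⟨w, hw0, hw1, hw⟩ := exists_unif K
  obtain ⟨W, hW0, hW1, hW⟩ := exists_unif L
  have hwne : w ≠ 0 := norm_pos_iff.1 hw0
  have hWne : W ≠ 0 := norm_pos_iff.1 hW0
  obtain ⟨n, hn⟩ := hW (algebraMap K L w) (by rwa [Ne, map_eq_zero])
  rw [norm_algebraMap'] at hn
  have hnpos : 0 < n := by
    by_contra hcon
    push Not at hcon
    have h1 : ‖W‖ ^ (0 : ℤ) ≤ ‖W‖ ^ n := zpow_le_zpow_right_of_le_one₀ hW0 hW1.le hcon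
    rw [zpow_zero, ← hn] at h1
    linarith
  obtain ⟨e, rfl⟩ : ∃ e : ℕ, (e : ℤ) = n := ⟨n.toNat, Int.toNat_of_nonneg hnpos.le⟩
  have hepos : 0 < e := by exact_mod_cast hnpos
  rw [zpow_natCast] at hn
  refine ⟨w, W, e, hw0, hw1, hw, hW0, hW1, hW, hepos, hn, ?_⟩
  -- bases
  have hfin : Module.Finite (kk K) (kk L) := by
    have : Finite (kk L) := finite_kk
    exact Module.Finite.of_finite
  let B := Module.finBasis (kk K) (kk L)
  have hlift : ∀ i, ∃ b : OO L, res b = B i := fun i => res_surjective (B i)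
  choose u hu using hlift
  have hures : (fun i => res (u i)) = B := funext hu
  have hind : LinearIndependent (kk K) (fun i => res (u i)) := by
    rw [hures]; exact B.linearIndependent
  have hspan : ∀ y : kk L, ∃ g : Fin (Module.finrank (kk K) (kk L)) → kk K,
      ∑ i, g i • res (u i) = y := by
    intro y
    refine ⟨fun i => B.repr y i, ?_⟩
    simp only [hu]
    exact B.sum_repr y
  let t : Fin e → L := fun j => W ^ (j : ℕ)
  have ht0 : ∀ j, t j ≠ 0 := fun j => pow_ne_zero _ hWne
  have htn : ∀ j, ‖t j‖ = ‖W‖ ^ ((j : ℕ) : ℤ) := by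
    intro j
    simp only [t, norm_pow, zpow_natCast]
  have hwz : ∀ k : ℤ, ‖w‖ ^ k = ‖W‖ ^ ((e : ℤ) * k) := by
    intro k
    rw [hn, ← zpow_natCast, ← zpow_mul]
  have hLI := linInd_prod hind ht0 (by
    intro j j' c hc hjj
    obtain ⟨k, hk⟩ := hw c hc
    rw [htn, htn, hk, hwz, ← zpow_add₀ hW0.ne'] at hjj
    have h1 := zpow_inj' hW0 hW1 hjj
    have h2 := j.2
    have h3 := j'.2
    have h4 : k = 0 := by
      have h5 : (e : ℤ) * k < e := by omega
      have h6 : -(e : ℤ) < (e : ℤ) * k := by omega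
      have h7 : (0 : ℤ) < e := by exact_mod_cast hepos
      nlinarith
    apply Fin.ext
    rw [h4, mul_zero, zero_add] at h1
    exact_mod_cast h1)
  have hSP := span_prod (K := K) hspan (t := t) (by
    intro x hx
    obtain ⟨k, hk⟩ := hW x hx
    have h7 : (0 : ℤ) < e := by exact_mod_cast hepos
    have h1 := Int.emod_nonneg k h7.ne'
    have h2 := Int.emod_lt_of_pos k h7
    refine ⟨⟨(k % e).toNat, by omega⟩, w ^ (k / e), zpow_ne_zero _ hwne, ht0 _, ?_⟩
    rw [hk, htn, norm_zpow, hwz, ← zpow_add₀ hW0.ne']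
    congr 1
    simp only [Int.toNat_of_nonneg h1]
    exact (Int.mul_ediv_add_emod k e).symm)
  have hB := Module.finrank_eq_card_basis (Module.Basis.mk hLI (by rw [hSP]))
  rw [hB, Fintype.card_prod, Fintype.card_fin, Fintype.card_fin]

end struct

end Pool.Agent.Lib.MP_12adaf_nt
end

section

/-!
The three cases of the degree `2m` theorem.
-/

set_option autoImplicit false

namespace Pool.Agent.Lib.MP_12adaf_nt

open Polynomial

variable {K L : Type*} [NontriviallyNormedField K] [IsUltrametricDist K] [ProperSpace K]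
  [NontriviallyNormedField L] [IsUltrametricDist L] [NormedAlgebra K L] [FiniteDimensional K L]

attribute [local instance] resAlg

omit [ProperSpace K] [FiniteDimensional K L] [NontriviallyNormedField L] [IsUltrametricDist L]
  [NormedAlgebra K L] [NontriviallyNormedField K] [IsUltrametricDist K] in
theorem res_two {F : Type*} [NormedField F] [IsUltrametricDist F] :
    (2 : kk F) = res (2 : OO F) := by
  rw [map_ofNat]

/-- Even residue degree: a square root. -/
theorem case_even [CharZero K] (hf : Even (Module.finrank (kk K) (kk L))) :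
    ∃ d : K, ¬ IsSquare d ∧ IsSquare (algebraMap K L d) := by
  have hPL : ProperSpace L := FiniteDimensional.proper K L
  have hfinK : Finite (kk K) := finite_kk
  have hfinL : Finite (kk L) := finite_kk
  obtain ⟨c', hc', y', hy', hy2'⟩ := exists_quad (kk K) (kk L) hf
  obtain ⟨c, rfl⟩ := res_surjective c'
  obtain ⟨a₀, rfl⟩ := res_surjective y'
  set f : (OO L)[X] := X ^ 2 + X + C (incl K L c) with hfdef
  have hfe : ∀ a : OO L, f.eval a = a ^ 2 + a + incl K L c := by
    intro a; rw [hfdef]; simp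
  have hfd : ∀ a : OO L, f.derivative.eval a = 2 * a + 1 := by
    intro a; rw [hfdef]; simp [one_add_one_eq_two]
  obtain ⟨a, ha, _⟩ := hensel f a₀ (by
    rw [← res_eq_zero_iff, hfe, map_add, map_add, map_pow, ← algebraMap_res]
    exact hy') (by
    rw [← res_ne_zero_iff, hfd, map_add, map_mul, map_one, map_ofNat]
    exact hy2')
  rw [hfe] at ha
  have ha' : (a : L) ^ 2 + a + algebraMap K L (c : K) = 0 := by
    have := congrArg (fun z : OO L => (z : L)) ha
    simpa [coe_incl] using this
  refine ⟨1 - 4 * (c : K), ?_, ⟨2 * (a : L) + 1, ?_⟩⟩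
  · rintro ⟨s, hs⟩
    set b : K := (s - 1) / 2 with hb
    have h2 : (2 : K) ≠ 0 := two_ne_zero
    have hroot : b ^ 2 + b + c = 0 := by
      rw [hb]
      field_simp
      linear_combination -hs
    have hbn : ‖b‖ ≤ 1 := by
      by_contra hcon
      push Not at hcon
      have h3 : b ^ 2 = -(b + c) := by linear_combination hroot
      have h4 : ‖b‖ ^ 2 ≤ ‖b‖ := by
        rw [← norm_pow, h3, norm_neg]
        exact (IsUltrametricDist.norm_add_le_max _ _).trans
          (max_le le_rfl ((norm_le_one c).trans hcon.le))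
      nlinarith
    apply hc' (res ⟨b, hbn⟩)
    rw [← map_pow, ← map_add, ← map_add]
    have h5 : (⟨b, hbn⟩ ^ 2 + ⟨b, hbn⟩ + c : OO K) = 0 := by
      apply Subtype.ext
      exact hroot
    rw [h5, map_zero]
  · rw [map_sub, map_mul, map_one, map_ofNat]
    linear_combination (-4) * ha'

/-- Odd residue degree, odd residue characteristic: a square root. -/
theorem case_odd_tame {w : K} {W : L} {e' : ℕ} (hw0 : 0 < ‖w‖) (hw1 : ‖w‖ < 1)
    (hw : ∀ x : K, x ≠ 0 → ∃ n : ℤ, ‖x‖ = ‖w‖ ^ n) (hW0 : 0 < ‖W‖)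
    (hwW : ‖w‖ = ‖W‖ ^ (2 * e')) (hf : Odd (Module.finrank (kk K) (kk L)))
    (h2 : ‖(2 : K)‖ = 1) :
    ∃ d : K, ¬ IsSquare d ∧ IsSquare (algebraMap K L d) := by
  have hPL : ProperSpace L := FiniteDimensional.proper K L
  have hfinK : Finite (kk K) := finite_kk
  have hfinL : Finite (kk L) := finite_kk
  have hwne : w ≠ 0 := norm_pos_iff.1 hw0
  have hWne : W ≠ 0 := norm_pos_iff.1 hW0
  have hwL : algebraMap K L w ≠ 0 := by rwa [Ne, map_eq_zero]
  have hEn : ‖W ^ (2 * e') / algebraMap K L w‖ = 1 := by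
    rw [norm_div, norm_pow, norm_algebraMap', hwW, div_self (pow_ne_zero _ hW0.ne')]
  let E : OO L := ⟨W ^ (2 * e') / algebraMap K L w, hEn.le⟩
  have hE0 : res E ≠ 0 := (res_ne_zero_iff E).2 hEn
  have h2O : ‖((2 : OO K) : K)‖ = 1 := by
    have : ((2 : OO K) : K) = 2 := rfl
    rw [this]; exact h2
  have h2k : (2 : kk K) ≠ 0 := by
    rw [res_two]
    exact (res_ne_zero_iff _).2 h2O
  have h2kL : (2 : kk L) ≠ 0 := by
    intro h
    apply h2k
    apply (algebraMap (kk K) (kk L)).injective
    rwa [map_ofNat, map_zero]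
  obtain ⟨u', hu', D', hD'⟩ := exists_sq_factor (kk K) (kk L) hf h2k (res E) hE0
  obtain ⟨u, rfl⟩ := res_surjective u'
  obtain ⟨D₀, rfl⟩ := res_surjective D'
  have hD₀ : res D₀ ≠ 0 := by
    intro h
    rw [h] at hD'
    apply hE0
    rw [hD']; ring
  have huL : res (incl K L u) ≠ 0 := by
    rw [← algebraMap_res, Ne, map_eq_zero]
    exact hu'
  set f : (OO L)[X] := C (incl K L u) * X ^ 2 - C E with hfdef
  have hfe : ∀ a : OO L, f.eval a = incl K L u * a ^ 2 - E := by
    intro a; rw [hfdef]; simp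
  have hfd : ∀ a : OO L, f.derivative.eval a = incl K L u * (2 * a) := by
    intro a; rw [hfdef]; simp [one_add_one_eq_two]
  obtain ⟨D, hD, _⟩ := hensel f D₀ (by
    rw [← res_eq_zero_iff, hfe, map_sub, map_mul, map_pow, ← algebraMap_res, ← hD', sub_self]) (by
    rw [← res_ne_zero_iff, hfd, map_mul, map_mul, map_ofNat]
    exact mul_ne_zero huL (mul_ne_zero h2kL hD₀))
  rw [hfe] at hD
  have hD1 : algebraMap K L (u : K) * (D : L) ^ 2 = W ^ (2 * e') / algebraMap K L w := by
    have := congrArg (fun z : OO L => (z : L)) hD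
    have h3 : (incl K L u : L) * (D : L) ^ 2 - (E : L) = 0 := by simpa using this
    rw [coe_incl] at h3
    exact sub_eq_zero.1 h3
  have hun : ‖(u : K)‖ = 1 := (res_ne_zero_iff u).1 hu'
  have hDne : (D : L) ≠ 0 := by
    intro h
    rw [h] at hD1
    have : W ^ (2 * e') / algebraMap K L w ≠ 0 := div_ne_zero (pow_ne_zero _ hWne) hwL
    apply this
    rw [← hD1]; ring
  refine ⟨w * u, ?_, ⟨W ^ e' / D, ?_⟩⟩
  · rintro ⟨s, hs⟩
    have hsne : s ≠ 0 := by
      rintro rfl
      have h3 : ‖w * (u : K)‖ = 0 := by rw [hs]; simp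
      rw [norm_mul, hun, mul_one] at h3
      exact hw0.ne' h3
    obtain ⟨n, hn⟩ := hw s hsne
    have h3 : ‖w‖ = ‖s‖ * ‖s‖ := by
      rw [← norm_mul, ← hs, norm_mul, hun, mul_one]
    rw [hn, ← zpow_add₀ hw0.ne'] at h3
    have h4 : ‖w‖ ^ (1 : ℤ) = ‖w‖ ^ (n + n) := by rw [zpow_one]; exact h3
    have h5 := zpow_inj' hw0 hw1 h4
    omega
  · rw [map_mul]
    rw [eq_div_iff hwL] at hD1
    field_simp
    rw [← pow_mul, mul_comm e' 2, ← hD1]
    ring

/-- Odd residue degree, residue characteristic two: a subfield of degree `m`. -/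
theorem case_odd_two {w : K} {W : L} {e' : ℕ} (hw0 : 0 < ‖w‖) (hw1 : ‖w‖ < 1)
    (hw : ∀ x : K, x ≠ 0 → ∃ n : ℤ, ‖x‖ = ‖w‖ ^ n) (hW0 : 0 < ‖W‖) (hW1 : ‖W‖ < 1)
    (he' : Odd e')
    (hwW : ‖w‖ = ‖W‖ ^ (2 * e'))
    (h2 : ‖(2 : K)‖ < 1) :
    ∃ T : IntermediateField K L, Module.finrank K T = Module.finrank (kk K) (kk L) * e' := by
  classical
  have hPL : ProperSpace L := FiniteDimensional.proper K L
  have hfinK : Finite (kk K) := finite_kk
  have hfinL : Finite (kk L) := finite_kk
  have hmf : Module.Finite (kk K) (kk L) := Module.Finite.of_finite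
  have hepos : 0 < e' := he'.pos
  have hwne : w ≠ 0 := norm_pos_iff.1 hw0
  have hWne : W ≠ 0 := norm_pos_iff.1 hW0
  have hwL : algebraMap K L w ≠ 0 := by rwa [Ne, map_eq_zero]
  have hEn : ‖W ^ (2 * e') / algebraMap K L w‖ = 1 := by
    rw [norm_div, norm_pow, norm_algebraMap', hwW, div_self (pow_ne_zero _ hW0.ne')]
  let E : OO L := ⟨W ^ (2 * e') / algebraMap K L w, hEn.le⟩
  -- the unramified generator
  obtain ⟨ζ, hζ⟩ := Field.exists_primitive_element (kk K) (kk L)
  set f := Module.finrank (kk K) (kk L) with hfdef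
  have hζint : IsIntegral (kk K) ζ := Algebra.IsIntegral.isIntegral ζ
  have hdeg : (minpoly (kk K) ζ).natDegree = f := by
    rw [← IntermediateField.adjoin.finrank hζint, hζ, IntermediateField.finrank_top']
  have hlifts : minpoly (kk K) ζ ∈ Polynomial.lifts (res (F := K)) := by
    rw [Polynomial.lifts_iff_coeff_lifts]
    intro n
    exact res_surjective _
  obtain ⟨r, hrmap, hrdeg, hrmon⟩ :=
    Polynomial.lifts_and_natDegree_eq_and_monic hlifts (minpoly.monic hζint)
  obtain ⟨ζ₀, hζ₀⟩ := res_surjective ζ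
  set R : (OO L)[X] := r.map (incl K L) with hR
  have hRres : R.map (res (F := L)) = (minpoly (kk K) ζ).map (algebraMap (kk K) (kk L)) := by
    rw [hR, ← hrmap, Polynomial.map_map, Polynomial.map_map]
    rfl
  obtain ⟨z, hz, hzζ⟩ := hensel R ζ₀ (by
    rw [← res_eq_zero_iff, ← Polynomial.eval_map_apply, hRres, hζ₀, Polynomial.eval_map_algebraMap]
    exact minpoly.aeval _ _) (by
    rw [← res_ne_zero_iff, ← Polynomial.eval_map_apply, ← Polynomial.derivative_map, hRres, hζ₀,
      Polynomial.derivative_map, Polynomial.eval_map_algebraMap]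
    have hsep : (minpoly (kk K) ζ).Separable := Algebra.IsSeparable.isSeparable (kk K) ζ
    exact hsep.aeval_derivative_ne_zero (minpoly.aeval _ _))
  have hzres : res z = ζ := by
    rw [← hζ₀, res_eq_iff]; exact hzζ
  have hzroot : Polynomial.aeval (z : L) (r.map (OO K).subtype) = 0 := by
    have h3 := congrArg (fun x : OO L => (x : L)) hz
    rw [hR] at h3
    simp only [ZeroMemClass.coe_zero] at h3
    rw [← h3, Polynomial.eval_map, Polynomial.aeval_def, Polynomial.eval₂_map]
    change _ = (OO L).subtype (Polynomial.eval₂ (incl K L) z r)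
    rw [Polynomial.hom_eval₂]
    rfl
  -- powers of `z`
  let u : Fin f → OO L := fun i => z ^ (i : ℕ)
  have hures : (fun i : Fin f => res (u i)) = fun i : Fin f => ζ ^ (i : ℕ) := by
    funext i
    simp only [u, map_pow, hzres]
  have hind : LinearIndependent (kk K) (fun i => res (u i)) := by
    rw [hures]
    have h3 := linearIndependent_pow (K := kk K) ζ
    rw [hdeg] at h3
    exact h3
  -- the unit `a`
  have hspan : ∃ g : Fin f → kk K, ∑ i, g i • res (u i) = res E := by
    have hfpos : 0 < f := Module.finrank_pos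
    have : Nonempty (Fin f) := ⟨⟨0, hfpos⟩⟩
    have h3 := hind.span_eq_top_of_card_eq_finrank' (by rw [Fintype.card_fin])
    have h4 : res E ∈ Submodule.span (kk K) (Set.range fun i => res (u i)) := by
      rw [h3]; exact Submodule.mem_top
    exact (Submodule.mem_span_range_iff_exists_fun _).1 h4
  obtain ⟨g, hg⟩ := hspan
  have hlift : ∀ i, ∃ b : OO K, res b = g i := fun i => res_surjective (g i)
  choose b hb using hlift
  let a : OO L := ∑ i, incl K L (b i) * u i
  have hares : res a = res E := by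
    rw [← hg]
    simp only [a, map_sum]
    apply Finset.sum_congr rfl
    intro i _
    rw [map_mul, Algebra.smul_def, ← hb, algebraMap_res]
  have hE0 : res E ≠ 0 := (res_ne_zero_iff E).2 hEn
  have han : ‖(a : L)‖ = 1 := by
    rw [← res_ne_zero_iff, hares]; exact hE0
  have hane : (a : L) ≠ 0 := by
    rw [← norm_ne_zero_iff, han]; exact one_ne_zero
  have hE1n : ‖(E : L) / a‖ = 1 := by
    rw [norm_div, han, div_one]; exact hEn
  let E1 : OO L := ⟨(E : L) / a, hE1n.le⟩
  have hE1res : res E1 = 1 := by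
    have h3 : E1 * a = E := by
      apply Subtype.ext
      change (E : L) / a * a = E
      exact div_mul_cancel₀ _ hane
    have h4 := congrArg res h3
    rw [map_mul, hares] at h4
    exact mul_right_cancel₀ hE0 (by rw [h4, one_mul])
  have h2L : (2 : kk L) = 0 := by
    rw [res_two, res_eq_zero_iff]
    have : ((2 : OO L) : L) = algebraMap K L 2 := by
      rw [map_ofNat]; rfl
    rw [this, norm_algebraMap']
    exact h2
  obtain ⟨v, hv, hv1⟩ := hensel (X ^ e' - C E1 : (OO L)[X]) 1 (by
    rw [← res_eq_zero_iff]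
    simp [hE1res]) (by
    rw [← res_ne_zero_iff]
    obtain ⟨j, hj⟩ := he'
    have : (e' : kk L) = 1 := by
      rw [hj]; push_cast
      rw [h2L]; ring
    rw [derivative_sub, derivative_X_pow, derivative_C]
    simp [this])
  have hvres : res v = 1 := by
    have : res v = res (1 : OO L) := by
      rw [res_eq_iff]; exact hv1
    rw [this, map_one]
  have hvn : ‖(v : L)‖ = 1 := by
    rw [← res_ne_zero_iff, hvres]; exact one_ne_zero
  have hvne : (v : L) ≠ 0 := by
    rw [← norm_ne_zero_iff, hvn]; exact one_ne_zero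
  have hvE : (v : L) ^ e' = (E : L) / a := by
    have h3 : v ^ e' - E1 = 0 := by simpa using hv
    have h4 := congrArg (fun x : OO L => (x : L)) h3
    have h5 : (v : L) ^ e' - (E1 : L) = 0 := by simpa using h4
    exact sub_eq_zero.1 h5
  set t : L := W ^ 2 / v with ht
  have htn : ‖t‖ = ‖W‖ ^ 2 := by rw [ht, norm_div, hvn, div_one, norm_pow]
  have htne : t ≠ 0 := div_ne_zero (pow_ne_zero _ hWne) hvne
  have hte : t ^ e' = algebraMap K L w * a := by
    rw [ht, div_pow, hvE]
    change (W ^ 2) ^ e' / (W ^ (2 * e') / algebraMap K L w / a) = _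
    rw [← pow_mul]
    have h3 : W ^ (2 * e') ≠ 0 := pow_ne_zero _ hWne
    field_simp
  -- the subfield
  let U : IntermediateField K L := IntermediateField.adjoin K {(z : L)}
  have hzU : (z : L) ∈ U := IntermediateField.mem_adjoin_simple_self K (z : L)
  have haU : (a : L) ∈ U := by
    have h3 : (a : L) = ∑ i, algebraMap K L (b i : K) * (z : L) ^ (i : ℕ) := by
      simp only [a, u]
      push_cast
      rfl
    rw [h3]
    apply U.sum_mem
    intro i _
    exact U.mul_mem (U.algebraMap_mem _) (pow_mem hzU _)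
  let T' : IntermediateField U L := IntermediateField.adjoin U {t}
  refine ⟨T'.restrictScalars K, ?_⟩
  have htT : t ∈ T'.restrictScalars K := IntermediateField.mem_adjoin_simple_self U t
  have hzT : (z : L) ∈ T'.restrictScalars K := by
    have : algebraMap U L ⟨(z : L), hzU⟩ ∈ T' := T'.algebraMap_mem _
    exact this
  apply le_antisymm
  · -- upper bound
    have h3 : Module.finrank K (T'.restrictScalars K) = Module.finrank K U * Module.finrank U T' :=
      (Module.finrank_mul_finrank K U T').symm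
    rw [h3]
    have h4 : Module.finrank K U ≤ f := by
      rw [IntermediateField.adjoin.finrank (Algebra.IsIntegral.isIntegral _)]
      have h5 : (r.map (OO K).subtype).Monic := hrmon.map _
      have h6 := minpoly.min K (z : L) h5 hzroot
      have h7 := Polynomial.natDegree_le_natDegree h6
      rw [hrmon.natDegree_map, hrdeg, hdeg] at h7
      exact h7
    have h5 : Module.finrank U T' ≤ e' := by
      rw [IntermediateField.adjoin.finrank (Algebra.IsIntegral.isIntegral _)]
      have h6 : (X ^ e' - C (⟨algebraMap K L w * a, U.mul_mem (U.algebraMap_mem _) haU⟩ : U) :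
          U[X]).Monic := monic_X_pow_sub_C _ hepos.ne'
      have h7 : Polynomial.aeval t (X ^ e' - C (⟨algebraMap K L w * a,
          U.mul_mem (U.algebraMap_mem _) haU⟩ : U) : U[X]) = 0 := by
        simp only [map_sub, map_pow, aeval_X, aeval_C]
        rw [hte]
        exact sub_self _
      have h8 := Polynomial.natDegree_le_natDegree (minpoly.min U t h6 h7)
      rwa [natDegree_X_pow_sub_C] at h8
    exact Nat.mul_le_mul h4 h5
  · -- lower bound
    let tt : Fin e' → L := fun j => t ^ (j : ℕ)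
    have hwz : ∀ k : ℤ, ‖w‖ ^ k = ‖W‖ ^ ((2 * e' : ℤ) * k) := by
      intro k
      rw [hwW, ← zpow_natCast, ← zpow_mul]
      push_cast
      rfl
    have httn : ∀ j, ‖tt j‖ = ‖W‖ ^ (2 * ((j : ℕ) : ℤ)) := by
      intro j
      simp only [tt]
      rw [norm_pow, htn, ← pow_mul, ← zpow_natCast]
      push_cast
      rfl
    have hLI := linInd_prod hind (t := tt) (fun j => pow_ne_zero _ htne) (by
      intro j j' c hc hjj
      obtain ⟨k, hk⟩ := hw c hc
      rw [httn, httn, hk, hwz, ← zpow_add₀ hW0.ne'] at hjj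
      have h1 := zpow_inj' hW0 hW1 hjj
      have h2 := j.2
      have h3 := j'.2
      have h4 : k = 0 := by
        have h0 : (e' : ℤ) * k = j - j' := by
          have : 2 * ((e' : ℤ) * k) = 2 * (j - j' : ℤ) := by linarith
          linarith
        have h5 : (e' : ℤ) * k < e' := by omega
        have h6 : -(e' : ℤ) < (e' : ℤ) * k := by omega
        have h7 : (0 : ℤ) < e' := by exact_mod_cast hepos
        nlinarith
      apply Fin.ext
      rw [h4, mul_zero, zero_add] at h1
      omega)
    have hmem : ∀ p : Fin f × Fin e', (u p.1 : L) * tt p.2 ∈ T'.restrictScalars K := by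
      intro p
      apply (T'.restrictScalars K).mul_mem
      · have : (u p.1 : L) = (z : L) ^ ((p.1 : Fin f) : ℕ) := by simp only [u]; push_cast; rfl
        rw [this]
        exact pow_mem hzT _
      · exact pow_mem htT _
    have hLI' : LinearIndependent K (fun p : Fin f × Fin e' =>
        (⟨(u p.1 : L) * tt p.2, hmem p⟩ : T'.restrictScalars K)) := by
      apply LinearIndependent.of_comp (T'.restrictScalars K).val.toLinearMap
      exact hLI
    have := hLI'.fintype_card_le_finrank
    rwa [Fintype.card_prod, Fintype.card_fin, Fintype.card_fin] at this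

end Pool.Agent.Lib.MP_12adaf_nt
end

section

/-!
Extensions of degree `2m`, `m` odd, of a local field of characteristic zero contain a new square
root or a subfield of degree `m`.
-/

set_option autoImplicit false

namespace Pool.Agent.Lib.MP_12adaf_nt

attribute [local instance] resAlg

/-- Normed version. -/
theorem sqrt_or_odd_subfield_normed {K L : Type*} [NontriviallyNormedField K]
    [IsUltrametricDist K] [ProperSpace K] [CharZero K] [NontriviallyNormedField L]
    [IsUltrametricDist L] [NormedAlgebra K L] [FiniteDimensional K L] {m : ℕ} (hm : Odd m)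
    (h : Module.finrank K L = 2 * m) :
    (∃ d : K, ¬ IsSquare d ∧ IsSquare (algebraMap K L d)) ∨
      (∃ T : IntermediateField K L, Module.finrank K T = m) := by
  obtain ⟨w, W, e, hw0, hw1, hw, hW0, hW1, _, _, hwW, hef⟩ := struct K L
  rcases Nat.even_or_odd (Module.finrank (kk K) (kk L)) with hf | hf
  · exact Or.inl (case_even hf)
  · have he : Even e := by
      rw [h] at hef
      have h1 : Even (Module.finrank (kk K) (kk L) * e) := by
        rw [← hef]; exact even_two_mul m
      rw [Nat.even_mul] at h1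
      rcases h1 with h1 | h1
      · exact absurd h1 (Nat.not_even_iff_odd.2 hf)
      · exact h1
    obtain ⟨e', rfl⟩ := he
    have hee : e' + e' = 2 * e' := by ring
    rw [hee] at hwW hef
    have hm' : Module.finrank (kk K) (kk L) * e' = m := by
      rw [h] at hef
      have : 2 * m = 2 * (Module.finrank (kk K) (kk L) * e') := by rw [hef]; ring
      omega
    have he' : Odd e' := by
      rw [← hm'] at hm
      exact (Nat.odd_mul.1 hm).2
    have h2le : ‖(2 : K)‖ ≤ 1 := by
      have : ((2 : OO K) : K) = 2 := rfl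
      rw [← this]; exact norm_le_one _
    rcases lt_or_eq_of_le h2le with h2 | h2
    · right
      obtain ⟨T, hT⟩ := case_odd_two hw0 hw1 hw hW0 hW1 he' hwW h2
      exact ⟨T, hT.trans hm'⟩
    · left
      exact case_odd_tame hw0 hw1 hw hW0 hwW hf h2

/-- **Degree `2m` extensions of local fields.** -/
theorem sqrt_or_odd_subfield {K L : Type*} [NontriviallyNormedField K] [IsUltrametricDist K]
    [ProperSpace K] [CharZero K] [Field L] [Algebra K L] [FiniteDimensional K L] {m : ℕ}
    (hm : Odd m) (h : Module.finrank K L = 2 * m) :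
    (∃ d : K, ¬ IsSquare d ∧ IsSquare (algebraMap K L d)) ∨
      (∃ T : IntermediateField K L, Module.finrank K T = m) := by
  let _i1 : NontriviallyNormedField L := spectralNorm.nontriviallyNormedField K L
  let _i2 : NormedAlgebra K L := spectralNorm.normedAlgebra K L
  have _i3 : IsUltrametricDist L :=
    IsUltrametricDist.isUltrametricDist_of_isNonarchimedean_norm isNonarchimedean_spectralNorm
  exact sqrt_or_odd_subfield_normed hm h

end Pool.Agent.Lib.MP_12adaf_nt
end

section

/-!
# The local lemma at all places of a number field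
-/

namespace Pool.Agent.Lib.MP_12adaf_nt

set_option linter.unusedSectionVars false
set_option linter.unusedVariables false

open Finset Polynomial Filter Topology

lemma LocW.map {K L : Type*} [Field K] [Field L] (φ : K →+* L) {N : ℕ} {F : K[X]}
    (h : LocW N F) : LocW N (F.map φ) := by
  obtain ⟨g, t, T, hg, hgN, hsep, h0, hL, hR, hfs, hT, hch⟩ := h
  have hfm := fpoly_monic hg hgN t
  refine ⟨g.map φ, φ t, T.map φ, hg.map φ, by rw [natDegree_map, hgN], hsep.map, ?_, ?_, ?_, ?_,
    ?_, ?_⟩
  · rw [eval_zero_map]; exact (map_ne_zero φ).mpr h0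
  · rw [map_Lmat φ hg]
    have : ((Lmat N g).map φ).det = φ (Lmat N g).det := by rw [RingHom.map_det]; rfl
    rw [this]
    exact (map_ne_zero φ).mpr hL
  · rw [← map_hpoly φ hg, resultant_map_map]
    exact (map_ne_zero φ).mpr hR
  · rw [← map_fpoly φ hg]
    exact hfs.map
  · rw [degree_map]; exact hT
  · rw [← map_fpoly φ hg, ← map_charT φ hfm.1, hch]

lemma LocW.of_equiv {K L : Type*} [Field K] [Field L] (e : K ≃+* L) {N : ℕ} {F : K[X]}
    (h : LocW N (F.map (e : K →+* L))) : LocW N F := by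
  have h1 := h.map (e.symm : L →+* K)
  rw [Polynomial.map_map] at h1
  have h2 : (e.symm : L →+* K).comp (e : K →+* L) = RingHom.id K := by
    ext x; simp
  rwa [h2, Polynomial.map_id] at h1

/-- A monic factorisation. -/
lemma exists_monic_factor {K : Type*} [Field K] {F : K[X]} (hF : F.Monic)
    (h : ∃ p : K[X], Irreducible p ∧ p ∣ F ∧ ¬ 4 ∣ p.natDegree) :
    ∃ p q : K[X], p.Monic ∧ q.Monic ∧ Irreducible p ∧ F = p * q ∧ ¬ 4 ∣ p.natDegree := by
  obtain ⟨p, hp, ⟨q, hq⟩, h4⟩ := h
  have hp0 : p.leadingCoeff ≠ 0 := leadingCoeff_ne_zero.mpr hp.ne_zero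
  have hu : IsUnit (C p.leadingCoeff⁻¹ : K[X]) :=
    isUnit_C.mpr (isUnit_iff_ne_zero.mpr (inv_ne_zero hp0))
  have hpm : (p * C p.leadingCoeff⁻¹).Monic := monic_mul_leadingCoeff_inv hp.ne_zero
  have hF' : F = (p * C p.leadingCoeff⁻¹) * (C p.leadingCoeff * q) := by
    rw [hq]
    have : (C p.leadingCoeff⁻¹ : K[X]) * C p.leadingCoeff = 1 := by
      rw [← C_mul, inv_mul_cancel₀ hp0, C_1]
    linear_combination (-(p * q)) * this
  refine ⟨p * C p.leadingCoeff⁻¹, C p.leadingCoeff * q, hpm, ?_, ?_, hF', ?_⟩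
  · rw [hF'] at hF
    exact hpm.of_mul_monic_left hF
  · exact (irreducible_mul_isUnit hu).mpr hp
  · rwa [natDegree_mul_C (inv_ne_zero hp0)]

lemma exists_factor_of_not_dvd {K : Type*} [Field K] : ∀ (n : ℕ) {F : K[X]}, F.Monic →
    F.natDegree = n → ¬ 4 ∣ F.natDegree →
    ∃ p : K[X], Irreducible p ∧ p ∣ F ∧ ¬ 4 ∣ p.natDegree := by
  intro n
  induction n using Nat.strong_induction_on with
  | _ n ih =>
    intro F hF hn h4
    have hu : ¬ IsUnit F := by
      intro h
      have := natDegree_eq_zero_of_isUnit h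
      rw [this] at h4
      exact h4 (dvd_zero 4)
    obtain ⟨p, hpm, hpi, q, hq⟩ := exists_monic_irreducible_factor F hu
    by_cases hp4 : 4 ∣ p.natDegree
    · have hqm : q.Monic := by
        rw [hq] at hF
        exact hpm.of_mul_monic_left hF
      have hdeg : F.natDegree = p.natDegree + q.natDegree := by
        rw [hq, hpm.natDegree_mul hqm]
      have hppos : 0 < p.natDegree := hpi.natDegree_pos
      have hq4 : ¬ 4 ∣ q.natDegree := by
        intro h
        apply h4
        rw [hdeg]
        exact dvd_add hp4 h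
      obtain ⟨r, hr, hrq, hr4⟩ := ih q.natDegree (by omega) hqm rfl hq4
      exact ⟨r, hr, hrq.trans ⟨p, by rw [hq]; ring⟩, hr4⟩
    · exact ⟨p, hpi, ⟨q, hq⟩, hp4⟩

theorem locW_of_data {K Cl : Type*} [NontriviallyNormedField K] [NormedField Cl]
    [NormedAlgebra K Cl] [IsAlgClosed Cl] [IsGalois K Cl] [CharZero K] [CharZero Cl]
    (hiso : ∀ (σ : Cl ≃ₐ[K] Cl) (x : Cl), ‖σ x‖ = ‖x‖) (hLP : LPProp K)
    {N : ℕ} (hN : Even N) {F : K[X]} (hF : F.Monic) (hdeg : F.natDegree = N + 2)
    (hsep : F.Separable) (h4 : ∃ p : K[X], Irreducible p ∧ p ∣ F ∧ ¬ 4 ∣ p.natDegree) :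
    LocW N F := by
  obtain ⟨p, q, hp, hq, hpi, rfl, hp4⟩ := exists_monic_factor hF h4
  refine locW_of_mul hiso hLP hN hp hq hpi hsep ?_ hp4
  rw [← hdeg, hp.natDegree_mul hq]

lemma LPProp_real : LPProp ℝ := by
  intro p hp m hm hdeg
  right
  have h1 := hp.out.natDegree_le_two
  have h2 : m = 1 := by
    obtain ⟨k, hk⟩ := hm
    omega
  exact ⟨⊥, by rw [IntermediateField.finrank_bot, h2]⟩

lemma LPProp_complex : LPProp ℂ := by
  intro p hp m hm hdeg
  have h1 := IsAlgClosed.degree_eq_one_of_irreducible ℂ hp.out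
  have h2 : p.natDegree = 1 := natDegree_eq_of_degree_eq_some h1
  have := hm.pos
  omega

lemma LPProp_padic (K : Type*) [NontriviallyNormedField K] [IsUltrametricDist K]
    [ProperSpace K] [CharZero K] : LPProp K := by
  intro p hp m hm hdeg
  have hfin : Module.Finite K (AdjoinRoot p) := (AdjoinRoot.powerBasis hp.out.ne_zero).finite
  have hfr : Module.finrank K (AdjoinRoot p) = 2 * m := by
    rw [(AdjoinRoot.powerBasis hp.out.ne_zero).finrank, AdjoinRoot.powerBasis_dim]
    omega
  exact sqrt_or_odd_subfield hm hfr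

lemma locW_real {N : ℕ} (hN : Even N) {F : ℝ[X]} (hF : F.Monic) (hdeg : F.natDegree = N + 2)
    (hsep : F.Separable) (h4 : ∃ p : ℝ[X], Irreducible p ∧ p ∣ F ∧ ¬ 4 ∣ p.natDegree) :
    LocW N F := by
  have : IsAlgClosure ℝ ℂ := ⟨inferInstance, inferInstance⟩
  have : IsGalois ℝ ℂ := IsAlgClosure.isGalois ℝ ℂ
  refine locW_of_data (Cl := ℂ) ?_ LPProp_real hN hF hdeg hsep h4
  intro σ x
  rcases Complex.real_algHom_eq_id_or_conj (σ : ℂ →ₐ[ℝ] ℂ) with h | h
  · have h1 : σ x = (σ : ℂ →ₐ[ℝ] ℂ) x := rfl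
    rw [h1, h]; rfl
  · have h1 : σ x = (σ : ℂ →ₐ[ℝ] ℂ) x := rfl
    rw [h1, h]
    exact Complex.norm_conj x

lemma locW_complex {N : ℕ} (hN : Even N) {F : ℂ[X]} (hF : F.Monic) (hdeg : F.natDegree = N + 2)
    (hsep : F.Separable) (h4 : ∃ p : ℂ[X], Irreducible p ∧ p ∣ F ∧ ¬ 4 ∣ p.natDegree) :
    LocW N F := by
  have : IsGalois ℂ ℂ := inferInstance
  refine locW_of_data (Cl := ℂ) ?_ LPProp_complex hN hF hdeg hsep h4
  intro σ x
  have h1 : σ x = x := σ.commutes x
  rw [h1]

lemma locW_padic {K : Type*} [NontriviallyNormedField K] [IsUltrametricDist K]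
    [ProperSpace K] [CharZero K] {N : ℕ} (hN : Even N) {F : K[X]} (hF : F.Monic)
    (hdeg : F.natDegree = N + 2) (hsep : F.Separable)
    (h4 : ∃ p : K[X], Irreducible p ∧ p ∣ F ∧ ¬ 4 ∣ p.natDegree) : LocW N F := by
  obtain ⟨Cl, i1, i2, i3, i4, i5, hiso⟩ := exists_normedAlgClosure K
  exact locW_of_data (Cl := Cl) hiso (LPProp_padic K) hN hF hdeg hsep h4

end Pool.Agent.Lib.MP_12adaf_nt
end
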