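import Mathlib
import Pool.Agent.Lib.MP_12adaf_nt.TF.Cong
import Pool.Agent.Lib.MP_12adaf_nt.Places
import Pool.Agent.Lib.MP_12adaf_nt.OCont
import Pool.Agent.Lib.MP_12adaf_nt.CaseA
import Pool.Agent.Lib.MP_12adaf_nt.Local

section

/-!
# Nearby symmetric matrices are congruent
-/

namespace Pool.Agent.Lib.MP_12adaf_nt.TF

set_option linter.unusedSectionVars false
set_option linter.unusedVariables false

open Finset Filter Topology Matrix

/-- Symmetric matrices near a nondegenerate one are congruent to it, by a matrix near the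
identity. -/
def OpenCong (K : Type*) [NormedField K] : Prop :=
  ∀ (n : ℕ) (S : Matrix (Fin n) (Fin n) K), S.IsSymm → S.det ≠ 0 → ∀ ε : ℝ, 0 < ε →
    ∃ δ : ℝ, 0 < δ ∧ ∀ H : Matrix (Fin n) (Fin n) K, H.IsSymm → (∀ i j, ‖H i j - S i j‖ < δ) →
      ∃ Y : Matrix (Fin n) (Fin n) K,
        (∀ i j, ‖Y i j - (1 : Matrix (Fin n) (Fin n) K) i j‖ < ε) ∧ Yᵀ * S * Y = H

/-- Square roots near `1` in a Banach algebra. -/
private theorem oc_exists_sqrt (K : Type*) [NontriviallyNormedField K] [CompleteSpace K]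
    [CharZero K] (A : Type*) [NormedRing A] [NormedAlgebra K A] [FiniteDimensional K A] :
    ∃ g : A → A, g 1 = 1 ∧ ContinuousAt g 1 ∧ (∀ᶠ z in 𝓝 (1 : A), g z * g z = z) ∧
      (∀ᶠ x in 𝓝 (1 : A), g (x * x) = x) := by
  have : CompleteSpace A := FiniteDimensional.complete K A
  let f : A → A := fun x => x * x
  let f' : A ≃L[K] A := ContinuousLinearEquiv.smulLeft (Units.mk0 (2 : K) two_ne_zero)
  have hf : HasStrictFDerivAt f (f' : A →L[K] A) 1 := by
    have h := (hasStrictFDerivAt_id (𝕜 := K) (1 : A)).mul' (hasStrictFDerivAt_id (𝕜 := K) (1 : A))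
    refine h.congr_fderiv ?_
    ext x
    simp [f', two_smul]
  have h1 : f 1 = 1 := one_mul 1
  refine ⟨hf.localInverse f f' 1, ?_, ?_, ?_, ?_⟩
  · have := hf.localInverse_apply_image
    rwa [h1] at this
  · have := hf.localInverse_continuousAt
    rwa [h1] at this
  · have := hf.eventually_right_inverse
    rwa [h1] at this
  · exact hf.eventually_left_inverse

section norms

attribute [local instance] Matrix.linftyOpNormedRing Matrix.linftyOpNormedAlgebra

private theorem oc_entry_le {K : Type*} [NormedField K] {n : ℕ} (A : Matrix (Fin n) (Fin n) K)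
    (i j : Fin n) : ‖A i j‖ ≤ ‖A‖ := by
  rw [Matrix.linfty_opNorm_def]
  have h1 : ‖A i j‖₊ ≤ ∑ j, ‖A i j‖₊ :=
    Finset.single_le_sum (f := fun j => ‖A i j‖₊) (fun _ _ => zero_le) (Finset.mem_univ j)
  have h2 : ∑ j, ‖A i j‖₊ ≤ Finset.univ.sup fun i => ∑ j, ‖A i j‖₊ :=
    Finset.le_sup (f := fun i => ∑ j, ‖A i j‖₊) (Finset.mem_univ i)
  exact_mod_cast h1.trans h2

private theorem oc_norm_le {K : Type*} [NormedField K] {n : ℕ} (A : Matrix (Fin n) (Fin n) K)
    {c : ℝ} (hc : 0 ≤ c) (h : ∀ i j, ‖A i j‖ ≤ c) : ‖A‖ ≤ n * c := by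
  rw [Matrix.linfty_opNorm_def]
  have h2 : (Finset.univ.sup fun i => ∑ j, ‖A i j‖₊) ≤ n * Real.toNNReal c := by
    refine Finset.sup_le fun i _ => ?_
    calc ∑ j, ‖A i j‖₊ ≤ ∑ _j : Fin n, Real.toNNReal c := by
          refine Finset.sum_le_sum fun j _ => ?_
          rw [← NNReal.coe_le_coe, Real.coe_toNNReal c hc]
          exact h i j
      _ = _ := by simp
  have h3 : ((Finset.univ.sup fun i => ∑ j, ‖A i j‖₊ : NNReal) : ℝ) ≤
      ((n * Real.toNNReal c : NNReal) : ℝ) := by exact_mod_cast h2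
  refine h3.trans ?_
  push_cast
  rw [Real.coe_toNNReal c hc]

private theorem oc_norm_transpose {K : Type*} [NormedField K] {n : ℕ}
    (A : Matrix (Fin n) (Fin n) K) : ‖Aᵀ‖ ≤ n * ‖A‖ :=
  oc_norm_le _ (norm_nonneg _) fun i j => oc_entry_le A j i

private theorem oc_main (K : Type*) [NontriviallyNormedField K] [CompleteSpace K]
    [CharZero K] : OpenCong K := by
  intro n S hS hdet ε hε
  obtain ⟨g, g1, gc, gr, gl⟩ := oc_exists_sqrt K (Matrix (Fin n) (Fin n) K)
  have hu : IsUnit S.det := isUnit_iff_ne_zero.2 hdet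
  obtain ⟨r1, hr1, hr1'⟩ := Metric.eventually_nhds_iff.1 gr
  obtain ⟨r2, hr2, hr2'⟩ := Metric.eventually_nhds_iff.1 gl
  set C : ℝ := ‖S⁻¹‖ * (n * ‖S‖) with hC
  have hC0 : 0 ≤ C := by positivity
  set η : ℝ := min ε (min r2 (r2 / (C + 1))) with hη
  have hη0 : 0 < η := by
    rw [hη]
    have : 0 < r2 / (C + 1) := by positivity
    exact lt_min hε (lt_min hr2 this)
  obtain ⟨r3, hr3, hr3'⟩ := Metric.continuousAt_iff.1 gc η hη0
  set δ : ℝ := min r1 r3 / (‖S⁻¹‖ * n + 1) with hδ
  have hm : 0 < min r1 r3 := lt_min hr1 hr3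
  have hδ0 : 0 < δ := by
    rw [hδ]
    positivity
  refine ⟨δ, hδ0, fun H hH hHS => ?_⟩
  set Z := S⁻¹ * H with hZ
  have hSS : S⁻¹ * S = 1 := Matrix.nonsing_inv_mul S hu
  have hSS' : S * S⁻¹ = 1 := Matrix.mul_nonsing_inv S hu
  have hZ1 : dist Z 1 < min r1 r3 := by
    rw [dist_eq_norm]
    have e1 : Z - 1 = S⁻¹ * (H - S) := by rw [hZ, mul_sub, hSS]
    rw [e1]
    have h1 : ‖H - S‖ ≤ n * δ := oc_norm_le _ hδ0.le fun i j => (hHS i j).le
    calc ‖S⁻¹ * (H - S)‖ ≤ ‖S⁻¹‖ * ‖H - S‖ := norm_mul_le _ _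
      _ ≤ ‖S⁻¹‖ * (n * δ) := by gcongr
      _ = (‖S⁻¹‖ * n) * δ := by ring
      _ < (‖S⁻¹‖ * n + 1) * δ := by nlinarith
      _ = min r1 r3 := by
        rw [hδ]
        have : 0 < ‖S⁻¹‖ * n + 1 := by positivity
        field_simp
  set Y := g Z with hY
  have hYY : Y * Y = Z := hr1' (lt_of_lt_of_le hZ1 (min_le_left _ _))
  have hYη : ‖Y - 1‖ < η := by
    have := hr3' (lt_of_lt_of_le hZ1 (min_le_right _ _))
    rwa [g1, dist_eq_norm] at this
  -- the second square root
  set Y' := S⁻¹ * Yᵀ * S with hY'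
  have hST : Sᵀ = S := hS
  have hHT : Hᵀ = H := hH
  have hSiT : (S⁻¹)ᵀ = S⁻¹ := by rw [Matrix.transpose_nonsing_inv, hST]
  have hYY' : Y' * Y' = Z := by
    calc Y' * Y' = S⁻¹ * Yᵀ * (S * S⁻¹) * Yᵀ * S := by rw [hY']; simp only [Matrix.mul_assoc]
      _ = S⁻¹ * (Yᵀ * Yᵀ) * S := by rw [hSS', Matrix.mul_one]; simp only [Matrix.mul_assoc]
      _ = S⁻¹ * (Y * Y)ᵀ * S := by rw [Matrix.transpose_mul]
      _ = S⁻¹ * (Hᵀ * (S⁻¹)ᵀ) * S := by rw [hYY, hZ, Matrix.transpose_mul]
      _ = S⁻¹ * H * (S⁻¹ * S) := by rw [hHT, hSiT]; simp only [Matrix.mul_assoc]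
      _ = Z := by rw [hSS, Matrix.mul_one]
  have hY'1 : dist Y' 1 < r2 := by
    rw [dist_eq_norm]
    have e1 : Y' - 1 = S⁻¹ * (Y - 1)ᵀ * S := by
      rw [Matrix.transpose_sub, Matrix.transpose_one, Matrix.mul_sub, Matrix.sub_mul,
        Matrix.mul_one, hSS]
    rw [e1]
    calc ‖S⁻¹ * (Y - 1)ᵀ * S‖ ≤ ‖S⁻¹‖ * ‖(Y - 1)ᵀ‖ * ‖S‖ :=
          (norm_mul_le _ _).trans (mul_le_mul_of_nonneg_right (norm_mul_le _ _) (norm_nonneg _))
      _ ≤ ‖S⁻¹‖ * (n * ‖Y - 1‖) * ‖S‖ := by
          gcongr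
          exact oc_norm_transpose _
      _ = C * ‖Y - 1‖ := by rw [hC]; ring
      _ ≤ C * (r2 / (C + 1)) := by
          gcongr
          exact hYη.le.trans ((min_le_right _ _).trans (min_le_right _ _))
      _ < (C + 1) * (r2 / (C + 1)) := by
          have : 0 < r2 / (C + 1) := by positivity
          nlinarith
      _ = r2 := by field_simp
  have h4 : g (Y' * Y') = Y' := hr2' hY'1
  have h5 : Y = Y' := by rw [hYY'] at h4; rw [hY, h4]
  refine ⟨Y, fun i j => ?_, ?_⟩
  · have := oc_entry_le (Y - 1) i j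
    rw [Matrix.sub_apply] at this
    exact this.trans_lt (hYη.trans_le (min_le_left _ _))
  · have h6 : S * Y = Yᵀ * S := by
      conv_lhs => rw [h5, hY', ← Matrix.mul_assoc, ← Matrix.mul_assoc, hSS', Matrix.one_mul]
    rw [← h6, Matrix.mul_assoc, hYY, hZ, ← Matrix.mul_assoc, hSS', Matrix.one_mul]

end norms

theorem openCong_of_complete (K : Type*) [NontriviallyNormedField K] [CompleteSpace K]
    [CharZero K] : OpenCong K := oc_main K

private theorem OpenCong.oc_of_equiv {K L : Type*} [NormedField K] [NormedField L] (e : K ≃+* L)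
    (he : ∀ x, ‖e x‖ = ‖x‖) (h : OpenCong L) : OpenCong K := by
  intro n S hS hdet ε hε
  have hS' : (S.map e).IsSymm := by
    unfold Matrix.IsSymm
    rw [← Matrix.transpose_map, hS]
  have hdet' : (S.map e).det ≠ 0 := by
    have : (S.map e).det = e S.det := (RingHom.map_det (e : K →+* L) S).symm
    rw [this]
    exact (map_ne_zero e).2 hdet
  obtain ⟨δ, hδ, hδ'⟩ := h n (S.map e) hS' hdet' ε hε
  refine ⟨δ, hδ, fun H hH hHS => ?_⟩
  have hH' : (H.map e).IsSymm := by
    unfold Matrix.IsSymm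
    rw [← Matrix.transpose_map, hH]
  obtain ⟨Y, hY, hYS⟩ := hδ' (H.map e) hH' (fun i j => by
    rw [Matrix.map_apply, Matrix.map_apply, ← map_sub, he]
    exact hHS i j)
  have hYe : (Y.map e.symm).map e = Y := by
    ext i j
    simp
  refine ⟨Y.map e.symm, fun i j => ?_, ?_⟩
  · rw [← he, map_sub, Matrix.map_apply, e.apply_symm_apply]
    have : e ((1 : Matrix (Fin n) (Fin n) K) i j) = (1 : Matrix (Fin n) (Fin n) L) i j := by
      rw [Matrix.one_apply, Matrix.one_apply]
      split_ifs <;> simp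
    rw [this]
    exact hY i j
  · have hinj : Function.Injective (fun M : Matrix (Fin n) (Fin n) K => M.map e) :=
      Matrix.map_injective e.injective
    apply hinj
    simp only
    rw [Matrix.map_mul, Matrix.map_mul, Matrix.transpose_map, hYe]
    exact hYS

theorem openCong_place {k : Type*} [Field k] [NumberField k] (i : Pl k) : OpenCong (PlC k i) := by
  rcases i with v | w
  · rcases exists_equiv_real_or_complex v with ⟨e, he⟩ | ⟨e, he⟩
    · exact OpenCong.oc_of_equiv e he (openCong_of_complete ℝ)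
    · exact OpenCong.oc_of_equiv e he (openCong_of_complete ℂ)
  · have h := @openCong_of_complete (w.adicCompletion k) (nnf_fin w)
      (by
        have := proper_fin w
        exact complete_of_proper) (charZero_fin w)
    exact h

theorem neBot_place {k : Type*} [Field k] [NumberField k] (i : Pl k) :
    (𝓝[≠] (0 : PlC k i)).NeBot := by
  obtain ⟨x, hx0, hx1⟩ := plAbv_isNontrivial k i
  obtain ⟨y, hy0, hy1⟩ : ∃ y : k, y ≠ 0 ∧ plAbv k i y < 1 := by
    rcases lt_or_gt_of_ne hx1 with h | h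
    · exact ⟨x, hx0, h⟩
    · refine ⟨x⁻¹, inv_ne_zero hx0, ?_⟩
      rw [map_inv₀]
      exact inv_lt_one_of_one_lt₀ h
  rw [← mem_closure_iff_nhdsWithin_neBot, Metric.mem_closure_iff]
  intro ε hε
  obtain ⟨n, hn⟩ := exists_pow_lt_of_lt_one hε hy1
  refine ⟨plEmb k i (y ^ n), ?_, ?_⟩
  · simp only [Set.mem_compl_iff, Set.mem_singleton_iff]
    exact (map_ne_zero _).2 (pow_ne_zero _ hy0)
  · rw [dist_comm, dist_zero_right, norm_plEmb, map_pow]
    exact hn

end Pool.Agent.Lib.MP_12adaf_nt.TF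
end

section

section

/-!
# Clusters for the odd parametrisation
-/

namespace Pool.Agent.Lib.MP_12adaf_nt

set_option linter.unusedSectionVars false
set_option linter.unusedVariables false

open Finset Polynomial Filter Topology

section Alg

variable {L : Type*} [Field L] {J : Type*} [Fintype J] [DecidableEq J]

lemma ONondeg_of_det {x : J → L} (h : (cauchyMat x).det ≠ 0) : ONondeg x := by
  intro w hw
  by_contra hne
  apply h
  refine Matrix.exists_mulVec_eq_zero_iff.mp ⟨w, hne, ?_⟩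
  ext j
  rw [cauchyMat_mulVec, hw j]; rfl

/-- The solution of `A c = -1`. -/
noncomputable def cO (x : J → L) : J → L :=
  fun j => -((cauchyMat x).det⁻¹ * (cauchyMat x).adjugate.mulVec 1 j)

lemma OCond_cO {x : J → L} (h : (cauchyMat x).det ≠ 0) : OCond x (cO x) := by
  intro j
  rw [← cauchyMat_mulVec]
  have h1 : cO x = (-(cauchyMat x).det⁻¹) • ((cauchyMat x).adjugate.mulVec 1) := by
    ext i; simp [cO]
  rw [h1, Matrix.mulVec_smul, Matrix.mulVec_mulVec, Matrix.mul_adjugate, Matrix.smul_mulVec,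
    Matrix.one_mulVec, smul_smul, neg_mul, inv_mul_cancel₀ h]
  simp

end Alg

section Limit

variable {Cl : Type*} [NormedField Cl] [DecidableEq Cl] {J : Type*} [Fintype J] [DecidableEq J]

/-- The limit matrix. -/
noncomputable def AinfO (z b : J → Cl) : Matrix J J Cl :=
  Matrix.of fun i j => if z i = z j then (b i - b j)⁻¹ else 0

variable {z b : J → Cl}

lemma tendsto_OMat (i j : J) :
    Tendsto (fun u : Cl => cauchyMat (xu z b u) i j) (𝓝[≠] 0) (𝓝 (AinfO z b i j)) := by
  simp only [cauchyMat, AinfO, Matrix.of_apply]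
  simp only [xu_sub]
  by_cases hz : z i = z j
  · simp only [hz, sub_self, zero_div, zero_add, if_true]
    exact tendsto_const_nhds
  · simp only [hz, if_false]
    exact tendsto_inv_blow (sub_ne_zero.mpr hz)

lemma AinfO_mulVec (w : J → Cl) (j : J) :
    (AinfO z b).mulVec w j = ∑ k, if z j = z k then w k / (b j - b k) else 0 := by
  simp only [AinfO, Matrix.mulVec, dotProduct, Matrix.of_apply, ite_mul, zero_mul,
    div_eq_inv_mul]

/-- The limiting linear system. -/
def InfCondO (z b c : J → Cl) : Prop :=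
  ∀ j, (∑ k, if z j = z k then c k / (b j - b k) else 0) = -1

lemma ev_detO_ne_zero (hdet : (AinfO z b).det ≠ 0) :
    ∀ᶠ u : Cl in 𝓝[≠] 0, (cauchyMat (xu z b u)).det ≠ 0 :=
  (tendsto_det tendsto_OMat).eventually_ne hdet

lemma tendsto_cO (hdet : (AinfO z b).det ≠ 0) {c : J → Cl} (hc : InfCondO z b c) (j : J) :
    Tendsto (fun u : Cl => cO (xu z b u) j) (𝓝[≠] 0) (𝓝 (c j)) := by
  have h1 : Tendsto (fun u : Cl => cO (xu z b u) j) (𝓝[≠] 0)
      (𝓝 (-((AinfO z b).det⁻¹ * (AinfO z b).adjugate.mulVec 1 j))) := by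
    simp only [cO]
    refine (((tendsto_det tendsto_OMat).inv₀ hdet).mul ?_).neg
    exact tendsto_mulVec (tendsto_adjugate tendsto_OMat) (fun _ => tendsto_const_nhds) j
  have h2 : (AinfO z b).mulVec c = -1 := by
    ext k
    rw [AinfO_mulVec, hc k]; rfl
  have h3 : -((AinfO z b).det⁻¹ * (AinfO z b).adjugate.mulVec 1 j) = c j := by
    have h4 : (AinfO z b).adjugate.mulVec ((AinfO z b).mulVec c) = (AinfO z b).det • c := by
      rw [Matrix.mulVec_mulVec, Matrix.adjugate_mul, Matrix.smul_mulVec, Matrix.one_mulVec]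
    rw [h2, Matrix.mulVec_neg] at h4
    have h5 := congrFun h4 j
    simp only [Pi.neg_apply, Pi.smul_apply, smul_eq_mul] at h5
    field_simp
    linear_combination h5
  rwa [h3] at h1

section

variable [IsAlgClosed Cl] [CharZero Cl]
  (hzb : ∀ i j, z i = z j → b i = b j → i = j)
  (hdet : (AinfO z b).det ≠ 0) {c : J → Cl} (hc : InfCondO z b c) {t0 : Cl}

include hzb hdet hc

/-- The data available for all small `u`. -/
lemma ev_goodO : ∀ᶠ u : Cl in 𝓝[≠] 0, u ≠ 0 ∧ Function.Injective (xu z b u) ∧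
    (cauchyMat (xu z b u)).det ≠ 0 ∧ OCond (xu z b u) (cO (xu z b u)) := by
  filter_upwards [ev_ne, ev_xu_injective hzb, ev_detO_ne_zero hdet] with u h1 h2 h4
  exact ⟨h1, h2, h4, OCond_cO h4⟩

/-- Roots at finite distance. -/
lemma near_root_O1 {η : Cl} (hη : ∀ j, z j = 0 → η ≠ b j)
    (heq : η - t0 - ∑ j, (if z j = 0 then c j ^ 2 / (η - b j) else 0) = 0)
    (hr : 1 + ∑ j, (if z j = 0 then c j / (η - b j) else 0) ≠ 0) {δ : ℝ} (hδ : 0 < δ) :
    ∀ᶠ u : Cl in 𝓝[≠] 0, ∃ θ, (fO (xu z b u) (cO (xu z b u)) t0).eval θ = 0 ∧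
      ‖θ - η‖ < δ := by
  have hv : Tendsto (fun _ : Cl => (0 : Cl)) (𝓝[≠] 0) (𝓝 0) := tendsto_const_nhds
  have hcu := tendsto_cO hdet hc
  have hX : ∀ᶠ u : Cl in 𝓝[≠] 0, ∀ j, η ≠ xu z b u j := by
    rw [eventually_all]; intro j
    filter_upwards [ev_ne_pole (z' := 0) hv (hη j)] with u hu
    rwa [add_zero, zero_div, zero_add] at hu
  have hinv : ∀ j, Tendsto (fun u : Cl => 1 / (η - xu z b u j)) (𝓝[≠] 0)
      (𝓝 (if z j = 0 then 1 / (η - b j) else 0)) := fun j => by
    simpa only [add_zero, zero_div, zero_add] using tendsto_one_div_pole (z' := 0) hv (hη j)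
  have hG := tendsto_finsetSum (Finset.univ : Finset J) fun j _ => hinv j
  have hrl : Tendsto (fun u : Cl => 1 + cauchySum (xu z b u) (cO (xu z b u)) η)
      (𝓝[≠] 0) (𝓝 (1 + ∑ j, (if z j = 0 then c j / (η - b j) else 0))) := by
    refine tendsto_const_nhds.add ?_
    simp only [cauchySum]
    refine tendsto_finsetSum _ fun j _ => ?_
    have h1 := (hcu j).mul (hinv j)
    rw [mul_ite, mul_one_div, mul_zero] at h1
    exact h1.congr fun u => by rw [mul_one_div]
  have hphi : Tendsto (fun u : Cl => phiO (xu z b u) (cO (xu z b u)) t0 η) (𝓝[≠] 0) (𝓝 0) := by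
    have h1 : Tendsto (fun u : Cl => η - t0 -
        ∑ j, cO (xu z b u) j ^ 2 * (1 / (η - xu z b u j))) (𝓝[≠] 0)
        (𝓝 (η - t0 - ∑ j, c j ^ 2 * (if z j = 0 then 1 / (η - b j) else 0))) := by
      refine Tendsto.sub tendsto_const_nhds ?_
      exact tendsto_finsetSum _ fun j _ => ((hcu j).pow 2).mul (hinv j)
    have h2 : η - t0 - ∑ j, c j ^ 2 * (if z j = 0 then 1 / (η - b j) else 0) = 0 := by
      refine Eq.trans ?_ heq
      congr 1
      refine Finset.sum_congr rfl fun j _ => ?_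
      by_cases h : z j = 0
      · rw [if_pos h, if_pos h]; ring
      · rw [if_neg h, if_neg h]; ring
    rw [h2] at h1
    refine h1.congr fun u => ?_
    rw [phiO]
    congr 1
    refine Finset.sum_congr rfl fun j _ => ?_
    ring
  refine eventually_exists_root (l := 𝓝[≠] (0 : Cl)) (n := Fintype.card J + 1)
    (f := fun u => fO (xu z b u) (cO (xu z b u)) t0)
    (X := fun u => η)
    (G := fun u => ∑ j, 1 / (η - xu z b u j))
    (φ := fun u => phiO (xu z b u) (cO (xu z b u)) t0 η)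
    (φ' := fun u => (1 + cauchySum (xu z b u) (cO (xu z b u)) η) ^ 2)
    (E := fun u => (nod (xu z b u)).eval η)
    (w := fun u => 1)
    (L := (1 + ∑ j, (if z j = 0 then c j / (η - b j) else 0)) ^ 2)
    (fun u => natDegree_fO_le _ _ _)
    (pow_ne_zero 2 hr) ?_ ?_ ?_ ?_ ?_ ?_ hδ
  · filter_upwards [hX] with u hu h
    obtain ⟨j, hj⟩ := (eval_nod_eq_zero_iff _ _).mp h
    exact hu j hj
  · filter_upwards [hX] with u hu
    exact eval_fO _ _ _ _ hu
  · filter_upwards [hX, ev_goodO hzb hdet hc] with u hu hg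
    exact eval_derivative_fO hg.2.1 hg.2.2.2 _ _ hu
  · simpa only [one_mul] using hphi
  · have h1 := hG.mul hphi
    rw [mul_zero] at h1
    exact h1.congr fun u => by ring
  · have h1 := hrl.pow 2
    exact h1.congr fun u => by ring

/-- Roots near a far pole. -/
lemma near_root_O2 {k : J} (hk : z k ≠ 0) (hck : c k ≠ 0) {δ : ℝ} (hδ : 0 < δ) :
    ∀ᶠ u : Cl in 𝓝[≠] 0, ∃ θ, (fO (xu z b u) (cO (xu z b u)) t0).eval θ = 0 ∧
      ‖θ - (z k / u + b k)‖ < δ := by
  set η1 : Cl := c k ^ 2 / z k with hη1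
  have hη10 : η1 ≠ 0 := div_ne_zero (pow_ne_zero 2 hck) hk
  have hv : Tendsto (fun u : Cl => u * η1) (𝓝[≠] 0) (𝓝 0) := by
    have := (tendsto_id_punctured (Cl := Cl)).mul_const η1
    rwa [zero_mul] at this
  have hcu := tendsto_cO hdet hc
  have hjk : ∀ j, j ≠ k → (z j = z k → b k ≠ b j) := fun j hj h1 h2 => hj (hzb j k h1 h2.symm)
  have hX : ∀ᶠ u : Cl in 𝓝[≠] 0, ∀ j, z k / u + b k + u * η1 ≠ xu z b u j := by
    rw [eventually_all]; intro j
    by_cases hj : j = k
    · subst hj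
      filter_upwards [ev_ne] with u hu h
      have : u * η1 = 0 := by
        have h2 := sub_eq_zero.mpr h
        rw [X_sub_xu] at h2
        simpa using h2
      exact mul_ne_zero hu hη10 this
    · exact ev_ne_pole hv (hjk j hj)
  have hinv : ∀ j, j ≠ k → Tendsto (fun u : Cl => 1 / (z k / u + b k + u * η1 - xu z b u j))
      (𝓝[≠] 0) (𝓝 (if z j = z k then 1 / (b k - b j) else 0)) := fun j hj =>
    tendsto_one_div_pole hv (hjk j hj)
  -- `u / (X - x_j)`
  have hinvu : ∀ j, Tendsto (fun u : Cl => u * (1 / (z k / u + b k + u * η1 - xu z b u j)))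
      (𝓝[≠] 0) (𝓝 (if j = k then 1 / η1 else 0)) := by
    intro j
    by_cases hj : j = k
    · subst hj
      simp only [if_true]
      refine tendsto_const_nhds.congr' ?_
      filter_upwards [ev_ne] with u hu
      rw [X_sub_xu, sub_self, zero_div, sub_self, zero_add, zero_add]
      field_simp
    · simp only [hj, if_false]
      have := (tendsto_id_punctured (Cl := Cl)).mul (hinv j hj)
      rwa [zero_mul] at this
  have hG : Tendsto (fun u : Cl => ∑ j, u * (1 / (z k / u + b k + u * η1 - xu z b u j)))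
      (𝓝[≠] 0) (𝓝 (∑ j, if j = k then 1 / η1 else 0)) :=
    tendsto_finsetSum _ fun j _ => hinvu j
  have huX : Tendsto (fun u : Cl => u * (z k / u + b k + u * η1)) (𝓝[≠] 0) (𝓝 (z k)) :=
    tendsto_u_X (z k) (b k) hv
  have hrl : Tendsto (fun u : Cl => u * (1 + cauchySum (xu z b u) (cO (xu z b u))
      (z k / u + b k + u * η1))) (𝓝[≠] 0) (𝓝 (c k / η1)) := by
    have h1 : Tendsto (fun u : Cl => u + ∑ j, cO (xu z b u) j *
        (u * (1 / (z k / u + b k + u * η1 - xu z b u j)))) (𝓝[≠] 0)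
        (𝓝 (0 + ∑ j, c j * (if j = k then 1 / η1 else 0))) :=
      tendsto_id_punctured.add (tendsto_finsetSum _ fun j _ => (hcu j).mul (hinvu j))
    have h2 : 0 + ∑ j, c j * (if j = k then 1 / η1 else 0) = c k / η1 := by
      simp [div_eq_mul_inv]
    rw [h2] at h1
    refine h1.congr fun u => ?_
    rw [mul_add, mul_one, cauchySum, Finset.mul_sum]
    congr 1
    refine Finset.sum_congr rfl fun j _ => ?_
    ring
  have hphi : Tendsto (fun u : Cl => u * phiO (xu z b u) (cO (xu z b u)) t0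
      (z k / u + b k + u * η1)) (𝓝[≠] 0) (𝓝 0) := by
    have h1 : Tendsto (fun u : Cl => (u * (z k / u + b k + u * η1)) - u * t0 -
        ∑ j, cO (xu z b u) j ^ 2 *
          (u * (1 / (z k / u + b k + u * η1 - xu z b u j))))
        (𝓝[≠] 0) (𝓝 (z k - 0 * t0 -
          ∑ j, c j ^ 2 * (if j = k then 1 / η1 else 0))) := by
      refine Tendsto.sub (Tendsto.sub huX (tendsto_id_punctured.mul tendsto_const_nhds)) ?_
      exact tendsto_finsetSum _ fun j _ => ((hcu j).pow 2).mul (hinvu j)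
    have h2 : z k - 0 * t0 - ∑ j, c j ^ 2 * (if j = k then 1 / η1 else 0) = 0 := by
      simp only [mul_ite, mul_zero, Finset.sum_ite_eq', Finset.mem_univ, if_true]
      rw [hη1]
      field_simp
      ring
    rw [h2] at h1
    refine h1.congr fun u => ?_
    have e1 : ∑ j, cO (xu z b u) j ^ 2 *
        (u * (1 / (z k / u + b k + u * η1 - xu z b u j))) =
        u * ∑ j, cO (xu z b u) j ^ 2 / (z k / u + b k + u * η1 - xu z b u j) := by
      rw [Finset.mul_sum]
      refine Finset.sum_congr rfl fun j _ => ?_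
      ring
    rw [e1, phiO]
    ring
  have hroot : ∀ᶠ u : Cl in 𝓝[≠] 0,
      ∃ θ, (fO (xu z b u) (cO (xu z b u)) t0).eval θ = 0 ∧
      ‖θ - (z k / u + b k + u * η1)‖ < δ / 2 := by
    refine eventually_exists_root (l := 𝓝[≠] (0 : Cl)) (n := Fintype.card J + 1)
      (f := fun u => fO (xu z b u) (cO (xu z b u)) t0)
      (X := fun u => z k / u + b k + u * η1)
      (G := fun u => ∑ j, 1 / (z k / u + b k + u * η1 - xu z b u j))
      (φ := fun u => phiO (xu z b u) (cO (xu z b u)) t0 (z k / u + b k + u * η1))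
      (φ' := fun u =>
        (1 + cauchySum (xu z b u) (cO (xu z b u)) (z k / u + b k + u * η1)) ^ 2)
      (E := fun u => (nod (xu z b u)).eval (z k / u + b k + u * η1))
      (w := fun u => u ^ 2)
      (L := (c k / η1) ^ 2)
      (fun u => natDegree_fO_le _ _ _)
      (pow_ne_zero 2 (div_ne_zero hck hη10))
      ?_ ?_ ?_ ?_ ?_ ?_ (half_pos hδ)
    · filter_upwards [hX] with u hu h
      obtain ⟨j, hj⟩ := (eval_nod_eq_zero_iff _ _).mp h
      exact hu j hj
    · filter_upwards [hX] with u hu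
      exact eval_fO _ _ _ _ hu
    · filter_upwards [hX, ev_goodO hzb hdet hc] with u hu hg
      exact eval_derivative_fO hg.2.1 hg.2.2.2 _ _ hu
    · have h1 := (tendsto_id_punctured (Cl := Cl)).mul hphi
      rw [mul_zero] at h1
      exact h1.congr fun u => by ring
    · have h1 := hG.mul hphi
      rw [mul_zero] at h1
      refine h1.congr fun u => ?_
      rw [← Finset.mul_sum]
      ring
    · have h1 := hrl.pow 2
      exact h1.congr fun u => by ring
  have hsmall : ∀ᶠ u : Cl in 𝓝[≠] 0, ‖u * η1‖ < δ / 2 := by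
    have := (Metric.tendsto_nhds.mp hv) (δ / 2) (half_pos hδ)
    simpa only [dist_zero_right] using this
  filter_upwards [hroot, hsmall] with u ⟨θ, h1, h2⟩ h3
  refine ⟨θ, h1, ?_⟩
  calc ‖θ - (z k / u + b k)‖ = ‖(θ - (z k / u + b k + u * η1)) + u * η1‖ := by congr 1; ring
    _ ≤ ‖θ - (z k / u + b k + u * η1)‖ + ‖u * η1‖ := norm_add_le _ _
    _ < δ / 2 + δ / 2 := add_lt_add h2 h3
    _ = δ := add_halves δ

end

end Limit

end Pool.Agent.Lib.MP_12adaf_nt
end

section

/-!
# Descent in odd degree: from roots in the algebraic closure to local data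
-/

namespace Pool.Agent.Lib.MP_12adaf_nt

set_option linter.unusedSectionVars false
set_option linter.unusedVariables false

open Finset Polynomial Filter Topology

theorem OData_of_roots {K Cl : Type*} [Field K] [Field Cl] [Algebra K Cl] [IsGalois K Cl]
    [IsAlgClosed Cl] [CharZero K] [CharZero Cl] {I J : Type*} [Fintype I] [DecidableEq I]
    [Fintype J] [DecidableEq J] {N : ℕ}
    (hJ : Fintype.card J = N) (hI : Fintype.card I = N + 1) {x c : J → Cl} {g : K[X]}
    (hgx : g.map (algebraMap K Cl) = nod x) (hx : Function.Injective x)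
    (hnd : ONondeg x) (hc : OCond x c) (hc0 : ∀ j, c j ≠ 0) {t : K} {θ ρ : I → Cl}
    (hθ : Function.Injective θ)
    (hroot : ∀ i, (fO x c (algebraMap K Cl t)).eval (θ i) = 0) {F : K[X]}
    (hF : F.map (algebraMap K Cl) = nod ρ)
    (heq : ∀ (σ : Cl ≃ₐ[K] Cl) (i : I), ∃ k, σ (θ i) = θ k ∧ σ (ρ i) = ρ k) :
    ∃ T : K[X], OData N F g t T := by
  set φ : K →+* Cl := algebraMap K Cl with hφ
  have hφi : Function.Injective φ := φ.injective
  have hgm : g.Monic := by
    have := nod_monic x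
    rw [← hgx] at this
    exact (hφi.monic_map_iff).mpr this
  have hgN : g.natDegree = N := by
    have := natDegree_nod x
    rw [← hgx, natDegree_map, hJ] at this
    exact this
  have hsep : g.Separable := by
    have := nod_separable hx
    rw [← hgx, separable_map] at this
    exact this
  have hL' : (LmatO N (nod x)).det ≠ 0 := LmatO_det_ne_zero hx hnd hJ
  have hL : (LmatO N g).det ≠ 0 := by
    intro h
    apply hL'
    rw [← hgx, map_LmatO φ hgm]
    rw [show ((LmatO N g).map φ).det = φ (LmatO N g).det from by rw [RingHom.map_det]; rfl, h,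
      map_zero]
  have hcc : (fun j => (cpolyO N (nod x)).eval (x j)) = c :=
    OCond.unique hnd (OCond_cpolyO hx hJ hL') hc
  have hh : (hpolyO N g).map φ = hR x c := by
    rw [map_hpolyO φ hgm, hgx, hpolyO_nod hx, hcc]
  have hf : (fpolyO N g t).map φ = fO x c (φ t) := by
    rw [map_fpolyO φ hgm, hgx, fpolyO_nod hx, hcc]
  have hfm := fpolyO_monic hgm hgN t
  have hfθ : (fpolyO N g t).map φ = nod θ := by
    apply eq_nod_of_roots (hfm.1.map φ) (by rw [natDegree_map, hfm.2, hI]) hθ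
    intro i
    rw [hf]; exact hroot i
  have hR : resultant g (hpolyO N g) N N ≠ 0 := by
    intro h
    have h1 : resultant (nod x) (hR x c) N N = 0 := by
      rw [← hgx, ← hh, resultant_map_map, h, map_zero]
    rw [resultant_nod x hJ (by rw [← hh]; exact natDegree_map_le' φ _ (natDegree_hpolyO_le hgm hgN)),
      Finset.prod_eq_zero_iff] at h1
    obtain ⟨j, _, hj⟩ := h1
    rw [eval_hR_self] at hj
    exact (mul_ne_zero (hc0 j) (eval_derivative_nod_ne_zero x hx j)) hj
  have hfsep : (fpolyO N g t).Separable := by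
    have := nod_separable hθ
    rw [← hfθ, separable_map] at this
    exact this
  -- the interpolating polynomial
  obtain ⟨T, hT⟩ : ∃ T : K[X], T.map φ = Lagrange.interpolate Finset.univ θ ρ := by
    apply exists_map_of_fixed
    intro σ
    have hdeg : (Lagrange.interpolate Finset.univ θ ρ).degree < (Finset.univ : Finset I).card :=
      Lagrange.degree_interpolate_lt _ hθ.injOn
    have hdeg' : ((Lagrange.interpolate Finset.univ θ ρ).map (σ : Cl →+* Cl)).degree <
        (Finset.univ : Finset I).card := by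
      rw [degree_map]; exact hdeg
    refine eq_of_degrees_lt_of_eval_index_eq (s := Finset.univ) (v := θ) hθ.injOn hdeg' hdeg
      fun k _ => ?_
    obtain ⟨i, hi1, hi2⟩ := heq σ.symm k
    have h1 : σ (θ i) = θ k := by rw [← hi1, AlgEquiv.apply_symm_apply]
    have h2 : σ (ρ i) = ρ k := by rw [← hi2, AlgEquiv.apply_symm_apply]
    rw [Lagrange.eval_interpolate_at_node _ hθ.injOn (Finset.mem_univ k), ← h1]
    have h3 : (σ (θ i)) = (σ : Cl →+* Cl) (θ i) := rfl
    rw [h3, eval_map_apply, Lagrange.eval_interpolate_at_node _ hθ.injOn (Finset.mem_univ i)]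
    exact h2
  have hTdeg : T.degree < ((N + 1 : ℕ) : WithBot ℕ) := by
    have hdeg : (Lagrange.interpolate Finset.univ θ ρ).degree < (Finset.univ : Finset I).card :=
      Lagrange.degree_interpolate_lt _ hθ.injOn
    rw [← hT, degree_map, Finset.card_univ, hI] at hdeg
    exact hdeg
  refine ⟨T, hgm, hgN, hsep, hL, hR, hfsep, hTdeg, ?_⟩
  apply Polynomial.map_injective φ hφi
  rw [map_charT φ hfm.1, hfθ, hT, hF]
  let e : Fin (N + 1) ≃ I := (Fintype.equivFinOfCardEq hI).symm
  have hθe : Function.Injective fun k => θ (e k) := hθ.comp e.injective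
  have h1 : charT (N + 1) (nod fun k => θ (e k)) (Lagrange.interpolate Finset.univ θ ρ) =
      nod (fun k => (Lagrange.interpolate Finset.univ θ ρ).eval (θ (e k))) := charT_nod hθe _
  rw [nod_comp_equiv e θ] at h1
  rw [h1]
  have h2 : (fun k => (Lagrange.interpolate Finset.univ θ ρ).eval (θ (e k))) =
      fun k => ρ (e k) := by
    ext k
    exact Lagrange.eval_interpolate_at_node _ hθ.injOn (Finset.mem_univ _)
  rw [h2, nod_comp_equiv e ρ]

end Pool.Agent.Lib.MP_12adaf_nt
end

section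

/-!
# The local lemma for the odd parametrisation
-/

namespace Pool.Agent.Lib.MP_12adaf_nt

set_option linter.unusedSectionVars false
set_option linter.unusedVariables false

open Finset Polynomial Filter Topology IntermediateField

lemma natDegree_minpoly_eq {K Cl : Type*} [Field K] [Field Cl] [Algebra K Cl] [IsGalois K Cl]
    {x y : Cl} (h : ∀ σ : Cl ≃ₐ[K] Cl, σ x = x ↔ σ y = y) :
    (minpoly K x).natDegree = (minpoly K y).natDegree := by
  have key : ∀ a b : Cl, (∀ σ : Cl ≃ₐ[K] Cl, σ a = a → σ b = b) → b ∈ K⟮a⟯ := by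
    intro a b hab
    rw [← InfiniteGalois.fixedField_fixingSubgroup K⟮a⟯]
    rintro ⟨σ, hσ⟩
    apply hab
    exact hσ ⟨a, mem_adjoin_simple_self K a⟩
  have h1 : K⟮x⟯ = K⟮y⟯ := by
    apply le_antisymm
    · rw [adjoin_simple_le_iff]
      exact key y x fun σ => (h σ).mpr
    · rw [adjoin_simple_le_iff]
      exact key x y fun σ => (h σ).mp
  have hx : IsIntegral K x := Algebra.IsIntegral.isIntegral x
  have hy : IsIntegral K y := Algebra.IsIntegral.isIntegral y
  rw [← adjoin.finrank hx, ← adjoin.finrank hy, h1]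

/-- The two types of limiting roots. -/
def TargetO {Cl : Type*} [NormedField Cl] [DecidableEq Cl] {J : Type*} [Fintype J]
    (z b c : J → Cl) (t0 z' η : Cl) : Prop :=
  (z' = 0 ∧ (∀ j, z j = 0 → η ≠ b j) ∧
    η - t0 - ∑ j, (if z j = 0 then c j ^ 2 / (η - b j) else 0) = 0 ∧
    1 + ∑ j, (if z j = 0 then c j / (η - b j) else 0) ≠ 0) ∨
  (∃ k, z' = z k ∧ η = b k ∧ z k ≠ 0)

theorem oPre_of_clusters {K Cl : Type*} [NontriviallyNormedField K] [NormedField Cl]
    [NormedAlgebra K Cl] [IsAlgClosed Cl] [IsGalois K Cl] [CharZero K] [CharZero Cl]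
    [DecidableEq Cl] (hiso : ∀ (σ : Cl ≃ₐ[K] Cl) (x : Cl), ‖σ x‖ = ‖x‖)
    {I J : Type*} [Fintype I] [DecidableEq I] [Nonempty I] [Fintype J] [DecidableEq J]
    (hIJ : Fintype.card I = Fintype.card J + 1)
    {z b c : J → Cl} (hzb : ∀ i j, z i = z j → b i = b j → i = j)
    (hdet : (AinfO z b).det ≠ 0) (hc : InfCondO z b c)
    (hc0 : ∀ j, c j ≠ 0) {t0 : K} {z' η ρ : I → Cl}
    (hzη : ∀ i k, z' i = z' k → η i = η k → i = k)
    (htar : ∀ i, TargetO z b c (algebraMap K Cl t0) (z' i) (η i))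
    (hGJ : ∀ (σ : Cl ≃ₐ[K] Cl) (j : J), ∃ k, σ (z j) = z k ∧ σ (b j) = b k)
    (hGI : ∀ (σ : Cl ≃ₐ[K] Cl) (i : I), ∃ k, σ (z' i) = z' k ∧ σ (η i) = η k ∧ σ (ρ i) = ρ k) :
    ∃ (e : K) (g : K[X]) (θ : I → Cl), e ≠ 0 ∧
      g.map (algebraMap K Cl) = nod (xu z b (algebraMap K Cl e)) ∧
      Function.Injective (xu z b (algebraMap K Cl e)) ∧
      ONondeg (xu z b (algebraMap K Cl e)) ∧
      OCond (xu z b (algebraMap K Cl e)) (cO (xu z b (algebraMap K Cl e))) ∧
      (∀ j, cO (xu z b (algebraMap K Cl e)) j ≠ 0) ∧ Function.Injective θ ∧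
      (∀ i, (fO (xu z b (algebraMap K Cl e)) (cO (xu z b (algebraMap K Cl e)))
        (algebraMap K Cl t0)).eval (θ i) = 0) ∧
      ∀ (σ : Cl ≃ₐ[K] Cl) (i : I), ∃ k, σ (θ i) = θ k ∧ σ (ρ i) = ρ k := by
  set φ : K →+* Cl := algebraMap K Cl with hφ
  obtain ⟨δ, hδ, hsepa⟩ := exists_separation hzη
  have hroots : ∀ᶠ u : Cl in 𝓝[≠] 0, ∀ i, ∃ θ,
      (fO (xu z b u) (cO (xu z b u)) (φ t0)).eval θ = 0 ∧
      ‖θ - (z' i / u + η i)‖ < δ := by
    rw [eventually_all]; intro i
    rcases htar i with ⟨h1, h2, h3, h4⟩ | ⟨k, h1, h2, h3⟩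
    · have := near_root_O1 hzb hdet hc h2 h3 h4 hδ
      filter_upwards [this] with u hu
      simpa only [h1, zero_div, zero_add] using hu
    · rw [h1, h2]
      exact near_root_O2 hzb hdet hc h3 (hc0 k) hδ
  have hcne : ∀ᶠ u : Cl in 𝓝[≠] 0, ∀ j, cO (xu z b u) j ≠ 0 := by
    rw [eventually_all]; intro j
    exact (tendsto_cO hdet hc j).eventually_ne (hc0 j)
  have hall := (ev_goodO hzb hdet hc).and (hsepa.and (hroots.and hcne))
  have hmap : Tendsto (fun e : K => φ e) (𝓝[≠] 0) (𝓝[≠] 0) := by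
    rw [tendsto_nhdsWithin_iff]
    constructor
    · have h1 : Continuous (algebraMap K Cl) := continuous_algebraMap K Cl
      have h2 := h1.tendsto 0
      rw [map_zero] at h2
      exact h2.mono_left nhdsWithin_le_nhds
    · filter_upwards [self_mem_nhdsWithin] with e he
      exact (_root_.map_ne_zero φ).mpr he
  obtain ⟨e, he, hne⟩ := ((hmap.eventually hall).and self_mem_nhdsWithin).exists
  obtain ⟨⟨hu0, hxinj, hWdet, hWc⟩, hsp, hrt, hcn⟩ := he
  choose θ hθ1 hθ2 using hrt
  set u : Cl := φ e with hu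
  have hσu : ∀ σ : Cl ≃ₐ[K] Cl, σ u = u := fun σ => σ.commutes e
  obtain ⟨g, hg⟩ : ∃ g : K[X], g.map φ = nod (xu z b u) := by
    apply exists_map_nod hxinj
    intro σ j
    obtain ⟨k, h1, h2⟩ := hGJ σ j
    refine ⟨k, ?_⟩
    simp only [xu, map_add, map_div₀, h1, h2, hσu]
  have hnd : ONondeg (xu z b u) := ONondeg_of_det hWdet
  have hθinj : Function.Injective θ := by
    intro i k hik
    by_contra hne
    have h1 := hsp i k hne
    have h2 : ‖(z' i / u + η i) - (z' k / u + η k)‖ < 2 * δ := by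
      calc ‖(z' i / u + η i) - (z' k / u + η k)‖
          = ‖(θ k - (z' k / u + η k)) - (θ i - (z' i / u + η i))‖ := by
            rw [hik]; congr 1; ring
        _ ≤ ‖θ k - (z' k / u + η k)‖ + ‖θ i - (z' i / u + η i)‖ := norm_sub_le _ _
        _ < δ + δ := add_lt_add (hθ2 k) (hθ2 i)
        _ = 2 * δ := by ring
    linarith
  refine ⟨e, g, θ, ?_, hg, hxinj, hnd, hWc, hcn, hθinj, hθ1, ?_⟩
  · intro h
    apply hu0
    rw [hu, h, map_zero]
  -- the polynomial with roots `θ`
  have hmon : (fO (xu z b u) (cO (xu z b u)) (φ t0)).Monic ∧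
      (fO (xu z b u) (cO (xu z b u)) (φ t0)).natDegree = Fintype.card I := by
    have h1 : (nod (xu z b u) * (X - C (φ t0))).Monic :=
      (nod_monic _).mul (monic_X_sub_C _)
    have h2 : (nod (xu z b u) * (X - C (φ t0))).natDegree = Fintype.card I := by
      rw [(nod_monic _).natDegree_mul (monic_X_sub_C _), natDegree_nod, natDegree_X_sub_C, hIJ]
    have h3 : (∑ j, C (cO (xu z b u) j ^ 2) * nodE (xu z b u) j).degree <
        (nod (xu z b u) * (X - C (φ t0))).degree := by
      rw [degree_eq_natDegree h1.ne_zero, h2, hIJ]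
      refine (degree_sum_nodE_lt (xu z b u) _).trans ?_
      exact_mod_cast Nat.lt_succ_self _
    constructor
    · exact h1.sub_of_left h3
    · rw [fO, ← h2]
      exact natDegree_eq_of_degree_eq (degree_sub_eq_left_of_degree_lt h3)
  have hfθ : fO (xu z b u) (cO (xu z b u)) (φ t0) = nod θ :=
    eq_nod_of_roots hmon.1 hmon.2 hθinj hθ1
  intro σ i
  obtain ⟨k, h1, h2, h3⟩ := hGI σ i
  refine ⟨k, ?_, h3⟩
  have hx : ∀ j, ∃ k, σ (xu z b u j) = xu z b u k := by
    intro j
    obtain ⟨k, h1, h2⟩ := hGJ σ j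
    refine ⟨k, ?_⟩
    simp only [xu, map_add, map_div₀, h1, h2, hσu]
  -- the polynomial is fixed by `σ`
  have hfix : (nod θ).map (σ : Cl →+* Cl) = nod θ := by
    rw [← hfθ]
    choose π hπ using hx
    have hinj : Function.Injective π := by
      intro a b hab
      apply hxinj
      apply σ.injective
      rw [hπ a, hπ b, hab]
    let P : J ≃ J := Equiv.ofBijective π (Finite.injective_iff_bijective.mp hinj)
    have hcσ : ∀ j, σ (cO (xu z b u) j) = cO (xu z b u) (π j) := by
      have h4 : (fun j => σ (cO (xu z b u) (P.symm j)) - cO (xu z b u) j) = 0 := by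
        apply hnd
        intro j
        have h5 : cauchySum (xu z b u) (fun j => σ (cO (xu z b u) (P.symm j)) -
            cO (xu z b u) j) (xu z b u j) =
            cauchySum (xu z b u) (fun j => σ (cO (xu z b u) (P.symm j))) (xu z b u j) -
            cauchySum (xu z b u) (cO (xu z b u)) (xu z b u j) := by
          simp only [cauchySum, sub_div, Finset.sum_sub_distrib]
        have h6 : cauchySum (xu z b u) (fun j => σ (cO (xu z b u) (P.symm j))) (xu z b u j) =
            σ (cauchySum (xu z b u) (cO (xu z b u)) (xu z b u (P.symm j))) := by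
          rw [cauchySum, cauchySum, map_sum, ← Equiv.sum_comp P]
          refine Finset.sum_congr rfl fun i _ => ?_
          have h7 : P (P.symm j) = j := Equiv.apply_symm_apply P j
          have h8 : σ (xu z b u (P.symm j)) = xu z b u j := by
            rw [hπ]
            exact congrArg (xu z b u) h7
          rw [Equiv.symm_apply_apply, map_div₀, map_sub, h8, hπ]
          rfl
        rw [h5, h6, hWc, hWc, map_neg, map_one, sub_self]
      intro j
      have h5 := congrFun h4 (P j)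
      simp only [Equiv.symm_apply_apply, Pi.zero_apply] at h5
      exact sub_eq_zero.mp h5
    have hnod : (nod (xu z b u)).map (σ : Cl →+* Cl) = nod (xu z b u) := by
      rw [← hg, Polynomial.map_map]
      congr 1
      ext a
      exact σ.commutes a
    have hnodE : ∀ j, (nodE (xu z b u) j).map (σ : Cl →+* Cl) = nodE (xu z b u) (π j) := by
      intro j
      have h5 : (X - C (xu z b u (π j))) * (nodE (xu z b u) j).map (σ : Cl →+* Cl) =
          (X - C (xu z b u (π j))) * nodE (xu z b u) (π j) := by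
        rw [← nod_eq_mul, ← hnod]
        conv_rhs => rw [nod_eq_mul (xu z b u) j]
        rw [Polynomial.map_mul, Polynomial.map_sub, map_X, map_C]
        congr 3
        exact (hπ j).symm
      exact mul_left_cancel₀ (X_sub_C_ne_zero _) h5
    rw [fO, Polynomial.map_sub, Polynomial.map_mul, Polynomial.map_sub, map_X, map_C, hnod,
      Polynomial.map_sum]
    have h5 : (σ : Cl →+* Cl) (φ t0) = φ t0 := σ.commutes t0
    rw [h5]
    congr 1
    rw [← Equiv.sum_comp P (fun j => C (cO (xu z b u) j ^ 2) * nodE (xu z b u) j)]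
    refine Finset.sum_congr rfl fun j _ => ?_
    rw [Polynomial.map_mul, map_C, hnodE]
    congr 2
    have h6 : (σ : Cl →+* Cl) (cO (xu z b u) j ^ 2) = (σ (cO (xu z b u) j)) ^ 2 :=
      map_pow σ _ 2
    rw [h6, hcσ]
    rfl
  have hroot : (nod θ).eval (σ (θ i)) = 0 := by
    rw [← hfix]
    have h5 : σ (θ i) = (σ : Cl →+* Cl) (θ i) := rfl
    rw [h5, eval_map_apply, eval_nod_self, map_zero]
  obtain ⟨m, hm⟩ := (eval_nod_eq_zero_iff θ _).mp hroot
  have hmk : m = k := by
    by_contra hne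
    have h6 := hsp m k hne
    have h7 : ‖σ (θ i) - (z' k / u + η k)‖ < δ := by
      have h8 : σ (θ i) - (z' k / u + η k) = σ (θ i - (z' i / u + η i)) := by
        rw [map_sub, map_add, map_div₀, h1, h2, hσu]
      rw [h8, hiso]
      exact hθ2 i
    have h9 : ‖(z' m / u + η m) - (z' k / u + η k)‖ < 2 * δ := by
      calc ‖(z' m / u + η m) - (z' k / u + η k)‖
          = ‖(σ (θ i) - (z' k / u + η k)) - (θ m - (z' m / u + η m))‖ := by
            rw [hm]; congr 1; ring
        _ ≤ ‖σ (θ i) - (z' k / u + η k)‖ + ‖θ m - (z' m / u + η m)‖ := norm_sub_le _ _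
        _ < δ + δ := add_lt_add h7 (hθ2 m)
        _ = 2 * δ := by ring
    linarith
  rw [hm, hmk]

end Pool.Agent.Lib.MP_12adaf_nt
end

section

/-!
# Companions of a product of an odd and an even factor
-/

namespace Pool.Agent.Lib.MP_12adaf_nt

set_option linter.unusedSectionVars false
set_option linter.unusedVariables false

open Finset Polynomial Filter Topology IntermediateField

theorem oPre_of_mul {K Cl : Type*} [NontriviallyNormedField K] [NormedField Cl]
    [NormedAlgebra K Cl] [IsAlgClosed Cl] [IsGalois K Cl] [CharZero K] [CharZero Cl]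
    (hiso : ∀ (σ : Cl ≃ₐ[K] Cl) (x : Cl), ‖σ x‖ = ‖x‖)
    {p q : K[X]} (hp : p.Monic) (hq : q.Monic) (hsep : (p * q).Separable)
    {m b : ℕ} (ha : p.natDegree = m + 1) (hm : Even m) (hb : q.natDegree = b) (hbe : Even b) :
    ∃ (g : K[X]) (x c : Fin m ⊕ Fin b → Cl) (t : K) (θ ρ : Fin (m + 1) ⊕ Fin b → Cl),
      g.map (algebraMap K Cl) = nod x ∧ Function.Injective x ∧ ONondeg x ∧ OCond x c ∧
      (∀ j, c j ≠ 0) ∧ Function.Injective θ ∧
      (∀ i, (fO x c (algebraMap K Cl t)).eval (θ i) = 0) ∧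
      (p * q).map (algebraMap K Cl) = nod ρ ∧
      (∀ (σ : Cl ≃ₐ[K] Cl) (i : Fin (m + 1) ⊕ Fin b), ∃ k, σ (θ i) = θ k ∧ σ (ρ i) = ρ k) ∧
      ∀ r : K[X], Irreducible r → r ∣ q → ∃ s : K[X], Irreducible s ∧ s ∣ g ∧
        s.natDegree = r.natDegree := by
  classical
  set φ : K →+* Cl := algebraMap K Cl with hφ
  have hsp : p.Separable := hsep.of_mul_left
  have hsq : q.Separable := hsep.of_mul_right
  obtain ⟨xp, hxp, hxp'⟩ := exists_nod φ hp ha hsp
  obtain ⟨xq, hxq, hxq'⟩ := exists_nod φ hq hb hsq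
  have hodd : Odd (Fintype.card (Fin (m + 1))) := by
    rw [Fintype.card_fin]; exact hm.add_one
  have heven : Even (Fintype.card (Fin b)) := by rw [Fintype.card_fin]; exact hbe
  let i0 : Fin (m + 1) := 0
  -- first generic polynomial
  obtain ⟨P1, hP1⟩ : ∃ P : K[X], cert1 i0 (fun i => aeval (xp i) P) ≠ 0 := by
    have e1 : ∀ v : Fin (m + 1) → Cl, MvPolynomial.eval v (cert1 i0
        (fun i : Fin (m + 1) => (MvPolynomial.X i : MvPolynomial (Fin (m + 1)) Cl))) =
        cert1 i0 v := by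
      intro v
      rw [map_cert1]
      congr 1
      ext i
      simp
    have n1 : cert1 i0 (fun i : Fin (m + 1) =>
        (MvPolynomial.X i : MvPolynomial (Fin (m + 1)) Cl)) ≠ 0 := by
      intro h
      have h4 := e1 fun i => ((i : ℕ) : Cl)
      rw [h, map_zero] at h4
      exact cert1_nat_ne_zero (L := Cl) (k := fun i : Fin (m + 1) => (i : ℕ))
        Fin.val_injective hodd i0 h4.symm
    obtain ⟨P, hP⟩ := exists_generic (K := K) hxp n1
    rw [e1] at hP
    exact ⟨P, hP⟩
  obtain ⟨P2, hP2⟩ : ∃ P : K[X], cert2 (fun i => aeval (xq i) P) ≠ 0 := by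
    have e1 : ∀ v : Fin b → Cl, MvPolynomial.eval v (cert2
        (fun i : Fin b => (MvPolynomial.X i : MvPolynomial (Fin b) Cl))) =
        cert2 v := by
      intro v
      rw [map_cert2]
      congr 1
      ext i
      simp
    have n1 : cert2 (fun i : Fin b =>
        (MvPolynomial.X i : MvPolynomial (Fin b) Cl)) ≠ 0 := by
      intro h
      have h4 := e1 fun i => ((i : ℕ) : Cl)
      rw [h, map_zero] at h4
      exact cert2_nat_ne_zero (L := Cl) (k := fun i : Fin b => (i : ℕ))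
        Fin.val_injective heven h4.symm
    obtain ⟨P, hP⟩ := exists_generic (K := K) hxq n1
    rw [e1] at hP
    exact ⟨P, hP⟩
  set u : Fin (m + 1) → Cl := fun i => aeval (xp i) P1 with hu
  set w : Fin b → Cl := fun i => aeval (xq i) P2 with hw
  have huinj : Function.Injective u := Del_ne_zero_iff.mp
    (left_ne_zero_of_mul (left_ne_zero_of_mul (left_ne_zero_of_mul hP1)))
  obtain ⟨hwinj, hwnd, cw, hcw, hcw0⟩ := even_of_cert hP2
  obtain ⟨G, H, hM⟩ := MP_of_cert hodd hP1
  have hGn : G.natDegree = m := by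
    have := hM.deg
    rw [natDegree_nod, Fintype.card_fin] at this
    omega
  obtain ⟨b0, hb0i, hb0⟩ := exists_nod (RingHom.id Cl) hM.Gm hGn hM.Gsep
  rw [Polynomial.map_id] at hb0
  subst hb0
  -- Galois action
  have hσpoly : ∀ (σ : Cl ≃ₐ[K] Cl) (Q : K[X]) (y : Cl), σ (aeval y Q) = aeval (σ y) Q := by
    intro σ Q y
    exact (aeval_algHom_apply (σ : Cl →ₐ[K] Cl) y Q).symm
  have hnodu : ∀ σ : Cl ≃ₐ[K] Cl, (nod u).map ((σ : Cl ≃+* Cl) : Cl →+* Cl) = nod u := by
    intro σ
    obtain ⟨π, hπ⟩ := exists_perm hxp' hxp σ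
    rw [nod_map, ← nod_comp_equiv π u]
    congr 1
    ext a
    change σ (aeval (xp a) P1) = aeval (xp (π a)) P1
    rw [hσpoly, hπ]
  have hnodb : ∀ σ : Cl ≃ₐ[K] Cl,
      (nod b0).map ((σ : Cl ≃+* Cl) : Cl →+* Cl) = nod b0 := by
    intro σ
    have h1 := hM.map (σ : Cl ≃+* Cl)
    rw [hnodu σ] at h1
    exact (hM.unique h1).1
  have hGb0 : ∀ (σ : Cl ≃ₐ[K] Cl) (j : Fin m), ∃ k, σ (b0 j) = b0 k := by
    intro σ j
    have h1 : (nod b0).eval (σ (b0 j)) = 0 := by
      rw [← hnodb σ]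
      have h2 : σ (b0 j) = ((σ : Cl ≃+* Cl) : Cl →+* Cl) (b0 j) := rfl
      rw [h2, eval_map_apply, eval_nod_self, map_zero]
    exact (eval_nod_eq_zero_iff _ _).mp h1
  obtain ⟨t0, ht0⟩ : ∃ t0 : K, φ t0 = MP.shift (nod u) (nod b0) := by
    have h1 : MP.shift (nod u) (nod b0) ∈ Set.range (algebraMap K Cl) := by
      rw [InfiniteGalois.mem_range_algebraMap_iff_fixed]
      intro σ
      have h2 := shift_map (f := nod u) (nod_monic b0) (σ : Cl ≃+* Cl)
      rw [hnodu σ, hnodb σ] at h2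
      exact h2.symm
    exact h1
  let z : Fin m ⊕ Fin b → Cl := Sum.elim (fun _ => 0) (fun _ => 1)
  let bb : Fin m ⊕ Fin b → Cl := Sum.elim b0 w
  let cc : Fin m ⊕ Fin b → Cl := Sum.elim (MP.res H b0) cw
  let z' : Fin (m + 1) ⊕ Fin b → Cl := Sum.elim (fun _ => 0) (fun _ => 1)
  let η : Fin (m + 1) ⊕ Fin b → Cl := Sum.elim u w
  let ρ : Fin (m + 1) ⊕ Fin b → Cl := Sum.elim xp xq
  have hrow0 : ∀ (v : Fin m ⊕ Fin b → Cl) (j : Fin m),
      (∑ k, if z (Sum.inl j) = z k then v k / (bb (Sum.inl j) - bb k) else 0) =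
        cauchySum b0 (fun i => v (Sum.inl i)) (b0 j) := by
    intro v j
    rw [Fintype.sum_sum_type]
    simp [z, bb, cauchySum]
  have hrow1 : ∀ (v : Fin m ⊕ Fin b → Cl) (j : Fin b),
      (∑ k, if z (Sum.inr j) = z k then v k / (bb (Sum.inr j) - bb k) else 0) =
        cauchySum w (fun i => v (Sum.inr i)) (w j) := by
    intro v j
    rw [Fintype.sum_sum_type]
    simp [z, bb, cauchySum]
  have hdet : (AinfO z bb).det ≠ 0 := by
    intro hdet
    obtain ⟨v, hv0, hv⟩ := Matrix.exists_mulVec_eq_zero_iff.mpr hdet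
    apply hv0
    have h1 : (fun i => v (Sum.inl i)) = 0 := by
      apply hM.nondeg
      intro j
      have h2 := congrFun hv (Sum.inl j)
      rw [AinfO_mulVec, hrow0] at h2
      exact h2
    have h2 : (fun i => v (Sum.inr i)) = 0 := by
      apply hwnd
      intro j
      have h2 := congrFun hv (Sum.inr j)
      rw [AinfO_mulVec, hrow1] at h2
      exact h2
    ext (j | j)
    · exact congrFun h1 j
    · exact congrFun h2 j
  have hcond : InfCondO z bb cc := by
    rintro (j | j)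
    · rw [hrow0]; exact hM.cauchy_res j
    · rw [hrow1]; exact hcw j
  have hzb : ∀ i j, z i = z j → bb i = bb j → i = j := by
    rintro (i | i) (j | j) h1 h2
    · exact congrArg Sum.inl (hM.b_inj h2)
    · exact absurd h1 (by simp [z])
    · exact absurd h1 (by simp [z])
    · exact congrArg Sum.inr (hwinj h2)
  have hcc0 : ∀ j, cc j ≠ 0 := by
    rintro (j | j)
    · exact hM.res_ne j
    · exact hcw0 j
  have hzη : ∀ i k, z' i = z' k → η i = η k → i = k := by
    rintro (i | i) (j | j) h1 h2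
    · exact congrArg Sum.inl (huinj h2)
    · exact absurd h1 (by simp [z'])
    · exact absurd h1 (by simp [z'])
    · exact congrArg Sum.inr (hwinj h2)
  have htar : ∀ i, TargetO z bb cc (algebraMap K Cl t0) (z' i) (η i) := by
    rintro (i | i)
    · left
      obtain ⟨r1, r2, r3⟩ := hM.root_eq (eval_nod_self u i)
      refine ⟨rfl, ?_, ?_, ?_⟩
      · rintro (j | j) hj
        · exact r1 j
        · exact absurd hj (by simp [z])
      · rw [Fintype.sum_sum_type]
        have e : algebraMap K Cl t0 = MP.shift (nod u) (nod b0) := ht0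
        rw [e]
        simpa [z, bb, cc, η] using r2
      · rw [Fintype.sum_sum_type]
        simpa [z, bb, cc, η] using r3
    · right
      exact ⟨Sum.inr i, rfl, rfl, by simp [z]⟩
  have hGJ : ∀ (σ : Cl ≃ₐ[K] Cl) (j : Fin m ⊕ Fin b), ∃ k, σ (z j) = z k ∧ σ (bb j) = bb k := by
    rintro σ (j | j)
    · obtain ⟨k, hk⟩ := hGb0 σ j
      exact ⟨Sum.inl k, map_zero σ, hk⟩
    · obtain ⟨π, hπ⟩ := exists_perm hxq' hxq σ
      refine ⟨Sum.inr (π j), map_one σ, ?_⟩
      change σ (aeval (xq j) P2) = aeval (xq (π j)) P2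
      rw [hσpoly, hπ]
  have hGI : ∀ (σ : Cl ≃ₐ[K] Cl) (i : Fin (m + 1) ⊕ Fin b), ∃ k, σ (z' i) = z' k ∧
      σ (η i) = η k ∧ σ (ρ i) = ρ k := by
    rintro σ (i | i)
    · obtain ⟨π, hπ⟩ := exists_perm hxp' hxp σ
      refine ⟨Sum.inl (π i), map_zero σ, ?_, hπ i⟩
      change σ (aeval (xp i) P1) = aeval (xp (π i)) P1
      rw [hσpoly, hπ]
    · obtain ⟨π, hπ⟩ := exists_perm hxq' hxq σ
      refine ⟨Sum.inr (π i), map_one σ, ?_, hπ i⟩
      change σ (aeval (xq i) P2) = aeval (xq (π i)) P2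
      rw [hσpoly, hπ]
  obtain ⟨e, g, θ, he0, hg, hxinj, hnd, hoc, hcn, hθ, hroots, hgal⟩ :=
    oPre_of_clusters (K := K) (Cl := Cl) hiso (I := Fin (m + 1) ⊕ Fin b)
      (J := Fin m ⊕ Fin b) (by simp; omega) hzb hdet hcond hcc0 hzη htar hGJ hGI
  refine ⟨g, _, _, t0, θ, ρ, hg, hxinj, hnd, hoc, hcn, hθ, hroots, ?_, hgal, ?_⟩
  · rw [Polynomial.map_mul, hxp', hxq', ← nod_sum]
  · intro r hr hrq
    -- a root of `r`
    obtain ⟨y, hy⟩ : ∃ y : Cl, aeval y r = 0 :=
      IsAlgClosed.exists_aeval_eq_zero Cl r (degree_pos_of_irreducible hr).ne'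
    obtain ⟨j, hj⟩ : ∃ j, y = xq j := by
      apply (eval_nod_eq_zero_iff xq y).mp
      rw [← hxq', eval_map]
      obtain ⟨r', hr'⟩ := hrq
      rw [hr']
      change aeval y (r * r') = 0
      rw [map_mul, hy, zero_mul]
    subst hj
    set Y : Cl := xu z bb (φ e) (Sum.inr j) with hY
    have hYint : IsIntegral K Y := Algebra.IsIntegral.isIntegral Y
    refine ⟨minpoly K Y, minpoly.irreducible hYint, ?_, ?_⟩
    · apply minpoly.dvd
      rw [aeval_def, ← eval_map]
      change (g.map φ).eval Y = 0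
      rw [hg, hY, eval_nod_self]
    · have h1 : r.natDegree = (minpoly K (xq j)).natDegree := by
        have h2 := minpoly.eq_of_irreducible hr hy
        rw [← h2]
        exact (natDegree_mul_C (inv_ne_zero (leadingCoeff_ne_zero.mpr hr.ne_zero))).symm
      rw [h1]
      apply natDegree_minpoly_eq
      intro σ
      obtain ⟨π, hπ⟩ := exists_perm hxq' hxq σ
      have hσY : σ Y = xu z bb (φ e) (Sum.inr (π j)) := by
        rw [hY]
        simp only [xu, map_add, map_div₀]
        have h3 : σ (φ e) = φ e := σ.commutes e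
        have h4 : σ (z (Sum.inr j)) = z (Sum.inr (π j)) := map_one σ
        have h5 : σ (bb (Sum.inr j)) = bb (Sum.inr (π j)) := by
          change σ (aeval (xq j) P2) = aeval (xq (π j)) P2
          rw [hσpoly, hπ]
        rw [h3, h4, h5]
      rw [hσY, hY, hπ]
      constructor
      · intro h
        have := hxinj h
        rw [Sum.inr.inj this]
      · intro h
        rw [hxq h]

end Pool.Agent.Lib.MP_12adaf_nt
end

section

/-!
# Weak approximation over number fields, even degree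
-/

namespace Pool.Agent.Lib.MP_12adaf_nt

set_option linter.unusedSectionVars false
set_option linter.unusedVariables false

open Finset Polynomial Filter Topology NumberField IsDedekindDomain

lemma factor_map {K L : Type*} [Field K] [Field L] (e : K ≃+* L) {F : K[X]}
    (h4 : ∃ p : K[X], Irreducible p ∧ p ∣ F ∧ ¬ 4 ∣ p.natDegree) :
    ∃ p : L[X], Irreducible p ∧ p ∣ F.map (e : K →+* L) ∧ ¬ 4 ∣ p.natDegree := by
  obtain ⟨p, hp, hpF, h⟩ := h4
  refine ⟨p.map (e : K →+* L), ?_, Polynomial.map_dvd _ hpF, by rwa [natDegree_map]⟩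
  exact (MulEquiv.irreducible_iff (Polynomial.mapEquiv e)).mpr hp

theorem locW_place {k : Type*} [Field k] [NumberField k] (i : Pl k) {N : ℕ} (hN : Even N)
    {F : (PlC k i)[X]} (hF : F.Monic) (hdeg : F.natDegree = N + 2) (hsep : F.Separable)
    (h4 : ∃ p : (PlC k i)[X], Irreducible p ∧ p ∣ F ∧ ¬ 4 ∣ p.natDegree) : LocW N F := by
  rcases i with v | w
  · rcases exists_equiv_real_or_complex v with ⟨e, he⟩ | ⟨e, he⟩
    · have e' : PlC k (Sum.inl v) ≃+* ℝ := e
      apply LocW.of_equiv e'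
      exact locW_real hN (hF.map _) (by rw [natDegree_map, hdeg]) hsep.map (factor_map e' h4)
    · have e' : PlC k (Sum.inl v) ≃+* ℂ := e
      apply LocW.of_equiv e'
      exact locW_complex hN (hF.map _) (by rw [natDegree_map, hdeg]) hsep.map (factor_map e' h4)
  · exact locW_padic (K := w.adicCompletion k) hN hF hdeg hsep h4

theorem weakApprox_even {k : Type*} [Field k] [NumberField k] {n : ℕ} (hn : Even n)
    (hn0 : n ≠ 0) {d : k} (hd : d ≠ 0) {ι : Type*} [Fintype ι] [Nonempty ι] (f : ι → Pl k)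
    (hf : Function.Injective f) (F : ∀ i, (PlC k (f i))[X]) (Y : ∀ i, PlC k (f i))
    (hF : ∀ i, (F i).Monic) (hdeg : ∀ i, (F i).natDegree = n)
    (hdisc : ∀ i, (F i).discr = plEmb k (f i) d * Y i ^ 2) (hY : ∀ i, Y i ≠ 0)
    (h4 : ∀ i, ∃ p : (PlC k (f i))[X], Irreducible p ∧ p ∣ F i ∧ ¬ 4 ∣ p.natDegree)
    {ε : ℝ} (hε : 0 < ε) :
    ∃ (P : k[X]) (y : k), P.Monic ∧ P.natDegree = n ∧ P.discr = d * y ^ 2 ∧ y ≠ 0 ∧
      ∀ i, (∀ m, ‖plEmb k (f i) (P.coeff m) - (F i).coeff m‖ < ε) ∧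
        ‖plEmb k (f i) y - Y i‖ < ε := by
  obtain ⟨N, rfl⟩ : ∃ N, n = N + 2 := ⟨n - 2, by obtain ⟨k, hk⟩ := hn; omega⟩
  have hN : Even N := by
    obtain ⟨k, hk⟩ := hn
    exact ⟨k - 1, by omega⟩
  have hsep : ∀ i, (F i).Separable := by
    intro i
    apply separable_of_discr_ne_zero (hF i)
    rw [hdisc]
    exact mul_ne_zero ((_root_.map_ne_zero _).mpr hd) (pow_ne_zero 2 (hY i))
  exact global_of_local (fun i => PlC k (f i)) (fun i => plEmb k (f i))
    (denseRange_places k f hf) hN hd F Y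
    (fun i => locW_place (f i) hN (hF i) (hdeg i) (hsep i) (h4 i)) hdisc hY hε

end Pool.Agent.Lib.MP_12adaf_nt
end

section

/-!
# Weak approximation over number fields, odd degree
-/

namespace Pool.Agent.Lib.MP_12adaf_nt

set_option linter.unusedSectionVars false
set_option linter.unusedVariables false

open Finset Polynomial Filter Topology NumberField IsDedekindDomain

/-- An irreducible factor of degree not divisible by `4`. -/
def GoodF {K : Type*} [Field K] (F : K[X]) : Prop :=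
  ∃ p : K[X], Irreducible p ∧ p ∣ F ∧ ¬ 4 ∣ p.natDegree

/-- The local statement in odd degree. -/
def LocO {K : Type*} [Field K] (N : ℕ) (F : K[X]) : Prop :=
  ∃ (g : K[X]) (t : K) (T : K[X]), OData N F g t T ∧ g.Monic ∧ g.natDegree = N ∧
    g.Separable ∧ GoodF g

lemma LocO.map_equiv {K L : Type*} [Field K] [Field L] (e : K ≃+* L) {N : ℕ} {F : K[X]}
    (h : LocO N F) : LocO N (F.map (e : K →+* L)) := by
  obtain ⟨g, t, T, h1, h2, h3, h4, h5⟩ := h
  refine ⟨g.map (e : K →+* L), e t, T.map (e : K →+* L), h1.map (e : K →+* L), h2.map _,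
    by rw [natDegree_map, h3], h4.map, factor_map e h5⟩

lemma LocO.of_equiv {K L : Type*} [Field K] [Field L] (e : K ≃+* L) {N : ℕ} {F : K[X]}
    (h : LocO N (F.map (e : K →+* L))) : LocO N F := by
  have h1 := h.map_equiv e.symm
  rw [Polynomial.map_map] at h1
  have h2 : (e.symm : L →+* K).comp (e : K →+* L) = RingHom.id K := by
    ext x; simp
  rwa [h2, Polynomial.map_id] at h1

/-- The hypothesis on the local polynomial. -/
def OFac {K : Type*} [Field K] (F : K[X]) : Prop :=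
  ∃ p q : K[X], p.Monic ∧ q.Monic ∧ Odd p.natDegree ∧ F = p * q ∧
    (GoodF q ∨ ¬ 4 ∣ F.natDegree - 1)

lemma OFac.map_equiv {K L : Type*} [Field K] [Field L] (e : K ≃+* L) {F : K[X]}
    (h : OFac F) : OFac (F.map (e : K →+* L)) := by
  obtain ⟨p, q, hp, hq, ho, rfl, h4⟩ := h
  refine ⟨p.map (e : K →+* L), q.map (e : K →+* L), hp.map _, hq.map _, ?_,
    Polynomial.map_mul _, ?_⟩
  · rwa [natDegree_map]
  · rcases h4 with h4 | h4
    · exact Or.inl (factor_map e h4)
    · right; rwa [natDegree_map]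

theorem locO_of_data {K Cl : Type*} [NontriviallyNormedField K] [NormedField Cl]
    [NormedAlgebra K Cl] [IsAlgClosed Cl] [IsGalois K Cl] [CharZero K] [CharZero Cl]
    (hiso : ∀ (σ : Cl ≃ₐ[K] Cl) (x : Cl), ‖σ x‖ = ‖x‖)
    {N : ℕ} (hN : Even N) {F : K[X]} (hF : F.Monic) (hdeg : F.natDegree = N + 1)
    (hsep : F.Separable) (h : OFac F) : LocO N F := by
  obtain ⟨p, q, hp, hq, ho, rfl, h4⟩ := h
  obtain ⟨m', hm'⟩ := ho
  set m := 2 * m' with hmdef
  have hm : Even m := ⟨m', by omega⟩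
  have hdeg' : m + 1 + q.natDegree = N + 1 := by
    rw [← hdeg, hp.natDegree_mul hq, hm']
  have hbe : Even q.natDegree := by
    obtain ⟨n', hn'⟩ := hN
    exact ⟨n' - m', by omega⟩
  obtain ⟨g, x, c, t, θ, ρ, hgx, hx, hnd, hc, hc0, hθ, hroot, hρ, heq, hfac⟩ :=
    oPre_of_mul hiso hp hq hsep hm' hm rfl hbe
  have hJ : Fintype.card (Fin m ⊕ Fin q.natDegree) = N := by simp; omega
  have hI : Fintype.card (Fin (m + 1) ⊕ Fin q.natDegree) = N + 1 := by simp; omega
  obtain ⟨T, hT⟩ := OData_of_roots hJ hI hgx hx hnd hc hc0 hθ hroot hρ heq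
  have hgm : g.Monic := by
    have := nod_monic x
    rw [← hgx] at this
    exact ((algebraMap K Cl).injective.monic_map_iff).mpr this
  have hgN : g.natDegree = N := by
    have := natDegree_nod x
    rw [← hgx, natDegree_map, hJ] at this
    exact this
  have hgs : g.Separable := by
    have := nod_separable hx
    rw [← hgx, separable_map] at this
    exact this
  refine ⟨g, t, T, hT, hgm, hgN, hgs, ?_⟩
  rcases h4 with ⟨r, hr, hrq, hr4⟩ | h4
  · obtain ⟨s, hs, hsg, hsd⟩ := hfac r hr hrq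
    exact ⟨s, hs, hsg, by rwa [hsd]⟩
  · have h5 : ¬ 4 ∣ g.natDegree := by
      rw [hgN]
      rw [hdeg] at h4
      exact h4
    exact exists_factor_of_not_dvd g.natDegree hgm rfl h5

lemma locO_real {N : ℕ} (hN : Even N) {F : ℝ[X]} (hF : F.Monic) (hdeg : F.natDegree = N + 1)
    (hsep : F.Separable) (h : OFac F) : LocO N F := by
  have : IsAlgClosure ℝ ℂ := ⟨inferInstance, inferInstance⟩
  have : IsGalois ℝ ℂ := IsAlgClosure.isGalois ℝ ℂ
  refine locO_of_data (Cl := ℂ) ?_ hN hF hdeg hsep h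
  intro σ x
  rcases Complex.real_algHom_eq_id_or_conj (σ : ℂ →ₐ[ℝ] ℂ) with h | h
  · have h1 : σ x = (σ : ℂ →ₐ[ℝ] ℂ) x := rfl
    rw [h1, h]; rfl
  · have h1 : σ x = (σ : ℂ →ₐ[ℝ] ℂ) x := rfl
    rw [h1, h]
    exact Complex.norm_conj x

lemma locO_complex {N : ℕ} (hN : Even N) {F : ℂ[X]} (hF : F.Monic) (hdeg : F.natDegree = N + 1)
    (hsep : F.Separable) (h : OFac F) : LocO N F := by
  have : IsGalois ℂ ℂ := inferInstance
  refine locO_of_data (Cl := ℂ) ?_ hN hF hdeg hsep h
  intro σ x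
  have h1 : σ x = x := σ.commutes x
  rw [h1]

lemma locO_padic {K : Type*} [NontriviallyNormedField K] [IsUltrametricDist K]
    [ProperSpace K] [CharZero K] {N : ℕ} (hN : Even N) {F : K[X]} (hF : F.Monic)
    (hdeg : F.natDegree = N + 1) (hsep : F.Separable) (h : OFac F) : LocO N F := by
  obtain ⟨Cl, i1, i2, i3, i4, i5, hiso⟩ := exists_normedAlgClosure K
  exact locO_of_data (Cl := Cl) hiso hN hF hdeg hsep h

theorem locO_place {k : Type*} [Field k] [NumberField k] (i : Pl k) {N : ℕ} (hN : Even N)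
    {F : (PlC k i)[X]} (hF : F.Monic) (hdeg : F.natDegree = N + 1) (hsep : F.Separable)
    (h : OFac F) : LocO N F := by
  rcases i with v | w
  · rcases exists_equiv_real_or_complex v with ⟨e, he⟩ | ⟨e, he⟩
    · have e' : PlC k (Sum.inl v) ≃+* ℝ := e
      apply LocO.of_equiv e'
      exact locO_real hN (hF.map _) (by rw [natDegree_map, hdeg]) hsep.map (h.map_equiv e')
    · have e' : PlC k (Sum.inl v) ≃+* ℂ := e
      apply LocO.of_equiv e'
      exact locO_complex hN (hF.map _) (by rw [natDegree_map, hdeg]) hsep.map (h.map_equiv e')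
  · exact locO_padic (K := w.adicCompletion k) hN hF hdeg hsep h

theorem weakApprox_odd {k : Type*} [Field k] [NumberField k] {n : ℕ} (hn : Odd n)
    (hn1 : n ≠ 1) {d : k} (hd : d ≠ 0) {ι : Type*} [Fintype ι] [Nonempty ι] (f : ι → Pl k)
    (hf : Function.Injective f) (F : ∀ i, (PlC k (f i))[X]) (Y : ∀ i, PlC k (f i))
    (hF : ∀ i, (F i).Monic) (hdeg : ∀ i, (F i).natDegree = n)
    (hdisc : ∀ i, (F i).discr = plEmb k (f i) d * Y i ^ 2) (hY : ∀ i, Y i ≠ 0)
    (h4 : ∀ i, OFac (F i)) {ε : ℝ} (hε : 0 < ε) :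
    ∃ (P : k[X]) (y : k), P.Monic ∧ P.natDegree = n ∧ P.discr = d * y ^ 2 ∧ y ≠ 0 ∧
      ∀ i, (∀ m, ‖plEmb k (f i) (P.coeff m) - (F i).coeff m‖ < ε) ∧
        ‖plEmb k (f i) y - Y i‖ < ε := by
  obtain ⟨N, rfl⟩ : ∃ N, n = N + 1 := ⟨n - 1, by obtain ⟨k, hk⟩ := hn; omega⟩
  have hN : Even N := by
    obtain ⟨k, hk⟩ := hn
    exact ⟨k, by omega⟩
  have hN0 : N ≠ 0 := by omega
  have hsep : ∀ i, (F i).Separable := by
    intro i
    apply separable_of_discr_ne_zero (hF i)
    rw [hdisc]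
    exact mul_ne_zero ((_root_.map_ne_zero _).mpr hd) (pow_ne_zero 2 (hY i))
  choose g t T hT hgm hgN hgs hgood using
    fun i => locO_place (f i) hN (hF i) (hdeg i) (hsep i) (h4 i)
  exact global_of_local_odd (fun i => PlC k (f i)) (fun i => plEmb k (f i))
    (denseRange_places k f hf) hN hd F Y hdisc hY g t T hT
    (fun z hz1 hz2 ε' hε' => weakApprox_even hN hN0 hd f hf g z hgm hgN hz1 hz2 hgood hε') hε

end Pool.Agent.Lib.MP_12adaf_nt
end
end
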