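import Mathlib
import Pool.Agent.Lib.MP_12adaf_nt.BaseQ

/-!
# Changes of generator from Galois equivariant labellings, and involutions
-/

namespace Pool.Agent.Lib.MP_12adaf_nt

set_option linter.unusedSectionVars false
set_option linter.unusedVariables false

open Finset Polynomial Filter Topology

section

variable {K Cl : Type*} [Field K] [Field Cl] [Algebra K Cl] [IsGalois K Cl] [CharZero K]
  [CharZero Cl] {I : Type*} [Fintype I] [DecidableEq I] {N : ℕ}

/-- Two polynomials whose roots are labelled equivariantly by the same set are related by a change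
of generator. -/
theorem exists_T_of_labels (hI : Fintype.card I = N) {θ ρ : I → Cl}
    (hθ : Function.Injective θ) (hρ : Function.Injective ρ) {g F : K[X]}
    (hg : g.map (algebraMap K Cl) = nod θ) (hF : F.map (algebraMap K Cl) = nod ρ)
    (heq : ∀ (σ : Cl ≃ₐ[K] Cl) (i : I), ∃ k, σ (θ i) = θ k ∧ σ (ρ i) = ρ k) :
    ∃ T : K[X], charT N g T = F ∧ (Bmat N g T).det ≠ 0 := by
  set φ : K →+* Cl := algebraMap K Cl with hφ
  have hφi : Function.Injective φ := φ.injective
  have hgm : g.Monic := monic_of_nod hg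
  obtain ⟨T, hT⟩ : ∃ T : K[X], T.map φ = Lagrange.interpolate Finset.univ θ ρ := by
    apply exists_map_of_fixed
    intro σ
    have hdeg : (Lagrange.interpolate Finset.univ θ ρ).degree < (Finset.univ : Finset I).card :=
      Lagrange.degree_interpolate_lt _ hθ.injOn
    have hdeg' : ((Lagrange.interpolate Finset.univ θ ρ).map (σ : Cl →+* Cl)).degree <
        (Finset.univ : Finset I).card := by
      rw [degree_map]; exact hdeg
    refine eq_of_degrees_lt_of_eval_index_eq (s := Finset.univ) (v := θ) hθ.injOn hdeg' hdeg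
      fun k _ => ?_
    obtain ⟨i, hi1, hi2⟩ := heq σ.symm k
    have h1 : σ (θ i) = θ k := by rw [← hi1, AlgEquiv.apply_symm_apply]
    have h2 : σ (ρ i) = ρ k := by rw [← hi2, AlgEquiv.apply_symm_apply]
    rw [Lagrange.eval_interpolate_at_node _ hθ.injOn (Finset.mem_univ k), ← h1]
    have h3 : (σ (θ i)) = (σ : Cl →+* Cl) (θ i) := rfl
    rw [h3, eval_map_apply, Lagrange.eval_interpolate_at_node _ hθ.injOn (Finset.mem_univ i)]
    exact h2
  let e : Fin N ≃ I := (Fintype.equivFinOfCardEq hI).symm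
  have hθe : Function.Injective fun k => θ (e k) := hθ.comp e.injective
  have hee : ∀ k, (Lagrange.interpolate Finset.univ θ ρ).eval (θ (e k)) = ρ (e k) := fun k =>
    Lagrange.eval_interpolate_at_node _ hθ.injOn (Finset.mem_univ _)
  refine ⟨T, ?_, ?_⟩
  · apply Polynomial.map_injective φ hφi
    rw [map_charT φ hgm, hg, hT, hF]
    have h1 : charT N (nod fun k => θ (e k)) (Lagrange.interpolate Finset.univ θ ρ) =
        nod (fun k => (Lagrange.interpolate Finset.univ θ ρ).eval (θ (e k))) := charT_nod hθe _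
    rw [nod_comp_equiv e θ] at h1
    rw [h1]
    simp only [hee]
    rw [nod_comp_equiv e ρ]
  · intro h
    have h1 := det_Bmat_nod (fun k => θ (e k)) (Lagrange.interpolate Finset.univ θ ρ)
    rw [nod_comp_equiv e θ, ← hg, ← hT, ← map_det_Bmat φ hgm, h, map_zero, mul_zero, hT] at h1
    simp only [hee] at h1
    exact (Matrix.det_vandermonde_ne_zero_iff.mpr (hρ.comp e.injective)) h1.symm

theorem rch_of_labels (hI : Fintype.card I = N) {θ ρ : I → Cl}
    (hθ : Function.Injective θ) (hρ : Function.Injective ρ) {g F : K[X]}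
    (hg : g.map (algebraMap K Cl) = nod θ) (hF : F.map (algebraMap K Cl) = nod ρ)
    (heq : ∀ (σ : Cl ≃ₐ[K] Cl) (i : I), ∃ k, σ (θ i) = θ k ∧ σ (ρ i) = ρ k) :
    ∃ κ, Rch N g F κ := by
  obtain ⟨T, h1, h2⟩ := exists_T_of_labels hI hθ hρ hg hF heq
  refine ⟨1 * (Bmat N g T).det, ?_⟩
  rw [← h1]
  exact Rch.refl.tmove T h2

/-- An even polynomial is a polynomial in `X ^ 2`. -/
lemma expand_contract_two {g : K[X]} (h : g.comp (-X) = g) : expand K 2 (contract 2 g) = g := by
  ext n
  rw [coeff_expand (by norm_num)]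
  split_ifs with hn
  · rw [coeff_contract (by norm_num)]
    congr 1
    omega
  · have h1 : (g.comp (-X)).coeff n = (-1) ^ n * g.coeff n := by
      rw [show (-X : K[X]) = C (-1) * X by simp, comp_C_mul_X_coeff, mul_comm]
    rw [h] at h1
    have h2 : Odd n := by
      rw [← Nat.not_even_iff_odd, even_iff_two_dvd]; exact hn
    rw [h2.neg_one_pow] at h1
    have h3 : (2 : K) * g.coeff n = 0 := by linear_combination h1
    exact ((mul_eq_zero.mp h3).resolve_left two_ne_zero).symm

theorem locR_of_involution {m : ℕ} (hI : Fintype.card I = 2 * m) {ρ : I → Cl}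
    (hρ : Function.Injective ρ) {F : K[X]} (hF : F.map (algebraMap K Cl) = nod ρ)
    (ν : I ≃ I) (hν : ∀ i, ν (ν i) = i) (hν' : ∀ i, ν i ≠ i)
    (heq : ∀ (σ : Cl ≃ₐ[K] Cl) (i : I), ∃ k, σ (ρ i) = ρ k ∧ σ (ρ (ν i)) = ρ (ν k)) :
    LocR m F := by
  classical
  set φ : K →+* Cl := algebraMap K Cl with hφ
  have : Infinite K := inferInstance
  -- a generic antisymmetric generator
  let Q : MvPolynomial I Cl := ∏ p ∈ (univ : Finset I).offDiag,
    ((MvPolynomial.X p.1 - MvPolynomial.X (ν p.1)) -
      (MvPolynomial.X p.2 - MvPolynomial.X (ν p.2)))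
  have hQ : Q ≠ 0 := by
    rw [Finset.prod_ne_zero_iff]
    rintro ⟨i, j⟩ hp
    simp only [mem_offDiag, mem_univ, true_and] at hp
    intro h
    have h1 := congrArg (MvPolynomial.eval (Pi.single i (1 : Cl))) h
    simp only [map_sub, MvPolynomial.eval_X, map_zero, Pi.single_eq_same] at h1
    rw [Pi.single_eq_of_ne (hν' i), Pi.single_eq_of_ne (Ne.symm hp)] at h1
    by_cases hj : ν j = i
    · rw [hj, Pi.single_eq_same] at h1
      norm_num at h1
    · rw [Pi.single_eq_of_ne hj] at h1
      norm_num at h1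
  obtain ⟨P, hP⟩ := exists_generic (K := K) hρ hQ
  set θ : I → Cl := fun i => aeval (ρ i) P - aeval (ρ (ν i)) P with hθdef
  have hθ : Function.Injective θ := by
    intro i j hij
    by_contra hne
    apply hP
    rw [map_prod]
    apply Finset.prod_eq_zero (i := (i, j)) (by simp [hne])
    simp only [map_sub, MvPolynomial.eval_X]
    exact sub_eq_zero.mpr hij
  have hσpoly : ∀ (σ : Cl ≃ₐ[K] Cl) (Q : K[X]) (y : Cl), σ (aeval y Q) = aeval (σ y) Q := by
    intro σ Q y
    exact (aeval_algHom_apply (σ : Cl →ₐ[K] Cl) y Q).symm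
  have heq' : ∀ (σ : Cl ≃ₐ[K] Cl) (i : I), ∃ k, σ (θ i) = θ k ∧ σ (ρ i) = ρ k := by
    intro σ i
    obtain ⟨k, h1, h2⟩ := heq σ i
    refine ⟨k, ?_, h1⟩
    rw [hθdef]
    dsimp only
    rw [map_sub, hσpoly, hσpoly, h1, h2]
  obtain ⟨g, hg⟩ : ∃ g : K[X], g.map φ = nod θ :=
    exists_map_nod hθ fun σ i => (heq' σ i).imp fun _ h => h.1
  have hgm : g.Monic := monic_of_nod hg
  have hgd : g.natDegree = 2 * m := (natDegree_of_nod hg).trans hI
  have hgs : g.Separable := separable_of_nod hg hθ
  have hneg : ∀ i, θ (ν i) = - θ i := by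
    intro i
    rw [hθdef]
    dsimp only
    rw [hν]; ring
  have hgc : g.comp (-X) = g := by
    apply Polynomial.map_injective φ φ.injective
    rw [Polynomial.map_comp, Polynomial.map_neg, map_X, hg]
    have h1 : (nod θ).comp (-X) = ∏ i, (-(X - C (θ (ν i)))) := by
      rw [nod, Polynomial.prod_comp]
      refine Finset.prod_congr rfl fun i _ => ?_
      rw [sub_comp, X_comp, C_comp, hneg, C_neg]
      ring
    rw [h1, Finset.prod_neg, Finset.card_univ, hI, pow_mul]
    simp only [even_two, Even.neg_pow, one_pow, one_mul]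
    exact nod_comp_equiv ν θ
  have hge := expand_contract_two hgc
  set f := contract 2 g with hf
  have hfd : f.natDegree = m := by
    have h1 := congrArg natDegree hge
    rw [natDegree_expand, hgd] at h1
    omega
  have hfm : f.Monic := by
    rw [Monic, leadingCoeff, hfd, hf, coeff_contract (by norm_num), mul_comm, ← hgd]
    exact hgm.coeff_natDegree
  have hdisc := discr_expand_two hfm hfd
  rw [hge] at hdisc
  have hg0 := discr_ne_zero_of_separable hgm hgs
  have hf0 : f.coeff 0 ≠ 0 := by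
    intro h; apply hg0; rw [hdisc, h]; ring
  have hfs : f.Separable := by
    apply separable_of_discr_ne_zero hfm
    intro h; apply hg0; rw [hdisc, h]; ring
  obtain ⟨κ, hκ⟩ := rch_of_labels hI hθ hρ hg hF heq'
  refine ⟨f, κ, hfm, hfd, hfs, hf0, ?_⟩
  rw [hge]
  exact hκ

end

end Pool.Agent.Lib.MP_12adaf_nt
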