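import Mathlib
import Pool.Agent.Lib.MP_12adaf_nt.Cert
import Pool.Agent.Lib.MP_12adaf_nt.BaseQ

/-!
# All fibres of a Mestre pair are fibres of Mestre pairs
-/

namespace Pool.Agent.Lib.MP_12adaf_nt

set_option linter.unusedSectionVars false
set_option linter.unusedVariables false
set_option autoImplicit false

open Finset Polynomial

section

variable {L : Type*} [Field L] [CharZero L] {ι : Type*} [Fintype ι] [DecidableEq ι]

/-- Polarised identity for two kernel vectors. -/
lemma polar_kernel {b v w : ι → L} (hb : Function.Injective b) (hv : CKer b v) (hw : CKer b w)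
    {z : L} (hz : ∀ j, z ≠ b j) :
    cauchySum b v z * cauchySum b w z = ∑ j, v j * w j / (z - b j) ^ 2 := by
  have h1 := sq_cauchySum b v hb 0 z (fun j _ => hz j)
  have h2 := sq_cauchySum b w hb 0 z (fun j _ => hz j)
  have h3 := sq_cauchySum b (fun j => v j + w j) hb 0 z (fun j _ => hz j)
  have hadd : ∀ y, cauchySum b (fun j => v j + w j) y = cauchySum b v y + cauchySum b w y := by
    intro y; simp [cauchySum, add_div, Finset.sum_add_distrib]
  simp only [hadd, hv _, hw _] at h1 h2 h3
  simp only [add_zero, mul_zero, zero_div, zero_add, ne_eq,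
    OfNat.ofNat_ne_zero, not_false_eq_true, zero_pow] at h1 h2 h3
  have h4 : ∑ j, (v j + w j) ^ 2 / (z - b j) ^ 2 = ∑ j, v j ^ 2 / (z - b j) ^ 2 +
      ∑ j, w j ^ 2 / (z - b j) ^ 2 + 2 * ∑ j, v j * w j / (z - b j) ^ 2 := by
    rw [Finset.mul_sum, ← Finset.sum_add_distrib, ← Finset.sum_add_distrib]
    refine Finset.sum_congr rfl fun j _ => ?_
    ring
  rw [h4] at h3
  have h5 : 2 * (cauchySum b v z * cauchySum b w z) =
      2 * ∑ j, v j * w j / (z - b j) ^ 2 := by
    linear_combination h3 - h1 - h2
  exact mul_left_cancel₀ two_ne_zero h5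

lemma eval_sum_nodE_off (b v : ι → L) {z : L} (hz : ∀ j, z ≠ b j) :
    (∑ j, C (v j) * nodE b j).eval z = (nod b).eval z * cauchySum b v z := by
  rw [eval_finsetSum, cauchySum, Finset.mul_sum]
  refine Finset.sum_congr rfl fun j _ => ?_
  rw [eval_mul, eval_C, eval_nodE_eq_div b j z (hz j)]
  ring

lemma sum_mul_sum_kernel {b v w : ι → L} (hb : Function.Injective b) (hv : CKer b v)
    (hw : CKer b w) :
    (∑ j, C (v j) * nodE b j) * (∑ j, C (w j) * nodE b j) =
      ∑ j, C (v j * w j) * nodE b j ^ 2 := by
  have hne : nod b ≠ 0 := (nod_monic b).ne_zero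
  apply mul_left_cancel₀ hne
  apply Polynomial.funext
  intro z
  rw [eval_mul, eval_mul (p := nod b) (q := ∑ j, C (v j * w j) * nodE b j ^ 2)]
  by_cases hz : (nod b).eval z = 0
  · rw [hz, zero_mul, zero_mul]
  congr 1
  have hz' : ∀ j, z ≠ b j := fun j h' => hz ((eval_nod_eq_zero_iff b z).mpr ⟨j, h'⟩)
  rw [eval_mul, eval_sum_nodE_off b v hz', eval_sum_nodE_off b w hz', eval_finsetSum]
  have h1 := polar_kernel hb hv hw hz'
  have h2 : ∑ j, (C (v j * w j) * nodE b j ^ 2).eval z =
      (nod b).eval z ^ 2 * ∑ j, v j * w j / (z - b j) ^ 2 := by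
    rw [Finset.mul_sum]
    refine Finset.sum_congr rfl fun j _ => ?_
    rw [eval_mul, eval_pow, eval_C, eval_nodE_eq_div b j z (hz' j), div_pow]
    ring
  rw [h2, ← h1]
  ring

end

section

variable {L : Type*} [Field L] [CharZero L] [IsAlgClosed L]

lemma sub_monic {F G : L[X]} (hF : F.Monic) (hdeg : F.natDegree = G.natDegree + 1) (τ : L) :
    (F - C τ * G).Monic ∧ (F - C τ * G).natDegree = F.natDegree := by
  have h1 : (C τ * G).natDegree < F.natDegree := by
    have := natDegree_C_mul_le τ G
    omega
  have h2 : (C τ * G).degree < F.degree := degree_lt_degree h1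
  exact ⟨hF.sub_of_left h2, natDegree_sub_eq_left_of_natDegree_lt h1⟩

lemma wr_sub {F G H : L[X]} (h : derivative F * G - F * derivative G = H ^ 2) (τ : L) :
    derivative (F - C τ * G) * G - (F - C τ * G) * derivative G = H ^ 2 := by
  rw [derivative_sub, derivative_C_mul, ← h]
  ring

theorem MP.sub {F G H : L[X]} (h : MP F G H) (τ : L) (hc : IsCoprime H (F - C τ * G)) :
    MP (F - C τ * G) G H := by
  classical
  obtain ⟨hPm, hPd⟩ := sub_monic h.fm h.deg τ
  have hwr := wr_sub h.wr τ
  set P : L[X] := F - C τ * G with hP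
  have hPsep : P.Separable := by
    have h1 : IsCoprime P (derivative P * G) := by
      have h2 : IsCoprime P (H ^ 2) := hc.symm.pow_right
      rw [← hwr] at h2
      have h3 : IsCoprime P (derivative P * G - P * derivative G + P * derivative G) :=
        (IsCoprime.add_mul_left_right h2 (derivative G))
      rwa [sub_add_cancel] at h3
    exact h1.of_mul_right_left
  refine ⟨hPm, h.Gm, h.Hm, hPsep, h.Gsep, hPd.trans h.deg, h.degH, hwr, hc, ?_⟩
  intro V hVd hdvd
  obtain ⟨b, hbi, hb⟩ := exists_nod (RingHom.id L) hPm rfl hPsep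
  rw [Polynomial.map_id] at hb
  obtain ⟨γ, hγi, hγ⟩ := exists_nod (RingHom.id L) h.Gm rfl h.Gsep
  rw [Polynomial.map_id] at hγ
  have hγM : MP F (nod γ) H := by rw [← hγ]; exact h
  have hdegP : P.natDegree = G.natDegree + 1 := hPd.trans h.deg
  have hPP : ∀ i, (derivative (nod b)).eval (b i) ≠ 0 := eval_derivative_nod_ne_zero b hbi
  have hHne : ∀ i, H.eval (b i) ≠ 0 := by
    intro i h0
    obtain ⟨p, q, hpq⟩ := hc
    have h1 := congrArg (eval (b i)) hpq
    have h2 : P.eval (b i) = 0 := by rw [hb]; exact eval_nod_self b i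
    simp [h0, h2] at h1
  -- the equation satisfied by `H`
  have hkeyP : ∀ i, H.eval (b i) * (derivative (derivative (nod b))).eval (b i) =
      2 * (derivative (nod b)).eval (b i) * (derivative H).eval (b i) := by
    intro i
    have e1 := congrArg (eval (b i)) hwr
    have e2 := congrArg derivative hwr
    simp only [derivative_sub, derivative_mul, derivative_pow, Nat.cast_ofNat,
      Nat.add_one_sub_one, pow_one] at e2
    have e2 := congrArg (eval (b i)) e2
    rw [hb] at e1 e2
    simp only [eval_sub, eval_add, eval_mul, eval_pow, eval_nod_self, zero_mul, mul_zero,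
      sub_zero, eval_C] at e1 e2
    apply mul_left_cancel₀ (hHne i)
    linear_combination (-(derivative (derivative (nod b))).eval (b i)) * e1 +
      (derivative (nod b)).eval (b i) * e2
  have hVd' : V.degree < Fintype.card (Fin P.natDegree) := by
    rw [Fintype.card_fin, ← degree_eq_natDegree hPm.ne_zero]; exact hVd
  have hHd' : H.degree < Fintype.card (Fin P.natDegree) := by
    rw [Fintype.card_fin, degree_eq_natDegree h.Hm.ne_zero]
    have := h.degH
    exact_mod_cast (by omega : H.natDegree < P.natDegree)
  set v : Fin P.natDegree → L := fun l => V.eval (b l) / (derivative (nod b)).eval (b l) with hv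
  set k : Fin P.natDegree → L := fun l => H.eval (b l) / (derivative (nod b)).eval (b l) with hk
  have hkK : CKer b k := by
    rw [hk, CKer_iff hbi hHd']
    intro i
    linear_combination -(hkeyP i)
  have hvK : CKer b v := by
    rw [hv, CKer_iff hbi hVd']
    intro i
    obtain ⟨Q, hQ⟩ := hdvd
    have e1 := congrArg (eval (b i)) hQ
    rw [hb] at e1
    simp only [eval_sub, eval_mul, eval_nod_self, zero_mul] at e1
    apply mul_left_cancel₀ (hHne i)
    have e2 := hkeyP i
    linear_combination 2 * (derivative (nod b)).eval (b i) * e1 - V.eval (b i) * e2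
  have hVeq : V = ∑ j, C (v j) * nodE b j := eq_sum_nodE hbi hVd'
  have hHeq : H = ∑ j, C (k j) * nodE b j := eq_sum_nodE hbi hHd'
  have hVH : V * H = ∑ j, C (v j * k j) * nodE b j ^ 2 := by
    rw [← sum_mul_sum_kernel hbi hvK hkK, ← hVeq, ← hHeq]
  set Psi : L[X] := ∑ j, C (v j * k j) * nodE b j with hPsi
  have hPb : ∀ j, Psi.eval (b j) = v j * k j * (derivative (nod b)).eval (b j) :=
    eval_sum_nodE b fun j => v j * k j
  have hI1 : derivative Psi * nod b - Psi * derivative (nod b) = - (V * H) := by
    rw [hVH, hPsi, derivative_sum, Finset.sum_mul, Finset.sum_mul,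
      ← Finset.sum_sub_distrib, ← Finset.sum_neg_distrib]
    refine Finset.sum_congr rfl fun j _ => ?_
    rw [derivative_mul, derivative_C, ← derivative_nodE_mul b j]
    ring
  obtain ⟨W, hW⟩ : nod b ∣ G * V - H * Psi := by
    apply nod_dvd_of_eval hbi
    intro j
    rw [eval_sub, eval_mul, eval_mul, hPb]
    have e1 := congrArg (eval (b j)) hwr
    rw [hb] at e1
    simp only [eval_sub, eval_mul, eval_pow, eval_nod_self, zero_mul, sub_zero] at e1
    have e2 : v j * (derivative (nod b)).eval (b j) = V.eval (b j) := by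
      rw [hv]; exact div_mul_cancel₀ _ (hPP j)
    have e3 : k j * (derivative (nod b)).eval (b j) = H.eval (b j) := by
      rw [hk]; exact div_mul_cancel₀ _ (hPP j)
    apply mul_left_cancel₀ (hPP j)
    rw [mul_zero]
    linear_combination V.eval (b j) * e1 - H.eval (b j) * H.eval (b j) * e2 -
      H.eval (b j) * v j * (derivative (nod b)).eval (b j) * e3
  have hbne : nod b ≠ 0 := (nod_monic b).ne_zero
  rw [hb] at hwr
  have hWeq : nod b * (derivative W * H - W * derivative H) =
      G * (H * derivative V - derivative H * V) := by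
    apply mul_left_cancel₀ hbne
    have hW' := congrArg derivative hW
    simp only [derivative_sub, derivative_mul] at hW'
    linear_combination (-(nod b) * H) * hW' + (derivative (nod b) * H + nod b * derivative H) * hW
      - (H * V) * hwr - H ^ 2 * hI1
  have hGP : IsCoprime G (nod b) := by
    rw [← hb]
    have h1 : IsCoprime G F := by
      rw [hγ]
      apply IsCoprime.prod_left
      intro i _
      rw [(irreducible_X_sub_C (γ i)).coprime_iff_not_dvd, dvd_iff_isRoot]
      exact hγM.eval_f_ne i
    have h2 : P = F + G * (-(C τ)) := by rw [hP]; ring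
    rw [h2]
    exact h1.add_mul_left_right _
  have hGdvd : G ∣ derivative W * H - W * derivative H :=
    hGP.dvd_of_dvd_mul_left ⟨_, hWeq⟩
  have hWdeg : W.degree < Fintype.card (Fin G.natDegree) := by
    rw [Fintype.card_fin]
    by_cases hW0 : W = 0
    · rw [hW0, degree_zero]; exact WithBot.bot_lt_coe _
    have h1 : (nod b * W).natDegree = P.natDegree + W.natDegree := by
      rw [natDegree_mul hbne hW0, natDegree_nod, Fintype.card_fin]
    have hVn : V.natDegree < P.natDegree ∨ V = 0 := by
      by_cases hV0 : V = 0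
      · exact Or.inr hV0
      · left
        rw [degree_eq_natDegree hV0, Fintype.card_fin] at hVd'
        exact_mod_cast hVd'
    have hPn : Psi.natDegree < P.natDegree ∨ Psi = 0 := by
      by_cases hP0 : Psi = 0
      · exact Or.inr hP0
      · left
        have := degree_sum_nodE_lt b fun j => v j * k j
        rw [← hPsi, degree_eq_natDegree hP0, Fintype.card_fin] at this
        exact_mod_cast this
    have hHn := h.degH
    have h2 : (G * V - H * Psi).natDegree < P.natDegree + G.natDegree := by
      refine lt_of_le_of_lt (natDegree_sub_le _ _) (max_lt ?_ ?_)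
      · rcases hVn with hVn | hVn
        · refine lt_of_le_of_lt natDegree_mul_le ?_
          omega
        · rw [hVn, mul_zero, natDegree_zero]; omega
      · rcases hPn with hPn | hPn
        · refine lt_of_le_of_lt natDegree_mul_le ?_
          omega
        · rw [hPn, mul_zero, natDegree_zero]; omega
    rw [hW, h1] at h2
    rw [degree_eq_natDegree hW0]
    exact_mod_cast (by omega : W.natDegree < G.natDegree)
  have hW0 : W = 0 := by
    have hw : CKer γ (fun l => W.eval (γ l) / (derivative (nod γ)).eval (γ l)) := by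
      rw [CKer_iff hγi hWdeg]
      intro i
      obtain ⟨Q, hQ⟩ := hGdvd
      have e1 := congrArg (eval (γ i)) hQ
      rw [hγ] at e1
      simp only [eval_sub, eval_mul, eval_nod_self, zero_mul] at e1
      have e2 := hγM.key_b i
      apply mul_left_cancel₀ (hγM.eval_H_ne i)
      linear_combination 2 * (derivative (nod γ)).eval (γ i) * e1 - W.eval (γ i) * e2
    have h1 := hγM.nondeg hw
    have h2 := eq_sum_nodE hγi hWdeg
    rw [h2]
    refine Finset.sum_eq_zero fun l _ => ?_
    have h3 := congrFun h1 l
    simp only [Pi.zero_apply] at h3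
    rw [h3, C_0, zero_mul]
  rw [hW0, mul_zero, sub_eq_zero] at hW
  have hHG : IsCoprime H G := by
    rw [isCoprime_comm, hγ]
    apply IsCoprime.prod_left
    intro i _
    rw [(irreducible_X_sub_C (γ i)).coprime_iff_not_dvd, dvd_iff_isRoot]
    exact hγM.eval_H_ne i
  obtain ⟨R, hR⟩ : H ∣ V := hHG.dvd_of_dvd_mul_left ⟨Psi, hW⟩
  have hR0 : R.natDegree = 0 := by
    by_cases hV0 : V = 0
    · rw [hV0] at hR
      rcases mul_eq_zero.mp hR.symm with h1 | h1
      · exact absurd h1 h.Hm.ne_zero
      · rw [h1, natDegree_zero]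
    have hRne : R ≠ 0 := by rintro rfl; exact hV0 (by rw [hR, mul_zero])
    have h1 : V.natDegree < P.natDegree := by
      rw [degree_eq_natDegree hV0, degree_eq_natDegree hPm.ne_zero] at hVd
      exact_mod_cast hVd
    have h2 := congrArg natDegree hR
    rw [natDegree_mul h.Hm.ne_zero hRne] at h2
    have h3 := h.degH
    omega
  refine ⟨R.coeff 0, ?_⟩
  rw [hR, eq_C_of_natDegree_eq_zero hR0]
  simp only [coeff_C_zero]
  ring

end

end Pool.Agent.Lib.MP_12adaf_nt
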