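import Mathlib
import Pool.Agent.Lib.MP_12adaf_nt.OCluster

/-!
# The odd parametrisation when the poles fall into clusters of odd size
-/

namespace Pool.Agent.Lib.MP_12adaf_nt

set_option linter.unusedSectionVars false
set_option linter.unusedVariables false

open Finset Polynomial Filter Topology

section Defs

variable {Cl : Type*} [Field Cl] [DecidableEq Cl] {I : Type*} [Fintype I] [DecidableEq I]

/-- The indices with the same label as `j`. -/
def blk (Z : I → Cl) (j : I) : Finset I := univ.filter fun k => Z k = Z j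

/-- The indices with a label different from that of `j`. -/
def nblk (Z : I → Cl) (j : I) : Finset I := univ.filter fun k => ¬ Z k = Z j

lemma mem_blk {Z : I → Cl} {j k : I} : k ∈ blk Z j ↔ Z k = Z j := by simp [blk]

lemma mem_nblk {Z : I → Cl} {j k : I} : k ∈ nblk Z j ↔ Z k ≠ Z j := by simp [nblk]

lemma self_mem_blk (Z : I → Cl) (j : I) : j ∈ blk Z j := mem_blk.mpr rfl

lemma blk_eq {Z : I → Cl} {j k : I} (h : Z k = Z j) : blk Z k = blk Z j := by
  ext i; rw [mem_blk, mem_blk, h]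

lemma nblk_eq {Z : I → Cl} {j k : I} (h : Z k = Z j) : nblk Z k = nblk Z j := by
  ext i; rw [mem_nblk, mem_nblk, h]

lemma sum_blk_add_nblk (Z : I → Cl) (j : I) (f : I → Cl) :
    ∑ k ∈ blk Z j, f k + ∑ k ∈ nblk Z j, f k = ∑ k, f k :=
  Finset.sum_filter_add_sum_filter_not _ _ _

lemma sum_nblk_blk (Z : I → Cl) (j : I) (f : I → I → Cl) :
    ∑ k ∈ nblk Z j, ∑ l ∈ blk Z k, f k l = ∑ l ∈ nblk Z j, ∑ k ∈ blk Z l, f k l := by
  apply Finset.sum_comm'
  intro k l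
  simp only [mem_nblk, mem_blk]
  constructor
  · rintro ⟨h1, h2⟩
    exact ⟨h2.symm, fun h => h1 (h2.symm.trans h)⟩
  · rintro ⟨h1, h2⟩
    exact ⟨fun h => h2 (h1.symm.trans h), h1.symm⟩

/-- Data for clusters of poles of odd size. -/
structure OBlk (Z b v w : I → Cl) : Prop where
  inj : ∀ i j, Z i = Z j → b i = b j → i = j
  vker : ∀ j, ∑ k ∈ blk Z j, v k / (b j - b k) = 0
  vsum : ∀ j, ∑ k ∈ blk Z j, v k = 1
  vne : ∀ j, v j ≠ 0
  cork : ∀ (ξ : I → Cl) (j0 : I), (∀ j ∈ blk Z j0, ∑ k ∈ blk Z j0, ξ k / (b j - b k) = 0) →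
    ∃ r, ∀ j ∈ blk Z j0, ξ j = r * v j
  wcon : ∀ i j, Z i = Z j → w i = w j
  wne : ∀ j, w j ≠ 0
  weq : ∀ j, ∑ k ∈ nblk Z j, w k * v k / (Z j - Z k) = -1
  wnd : ∀ s : I → Cl, (∀ i j, Z i = Z j → s i = s j) →
    (∀ j, ∑ k ∈ nblk Z j, s k * v k / (Z j - Z k) = 0) → s = 0

/-- The rescaled matrix. -/
noncomputable def Mt (Z b v : I → Cl) (u : Cl) : Matrix I I Cl := Matrix.of fun j l =>
  if Z l = Z j then (b j - b l)⁻¹ else
    u / (Z j - Z l + u * (b j - b l)) +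
      (1 - u) * ∑ k ∈ blk Z j, v k / (Z k - Z l + u * (b k - b l))

/-- Its limit. -/
noncomputable def Mt0 (Z b : I → Cl) : Matrix I I Cl := Matrix.of fun j l =>
  if Z l = Z j then (b j - b l)⁻¹ else (Z j - Z l)⁻¹

variable {Z b v w : I → Cl}

lemma Mt0_mulVec (ξ : I → Cl) (j : I) :
    (Mt0 Z b).mulVec ξ j = ∑ l ∈ blk Z j, ξ l / (b j - b l) +
      ∑ l ∈ nblk Z j, ξ l / (Z j - Z l) := by
  simp only [Matrix.mulVec, dotProduct, Mt0, Matrix.of_apply]
  rw [← sum_blk_add_nblk Z j]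
  congr 1
  · refine Finset.sum_congr rfl fun l hl => ?_
    rw [if_pos (mem_blk.mp hl), div_eq_inv_mul]
  · refine Finset.sum_congr rfl fun l hl => ?_
    rw [if_neg (mem_nblk.mp hl), div_eq_inv_mul]

/-- Antisymmetry. -/
lemma sum_v_mul_sum (h : OBlk Z b v w) (ξ : I → Cl) (j0 : I) :
    ∑ j ∈ blk Z j0, v j * ∑ l ∈ blk Z j0, ξ l / (b j - b l) = 0 := by
  simp only [Finset.mul_sum]
  rw [Finset.sum_comm]
  refine Finset.sum_eq_zero fun l hl => ?_
  have h1 := h.vker l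
  rw [blk_eq (mem_blk.mp hl)] at h1
  have h2 : ∑ j ∈ blk Z j0, v j * (ξ l / (b j - b l)) =
      -(ξ l) * ∑ j ∈ blk Z j0, v j / (b l - b j) := by
    rw [Finset.mul_sum]
    refine Finset.sum_congr rfl fun j _ => ?_
    rw [← neg_sub (b j) (b l), div_neg]
    ring
  rw [h2, h1, mul_zero]

lemma sum_nblk_eq (h : OBlk Z b v w) (ξ : I → Cl) (j : I) :
    ∑ k ∈ nblk Z j, (∑ l ∈ blk Z k, ξ l) * v k / (Z j - Z k) =
      ∑ l ∈ nblk Z j, ξ l / (Z j - Z l) := by
  have h1 : ∀ k, (∑ l ∈ blk Z k, ξ l) * v k / (Z j - Z k) =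
      ∑ l ∈ blk Z k, ξ l * v k / (Z j - Z k) := by
    intro k
    rw [Finset.sum_mul, Finset.sum_div]
  simp only [h1]
  rw [sum_nblk_blk]
  refine Finset.sum_congr rfl fun l _ => ?_
  have h2 : ∑ k ∈ blk Z l, ξ l * v k / (Z j - Z k) = ξ l / (Z j - Z l) * ∑ k ∈ blk Z l, v k := by
    rw [Finset.mul_sum]
    refine Finset.sum_congr rfl fun k hk => ?_
    rw [mem_blk.mp hk]
    ring
  rw [h2, h.vsum, mul_one]

lemma det_Mt0_ne_zero (h : OBlk Z b v w) : (Mt0 Z b).det ≠ 0 := by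
  intro hdet
  obtain ⟨ξ, hξ0, hξ⟩ := Matrix.exists_mulVec_eq_zero_iff.mpr hdet
  apply hξ0
  have hrow : ∀ j, ∑ l ∈ blk Z j, ξ l / (b j - b l) + ∑ l ∈ nblk Z j, ξ l / (Z j - Z l) = 0 := by
    intro j
    rw [← Mt0_mulVec, hξ]; rfl
  have hfar : ∀ j, ∑ l ∈ nblk Z j, ξ l / (Z j - Z l) = 0 := by
    intro j0
    have h1 : ∑ j ∈ blk Z j0, v j * (∑ l ∈ blk Z j0, ξ l / (b j - b l) +
        ∑ l ∈ nblk Z j0, ξ l / (Z j0 - Z l)) = 0 := by
      refine Finset.sum_eq_zero fun j hj => ?_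
      have h2 := hrow j
      rw [blk_eq (mem_blk.mp hj), nblk_eq (mem_blk.mp hj), mem_blk.mp hj] at h2
      rw [h2, mul_zero]
    simp only [mul_add, Finset.sum_add_distrib] at h1
    rw [sum_v_mul_sum h, zero_add, ← Finset.sum_mul, h.vsum, one_mul] at h1
    exact h1
  have hs : (fun k => ∑ l ∈ blk Z k, ξ l) = 0 := by
    apply h.wnd
    · intro i j hij
      rw [blk_eq hij]
    · intro j
      rw [sum_nblk_eq h, hfar]
  ext j0
  obtain ⟨r, hr⟩ := h.cork ξ j0 fun j hj => by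
    have h2 := hrow j
    rw [hfar, add_zero, blk_eq (mem_blk.mp hj)] at h2
    exact h2
  have h3 : ∑ l ∈ blk Z j0, ξ l = 0 := congrFun hs j0
  rw [Finset.sum_congr rfl hr, ← Finset.mul_sum, h.vsum, mul_one] at h3
  rw [hr j0 (self_mem_blk Z j0), h3, zero_mul, Pi.zero_apply]

/-- The limiting solution. -/
lemma Mt0_mulVec_sol (h : OBlk Z b v w) : (Mt0 Z b).mulVec (fun j => w j * v j) = -1 := by
  ext j
  rw [Mt0_mulVec]
  have h1 : ∑ l ∈ blk Z j, w l * v l / (b j - b l) = 0 := by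
    have h2 : ∑ l ∈ blk Z j, w l * v l / (b j - b l) =
        w j * ∑ l ∈ blk Z j, v l / (b j - b l) := by
      rw [Finset.mul_sum]
      refine Finset.sum_congr rfl fun l hl => ?_
      rw [h.wcon l j (mem_blk.mp hl)]
      ring
    rw [h2, h.vker, mul_zero]
  rw [h1, zero_add, h.weq]
  rfl

end Defs

section Limit

variable {Cl : Type*} [NormedField Cl] [DecidableEq Cl] {I : Type*} [Fintype I] [DecidableEq I]
  {Z b v w : I → Cl}

lemma xu_sub_same {u : Cl} {j l : I} (hl : Z l = Z j) : xu Z b u j - xu Z b u l = b j - b l := by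
  rw [xu_sub, hl, sub_self, zero_div, zero_add]

lemma div_xu_sub {u : Cl} (hu : u ≠ 0) (x : Cl) (j l : I) :
    x / (xu Z b u j - xu Z b u l) = u * (x / (Z j - Z l + u * (b j - b l))) := by
  rw [xu_sub, show (Z j - Z l) / u + (b j - b l) = (Z j - Z l + u * (b j - b l)) / u by
    field_simp, div_div_eq_mul_div]
  ring

lemma cs_eq {u : Cl} (hu : u ≠ 0) (ξ : I → Cl) (j : I) :
    cauchySum (xu Z b u) ξ (xu Z b u j) = ∑ l ∈ blk Z j, ξ l / (b j - b l) +
      u * ∑ l ∈ nblk Z j, ξ l / (Z j - Z l + u * (b j - b l)) := by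
  rw [cauchySum, ← sum_blk_add_nblk Z j]
  congr 1
  · refine Finset.sum_congr rfl fun l hl => ?_
    rw [xu_sub_same (mem_blk.mp hl)]
  · rw [Finset.mul_sum]
    exact Finset.sum_congr rfl fun l _ => div_xu_sub hu _ _ _

lemma Mt_mulVec (h : OBlk Z b v w) {u : Cl} (hu : u ≠ 0) (ξ : I → Cl) (j : I) :
    (Mt Z b v u).mulVec ξ j = cauchySum (xu Z b u) ξ (xu Z b u j) +
      (1 / u - 1) * ∑ k ∈ blk Z j, v k * cauchySum (xu Z b u) ξ (xu Z b u k) := by
  have h1 : (Mt Z b v u).mulVec ξ j = ∑ l ∈ blk Z j, ξ l / (b j - b l) +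
      ∑ l ∈ nblk Z j, (u / (Z j - Z l + u * (b j - b l)) +
      (1 - u) * ∑ k ∈ blk Z j, v k / (Z k - Z l + u * (b k - b l))) * ξ l := by
    simp only [Matrix.mulVec, dotProduct, Mt, Matrix.of_apply]
    rw [← sum_blk_add_nblk Z j]
    congr 1
    · refine Finset.sum_congr rfl fun l hl => ?_
      rw [if_pos (mem_blk.mp hl), div_eq_inv_mul]
    · refine Finset.sum_congr rfl fun l hl => ?_
      rw [if_neg (mem_nblk.mp hl)]
  have h2 : ∑ k ∈ blk Z j, v k * cauchySum (xu Z b u) ξ (xu Z b u k) =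
      u * ∑ l ∈ nblk Z j, (∑ k ∈ blk Z j, v k / (Z k - Z l + u * (b k - b l))) * ξ l := by
    have h3 : ∀ k ∈ blk Z j, v k * cauchySum (xu Z b u) ξ (xu Z b u k) =
        v k * ∑ l ∈ blk Z j, ξ l / (b k - b l) +
        u * ∑ l ∈ nblk Z j, v k / (Z k - Z l + u * (b k - b l)) * ξ l := by
      intro k hk
      rw [cs_eq hu, blk_eq (mem_blk.mp hk), nblk_eq (mem_blk.mp hk), mul_add]
      congr 1
      rw [mul_left_comm, Finset.mul_sum]
      congr 1
      refine Finset.sum_congr rfl fun l _ => ?_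
      ring
    rw [Finset.sum_congr rfl h3, Finset.sum_add_distrib, sum_v_mul_sum h, zero_add,
      ← Finset.mul_sum, Finset.sum_comm]
    congr 1
    refine Finset.sum_congr rfl fun l _ => ?_
    rw [Finset.sum_mul]
  rw [h1, h2, cs_eq hu]
  have h4 : (1 / u - 1) * (u * ∑ l ∈ nblk Z j,
      (∑ k ∈ blk Z j, v k / (Z k - Z l + u * (b k - b l))) * ξ l) =
      (1 - u) * ∑ l ∈ nblk Z j,
      (∑ k ∈ blk Z j, v k / (Z k - Z l + u * (b k - b l))) * ξ l := by
    rw [← mul_assoc]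
    congr 1
    field_simp
  rw [h4, add_assoc]
  congr 1
  rw [Finset.mul_sum, Finset.mul_sum, ← Finset.sum_add_distrib]
  refine Finset.sum_congr rfl fun l _ => ?_
  ring

lemma Mt_of_const (h : OBlk Z b v w) {u : Cl} (hu : u ≠ 0) {ξ : I → Cl} {κ : Cl}
    (hξ : ∀ j, cauchySum (xu Z b u) ξ (xu Z b u j) = κ) (j : I) :
    (Mt Z b v u).mulVec ξ j = κ / u := by
  rw [Mt_mulVec h hu]
  simp only [hξ]
  rw [← Finset.sum_mul, h.vsum]
  field_simp
  ring

lemma tendsto_Mt (h : OBlk Z b v w) (j l : I) :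
    Tendsto (fun u : Cl => Mt Z b v u j l) (𝓝[≠] 0) (𝓝 (Mt0 Z b j l)) := by
  simp only [Mt, Mt0, Matrix.of_apply]
  by_cases hl : Z l = Z j
  · simp only [hl, if_true]
    exact tendsto_const_nhds
  · simp only [hl, if_false]
    have hid := tendsto_id_punctured (Cl := Cl)
    have hden : ∀ k ∈ blk Z j, Tendsto (fun u : Cl => Z k - Z l + u * (b k - b l)) (𝓝[≠] 0)
        (𝓝 (Z j - Z l)) := by
      intro k hk
      have h1 : Tendsto (fun u : Cl => Z k - Z l + u * (b k - b l)) (𝓝[≠] 0)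
          (𝓝 (Z k - Z l + 0 * (b k - b l))) :=
        tendsto_const_nhds.add (hid.mul tendsto_const_nhds)
      rw [zero_mul, add_zero] at h1
      rw [mem_blk.mp hk] at h1 ⊢
      exact h1
    have hne : Z j - Z l ≠ 0 := sub_ne_zero.mpr (Ne.symm hl)
    have h1 : Tendsto (fun u : Cl => u / (Z j - Z l + u * (b j - b l)) +
        (1 - u) * ∑ k ∈ blk Z j, v k / (Z k - Z l + u * (b k - b l))) (𝓝[≠] 0)
        (𝓝 (0 / (Z j - Z l) + (1 - 0) * ∑ k ∈ blk Z j, v k / (Z j - Z l))) := by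
      refine (hid.div (hden j (self_mem_blk Z j)) hne).add
        ((tendsto_const_nhds.sub hid).mul (tendsto_finsetSum _ fun k hk => ?_))
      exact tendsto_const_nhds.div (hden k hk) hne
    rw [← Finset.sum_div, h.vsum] at h1
    simpa using h1

lemma ev_det_Mt (h : OBlk Z b v w) : ∀ᶠ u : Cl in 𝓝[≠] 0, (Mt Z b v u).det ≠ 0 :=
  (tendsto_det (tendsto_Mt h)).eventually_ne (det_Mt0_ne_zero h)

/-- The data available for all small `u`. -/
lemma ev_goodC (h : OBlk Z b v w) : ∀ᶠ u : Cl in 𝓝[≠] 0, u ≠ 0 ∧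
    Function.Injective (xu Z b u) ∧ (cauchyMat (xu Z b u)).det ≠ 0 ∧
    OCond (xu Z b u) (cO (xu Z b u)) := by
  filter_upwards [ev_ne, ev_xu_injective h.inj, ev_det_Mt h] with u h1 h2 h3
  have h4 : (cauchyMat (xu Z b u)).det ≠ 0 := by
    intro hdet
    obtain ⟨ξ, hξ0, hξ⟩ := Matrix.exists_mulVec_eq_zero_iff.mpr hdet
    apply h3
    refine Matrix.exists_mulVec_eq_zero_iff.mp ⟨ξ, hξ0, ?_⟩
    ext j
    rw [Mt_of_const h h1 (κ := 0) (fun k => by rw [← cauchyMat_mulVec, hξ]; rfl), zero_div]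
    rfl
  exact ⟨h1, h2, h4, OCond_cO h4⟩

lemma tendsto_uC (h : OBlk Z b v w) (j : I) :
    Tendsto (fun u : Cl => u * cO (xu Z b u) j) (𝓝[≠] 0) (𝓝 (w j * v j)) := by
  have h1 : Tendsto (fun u : Cl => -((Mt Z b v u).det⁻¹ *
      (Mt Z b v u).adjugate.mulVec 1 j)) (𝓝[≠] 0)
      (𝓝 (-((Mt0 Z b).det⁻¹ * (Mt0 Z b).adjugate.mulVec 1 j))) := by
    refine (((tendsto_det (tendsto_Mt h)).inv₀ (det_Mt0_ne_zero h)).mul ?_).neg
    exact tendsto_mulVec (tendsto_adjugate (tendsto_Mt h)) (fun _ => tendsto_const_nhds) j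
  have key : ∀ (M : Matrix I I Cl) (ξ : I → Cl), M.det ≠ 0 → M.mulVec ξ = -1 →
      -(M.det⁻¹ * M.adjugate.mulVec 1 j) = ξ j := by
    intro M ξ hM hξ
    have h4 : M.adjugate.mulVec (M.mulVec ξ) = M.det • ξ := by
      rw [Matrix.mulVec_mulVec, Matrix.adjugate_mul, Matrix.smul_mulVec, Matrix.one_mulVec]
    rw [hξ, Matrix.mulVec_neg] at h4
    have h5 := congrFun h4 j
    simp only [Pi.neg_apply, Pi.smul_apply, smul_eq_mul] at h5
    field_simp
    linear_combination h5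
  rw [key _ _ (det_Mt0_ne_zero h) (Mt0_mulVec_sol h)] at h1
  refine h1.congr' ?_
  filter_upwards [ev_goodC h, ev_det_Mt h] with u hg hd
  refine key _ (fun j => u * cO (xu Z b u) j) hd ?_
  ext k
  have h2 : ∀ k, cauchySum (xu Z b u) (fun j => u * cO (xu Z b u) j) (xu Z b u k) = -u := by
    intro k
    have h3 := hg.2.2.2 k
    rw [cauchySum] at h3 ⊢
    rw [show (-u : Cl) = u * (-1) by ring, ← h3, Finset.mul_sum]
    refine Finset.sum_congr rfl fun l _ => ?_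
    ring
  rw [Mt_of_const h hg.1 h2 k]
  have := hg.1
  field_simp
  rfl

end Limit

end Pool.Agent.Lib.MP_12adaf_nt
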