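import Mathlib
import Pool.Agent.Lib.MP_12adaf_nt.TInv

/-!
# The move from a factorisation of `f_t`
-/

namespace Pool.Agent.Lib.MP_12adaf_nt

set_option linter.unusedSectionVars false
set_option linter.unusedVariables false

open Finset Polynomial Filter Topology

lemma resultant_eq_zero_of_root {K : Type*} [Field K] {g h : K[X]} {N : ℕ} {a : K}
    (hg : g.Monic) (hN : g.natDegree = N) (hh : h.natDegree ≤ N) (ha : g.eval a = 0)
    (hha : h.eval a = 0) : resultant g h N N = 0 := by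
  obtain ⟨g2, hg2⟩ := dvd_iff_isRoot.mpr ha
  have hg20 : g2 ≠ 0 := by
    rintro rfl
    rw [mul_zero] at hg2
    exact hg.ne_zero hg2
  have hd : g.natDegree = 1 + g2.natDegree := by
    conv_lhs => rw [hg2]
    rw [natDegree_mul (X_sub_C_ne_zero a) hg20, natDegree_X_sub_C]
  have h1 := resultant_mul_left (X - C a) g2 h N hh
  rw [natDegree_X_sub_C, resultant_X_sub_C_left _ _ _ hh, hha, zero_mul, ← hg2, ← hd, hN] at h1
  exact h1

theorem PMok_of_factor {K : Type*} [Field K] [CharZero K] {N : ℕ} (hNe : Even N) (hN0 : 0 < N)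
    {g : K[X]} (hg : g.Monic) (hN : g.natDegree = N) (hsep : g.Separable) (hgood : GoodG N g)
    {t a : K} (ha : a ≠ 0) {F : K[X]} (hf : fpolyO N g t = (X - C a) * F)
    (hfs : (fpolyO N g t).Separable) : PMok N g a⁻¹ ∧ pmF N g a⁻¹ = F := by
  obtain ⟨hL, hR⟩ := hgood
  have hhN := natDegree_hpolyO_le hg hN
  have hfm := fpolyO_monic hg hN t
  have hFm : F.Monic := by
    have := hfm.1
    rw [hf] at this
    exact (monic_X_sub_C a).of_mul_monic_left this
  have hFN : F.natDegree = N := by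
    have h1 := hfm.2
    rw [hf, (monic_X_sub_C a).natDegree_mul hFm, natDegree_X_sub_C] at h1
    omega
  have hfa : (fpolyO N g t).eval a = 0 := by rw [hf]; simp
  have hw := wronskian_fpolyO hg hN hsep hL t
  have hwa := congrArg (eval a) hw
  simp only [eval_sub, eval_mul, eval_pow, hfa, zero_mul, sub_zero] at hwa
  have hga : g.eval a ≠ 0 := by
    intro h0
    rw [h0, mul_zero] at hwa
    have h1 : (hpolyO N g).eval a = 0 := by
      by_contra h2
      exact pow_ne_zero 2 h2 hwa.symm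
    exact hR (resultant_eq_zero_of_root hg hN hhN h0 h1)
  have hf'a : (derivative (fpolyO N g t)).eval a ≠ 0 := by
    intro h0
    obtain ⟨p, q, hpq⟩ := hfs
    have := congrArg (eval a) hpq
    simp [hfa, h0] at this
  have hha : (hpolyO N g).eval a ≠ 0 := by
    intro h0
    rw [h0, zero_pow two_ne_zero] at hwa
    exact (mul_ne_zero hf'a hga) hwa
  have hb : (a⁻¹ : K) ≠ 0 := inv_ne_zero ha
  have hbN : (a⁻¹ : K) ^ N ≠ 0 := pow_ne_zero _ hb
  have e1 := eval_inv_mul_pow hN.le hb
  have e2 := eval_inv_mul_pow hhN hb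
  have e3 := eval_inv_mul_pow (natDegree_f1polyO_le hg hN) hb
  rw [inv_inv] at e1 e2 e3
  have hqg : qc g a⁻¹ N ≠ 0 := by
    rw [← e1]; exact mul_ne_zero hga hbN
  have hqh : qc (hpolyO N g) a⁻¹ N ≠ 0 := by
    rw [← e2]; exact mul_ne_zero hha hbN
  have ht : (a⁻¹)⁻¹ + dlt N g a⁻¹ = t := by
    rw [inv_inv, dlt, ← e1, ← e3, mul_div_mul_right _ _ hbN]
    have h1 := hfa
    rw [fpolyO] at h1
    simp only [eval_add, eval_mul, eval_sub, eval_X, eval_C] at h1
    field_simp
    linear_combination h1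
  have hpm := X_sub_mul_pmF hg hN hb hqg
  rw [ht, hf, inv_inv] at hpm
  have hF : pmF N g a⁻¹ = F := mul_left_cancel₀ (X_sub_C_ne_zero a) hpm
  refine ⟨⟨hL, hR, hqg, hqh, ?_⟩, hF⟩
  rw [hF]
  rw [hf] at hw
  have h3 := discr_of_linear_mul hNe hN0 hFm hFN hg hN hhN hw hha
  have hFs : F.Separable := by
    rw [hf] at hfs
    exact hfs.of_mul_right
  have h4 := discr_ne_zero_of_separable hFm hFs
  intro h0
  rw [h0, zero_mul, zero_pow two_ne_zero, mul_zero] at h3
  exact (mul_ne_zero h4 (pow_ne_zero 2 (mul_ne_zero hR hha))) h3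

end Pool.Agent.Lib.MP_12adaf_nt
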