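import Mathlib
import Pool.Agent.Lib.MP_12adaf_nt.OddClus
import Pool.Agent.Lib.MP_12adaf_nt.PFactor
import Pool.Agent.Lib.MP_12adaf_nt.Labels

/-!
# Moves from clusters of odd size
-/

namespace Pool.Agent.Lib.MP_12adaf_nt

set_option linter.unusedSectionVars false
set_option linter.unusedVariables false

open Finset Polynomial Filter Topology

section Near

variable {Cl : Type*} [NormedField Cl] [DecidableEq Cl] {I : Type*} [Fintype I] [DecidableEq I]
  [IsAlgClosed Cl] [CharZero Cl] {Z b v w : I → Cl}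

/-- Roots near a cluster. -/
lemma near_root_C (h : OBlk Z b v w) {t2 : Cl} {j0 : I} {η : Cl}
    (hη : ∀ j ∈ blk Z j0, η ≠ b j)
    (heq : t2 + ∑ j ∈ blk Z j0, (w j * v j) ^ 2 / (η - b j) = 0)
    (hr : ∑ j ∈ blk Z j0, w j * v j / (η - b j) ≠ 0) {δ : ℝ} (hδ : 0 < δ) :
    ∀ᶠ u : Cl in 𝓝[≠] 0, ∃ θ, (fO (xu Z b u) (cO (xu Z b u)) (t2 / u ^ 2)).eval θ = 0 ∧
      ‖θ - (Z j0 / u + η)‖ < δ := by
  have hid := tendsto_id_punctured (Cl := Cl)
  have hsub : ∀ (u : Cl) j, Z j0 / u + η - xu Z b u j = (Z j0 - Z j) / u + (η - b j) := by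
    intro u j
    simp only [xu]; ring
  have hX : ∀ᶠ u : Cl in 𝓝[≠] 0, ∀ j, Z j0 / u + η ≠ xu Z b u j := by
    rw [eventually_all]; intro j
    by_cases hj : j ∈ blk Z j0
    · refine Eventually.of_forall fun u h1 => ?_
      have h2 := sub_eq_zero.mpr h1
      rw [hsub, mem_blk.mp hj, sub_self, zero_div, zero_add] at h2
      exact hη j hj (sub_eq_zero.mp h2)
    · have h1 : Z j0 - Z j ≠ 0 := by
        rw [mem_blk] at hj
        exact sub_ne_zero.mpr (Ne.symm hj)
      filter_upwards [ev_blow_ne (c := η - b j) h1] with u hu h2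
      exact hu (by rw [← hsub, h2, sub_self])
  have hinv : ∀ j, Tendsto (fun u : Cl => 1 / (Z j0 / u + η - xu Z b u j)) (𝓝[≠] 0)
      (𝓝 (if j ∈ blk Z j0 then 1 / (η - b j) else 0)) := by
    intro j
    simp only [hsub]
    by_cases hj : j ∈ blk Z j0
    · rw [if_pos hj]
      simp only [mem_blk.mp hj, sub_self, zero_div, zero_add]
      exact tendsto_const_nhds
    · rw [if_neg hj]
      have h1 : Z j0 - Z j ≠ 0 := by
        rw [mem_blk] at hj
        exact sub_ne_zero.mpr (Ne.symm hj)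
      simpa only [one_div] using tendsto_inv_blow (c := η - b j) h1
  have hG := tendsto_finsetSum (Finset.univ : Finset I) fun j _ => hinv j
  have hC := tendsto_uC h
  have hblk : ∀ f : I → Cl, ∑ j, f j * (if j ∈ blk Z j0 then 1 / (η - b j) else 0) =
      ∑ j ∈ blk Z j0, f j / (η - b j) := by
    intro f
    rw [← sum_blk_add_nblk Z j0]
    have h1 : ∑ k ∈ nblk Z j0, f k * (if k ∈ blk Z j0 then 1 / (η - b k) else 0) = 0 := by
      refine Finset.sum_eq_zero fun k hk => ?_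
      rw [if_neg, mul_zero]
      rw [mem_blk]
      exact mem_nblk.mp hk
    rw [h1, add_zero]
    refine Finset.sum_congr rfl fun k hk => ?_
    rw [if_pos hk, mul_one_div]
  have hrl : Tendsto (fun u : Cl => u * (1 + cauchySum (xu Z b u) (cO (xu Z b u))
      (Z j0 / u + η))) (𝓝[≠] 0) (𝓝 (∑ j ∈ blk Z j0, w j * v j / (η - b j))) := by
    have h1 : Tendsto (fun u : Cl => u + ∑ j, (u * cO (xu Z b u) j) *
        (1 / (Z j0 / u + η - xu Z b u j))) (𝓝[≠] 0)
        (𝓝 (0 + ∑ j, (w j * v j) * (if j ∈ blk Z j0 then 1 / (η - b j) else 0))) :=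
      hid.add (tendsto_finsetSum _ fun j _ => (hC j).mul (hinv j))
    rw [hblk, zero_add] at h1
    refine h1.congr fun u => ?_
    rw [mul_add, mul_one, cauchySum, Finset.mul_sum]
    congr 1
    refine Finset.sum_congr rfl fun j _ => ?_
    ring
  have hphi : Tendsto (fun u : Cl => u ^ 2 * phiO (xu Z b u) (cO (xu Z b u)) (t2 / u ^ 2)
      (Z j0 / u + η)) (𝓝[≠] 0) (𝓝 0) := by
    have h1 : Tendsto (fun u : Cl => (u * Z j0 + u ^ 2 * η) - t2 -
        ∑ j, (u * cO (xu Z b u) j) ^ 2 * (1 / (Z j0 / u + η - xu Z b u j)))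
        (𝓝[≠] 0) (𝓝 ((0 * Z j0 + 0 ^ 2 * η) - t2 -
          ∑ j, (w j * v j) ^ 2 * (if j ∈ blk Z j0 then 1 / (η - b j) else 0))) := by
      refine Tendsto.sub (Tendsto.sub ((hid.mul tendsto_const_nhds).add
        ((hid.pow 2).mul tendsto_const_nhds)) tendsto_const_nhds) ?_
      exact tendsto_finsetSum _ fun j _ => ((hC j).pow 2).mul (hinv j)
    rw [hblk] at h1
    have h2 : (0 * Z j0 + 0 ^ 2 * η) - t2 - ∑ j ∈ blk Z j0, (w j * v j) ^ 2 / (η - b j) = 0 := by
      linear_combination (-1 : Cl) * heq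
    rw [h2] at h1
    refine h1.congr' ?_
    filter_upwards [ev_ne] with u hu
    have e1 : ∑ j, (u * cO (xu Z b u) j) ^ 2 * (1 / (Z j0 / u + η - xu Z b u j)) =
        u ^ 2 * ∑ j, cO (xu Z b u) j ^ 2 / (Z j0 / u + η - xu Z b u j) := by
      rw [Finset.mul_sum]
      refine Finset.sum_congr rfl fun j _ => ?_
      ring
    rw [e1, phiO]
    field_simp
  refine eventually_exists_root (l := 𝓝[≠] (0 : Cl)) (n := Fintype.card I + 1)
    (f := fun u => fO (xu Z b u) (cO (xu Z b u)) (t2 / u ^ 2))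
    (X := fun u => Z j0 / u + η)
    (G := fun u => ∑ j, 1 / (Z j0 / u + η - xu Z b u j))
    (φ := fun u => phiO (xu Z b u) (cO (xu Z b u)) (t2 / u ^ 2) (Z j0 / u + η))
    (φ' := fun u => (1 + cauchySum (xu Z b u) (cO (xu Z b u)) (Z j0 / u + η)) ^ 2)
    (E := fun u => (nod (xu Z b u)).eval (Z j0 / u + η))
    (w := fun u => u ^ 2)
    (L := (∑ j ∈ blk Z j0, w j * v j / (η - b j)) ^ 2)
    (fun u => natDegree_fO_le _ _ _)
    (pow_ne_zero 2 hr) ?_ ?_ ?_ ?_ ?_ ?_ hδ
  · filter_upwards [hX] with u hu h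
    obtain ⟨j, hj⟩ := (eval_nod_eq_zero_iff _ _).mp h
    exact hu j hj
  · filter_upwards [hX] with u hu
    exact eval_fO _ _ _ _ hu
  · filter_upwards [hX, ev_goodC h] with u hu hg
    exact eval_derivative_fO hg.2.1 hg.2.2.2 _ _ hu
  · exact hphi
  · have h1 := hG.mul hphi
    rw [mul_zero] at h1
    refine h1.congr fun u => ?_
    ring
  · have h1 := hrl.pow 2
    exact h1.congr fun u => by ring

/-- The last root is far away. -/
lemma ev_far {t2 z c : Cl} (ht : t2 ≠ 0) (R : ℝ) :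
    ∀ᶠ u : Cl in 𝓝[≠] 0, R < ‖t2 / u ^ 2 + c - z / u‖ := by
  have hid := tendsto_id_punctured (Cl := Cl)
  have h1 : Tendsto (fun u : Cl => t2 + u ^ 2 * c - u * z) (𝓝[≠] 0)
      (𝓝 (t2 + 0 ^ 2 * c - 0 * z)) :=
    (tendsto_const_nhds.add ((hid.pow 2).mul tendsto_const_nhds)).sub
      (hid.mul tendsto_const_nhds)
  have h2 : t2 + 0 ^ 2 * c - 0 * z = t2 := by ring
  rw [h2] at h1
  have h3 := (tendsto_order.mp h1.norm).1 (‖t2‖ / 2) (by
    have := norm_pos_iff.mpr ht
    linarith)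
  have h4 : Tendsto (fun u : Cl => ‖u ^ 2‖ * R) (𝓝[≠] 0) (𝓝 0) := by
    have h5 := ((hid.pow 2).norm).mul_const R
    simpa using h5
  have h5 := (tendsto_order.mp h4).2 (‖t2‖ / 2) (by
    have := norm_pos_iff.mpr ht
    linarith)
  filter_upwards [h3, h5, ev_ne] with u h6 h7 hu
  have h8 : t2 + u ^ 2 * c - u * z = u ^ 2 * (t2 / u ^ 2 + c - z / u) := by
    field_simp
  rw [h8, norm_mul] at h6
  have h9 : 0 < ‖u ^ 2‖ := norm_pos_iff.mpr (pow_ne_zero 2 hu)
  have h10 := h7.trans h6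
  exact lt_of_mul_lt_mul_left h10 h9.le

end Near

/-- The factor `X - a` of `f_t`. -/
lemma fO_factor {L : Type*} [Field L] [CharZero L] {I : Type*} [Fintype I] [DecidableEq I] {x c : I → L}
    {t : L} {θ : I → L} (hθ : Function.Injective θ) (hcard : 0 < Fintype.card I)
    (hroot : ∀ i, (fO x c t).eval (θ i) = 0) :
    fO x c t = (X - C (t + ∑ i, x i - ∑ i, θ i)) * nod θ := by
  set N := Fintype.card I with hN
  have hlt : (∑ j, C (c j ^ 2) * nodE x j).degree < (N : WithBot ℕ) := degree_sum_nodE_lt x _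
  have hm1 : (nod x * (X - C t)).Monic := (nod_monic _).mul (monic_X_sub_C _)
  have hd1 : (nod x * (X - C t)).natDegree = N + 1 := by
    rw [(nod_monic _).natDegree_mul (monic_X_sub_C _), natDegree_nod, natDegree_X_sub_C]
  have hlt' : (∑ j, C (c j ^ 2) * nodE x j).degree < (nod x * (X - C t)).degree := by
    rw [degree_eq_natDegree hm1.ne_zero, hd1]
    refine hlt.trans ?_
    exact_mod_cast Nat.lt_succ_self _
  have hmon : (fO x c t).Monic := hm1.sub_of_left hlt'
  have hdeg : (fO x c t).natDegree = N + 1 := by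
    rw [fO, ← hd1]
    exact natDegree_eq_of_degree_eq (degree_sub_eq_left_of_degree_lt hlt')
  obtain ⟨q, hq⟩ := nod_dvd_of_eval hθ hroot
  have hqm : q.Monic := by
    have := hmon
    rw [hq] at this
    exact (nod_monic θ).of_mul_monic_left this
  have hqd : q.natDegree = 1 := by
    have := hdeg
    rw [hq, (nod_monic θ).natDegree_mul hqm, natDegree_nod] at this
    omega
  have hq1 : q = X + C (q.coeff 0) := hqm.eq_X_add_C hqd
  -- compare the coefficients of `X ^ N`
  have hpred : ∀ y : I → L, (nod y).coeff (N - 1) = - ∑ i, y i := by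
    intro y
    have := prod_X_sub_C_coeff_card_pred (s := (Finset.univ : Finset I)) y
      (by rw [Finset.card_univ]; exact hcard)
    rwa [Finset.card_univ] at this
  have htop : ∀ y : I → L, (nod y).coeff N = 1 := by
    intro y
    have := (nod_monic y).coeff_natDegree
    rwa [natDegree_nod] at this
  obtain ⟨M, hM⟩ : ∃ M, N = M + 1 := ⟨N - 1, by omega⟩
  have h1 : (fO x c t).coeff N = - ∑ i, x i - t := by
    have h2 : (∑ j, C (c j ^ 2) * nodE x j).coeff N = 0 := coeff_eq_zero_of_degree_lt hlt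
    have h3 : (nod x * (X - C t)).coeff N = (nod x).coeff (N - 1) - (nod x).coeff N * t := by
      rw [mul_sub, coeff_sub, coeff_mul_C, hM, coeff_mul_X, Nat.add_sub_cancel]
    rw [fO, coeff_sub, h2, h3, hpred, htop]
    ring
  have h4 : (fO x c t).coeff N = - ∑ i, θ i + q.coeff 0 := by
    rw [hq, hq1]
    have h3 : (nod θ * (X + C (q.coeff 0))).coeff N =
        (nod θ).coeff (N - 1) + (nod θ).coeff N * q.coeff 0 := by
      rw [mul_add, coeff_add, coeff_mul_C, hM, coeff_mul_X, Nat.add_sub_cancel]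
    rw [h3, hpred, htop, one_mul]
    simp
  have h5 : q.coeff 0 = -(t + ∑ i, x i - ∑ i, θ i) := by
    rw [h1] at h4
    linear_combination -h4
  rw [hq, hq1, h5, C_neg]
  ring

/-- Clusters of odd size give a move. -/
theorem rch_of_clusters {K Cl : Type*} [NontriviallyNormedField K] [NormedField Cl]
    [NormedAlgebra K Cl] [IsAlgClosed Cl] [IsGalois K Cl] [CharZero K] [CharZero Cl]
    [DecidableEq Cl] (hiso : ∀ (σ : Cl ≃ₐ[K] Cl) (x : Cl), ‖σ x‖ = ‖x‖)
    {I : Type*} [Fintype I] [DecidableEq I] [Nonempty I] {N : ℕ} (hNe : Even N)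
    (hI : Fintype.card I = N) {Z b v w : I → Cl} (h : OBlk Z b v w) {t2 : K} (ht2 : t2 ≠ 0)
    {η ρ : I → Cl} (hZη : ∀ i k, Z i = Z k → η i = η k → i = k)
    (hη : ∀ i, ∀ j ∈ blk Z i, η i ≠ b j)
    (heq : ∀ i, algebraMap K Cl t2 + ∑ j ∈ blk Z i, (w j * v j) ^ 2 / (η i - b j) = 0)
    (hr : ∀ i, ∑ j ∈ blk Z i, w j * v j / (η i - b j) ≠ 0)
    (hGJ : ∀ (σ : Cl ≃ₐ[K] Cl) (j : I), ∃ k, σ (Z j) = Z k ∧ σ (b j) = b k)
    (hGI : ∀ (σ : Cl ≃ₐ[K] Cl) (i : I), ∃ k, σ (Z i) = Z k ∧ σ (η i) = η k ∧ σ (ρ i) = ρ k)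
    (hρ : Function.Injective ρ) {F : K[X]} (hF : F.map (algebraMap K Cl) = nod ρ) :
    ∃ (e : K) (g : K[X]) (κ : K), e ≠ 0 ∧
      g.map (algebraMap K Cl) = nod (xu Z b (algebraMap K Cl e)) ∧
      Function.Injective (xu Z b (algebraMap K Cl e)) ∧ Rch N g F κ := by
  set φ : K →+* Cl := algebraMap K Cl with hφ
  have hφi : Function.Injective φ := φ.injective
  have hN0 : 0 < N := by rw [← hI]; exact Fintype.card_pos
  have ht2' : φ t2 ≠ 0 := (_root_.map_ne_zero φ).mpr ht2
  obtain ⟨δ, hδ, hsepa⟩ := exists_separation hZη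
  have hroots : ∀ᶠ u : Cl in 𝓝[≠] 0, ∀ i, ∃ θ,
      (fO (xu Z b u) (cO (xu Z b u)) (φ t2 / u ^ 2)).eval θ = 0 ∧
      ‖θ - (Z i / u + η i)‖ < δ := by
    rw [eventually_all]; intro i
    exact near_root_C h (hη i) (heq i) (hr i) hδ
  have hcne : ∀ᶠ u : Cl in 𝓝[≠] 0, ∀ j, cO (xu Z b u) j ≠ 0 := by
    rw [eventually_all]; intro j
    filter_upwards [(tendsto_uC h j).eventually_ne (mul_ne_zero (h.wne j) (h.vne j))] with u hu
    exact right_ne_zero_of_mul hu
  have hfar1 : ∀ᶠ u : Cl in 𝓝[≠] 0, ∀ k, (N + 1 : ℝ) * δ <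
      ‖φ t2 / u ^ 2 + (∑ j, (b j - η j) - η k) - Z k / u‖ := by
    rw [eventually_all]; intro k
    exact ev_far ht2' _
  have hfar2 : ∀ᶠ u : Cl in 𝓝[≠] 0, (N + 1 : ℝ) * δ <
      ‖φ t2 / u ^ 2 + (∑ j, (b j - η j)) - 0 / u‖ := ev_far ht2' _
  have hall := (ev_goodC h).and (hsepa.and (hroots.and (hcne.and (hfar1.and hfar2))))
  have hmap : Tendsto (fun e : K => φ e) (𝓝[≠] 0) (𝓝[≠] 0) := by
    rw [tendsto_nhdsWithin_iff]
    constructor
    · have h1 : Continuous (algebraMap K Cl) := continuous_algebraMap K Cl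
      have h2 := h1.tendsto 0
      rw [map_zero] at h2
      exact h2.mono_left nhdsWithin_le_nhds
    · filter_upwards [self_mem_nhdsWithin] with e he
      exact (_root_.map_ne_zero φ).mpr he
  obtain ⟨e, he⟩ := (hmap.eventually hall).exists
  obtain ⟨⟨hu0, hxinj, hWdet, hWc⟩, hsp, hrt, hcn, hf1, hf2⟩ := he
  choose θ hθ1 hθ2 using hrt
  set u : Cl := φ e with hu
  have he0 : e ≠ 0 := by
    rintro rfl
    exact hu0 (map_zero φ)
  have hσu : ∀ σ : Cl ≃ₐ[K] Cl, σ u = u := fun σ => σ.commutes e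
  obtain ⟨g, hg⟩ : ∃ g : K[X], g.map φ = nod (xu Z b u) := by
    apply exists_map_nod hxinj
    intro σ j
    obtain ⟨k, h1, h2⟩ := hGJ σ j
    refine ⟨k, ?_⟩
    simp only [xu, map_add, map_div₀, h1, h2, hσu]
  have hnd : ONondeg (xu Z b u) := ONondeg_of_det hWdet
  have hθinj : Function.Injective θ := by
    intro i k hik
    by_contra hne
    have h1 := hsp i k hne
    have h2 : ‖(Z i / u + η i) - (Z k / u + η k)‖ < 2 * δ := by
      calc ‖(Z i / u + η i) - (Z k / u + η k)‖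
          = ‖(θ k - (Z k / u + η k)) - (θ i - (Z i / u + η i))‖ := by
            rw [hik]; congr 1; ring
        _ ≤ ‖θ k - (Z k / u + η k)‖ + ‖θ i - (Z i / u + η i)‖ := norm_sub_le _ _
        _ < δ + δ := add_lt_add (hθ2 k) (hθ2 i)
        _ = 2 * δ := by ring
    linarith
  have hgm : g.Monic := monic_of_nod hg
  have hgN : g.natDegree = N := (natDegree_of_nod hg).trans hI
  have hgs : g.Separable := separable_of_nod hg hxinj
  have hgood : GoodG N g := goodG_of_nod hI hg hxinj hnd hWc hcn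
  have hf : (fpolyO N g (t2 / e ^ 2)).map φ =
      fO (xu Z b u) (cO (xu Z b u)) (φ t2 / u ^ 2) := by
    rw [(good_of_nod hI hg hxinj hnd hWc).2.2, ← hφ, map_div₀, map_pow]
  -- the far root
  have hfac := fO_factor hθinj Fintype.card_pos hθ1
  set a : Cl := φ t2 / u ^ 2 + ∑ i, xu Z b u i - ∑ i, θ i with ha
  have haeq : a = φ t2 / u ^ 2 + ∑ j, (b j - η j) - ∑ j, (θ j - (Z j / u + η j)) := by
    rw [ha]
    simp only [xu, Finset.sum_sub_distrib, Finset.sum_add_distrib]
    ring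
  have hεn : ‖∑ j, (θ j - (Z j / u + η j))‖ ≤ N * δ := by
    refine (norm_sum_le _ _).trans ?_
    refine (Finset.sum_le_sum fun j _ => (hθ2 j).le).trans ?_
    rw [Finset.sum_const, Finset.card_univ, hI, nsmul_eq_mul]
  have hafar : ∀ k, δ < ‖a - (Z k / u + η k)‖ := by
    intro k
    have h1 := hf1 k
    have h2 : φ t2 / u ^ 2 + (∑ j, (b j - η j) - η k) - Z k / u =
        (a - (Z k / u + η k)) + ∑ j, (θ j - (Z j / u + η j)) := by rw [haeq]; ring
    rw [h2] at h1
    have h3 := norm_add_le (a - (Z k / u + η k)) (∑ j, (θ j - (Z j / u + η j)))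
    linarith
  have ha0 : a ≠ 0 := by
    intro h0
    have h2 : φ t2 / u ^ 2 + (∑ j, (b j - η j)) - 0 / u =
        a + ∑ j, (θ j - (Z j / u + η j)) := by rw [haeq]; ring
    rw [h2, h0, zero_add] at hf2
    linarith
  have haθ : ∀ k, a ≠ θ k := by
    intro k hk
    have h1 := hafar k
    rw [hk] at h1
    exact absurd (hθ2 k) (not_lt.mpr h1.le)
  -- Galois action on the near roots
  have hgal : ∀ (σ : Cl ≃ₐ[K] Cl) (i : I), ∃ k, σ (θ i) = θ k ∧ σ (ρ i) = ρ k := by
    intro σ i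
    obtain ⟨k, h1, h2, h3⟩ := hGI σ i
    refine ⟨k, ?_, h3⟩
    have h7 : ‖σ (θ i) - (Z k / u + η k)‖ < δ := by
      have h8 : σ (θ i) - (Z k / u + η k) = σ (θ i - (Z i / u + η i)) := by
        rw [map_sub, map_add, map_div₀, h1, h2, hσu]
      rw [h8, hiso]
      exact hθ2 i
    have hroot : ((X - C a) * nod θ).eval (σ (θ i)) = 0 := by
      have h4 : (fpolyO N g (t2 / e ^ 2)).map φ = (X - C a) * nod θ := by rw [hf, hfac]
      have h5 : ((X - C a) * nod θ).map (σ : Cl →+* Cl) = (X - C a) * nod θ := by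
        rw [← h4, Polynomial.map_map]
        congr 1
        ext y
        exact σ.commutes y
      rw [← h5]
      have h6 : σ (θ i) = (σ : Cl →+* Cl) (θ i) := rfl
      rw [h6, eval_map_apply, eval_mul, eval_nod_self, mul_zero, map_zero]
    rw [eval_mul, mul_eq_zero] at hroot
    rcases hroot with hroot | hroot
    · exfalso
      rw [eval_sub, eval_X, eval_C, sub_eq_zero] at hroot
      rw [hroot] at h7
      exact absurd h7 (not_lt.mpr (hafar k).le)
    · obtain ⟨m, hm⟩ := (eval_nod_eq_zero_iff θ _).mp hroot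
      have hmk : m = k := by
        by_contra hne
        have h6 := hsp m k hne
        have h9 : ‖(Z m / u + η m) - (Z k / u + η k)‖ < 2 * δ := by
          calc ‖(Z m / u + η m) - (Z k / u + η k)‖
              = ‖(σ (θ i) - (Z k / u + η k)) - (θ m - (Z m / u + η m))‖ := by
                rw [hm]; congr 1; ring
            _ ≤ ‖σ (θ i) - (Z k / u + η k)‖ + ‖θ m - (Z m / u + η m)‖ := norm_sub_le _ _
            _ < δ + δ := add_lt_add h7 (hθ2 m)
            _ = 2 * δ := by ring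
        linarith
      rw [hm, hmk]
  obtain ⟨F1, hF1⟩ : ∃ F1 : K[X], F1.map φ = nod θ :=
    exists_map_nod hθinj fun σ i => (hgal σ i).imp fun _ h => h.1
  have hF1m : F1.Monic := monic_of_nod hF1
  have hF1N : F1.natDegree = N := (natDegree_of_nod hF1).trans hI
  have hfm := fpolyO_monic hgm hgN (t2 / e ^ 2)
  obtain ⟨q, hq⟩ : F1 ∣ fpolyO N g (t2 / e ^ 2) := by
    rw [← Polynomial.map_dvd_map' φ, hF1, hf, hfac]
    exact Dvd.intro_left _ rfl
  have hqm : q.Monic := by
    have := hfm.1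
    rw [hq] at this
    exact hF1m.of_mul_monic_left this
  have hqd : q.natDegree = 1 := by
    have := hfm.2
    rw [hq, hF1m.natDegree_mul hqm, hF1N] at this
    omega
  have hq1 : q = X + C (q.coeff 0) := hqm.eq_X_add_C hqd
  set a' : K := - q.coeff 0 with ha'
  have hq2 : q = X - C a' := by rw [hq1, ha', C_neg]; ring
  have haa : φ a' = a := by
    have h1 : (fpolyO N g (t2 / e ^ 2)).map φ = (X - C a) * nod θ := by rw [hf, hfac]
    rw [hq, Polynomial.map_mul, hF1, hq2, Polynomial.map_sub, map_X, map_C, mul_comm] at h1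
    have h2 := mul_right_cancel₀ (nod_monic θ).ne_zero h1
    have h3 : (C (φ a') : Cl[X]) = C a := by linear_combination -h2
    exact C_injective h3
  have ha'0 : a' ≠ 0 := by
    intro h0
    rw [h0, map_zero] at haa
    exact ha0 haa.symm
  have hfF : fpolyO N g (t2 / e ^ 2) = (X - C a') * F1 := by rw [hq, hq2, mul_comm]
  have hfs : (fpolyO N g (t2 / e ^ 2)).Separable := by
    rw [← separable_map φ, hf, hfac]
    have h1 : (X - C a) * nod θ = nod (Sum.elim (fun _ : Unit => a) θ) := by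
      rw [nod_sum]
      congr 1
      simp [nod]
    rw [h1]
    apply nod_separable
    rintro (i | i) (j | j) hij
    · rfl
    · exact absurd hij (haθ j)
    · exact absurd hij.symm (haθ i)
    · exact congrArg Sum.inr (hθinj hij)
  obtain ⟨hok, hpm⟩ := PMok_of_factor hNe hN0 hgm hgN hgs hgood ha'0 hfF hfs
  obtain ⟨κ, hκ⟩ := rch_of_labels hI hθinj hρ hF1 hF hgal
  have h1 : Rch N g F1 (1 * pmc N g a'⁻¹) := by
    rw [← hpm]
    exact Rch.refl.pmove _ hok
  exact ⟨e, g, _, he0, hg, hxinj, h1.trans hκ⟩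

end Pool.Agent.Lib.MP_12adaf_nt
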