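import Mathlib
import Pool.Agent.Lib.MP_12adaf_nt.MPSub
import Pool.Agent.Lib.MP_12adaf_nt.OddClusLoc

/-!
# Fibres of a Mestre pair as blocks of poles
-/

namespace Pool.Agent.Lib.MP_12adaf_nt

set_option linter.unusedSectionVars false
set_option linter.unusedVariables false
set_option autoImplicit false

open Finset Polynomial Filter Topology

section

variable {L : Type*} [Field L] [CharZero L] {β : Type*} [Fintype β] [DecidableEq β]
  {G H : L[X]} {b : β → L}

/-- The kernel vector attached to a fibre. -/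
noncomputable def kv (H : L[X]) (b : β → L) : β → L :=
  fun j => H.eval (b j) / (derivative (nod b)).eval (b j)

lemma MP.inj_nod (h : MP (nod b) G H) : Function.Injective b := by
  have := h.fsep
  rw [nod] at this
  exact separable_prod_X_sub_C_iff.mp this

lemma MP.eval_H_fib (h : MP (nod b) G H) (j : β) : H.eval (b j) ≠ 0 := by
  intro h0
  obtain ⟨p, q, hpq⟩ := h.cop
  have h1 := congrArg (eval (b j)) hpq
  simp [h0, eval_nod_self] at h1

lemma MP.degH_lt (h : MP (nod b) G H) : H.degree < Fintype.card β := by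
  rw [degree_eq_natDegree h.Hm.ne_zero]
  have h1 := h.deg
  have h2 := h.degH
  rw [natDegree_nod] at h1
  exact_mod_cast (by omega : H.natDegree < Fintype.card β)

lemma MP.degG_lt (h : MP (nod b) G H) : G.degree < Fintype.card β := by
  rw [degree_eq_natDegree h.Gm.ne_zero]
  have h1 := h.deg
  rw [natDegree_nod] at h1
  exact_mod_cast (by omega : G.natDegree < Fintype.card β)

lemma MP.kv_ne (h : MP (nod b) G H) (j : β) : kv H b j ≠ 0 :=
  div_ne_zero (h.eval_H_fib j) (eval_derivative_nod_ne_zero b h.inj_nod j)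

lemma MP.kv_sq (h : MP (nod b) G H) (j : β) :
    kv H b j ^ 2 = G.eval (b j) / (derivative (nod b)).eval (b j) := by
  have h1 := congrArg (eval (b j)) h.wr
  simp only [eval_sub, eval_mul, eval_pow, eval_nod_self, zero_mul, sub_zero] at h1
  have h2 := eval_derivative_nod_ne_zero b h.inj_nod j
  rw [kv, div_pow, ← h1]
  field_simp

lemma MP.key_fib (h : MP (nod b) G H) (i : β) :
    H.eval (b i) * (derivative (derivative (nod b))).eval (b i) =
      2 * (derivative (nod b)).eval (b i) * (derivative H).eval (b i) := by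
  obtain ⟨Q, hQ⟩ := h.key_f
  have h1 := congrArg (eval (b i)) hQ
  simp only [eval_sub, eval_mul, eval_nod_self, zero_mul, eval_ofNat] at h1
  linear_combination h1

lemma MP.kv_ker (h : MP (nod b) G H) : CKer b (kv H b) := by
  have := (CKer_iff h.inj_nod h.degH_lt).mpr fun i => by
    linear_combination -(h.key_fib i)
  exact this

lemma MP.sum_kv (h : MP (nod b) G H) : ∑ j, kv H b j = 1 := by
  have h1 := eq_sum_nodE h.inj_nod h.degH_lt
  have h2 := coeff_sum_nodE_top b (kv H b)
  have h3 : H.coeff (Fintype.card β - 1) = 1 := by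
    have h4 := h.deg
    rw [natDegree_nod] at h4
    have h5 := h.degH
    have h6 : Fintype.card β - 1 = H.natDegree := by omega
    rw [h6]; exact h.Hm
  rw [h1] at h3
  rw [← h3]
  exact h2.symm

lemma MP.kv_cork (h : MP (nod b) G H) {ξ : β → L} (hξ : CKer b ξ) :
    ∃ r, ∀ j, ξ j = r * kv H b j := by
  set P : L[X] := ∑ j, C (ξ j) * nodE b j with hP
  have hb := h.inj_nod
  have hPb : ∀ j, P.eval (b j) = ξ j * (derivative (nod b)).eval (b j) := eval_sum_nodE b ξ
  have hPd : P.degree < (nod b).degree := by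
    rw [degree_eq_natDegree (nod_monic b).ne_zero, natDegree_nod]
    exact degree_sum_nodE_lt b ξ
  obtain ⟨r, hr⟩ := h.cork P hPd (nod_dvd_of_eval hb fun j => by
    have h1 : (derivative P).eval (b j) =
        ξ j * ((derivative (derivative (nod b))).eval (b j) / 2) := by
      rw [hP, eval_derivative_sum_nodE hb, hξ j, mul_zero, zero_add]
    rw [eval_sub, eval_mul, eval_mul, h1, hPb]
    have h2 := h.key_fib j
    linear_combination (ξ j / 2) * h2)
  refine ⟨r, fun j => ?_⟩
  have h1 := congrArg (eval (b j)) hr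
  rw [hPb, eval_mul, eval_C] at h1
  have h2 := eval_derivative_nod_ne_zero b hb j
  rw [kv, mul_div_assoc', ← h1]
  field_simp

lemma sum_div_eq {b v : β → L} {η : L} (hη : ∀ j, η ≠ b j) :
    ∑ j, v j / (η - b j) = (∑ j, C (v j) * nodE b j).eval η / (nod b).eval η := by
  have h1 : (nod b).eval η ≠ 0 := fun h0 => by
    obtain ⟨j, hj⟩ := (eval_nod_eq_zero_iff b η).mp h0
    exact hη j hj
  rw [eval_sum_nodE_off b v hη, mul_div_cancel_left₀ _ h1]
  rfl

lemma MP.sum_kv_div (h : MP (nod b) G H) {η : L} (hη : ∀ j, η ≠ b j) :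
    ∑ j, kv H b j / (η - b j) = H.eval η / (nod b).eval η := by
  rw [sum_div_eq hη]
  congr 1
  conv_rhs => rw [eq_sum_nodE h.inj_nod h.degH_lt]
  rfl

lemma MP.sum_kv_sq_div (h : MP (nod b) G H) {η : L} (hη : ∀ j, η ≠ b j) :
    ∑ j, kv H b j ^ 2 / (η - b j) = G.eval η / (nod b).eval η := by
  rw [sum_div_eq (v := fun j => kv H b j ^ 2) hη]
  congr 1
  conv_rhs => rw [eq_sum_nodE h.inj_nod h.degG_lt]
  simp only [h.kv_sq]

end

section Norms

variable {K Cl : Type*} [NontriviallyNormedField K] [NormedField Cl] [NormedAlgebra K Cl]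
  [IsAlgClosed Cl] [CharZero Cl]

lemma ev_ne_zero_K : ∀ᶠ t : K in 𝓝[≠] 0, t ≠ 0 := self_mem_nhdsWithin

/-- For small `t` the fibre avoids the zeros of `H`. -/
lemma ev_coprime {F G H : Cl[X]} (h : MP F G H) {κ : Cl} (hκ : κ ≠ 0) :
    ∀ᶠ t : K in 𝓝[≠] 0, IsCoprime H (F - C (κ / algebraMap K Cl t) * G) := by
  classical
  obtain ⟨b, hbi, hb⟩ := exists_nod (RingHom.id Cl) h.Gm rfl h.Gsep
  rw [Polynomial.map_id] at hb
  have hM : MP F (nod b) H := by rw [← hb]; exact h
  obtain ⟨ξ, hξ⟩ := exists_nod_any h.Hm rfl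
  have h1 : ∀ᶠ t : K in 𝓝[≠] 0, ∀ i, algebraMap K Cl t * F.eval (ξ i) - κ * G.eval (ξ i) ≠ 0 := by
    rw [eventually_all]
    intro i
    have hG : G.eval (ξ i) ≠ 0 := by
      intro h0
      rw [hb] at h0
      obtain ⟨j, hj⟩ := (eval_nod_eq_zero_iff b (ξ i)).mp h0
      apply hM.eval_H_ne j
      rw [← hj, hξ]
      exact eval_nod_self ξ i
    have hc : Tendsto (fun t : K => algebraMap K Cl t * F.eval (ξ i) - κ * G.eval (ξ i)) (𝓝[≠] 0)
        (𝓝 (0 * F.eval (ξ i) - κ * G.eval (ξ i))) := by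
      refine Tendsto.sub_const (Tendsto.mul_const _ ?_) _
      have h2 : Continuous (algebraMap K Cl) := continuous_algebraMap K Cl
      have h3 := h2.tendsto 0
      rw [map_zero] at h3
      exact h3.mono_left nhdsWithin_le_nhds
    apply hc.eventually_ne
    rw [zero_mul, zero_sub]
    exact neg_ne_zero.mpr (mul_ne_zero hκ hG)
  filter_upwards [h1, ev_ne_zero_K] with t ht ht0
  have ht0' : algebraMap K Cl t ≠ 0 := (_root_.map_ne_zero _).mpr ht0
  rw [hξ]
  apply IsCoprime.prod_left
  intro i _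
  rw [(irreducible_X_sub_C (ξ i)).coprime_iff_not_dvd, dvd_iff_isRoot, IsRoot, eval_sub, eval_mul,
    eval_C]
  intro h0
  apply ht i
  field_simp at h0
  linear_combination h0

/-- For small `t` the fibre contains points of different size. -/
lemma ev_norms {F G : Cl[X]} {n : ℕ} (hFm : F.Monic) (hGm : G.Monic) (hFd : F.natDegree = n + 1)
    (hGd : G.natDegree = n) (hn : 0 < n) (hGs : G.Separable) {κ : Cl} (hκ : κ ≠ 0) :
    ∀ᶠ t : K in 𝓝[≠] 0, ∃ x y : Cl, (F - C (κ / algebraMap K Cl t) * G).eval x = 0 ∧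
      (F - C (κ / algebraMap K Cl t) * G).eval y = 0 ∧ ‖x‖ ≠ ‖y‖ := by
  classical
  obtain ⟨γ, hγi, hγ⟩ := exists_nod (RingHom.id Cl) hGm hGd hGs
  rw [Polynomial.map_id] at hγ
  set g0 : Cl := γ ⟨0, hn⟩ with hg0
  have hg0r : G.eval g0 = 0 := by rw [hγ]; exact eval_nod_self γ _
  have hg0d : (derivative G).eval g0 ≠ 0 := by
    rw [hγ]; exact eval_derivative_nod_ne_zero γ hγi _
  have htend : Tendsto (fun t : K => algebraMap K Cl t) (𝓝[≠] 0) (𝓝 0) := by
    have h2 : Continuous (algebraMap K Cl) := continuous_algebraMap K Cl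
    have h3 := h2.tendsto 0
    rw [map_zero] at h3
    exact h3.mono_left nhdsWithin_le_nhds
  let f : K → Cl[X] := fun t => C (algebraMap K Cl t) * F - C κ * G
  have hfe : ∀ t x, (f t).eval x = algebraMap K Cl t * F.eval x - κ * G.eval x := by
    intro t x; simp [f]
  have hfd : ∀ t x, (derivative (f t)).eval x =
      algebraMap K Cl t * (derivative F).eval x - κ * (derivative G).eval x := by
    intro t x; simp [f]
  have hfn : ∀ t, (f t).natDegree ≤ n + 1 := by
    intro t
    refine (natDegree_sub_le _ _).trans (max_le ?_ ?_)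
    · exact (natDegree_C_mul_le _ _).trans hFd.le
    · exact (natDegree_C_mul_le _ _).trans (by omega)
  have t1 : Tendsto (fun t : K => (derivative (f t)).eval g0) (𝓝[≠] 0)
      (𝓝 (0 * (derivative F).eval g0 - κ * (derivative G).eval g0)) := by
    simp only [hfd]
    exact (htend.mul_const _).sub_const _
  have t2 : Tendsto (fun t : K => (f t).eval g0) (𝓝[≠] 0)
      (𝓝 (0 * F.eval g0 - κ * G.eval g0)) := by
    simp only [hfe]
    exact (htend.mul_const _).sub_const _
  rw [hg0r, zero_mul, mul_zero, sub_zero] at t2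
  rw [zero_mul, zero_sub] at t1
  have hne : -(κ * (derivative G).eval g0) ≠ 0 := neg_ne_zero.mpr (mul_ne_zero hκ hg0d)
  have t3 := ((t2.div t1 hne).norm).const_mul ((n + 1 : ℕ) : ℝ)
  rw [zero_div, norm_zero, mul_zero] at t3
  have e1 := (tendsto_order.mp t3).2 1 one_pos
  have e2 := t1.eventually_ne hne
  have htn : Tendsto (fun t : K => ‖t‖) (𝓝[≠] 0) (𝓝 0) := by
    have := (continuous_norm (E := K)).tendsto 0
    rw [norm_zero] at this
    exact this.mono_left nhdsWithin_le_nhds
  have e3 : ∀ᶠ t : K in 𝓝[≠] 0, ‖t‖ * (‖F.coeff n‖ + (n + 1) * (‖g0‖ + 1)) < ‖κ‖ := by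
    have h1 := htn.mul_const (‖F.coeff n‖ + (n + 1) * (‖g0‖ + 1))
    rw [zero_mul] at h1
    exact (tendsto_order.mp h1).2 _ (norm_pos_iff.mpr hκ)
  filter_upwards [e1, e2, e3, ev_ne_zero_K] with t h1 h2 h3 ht0
  have ht0' : algebraMap K Cl t ≠ 0 := (_root_.map_ne_zero _).mpr ht0
  have htn0 : 0 < ‖t‖ := norm_pos_iff.mpr ht0
  obtain ⟨hm, hd⟩ := sub_monic hFm (hFd.trans (by rw [hGd])) (κ / algebraMap K Cl t)
  obtain ⟨b, hb⟩ := exists_nod_any hm rfl
  by_contra hcon'
  push Not at hcon'
  have hcon : ∀ i j, ‖b i‖ = ‖b j‖ := fun i j =>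
    hcon' (b i) (b j) (by conv_lhs => rw [hb]
                          exact eval_nod_self b i)
      (by conv_lhs => rw [hb]
          exact eval_nod_self b j)
  obtain ⟨x, hx0, hx⟩ := exists_root_near (hfn t) h2
  have hx1 : ‖x - g0‖ < 1 := hx.trans_lt h1
  have hroot : (nod b).eval x = 0 := by
    rw [← hb, eval_sub, eval_mul, eval_C]
    rw [hfe] at hx0
    field_simp
    linear_combination hx0
  obtain ⟨j, hj⟩ := (eval_nod_eq_zero_iff b x).mp hroot
  have hxb : ‖x‖ ≤ ‖g0‖ + 1 := by
    have h5 : x = (x - g0) + g0 := by ring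
    rw [h5]
    refine (norm_add_le _ _).trans ?_
    linarith
  have hall : ∀ i, ‖b i‖ ≤ ‖g0‖ + 1 := by
    intro i
    rw [hcon i j, ← hj]; exact hxb
  have hcard : Fintype.card (Fin (F - C (κ / algebraMap K Cl t) * G).natDegree) = n + 1 := by
    rw [Fintype.card_fin, hd, hFd]
  have hnext : (nod b).nextCoeff = -∑ i, b i := by
    rw [nod]; exact prod_X_sub_C_nextCoeff b
  have hnext2 : (nod b).nextCoeff = F.coeff n - κ / algebraMap K Cl t := by
    rw [← hb, nextCoeff_of_natDegree_pos (by rw [hd, hFd]; omega), hd, hFd, Nat.add_sub_cancel,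
      coeff_sub, coeff_C_mul]
    have : G.coeff n = 1 := by rw [← hGd]; exact hGm
    rw [this, mul_one]
  have hs : κ / algebraMap K Cl t = F.coeff n + ∑ i, b i := by
    have h6 := hnext.symm.trans hnext2
    linear_combination h6
  have h7 : ‖κ / algebraMap K Cl t‖ ≤ ‖F.coeff n‖ + (n + 1) * (‖g0‖ + 1) := by
    rw [hs]
    refine (norm_add_le _ _).trans ?_
    gcongr
    refine (norm_sum_le _ _).trans ?_
    refine (Finset.sum_le_sum fun i _ => hall i).trans ?_
    rw [Finset.sum_const, Finset.card_univ, hcard, nsmul_eq_mul]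
    push_cast
    exact le_rfl
  rw [norm_div, norm_algebraMap', div_le_iff₀ htn0] at h7
  linarith

end Norms

end Pool.Agent.Lib.MP_12adaf_nt
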