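import Mathlib
import Pool.Agent.Lib.MP_12adaf_nt.OMul

/-!
# The odd parametrisation from a factorisation, with the action on the poles
-/

namespace Pool.Agent.Lib.MP_12adaf_nt

set_option linter.unusedSectionVars false
set_option linter.unusedVariables false

open Finset Polynomial Filter Topology

theorem oPre_of_mul_act {K Cl : Type*} [NontriviallyNormedField K] [NormedField Cl]
    [NormedAlgebra K Cl] [IsAlgClosed Cl] [IsGalois K Cl] [CharZero K] [CharZero Cl]
    (hiso : ∀ (σ : Cl ≃ₐ[K] Cl) (x : Cl), ‖σ x‖ = ‖x‖)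
    {p q : K[X]} (hp : p.Monic) (hq : q.Monic) (hsep : (p * q).Separable)
    {m b : ℕ} (ha : p.natDegree = m + 1) (hm : Even m) (hb : q.natDegree = b) (hbe : Even b) :
    ∃ (g : K[X]) (x c : Fin m ⊕ Fin b → Cl) (t : K) (θ ρ : Fin (m + 1) ⊕ Fin b → Cl),
      g.map (algebraMap K Cl) = nod x ∧ Function.Injective x ∧ ONondeg x ∧ OCond x c ∧
      (∀ j, c j ≠ 0) ∧ Function.Injective θ ∧
      (∀ i, (fO x c (algebraMap K Cl t)).eval (θ i) = 0) ∧
      (p * q).map (algebraMap K Cl) = nod ρ ∧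
      (∀ (σ : Cl ≃ₐ[K] Cl) (i : Fin (m + 1) ⊕ Fin b), ∃ k, σ (θ i) = θ k ∧ σ (ρ i) = ρ k) ∧
      ∃ xq : Fin b → Cl, Function.Injective xq ∧ q.map (algebraMap K Cl) = nod xq ∧
        ∀ (σ : Cl ≃ₐ[K] Cl) (j : Fin b), ∃ k, σ (x (Sum.inr j)) = x (Sum.inr k) ∧
          σ (xq j) = xq k := by
  classical
  set φ : K →+* Cl := algebraMap K Cl with hφ
  have hsp : p.Separable := hsep.of_mul_left
  have hsq : q.Separable := hsep.of_mul_right
  obtain ⟨xp, hxp, hxp'⟩ := exists_nod φ hp ha hsp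
  obtain ⟨xq, hxq, hxq'⟩ := exists_nod φ hq hb hsq
  have hodd : Odd (Fintype.card (Fin (m + 1))) := by
    rw [Fintype.card_fin]; exact hm.add_one
  have heven : Even (Fintype.card (Fin b)) := by rw [Fintype.card_fin]; exact hbe
  let i0 : Fin (m + 1) := 0
  -- first generic polynomial
  obtain ⟨P1, hP1⟩ : ∃ P : K[X], cert1 i0 (fun i => aeval (xp i) P) ≠ 0 := by
    have e1 : ∀ v : Fin (m + 1) → Cl, MvPolynomial.eval v (cert1 i0
        (fun i : Fin (m + 1) => (MvPolynomial.X i : MvPolynomial (Fin (m + 1)) Cl))) =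
        cert1 i0 v := by
      intro v
      rw [map_cert1]
      congr 1
      ext i
      simp
    have n1 : cert1 i0 (fun i : Fin (m + 1) =>
        (MvPolynomial.X i : MvPolynomial (Fin (m + 1)) Cl)) ≠ 0 := by
      intro h
      have h4 := e1 fun i => ((i : ℕ) : Cl)
      rw [h, map_zero] at h4
      exact cert1_nat_ne_zero (L := Cl) (k := fun i : Fin (m + 1) => (i : ℕ))
        Fin.val_injective hodd i0 h4.symm
    obtain ⟨P, hP⟩ := exists_generic (K := K) hxp n1
    rw [e1] at hP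
    exact ⟨P, hP⟩
  obtain ⟨P2, hP2⟩ : ∃ P : K[X], cert2 (fun i => aeval (xq i) P) ≠ 0 := by
    have e1 : ∀ v : Fin b → Cl, MvPolynomial.eval v (cert2
        (fun i : Fin b => (MvPolynomial.X i : MvPolynomial (Fin b) Cl))) =
        cert2 v := by
      intro v
      rw [map_cert2]
      congr 1
      ext i
      simp
    have n1 : cert2 (fun i : Fin b =>
        (MvPolynomial.X i : MvPolynomial (Fin b) Cl)) ≠ 0 := by
      intro h
      have h4 := e1 fun i => ((i : ℕ) : Cl)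
      rw [h, map_zero] at h4
      exact cert2_nat_ne_zero (L := Cl) (k := fun i : Fin b => (i : ℕ))
        Fin.val_injective heven h4.symm
    obtain ⟨P, hP⟩ := exists_generic (K := K) hxq n1
    rw [e1] at hP
    exact ⟨P, hP⟩
  set u : Fin (m + 1) → Cl := fun i => aeval (xp i) P1 with hu
  set w : Fin b → Cl := fun i => aeval (xq i) P2 with hw
  have huinj : Function.Injective u := Del_ne_zero_iff.mp
    (left_ne_zero_of_mul (left_ne_zero_of_mul (left_ne_zero_of_mul hP1)))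
  obtain ⟨hwinj, hwnd, cw, hcw, hcw0⟩ := even_of_cert hP2
  obtain ⟨G, H, hM⟩ := MP_of_cert hodd hP1
  have hGn : G.natDegree = m := by
    have := hM.deg
    rw [natDegree_nod, Fintype.card_fin] at this
    omega
  obtain ⟨b0, hb0i, hb0⟩ := exists_nod (RingHom.id Cl) hM.Gm hGn hM.Gsep
  rw [Polynomial.map_id] at hb0
  subst hb0
  -- Galois action
  have hσpoly : ∀ (σ : Cl ≃ₐ[K] Cl) (Q : K[X]) (y : Cl), σ (aeval y Q) = aeval (σ y) Q := by
    intro σ Q y
    exact (aeval_algHom_apply (σ : Cl →ₐ[K] Cl) y Q).symm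
  have hnodu : ∀ σ : Cl ≃ₐ[K] Cl, (nod u).map ((σ : Cl ≃+* Cl) : Cl →+* Cl) = nod u := by
    intro σ
    obtain ⟨π, hπ⟩ := exists_perm hxp' hxp σ
    rw [nod_map, ← nod_comp_equiv π u]
    congr 1
    ext a
    change σ (aeval (xp a) P1) = aeval (xp (π a)) P1
    rw [hσpoly, hπ]
  have hnodb : ∀ σ : Cl ≃ₐ[K] Cl,
      (nod b0).map ((σ : Cl ≃+* Cl) : Cl →+* Cl) = nod b0 := by
    intro σ
    have h1 := hM.map (σ : Cl ≃+* Cl)
    rw [hnodu σ] at h1
    exact (hM.unique h1).1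
  have hGb0 : ∀ (σ : Cl ≃ₐ[K] Cl) (j : Fin m), ∃ k, σ (b0 j) = b0 k := by
    intro σ j
    have h1 : (nod b0).eval (σ (b0 j)) = 0 := by
      rw [← hnodb σ]
      have h2 : σ (b0 j) = ((σ : Cl ≃+* Cl) : Cl →+* Cl) (b0 j) := rfl
      rw [h2, eval_map_apply, eval_nod_self, map_zero]
    exact (eval_nod_eq_zero_iff _ _).mp h1
  obtain ⟨t0, ht0⟩ : ∃ t0 : K, φ t0 = MP.shift (nod u) (nod b0) := by
    have h1 : MP.shift (nod u) (nod b0) ∈ Set.range (algebraMap K Cl) := by
      rw [InfiniteGalois.mem_range_algebraMap_iff_fixed]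
      intro σ
      have h2 := shift_map (f := nod u) (nod_monic b0) (σ : Cl ≃+* Cl)
      rw [hnodu σ, hnodb σ] at h2
      exact h2.symm
    exact h1
  let z : Fin m ⊕ Fin b → Cl := Sum.elim (fun _ => 0) (fun _ => 1)
  let bb : Fin m ⊕ Fin b → Cl := Sum.elim b0 w
  let cc : Fin m ⊕ Fin b → Cl := Sum.elim (MP.res H b0) cw
  let z' : Fin (m + 1) ⊕ Fin b → Cl := Sum.elim (fun _ => 0) (fun _ => 1)
  let η : Fin (m + 1) ⊕ Fin b → Cl := Sum.elim u w
  let ρ : Fin (m + 1) ⊕ Fin b → Cl := Sum.elim xp xq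
  have hrow0 : ∀ (v : Fin m ⊕ Fin b → Cl) (j : Fin m),
      (∑ k, if z (Sum.inl j) = z k then v k / (bb (Sum.inl j) - bb k) else 0) =
        cauchySum b0 (fun i => v (Sum.inl i)) (b0 j) := by
    intro v j
    rw [Fintype.sum_sum_type]
    simp [z, bb, cauchySum]
  have hrow1 : ∀ (v : Fin m ⊕ Fin b → Cl) (j : Fin b),
      (∑ k, if z (Sum.inr j) = z k then v k / (bb (Sum.inr j) - bb k) else 0) =
        cauchySum w (fun i => v (Sum.inr i)) (w j) := by
    intro v j
    rw [Fintype.sum_sum_type]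
    simp [z, bb, cauchySum]
  have hdet : (AinfO z bb).det ≠ 0 := by
    intro hdet
    obtain ⟨v, hv0, hv⟩ := Matrix.exists_mulVec_eq_zero_iff.mpr hdet
    apply hv0
    have h1 : (fun i => v (Sum.inl i)) = 0 := by
      apply hM.nondeg
      intro j
      have h2 := congrFun hv (Sum.inl j)
      rw [AinfO_mulVec, hrow0] at h2
      exact h2
    have h2 : (fun i => v (Sum.inr i)) = 0 := by
      apply hwnd
      intro j
      have h2 := congrFun hv (Sum.inr j)
      rw [AinfO_mulVec, hrow1] at h2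
      exact h2
    ext (j | j)
    · exact congrFun h1 j
    · exact congrFun h2 j
  have hcond : InfCondO z bb cc := by
    rintro (j | j)
    · rw [hrow0]; exact hM.cauchy_res j
    · rw [hrow1]; exact hcw j
  have hzb : ∀ i j, z i = z j → bb i = bb j → i = j := by
    rintro (i | i) (j | j) h1 h2
    · exact congrArg Sum.inl (hM.b_inj h2)
    · exact absurd h1 (by simp [z])
    · exact absurd h1 (by simp [z])
    · exact congrArg Sum.inr (hwinj h2)
  have hcc0 : ∀ j, cc j ≠ 0 := by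
    rintro (j | j)
    · exact hM.res_ne j
    · exact hcw0 j
  have hzη : ∀ i k, z' i = z' k → η i = η k → i = k := by
    rintro (i | i) (j | j) h1 h2
    · exact congrArg Sum.inl (huinj h2)
    · exact absurd h1 (by simp [z'])
    · exact absurd h1 (by simp [z'])
    · exact congrArg Sum.inr (hwinj h2)
  have htar : ∀ i, TargetO z bb cc (algebraMap K Cl t0) (z' i) (η i) := by
    rintro (i | i)
    · left
      obtain ⟨r1, r2, r3⟩ := hM.root_eq (eval_nod_self u i)
      refine ⟨rfl, ?_, ?_, ?_⟩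
      · rintro (j | j) hj
        · exact r1 j
        · exact absurd hj (by simp [z])
      · rw [Fintype.sum_sum_type]
        have e : algebraMap K Cl t0 = MP.shift (nod u) (nod b0) := ht0
        rw [e]
        simpa [z, bb, cc, η] using r2
      · rw [Fintype.sum_sum_type]
        simpa [z, bb, cc, η] using r3
    · right
      exact ⟨Sum.inr i, rfl, rfl, by simp [z]⟩
  have hGJ : ∀ (σ : Cl ≃ₐ[K] Cl) (j : Fin m ⊕ Fin b), ∃ k, σ (z j) = z k ∧ σ (bb j) = bb k := by
    rintro σ (j | j)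
    · obtain ⟨k, hk⟩ := hGb0 σ j
      exact ⟨Sum.inl k, map_zero σ, hk⟩
    · obtain ⟨π, hπ⟩ := exists_perm hxq' hxq σ
      refine ⟨Sum.inr (π j), map_one σ, ?_⟩
      change σ (aeval (xq j) P2) = aeval (xq (π j)) P2
      rw [hσpoly, hπ]
  have hGI : ∀ (σ : Cl ≃ₐ[K] Cl) (i : Fin (m + 1) ⊕ Fin b), ∃ k, σ (z' i) = z' k ∧
      σ (η i) = η k ∧ σ (ρ i) = ρ k := by
    rintro σ (i | i)
    · obtain ⟨π, hπ⟩ := exists_perm hxp' hxp σ
      refine ⟨Sum.inl (π i), map_zero σ, ?_, hπ i⟩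
      change σ (aeval (xp i) P1) = aeval (xp (π i)) P1
      rw [hσpoly, hπ]
    · obtain ⟨π, hπ⟩ := exists_perm hxq' hxq σ
      refine ⟨Sum.inr (π i), map_one σ, ?_, hπ i⟩
      change σ (aeval (xq i) P2) = aeval (xq (π i)) P2
      rw [hσpoly, hπ]
  obtain ⟨e, g, θ, he0, hg, hxinj, hnd, hoc, hcn, hθ, hroots, hgal⟩ :=
    oPre_of_clusters (K := K) (Cl := Cl) hiso (I := Fin (m + 1) ⊕ Fin b)
      (J := Fin m ⊕ Fin b) (by simp; omega) hzb hdet hcond hcc0 hzη htar hGJ hGI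
  refine ⟨g, _, _, t0, θ, ρ, hg, hxinj, hnd, hoc, hcn, hθ, hroots, ?_, hgal, ?_⟩
  · rw [Polynomial.map_mul, hxp', hxq', ← nod_sum]
  · refine ⟨xq, hxq, hxq', fun σ j => ?_⟩
    obtain ⟨π, hπ⟩ := exists_perm hxq' hxq σ
    refine ⟨π j, ?_, hπ j⟩
    simp only [xu, map_add, map_div₀]
    have h3 : σ (φ e) = φ e := σ.commutes e
    have h4 : σ (z (Sum.inr j)) = z (Sum.inr (π j)) := map_one σ
    have h5 : σ (bb (Sum.inr j)) = bb (Sum.inr (π j)) := by
      change σ (aeval (xq j) P2) = aeval (xq (π j)) P2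
      rw [hσpoly, hπ]
    rw [h3, h4, h5]

end Pool.Agent.Lib.MP_12adaf_nt
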