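import Mathlib
import Pool.Agent.Lib.MP_12adaf_nt.MPFib
import Pool.Agent.Lib.MP_12adaf_nt.CaseA

/-!
# Breaking the roots along a Galois stable partition into classes of odd size
-/

namespace Pool.Agent.Lib.MP_12adaf_nt

set_option linter.unusedSectionVars false
set_option linter.unusedVariables false
set_option autoImplicit false

open Finset Polynomial Filter Topology

lemma even_card_of_odd_fibres {Λ I : Type*} [Fintype Λ] [DecidableEq Λ] [Fintype I]
    [DecidableEq I] {l' : I → Λ} (hodd : ∀ l, Odd (Fintype.card {i // l' i = l}))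
    (hN : Even (Fintype.card I)) : Even (Fintype.card Λ) := by
  have h4 : ∑ l, Fintype.card {i // l' i = l} = Fintype.card I := by
    rw [← Fintype.card_sigma, Fintype.card_congr (Equiv.sigmaFiberEquiv l')]
  choose m hm using hodd
  simp only [hm, Finset.sum_add_distrib, Finset.sum_const, Finset.card_univ, smul_eq_mul,
    mul_one, ← Finset.mul_sum] at h4
  rw [← h4] at hN
  rw [Nat.even_add] at hN
  exact hN.mp (even_two_mul _)

lemma exists_nod_fintype {L : Type*} [Field L] [IsAlgClosed L] {U : Type*} [Fintype U]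
    [DecidableEq U] {P : L[X]} (hm : P.Monic) (hs : P.Separable)
    (hd : P.natDegree = Fintype.card U) : ∃ b : U → L, P = nod b := by
  obtain ⟨b, hbi, hb⟩ := exists_nod (RingHom.id L) hm hd hs
  rw [Polynomial.map_id] at hb
  let e : U ≃ Fin (Fintype.card U) := Fintype.equivFin U
  exact ⟨fun x => b (e x), by rw [nod_comp_equiv e b]; exact hb⟩

section Generic

variable {K Cl : Type*} [Field K] [Infinite K] [Field Cl] [Algebra K Cl] [CharZero Cl]

lemma exists_generic_even {Λ : Type*} [Fintype Λ] [DecidableEq Λ] {ζ0 : Λ → Cl}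
    (hζ0 : Function.Injective ζ0) (he : Even (Fintype.card Λ)) :
    ∃ P : K[X], cert2 (fun l => aeval (ζ0 l) P) ≠ 0 := by
  classical
  let C2 : MvPolynomial Λ Cl := cert2 (fun l => MvPolynomial.X l)
  have e2 : ∀ v : Λ → Cl, MvPolynomial.eval v C2 = cert2 v := by
    intro v
    rw [map_cert2]
    congr 1
    ext i
    simp
  let k : Λ → ℕ := fun i => (Fintype.equivFin Λ i : ℕ)
  have hk : Function.Injective k := fun a b h =>
    (Fintype.equivFin Λ).injective (Fin.ext h)
  have n2 : C2 ≠ 0 := by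
    intro h
    have h4 := e2 fun i => (k i : Cl)
    rw [h, map_zero] at h4
    exact cert2_nat_ne_zero (L := Cl) hk he h4.symm
  obtain ⟨P, hP⟩ := exists_generic (K := K) hζ0 n2
  rw [e2] at hP
  exact ⟨P, hP⟩

lemma exists_generic_odd {Λ I : Type*} [Fintype Λ] [DecidableEq Λ] [Fintype I] [DecidableEq I]
    {l' : I → Λ} (hodd : ∀ l, Odd (Fintype.card {i // l' i = l})) (i0 : ∀ l, {i // l' i = l})
    {ρ : I → Cl} (hρ : Function.Injective ρ) :
    ∃ P : K[X], ∀ l, cert1 (i0 l) (fun i : {i // l' i = l} => aeval (ρ i.1) P) ≠ 0 := by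
  classical
  let C1 : Λ → MvPolynomial I Cl := fun l =>
    cert1 (i0 l) (fun i : {i // l' i = l} => MvPolynomial.X i.1)
  have e1 : ∀ (l : Λ) (v : I → Cl), MvPolynomial.eval v (C1 l) =
      cert1 (i0 l) (fun i : {i // l' i = l} => v i.1) := by
    intro l v
    rw [map_cert1]
    congr 1
    ext i
    simp
  let k : I → ℕ := fun i => (Fintype.equivFin I i : ℕ)
  have hk : Function.Injective k := fun a b h =>
    (Fintype.equivFin I).injective (Fin.ext h)
  have n1 : ∀ l, C1 l ≠ 0 := by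
    intro l h
    have h4 := e1 l fun i => (k i : Cl)
    rw [h, map_zero] at h4
    exact cert1_nat_ne_zero (L := Cl) (k := fun i : {i // l' i = l} => k i.1)
      (fun a b hab => Subtype.ext (hk hab)) (hodd l) (i0 l) h4.symm
  obtain ⟨P, hP⟩ := exists_generic (K := K) hρ (F := ∏ l, C1 l)
    (Finset.prod_ne_zero_iff.mpr fun l _ => n1 l)
  refine ⟨P, fun l => ?_⟩
  rw [map_prod, Finset.prod_ne_zero_iff] at hP
  have := hP l (Finset.mem_univ l)
  rwa [e1] at this

end Generic

theorem rch_of_odd_classes {K Cl : Type*} [NontriviallyNormedField K] [NormedField Cl]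
    [NormedAlgebra K Cl] [IsAlgClosed Cl] [IsGalois K Cl] [CharZero K] [CharZero Cl]
    (hiso : ∀ (σ : Cl ≃ₐ[K] Cl) (x : Cl), ‖σ x‖ = ‖x‖)
    {Λ : Type*} [Fintype Λ] [DecidableEq Λ] {I : Type*} [Fintype I] [DecidableEq I] [Nonempty I]
    {N : ℕ} (hNe : Even N) (hI : Fintype.card I = N) {l' : I → Λ}
    (hodd : ∀ l, Odd (Fintype.card {i // l' i = l}))
    {ζ0 : Λ → Cl} (hζ0 : Function.Injective ζ0) {ρ : I → Cl} (hρ : Function.Injective ρ)
    {F : K[X]} (hF : F.map (algebraMap K Cl) = nod ρ)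
    (hG : ∀ (σ : Cl ≃ₐ[K] Cl) (i : I), ∃ k, σ (ρ i) = ρ k ∧ σ (ζ0 (l' i)) = ζ0 (l' k)) :
    ∃ (θ : I → Cl) (g : K[X]) (κ : K), Function.Injective θ ∧
      g.map (algebraMap K Cl) = nod θ ∧ Rch N g F κ ∧
      (∀ (σ : Cl ≃ₐ[K] Cl) (i k : I), σ (θ i) = θ k → σ (ζ0 (l' i)) = ζ0 (l' k)) ∧
      (∀ l, 1 < Fintype.card {i // l' i = l} →
        ∃ i k, l' i = l ∧ l' k = l ∧ ∀ σ : Cl ≃ₐ[K] Cl, σ (θ i) ≠ θ k) := by
  classical
  set φ : K →+* Cl := algebraMap K Cl with hφ
  have hσpoly : ∀ (σ : Cl ≃ₐ[K] Cl) (Q : K[X]) (y : Cl), σ (aeval y Q) = aeval (σ y) Q := by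
    intro σ Q y
    exact (aeval_algHom_apply (σ : Cl →ₐ[K] Cl) y Q).symm
  have hne : ∀ l, Nonempty {i // l' i = l} := fun l => Fintype.card_pos_iff.mp (hodd l).pos
  have i0 : ∀ l, {i // l' i = l} := fun l => Classical.choice (hne l)
  have heven : Even (Fintype.card Λ) := even_card_of_odd_fibres hodd (by rw [hI]; exact hNe)
  obtain ⟨P0, hP0⟩ := exists_generic_even (K := K) hζ0 heven
  obtain ⟨P1, hP1⟩ := exists_generic_odd (K := K) hodd i0 hρ
  set ζ : Λ → Cl := fun l => aeval (ζ0 l) P0 with hζdef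
  set u : I → Cl := fun i => aeval (ρ i) P1 with hu
  obtain ⟨hζ, hnd, c, hc, hc0⟩ := even_of_cert hP0
  have hui : ∀ l, Function.Injective (fun i : {i // l' i = l} => u i.1) := by
    intro l
    exact Del_ne_zero_iff.mp
      (left_ne_zero_of_mul (left_ne_zero_of_mul (left_ne_zero_of_mul (hP1 l))))
  have hMex : ∀ l, ∃ G H : Cl[X], MP (nod fun i : {i // l' i = l} => u i.1) G H :=
    fun l => MP_of_cert (hodd l) (hP1 l)
  choose G H hM using hMex
  -- the action on labels
  have hΛ : ∀ (σ : Cl ≃ₐ[K] Cl) (l : Λ), ∃ m, σ (ζ0 l) = ζ0 m := by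
    intro σ l
    obtain ⟨k, _, hk⟩ := hG σ (i0 l).1
    rw [(i0 l).2] at hk
    exact ⟨l' k, hk⟩
  have hζσ : ∀ (σ : Cl ≃ₐ[K] Cl) (l m : Λ), σ (ζ0 l) = ζ0 m → σ (ζ l) = ζ m := by
    intro σ l m h
    rw [hζdef]
    dsimp only
    rw [hσpoly, h]
  have hcσ : ∀ (σ : Cl ≃ₐ[K] Cl) (l m : Λ), σ (ζ0 l) = ζ0 m → σ (c l) = c m := by
    intro σ
    choose π hπ using hΛ σ
    have hπi : Function.Injective π := by
      intro a b hab
      apply hζ0
      apply σ.injective
      rw [hπ, hπ, hab]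
    have hπb : Function.Bijective π := Finite.injective_iff_bijective.mp hπi
    let E : Λ ≃ Λ := Equiv.ofBijective π hπb
    have hE : ∀ l, E l = π l := fun l => rfl
    let c' : Λ → Cl := fun m => σ (c (E.symm m))
    have hc' : ∀ m, cauchySum ζ c' (ζ m) = -1 := by
      intro m
      have h1 := congrArg σ (hc (E.symm m))
      rw [map_neg, map_one, cauchySum, map_sum] at h1
      rw [cauchySum, ← h1, ← Equiv.sum_comp E]
      refine Finset.sum_congr rfl fun j _ => ?_
      have h2 : σ (ζ j) = ζ (E j) := hζσ σ j _ (hπ j)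
      have h3 : σ (ζ (E.symm m)) = ζ m := by
        rw [hζσ σ _ _ (hπ (E.symm m)), ← hE, Equiv.apply_symm_apply]
      have h4 : c' (E j) = σ (c j) := by
        simp only [c', Equiv.symm_apply_apply]
      rw [map_div₀, map_sub, h4, h3, h2]
    have hcc : c' = c := by
      have h1 : CKer ζ (fun l => c' l - c l) := by
        intro l
        have h2 := hc' l
        have h3 := hc l
        rw [cauchySum] at h2 h3 ⊢
        simp only [sub_div, Finset.sum_sub_distrib]
        rw [h2]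
        have h4 : ∑ j, c j / (ζ l - ζ j) = -1 := h3
        rw [h4, sub_self]
      have h2 := hnd _ h1
      ext l
      have h3 := congrFun h2 l
      simp only [Pi.zero_apply] at h3
      exact sub_eq_zero.mp h3
    intro l m h
    have h1 : m = E l := hζ0 (by rw [← h, hE]; exact hπ l)
    have h2 := congrFun hcc (E l)
    simp only [c', Equiv.symm_apply_apply] at h2
    rw [h1, ← h2]
  -- the parameter
  have hκ : ∀ l, c l ^ 2 ≠ 0 := fun l => pow_ne_zero 2 (hc0 l)
  have ev1 : ∀ᶠ t : K in 𝓝[≠] 0, ∀ l, IsCoprime (H l)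
      ((nod fun i : {i // l' i = l} => u i.1) - C (c l ^ 2 / φ t) * G l) := by
    rw [eventually_all]; intro l
    exact ev_coprime (hM l) (hκ l)
  have hGd : ∀ l, (G l).natDegree + 1 = Fintype.card {i // l' i = l} := by
    intro l
    have := (hM l).deg
    rw [natDegree_nod] at this
    exact this.symm
  have ev2 : ∀ᶠ t : K in 𝓝[≠] 0, ∀ l, 1 < Fintype.card {i // l' i = l} → ∃ x y : Cl,
      ((nod fun i : {i // l' i = l} => u i.1) - C (c l ^ 2 / φ t) * G l).eval x = 0 ∧
      ((nod fun i : {i // l' i = l} => u i.1) - C (c l ^ 2 / φ t) * G l).eval y = 0 ∧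
      ‖x‖ ≠ ‖y‖ := by
    rw [eventually_all]; intro l
    rw [eventually_imp_distrib_left]
    intro hl
    have h1 := hGd l
    exact ev_norms (n := (G l).natDegree) (hM l).fm (hM l).Gm (hM l).deg rfl (by omega)
      (hM l).Gsep (hκ l)
  obtain ⟨t2, ht2, hcop, hnorm⟩ := (ev_ne_zero_K.and (ev1.and ev2)).exists
  have ht2' : φ t2 ≠ 0 := (_root_.map_ne_zero φ).mpr ht2
  set τ : Λ → Cl := fun l => c l ^ 2 / φ t2 with hτ
  have hτ0 : ∀ l, τ l ≠ 0 := fun l => div_ne_zero (hκ l) ht2'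
  set P : Λ → Cl[X] := fun l => (nod fun i : {i // l' i = l} => u i.1) - C (τ l) * G l with hPdef
  have hM' : ∀ l, MP (P l) (G l) (H l) := fun l => (hM l).sub _ (hcop l)
  have hPb : ∀ l, ∃ b : {i // l' i = l} → Cl, P l = nod b := by
    intro l
    apply exists_nod_fintype (hM' l).fm (hM' l).fsep
    rw [(hM' l).deg, hGd]
  choose bb hbb using hPb
  have hMb : ∀ l, MP (nod (bb l)) (G l) (H l) := by
    intro l
    have := hM' l
    rwa [hbb] at this
  -- the data
  set Z : I → Cl := fun i => ζ (l' i) with hZ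
  set b : I → Cl := fun i => bb (l' i) ⟨i, rfl⟩ with hb
  set v : I → Cl := fun i => kv (H (l' i)) (bb (l' i)) ⟨i, rfl⟩ with hv
  set w : I → Cl := fun i => c (l' i) with hw
  have hbe : ∀ (l : Λ) (x : {i // l' i = l}), b x.1 = bb l x := by
    rintro l ⟨i, rfl⟩; rfl
  have hve : ∀ (l : Λ) (x : {i // l' i = l}), v x.1 = kv (H l) (bb l) x := by
    rintro l ⟨i, rfl⟩; rfl
  have hZl : ∀ i k, Z i = Z k ↔ l' i = l' k := fun i k =>
    ⟨fun h => hζ h, fun h => by rw [hZ]; simp only [h]⟩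
  have hsum : ∀ (j : I) (f : I → Cl), ∑ k ∈ blk Z j, f k =
      ∑ x : {i // l' i = l' j}, f x.1 := by
    intro j f
    have h1 : blk Z j = univ.filter fun k => l' k = l' j := by
      ext k
      rw [mem_blk, hZl, mem_filter]
      simp
    rw [h1]
    exact Finset.sum_subtype _ (by simp) f
  have hsumall : ∀ (f : I → Cl), ∑ k, f k = ∑ l, ∑ x : {i // l' i = l}, f x.1 := by
    intro f
    rw [← Fintype.sum_sigma (f := fun p : (Σ l, {i // l' i = l}) => f p.2.1)]
    exact (Equiv.sum_comp (Equiv.sigmaFiberEquiv l') f).symm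
  have hnsum : ∀ (s : Λ → Cl) (j : I), ∑ k ∈ nblk Z j, s (l' k) * v k / (Z j - Z k) =
      cauchySum ζ s (ζ (l' j)) := by
    intro s j
    have h1 : ∑ k ∈ nblk Z j, s (l' k) * v k / (Z j - Z k) =
        ∑ k, s (l' k) * v k / (Z j - Z k) := by
      rw [← sum_blk_add_nblk Z j, Finset.sum_eq_zero (s := blk Z j), zero_add]
      intro k hk
      rw [mem_blk.mp hk, sub_self, div_zero]
    rw [h1, hsumall, cauchySum]
    refine Finset.sum_congr rfl fun l _ => ?_
    have h2 : ∀ x : {i // l' i = l}, s (l' x.1) * v x.1 / (Z j - Z x.1) =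
        s l / (ζ (l' j) - ζ l) * kv (H l) (bb l) x := by
      intro x
      rw [hve, hZ]
      simp only [x.2]
      ring
    simp only [h2]
    rw [← Finset.mul_sum, (hMb l).sum_kv, mul_one]
  have hO : OBlk Z b v w := by
    refine ⟨?_, ?_, ?_, ?_, ?_, ?_, ?_, ?_, ?_⟩
    · intro i j h1 h2
      have h3 := (hZl i j).mp h1
      have h4 := hbe (l' j) ⟨i, h3⟩
      have h5 := hbe (l' j) ⟨j, rfl⟩
      have h6 : bb (l' j) ⟨i, h3⟩ = bb (l' j) ⟨j, rfl⟩ := by rw [← h4, ← h5]; exact h2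
      exact congrArg Subtype.val ((hMb (l' j)).inj_nod h6)
    · intro j
      rw [hsum]
      have h1 := (hMb (l' j)).kv_ker ⟨j, rfl⟩
      rw [cauchySum] at h1
      rw [← h1]
      refine Finset.sum_congr rfl fun x _ => ?_
      rw [hve, hbe]
    · intro j
      rw [hsum, ← (hMb (l' j)).sum_kv]
      refine Finset.sum_congr rfl fun x _ => ?_
      rw [hve]
    · intro j
      exact (hMb (l' j)).kv_ne _
    · intro ξ j0 hξ
      have h1 : CKer (bb (l' j0)) (fun x => ξ x.1) := by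
        intro x
        have h2 := hξ x.1 (mem_blk.mpr ((hZl _ _).mpr x.2))
        rw [hsum, hbe (l' j0) x] at h2
        rw [cauchySum, ← h2]
        refine Finset.sum_congr rfl fun y _ => ?_
        rw [hbe]
      obtain ⟨r, hr⟩ := (hMb (l' j0)).kv_cork h1
      refine ⟨r, fun j hj => ?_⟩
      have h3 := (hZl _ _).mp (mem_blk.mp hj)
      have h4 := hr ⟨j, h3⟩
      rw [h4, ← hve (l' j0) ⟨j, h3⟩]
    · intro i j h
      rw [hw]
      simp only [(hZl i j).mp h]
    · intro j
      exact hc0 _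
    · intro j
      rw [hw, hnsum c j]
      exact hc _
    · intro s hs h0
      let s' : Λ → Cl := fun l => s (i0 l).1
      have hs' : ∀ k, s k = s' (l' k) := by
        intro k
        apply hs
        rw [hZl]
        exact (i0 (l' k)).2.symm
      have h1 : CKer ζ s' := by
        intro l
        have h2 := h0 (i0 l).1
        simp only [hs'] at h2
        rw [hnsum s' (i0 l).1, (i0 l).2] at h2
        exact h2
      have h2 := hnd _ h1
      ext k
      rw [hs' k, h2]
      rfl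
  -- facts on the roots of the `f l`
  have hGne : ∀ i, (G (l' i)).eval (u i) ≠ 0 := by
    intro i h0
    have h1 := congrArg (eval (u i)) (hM (l' i)).wr
    have h2 : (nod fun x : {k // l' k = l' i} => u x.1).eval (u i) = 0 :=
      eval_nod_self (fun x : {k // l' k = l' i} => u x.1) ⟨i, rfl⟩
    simp only [eval_sub, eval_mul, eval_pow, h0, h2, mul_zero, zero_mul, sub_self] at h1
    have h3 : (H (l' i)).eval (u i) ≠ 0 := (hM (l' i)).eval_H_fib ⟨i, rfl⟩
    exact pow_ne_zero 2 h3 h1.symm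
  have hPu : ∀ i, (nod (bb (l' i))).eval (u i) = -(τ (l' i) * (G (l' i)).eval (u i)) := by
    intro i
    have h2 : (nod fun x : {k // l' k = l' i} => u x.1).eval (u i) = 0 :=
      eval_nod_self (fun x : {k // l' k = l' i} => u x.1) ⟨i, rfl⟩
    rw [← hbb, hPdef]
    simp only [eval_sub, eval_mul, eval_C, h2, zero_sub]
  have hηb : ∀ i, ∀ x : {k // l' k = l' i}, u i ≠ bb (l' i) x := by
    intro i x h
    have h1 := hPu i
    rw [h, eval_nod_self, ← h] at h1
    exact (neg_ne_zero.mpr (mul_ne_zero (hτ0 _) (hGne i))) h1.symm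
  -- the action on the fibres
  have hGσ : ∀ (σ : Cl ≃ₐ[K] Cl) (l m : Λ), σ (ζ0 l) = ζ0 m →
      (P l).map ((σ : Cl ≃+* Cl) : Cl →+* Cl) = P m := by
    intro σ l m hlm
    obtain ⟨π, hπ⟩ := exists_perm hF hρ σ
    have hpq : ∀ i, l' i = l ↔ l' (π i) = m := by
      intro i
      obtain ⟨k, hk1, hk2⟩ := hG σ i
      have hk3 : k = π i := hρ (by rw [← hk1, hπ])
      subst hk3
      constructor
      · intro h
        apply hζ0
        rw [← hk2, h, hlm]
      · intro h
        apply hζ0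
        apply σ.injective
        rw [hk2, h, hlm]
    let E : {i // l' i = l} ≃ {i // l' i = m} := Equiv.subtypeEquiv π hpq
    have hfm : (nod fun i : {i // l' i = l} => u i.1).map ((σ : Cl ≃+* Cl) : Cl →+* Cl) =
        nod fun i : {i // l' i = m} => u i.1 := by
      rw [nod_map, ← nod_comp_equiv E (fun i : {i // l' i = m} => u i.1)]
      congr 1
      ext i
      change σ (u i.1) = u (π i.1)
      rw [hu]
      dsimp only
      rw [hσpoly, hπ]
    have h1 := (hM l).map (σ : Cl ≃+* Cl)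
    rw [hfm] at h1
    obtain ⟨h2, h3⟩ := (hM m).unique h1
    rw [hPdef]
    dsimp only
    rw [Polynomial.map_sub, Polynomial.map_mul, hfm, h2, map_C, hτ]
    have h4 : ((σ : Cl ≃+* Cl) : Cl →+* Cl) (c l ^ 2 / φ t2) = c m ^ 2 / φ t2 := by
      change σ (c l ^ 2 / φ t2) = _
      rw [map_div₀, map_pow, hcσ σ l m hlm]
      congr 1
      exact σ.commutes t2
    dsimp only
    rw [h4]
  have hGJ : ∀ (σ : Cl ≃ₐ[K] Cl) (j : I), ∃ k, σ (ζ0 (l' j)) = ζ0 (l' k) ∧
      σ (Z j) = Z k ∧ σ (b j) = b k := by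
    intro σ j
    obtain ⟨m, hm⟩ := hΛ σ (l' j)
    have h1 := hGσ σ (l' j) m hm
    have h2 : (P m).eval (σ (b j)) = 0 := by
      rw [← h1]
      have h3 : σ (b j) = ((σ : Cl ≃+* Cl) : Cl →+* Cl) (b j) := rfl
      rw [h3, eval_map_apply]
      have h4 : (P (l' j)).eval (b j) = 0 := by
        rw [hbb]
        exact eval_nod_self (bb (l' j)) ⟨j, rfl⟩
      rw [h4, map_zero]
    rw [hbb] at h2
    obtain ⟨x, hx⟩ := (eval_nod_eq_zero_iff _ _).mp h2
    refine ⟨x.1, by rw [x.2]; exact hm, ?_, by rw [hbe]; exact hx⟩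
    have h3 := hζσ σ _ _ hm
    rw [hZ]
    dsimp only
    rw [x.2]
    exact h3
  obtain ⟨e, g, κ, he, hg, hθi, hR⟩ := rch_of_clusters (K := K) (Cl := Cl) hiso hNe hI hO ht2
    (η := u) (ρ := ρ) (by
      intro i k h1 h2
      have h3 := (hZl i k).mp h1
      have h4 := @hui (l' k) ⟨i, h3⟩ ⟨k, rfl⟩ h2
      exact congrArg Subtype.val h4)
    (by
      intro i j hj
      have h1 := (hZl _ _).mp (mem_blk.mp hj)
      have h2 := hηb i ⟨j, h1⟩
      rw [← hbe (l' i) ⟨j, h1⟩] at h2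
      exact h2)
    (by
      intro i
      rw [hsum]
      have h1 : ∑ x : {k // l' k = l' i}, (w x.1 * v x.1) ^ 2 / (u i - b x.1) =
          c (l' i) ^ 2 * ∑ x : {k // l' k = l' i}, kv (H (l' i)) (bb (l' i)) x ^ 2 /
            (u i - bb (l' i) x) := by
        rw [Finset.mul_sum]
        refine Finset.sum_congr rfl fun x _ => ?_
        rw [hve, hbe, hw]
        simp only [x.2]
        ring
      rw [h1, (hMb (l' i)).sum_kv_sq_div (hηb i), hPu i]
      have h2 := hGne i
      have h3 := hτ0 (l' i)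
      have h4 := hκ (l' i)
      have h5 : c (l' i) ≠ 0 := hc0 _
      rw [hτ] at h3 ⊢
      dsimp only
      field_simp
      ring)
    (by
      intro i
      rw [hsum]
      have h1 : ∑ x : {k // l' k = l' i}, w x.1 * v x.1 / (u i - b x.1) =
          c (l' i) * ∑ x : {k // l' k = l' i}, kv (H (l' i)) (bb (l' i)) x /
            (u i - bb (l' i) x) := by
        rw [Finset.mul_sum]
        refine Finset.sum_congr rfl fun x _ => ?_
        rw [hve, hbe, hw]
        simp only [x.2]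
        ring
      rw [h1, (hMb (l' i)).sum_kv_div (hηb i), hPu i]
      refine mul_ne_zero (hc0 _) (div_ne_zero ?_ ?_)
      · exact (hM (l' i)).eval_H_fib ⟨i, rfl⟩
      · exact neg_ne_zero.mpr (mul_ne_zero (hτ0 _) (hGne i)))
    (by
      intro σ j
      obtain ⟨k, _, hk1, hk2⟩ := hGJ σ j
      exact ⟨k, hk1, hk2⟩)
    (by
      intro σ i
      obtain ⟨k, hk1, hk2⟩ := hG σ i
      refine ⟨k, hζσ σ _ _ hk2, ?_, hk1⟩
      rw [hu]
      dsimp only
      rw [hσpoly, hk1])
    hρ hF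
  have hkey : ∀ (σ : Cl ≃ₐ[K] Cl) (i k : I), σ (xu Z b (φ e) i) = xu Z b (φ e) k →
      σ (ζ0 (l' i)) = ζ0 (l' k) ∧ σ (b i) = b k := by
    intro σ i k h
    obtain ⟨k', h1, h2, h3⟩ := hGJ σ i
    have h4 : σ (xu Z b (φ e) i) = xu Z b (φ e) k' := by
      simp only [xu]
      rw [map_add, map_div₀, h2, h3]
      congr 2
      exact σ.commutes e
    have h5 : k' = k := hθi (by rw [← h4, h])
    subst h5
    exact ⟨h1, h3⟩
  refine ⟨xu Z b (φ e), g, κ, hθi, hg, hR, fun σ i k h => (hkey σ i k h).1, ?_⟩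
  intro l hl
  obtain ⟨x, y, hx, hy, hxy⟩ := hnorm l hl
  have hx' : (nod (bb l)).eval x = 0 := by rw [← hbb]; exact hx
  have hy' : (nod (bb l)).eval y = 0 := by rw [← hbb]; exact hy
  obtain ⟨i, hi⟩ := (eval_nod_eq_zero_iff _ _).mp hx'
  obtain ⟨k, hk⟩ := (eval_nod_eq_zero_iff _ _).mp hy'
  refine ⟨i.1, k.1, i.2, k.2, fun σ h => hxy ?_⟩
  have h1 := (hkey σ i.1 k.1 h).2
  rw [hbe, hbe] at h1
  rw [hi, hk, ← h1, hiso]

end Pool.Agent.Lib.MP_12adaf_nt
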