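import Mathlib
import Pool.Agent.Lib.MP_12adaf_nt.LPBasic

/-!
# Orbits of the Galois group of a field with `‖2‖ = 1`

A nontrivial orbit has a Galois stable partition into classes of odd size `> 1`, or a fixed point
free involution commuting with the Galois action.
-/

namespace Pool.Agent.Lib.MP_12adaf_nt

set_option linter.unusedSectionVars false
set_option linter.unusedVariables false
set_option autoImplicit false

open Polynomial

/-- Orbits of a group without elements acting as involutions are of odd size. -/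
lemma odd_orbit {A O : Type*} [Group A] [MulAction A O] [Finite O]
    (h : ∀ a : A, (∀ x : O, a • a • x = x) → ∀ x : O, a • x = x) (x : O) :
    Odd (Nat.card (MulAction.orbit A x)) := by
  rw [← Nat.not_even_iff_odd]
  intro he
  let H : Subgroup (Equiv.Perm O) := (MulAction.toPermHom A O).range
  have hfin : Finite H := inferInstance
  have horb : MulAction.orbit A x = MulAction.orbit H x := by
    ext y
    constructor
    · rintro ⟨a, rfl⟩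
      exact ⟨⟨MulAction.toPermHom A O a, ⟨a, rfl⟩⟩, rfl⟩
    · rintro ⟨⟨_, ⟨a, rfl⟩⟩, rfl⟩
      exact ⟨a, rfl⟩
  rw [horb, Nat.card_congr (MulAction.orbitEquivQuotientStabilizer H x)] at he
  have h2 : 2 ∣ Nat.card H := he.two_dvd.trans (Subgroup.card_quotient_dvd_card _)
  have hp : Fact (Nat.Prime 2) := ⟨Nat.prime_two⟩
  obtain ⟨⟨_, ⟨a, rfl⟩⟩, ha⟩ := exists_prime_orderOf_dvd_card' 2 h2
  have h3 : ∀ y : O, a • a • y = y := by
    intro y
    have h4 := pow_orderOf_eq_one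
      (⟨MulAction.toPermHom A O a, ⟨a, rfl⟩⟩ : H)
    rw [ha, sq] at h4
    have h5 := congrArg (fun s : H => (s : Equiv.Perm O) y) h4
    exact h5
  have h4 := h a h3
  have h5 : (⟨MulAction.toPermHom A O a, ⟨a, rfl⟩⟩ : H) = 1 := by
    apply Subtype.ext
    ext y
    exact h4 y
  rw [h5, orderOf_one] at ha
  exact absurd ha (by norm_num)

section

variable {K Cl : Type*} [NontriviallyNormedField K] [NormedField Cl] [NormedAlgebra K Cl]
  [IsUltrametricDist Cl]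

/-- The wild inertia group of `L`. -/
def Pw (hiso : ∀ (σ : Cl ≃ₐ[K] Cl) (x : Cl), ‖σ x‖ = ‖x‖) (L : IntermediateField K Cl)
    (hL : ∀ (σ : Cl ≃ₐ[K] Cl), ∀ y ∈ L, σ y ∈ L) : Subgroup (Cl ≃ₐ[K] Cl) where
  carrier := {σ | ∀ y ∈ L, y ≠ 0 → ‖σ y - y‖ < ‖y‖}
  one_mem' := by
    intro y _ hy
    rw [AlgEquiv.one_apply, sub_self, norm_zero]
    exact norm_pos_iff.mpr hy
  mul_mem' := by
    intro σ τ hσ hτ y hyL hy
    have h1 : (σ * τ) y - y = (σ (τ y) - τ y) + (τ y - y) := by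
      rw [AlgEquiv.mul_apply]; ring
    rw [h1]
    refine (IsUltrametricDist.norm_add_le_max _ _).trans_lt (max_lt ?_ (hτ y hyL hy))
    have h2 := hσ (τ y) (hL τ y hyL) (fun h => hy (τ.injective (by rw [h, map_zero])))
    rwa [hiso τ y] at h2
  inv_mem' := by
    intro σ hσ y hyL hy
    have h1 := hσ (σ⁻¹ y) (hL _ y hyL) (fun h => hy (σ⁻¹.injective (by rw [h, map_zero])))
    have h2 : σ (σ⁻¹ y) = y := by
      rw [← AlgEquiv.mul_apply, mul_inv_cancel, AlgEquiv.one_apply]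
    rw [h2, hiso] at h1
    rwa [norm_sub_rev]

/-- The inertia group of `L`. -/
def Iw (hiso : ∀ (σ : Cl ≃ₐ[K] Cl) (x : Cl), ‖σ x‖ = ‖x‖) (L : IntermediateField K Cl)
    (hL : ∀ (σ : Cl ≃ₐ[K] Cl), ∀ y ∈ L, σ y ∈ L) : Subgroup (Cl ≃ₐ[K] Cl) where
  carrier := {σ | ∀ y ∈ L, ‖y‖ ≤ 1 → ‖σ y - y‖ < 1}
  one_mem' := by
    intro y _ hy
    rw [AlgEquiv.one_apply, sub_self, norm_zero]
    exact one_pos
  mul_mem' := by
    intro σ τ hσ hτ y hyL hy
    have h1 : (σ * τ) y - y = (σ (τ y) - τ y) + (τ y - y) := by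
      rw [AlgEquiv.mul_apply]; ring
    rw [h1]
    refine (IsUltrametricDist.norm_add_le_max _ _).trans_lt (max_lt ?_ (hτ y hyL hy))
    exact hσ (τ y) (hL τ y hyL) (by rw [hiso]; exact hy)
  inv_mem' := by
    intro σ hσ y hyL hy
    have h1 := hσ (σ⁻¹ y) (hL _ y hyL) (by rw [hiso]; exact hy)
    have h2 : σ (σ⁻¹ y) = y := by
      rw [← AlgEquiv.mul_apply, mul_inv_cancel, AlgEquiv.one_apply]
    rw [h2] at h1
    rwa [norm_sub_rev]

variable {hiso : ∀ (σ : Cl ≃ₐ[K] Cl) (x : Cl), ‖σ x‖ = ‖x‖} {L : IntermediateField K Cl}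
    {hL : ∀ (σ : Cl ≃ₐ[K] Cl), ∀ y ∈ L, σ y ∈ L}

lemma mem_Pw {σ : Cl ≃ₐ[K] Cl} : σ ∈ Pw hiso L hL ↔ ∀ y ∈ L, y ≠ 0 → ‖σ y - y‖ < ‖y‖ := Iff.rfl

lemma mem_Iw {σ : Cl ≃ₐ[K] Cl} : σ ∈ Iw hiso L hL ↔ ∀ y ∈ L, ‖y‖ ≤ 1 → ‖σ y - y‖ < 1 := Iff.rfl

lemma Pw_normal : (Pw hiso L hL).Normal := by
  constructor
  intro σ hσ g y hyL hy
  have h1 := hσ (g⁻¹ y) (hL _ y hyL) (fun h => hy (g⁻¹.injective (by rw [h, map_zero])))
  have h2 : g (g⁻¹ y) = y := by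
    rw [← AlgEquiv.mul_apply, mul_inv_cancel, AlgEquiv.one_apply]
  have h3 : (g * σ * g⁻¹) y - y = g (σ (g⁻¹ y) - g⁻¹ y) := by
    rw [map_sub, h2]; rfl
  rw [h3, hiso]
  rwa [hiso g⁻¹ y] at h1

lemma Iw_normal : (Iw hiso L hL).Normal := by
  constructor
  intro σ hσ g y hyL hy
  have h1 := hσ (g⁻¹ y) (hL _ y hyL) (by rw [hiso]; exact hy)
  have h2 : g (g⁻¹ y) = y := by
    rw [← AlgEquiv.mul_apply, mul_inv_cancel, AlgEquiv.one_apply]
  have h3 : (g * σ * g⁻¹) y - y = g (σ (g⁻¹ y) - g⁻¹ y) := by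
    rw [map_sub, h2]; rfl
  rw [h3, hiso]
  exact h1

/-- No element of the wild inertia group acts as an involution when `‖2‖ = 1`. -/
lemma Pw_no_inv (h2 : ‖(2 : Cl)‖ = 1) {σ : Cl ≃ₐ[K] Cl} (hσ : σ ∈ Pw hiso L hL) {y : Cl}
    (hy : y ∈ L) (h : σ (σ y) = y) : σ y = y := by
  by_contra hne
  have hb : y - σ y ≠ 0 := sub_ne_zero.mpr (Ne.symm hne)
  have h1 := hσ (y - σ y) (L.sub_mem hy (hL σ y hy)) hb
  rw [map_sub, h] at h1
  have h3 : σ y - y - (y - σ y) = -(2 * (y - σ y)) := by ring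
  rw [h3, norm_neg, norm_mul, h2, one_mul] at h1
  exact lt_irrefl _ h1

lemma lt_one_trans {a b c : Cl} (h1 : ‖a - b‖ < 1) (h2 : ‖b - c‖ < 1) : ‖a - c‖ < 1 := by
  have : a - c = (a - b) + (b - c) := by ring
  rw [this]
  exact (IsUltrametricDist.norm_add_le_max _ _).trans_lt (max_lt h1 h2)

lemma mul_congr_lt {a b c d : Cl} (hb : ‖b‖ ≤ 1) (hc : ‖c‖ ≤ 1) (h1 : ‖a - b‖ < 1)
    (h2 : ‖c - d‖ < 1) : ‖a * c - b * d‖ < 1 := by
  have h3 : a * c - b * d = (a - b) * c + b * (c - d) := by ring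
  rw [h3]
  refine (IsUltrametricDist.norm_add_le_max _ _).trans_lt (max_lt ?_ ?_)
  · rw [norm_mul]
    exact mul_lt_one_of_nonneg_of_lt_one_left (norm_nonneg _) h1 hc
  · rw [norm_mul]
    exact mul_lt_one_of_nonneg_of_lt_one_right hb (norm_nonneg _) h2

lemma pow_congr_lt {a b : Cl} (ha : ‖a‖ ≤ 1) (hb : ‖b‖ ≤ 1) (h : ‖a - b‖ < 1) (n : ℕ) :
    ‖a ^ n - b ^ n‖ < 1 := by
  induction n with
  | zero => rw [pow_zero, pow_zero, sub_self, norm_zero]; exact one_pos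
  | succ n ih =>
    rw [pow_succ, pow_succ]
    refine mul_congr_lt ?_ ha ih h
    rw [norm_pow]; exact pow_le_one₀ (norm_nonneg _) hb

/-- The action on the residue field is by powers. -/
theorem exists_pow (hiso : ∀ (σ : Cl ≃ₐ[K] Cl) (x : Cl), ‖σ x‖ = ‖x‖)
    (hL : ∀ (σ : Cl ≃ₐ[K] Cl), ∀ y ∈ L, σ y ∈ L)
    (hfin : ∃ T : Set Cl, T.Finite ∧ ∀ y ∈ L, ‖y‖ ≤ 1 → ∃ t ∈ T, ‖y - t‖ < 1)
    (g : Cl ≃ₐ[K] Cl) : ∃ c : ℕ, 0 < c ∧ ∀ y ∈ L, ‖y‖ ≤ 1 → ‖g y - y ^ c‖ < 1 := by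
  classical
  let S : Subgroup (kk Cl)ˣ :=
    { carrier := {u | ∃ y : OO Cl, (y : Cl) ∈ L ∧ res y = (u : kk Cl)}
      one_mem' := ⟨1, L.one_mem, by simp⟩
      mul_mem' := by
        rintro u v ⟨y, hy, hyu⟩ ⟨z, hz, hzv⟩
        refine ⟨y * z, L.mul_mem hy hz, ?_⟩
        rw [map_mul, hyu, hzv, Units.val_mul]
      inv_mem' := by
        rintro u ⟨y, hy, hyu⟩
        have hy1 : ‖(y : Cl)‖ = 1 := by
          rw [← res_ne_zero_iff, hyu]
          exact u.ne_zero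
        have hy0 : (y : Cl) ≠ 0 := fun h => by rw [h, norm_zero] at hy1; exact zero_ne_one hy1
        refine ⟨⟨(y : Cl)⁻¹, by rw [mem_OO, norm_inv, hy1, inv_one]⟩, L.inv_mem hy, ?_⟩
        rw [Units.val_inv_eq_inv_val]
        apply eq_inv_of_mul_eq_one_left
        rw [← hyu, ← map_mul, ← map_one (res (F := Cl))]
        congr 1
        apply Subtype.ext
        exact inv_mul_cancel₀ hy0 }
  have hSfin : Finite S := by
    obtain ⟨T, hT, hTc⟩ := hfin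
    have h1 : ∀ u : S, ∃ y : OO Cl, (y : Cl) ∈ L ∧ res y = ((u : (kk Cl)ˣ) : kk Cl) ∧
        ∃ t ∈ T, ‖(y : Cl) - t‖ < 1 := by
      rintro ⟨u, y, hy, hyu⟩
      exact ⟨y, hy, hyu, hTc _ hy (norm_le_one y)⟩
    choose y hyL hyu t htT hyt using h1
    have := hT.to_subtype
    apply Finite.of_injective (fun u : S => (⟨t u, htT u⟩ : T))
    intro u v huv
    have h2 : t u = t v := congrArg Subtype.val huv
    apply Subtype.ext
    apply Units.ext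
    rw [← hyu u, ← hyu v, res_eq_iff]
    have h3 := hyt u
    have h4 := hyt v
    rw [← h2, norm_sub_rev] at h4
    exact lt_one_trans h3 h4
  have hcyc : IsCyclic S := inferInstance
  obtain ⟨⟨ζ, z, hzL, hzζ⟩, hgen⟩ := hcyc.exists_generator
  have hz1 : ‖(z : Cl)‖ = 1 := by
    rw [← res_ne_zero_iff, hzζ]
    exact ζ.ne_zero
  have key : ∀ y ∈ L, ‖y‖ = 1 → ∃ n : ℕ, 0 < n ∧ ‖y - (z : Cl) ^ n‖ < 1 := by
    intro y hy hy1
    let y' : OO Cl := ⟨y, hy1.le⟩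
    have hu : IsUnit (res y') := by
      rw [isUnit_iff_ne_zero, res_ne_zero_iff]; exact hy1
    let u : S := ⟨hu.unit, y', hy, rfl⟩
    obtain ⟨M, hM0, h1⟩ : ∃ M : ℕ, 0 < M ∧ (⟨ζ, z, hzL, hzζ⟩ : S) ^ M = u := by
      have := hgen u
      rw [← mem_powers_iff_mem_zpowers] at this
      obtain ⟨n, hn⟩ := this
      have hpos : 0 < orderOf (⟨ζ, z, hzL, hzζ⟩ : S) := orderOf_pos _
      refine ⟨n + orderOf (⟨ζ, z, hzL, hzζ⟩ : S), by omega, ?_⟩
      rw [pow_add, pow_orderOf_eq_one, mul_one]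
      exact hn
    refine ⟨M, hM0, ?_⟩
    have h3 : ζ ^ M = hu.unit := congrArg Subtype.val h1
    have h4 : res (z ^ M) = res y' := by
      rw [map_pow, hzζ, ← Units.val_pow_eq_pow_val, h3]
      exact hu.unit_spec
    rw [eq_comm, res_eq_iff] at h4
    exact h4
  obtain ⟨c, hc0, hc⟩ := key (g z) (hL g _ hzL) (by rw [hiso]; exact hz1)
  refine ⟨c, hc0, fun y hy hy1 => ?_⟩
  rcases lt_or_eq_of_le hy1 with hlt | heq
  · have h1 : g y - y ^ c = (g y - 0) + (0 - y ^ c) := by ring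
    rw [h1]
    refine (IsUltrametricDist.norm_add_le_max _ _).trans_lt (max_lt ?_ ?_)
    · rw [sub_zero, hiso]; exact hlt
    · rw [zero_sub, norm_neg, norm_pow]
      exact pow_lt_one₀ (norm_nonneg _) hlt hc0.ne'
  · obtain ⟨n, _, hn⟩ := key y hy heq
    have h1 : ‖g y - (g z) ^ n‖ < 1 := by
      rw [← map_pow, ← map_sub, hiso]; exact hn
    have hgz : ‖g (z : Cl)‖ ≤ 1 := by rw [hiso]; exact hz1.le
    have hzc : ‖(z : Cl) ^ c‖ ≤ 1 := by rw [norm_pow, hz1, one_pow]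
    have h2 : ‖(g z) ^ n - ((z : Cl) ^ c) ^ n‖ < 1 := pow_congr_lt hgz hzc hc n
    have h3 : ‖y ^ c - ((z : Cl) ^ n) ^ c‖ < 1 :=
      pow_congr_lt heq.le (by rw [norm_pow, hz1, one_pow]) hn c
    have h4 : ((z : Cl) ^ n) ^ c = ((z : Cl) ^ c) ^ n := by rw [← pow_mul, ← pow_mul, mul_comm]
    rw [h4, norm_sub_rev] at h3
    exact lt_one_trans (lt_one_trans h1 h2) h3

/-- The quotient by the inertia group is commutative. -/
lemma comm_mem_Iw (hiso : ∀ (σ : Cl ≃ₐ[K] Cl) (x : Cl), ‖σ x‖ = ‖x‖)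
    (hL : ∀ (σ : Cl ≃ₐ[K] Cl), ∀ y ∈ L, σ y ∈ L)
    (hfin : ∃ T : Set Cl, T.Finite ∧ ∀ y ∈ L, ‖y‖ ≤ 1 → ∃ t ∈ T, ‖y - t‖ < 1)
    (g h : Cl ≃ₐ[K] Cl) {y : Cl} (hy : y ∈ L) (hy1 : ‖y‖ ≤ 1) :
    ‖g (h y) - h (g y)‖ < 1 := by
  obtain ⟨c, hc0, hc⟩ := exists_pow hiso hL hfin g
  obtain ⟨d, hd0, hd⟩ := exists_pow hiso hL hfin h
  have hgy : ‖g y‖ ≤ 1 := by rw [hiso]; exact hy1
  have hhy : ‖h y‖ ≤ 1 := by rw [hiso]; exact hy1
  have hyc : ‖y ^ c‖ ≤ 1 := by rw [norm_pow]; exact pow_le_one₀ (norm_nonneg _) hy1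
  have hyd : ‖y ^ d‖ ≤ 1 := by rw [norm_pow]; exact pow_le_one₀ (norm_nonneg _) hy1
  have h1 : ‖g (h y) - (g y) ^ d‖ < 1 := by
    rw [← map_pow, ← map_sub, hiso]; exact hd y hy hy1
  have h2 : ‖(g y) ^ d - (y ^ c) ^ d‖ < 1 := pow_congr_lt hgy hyc (hc y hy hy1) d
  have h3 : ‖h (g y) - (h y) ^ c‖ < 1 := by
    rw [← map_pow, ← map_sub, hiso]; exact hc y hy hy1
  have h4 : ‖(h y) ^ c - (y ^ d) ^ c‖ < 1 := pow_congr_lt hhy hyd (hd y hy hy1) c
  have h5 : (y ^ d) ^ c = (y ^ c) ^ d := by rw [← pow_mul, ← pow_mul, mul_comm]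
  rw [h5] at h4
  have h6 := lt_one_trans h3 h4
  rw [norm_sub_rev] at h6
  exact lt_one_trans (lt_one_trans h1 h2) h6

lemma comm_mem_Iw'
    (hfin : ∃ T : Set Cl, T.Finite ∧ ∀ y ∈ L, ‖y‖ ≤ 1 → ∃ t ∈ T, ‖y - t‖ < 1)
    (g h : Cl ≃ₐ[K] Cl) : g * h * g⁻¹ * h⁻¹ ∈ Iw hiso L hL := by
  rw [mem_Iw]
  intro y hy hy1
  have h1 := comm_mem_Iw hiso hL hfin g h (y := g⁻¹ (h⁻¹ y))
    (hL _ _ (hL _ _ hy)) (by rw [hiso, hiso]; exact hy1)
  have h2 : h (g (g⁻¹ (h⁻¹ y))) = y := by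
    rw [← AlgEquiv.mul_apply g, mul_inv_cancel, AlgEquiv.one_apply, ← AlgEquiv.mul_apply,
      mul_inv_cancel, AlgEquiv.one_apply]
  rw [h2] at h1
  exact h1

/-- Conjugation on the tame quotient of the inertia group is by powers. -/
lemma conj_mem_Pw
    (hfin : ∃ T : Set Cl, T.Finite ∧ ∀ y ∈ L, ‖y‖ ≤ 1 → ∃ t ∈ T, ‖y - t‖ < 1)
    (g : Cl ≃ₐ[K] Cl) {σ : Cl ≃ₐ[K] Cl} (hσ : σ ∈ Iw hiso L hL) :
    ∃ c : ℕ, g * σ * g⁻¹ * (σ ^ c)⁻¹ ∈ Pw hiso L hL := by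
  obtain ⟨c, hc0, hc⟩ := exists_pow hiso hL hfin g
  refine ⟨c, ?_⟩
  rw [mem_Pw]
  have key : ∀ z ∈ L, z ≠ 0 → ‖g (σ (g⁻¹ z)) / z - (σ ^ c) z / z‖ < 1 := by
    intro z hz hz0
    set u : Cl := σ z / z with hu
    have huL : u ∈ L := L.div_mem (hL _ _ hz) hz
    have hzn : ‖z‖ ≠ 0 := norm_ne_zero_iff.mpr hz0
    have hu1 : ‖u‖ = 1 := by rw [hu, norm_div, hiso, div_self hzn]
    -- powers of `σ`
    have h1 : ∀ n : ℕ, ‖(σ ^ n) z / z - u ^ n‖ < 1 := by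
      intro n
      induction n with
      | zero =>
        rw [pow_zero, pow_zero, AlgEquiv.one_apply, div_self hz0, sub_self, norm_zero]
        exact one_pos
      | succ n ih =>
        have hv : (σ ^ n) z / z ∈ L := L.div_mem (hL _ _ hz) hz
        have hv1 : ‖(σ ^ n) z / z‖ ≤ 1 := by rw [norm_div, hiso, div_self hzn]
        have h2 := hσ _ hv hv1
        have h3 : (σ ^ (n + 1)) z / z = σ ((σ ^ n) z / z) * u := by
          rw [pow_succ', AlgEquiv.mul_apply, map_div₀, hu]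
          have : σ z ≠ 0 := fun h => hz0 (σ.injective (by rw [h, map_zero]))
          field_simp
        rw [h3, pow_succ]
        have h4 := lt_one_trans h2 ih
        refine mul_congr_lt ?_ hu1.le h4 (by rw [sub_self, norm_zero]; exact one_pos)
        rw [norm_pow, hu1, one_pow]
    -- the conjugate
    set y : Cl := g⁻¹ z with hy
    have hgy : g y = z := by
      rw [hy, ← AlgEquiv.mul_apply, mul_inv_cancel, AlgEquiv.one_apply]
    have hyL : y ∈ L := hL _ _ hz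
    have hy0 : y ≠ 0 := fun h => hz0 (by rw [← hgy, h, map_zero])
    have hyn : ‖y‖ = ‖z‖ := by rw [hy, hiso]
    set w : Cl := y / z with hw
    have hwL : w ∈ L := L.div_mem hyL hz
    have hw1 : ‖w‖ = 1 := by rw [hw, norm_div, hyn, div_self hzn]
    have hw0 : w ≠ 0 := div_ne_zero hy0 hz0
    have h5 : ‖σ y / y - u‖ < 1 := by
      have h6 : σ y / y = u * (σ w / w) := by
        rw [hw, hu, map_div₀]
        have : σ z ≠ 0 := fun h => hz0 (σ.injective (by rw [h, map_zero]))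
        field_simp
      have h7 : σ y / y - u = u * ((σ w - w) / w) := by
        rw [h6, sub_div, div_self hw0]; ring
      rw [h7, norm_mul, hu1, one_mul, norm_div, hw1, div_one]
      exact hσ w hwL hw1.le
    have h8 : g (σ y) / z = g (σ y / y) := by rw [map_div₀, hgy]
    rw [h8]
    have h9 : ‖g (σ y / y) - g u‖ < 1 := by rw [← map_sub, hiso]; exact h5
    have h10 := hc u huL hu1.le
    have h11 := h1 c
    rw [norm_sub_rev] at h11
    exact lt_one_trans (lt_one_trans h9 h10) h11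
  intro y hy hy0
  set z : Cl := (σ ^ c)⁻¹ y with hz
  have hzL : z ∈ L := hL _ _ hy
  have hz0 : z ≠ 0 := fun h => hy0 ((σ ^ c)⁻¹.injective (by rw [← hz, h, map_zero]))
  have hσz : (σ ^ c) z = y := by
    rw [hz, ← AlgEquiv.mul_apply, mul_inv_cancel, AlgEquiv.one_apply]
  have h1 := key z hzL hz0
  rw [hσz, ← sub_div, norm_div] at h1
  have hzn : ‖z‖ = ‖y‖ := by rw [hz, hiso]
  rw [hzn, div_lt_one (norm_pos_iff.mpr hy0)] at h1
  exact h1

end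

end Pool.Agent.Lib.MP_12adaf_nt
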