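import Mathlib
import Pool.Agent.Lib.MP_12adaf_nt.TameGal

/-!
# Odd partitions or involutions on orbits of the Galois group
-/

namespace Pool.Agent.Lib.MP_12adaf_nt

set_option linter.unusedSectionVars false
set_option linter.unusedVariables false
set_option autoImplicit false

open Polynomial

section

variable {G X : Type*} [Group G] [MulAction G X]

lemma odd_orbit_sub {x : X} (hX : (MulAction.orbit G x).Finite) (N : Subgroup G)
    (h : ∀ a ∈ N, (∀ y ∈ MulAction.orbit G x, a • a • y = y) →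
      ∀ y ∈ MulAction.orbit G x, a • y = y) {y : X} (hy : y ∈ MulAction.orbit G x) :
    Odd (Nat.card (MulAction.orbit N y)) := by
  have hfin : Finite (MulAction.orbit G x) := hX.to_subtype
  have h1 := odd_orbit (A := N) (O := MulAction.orbit G x) (by
    intro a ha z
    apply Subtype.ext
    refine h a a.2 ?_ z z.2
    intro y hy
    have := congrArg Subtype.val (ha ⟨y, hy⟩)
    exact this) ⟨y, hy⟩
  have h2 : MulAction.orbit N y = Subtype.val '' (MulAction.orbit N (⟨y, hy⟩ :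
      MulAction.orbit G x)) := by
    ext z
    constructor
    · rintro ⟨a, rfl⟩
      exact ⟨a • ⟨y, hy⟩, ⟨a, rfl⟩, rfl⟩
    · rintro ⟨_, ⟨a, rfl⟩, rfl⟩
      exact ⟨a, rfl⟩
  rw [h2, Nat.card_image_of_injective Subtype.val_injective]
  exact h1

/-- A normal subgroup fixing one point of an orbit acts trivially on it. -/
lemma trivial_of_normal {x : X} {N : Subgroup G} (hN : N.Normal) (h : ∀ a ∈ N, a • x = x) :
    ∀ a ∈ N, ∀ y ∈ MulAction.orbit G x, a • y = y := by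
  rintro a ha _ ⟨g, rfl⟩
  have h1 : g⁻¹ * a * g ∈ N := by
    have := hN.conj_mem a ha g⁻¹
    rwa [inv_inv] at this
  have h2 := h _ h1
  dsimp only
  calc a • g • x = g • (g⁻¹ * a * g) • x := by
        rw [← mul_smul, ← mul_smul]; congr 1; group
    _ = g • x := by rw [h2]

/-- A commuting involution acting nontrivially has no fixed point. -/
lemma involution_of_comm {x : X} {τ : G}
    (hc : ∀ (g : G), ∀ y ∈ MulAction.orbit G x, g • τ • y = τ • g • y)
    (h1 : ∀ y ∈ MulAction.orbit G x, τ • τ • y = y)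
    (h2 : ∃ y ∈ MulAction.orbit G x, τ • y ≠ y) :
    ∀ y ∈ MulAction.orbit G x, τ • τ • y = y ∧ τ • y ≠ y ∧ ∀ g : G, g • τ • y = τ • g • y := by
  intro y hy
  refine ⟨h1 y hy, ?_, fun g => hc g y hy⟩
  intro hy'
  obtain ⟨z, hz, hz'⟩ := h2
  obtain ⟨g, hg⟩ : ∃ g : G, g • y = z := by
    obtain ⟨a, rfl⟩ := hy
    obtain ⟨b, rfl⟩ := hz
    exact ⟨b * a⁻¹, by dsimp only; rw [← mul_smul]; congr 1; group⟩
  apply hz'
  rw [← hg, ← hc g y hy, hy']

theorem group_trichotomy {x : X} (hX : (MulAction.orbit G x).Finite) {P I : Subgroup G}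
    (hP : P.Normal) (hI : I.Normal)
    (hP2 : ∀ a ∈ P, (∀ y ∈ MulAction.orbit G x, a • a • y = y) →
      ∀ y ∈ MulAction.orbit G x, a • y = y)
    (hconj : ∀ (g : G), ∀ a ∈ I, ∃ c : ℕ, g * a * g⁻¹ * (a ^ c)⁻¹ ∈ P)
    (hcomm : ∀ g h : G, g * h * g⁻¹ * h⁻¹ ∈ I)
    (hnt : ∃ a : G, a • x ≠ x) :
    (∃ N : Subgroup G, N.Normal ∧
      (∀ y ∈ MulAction.orbit G x, Odd (Nat.card (MulAction.orbit N y))) ∧
      ∃ a ∈ N, a • x ≠ x) ∨
    (∃ τ : G, ∀ y ∈ MulAction.orbit G x,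
      τ • τ • y = y ∧ τ • y ≠ y ∧ ∀ g : G, g • τ • y = τ • g • y) := by
  have hmem : ∀ (g : G), ∀ y ∈ MulAction.orbit G x, g • y ∈ MulAction.orbit G x := by
    rintro g _ ⟨a, rfl⟩
    exact ⟨g * a, by dsimp only; rw [mul_smul]⟩
  by_cases h1 : ∃ a ∈ P, a • x ≠ x
  · exact Or.inl ⟨P, hP, fun y hy => odd_orbit_sub hX P hP2 hy, h1⟩
  push Not at h1
  have hPt := trivial_of_normal hP h1
  by_cases h2 : ∃ a ∈ I, a • x ≠ x
  · by_cases h3 : ∃ τ ∈ I, (∀ y ∈ MulAction.orbit G x, τ • τ • y = y) ∧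
        ∃ y ∈ MulAction.orbit G x, τ • y ≠ y
    · right
      obtain ⟨τ, hτ, hττ, hτn⟩ := h3
      refine ⟨τ, involution_of_comm ?_ hττ hτn⟩
      intro g y hy
      obtain ⟨c, hc⟩ := hconj g τ hτ
      have h4 : ∀ z ∈ MulAction.orbit G x, (g * τ * g⁻¹) • z = τ ^ c • z := by
        intro z hz
        have h5 := hPt _ hc (τ ^ c • z) (hmem _ _ hz)
        rw [← mul_smul] at h5
        rw [← h5]
        congr 1; group
      have h5 : ∀ n : ℕ, ∀ z ∈ MulAction.orbit G x, τ ^ (2 * n) • z = z := by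
        intro n z hz
        induction n with
        | zero => simp
        | succ n ih =>
          rw [show 2 * (n + 1) = 2 + 2 * n by ring, pow_add, mul_smul, ih, sq, mul_smul]
          exact hττ z hz
      have h6 : (g * τ * g⁻¹) • (g • y) = g • τ • y := by
        rw [← mul_smul, ← mul_smul]; congr 1; group
      rcases Nat.even_or_odd' c with ⟨n, rfl | rfl⟩
      · exfalso
        obtain ⟨z, hz, hz'⟩ := hτn
        apply hz'
        have h7 := h4 (g • z) (hmem _ _ hz)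
        rw [h5 n _ (hmem _ _ hz)] at h7
        have h8 : (g * τ * g⁻¹) • (g • z) = g • τ • z := by
          rw [← mul_smul, ← mul_smul]; congr 1; group
        rw [h8] at h7
        exact MulAction.injective g h7
      · have h7 := h4 (g • y) (hmem _ _ hy)
        rw [h6, pow_succ', mul_smul, h5 n _ (hmem _ _ hy)] at h7
        exact h7
    · left
      push Not at h3
      exact ⟨I, hI, fun y hy => odd_orbit_sub hX I h3 hy, h2⟩
  push Not at h2
  have hIt := trivial_of_normal hI h2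
  by_cases h3 : ∃ τ : G, (∀ y ∈ MulAction.orbit G x, τ • τ • y = y) ∧
        ∃ y ∈ MulAction.orbit G x, τ • y ≠ y
  · right
    obtain ⟨τ, hττ, hτn⟩ := h3
    refine ⟨τ, involution_of_comm ?_ hττ hτn⟩
    intro g y hy
    have h4 := hIt _ (hcomm g τ) (τ • g • y) (hmem _ _ (hmem _ _ hy))
    rw [← h4, ← mul_smul, ← mul_smul, ← mul_smul]
    congr 1; group
  · left
    push Not at h3
    refine ⟨⊤, inferInstance, fun y hy => odd_orbit_sub hX ⊤ (fun a _ => h3 a) hy, ?_⟩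
    obtain ⟨a, ha⟩ := hnt
    exact ⟨a, Subgroup.mem_top a, ha⟩

end

section

variable {K Cl : Type*} [NontriviallyNormedField K] [NormedField Cl] [NormedAlgebra K Cl]
  [IsUltrametricDist Cl]

/-- Nontrivial Galois orbits over a field with `‖2‖ = 1`: an odd partition or an involution. -/
theorem tame_orbit (h2 : ‖(2 : Cl)‖ = 1) (hiso : ∀ (σ : Cl ≃ₐ[K] Cl) (x : Cl), ‖σ x‖ = ‖x‖)
    {L : IntermediateField K Cl} (hL : ∀ (σ : Cl ≃ₐ[K] Cl), ∀ y ∈ L, σ y ∈ L)
    (hfin : ∃ T : Set Cl, T.Finite ∧ ∀ y ∈ L, ‖y‖ ≤ 1 → ∃ t ∈ T, ‖y - t‖ < 1)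
    {x : Cl} (hx : x ∈ L) (hX : (MulAction.orbit (Cl ≃ₐ[K] Cl) x).Finite)
    (hnt : ∃ a : Cl ≃ₐ[K] Cl, a • x ≠ x) :
    (∃ N : Subgroup (Cl ≃ₐ[K] Cl), N.Normal ∧
      (∀ y ∈ MulAction.orbit (Cl ≃ₐ[K] Cl) x, Odd (Nat.card (MulAction.orbit N y))) ∧
      ∃ a ∈ N, a • x ≠ x) ∨
    (∃ τ : Cl ≃ₐ[K] Cl, ∀ y ∈ MulAction.orbit (Cl ≃ₐ[K] Cl) x,
      τ • τ • y = y ∧ τ • y ≠ y ∧ ∀ g : Cl ≃ₐ[K] Cl, g • τ • y = τ • g • y) := by
  refine group_trichotomy hX (P := Pw hiso L hL) (I := Iw hiso L hL) Pw_normal Iw_normal ?_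
    ?_ ?_ hnt
  · rintro a ha h3 y ⟨g, rfl⟩
    exact Pw_no_inv h2 ha (hL g x hx) (h3 _ ⟨g, rfl⟩)
  · intro g a ha
    exact conj_mem_Pw hfin g ha
  · intro g h
    exact comm_mem_Iw' hfin g h

end

end Pool.Agent.Lib.MP_12adaf_nt
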