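import Mathlib
import Pool.Agent.Lib.MP_12adaf_nt.TameOrbit
import Pool.Agent.Lib.MP_12adaf_nt.OddClasses

/-!
# Reduction to an algebra with an involution
-/

namespace Pool.Agent.Lib.MP_12adaf_nt

set_option linter.unusedSectionVars false
set_option linter.unusedVariables false
set_option autoImplicit false

open Finset Polynomial

section Labels

variable {K Cl : Type*} [Field K] [Infinite K] [Field Cl] [Algebra K Cl] {I : Type*} [Fintype I]
  [DecidableEq I]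

/-- Labels for the classes of a Galois stable equivalence relation. -/
theorem exists_labels {ρ : I → Cl} (hρ : Function.Injective ρ) (s : Setoid I)
    (hs : ∀ (σ : Cl ≃ₐ[K] Cl) (i j k l : I), σ (ρ i) = ρ k → σ (ρ j) = ρ l → s.r i j → s.r k l)
    (hperm : ∀ σ : Cl ≃ₐ[K] Cl, ∃ π : I ≃ I, ∀ i, σ (ρ i) = ρ (π i)) :
    ∃ ζ0 : Quotient s → Cl, Function.Injective ζ0 ∧
      ∀ (σ : Cl ≃ₐ[K] Cl) (i k : I), σ (ρ i) = ρ k →
        σ (ζ0 (Quotient.mk s i)) = ζ0 (Quotient.mk s k) := by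
  classical
  let pol : I → Cl[X] := fun i => ∏ j ∈ univ.filter (fun j => s.r i j), (X - C (ρ j))
  have hpol : ∀ i i', s.r i i' → pol i = pol i' := by
    intro i i' h
    have h1 : univ.filter (fun j => s.r i j) = univ.filter (fun j => s.r i' j) := by
      apply Finset.filter_congr
      intro j _
      exact ⟨fun h2 => s.trans (s.symm h) h2, fun h2 => s.trans h h2⟩
    simp only [pol, h1]
  have hne : ∀ i i', ¬ s.r i i' → pol i - pol i' ≠ 0 := by
    intro i i' h h0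
    have h1 := congrArg (eval (ρ i)) h0
    rw [eval_sub, eval_zero] at h1
    have h2 : (pol i).eval (ρ i) = 0 := by
      simp only [pol, eval_prod, eval_sub, eval_X, eval_C]
      exact Finset.prod_eq_zero (i := i) (by simp) (sub_self _)
    have h3 : (pol i').eval (ρ i) ≠ 0 := by
      simp only [pol, eval_prod, eval_sub, eval_X, eval_C]
      rw [Finset.prod_ne_zero_iff]
      intro j hj
      rw [mem_filter] at hj
      refine sub_ne_zero.mpr fun h4 => h ?_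
      rw [hρ h4]
      exact s.symm hj.2
    rw [h2, zero_sub, neg_eq_zero] at h1
    exact h3 h1
  obtain ⟨c, hc⟩ : ∃ c : K, ∀ i i', ¬ s.r i i' →
      (pol i).eval (algebraMap K Cl c) ≠ (pol i').eval (algebraMap K Cl c) := by
    set Q : Cl[X] := ∏ p ∈ (univ : Finset (I × I)).filter (fun p => ¬ s.r p.1 p.2),
      (pol p.1 - pol p.2) with hQ
    have hQ0 : Q ≠ 0 := by
      rw [hQ, Finset.prod_ne_zero_iff]
      intro p hp
      rw [mem_filter] at hp
      exact hne _ _ hp.2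
    by_contra hcon
    push Not at hcon
    apply hQ0
    apply Polynomial.eq_zero_of_infinite_isRoot
    refine (Set.infinite_range_of_injective (algebraMap K Cl).injective).mono ?_
    rintro _ ⟨c, rfl⟩
    obtain ⟨i, i', h1, h2⟩ := hcon c
    change Q.eval _ = 0
    rw [hQ, eval_prod]
    refine Finset.prod_eq_zero (i := (i, i')) (by simpa using h1) ?_
    rw [eval_sub, h2, sub_self]
  refine ⟨Quotient.lift (fun i => (pol i).eval (algebraMap K Cl c)) fun i i' h => by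
    simp only [hpol i i' h], ?_, ?_⟩
  · rintro ⟨i⟩ ⟨i'⟩ h
    by_contra hne'
    exact hc i i' (fun h1 => hne' (Quotient.sound h1)) h
  · intro σ i k hik
    change σ ((pol i).eval (algebraMap K Cl c)) = (pol k).eval (algebraMap K Cl c)
    obtain ⟨π, hπ⟩ := hperm σ
    simp only [pol, eval_prod, eval_sub, eval_X, eval_C, map_prod, map_sub]
    refine Finset.prod_equiv π ?_ ?_
    · intro j
      simp only [mem_filter, mem_univ, true_and]
      constructor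
      · exact hs σ i j k (π j) hik (hπ j)
      · refine hs σ.symm k (π j) i j ?_ ?_
        · rw [← hik, AlgEquiv.symm_apply_apply]
        · rw [← hπ, AlgEquiv.symm_apply_apply]
    · intro j _
      rw [hπ]
      congr 1
      exact σ.commutes c

end Labels

section Main

variable {K Cl : Type*} [NontriviallyNormedField K] [NormedField Cl]
    [NormedAlgebra K Cl] [IsAlgClosed Cl] [IsGalois K Cl] [CharZero K] [CharZero Cl]

variable (K) in
/-- The orbit of `x` has an odd partition or an involution. -/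
def TriP (x : Cl) : Prop :=
  (∃ N : Subgroup (Cl ≃ₐ[K] Cl), N.Normal ∧
      (∀ y ∈ MulAction.orbit (Cl ≃ₐ[K] Cl) x, Odd (Nat.card (MulAction.orbit N y))) ∧
      ∃ a ∈ N, a • x ≠ x) ∨
    (∃ τ : Cl ≃ₐ[K] Cl, ∀ y ∈ MulAction.orbit (Cl ≃ₐ[K] Cl) x,
      τ • τ • y = y ∧ τ • y ≠ y ∧ ∀ g : Cl ≃ₐ[K] Cl, g • τ • y = τ • g • y)

/-- One reduction step. -/
theorem step_odd (hiso : ∀ (σ : Cl ≃ₐ[K] Cl) (x : Cl), ‖σ x‖ = ‖x‖)
    {I : Type*} [Fintype I] [DecidableEq I] [Nonempty I]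
    {N : ℕ} (hNe : Even N) (hI : Fintype.card I = N) {ρ : I → Cl} (hρ : Function.Injective ρ)
    {F : K[X]} (hF : F.map (algebraMap K Cl) = nod ρ) {i0 : I} {A : Subgroup (Cl ≃ₐ[K] Cl)}
    (hA : A.Normal)
    (hodd : ∀ y ∈ MulAction.orbit (Cl ≃ₐ[K] Cl) (ρ i0), Odd (Nat.card (MulAction.orbit A y)))
    (hnt : ∃ a ∈ A, a • ρ i0 ≠ ρ i0) :
    ∃ (θ : I → Cl) (g : K[X]) (κ : K), Function.Injective θ ∧
      g.map (algebraMap K Cl) = nod θ ∧ Rch N g F κ ∧
      (∀ (σ : Cl ≃ₐ[K] Cl) (i k : I), σ (θ i) = θ k → ∃ σ' : Cl ≃ₐ[K] Cl, σ' (ρ i) = ρ k) ∧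
      ∃ i k, (∃ σ : Cl ≃ₐ[K] Cl, σ (ρ i) = ρ k) ∧ ∀ σ : Cl ≃ₐ[K] Cl, σ (θ i) ≠ θ k := by
  classical
  have hperm : ∀ σ : Cl ≃ₐ[K] Cl, ∃ π : I ≃ I, ∀ i, σ (ρ i) = ρ (π i) := exists_perm hF hρ
  let s : Setoid I :=
    { r := fun i k => i = k ∨ ((∃ g : Cl ≃ₐ[K] Cl, g (ρ i0) = ρ i) ∧ ∃ σ ∈ A, σ (ρ i) = ρ k)
      iseqv := by
        refine ⟨fun i => Or.inl rfl, ?_, ?_⟩
        · rintro i k (rfl | ⟨⟨g, hg⟩, σ, hσ, hik⟩)
          · exact Or.inl rfl
          · refine Or.inr ⟨⟨σ * g, by rw [AlgEquiv.mul_apply, hg, hik]⟩, σ⁻¹, A.inv_mem hσ, ?_⟩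
            rw [← hik, ← AlgEquiv.mul_apply, inv_mul_cancel, AlgEquiv.one_apply]
        · rintro i j k (rfl | ⟨⟨g, hg⟩, σ, hσ, hij⟩) (rfl | ⟨⟨g', hg'⟩, σ', hσ', hjk⟩)
          · exact Or.inl rfl
          · exact Or.inr ⟨⟨g', hg'⟩, σ', hσ', hjk⟩
          · exact Or.inr ⟨⟨g, hg⟩, σ, hσ, hij⟩
          · exact Or.inr ⟨⟨g, hg⟩, σ' * σ, A.mul_mem hσ' hσ, by
              rw [AlgEquiv.mul_apply, hij, hjk]⟩ }
  have hsr : ∀ i k, s.r i k ↔ (i = k ∨ ((∃ g : Cl ≃ₐ[K] Cl, g (ρ i0) = ρ i) ∧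
      ∃ σ ∈ A, σ (ρ i) = ρ k)) := fun i k => Iff.rfl
  have hmk : ∀ i k, Quotient.mk s i = Quotient.mk s k ↔ s.r i k := fun i k => Quotient.eq
  have hs : ∀ (σ : Cl ≃ₐ[K] Cl) (i j k l : I), σ (ρ i) = ρ k → σ (ρ j) = ρ l →
      s.r i j → s.r k l := by
    intro σ i j k l hik hjl h
    rcases (hsr i j).mp h with rfl | ⟨⟨g, hg⟩, τ, hτ, hij⟩
    · exact (hsr k l).mpr (Or.inl (hρ (by rw [← hik, ← hjl])))
    · refine (hsr k l).mpr (Or.inr ⟨⟨σ * g, by rw [AlgEquiv.mul_apply, hg, hik]⟩,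
        σ * τ * σ⁻¹, hA.conj_mem τ hτ σ, ?_⟩)
      rw [← hik, ← hjl, ← hij, AlgEquiv.mul_apply, AlgEquiv.mul_apply, ← AlgEquiv.mul_apply σ⁻¹,
        inv_mul_cancel, AlgEquiv.one_apply]
  obtain ⟨ζ0, hζ0, hζσ⟩ := exists_labels hρ s hs hperm
  have hoddc : ∀ l : Quotient s, Odd (Fintype.card {i // Quotient.mk s i = l}) := by
    rintro ⟨i⟩
    change Odd (Fintype.card {k // Quotient.mk s k = Quotient.mk s i})
    by_cases hi : ∃ g : Cl ≃ₐ[K] Cl, g (ρ i0) = ρ i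
    · have h1 := hodd (ρ i) hi
      have h2 : MulAction.orbit A (ρ i) = ρ '' {k | Quotient.mk s k = Quotient.mk s i} := by
        ext y
        constructor
        · rintro ⟨a, rfl⟩
          obtain ⟨π, hπ⟩ := hperm a.1
          refine ⟨π i, ?_, (hπ i).symm⟩
          change Quotient.mk s (π i) = Quotient.mk s i
          rw [eq_comm, hmk]
          exact Or.inr ⟨hi, a.1, a.2, hπ i⟩
        · rintro ⟨k, hk, rfl⟩
          have hk' : Quotient.mk s k = Quotient.mk s i := hk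
          rw [eq_comm, hmk] at hk'
          rcases hk' with rfl | ⟨_, σ, hσ, h3⟩
          · exact MulAction.mem_orbit_self _
          · exact ⟨⟨σ, hσ⟩, h3⟩
      rw [h2, Nat.card_image_of_injective hρ] at h1
      rw [← Nat.card_eq_fintype_card]
      exact h1
    · have h1 : Fintype.card {k // Quotient.mk s k = Quotient.mk s i} = 1 := by
        rw [Fintype.card_eq_one_iff]
        refine ⟨⟨i, rfl⟩, ?_⟩
        rintro ⟨k, hk⟩
        apply Subtype.ext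
        rw [eq_comm, hmk] at hk
        rcases hk with h2 | ⟨h2, _⟩
        · exact h2.symm
        · exact absurd h2 hi
      rw [h1]; exact odd_one
  have hG : ∀ (σ : Cl ≃ₐ[K] Cl) (i : I), ∃ k, σ (ρ i) = ρ k ∧
      σ (ζ0 (Quotient.mk s i)) = ζ0 (Quotient.mk s k) := by
    intro σ i
    obtain ⟨π, hπ⟩ := hperm σ
    exact ⟨π i, hπ i, hζσ σ _ _ (hπ i)⟩
  obtain ⟨θ, g, κ, hθ, hg, hR, h1, h2⟩ := rch_of_odd_classes hiso hNe hI
    (l' := fun i => Quotient.mk s i) hoddc hζ0 hρ hF hG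
  refine ⟨θ, g, κ, hθ, hg, hR, ?_, ?_⟩
  · intro σ i k h
    have h3 := h1 σ i k h
    obtain ⟨k', hk', h4⟩ := hG σ i
    rw [h4] at h3
    have h5 := (hmk _ _).mp (hζ0 h3)
    rcases (hsr _ _).mp h5 with rfl | ⟨_, τ, _, h6⟩
    · exact ⟨σ, hk'⟩
    · exact ⟨τ * σ, by rw [AlgEquiv.mul_apply, hk', h6]⟩
  · obtain ⟨a, ha, ha'⟩ := hnt
    obtain ⟨π, hπ⟩ := hperm a
    have h3 : 1 < Fintype.card {i // Quotient.mk s i = Quotient.mk s i0} := by
      rw [Fintype.one_lt_card_iff]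
      refine ⟨⟨i0, rfl⟩, ⟨π i0, ?_⟩, ?_⟩
      · rw [eq_comm, hmk]
        exact Or.inr ⟨⟨1, rfl⟩, a, ha, hπ i0⟩
      · intro h
        apply ha'
        change a (ρ i0) = ρ i0
        rw [hπ]
        exact congrArg ρ (congrArg Subtype.val h).symm
    obtain ⟨i, k, hi, hk, hik⟩ := h2 _ h3
    refine ⟨i, k, ?_, hik⟩
    have h4 : Quotient.mk s i = Quotient.mk s k := hi.trans hk.symm
    rcases (hsr _ _).mp ((hmk _ _).mp h4) with rfl | ⟨_, τ, _, h6⟩
    · exact ⟨1, rfl⟩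
    · exact ⟨τ, h6⟩

/-- A finite type of even cardinality has an involution without fixed points. -/
lemma exists_involution {R : Type*} [Fintype R] (h : Even (Fintype.card R)) :
    ∃ ν : R → R, (∀ i, ν (ν i) = i) ∧ ∀ i, ν i ≠ i := by
  classical
  obtain ⟨r, hr⟩ := h
  have e : R ≃ Fin r ⊕ Fin r := Fintype.equivOfCardEq (by
    rw [Fintype.card_sum, Fintype.card_fin, hr])
  refine ⟨fun i => e.symm (e i).swap, fun i => ?_, fun i h => ?_⟩
  · simp
  · have h1 : (e i).swap = e i := by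
      have := congrArg e h
      rwa [Equiv.apply_symm_apply] at this
    rcases hi : e i with a | a
    · rw [hi] at h1; exact absurd h1 (by simp)
    · rw [hi] at h1; exact absurd h1 (by simp)

/-- If every nontrivial orbit has a commuting involution, there is one on the set of roots. -/
theorem locR_of_orbit_involutions {m : ℕ} {I : Type*} [Fintype I] [DecidableEq I]
    (hI : Fintype.card I = 2 * m) {ρ : I → Cl}
    (hρ : Function.Injective ρ) {F : K[X]} (hF : F.map (algebraMap K Cl) = nod ρ)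
    (h : ∀ i, (∃ a : Cl ≃ₐ[K] Cl, a • ρ i ≠ ρ i) →
      ∃ τ : Cl ≃ₐ[K] Cl, ∀ y ∈ MulAction.orbit (Cl ≃ₐ[K] Cl) (ρ i),
      τ • τ • y = y ∧ τ • y ≠ y ∧ ∀ g : Cl ≃ₐ[K] Cl, g • τ • y = τ • g • y) :
    LocR m F := by
  classical
  have hperm : ∀ σ : Cl ≃ₐ[K] Cl, ∃ π : I ≃ I, ∀ i, σ (ρ i) = ρ (π i) := exists_perm hF hρ
  -- representatives of the orbits
  let s : Setoid I :=
    { r := fun i k => ∃ g : Cl ≃ₐ[K] Cl, g (ρ i) = ρ k
      iseqv := by
        refine ⟨fun i => ⟨1, rfl⟩, ?_, ?_⟩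
        · rintro i k ⟨g, hg⟩
          exact ⟨g⁻¹, by rw [← hg, ← AlgEquiv.mul_apply, inv_mul_cancel, AlgEquiv.one_apply]⟩
        · rintro i j k ⟨g, hg⟩ ⟨g', hg'⟩
          exact ⟨g' * g, by rw [AlgEquiv.mul_apply, hg, hg']⟩ }
  let rep : I → I := fun i => (Quotient.mk s i).out
  have hrep : ∀ i, ∃ g : Cl ≃ₐ[K] Cl, g (ρ (rep i)) = ρ i := by
    intro i
    have h1 : Quotient.mk s (rep i) = Quotient.mk s i := Quotient.out_eq _
    exact Quotient.eq.mp h1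
  have hrep' : ∀ i k, (∃ g : Cl ≃ₐ[K] Cl, g (ρ i) = ρ k) → rep i = rep k := by
    intro i k hik
    have h1 : Quotient.mk s i = Quotient.mk s k := Quotient.eq.mpr hik
    simp only [rep, h1]
  let nr : I → Prop := fun i => ∃ a : Cl ≃ₐ[K] Cl, a • ρ i ≠ ρ i
  have hnr : ∀ i k, (∃ g : Cl ≃ₐ[K] Cl, g (ρ i) = ρ k) → nr i → nr k := by
    rintro i k ⟨g, hg⟩ ⟨a, ha⟩
    refine ⟨g * a * g⁻¹, fun h1 => ha ?_⟩
    have h2 : (g * a * g⁻¹) (ρ k) = ρ k := h1
    rw [← hg, AlgEquiv.mul_apply, AlgEquiv.mul_apply, ← AlgEquiv.mul_apply g⁻¹, inv_mul_cancel,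
      AlgEquiv.one_apply] at h2
    exact g.injective h2
  have hτ : ∀ i, ∃ τ : Cl ≃ₐ[K] Cl, nr i → ∀ y ∈ MulAction.orbit (Cl ≃ₐ[K] Cl) (ρ i),
      τ • τ • y = y ∧ τ • y ≠ y ∧ ∀ g : Cl ≃ₐ[K] Cl, g • τ • y = τ • g • y := by
    intro i
    by_cases hi : nr i
    · obtain ⟨τ, hτ⟩ := h i hi
      exact ⟨τ, fun _ => hτ⟩
    · exact ⟨1, fun h1 => absurd h1 hi⟩
  choose τ0 hτ0 using hτ
  have hτ1 : ∀ i, nr i → (τ0 (rep i) (τ0 (rep i) (ρ i)) = ρ i ∧ τ0 (rep i) (ρ i) ≠ ρ i ∧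
      ∀ g : Cl ≃ₐ[K] Cl, g (τ0 (rep i) (ρ i)) = τ0 (rep i) (g (ρ i))) := by
    intro i hi
    have h1 : nr (rep i) := by
      obtain ⟨g, hg⟩ := hrep i
      exact hnr i (rep i) ⟨g⁻¹, by
        rw [← hg, ← AlgEquiv.mul_apply, inv_mul_cancel, AlgEquiv.one_apply]⟩ hi
    exact hτ0 (rep i) h1 (ρ i) (hrep i)
  have hν0 : ∀ i, ∃ k, nr i → τ0 (rep i) (ρ i) = ρ k := by
    intro i
    obtain ⟨π, hπ⟩ := hperm (τ0 (rep i))
    exact ⟨π i, fun _ => hπ i⟩
  choose ν0 hν0 using hν0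
  have hν0nr : ∀ i, nr i → nr (ν0 i) := fun i hi => hnr i _ ⟨_, hν0 i hi⟩ hi
  have hν0rep : ∀ i, nr i → rep (ν0 i) = rep i := fun i hi =>
    (hrep' i _ ⟨_, hν0 i hi⟩).symm
  have hν0inv : ∀ i, nr i → ν0 (ν0 i) = i := by
    intro i hi
    apply hρ
    rw [← hν0 _ (hν0nr i hi), hν0rep i hi, ← hν0 i hi]
    exact (hτ1 i hi).1
  have hν0ne : ∀ i, nr i → ν0 i ≠ i := by
    intro i hi h1
    apply (hτ1 i hi).2.1
    rw [hν0 i hi, h1]
  -- the rational roots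
  have hcard : Even (Fintype.card {i // ¬ nr i}) := by
    let f : I → I := fun i => if nr i then ν0 i else i
    have hf : ∀ i, f (f i) = i := by
      intro i
      by_cases hi : nr i
      · simp only [f, if_pos hi, if_pos (hν0nr i hi)]
        exact hν0inv i hi
      · simp only [f, if_neg hi]
    let π : Equiv.Perm I := ⟨f, f, hf, hf⟩
    have hπ : π ^ 2 = 1 := by
      ext i
      rw [sq]
      exact hf i
    have h1 := Equiv.Perm.two_dvd_card_support hπ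
    have h2 : π.support = univ.filter nr := by
      ext i
      rw [Equiv.Perm.mem_support, mem_filter]
      change f i ≠ i ↔ _
      by_cases hi : nr i
      · simp only [f, if_pos hi, mem_univ, true_and, iff_true, hi]
        exact hν0ne i hi
      · simp only [f, if_neg hi]
        simp [hi]
    rw [h2] at h1
    have h3 := Finset.card_filter_add_card_filter_not (s := (univ : Finset I)) nr
    rw [Finset.card_univ, hI] at h3
    rw [Fintype.card_subtype]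
    obtain ⟨a, ha⟩ := h1
    exact ⟨m - a, by omega⟩
  obtain ⟨μ, hμ1, hμ2⟩ := exists_involution hcard
  let ν : I → I := fun i => if hi : nr i then ν0 i else (μ ⟨i, hi⟩).1
  have hνp : ∀ i, nr i → ν i = ν0 i := fun i hi => dif_pos hi
  have hνn : ∀ i (hi : ¬ nr i), ν i = (μ ⟨i, hi⟩).1 := fun i hi => dif_neg hi
  have hνν : ∀ i, ν (ν i) = i := by
    intro i
    by_cases hi : nr i
    · rw [hνp i hi, hνp _ (hν0nr i hi), hν0inv i hi]
    · rw [hνn i hi, hνn _ (μ ⟨i, hi⟩).2]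
      exact congrArg Subtype.val (hμ1 ⟨i, hi⟩)
  refine locR_of_involution hI hρ hF ⟨ν, ν, hνν, hνν⟩ hνν ?_ ?_
  · intro i h1
    change ν i = i at h1
    by_cases hi : nr i
    · rw [hνp i hi] at h1
      exact hν0ne i hi h1
    · rw [hνn i hi] at h1
      exact hμ2 ⟨i, hi⟩ (Subtype.ext h1)
  · intro σ i
    change ∃ k, σ (ρ i) = ρ k ∧ σ (ρ (ν i)) = ρ (ν k)
    by_cases hi : nr i
    · obtain ⟨π, hπ⟩ := hperm σ
      refine ⟨π i, hπ i, ?_⟩
      have h1 : nr (π i) := hnr i _ ⟨σ, hπ i⟩ hi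
      have h2 : rep (π i) = rep i := (hrep' i _ ⟨σ, hπ i⟩).symm
      rw [hνp i hi, hνp _ h1, ← hν0 i hi, ← hν0 _ h1, h2, (hτ1 i hi).2.2, hπ]
    · have h1 : ∀ k, ¬ nr k → σ (ρ k) = ρ k := by
        intro k hk
        by_contra h2
        exact hk ⟨σ, h2⟩
      refine ⟨i, h1 i hi, ?_⟩
      rw [hνn i hi]
      exact h1 _ (μ ⟨i, hi⟩).2

/-- **Reduction to an algebra with an involution.** -/
theorem locR_of_tri (hiso : ∀ (σ : Cl ≃ₐ[K] Cl) (x : Cl), ‖σ x‖ = ‖x‖)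
    (htri : ∀ x : Cl, (∃ a : Cl ≃ₐ[K] Cl, a • x ≠ x) → TriP K x) {m : ℕ} (hm : 0 < m)
    {F : K[X]} (hFm : F.Monic) (hFd : F.natDegree = 2 * m) (hFs : F.Separable) : LocR m F := by
  classical
  have hne : Nonempty (Fin (2 * m)) := ⟨⟨0, by omega⟩⟩
  have key : ∀ (M : ℕ) (F : K[X]) (ρ : Fin (2 * m) → Cl), Function.Injective ρ →
      F.map (algebraMap K Cl) = nod ρ →
      (univ.filter fun p : Fin (2 * m) × Fin (2 * m) =>
        ∃ σ : Cl ≃ₐ[K] Cl, σ (ρ p.1) = ρ p.2).card = M → LocR m F := by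
    intro M
    induction M using Nat.strong_induction_on with
    | _ M ih =>
    intro F ρ hρ hF hM
    by_cases hB : ∃ (i0 : Fin (2 * m)) (A : Subgroup (Cl ≃ₐ[K] Cl)), A.Normal ∧
        (∀ y ∈ MulAction.orbit (Cl ≃ₐ[K] Cl) (ρ i0), Odd (Nat.card (MulAction.orbit A y))) ∧
        ∃ a ∈ A, a • ρ i0 ≠ ρ i0
    · obtain ⟨i0, A, hA, hodd, hnt⟩ := hB
      obtain ⟨θ, g, κ, hθ, hg, hR, h1, i, k, h2, h3⟩ := step_odd hiso (even_two_mul m)
        (Fintype.card_fin _) hρ hF hA hodd hnt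
      have hlt : (univ.filter fun p : Fin (2 * m) × Fin (2 * m) =>
          ∃ σ : Cl ≃ₐ[K] Cl, σ (θ p.1) = θ p.2).card < M := by
        rw [← hM]
        apply Finset.card_lt_card
        rw [Finset.ssubset_iff_of_subset]
        · refine ⟨(i, k), ?_, ?_⟩
          · rw [mem_filter]; exact ⟨mem_univ _, h2⟩
          · rw [mem_filter]
            rintro ⟨_, σ, hσ⟩
            exact h3 σ hσ
        · intro p hp
          rw [mem_filter] at hp ⊢
          obtain ⟨_, σ, hσ⟩ := hp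
          exact ⟨mem_univ _, h1 σ _ _ hσ⟩
      obtain ⟨f, κ', a1, a2, a3, a4, a5⟩ := ih _ hlt g θ hθ hg rfl
      exact ⟨f, _, a1, a2, a3, a4, a5.trans hR⟩
    · refine locR_of_orbit_involutions (Fintype.card_fin _) hρ hF fun i hi => ?_
      rcases htri _ hi with ⟨A, hA⟩ | hτ
      · exact absurd ⟨i, A, hA⟩ hB
      · exact hτ
  obtain ⟨ρ, hρ, hF⟩ := exists_nod (algebraMap K Cl) hFm hFd hFs
  exact key _ F ρ hρ hF rfl

end Main

end Pool.Agent.Lib.MP_12adaf_nt
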