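import Mathlib
import Pool.Agent.Lib.MP_12adaf_nt.TameRed
import Pool.Agent.Lib.MP_12adaf_nt.OMul2
import Pool.Agent.Lib.MP_12adaf_nt.OddNF

/-!
# Local results: real, complex and nonarchimedean fields with `‖2‖ = 1`
-/

namespace Pool.Agent.Lib.MP_12adaf_nt

set_option linter.unusedSectionVars false
set_option linter.unusedVariables false
set_option autoImplicit false

open Finset Polynomial

universe u

/-- The algebraic closure with its spectral norm. -/
theorem exists_normedAlgClosure_ultra (K : Type u) [NontriviallyNormedField K]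
    [IsUltrametricDist K] [CompleteSpace K] [CharZero K] :
    ∃ (Cl : Type u) (_ : NormedField Cl) (_ : NormedAlgebra K Cl), IsAlgClosed Cl ∧
      IsGalois K Cl ∧ CharZero Cl ∧ IsUltrametricDist Cl ∧
      ∀ (σ : Cl ≃ₐ[K] Cl) (x : Cl), ‖σ x‖ = ‖x‖ := by
  let i1 : NormedField (AlgebraicClosure K) := spectralNorm.normedField K (AlgebraicClosure K)
  let i2 : NormedAlgebra K (AlgebraicClosure K) := spectralNorm.normedAlgebra K _
  refine ⟨AlgebraicClosure K, i1, i2, ?_, ?_, ?_, ?_, ?_⟩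
  · exact AlgebraicClosure.isAlgClosed K
  · exact IsAlgClosure.isGalois K (AlgebraicClosure K)
  · exact AlgebraicClosure.instCharZero K
  · exact IsUltrametricDist.isUltrametricDist_of_isNonarchimedean_norm
      isNonarchimedean_spectralNorm
  · intro σ x
    exact (spectralNorm_eq_of_equiv σ x).symm

section

variable {K Cl : Type*} [NontriviallyNormedField K] [NormedField Cl]
    [NormedAlgebra K Cl] [IsGalois K Cl]

lemma finite_orbit (x : Cl) : (MulAction.orbit (Cl ≃ₐ[K] Cl) x).Finite := by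
  have hx : IsIntegral K x := Algebra.IsIntegral.isIntegral x
  refine ((minpoly K x).rootSet_finite Cl).subset ?_
  rintro _ ⟨σ, rfl⟩
  rw [mem_rootSet]
  refine ⟨minpoly.ne_zero hx, ?_⟩
  change aeval (σ x) (minpoly K x) = 0
  have h1 : aeval (σ x) (minpoly K x) = σ (aeval x (minpoly K x)) :=
    aeval_algHom_apply (σ : Cl →ₐ[K] Cl) x _
  rw [h1, minpoly.aeval, map_zero]

/-- A finite extension stable under the Galois group containing a given element, with finite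
residue field. -/
lemma exists_stable [ProperSpace K] (x : Cl) : ∃ L : IntermediateField K Cl, x ∈ L ∧
    (∀ (σ : Cl ≃ₐ[K] Cl), ∀ y ∈ L, σ y ∈ L) ∧
    ∃ T : Set Cl, T.Finite ∧ ∀ y ∈ L, ‖y‖ ≤ 1 → ∃ t ∈ T, ‖y - t‖ < 1 := by
  have hfin := finite_orbit (K := K) x
  set X : Set Cl := MulAction.orbit (Cl ≃ₐ[K] Cl) x with hX
  set L : IntermediateField K Cl := IntermediateField.adjoin K X with hL
  have hXL : ∀ y ∈ X, y ∈ L := fun y hy => IntermediateField.subset_adjoin K X hy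
  have hstab : ∀ (σ : Cl ≃ₐ[K] Cl), ∀ y ∈ L, σ y ∈ L := by
    intro σ y hy
    have h1 : L.map (σ : Cl →ₐ[K] Cl) ≤ L := by
      rw [hL, IntermediateField.adjoin_map]
      apply IntermediateField.adjoin.mono
      rintro _ ⟨_, ⟨τ, rfl⟩, rfl⟩
      exact ⟨σ * τ, rfl⟩
    exact h1 ⟨y, hy, rfl⟩
  have hfd : FiniteDimensional K L := by
    have : Finite X := hfin.to_subtype
    apply IntermediateField.finiteDimensional_adjoin
    intro y _
    exact Algebra.IsIntegral.isIntegral y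
  let S : Submodule K Cl := Subalgebra.toSubmodule L.toSubalgebra
  have hSfd : FiniteDimensional K S := hfd
  have hSp : ProperSpace S := FiniteDimensional.proper K S
  have hc : IsCompact (Metric.closedBall (0 : S) 1) := isCompact_closedBall 0 1
  obtain ⟨t, _, htf, ht⟩ := hc.finite_cover_balls (e := 1) one_pos
  refine ⟨L, hXL x (MulAction.mem_orbit_self x), hstab, Subtype.val '' t, htf.image _, ?_⟩
  intro y hy hy1
  have h1 : (⟨y, hy⟩ : S) ∈ Metric.closedBall (0 : S) 1 := by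
    rw [mem_closedBall_zero_iff]; exact hy1
  have h2 := ht h1
  simp only [Set.mem_iUnion] at h2
  obtain ⟨z, hz, hyz⟩ := h2
  refine ⟨z, ⟨z, hz, rfl⟩, ?_⟩
  rw [Metric.mem_ball, dist_eq_norm] at hyz
  exact hyz

theorem triP_tame [ProperSpace K] [IsUltrametricDist Cl] (h2 : ‖(2 : K)‖ = 1)
    (hiso : ∀ (σ : Cl ≃ₐ[K] Cl) (x : Cl), ‖σ x‖ = ‖x‖) (x : Cl)
    (hnt : ∃ a : Cl ≃ₐ[K] Cl, a • x ≠ x) : TriP K x := by
  obtain ⟨L, hx, hL, hfin⟩ := exists_stable (K := K) x
  refine tame_orbit ?_ hiso hL hfin hx (finite_orbit x) hnt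
  have : (2 : Cl) = algebraMap K Cl 2 := by rw [map_ofNat]
  rw [this, norm_algebraMap', h2]

end

theorem locR_tame {K : Type*} [NontriviallyNormedField K] [IsUltrametricDist K]
    [ProperSpace K] [CharZero K] (h2 : ‖(2 : K)‖ = 1) {m : ℕ} (hm : 0 < m)
    {F : K[X]} (hFm : F.Monic) (hFd : F.natDegree = 2 * m) (hFs : F.Separable) : LocR m F := by
  obtain ⟨Cl, i1, i2, i3, i4, i5, i6, hiso⟩ := exists_normedAlgClosure_ultra K
  exact locR_of_tri (Cl := Cl) hiso (fun x hx => triP_tame h2 hiso x hx) hm hFm hFd hFs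

lemma hiso_real (σ : ℂ ≃ₐ[ℝ] ℂ) (x : ℂ) : ‖σ x‖ = ‖x‖ := by
  rcases Complex.real_algHom_eq_id_or_conj (σ : ℂ →ₐ[ℝ] ℂ) with h | h
  · have h1 : σ x = (σ : ℂ →ₐ[ℝ] ℂ) x := rfl
    rw [h1, h]; rfl
  · have h1 : σ x = (σ : ℂ →ₐ[ℝ] ℂ) x := rfl
    rw [h1, h]
    exact Complex.norm_conj x

lemma triP_real (x : ℂ) (hnt : ∃ a : ℂ ≃ₐ[ℝ] ℂ, a • x ≠ x) : TriP ℝ x := by
  have hcases : ∀ (σ : ℂ ≃ₐ[ℝ] ℂ) (y : ℂ), σ y = y ∨ σ y = starRingEnd ℂ y := by
    intro σ y
    rcases Complex.real_algHom_eq_id_or_conj (σ : ℂ →ₐ[ℝ] ℂ) with h | h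
    · left
      have h1 : σ y = (σ : ℂ →ₐ[ℝ] ℂ) y := rfl
      rw [h1, h]; rfl
    · right
      have h1 : σ y = (σ : ℂ →ₐ[ℝ] ℂ) y := rfl
      rw [h1, h]; rfl
  have hconj : ∀ y, Complex.conjAe y = starRingEnd ℂ y := fun y => rfl
  right
  refine ⟨Complex.conjAe, ?_⟩
  obtain ⟨a, ha⟩ := hnt
  have ha' : a x ≠ x := ha
  have hx : starRingEnd ℂ x ≠ x := by
    rcases hcases a x with h | h
    · exact absurd h ha'
    · rwa [h] at ha'
  rintro y ⟨g, rfl⟩
  have hy : starRingEnd ℂ (g x) ≠ g x := by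
    rcases hcases g x with h | h
    · rw [h]; exact hx
    · rw [h, Complex.conj_conj]; exact hx.symm
  refine ⟨?_, hy, ?_⟩
  · exact Complex.conj_conj (g x)
  · intro g'
    change g' (starRingEnd ℂ (g x)) = starRingEnd ℂ (g' (g x))
    rcases Complex.real_algHom_eq_id_or_conj (g' : ℂ →ₐ[ℝ] ℂ) with h | h
    · have h1 : ∀ z, g' z = z := fun z => by
        have h1 : g' z = (g' : ℂ →ₐ[ℝ] ℂ) z := rfl
        rw [h1, h]; rfl
      rw [h1, h1]
    · have h1 : ∀ z, g' z = starRingEnd ℂ z := fun z => by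
        have h1 : g' z = (g' : ℂ →ₐ[ℝ] ℂ) z := rfl
        rw [h1, h]; rfl
      rw [h1, h1]

lemma locR_real {m : ℕ} (hm : 0 < m) {F : ℝ[X]} (hFm : F.Monic) (hFd : F.natDegree = 2 * m)
    (hFs : F.Separable) : LocR m F := by
  have : IsAlgClosure ℝ ℂ := ⟨inferInstance, inferInstance⟩
  have : IsGalois ℝ ℂ := IsAlgClosure.isGalois ℝ ℂ
  exact locR_of_tri (Cl := ℂ) hiso_real (fun x hx => triP_real x hx) hm hFm hFd hFs

lemma locR_complex {m : ℕ} (hm : 0 < m) {F : ℂ[X]} (hFm : F.Monic) (hFd : F.natDegree = 2 * m)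
    (hFs : F.Separable) : LocR m F := by
  have : IsGalois ℂ ℂ := inferInstance
  refine locR_of_tri (Cl := ℂ) (fun σ x => ?_) (fun x hx => ?_) hm hFm hFd hFs
  · have h1 : σ x = x := σ.commutes x
    rw [h1]
  · obtain ⟨a, ha⟩ := hx
    exact absurd (a.commutes x) ha

/-- `K[X] / (P)` has an involution without fixed points. -/
def HasInvol {R : Type*} [CommRing R] (P : R[X]) : Prop :=
  ∃ T : R[X], P ∣ P.comp T ∧ P ∣ T.comp T - X ∧ IsCoprime P (T - X)

section Invol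

variable {K Cl : Type*} [Field K] [Field Cl] [Algebra K Cl] {I : Type*} [Fintype I]
  [DecidableEq I]

lemma exists_perm_of_invol {F : K[X]} {ρ : I → Cl} (hρ : Function.Injective ρ)
    (hF : F.map (algebraMap K Cl) = nod ρ) (h : HasInvol F) :
    ∃ (ν : I ≃ I) (T : K[X]), (∀ i, ν (ν i) = i) ∧ (∀ i, ν i ≠ i) ∧
      ∀ i, aeval (ρ i) T = ρ (ν i) := by
  obtain ⟨T, h1, h2, h3⟩ := h
  have hroot : ∀ i, aeval (ρ i) F = 0 := by
    intro i
    rw [aeval_def, ← eval_map, hF, eval_nod_self]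
  have hdvd : ∀ (Q : K[X]) (i : I), F ∣ Q → aeval (ρ i) Q = 0 := by
    rintro _ i ⟨R, rfl⟩
    rw [map_mul, hroot, zero_mul]
  have hex : ∀ i, ∃ k, aeval (ρ i) T = ρ k := by
    intro i
    have h4 := hdvd _ i h1
    rw [aeval_comp] at h4
    apply (eval_nod_eq_zero_iff ρ _).mp
    rw [← hF, eval_map, ← aeval_def]
    exact h4
  choose ν hν using hex
  have hνν : ∀ i, ν (ν i) = i := by
    intro i
    have h4 := hdvd _ i h2
    rw [map_sub, aeval_comp, aeval_X, hν, hν, sub_eq_zero] at h4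
    exact hρ h4
  refine ⟨⟨ν, ν, hνν, hνν⟩, T, hνν, ?_, hν⟩
  intro i h4
  change ν i = i at h4
  obtain ⟨a, b, hab⟩ := h3
  have h5 := congrArg (aeval (ρ i)) hab
  rw [map_add, map_mul, map_mul, hroot, map_sub, aeval_X, hν, h4, sub_self, mul_zero, mul_zero,
    add_zero, map_one] at h5
  exact zero_ne_one h5

end Invol

section InvolLoc

variable {K Cl : Type*} [Field K] [CharZero K] [Field Cl] [CharZero Cl] [Algebra K Cl]
  [IsGalois K Cl] {I : Type*} [Fintype I] [DecidableEq I]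

/-- Transport of an involution along an equivariant bijection of roots. -/
theorem locR_of_invol_labels {m : ℕ} (hI : Fintype.card I = 2 * m) {F g : K[X]} {ρ x : I → Cl}
    (hρ : Function.Injective ρ) (hF : F.map (algebraMap K Cl) = nod ρ) (h : HasInvol F)
    (hx : Function.Injective x) (hg : g.map (algebraMap K Cl) = nod x)
    (heq : ∀ (σ : Cl ≃ₐ[K] Cl) (i : I), ∃ k, σ (x i) = x k ∧ σ (ρ i) = ρ k) : LocR m g := by
  obtain ⟨ν, T, h1, h2, h3⟩ := exists_perm_of_invol hρ hF h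
  refine locR_of_involution hI hx hg ν h1 h2 ?_
  intro σ i
  obtain ⟨k, h4, h5⟩ := heq σ i
  refine ⟨k, h4, ?_⟩
  obtain ⟨k', h6, h7⟩ := heq σ (ν i)
  have h8 : k' = ν k := by
    apply hρ
    rw [← h7, ← h3, ← h3, ← h5]
    exact (aeval_algHom_apply (σ : Cl →ₐ[K] Cl) (ρ i) T).symm
  rw [h6, h8]

end InvolLoc

theorem locR_of_invol {K : Type*} [NontriviallyNormedField K] [IsUltrametricDist K]
    [ProperSpace K] [CharZero K] {m : ℕ} {F : K[X]} (hFm : F.Monic) (hFd : F.natDegree = 2 * m)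
    (hFs : F.Separable) (h : HasInvol F) : LocR m F := by
  obtain ⟨Cl, i1, i2, i3, i4, i5, i6, hiso⟩ := exists_normedAlgClosure_ultra K
  obtain ⟨ρ, hρ, hF⟩ := exists_nod (algebraMap K Cl) hFm hFd hFs
  refine locR_of_invol_labels (Cl := Cl) (Fintype.card_fin _) hρ hF h hρ hF fun σ i => ?_
  obtain ⟨π, hπ⟩ := exists_perm hF hρ σ
  exact ⟨π i, hπ i, hπ i⟩

end Pool.Agent.Lib.MP_12adaf_nt
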