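import Mathlib
import Pool.Agent.Lib.MP_12adaf_nt.TameLoc

/-!
# Weak approximation over number fields away from the dyadic places
-/

namespace Pool.Agent.Lib.MP_12adaf_nt

set_option linter.unusedSectionVars false
set_option linter.unusedVariables false
set_option autoImplicit false

open Finset Polynomial Filter Topology NumberField IsDedekindDomain

lemma LocR.map_equiv {K L : Type*} [Field K] [CharZero K] [Field L] [CharZero L] (e : K ≃+* L)
    {m : ℕ} {F : K[X]} (h : LocR m F) : LocR m (F.map (e : K →+* L)) := by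
  obtain ⟨f, κ, h1, h2, h3, h4, h5⟩ := h
  refine ⟨f.map (e : K →+* L), e κ, h1.map _, by rw [natDegree_map, h2], h3.map, ?_, ?_⟩
  · rw [coeff_map]
    exact (_root_.map_ne_zero _).mpr h4
  · have h6 := h5.map (e : K →+* L) (h1.expand (by norm_num))
      (by rw [natDegree_expand, h2, mul_comm])
    rw [map_expand] at h6
    exact h6

lemma map_symm_map {K L : Type*} [Field K] [Field L] (e : K ≃+* L) (F : K[X]) :
    (F.map (e : K →+* L)).map (e.symm : L →+* K) = F := by
  rw [Polynomial.map_map]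
  have h2 : (e.symm : L →+* K).comp (e : K →+* L) = RingHom.id K := by
    ext x; simp
  rw [h2, Polynomial.map_id]

lemma LocR.of_equiv {K L : Type*} [Field K] [CharZero K] [Field L] [CharZero L] (e : K ≃+* L)
    {m : ℕ} {F : K[X]} (h : LocR m (F.map (e : K →+* L))) : LocR m F := by
  have h1 := h.map_equiv e.symm
  rwa [map_symm_map] at h1

/-- The condition at a place: archimedean, or not above `2`. -/
def OffTwo {k : Type*} [Field k] [NumberField k] : Pl k → Prop
  | .inl _ => True
  | .inr w => ‖(2 : w.adicCompletion k)‖ = 1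

theorem locR_place {k : Type*} [Field k] [NumberField k] (i : Pl k) {m : ℕ} (hm : 0 < m)
    {F : (PlC k i)[X]} (hF : F.Monic) (hdeg : F.natDegree = 2 * m) (hsep : F.Separable)
    (h : OffTwo i ∨ HasInvol F) : LocR m F := by
  rcases i with v | w
  · rcases exists_equiv_real_or_complex v with ⟨e, he⟩ | ⟨e, he⟩
    · have e' : PlC k (Sum.inl v) ≃+* ℝ := e
      apply LocR.of_equiv e'
      exact locR_real hm (hF.map _) (by rw [natDegree_map, hdeg]) hsep.map
    · have e' : PlC k (Sum.inl v) ≃+* ℂ := e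
      apply LocR.of_equiv e'
      exact locR_complex hm (hF.map _) (by rw [natDegree_map, hdeg]) hsep.map
  · rcases h with h | h
    · exact locR_tame (K := w.adicCompletion k) h hm hF hdeg hsep
    · exact locR_of_invol (K := w.adicCompletion k) hF hdeg hsep h

theorem weakApprox_tame_even {k : Type*} [Field k] [NumberField k] {m : ℕ} (hm : 0 < m)
    {d : k} (hd : d ≠ 0) {ι : Type*} [Fintype ι] [Nonempty ι] (f : ι → Pl k)
    (hf : Function.Injective f) (F : ∀ i, (PlC k (f i))[X]) (Y : ∀ i, PlC k (f i))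
    (hF : ∀ i, PtK (2 * m) (plEmb k (f i) d) (F i) (Y i)) (h : ∀ i, LocR m (F i))
    {ε : ℝ} (hε : 0 < ε) :
    ∃ (P : k[X]) (y : k), PtK (2 * m) d P y ∧
      ∀ i, (∀ m, ‖plEmb k (f i) (P.coeff m) - (F i).coeff m‖ < ε) ∧
        ‖plEmb k (f i) y - Y i‖ < ε := by
  classical
  exact appr_of_locR (φ := fun i => plEmb k (f i)) (denseRange_places k f hf) hm hd F Y hF h ε hε

/-- The local statement in odd degree. -/
def LocOR {K : Type*} [Field K] [CharZero K] (m : ℕ) (F : K[X]) : Prop :=
  ∃ (g : K[X]) (t : K) (T : K[X]), OData (2 * m) F g t T ∧ g.Monic ∧ g.natDegree = 2 * m ∧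
    g.Separable ∧ LocR m g

lemma LocOR.map_equiv {K L : Type*} [Field K] [CharZero K] [Field L] [CharZero L] (e : K ≃+* L)
    {m : ℕ} {F : K[X]} (h : LocOR m F) : LocOR m (F.map (e : K →+* L)) := by
  obtain ⟨g, t, T, h1, h2, h3, h4, h5⟩ := h
  exact ⟨g.map (e : K →+* L), e t, T.map (e : K →+* L), h1.map (e : K →+* L), h2.map _,
    by rw [natDegree_map, h3], h4.map, h5.map_equiv e⟩

lemma LocOR.of_equiv {K L : Type*} [Field K] [CharZero K] [Field L] [CharZero L] (e : K ≃+* L)
    {m : ℕ} {F : K[X]} (h : LocOR m (F.map (e : K →+* L))) : LocOR m F := by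
  have h1 := h.map_equiv e.symm
  rwa [map_symm_map] at h1

/-- `P = (X - a) q` where `K[X] / (q)` has an involution without fixed points. -/
def HasInvolO {R : Type*} [CommRing R] (P : R[X]) : Prop :=
  ∃ (a : R) (q : R[X]), q.Monic ∧ P = (X - C a) * q ∧ HasInvol q

theorem locOR_of_data {K Cl : Type*} [NontriviallyNormedField K] [NormedField Cl]
    [NormedAlgebra K Cl] [IsAlgClosed Cl] [IsGalois K Cl] [CharZero K] [CharZero Cl]
    (hiso : ∀ (σ : Cl ≃ₐ[K] Cl) (x : Cl), ‖σ x‖ = ‖x‖)
    {m : ℕ} {F : K[X]} (hF : F.Monic) (hdeg : F.natDegree = 2 * m + 1)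
    (hsep : F.Separable)
    (h : (∀ g : K[X], g.Monic → g.natDegree = 2 * m → g.Separable → LocR m g) ∨
      HasInvolO F) : LocOR m F := by
  have key : ∀ {p q : K[X]} {m0 b : ℕ}, p.Monic → q.Monic → F = p * q →
      p.natDegree = m0 + 1 → Even m0 → q.natDegree = b → Even b → m0 + b = 2 * m →
      ((∀ g : K[X], g.Monic → g.natDegree = 2 * m → g.Separable → LocR m g) ∨
        (m0 = 0 ∧ HasInvol q)) → LocOR m F := by
    intro p q m0 b hp hq hFpq hpd hm0 hqd hb hmb hcase
    subst hFpq
    obtain ⟨g, x, c, t, θ, ρ, hgx, hx, hnd, hc, hc0, hθ, hroot, hρ, heq, xq, hxq, hxq', hact⟩ :=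
      oPre_of_mul_act hiso hp hq hsep hpd hm0 hqd hb
    have hJ : Fintype.card (Fin m0 ⊕ Fin b) = 2 * m := by simp; omega
    have hI : Fintype.card (Fin (m0 + 1) ⊕ Fin b) = 2 * m + 1 := by simp; omega
    obtain ⟨T, hT⟩ := OData_of_roots hJ hI hgx hx hnd hc hc0 hθ hroot hρ heq
    have hgm : g.Monic := by
      have := nod_monic x
      rw [← hgx] at this
      exact ((algebraMap K Cl).injective.monic_map_iff).mpr this
    have hgN : g.natDegree = 2 * m := by
      have := natDegree_nod x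
      rw [← hgx, natDegree_map, hJ] at this
      exact this
    have hgs : g.Separable := by
      have := nod_separable hx
      rw [← hgx, separable_map] at this
      exact this
    refine ⟨g, t, T, hT, hgm, hgN, hgs, ?_⟩
    rcases hcase with hall | ⟨h0, hinv⟩
    · exact hall g hgm hgN hgs
    · subst h0
      have hbm : Fintype.card (Fin b) = 2 * m := by rw [Fintype.card_fin]; omega
      refine locR_of_invol_labels (I := Fin b) hbm hxq hxq' hinv
        (x := fun j => x (Sum.inr j)) (fun i j hij => Sum.inr.inj (hx hij)) ?_ hact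
      rw [hgx, nod, nod, Fintype.prod_sum_type]
      simp
  rcases h with hall | ⟨a, q, hq, hFq, hinv⟩
  · exact key (p := F) (q := 1) (m0 := 2 * m) (b := 0) hF monic_one (mul_one F).symm hdeg
      (even_two_mul m) natDegree_one Even.zero (by omega) (Or.inl hall)
  · have h1 : q.natDegree = 2 * m := by
      rw [hFq, (monic_X_sub_C a).natDegree_mul hq, natDegree_X_sub_C] at hdeg
      omega
    exact key (p := X - C a) (q := q) (m0 := 0) (b := 2 * m) (monic_X_sub_C a) hq hFq
      (natDegree_X_sub_C a) Even.zero h1 (even_two_mul m) (by omega) (Or.inr ⟨rfl, hinv⟩)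

theorem locOR_place {k : Type*} [Field k] [NumberField k] (i : Pl k) {m : ℕ} (hm : 0 < m)
    {F : (PlC k i)[X]} (hF : F.Monic) (hdeg : F.natDegree = 2 * m + 1) (hsep : F.Separable)
    (h : OffTwo i ∨ HasInvolO F) : LocOR m F := by
  rcases i with v | w
  · rcases exists_equiv_real_or_complex v with ⟨e, he⟩ | ⟨e, he⟩
    · have e' : PlC k (Sum.inl v) ≃+* ℝ := e
      apply LocOR.of_equiv e'
      have : IsAlgClosure ℝ ℂ := ⟨inferInstance, inferInstance⟩
      have : IsGalois ℝ ℂ := IsAlgClosure.isGalois ℝ ℂ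
      exact locOR_of_data (Cl := ℂ) hiso_real (hF.map _) (by rw [natDegree_map, hdeg]) hsep.map
        (Or.inl fun g h1 h2 h3 => locR_real hm h1 h2 h3)
    · have e' : PlC k (Sum.inl v) ≃+* ℂ := e
      apply LocOR.of_equiv e'
      have : IsGalois ℂ ℂ := inferInstance
      refine locOR_of_data (Cl := ℂ) (fun σ x => ?_) (hF.map _) (by rw [natDegree_map, hdeg])
        hsep.map (Or.inl fun g h1 h2 h3 => locR_complex hm h1 h2 h3)
      have h1 : σ x = x := σ.commutes x
      rw [h1]
  · obtain ⟨Cl, i1, i2, i3, i4, i5, i6, hiso⟩ := exists_normedAlgClosure_ultra (w.adicCompletion k)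
    refine locOR_of_data (K := w.adicCompletion k) (Cl := Cl) hiso hF hdeg hsep ?_
    rcases h with h | h
    · exact Or.inl fun g h1 h2 h3 => locR_tame (K := w.adicCompletion k) h hm h1 h2 h3
    · exact Or.inr h

theorem weakApprox_tame_odd {k : Type*} [Field k] [NumberField k] {m : ℕ} (hm : 0 < m)
    {d : k} (hd : d ≠ 0) {ι : Type*} [Fintype ι] [Nonempty ι] (f : ι → Pl k)
    (hf : Function.Injective f) (F : ∀ i, (PlC k (f i))[X]) (Y : ∀ i, PlC k (f i))
    (hF : ∀ i, PtK (2 * m + 1) (plEmb k (f i) d) (F i) (Y i)) (h : ∀ i, LocOR m (F i))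
    {ε : ℝ} (hε : 0 < ε) :
    ∃ (P : k[X]) (y : k), PtK (2 * m + 1) d P y ∧
      ∀ i, (∀ m, ‖plEmb k (f i) (P.coeff m) - (F i).coeff m‖ < ε) ∧
        ‖plEmb k (f i) y - Y i‖ < ε := by
  choose g t T hT hgm hgN hgs hgood using h
  obtain ⟨P, y, h1, h2, h3, h4, h5⟩ := global_of_local_odd (fun i => PlC k (f i))
    (fun i => plEmb k (f i))
    (denseRange_places k f hf) (even_two_mul m) hd F Y (fun i => (hF i).disc)
    (fun i => (hF i).ne) g t T hT
    (fun z hz1 hz2 ε' hε' => by
      obtain ⟨P, y, hP, hc⟩ := weakApprox_tame_even hm hd f hf g z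
        (fun i => ⟨hgm i, hgN i, hz1 i, hz2 i⟩) hgood hε'
      exact ⟨P, y, hP.monic, hP.deg, hP.disc, hP.ne, hc⟩) hε
  exact ⟨P, y, ⟨h1, h2, h3, h4⟩, h5⟩

end Pool.Agent.Lib.MP_12adaf_nt
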